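import Pool.Agent.H51.TD.PCA

/-! # MXA: limits of codes maximise the direction of approach -/

set_option autoImplicit false

open Topology Filter Set Function

namespace TorD

theorem MXA_ip_cont {X : Type} [TopologicalSpace X] {a b : X → ℂ} (ha : Continuous a)
    (hb : Continuous b) : Continuous fun x => ip (a x) (b x) := by
  unfold ip
  exact ((Complex.continuous_re.comp ha).mul (Complex.continuous_re.comp hb)).add
    ((Complex.continuous_im.comp ha).mul (Complex.continuous_im.comp hb))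

theorem MXA_ip_tendsto {a b : ℕ → ℂ} {x y : ℂ} (ha : Tendsto a atTop (𝓝 x))
    (hb : Tendsto b atTop (𝓝 y)) : Tendsto (fun n => ip (a n) (b n)) atTop (𝓝 (ip x y)) := by
  have h1 : Continuous fun p : ℂ × ℂ => ip p.1 p.2 := MXA_ip_cont continuous_fst continuous_snd
  exact (h1.tendsto (x, y)).comp (ha.prodMk_nhds hb)

theorem Fam.mx {ι : Type} (A : Fam ι) (i : ι) {y v θ : ℂ} {ys vs : ℕ → ℂ}
    (hy : Tendsto ys atTop (𝓝 y)) (hne : ∀ n, ys n ≠ y)
    (hθ : Tendsto (fun n => (‖ys n - y‖⁻¹ : ℝ) • (ys n - y)) atTop (𝓝 θ))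
    (hv : Tendsto vs atTop (𝓝 v)) (h : ∀ n, vs n ∈ A.D i (ys n)) :
    v ∈ A.D i y ∧ ∀ v' ∈ A.D i y, ip v' θ ≤ ip v θ := by
  refine ⟨A.D_closed i hy hv h, fun v' hv' => ?_⟩
  have h1 : ∀ n, -16 * ‖ys n - y‖ ≤ ip (vs n - v') ((‖ys n - y‖⁻¹ : ℝ) • (ys n - y)) := by
    intro n
    have hpos : 0 < ‖ys n - y‖ := norm_pos_iff.2 (sub_ne_zero.2 (hne n))
    have h2 := A.D_mono i (h n) hv'
    rw [ip_smul_right, inv_mul_eq_div, le_div_iff₀ hpos]
    calc -16 * ‖ys n - y‖ * ‖ys n - y‖ = -16 * ‖ys n - y‖ ^ 2 := by ring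
      _ ≤ _ := by linarith
  have h3 : Tendsto (fun n => -16 * ‖ys n - y‖) atTop (𝓝 (-16 * 0)) := by
    have : Tendsto (fun n => ‖ys n - y‖) atTop (𝓝 0) := by
      rw [← tendsto_iff_norm_sub_tendsto_zero]; exact hy
    exact this.const_mul _
  rw [mul_zero] at h3
  have h4 := MXA_ip_tendsto (hv.sub_const v') hθ
  have h5 := le_of_tendsto_of_tendsto' h3 h4 h1
  rw [ip_sub_left] at h5
  linarith

end TorD
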