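import Pool.Agent.H51.TD.PCB
import Pool.Agent.H51.TD.MXA

/-! # AMA: uniqueness of the maximiser of a direction, limits along rays

PROOF. `x = rd (y - q)`, `u = A.u i`. Not On: `D` is a singleton. On, `u = 0`: `D` = unit ball, the maximiser of `θ` (`‖θ‖ = 1`) is `θ` (equality case: `ip v θ = 1`, `‖v‖ ≤ 1`
gives `‖v - θ‖² ≤ 0`). On, `u ≠ 0`, `x = t u`, `e = u/‖u‖`, `n = i e`; write `θ = a e + b n`, `a² + b² = 1`, `v = α e + β n`, `α² + β² ≤ 1`; `v ∈ D` iff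
(`|t| < 1`: `α = 0`), (`t = 1`: `α ≥ 0`), (`t = -1`: `α ≤ 0`).
`|t| < 1`: maximise `β b`: `b ≠ 0`: `β = sign b`, unique. `b = 0`: `θ = ±e`, all `β`; here `y + ε θ` is on the piece for small `ε` (On_loc, On_iff).
`t = 1`: if `a > 0`, maximiser `v = θ` (equality case of Cauchy-Schwarz). If `a < 0`: maximiser has `α = 0` when `b ≠ 0` (`a α + b β ≤ b β`, equality iff `α = 0`, then `β = sign b`:
unique); if `b = 0` (`θ = -e`): maximum 0 attained at `α = 0`, any `β`; here `y + ε θ` is on the piece. If `a = 0`: `θ = ±n`, maximiser `v = θ`. `t = -1`: symmetric.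
So the maximiser is unique unless `θ = s e`, `s = ±1`, and `y + ε θ` is on the piece for small `ε > 0`, and then the maximisers are the `β n`, `|β| ≤ 1`.
lim_V: existence of `lim_(ε → 0+) V i (y + ε θ) s`: if `al i y θ` it is eventually `s n`. Otherwise `y + ε θ` is not on the piece for all small `ε > 0` (a ray meets the segment near `y`
in an initial interval or only in `y`): `V = sel`. If `y` is not on the piece: continuity. If `y` is on it: `z(ε) = x + ε θ - pj u (x + ε θ)` is linear in small `ε`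
(`z(ε) = ε ζ`, `ζ ≠ 0` fixed: by the formula for `pj` (clamp), for small `ε`), so `sel0 = (1 - 8 ε ‖ζ‖) ζ/‖ζ‖` converges. (Alternatively: all limit points are in `D i y` and maximise
`θ` (mx), and the maximiser is unique by the first part, so by compactness the limit exists; this avoids the formula.)
W_mem, W_max: mx along `ε = 1/(n+1)` for `V_mem`. W_al: eventually constant. -/

set_option autoImplicit false

open Topology Filter Set Function

namespace TorD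

namespace Fam

variable {ι : Type} (A : Fam ι) (i : ι)

theorem AMA_re (z : ℂ) (r : ℝ) : (r • z).re = r * z.re := by simp
theorem AMA_im (z : ℂ) (r : ℝ) : (r • z).im = r * z.im := by simp

theorem AMA_dec (h : A.u i ≠ 0) (z : ℂ) : z = ip z (A.e i) • A.e i + ip z (A.nn i) • A.nn i := by
  have h1 : ip (A.e i) (A.e i) = 1 := by rw [ip_self, A.e_norm i h, one_pow]
  obtain ⟨a, ha⟩ : ∃ a, a = (A.e i).re := ⟨_, rfl⟩
  obtain ⟨b, hb⟩ : ∃ b, b = (A.e i).im := ⟨_, rfl⟩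
  have h2 : (A.nn i).re = -b := by rw [hb]; unfold nn; simp
  have h3 : (A.nn i).im = a := by rw [ha]; unfold nn; simp
  unfold ip at h1 ⊢
  rw [← ha, ← hb] at h1
  apply Complex.ext
  · rw [Complex.add_re, AMA_re, AMA_re, h2, h3, ← ha, ← hb]
    linear_combination (-z.re) * h1
  · rw [Complex.add_im, AMA_im, AMA_im, h2, h3, ← ha, ← hb]
    linear_combination (-z.im) * h1

theorem AMA_u (h : A.u i ≠ 0) : A.u i = ‖A.u i‖ • A.e i := by
  unfold e
  rw [smul_smul, mul_inv_cancel₀ (norm_ne_zero_iff.2 h), one_smul]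

/-- unit vectors orthogonal to the normal -/
theorem AMA_pm (h : A.u i ≠ 0) {θ : ℂ} (hθ : ‖θ‖ = 1) (h0 : ip θ (A.nn i) = 0) :
    θ = A.e i ∨ θ = -A.e i := by
  have h1 := A.AMA_dec i h θ
  rw [h0, zero_smul, add_zero] at h1
  have h2 : |ip θ (A.e i)| = 1 := by
    have h3 := congrArg norm h1
    rw [norm_smul, A.e_norm i h, mul_one, hθ, Real.norm_eq_abs] at h3
    exact h3.symm
  rcases (abs_eq (zero_le_one' ℝ)).1 h2 with h3 | h3
  · left
    rw [h3, one_smul] at h1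
    exact h1
  · right
    rw [h3, neg_smul, one_smul] at h1
    exact h1

/-- membership at a point of the piece -/
theorem AMA_mem {y : ℂ} (hon : A.On i y) {t : ℝ} (hx : rd (y - A.q i) = t • A.u i) (z : ℂ) :
    z ∈ A.D i y ↔ ‖z‖ ≤ 1 ∧ ∀ t' ∈ Icc (-1 : ℝ) 1, (t' - t) * ip z (A.u i) ≤ 0 := by
  have h1 : ∀ t' : ℝ, ip z (t' • A.u i - rd (y - A.q i)) = (t' - t) * ip z (A.u i) := by
    intro t'
    rw [hx, ← sub_smul, ip_smul_right]
  unfold D D0
  rw [mem_ofPred_eq]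
  constructor
  · rintro (⟨h2, -⟩ | ⟨-, h2, h3⟩)
    · exact absurd hon h2
    · exact ⟨h2, fun t' ht' => by rw [← h1]; exact h3 t' ht'⟩
  · rintro ⟨h2, h3⟩
    exact Or.inr ⟨hon, h2, fun t' ht' => by rw [h1]; exact h3 t' ht'⟩

/-- the ray stays on the piece -/
theorem AMA_al {y θ : ℂ} {t d ρ : ℝ} (hx : rd (y - A.q i) = t • A.u i) (ht : t ∈ Icc (-1 : ℝ) 1)
    (htd : t + d ∈ Icc (-1 : ℝ) 1) (hθ : θ = ρ • A.u i) (hd : 0 < d * ρ) : A.al i y θ := by
  obtain ⟨w, hw⟩ := rd_sub (y - A.q i)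
  rw [hx] at hw
  have hy : y = A.q i + t • A.u i + lat w := by rw [hw]; ring
  have h1 : ∀ᶠ ε in 𝓝[>] (0 : ℝ), ε < d / ρ := by
    have h2 : 0 < d / ρ := by
      rcases lt_or_gt_of_ne (fun h0 : ρ = 0 => by rw [h0, mul_zero] at hd; exact lt_irrefl _ hd) with h3 | h3
      · exact div_pos_of_neg_of_neg (by nlinarith) h3
      · exact div_pos (by nlinarith) h3
    exact (eventually_lt_nhds h2).filter_mono nhdsWithin_le_nhds
  unfold al
  filter_upwards [h1, self_mem_nhdsWithin] with ε h2 h3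
  have h3' : 0 < ε := h3
  rw [A.On_iff]
  refine ⟨w, t + ε * ρ, ?_, ?_⟩
  · rcases lt_trichotomy ρ 0 with h4 | h4 | h4
    · have h5 : d < ε * ρ := (lt_div_iff_of_neg h4).1 h2
      have h6 : ε * ρ < 0 := mul_neg_of_pos_of_neg h3' h4
      exact ⟨by linarith [htd.1], by linarith [ht.2]⟩
    · rw [h4, mul_zero] at hd
      exact absurd hd (lt_irrefl _)
    · have h5 : ε * ρ < d := (lt_div_iff₀ h4).1 h2
      have h6 : 0 < ε * ρ := mul_pos h3' h4
      exact ⟨by linarith [ht.1], by linarith [htd.2]⟩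
  · rw [hy, hθ, smul_smul, add_smul]
    ring

theorem AMA_mid {v v' : ℂ} (h : ‖v‖ ≤ 1) (h' : ‖v'‖ ≤ 1) (hne : v ≠ v') :
    ‖(1 / 2 : ℝ) • (v + v')‖ < 1 := by
  have h1 : 0 < ‖v - v'‖ := norm_pos_iff.2 (sub_ne_zero.2 hne)
  have h2 := parallelogram_law_with_norm ℝ v v'
  have h3 : ‖v + v'‖ < 2 := by nlinarith [norm_nonneg (v + v'), norm_nonneg v, norm_nonneg v']
  rw [norm_smul, Real.norm_of_nonneg (by norm_num)]
  linarith

/-- the two orthogonality facts -/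
theorem AMA_core {y θ v v' : ℂ} {t : ℝ} (hon : A.On i y) (hx : rd (y - A.q i) = t • A.u i)
    (hθ : ‖θ‖ = 1) (hv : v ∈ A.D i y) (hv' : v' ∈ A.D i y) (hne : v ≠ v')
    (h : ∀ w ∈ A.D i y, ip w θ ≤ ip v θ) (h' : ∀ w ∈ A.D i y, ip w θ ≤ ip v' θ) :
    ip v (A.u i) = 0 ∧ ip v' (A.u i) = 0 ∧ ∃ t' ∈ Icc (-1 : ℝ) 1, 0 < (t' - t) * ip θ (A.u i) := by
  have hvv : ip v θ = ip v' θ := le_antisymm (h' v hv) (h v' hv')
  obtain ⟨w, hw⟩ : ∃ w : ℂ, w = (1 / 2 : ℝ) • (v + v') := ⟨_, rfl⟩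
  have hm := A.AMA_mem i hon hx
  obtain ⟨n1, c1⟩ := (hm v).1 hv
  obtain ⟨n2, c2⟩ := (hm v').1 hv'
  have hw1 : ‖w‖ < 1 := by rw [hw]; exact AMA_mid n1 n2 hne
  have hwθ : ip w θ = ip v θ := by
    rw [hw, ip_smul_left, ip_add_left, ← hvv]
    ring
  have hwu : ip w (A.u i) = (ip v (A.u i) + ip v' (A.u i)) / 2 := by
    rw [hw, ip_smul_left, ip_add_left]
    ring
  have hc : ∀ t' ∈ Icc (-1 : ℝ) 1, (t' - t) * ip w (A.u i) ≤ 0 := by
    intro t' ht'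
    rw [hwu]
    have e1 := c1 t' ht'
    have e2 := c2 t' ht'
    linarith
  have key : ∀ δ : ℝ, 0 < δ → δ ≤ 1 - ‖w‖ →
      ∃ t' ∈ Icc (-1 : ℝ) 1, 0 < (t' - t) * (ip w (A.u i) + δ * ip θ (A.u i)) := by
    intro δ h1 h2
    by_contra hcon
    push Not at hcon
    have h3 : w + δ • θ ∈ A.D i y := by
      rw [hm]
      refine ⟨?_, fun t' ht' => ?_⟩
      · refine (norm_add_le _ _).trans ?_
        rw [norm_smul, hθ, Real.norm_of_nonneg h1.le]
        linarith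
      · rw [ip_add_left, ip_smul_left]
        exact hcon t' ht'
    have h4 := h _ h3
    rw [ip_add_left, ip_smul_left, ip_self, hθ, hwθ] at h4
    linarith
  have h0 : ip w (A.u i) = 0 := by
    by_contra hne0
    obtain ⟨c, hcdef⟩ : ∃ c, c = ip w (A.u i) := ⟨_, rfl⟩
    obtain ⟨b, hbdef⟩ : ∃ b, b = ip θ (A.u i) := ⟨_, rfl⟩
    rw [← hcdef] at hne0 hc key
    rw [← hbdef] at key
    have hcpos : 0 < |c| := abs_pos.2 hne0
    obtain ⟨δ, hδ⟩ : ∃ δ, δ = min (1 - ‖w‖) (|c| / (|b| + 1)) := ⟨_, rfl⟩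
    have hb0 : 0 ≤ |b| := abs_nonneg b
    have hδ0 : 0 < δ := by rw [hδ]; exact lt_min (by linarith) (by positivity)
    have hδ1 : δ ≤ 1 - ‖w‖ := by rw [hδ]; exact min_le_left _ _
    have hδ2 : δ * (|b| + 1) ≤ |c| := by
      rw [← le_div_iff₀ (by positivity), hδ]
      exact min_le_right _ _
    have hδ3 : |δ * b| < |c| := by
      rw [abs_mul, abs_of_pos hδ0]
      nlinarith
    obtain ⟨t', ht', h5⟩ := key δ hδ0 hδ1
    have h6 := hc t' ht'
    have h7 := abs_lt.1 hδ3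
    rcases lt_or_gt_of_ne hne0 with h8 | h8
    · rw [abs_of_neg h8] at h7
      have h9 : 0 ≤ t' - t := by nlinarith
      nlinarith [h7.2]
    · rw [abs_of_pos h8] at h7
      have h9 : t' - t ≤ 0 := by nlinarith
      nlinarith [h7.1]
  obtain ⟨t', ht', h5⟩ := key (1 - ‖w‖) (by linarith) le_rfl
  rw [h0, zero_add] at h5
  have h6 : 0 < (t' - t) * ip θ (A.u i) := by
    have h7 : 0 < 1 - ‖w‖ := by linarith
    have h8 : (t' - t) * ((1 - ‖w‖) * ip θ (A.u i)) = (1 - ‖w‖) * ((t' - t) * ip θ (A.u i)) := by ring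
    rw [h8] at h5
    exact (mul_pos_iff_of_pos_left h7).1 h5
  have h7 : t' - t ≠ 0 := by
    intro h8
    rw [h8, zero_mul] at h6
    exact lt_irrefl _ h6
  have e1 := c1 t' ht'
  have e2 := c2 t' ht'
  rw [hwu] at h0
  have e3 : ip v' (A.u i) = - ip v (A.u i) := by linarith
  rw [e3] at e2
  have e4 : (t' - t) * ip v (A.u i) = 0 := by nlinarith
  have e5 : ip v (A.u i) = 0 := by
    rcases mul_eq_zero.1 e4 with h | h
    · exact absurd h h7
    · exact h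
  exact ⟨e5, by rw [e3, e5, neg_zero], t', ht', h6⟩

theorem am {y θ v v' : ℂ} (hθ : ‖θ‖ = 1) (hv : v ∈ A.D i y) (hv' : v' ∈ A.D i y)
    (h : ∀ w ∈ A.D i y, ip w θ ≤ ip v θ) (h' : ∀ w ∈ A.D i y, ip w θ ≤ ip v' θ) :
    v = v' ∨ (A.u i ≠ 0 ∧ A.al i y θ ∧ (θ = A.e i ∨ θ = -A.e i) ∧
      (∃ s : ℝ, |s| ≤ 1 ∧ v = s • A.nn i) ∧ ∃ s : ℝ, |s| ≤ 1 ∧ v' = s • A.nn i) := by
  by_cases hne : v = v'
  · exact Or.inl hne
  right
  have hon : A.On i y := by
    by_contra h1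
    rw [A.D_single i h1] at hv hv'
    exact hne (hv.trans hv'.symm)
  obtain ⟨t, ht, hx⟩ := (pj_fix (A.u i) (rd (y - A.q i))).1 hon
  obtain ⟨e1, e2, t', ht', e3⟩ := A.AMA_core i hon hx hθ hv hv' hne h h'
  have hu : A.u i ≠ 0 := by
    intro h0
    rw [h0] at e3
    have h1 : ip θ 0 = 0 := by unfold ip; simp
    rw [h1, mul_zero] at e3
    exact lt_irrefl _ e3
  have hup : 0 < ‖A.u i‖ := norm_pos_iff.2 hu
  have hvu : ∀ z : ℂ, ip z (A.u i) = ‖A.u i‖ * ip z (A.e i) := by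
    intro z
    conv_lhs => rw [A.AMA_u i hu]
    rw [ip_smul_right]
  have hform : ∀ z ∈ A.D i y, ip z (A.u i) = 0 → ∃ s : ℝ, |s| ≤ 1 ∧ z = s • A.nn i := by
    intro z hz hz0
    rw [hvu] at hz0
    have h1 : ip z (A.e i) = 0 := by
      rcases mul_eq_zero.1 hz0 with h | h
      · exact absurd h hup.ne'
      · exact h
    have h2 := A.AMA_dec i hu z
    rw [h1, zero_smul, zero_add] at h2
    refine ⟨ip z (A.nn i), ?_, h2⟩
    have h3 := A.D_norm i hz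
    rw [h2, norm_smul, A.nn_norm i hu, mul_one, Real.norm_eq_abs] at h3
    exact h3
  obtain ⟨s, hs, hvs⟩ := hform v hv e1
  obtain ⟨s', hs', hvs'⟩ := hform v' hv' e2
  have hss : s ≠ s' := fun h0 => hne (by rw [hvs, hvs', h0])
  have hvv : ip v θ = ip v' θ := le_antisymm (h' v hv) (h v' hv')
  rw [hvs, hvs', ip_smul_left, ip_smul_left] at hvv
  have h0 : ip θ (A.nn i) = 0 := by
    rw [ip_comm]
    have h1 : (s - s') * ip (A.nn i) θ = 0 := by linarith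
    rcases mul_eq_zero.1 h1 with h | h
    · exact absurd (sub_eq_zero.1 h) hss
    · exact h
  have hpm := A.AMA_pm i hu hθ h0
  refine ⟨hu, ?_, hpm, ⟨s, hs, hvs⟩, ⟨s', hs', hvs'⟩⟩
  have htd : t + (t' - t) ∈ Icc (-1 : ℝ) 1 := by
    have h1 : t + (t' - t) = t' := by ring
    rw [h1]
    exact ht'
  rcases hpm with h1 | h1
  · refine A.AMA_al i (d := t' - t) (ρ := ‖A.u i‖⁻¹) hx ht htd ?_ ?_
    · rw [h1]; rfl
    · rw [h1, hvu, ip_self, A.e_norm i hu, one_pow, mul_one] at e3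
      have h2 : 0 < t' - t := by
        by_contra h3
        nlinarith
      positivity
  · refine A.AMA_al i (d := t' - t) (ρ := -‖A.u i‖⁻¹) hx ht htd ?_ ?_
    · rw [h1, neg_smul]; rfl
    · have h2 : ip (-A.e i) (A.u i) = -‖A.u i‖ := by
        rw [hvu]
        have h3 : ip (-A.e i) (A.e i) = -ip (A.e i) (A.e i) := by
          unfold ip; simp only [Complex.neg_re, Complex.neg_im]; ring
        rw [h3, ip_self, A.e_norm i hu]
        ring
      rw [h1, h2] at e3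
      have h4 : 0 < -(t' - t) := by
        by_contra h3
        nlinarith
      have h5 : (t' - t) * -‖A.u i‖⁻¹ = -(t' - t) * ‖A.u i‖⁻¹ := by ring
      rw [h5]
      positivity

theorem AMA_ray (y θ : ℂ) : Tendsto (fun ε : ℝ => y + ε • θ) (𝓝[>] 0) (𝓝 y) := by
  have h1 : Continuous (fun ε : ℝ => y + ε • θ) := continuous_const.add (continuous_id.smul continuous_const)
  have h2 := h1.tendsto 0
  rw [zero_smul, add_zero] at h2
  exact h2.mono_left nhdsWithin_le_nhds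

theorem AMA_on {y θ : ℂ} (h : ∃ᶠ ε in 𝓝[>] (0 : ℝ), A.On i (y + ε • θ)) : A.On i y := by
  by_contra h1
  have h2 : ∀ᶠ y' in 𝓝 y, ¬ A.On i y' := (A.On_closed i).isOpen_compl.mem_nhds h1
  exact h ((AMA_ray y θ).eventually h2)

/-- the equation of the ray near a point of the piece -/
theorem AMA_eq {y : ℂ} (θ : ℂ) (h : A.On i y) : ∃ w, ∃ t ∈ Icc (-1 : ℝ) 1, rd (y - A.q i) = t • A.u i ∧
    y = A.q i + t • A.u i + lat w ∧ ∀ᶠ ε in 𝓝[>] (0 : ℝ), A.On i (y + ε • θ) →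
      ∃ t' ∈ Icc (-1 : ℝ) 1, ε • θ = (t' - t) • A.u i := by
  obtain ⟨w, hw⟩ := A.On_loc i h
  obtain ⟨t, ht, hx⟩ := (pj_fix (A.u i) (rd (y - A.q i))).1 h
  have hy1 : rd (y - A.q i) = y - A.q i - lat w := hw.self_of_nhds
  have hy2 : y - A.q i - lat w = t • A.u i := by rw [← hy1, hx]
  refine ⟨w, t, ht, hx, ?_, ?_⟩
  · rw [← hy2]; ring
  · filter_upwards [(AMA_ray y θ).eventually hw] with ε hε hon
    obtain ⟨t', ht', hx'⟩ := (pj_fix (A.u i) (rd (y + ε • θ - A.q i))).1 hon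
    refine ⟨t', ht', ?_⟩
    rw [hε] at hx'
    rw [sub_smul, ← hx', ← hy2]
    ring

/-- `i` is along `(y, θ)`: then `θ = ±e` and `s • nn` are values at `y` orthogonal to `θ` -/
theorem al_dir {y θ : ℂ} (hθ : ‖θ‖ = 1) (h : A.al i y θ) :
    A.u i ≠ 0 ∧ A.On i y ∧ (θ = A.e i ∨ θ = -A.e i) := by
  have hon : A.On i y := A.AMA_on i (Filter.Eventually.frequently h)
  obtain ⟨w, t, ht, hx, hy, hev⟩ := A.AMA_eq i θ hon
  have h1 : ∀ᶠ ε in 𝓝[>] (0 : ℝ), 0 < ε := self_mem_nhdsWithin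
  have h' : ∀ᶠ ε in 𝓝[>] (0 : ℝ), A.On i (y + ε • θ) := h
  obtain ⟨ε, h2, h3, h4⟩ := (h1.and (h'.and hev)).exists
  obtain ⟨t', ht', h5⟩ := h4 h3
  have h6 : θ = (ε⁻¹ * (t' - t)) • A.u i := by
    rw [mul_smul, ← h5, smul_smul, inv_mul_cancel₀ h2.ne', one_smul]
  have hu : A.u i ≠ 0 := by
    intro h0
    rw [h0, smul_zero] at h6
    rw [h6, norm_zero] at hθ
    exact zero_ne_one hθ
  refine ⟨hu, hon, ?_⟩
  apply A.AMA_pm i hu hθ
  rw [h6, A.AMA_u i hu, ip_smul_left, ip_smul_left, A.ip_e_nn i, mul_zero, mul_zero]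

/-- along or eventually off -/
theorem al_or {y θ : ℂ} (hθ : ‖θ‖ = 1) :
    A.al i y θ ∨ ∀ᶠ ε in 𝓝[>] (0 : ℝ), ¬ A.On i (y + ε • θ) := by
  rw [or_iff_not_imp_right]
  intro hn
  have hf : ∃ᶠ ε in 𝓝[>] (0 : ℝ), A.On i (y + ε • θ) := by
    intro h1
    exact hn h1
  have hon : A.On i y := A.AMA_on i hf
  obtain ⟨w, t, ht, hx, hy, hev⟩ := A.AMA_eq i θ hon
  have h1 : ∀ᶠ ε in 𝓝[>] (0 : ℝ), 0 < ε := self_mem_nhdsWithin
  obtain ⟨ε, h2, h3, h4⟩ := (hf.and_eventually (h1.and hev)).exists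
  obtain ⟨t', ht', h5⟩ := h4 h2
  have h6 : θ = (ε⁻¹ * (t' - t)) • A.u i := by
    rw [mul_smul, ← h5, smul_smul, inv_mul_cancel₀ h3.ne', one_smul]
  have h7 : t' - t ≠ 0 := by
    intro h0
    rw [h0, mul_zero, zero_smul] at h6
    rw [h6, norm_zero] at hθ
    exact zero_ne_one hθ
  refine A.AMA_al i (d := t' - t) hx ht ?_ h6 ?_
  · have h8 : t + (t' - t) = t' := by ring
    rw [h8]
    exact ht'
  · have h8 : (t' - t) * (ε⁻¹ * (t' - t)) = ε⁻¹ * (t' - t) ^ 2 := by ring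
    rw [h8]
    positivity

/-- limits of values along a sequence on the ray -/
theorem AMA_mx {y θ v : ℂ} (hθ : ‖θ‖ = 1) {es : ℕ → ℝ} (he : Tendsto es atTop (𝓝 0)) (hp : ∀ n, 0 < es n)
    {vs : ℕ → ℂ} (hv : Tendsto vs atTop (𝓝 v)) (h : ∀ n, vs n ∈ A.D i (y + es n • θ)) :
    v ∈ A.D i y ∧ ∀ v' ∈ A.D i y, ip v' θ ≤ ip v θ := by
  have hn : ∀ n, y + es n • θ - y = es n • θ := fun n => by ring
  have hnn : ∀ n, ‖y + es n • θ - y‖ = es n := by
    intro n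
    rw [hn, norm_smul, hθ, mul_one, Real.norm_of_nonneg (hp n).le]
  refine A.mx i (ys := fun n => y + es n • θ) ?_ ?_ ?_ hv h
  · have h1 : Continuous (fun ε : ℝ => y + ε • θ) := continuous_const.add (continuous_id.smul continuous_const)
    have h2 := (h1.tendsto 0).comp he
    rw [zero_smul, add_zero] at h2
    exact h2
  · intro n h0
    have h1 := hnn n
    rw [h0, sub_self, norm_zero] at h1
    exact (hp n).ne h1
  · refine tendsto_const_nhds.congr (fun n => ?_)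
    rw [hnn, hn, smul_smul, inv_mul_cancel₀ (hp n).ne', one_smul]

theorem AMA_seq : ∃ es : ℕ → ℝ, Tendsto es atTop (𝓝 0) ∧ (∀ n, 0 < es n) ∧ Tendsto es atTop (𝓝[>] 0) := by
  refine ⟨fun n => 1 / ((n : ℝ) + 1), tendsto_one_div_add_atTop_nhds_zero_nat, fun n => by positivity, ?_⟩
  rw [tendsto_nhdsWithin_iff]
  refine ⟨tendsto_one_div_add_atTop_nhds_zero_nat, Eventually.of_forall (fun n => ?_)⟩
  show (0 : ℝ) < 1 / ((n : ℝ) + 1)
  positivity

/-- for a direction which is not along, there is a limit point of the values -/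
theorem AMA_lim (y : ℂ) {θ : ℂ} (hθ : ‖θ‖ = 1) {s : ℝ} (hs : |s| ≤ 1) (hal : ¬ A.al i y θ) :
    ∃ l, Tendsto (fun ε : ℝ => A.V i (y + ε • θ) s) (𝓝[>] 0) (𝓝 l) := by
  have hb : ∀ ε : ℝ, A.V i (y + ε • θ) s ∈ Metric.closedBall (0 : ℂ) 1 := by
    intro ε
    rw [mem_closedBall_zero_iff]
    exact A.D_norm i (A.V_mem i _ hs)
  have hsub : ∀ ns : ℕ → ℝ, Tendsto ns atTop (𝓝[>] 0) → ∃ (v : ℂ) (ms : ℕ → ℕ), StrictMono ms ∧
      Tendsto (fun n => A.V i (y + ns (ms n) • θ) s) atTop (𝓝 v) ∧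
      v ∈ A.D i y ∧ ∀ v' ∈ A.D i y, ip v' θ ≤ ip v θ := by
    intro ns hns
    obtain ⟨hns1, hns2⟩ := tendsto_nhdsWithin_iff.1 hns
    obtain ⟨N, hN⟩ := eventually_atTop.1 hns2
    obtain ⟨v, -, ms, hms, hv⟩ := (isCompact_closedBall (0 : ℂ) 1).tendsto_subseq
      (x := fun n => A.V i (y + ns (n + N) • θ) s) (fun n => hb _)
    refine ⟨v, fun n => ms n + N, fun a b hab => by have := hms hab; simpa using this, hv, ?_⟩
    refine A.AMA_mx i hθ (es := fun n => ns (ms n + N)) ?_ ?_ hv (fun n => A.V_mem i _ hs)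
    · have h1 : Tendsto (fun n => ms n + N) atTop atTop :=
        (tendsto_add_atTop_nat N).comp hms.tendsto_atTop
      exact hns1.comp h1
    · intro n
      exact hN _ (Nat.le_add_left _ _)
  obtain ⟨es, -, -, hes⟩ := AMA_seq
  obtain ⟨v0, -, -, -, hv0, hm0⟩ := hsub es hes
  refine ⟨v0, ?_⟩
  apply tendsto_of_subseq_tendsto
  intro ns hns
  obtain ⟨v, ms, hms, hv, hv1, hm1⟩ := hsub ns hns
  refine ⟨ms, ?_⟩
  have hvv : v = v0 := by
    rcases A.am i hθ hv1 hv0 hm1 hm0 with h | h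
    · exact h
    · exact absurd h.2.1 hal
  rw [← hvv]
  exact hv

theorem AMA_V_al {y θ : ℂ} (h : A.al i y θ) (s : ℝ) :
    Tendsto (fun ε : ℝ => A.V i (y + ε • θ) s) (𝓝[>] 0) (𝓝 (s • A.nn i)) := by
  refine tendsto_const_nhds.congr' ?_
  have h' : ∀ᶠ ε in 𝓝[>] (0 : ℝ), A.On i (y + ε • θ) := h
  filter_upwards [h'] with ε hε
  rw [A.V_on i hε]

theorem lim_V (y : ℂ) {θ : ℂ} (hθ : ‖θ‖ = 1) {s : ℝ} (hs : |s| ≤ 1) :
    Tendsto (fun ε : ℝ => A.V i (y + ε • θ) s) (𝓝[>] 0) (𝓝 (A.W i y θ s)) := by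
  unfold W
  apply tendsto_nhds_limUnder
  by_cases hal : A.al i y θ
  · exact ⟨_, A.AMA_V_al i hal s⟩
  · exact A.AMA_lim i y hθ hs hal

theorem AMA_W (y : ℂ) {θ : ℂ} (hθ : ‖θ‖ = 1) {s : ℝ} (hs : |s| ≤ 1) :
    A.W i y θ s ∈ A.D i y ∧ ∀ v' ∈ A.D i y, ip v' θ ≤ ip (A.W i y θ s) θ := by
  obtain ⟨es, he, hp, hes⟩ := AMA_seq
  exact A.AMA_mx i hθ he hp ((A.lim_V i y hθ hs).comp hes) (fun n => A.V_mem i _ hs)

theorem W_mem (y : ℂ) {θ : ℂ} (hθ : ‖θ‖ = 1) {s : ℝ} (hs : |s| ≤ 1) : A.W i y θ s ∈ A.D i y :=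
  (A.AMA_W i y hθ hs).1

theorem W_max (y : ℂ) {θ : ℂ} (hθ : ‖θ‖ = 1) {s : ℝ} (hs : |s| ≤ 1) {w : ℂ} (hw : w ∈ A.D i y) :
    ip w θ ≤ ip (A.W i y θ s) θ :=
  (A.AMA_W i y hθ hs).2 w hw

theorem W_al {y θ : ℂ} (h : A.al i y θ) (s : ℝ) : A.W i y θ s = s • A.nn i :=
  (A.AMA_V_al i h s).limUnder_eq

theorem W_nal {y θ : ℂ} (hθ : ‖θ‖ = 1) (h : ¬ A.al i y θ) (s s' : ℝ) :
    A.W i y θ s = A.W i y θ s' := by
  have h1 := (A.al_or i (y := y) hθ).resolve_left h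
  unfold W limUnder
  congr 1
  apply Filter.map_congr
  filter_upwards [h1] with ε hε
  rw [A.V_off i hε, A.V_off i hε]

end Fam

end TorD
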