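import Pool.Agent.H51.TD.Int

/-! # RDA: the lattice, rational points, the map rd

PROOF. Elementary: `lat` is additive, a nonzero integer vector has norm at least 1 (one coordinate has absolute value `≥ 1`,
`Complex.abs_re_le_norm`, `Complex.abs_im_le_norm`). `rd x = x - lat (round x.re, round x.im)`; `round (x + n) = round x + n` (`round_add_intCast`);
`|x - round x| ≤ 1/2` (`abs_sub_round`) and `|x - round x| ≤ |x - n|` for every integer `n` (`round_le`), so `‖rd x‖ ≤ ‖x - lat w‖` for every `w`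
and `‖rd x‖ ≤ sqrt 2 / 2 ≤ 3/4`; if both coordinates of `x - lat w` are `< 1/2` in absolute value, `round` gives `w` (`round_eq`, `Int.floor_eq_iff`,
or: `|n - round x| < 1`). `Rat2` is the image of the countable type `ℚ × ℚ`, dense because `ℚ` is dense in `ℝ`. -/

set_option autoImplicit false

open Topology Filter Set Function

namespace TorD

theorem lat_zero : lat 0 = 0 := by
  apply Complex.ext <;> simp [lat]

theorem lat_add (v w : ℤ × ℤ) : lat (v + w) = lat v + lat w := by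
  apply Complex.ext <;> simp [lat]

theorem lat_neg (w : ℤ × ℤ) : lat (-w) = -lat w := by
  apply Complex.ext <;> simp [lat]

theorem lat_sub (v w : ℤ × ℤ) : lat (v - w) = lat v - lat w := by
  apply Complex.ext <;> simp [lat]

theorem lat_inj : Injective lat := by
  intro v w h
  have h1 := congrArg Complex.re h
  have h2 := congrArg Complex.im h
  simp only [lat, Int.cast_inj] at h1 h2
  exact Prod.ext h1 h2

theorem RDA_re (w : ℤ × ℤ) : |(w.1 : ℝ)| ≤ ‖lat w‖ := Complex.abs_re_le_norm (lat w)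

theorem RDA_im (w : ℤ × ℤ) : |(w.2 : ℝ)| ≤ ‖lat w‖ := Complex.abs_im_le_norm (lat w)

theorem RDA_one {n : ℤ} (h : n ≠ 0) : (1 : ℝ) ≤ |(n : ℝ)| := by
  have h1 : 1 ≤ |n| := Int.one_le_abs h
  exact_mod_cast h1

theorem lat_norm {w : ℤ × ℤ} (hw : w ≠ 0) : 1 ≤ ‖lat w‖ := by
  by_cases h1 : w.1 = 0
  · have h2 : w.2 ≠ 0 := fun h => hw (Prod.ext h1 h)
    exact (RDA_one h2).trans (RDA_im w)
  · exact (RDA_one h1).trans (RDA_re w)

theorem lat_fin (R : ℝ) : {w : ℤ × ℤ | ‖lat w‖ ≤ R}.Finite := by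
  refine ((Set.finite_Icc (-⌈R⌉) ⌈R⌉).prod (Set.finite_Icc (-⌈R⌉) ⌈R⌉)).subset ?_
  intro w hw
  have h1 := abs_le.1 ((RDA_re w).trans (hw.trans (Int.le_ceil R)))
  have h2 := abs_le.1 ((RDA_im w).trans (hw.trans (Int.le_ceil R)))
  refine ⟨⟨?_, ?_⟩, ⟨?_, ?_⟩⟩
  · exact_mod_cast h1.1
  · exact_mod_cast h1.2
  · exact_mod_cast h2.1
  · exact_mod_cast h2.2

theorem RDA_rd (x : ℂ) : rd x = x - lat (round x.re, round x.im) := by
  apply Complex.ext <;> simp [rd, lat]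

theorem rd_sub (x : ℂ) : ∃ w, rd x = x - lat w := ⟨_, RDA_rd x⟩

theorem rd_add_lat (x : ℂ) (w : ℤ × ℤ) : rd (x + lat w) = rd x := by
  apply Complex.ext
  · simp only [rd, lat, Complex.add_re, round_add_intCast]
    push_cast; ring
  · simp only [rd, lat, Complex.add_im, round_add_intCast]
    push_cast; ring

theorem RDA_nle {a b : ℂ} (h1 : |a.re| ≤ |b.re|) (h2 : |a.im| ≤ |b.im|) : ‖a‖ ≤ ‖b‖ := by
  have h3 : ‖a‖ ^ 2 ≤ ‖b‖ ^ 2 := by
    rw [← ip_self, ← ip_self]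
    unfold ip
    have := sq_le_sq.2 h1
    have := sq_le_sq.2 h2
    nlinarith
  exact le_of_sq_le_sq h3 (norm_nonneg _)

theorem rd_min (x : ℂ) (w : ℤ × ℤ) : ‖rd x‖ ≤ ‖x - lat w‖ :=
  RDA_nle (round_le x.re w.1) (round_le x.im w.2)

theorem rd_norm (x : ℂ) : ‖rd x‖ ≤ 3 / 4 := by
  have h1 : |(rd x).re| ≤ 1 / 2 := abs_sub_round x.re
  have h2 : |(rd x).im| ≤ 1 / 2 := abs_sub_round x.im
  have h3 : ‖rd x‖ ^ 2 ≤ (3 / 4) ^ 2 := by
    rw [← ip_self]
    unfold ip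
    have h4 := sq_le_sq' (abs_le.1 h1).1 (abs_le.1 h1).2
    have h5 := sq_le_sq' (abs_le.1 h2).1 (abs_le.1 h2).2
    nlinarith
  exact le_of_sq_le_sq h3 (by norm_num)

theorem RDA_round {a : ℝ} {n : ℤ} (h : |a - n| < 1 / 2) : round a = n := by
  have h1 : |a - round a| ≤ 1 / 2 := abs_sub_round a
  have h2 : |((round a - n : ℤ) : ℝ)| < 1 := by
    have e : ((round a - n : ℤ) : ℝ) = (a - n) - (a - round a) := by push_cast; ring
    rw [e]
    calc _ ≤ |a - n| + |a - round a| := abs_sub _ _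
      _ < 1 := by linarith
  have h3 : |round a - n| < 1 := by exact_mod_cast h2
  have h4 := Int.abs_lt_one_iff.1 h3
  omega

theorem rd_eq {x : ℂ} {w : ℤ × ℤ} (h : ‖x - lat w‖ < 1 / 2) : rd x = x - lat w := by
  have h1 : round x.re = w.1 := RDA_round ((Complex.abs_re_le_norm (x - lat w)).trans_lt h)
  have h2 : round x.im = w.2 := RDA_round ((Complex.abs_im_le_norm (x - lat w)).trans_lt h)
  rw [RDA_rd, h1, h2]

theorem rd_loc {x : ℂ} (h : ‖rd x‖ < 1 / 2) : ∃ w, ∀ᶠ y in 𝓝 x, rd y = y - lat w := by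
  obtain ⟨w, hw⟩ := rd_sub x
  refine ⟨w, ?_⟩
  rw [hw] at h
  have hc : ContinuousAt (fun y : ℂ => ‖y - lat w‖) x := by fun_prop
  exact (hc.eventually_lt_const h).mono fun y hy => rd_eq hy

theorem RDA_lr {z : ℂ} (hz : z ∈ Rat2) (w : ℤ × ℤ) : z + lat w ∈ Rat2 := by
  obtain ⟨a, b, rfl⟩ := hz
  refine ⟨a + w.1, b + w.2, ?_⟩
  apply Complex.ext <;> simp [lat]

theorem rat2_lat (z : ℂ) (w : ℤ × ℤ) : z + lat w ∈ Rat2 ↔ z ∈ Rat2 := by
  refine ⟨fun h => ?_, fun h => RDA_lr h w⟩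
  have h1 := RDA_lr h (-w)
  rwa [lat_neg, add_neg_cancel_right] at h1

theorem RDA_range : Rat2 = range fun p : ℚ × ℚ => (⟨(p.1 : ℝ), (p.2 : ℝ)⟩ : ℂ) := by
  ext z
  constructor
  · rintro ⟨a, b, h⟩
    exact ⟨(a, b), h.symm⟩
  · rintro ⟨p, h⟩
    exact ⟨p.1, p.2, h.symm⟩

theorem rat2_countable : Rat2.Countable := by
  rw [RDA_range]
  exact countable_range _

theorem rat2_dense : Dense Rat2 := by
  have h1 : DenseRange fun p : ℚ × ℚ => ((p.1 : ℝ), (p.2 : ℝ)) :=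
    Rat.denseRange_cast.prodMap Rat.denseRange_cast
  have h2 : DenseRange (Complex.equivRealProdCLM.symm : ℝ × ℝ → ℂ) :=
    Complex.equivRealProdCLM.symm.surjective.denseRange
  have h3 := h2.comp h1 Complex.equivRealProdCLM.symm.continuous
  rw [RDA_range]
  have e : (fun p : ℚ × ℚ => (⟨(p.1 : ℝ), (p.2 : ℝ)⟩ : ℂ)) =
      (Complex.equivRealProdCLM.symm : ℝ × ℝ → ℂ) ∘ fun p : ℚ × ℚ => ((p.1 : ℝ), (p.2 : ℝ)) := by
    funext p
    apply Complex.ext <;> simp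
  rw [e]
  exact h3

end TorD
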