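import Pool.Agent.H51.TD.SGB
import Pool.Agent.H51.TD.RDA

/-! # PCA: periodic pieces

PROOF. Put `x = rd (y - A.q i)`, `u = A.u i`, `‖u‖ ≤ 1/8`. If `D0 u x ≠ {0}` (i.e. `d = ‖x - pj u x‖ < 1/8`) then `‖x‖ < 1/4`. The function `y ↦ ‖rd (y - q)‖` is
1-Lipschitz (rd_min and rd_sub). If `‖x‖ < 1/2` then near `y`, `rd (y' - q) = y' - q - lat w` (rd_loc) and everything follows from SGB. If `‖x‖ ≥ 1/2` then near
`y` `‖rd (y' - q)‖ > 3/8`, the distance to the segment is `> 1/8` and `D = {0}`, `sel = 0`, not On.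
D_mono: let `x = y - q - lat w`, `x' = y' - q - lat w'`. If `w = w'`: d0_mono (8 ≤ 16). If `w ≠ w'`: claim `‖v‖ ≤ 8 ‖y - y'‖` and `‖v'‖ ≤ 8 ‖y - y'‖`. For `v`: if
`v ≠ 0` then `d < 1/8`, `‖x‖ < 1/4`; the point `z = y' - q - lat w` has `‖z - pj u z‖ ≥ 1/8`: otherwise `‖z‖ < 1/4`, so `rd (y' - q) = z` (rd_eq), `w = w'` (lat_inj). By
pj_lip `‖y - y'‖ = ‖x - z‖ ≥ 1/8 - d ≥ ‖v‖/8` (d0_norm). So `ip (v - v') (y - y') ≥ -(‖v‖ + ‖v'‖) ‖y - y'‖ ≥ -16 ‖y - y'‖²`. -/

set_option autoImplicit false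

open Topology Filter Set Function

namespace TorD

theorem PCA_small {u x : ℂ} (hu : ‖u‖ ≤ 1 / 8) (h : ‖x - pj u x‖ < 1 / 8) : ‖x‖ < 1 / 4 := by
  have h1 := pj_norm u x
  have h2 : ‖x‖ ≤ ‖x - pj u x‖ + ‖pj u x‖ := by
    simpa using norm_add_le (x - pj u x) (pj u x)
  linarith

theorem PCA_big {u x : ℂ} (hu : ‖u‖ ≤ 1 / 8) (h : 3 / 8 < ‖x‖) : 1 / 8 < ‖x - pj u x‖ := by
  have h1 := pj_norm u x
  have h2 : ‖x‖ ≤ ‖x - pj u x‖ + ‖pj u x‖ := by
    simpa using norm_add_le (x - pj u x) (pj u x)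
  linarith

theorem PCA_ne {u x : ℂ} (h : 1 / 8 < ‖x - pj u x‖) : x ≠ pj u x := by
  intro he
  rw [← he, sub_self, norm_zero] at h
  norm_num at h

theorem PCA_rd_lip (a b : ℂ) : ‖rd a‖ ≤ ‖rd b‖ + ‖a - b‖ := by
  obtain ⟨w, hw⟩ := rd_sub b
  have h := rd_min a w
  have h2 : a - lat w = (b - lat w) + (a - b) := by ring
  rw [h2, ← hw] at h
  exact h.trans (norm_add_le _ _)

theorem PCA_rd_ev {a : ℂ} (h : 1 / 2 ≤ ‖rd a‖) : ∀ᶠ b in 𝓝 a, 3 / 8 < ‖rd b‖ := by
  have hb : Metric.ball a (1 / 8) ∈ 𝓝 a := Metric.ball_mem_nhds a (by norm_num)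
  filter_upwards [hb] with b hb
  have h1 := PCA_rd_lip a b
  rw [Metric.mem_ball, dist_eq_norm, norm_sub_rev] at hb
  linarith

namespace Fam

variable {ι : Type} (A : Fam ι) (i : ι)

/-- the shift `y ↦ y - q` -/
theorem PCA_sh (q y : ℂ) : Tendsto (fun y' : ℂ => y' - q) (𝓝 y) (𝓝 (y - q)) :=
  (continuous_id.sub continuous_const).tendsto y

theorem PCA_far_ev {y : ℂ} (h : 1 / 2 ≤ ‖rd (y - A.q i)‖) :
    ∀ᶠ y' in 𝓝 y, 1 / 8 < ‖rd (y' - A.q i) - pj (A.u i) (rd (y' - A.q i))‖ := by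
  filter_upwards [(PCA_sh (A.q i) y).eventually (PCA_rd_ev h)] with y' hy'
  exact PCA_big (A.ule i) hy'

theorem PCA_near_ev {y : ℂ} (h : ‖rd (y - A.q i)‖ < 1 / 2) :
    ∃ w, ∀ᶠ y' in 𝓝 y, rd (y' - A.q i) = y' - A.q i - lat w := by
  obtain ⟨w, hw⟩ := rd_loc h
  exact ⟨w, (PCA_sh (A.q i) y).eventually hw⟩

theorem PCA_shift_lat (y : ℂ) (w : ℤ × ℤ) : rd (y + lat w - A.q i) = rd (y - A.q i) := by
  have h : y + lat w - A.q i = (y - A.q i) + lat w := by ring
  rw [h, rd_add_lat]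

theorem PCA_ct (w : ℤ × ℤ) : Continuous (fun y' : ℂ => y' - A.q i - lat w) :=
  (continuous_id.sub continuous_const).sub continuous_const

theorem D_norm {y v : ℂ} (h : v ∈ A.D i y) : ‖v‖ ≤ 1 := by
  refine (d0_norm h).trans (max_le zero_le_one ?_)
  have := norm_nonneg (rd (y - A.q i) - pj (A.u i) (rd (y - A.q i)))
  linarith

theorem D_conv (y : ℂ) : Convex ℝ (A.D i y) := d0_conv _ _

theorem D_sel (y : ℂ) : A.sel i y ∈ A.D i y := d0_sel _ _

theorem D_single {y : ℂ} (h : ¬ A.On i y) : A.D i y = {A.sel i y} := d0_single h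

theorem PCA_far {y y' v : ℂ} (h : v ∈ A.D i y) {w w' : ℤ × ℤ}
    (hw : rd (y - A.q i) = y - A.q i - lat w) (hw' : rd (y' - A.q i) = y' - A.q i - lat w')
    (hne : w ≠ w') : ‖v‖ ≤ 8 * ‖y - y'‖ := by
  have hn := d0_norm h
  rcases le_or_gt ‖v‖ 0 with hv | hv
  · exact hv.trans (by positivity)
  set d := ‖rd (y - A.q i) - pj (A.u i) (rd (y - A.q i))‖ with hd
  have hv2 : ‖v‖ ≤ 1 - 8 * d := by
    rcases le_total (1 - 8 * d) 0 with h0 | h0
    · rw [max_eq_left h0] at hn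
      linarith
    · rwa [max_eq_right h0] at hn
  have hz : 1 / 8 ≤ ‖(y' - A.q i - lat w) - pj (A.u i) (y' - A.q i - lat w)‖ := by
    by_contra hc
    have hs := PCA_small (A.ule i) (not_le.mp hc)
    have he := rd_eq (x := y' - A.q i) (w := w) (by linarith)
    rw [hw'] at he
    have hl : lat w' = lat w := by
      have := congrArg (fun z => y' - A.q i - z) he
      simpa using this
    exact hne (lat_inj hl).symm
  have hl := pj_lip (A.u i) (y' - A.q i - lat w) (rd (y - A.q i))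
  have h3 : ‖(y' - A.q i - lat w) - pj (A.u i) (y' - A.q i - lat w)‖ ≤
      ‖((y' - A.q i - lat w) - pj (A.u i) (y' - A.q i - lat w)) -
        (rd (y - A.q i) - pj (A.u i) (rd (y - A.q i)))‖ + d := by
    have := norm_add_le (((y' - A.q i - lat w) - pj (A.u i) (y' - A.q i - lat w)) -
        (rd (y - A.q i) - pj (A.u i) (rd (y - A.q i)))) (rd (y - A.q i) - pj (A.u i) (rd (y - A.q i)))
    simpa using this
  have h4 : ‖(y' - A.q i - lat w) - rd (y - A.q i)‖ = ‖y - y'‖ := by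
    rw [hw, norm_sub_rev]
    congr 1
    ring
  rw [h4] at hl
  linarith

theorem D_mono {y y' v v' : ℂ} (h : v ∈ A.D i y) (h' : v' ∈ A.D i y') :
    -16 * ‖y - y'‖ ^ 2 ≤ ip (v - v') (y - y') := by
  obtain ⟨w, hw⟩ := rd_sub (y - A.q i)
  obtain ⟨w', hw'⟩ := rd_sub (y' - A.q i)
  by_cases he : w = w'
  · have h1 := d0_mono h h'
    have h2 : rd (y - A.q i) - rd (y' - A.q i) = y - y' := by
      rw [hw, hw', he]
      ring
    rw [h2] at h1
    nlinarith [sq_nonneg ‖y - y'‖]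
  · have h1 := PCA_far A i h hw hw' he
    have h2 := PCA_far A i h' hw' hw (Ne.symm he)
    rw [norm_sub_rev y' y] at h2
    have h3 := ip_ge (v - v') (y - y')
    have h4 : ‖v - v'‖ ≤ 16 * ‖y - y'‖ := by
      refine (norm_sub_le _ _).trans ?_
      linarith
    have h5 : ‖v - v'‖ * ‖y - y'‖ ≤ 16 * ‖y - y'‖ * ‖y - y'‖ :=
      mul_le_mul_of_nonneg_right h4 (norm_nonneg _)
    nlinarith

theorem D_closed {y v : ℂ} {ys vs : ℕ → ℂ} (hy : Tendsto ys atTop (𝓝 y))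
    (hv : Tendsto vs atTop (𝓝 v)) (h : ∀ n, vs n ∈ A.D i (ys n)) : v ∈ A.D i y := by
  rcases lt_or_ge ‖rd (y - A.q i)‖ (1 / 2) with hx | hx
  · obtain ⟨w, hw⟩ := PCA_near_ev A i hx
    have hev := hy.eventually hw
    obtain ⟨N, hN⟩ := eventually_atTop.mp hev
    have hself : rd (y - A.q i) = y - A.q i - lat w := hw.self_of_nhds
    have h1 : Tendsto (fun n => ys (n + N) - A.q i - lat w) atTop (𝓝 (rd (y - A.q i))) := by
      rw [hself]
      exact ((PCA_ct A i w).tendsto y).comp ((tendsto_add_atTop_iff_nat N).mpr hy)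
    have h2 : Tendsto (fun n => vs (n + N)) atTop (𝓝 v) := (tendsto_add_atTop_iff_nat N).mpr hv
    refine d0_closed h1 h2 fun n => ?_
    have h3 := h (n + N)
    unfold Fam.D at h3
    rw [hN (n + N) (Nat.le_add_left _ _)] at h3
    exact h3
  · have hev := hy.eventually (PCA_far_ev A i hx)
    have h0 : ∀ᶠ n in atTop, vs n = 0 := by
      filter_upwards [hev] with n hn
      have h3 := h n
      rw [D_single A i (PCA_ne hn)] at h3
      rw [mem_singleton_iff.mp h3]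
      exact sel0_zero hn.le
    have hv0 : v = 0 := by
      have hc : Tendsto vs atTop (𝓝 0) :=
        (tendsto_congr' h0).mpr tendsto_const_nhds
      exact tendsto_nhds_unique hv hc
    have hself := (PCA_far_ev A i hx).self_of_nhds
    have h4 : A.sel i y = 0 := sel0_zero hself.le
    rw [hv0, ← h4]
    exact D_sel A i y

theorem D_lat (y : ℂ) (w : ℤ × ℤ) : A.D i (y + lat w) = A.D i y := by
  unfold Fam.D
  rw [PCA_shift_lat]

theorem On_lat (y : ℂ) (w : ℤ × ℤ) : A.On i (y + lat w) ↔ A.On i y := by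
  unfold Fam.On
  rw [PCA_shift_lat]

theorem sel_lat (y : ℂ) (w : ℤ × ℤ) : A.sel i (y + lat w) = A.sel i y := by
  unfold Fam.sel
  rw [PCA_shift_lat]

theorem On_closed : IsClosed {y | A.On i y} := by
  rw [← isOpen_compl_iff, isOpen_iff_mem_nhds]
  intro y hy
  rcases lt_or_ge ‖rd (y - A.q i)‖ (1 / 2) with hx | hx
  · obtain ⟨w, hw⟩ := PCA_near_ev A i hx
    have hself : rd (y - A.q i) = y - A.q i - lat w := hw.self_of_nhds
    have hne : y - A.q i - lat w ≠ pj (A.u i) (y - A.q i - lat w) := by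
      rw [← hself]
      exact hy
    have hc := PCA_ct A i w
    have hc2 : Continuous fun y' : ℂ => pj (A.u i) (y' - A.q i - lat w) := (pj_cont _).comp hc
    have hev : ∀ᶠ y' in 𝓝 y, y' - A.q i - lat w ≠ pj (A.u i) (y' - A.q i - lat w) :=
      (isOpen_ne_fun hc hc2).mem_nhds hne
    filter_upwards [hev, hw] with y' h1 h2
    show ¬ (rd (y' - A.q i) = pj (A.u i) (rd (y' - A.q i)))
    rw [h2]
    exact h1
  · filter_upwards [PCA_far_ev A i hx] with y' h1
    exact PCA_ne h1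

theorem sel_cont {y : ℂ} (h : ¬ A.On i y) : ContinuousAt (A.sel i) y := by
  rcases lt_or_ge ‖rd (y - A.q i)‖ (1 / 2) with hx | hx
  · obtain ⟨w, hw⟩ := PCA_near_ev A i hx
    have hself : rd (y - A.q i) = y - A.q i - lat w := hw.self_of_nhds
    have h1 : ContinuousAt (sel0 (A.u i)) (y - A.q i - lat w) := by
      rw [← hself]
      exact sel0_cont h
    have h2 : ContinuousAt (fun y' => sel0 (A.u i) (y' - A.q i - lat w)) y :=
      ContinuousAt.comp (f := fun y' : ℂ => y' - A.q i - lat w) h1 (PCA_ct A i w).continuousAt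
    refine h2.congr ?_
    filter_upwards [hw] with y' h3
    unfold Fam.sel
    rw [h3]
  · have h1 : ContinuousAt (fun _ : ℂ => (0 : ℂ)) y := continuousAt_const
    refine h1.congr ?_
    filter_upwards [PCA_far_ev A i hx] with y' h3
    exact (sel0_zero h3.le).symm

theorem sel_on {y : ℂ} (h : A.On i y) : A.sel i y = 0 := by
  unfold Fam.sel sel0
  rw [← show rd (y - A.q i) = pj (A.u i) (rd (y - A.q i)) from h, sub_self, smul_zero]

/-- near a point of the piece, `rd` is a translation -/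
theorem On_loc {y : ℂ} (h : A.On i y) :
    ∃ w, ∀ᶠ y' in 𝓝 y, rd (y' - A.q i) = y' - A.q i - lat w := by
  refine PCA_near_ev A i ?_
  have h1 := pj_norm (A.u i) (rd (y - A.q i))
  rw [← show rd (y - A.q i) = pj (A.u i) (rd (y - A.q i)) from h] at h1
  have h2 := A.ule i
  linarith

/-- the piece as a set -/
theorem On_iff (y : ℂ) : A.On i y ↔ ∃ w, ∃ t ∈ Icc (-1 : ℝ) 1, y = A.q i + t • A.u i + lat w := by
  constructor
  · intro h
    obtain ⟨w, hw⟩ := rd_sub (y - A.q i)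
    obtain ⟨t, ht, hp⟩ := pj_mem (A.u i) (rd (y - A.q i))
    refine ⟨w, t, ht, ?_⟩
    rw [← show rd (y - A.q i) = pj (A.u i) (rd (y - A.q i)) from h, hw] at hp
    rw [← hp]
    ring
  · rintro ⟨w, t, ht, rfl⟩
    have h1 : A.q i + t • A.u i + lat w - A.q i - lat w = t • A.u i := by ring
    have h2 : ‖A.q i + t • A.u i + lat w - A.q i - lat w‖ < 1 / 2 := by
      rw [h1, norm_smul, Real.norm_eq_abs]
      have h3 : |t| ≤ 1 := abs_le.mpr ht
      have h4 := A.ule i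
      nlinarith [norm_nonneg (A.u i), abs_nonneg t]
    have h3 := rd_eq h2
    show rd _ = pj _ (rd _)
    rw [h3, h1]
    exact (pj_fix _ _).mpr ⟨t, ht, rfl⟩

end Fam

end TorD
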