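import Pool.Agent.H51.TD.GAM
import Pool.Agent.H51.TD.PCA

/-! # AR0: the concrete family of pieces

`NN j`: number of intervals of `gam j` in one period. `gu j k`: half the increment of `gam j` over `[k/N,(k+1)/N]`, `gq j k`: the midpoint. The index type `AI` consists of the rational
points and of the edges `(j,k)`, `0 ≤ k < NN j`. -/

set_option autoImplicit false

open Topology Filter Set Function

namespace TorD

noncomputable section

/-- number of pieces of the curve `gam j` -/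
def NN (j : ℤ) : ℕ := Classical.choose (gam_pl j)

theorem NN_pos (j : ℤ) : 0 < NN j := (Classical.choose_spec (gam_pl j)).1

theorem NN_pl (j k : ℤ) : ∃ a b c d : ℤ, (a ≠ 0 ∨ c ≠ 0) ∧ ‖(⟨a, c⟩ : ℂ)‖ / NN j ≤ 1 / 4 ∧
    ∀ t ∈ Icc ((k : ℝ) / NN j) (((k : ℝ) + 1) / NN j), gam j t = ⟨a * t + b, c * t + d⟩ :=
  (Classical.choose_spec (gam_pl j)).2 k

/-- half of the increment of `gam j` over the `k`-th interval -/
def gu (j k : ℤ) : ℂ := (1 / 2 : ℝ) • (gam j (((k : ℝ) + 1) / NN j) - gam j ((k : ℝ) / NN j))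

/-- the midpoint of the `k`-th edge of `gam j` -/
def gq (j k : ℤ) : ℂ := (1 / 2 : ℝ) • (gam j (((k : ℝ) + 1) / NN j) + gam j ((k : ℝ) / NN j))

theorem NN_r (j : ℤ) : (0 : ℝ) < NN j := by exact_mod_cast NN_pos j

theorem AR0_ends (j k : ℤ) : (k : ℝ) / NN j ∈ Icc ((k : ℝ) / NN j) (((k : ℝ) + 1) / NN j) ∧
    ((k : ℝ) + 1) / NN j ∈ Icc ((k : ℝ) / NN j) (((k : ℝ) + 1) / NN j) := by
  have h : (k : ℝ) / NN j ≤ ((k : ℝ) + 1) / NN j := by
    have := NN_r j
    gcongr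
    linarith
  exact ⟨⟨le_rfl, h⟩, ⟨h, le_rfl⟩⟩

theorem AR0_gu {j k a b c d : ℤ}
    (h : ∀ t ∈ Icc ((k : ℝ) / NN j) (((k : ℝ) + 1) / NN j), gam j t = ⟨a * t + b, c * t + d⟩) :
    gu j k = (1 / (2 * NN j) : ℝ) • (⟨a, c⟩ : ℂ) := by
  have h0 := (NN_r j).ne'
  unfold gu
  rw [h _ (AR0_ends j k).1, h _ (AR0_ends j k).2]
  apply Complex.ext
  · simp only [Complex.smul_re, Complex.sub_re, smul_eq_mul]
    field_simp
    ring
  · simp only [Complex.smul_im, Complex.sub_im, smul_eq_mul]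
    field_simp
    ring

/-- on an interval `gam j` is affine with slope `2 N gu` -/
theorem gam_lin (j k : ℤ) {t s : ℝ} (ht : t ∈ Icc ((k : ℝ) / NN j) (((k : ℝ) + 1) / NN j))
    (hs : s ∈ Icc ((k : ℝ) / NN j) (((k : ℝ) + 1) / NN j)) :
    gam j s = gam j t + (2 * NN j * (s - t) : ℝ) • gu j k := by
  obtain ⟨a, b, c, d, -, -, h⟩ := NN_pl j k
  have h0 := (NN_r j).ne'
  rw [AR0_gu h, h _ ht, h _ hs]
  apply Complex.ext
  · simp only [Complex.smul_re, Complex.add_re, smul_eq_mul]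
    field_simp
    ring
  · simp only [Complex.smul_im, Complex.add_im, smul_eq_mul]
    field_simp
    ring

theorem gu_ne (j k : ℤ) : gu j k ≠ 0 := by
  obtain ⟨a, b, c, d, hac, -, h⟩ := NN_pl j k
  have h0 := NN_r j
  rw [AR0_gu h]
  apply smul_ne_zero
  · positivity
  · intro h1
    have h2 : (a : ℝ) = 0 := congrArg Complex.re h1
    have h3 : (c : ℝ) = 0 := congrArg Complex.im h1
    rcases hac with h4 | h4
    · exact h4 (by exact_mod_cast h2)
    · exact h4 (by exact_mod_cast h3)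

theorem gu_le (j k : ℤ) : ‖gu j k‖ ≤ 1 / 8 := by
  obtain ⟨a, b, c, d, -, hn, h⟩ := NN_pl j k
  have h0 := NN_r j
  rw [AR0_gu h, norm_smul, Real.norm_of_nonneg (by positivity)]
  have e : 1 / (2 * (NN j : ℝ)) * ‖(⟨a, c⟩ : ℂ)‖ = ‖(⟨a, c⟩ : ℂ)‖ / NN j / 2 := by
    field_simp
  rw [e]
  linarith

theorem AR0_shift (j k m : ℤ) : ((k + m * NN j : ℤ) : ℝ) / NN j = (k : ℝ) / NN j + m := by
  have h0 := (NN_r j).ne'
  push_cast
  field_simp

theorem AR0_shift1 (j k m : ℤ) : (((k + m * NN j : ℤ) : ℝ) + 1) / NN j = ((k : ℝ) + 1) / NN j + m := by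
  have h0 := (NN_r j).ne'
  push_cast
  field_simp
  ring

theorem gu_per (j k m : ℤ) : gu j (k + m * NN j) = gu j k := by
  unfold gu
  rw [AR0_shift, AR0_shift1, gam_per, gam_per, add_sub_add_right_eq_sub]

theorem gq_per (j k m : ℤ) : gq j (k + m * NN j) = gq j k + lat (0, m) := by
  unfold gq
  rw [AR0_shift, AR0_shift1, gam_per, gam_per]
  apply Complex.ext
  · simp only [Complex.smul_re, Complex.add_re, smul_eq_mul]
    ring
  · simp only [Complex.smul_im, Complex.add_im, smul_eq_mul]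
    ring

/-- the midpoint parametrisation of the `k`-th edge -/
theorem gam_edge (j k : ℤ) {x : ℝ} (hx : x ∈ Icc (-1 : ℝ) 1) :
    gam j (((k : ℝ) + (1 + x) / 2) / NN j) = gq j k + x • gu j k := by
  have h0 := NN_r j
  have hm : ((k : ℝ) + (1 + x) / 2) / NN j ∈ Icc ((k : ℝ) / NN j) (((k : ℝ) + 1) / NN j) := by
    obtain ⟨h1, h2⟩ := hx
    constructor
    · gcongr
      linarith
    · gcongr
      linarith
  have e1 := gam_lin j k (AR0_ends j k).1 hm
  have e2 := gam_lin j k (AR0_ends j k).1 (AR0_ends j k).2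
  have a1 : 2 * (NN j : ℝ) * (((k : ℝ) + (1 + x) / 2) / NN j - (k : ℝ) / NN j) = 1 + x := by
    field_simp
    ring
  have a2 : 2 * (NN j : ℝ) * (((k : ℝ) + 1) / NN j - (k : ℝ) / NN j) = 2 := by
    field_simp
    ring
  rw [a1] at e1
  rw [a2] at e2
  rw [e1]
  unfold gq
  rw [e2]
  apply Complex.ext
  · simp only [Complex.smul_re, Complex.add_re, smul_eq_mul]
    ring
  · simp only [Complex.smul_im, Complex.add_im, smul_eq_mul]
    ring

theorem exists_right (j : ℤ) (t : ℝ) : ∃ k : ℤ, t ∈ Ico ((k : ℝ) / NN j) (((k : ℝ) + 1) / NN j) := by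
  have h0 := NN_r j
  refine ⟨⌊t * NN j⌋, ?_, ?_⟩
  · rw [div_le_iff₀ h0]
    exact Int.floor_le _
  · rw [lt_div_iff₀ h0]
    exact Int.lt_floor_add_one _

theorem exists_left (j : ℤ) (t : ℝ) : ∃ k : ℤ, t ∈ Ioc ((k : ℝ) / NN j) (((k : ℝ) + 1) / NN j) := by
  have h0 := NN_r j
  refine ⟨⌈t * NN j⌉ - 1, ?_, ?_⟩
  · rw [div_lt_iff₀ h0]
    push_cast
    have := Int.ceil_lt_add_one (t * NN j)
    linarith
  · rw [le_div_iff₀ h0]
    push_cast
    have := Int.le_ceil (t * NN j)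
    linarith

/-- index type of the pieces: rational points and edges -/
abbrev AI : Type := (ℚ × ℚ) ⊕ (Σ j : ℤ, Fin (NN j))

/-- the edge index `(j, k mod N)` -/
def AE (j k : ℤ) : AI := Sum.inr ⟨j, ⟨(k % NN j).toNat, by
  have h := NN_pos j
  have h1 : (0 : ℤ) < NN j := by exact_mod_cast h
  have h2 := Int.emod_nonneg k h1.ne'
  have h3 := Int.emod_lt_of_pos k h1
  omega⟩⟩

/-- centres -/
def AQ : AI → ℂ
  | Sum.inl r => ⟨r.1, r.2⟩
  | Sum.inr e => gq e.1 (e.2 : ℕ)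

/-- half lengths -/
def AU : AI → ℂ
  | Sum.inl _ => 0
  | Sum.inr e => gu e.1 (e.2 : ℕ)

/-- the weights -/
def AW : {ε' : AI → ℝ // (∀ i, 0 < ε' i) ∧ ∃ c, HasSum ε' c ∧ c ≤ 1 / 32} :=
  letI : Encodable AI := Encodable.ofCountable AI
  posSumOfEncodable (by norm_num) AI

/-- the family of pieces -/
def AF : Fam AI where
  c := AW.1
  q := AQ
  u := AU
  cpos := AW.2.1
  csum := by
    obtain ⟨c, h, -⟩ := AW.2.2
    exact h.summable
  cle := by
    obtain ⟨c, h, h2⟩ := AW.2.2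
    rw [h.tsum_eq]
    exact h2
  ule := by
    rintro (r | e)
    · show ‖(0 : ℂ)‖ ≤ 1 / 8
      rw [norm_zero]
      norm_num
    · exact gu_le _ _

theorem AF_q_pt (r : ℚ × ℚ) : AF.q (Sum.inl r) = ⟨r.1, r.2⟩ := rfl

theorem AF_u_pt (r : ℚ × ℚ) : AF.u (Sum.inl r) = 0 := rfl

theorem AF_q_edge (e : Σ j : ℤ, Fin (NN j)) : AF.q (Sum.inr e) = gq e.1 (e.2 : ℕ) := rfl

theorem AF_u_edge (e : Σ j : ℤ, Fin (NN j)) : AF.u (Sum.inr e) = gu e.1 (e.2 : ℕ) := rfl

theorem AR0_mod (j k : ℤ) : ((k % NN j).toNat : ℤ) + (k / NN j) * NN j = k := by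
  have h1 : (0 : ℤ) < NN j := by exact_mod_cast NN_pos j
  have h2 := Int.emod_nonneg k h1.ne'
  rw [Int.toNat_of_nonneg h2]
  have := Int.emod_add_mul_ediv k (NN j)
  linarith

theorem AF_u_AE (j k : ℤ) : AF.u (AE j k) = gu j k := by
  have h : AF.u (AE j k) = gu j ((k % NN j).toNat : ℤ) := rfl
  rw [h, ← gu_per j _ (k / NN j), AR0_mod]

theorem AF_q_AE (j k : ℤ) : AF.q (AE j k) + lat (0, k / NN j) = gq j k := by
  have h : AF.q (AE j k) = gq j ((k % NN j).toNat : ℤ) := rfl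
  rw [h, ← gq_per, AR0_mod]

end

end TorD
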