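import Pool.Agent.H51.TD.AR0

/-! # AR1: points on the pieces

PROOF. `Fam.On_iff` (PCA): `On i y ↔ ∃ w, ∃ t ∈ [-1,1], y = q i + t • u i + lat w`. on_pt: `u = 0`. on_edge: with `k : Fin (NN j)`, `q = gq j k`, `u = gu j k` (`AF_q_edge`, `AF_u_edge`, rfl), and `gam_edge`:
`gam j ((k + (1+x)/2)/N) = gq j k + x • gu j k`; conversely `t ∈ [k/N,(k+1)/N]` is `(k + (1+x)/2)/N` with `x = 2 (N t - k) - 1 ∈ [-1,1]`.
on_AE: `AF_q_AE`, `AF_u_AE`: `gam j t = gq j k + x • gu j k = q (AE j k) + x • u (AE j k) + lat (0, k / N)`, and On_iff.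
AE_cases: an index with `u ≠ 0` is `Sum.inr ⟨j, k⟩ = AE j k` (`(k : ℤ) % N = k` since `k < N`: Int.emod_eq_of_lt; `Fin.ext`).
on_germ: let `y = q + τ • u + lat w` with `τ ∈ [-1,1]` (On at `y`, because `On` is closed (`Fam.On_closed`) and `y + (ε*s) • u → y`). For small `ε > 0`, `ε < 1`: `y + (ε s) u = q + τ' u + lat w'`, so
`(τ' - τ - ε s) • u = lat (w - w')` (lat_sub), `|τ' - τ - ε s| ≤ 3`, `‖u‖ ≤ 1/8` (AF.ule), so `‖lat (w - w')‖ < 1`, `w = w'` (lat_norm) and `τ + ε s = τ' ∈ [-1,1]` (`u ≠ 0`). Then put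
`t = (k + (1+τ)/2)/N` and `gam_edge`: `t + ε s/(2N) = (k + (1+(τ+ε s))/2)/N` is in the interval. -/

set_option autoImplicit false

open Topology Filter Set Function

namespace TorD

theorem on_pt (r : ℚ × ℚ) (y : ℂ) : AF.On (Sum.inl r) y ↔ ∃ w, y = ⟨r.1, r.2⟩ + lat w := by
  rw [AF.On_iff]
  constructor
  · rintro ⟨w, t, _, h⟩
    refine ⟨w, ?_⟩
    rw [h, AF_q_pt, AF_u_pt, smul_zero, add_zero]
  · rintro ⟨w, h⟩
    refine ⟨w, 0, ⟨by norm_num, by norm_num⟩, ?_⟩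
    rw [h, AF_q_pt, AF_u_pt, smul_zero, add_zero]

theorem AR1_mem (j k : ℤ) {x : ℝ} (hx : x ∈ Icc (-1 : ℝ) 1) :
    ((k : ℝ) + (1 + x) / 2) / NN j ∈ Icc ((k : ℝ) / NN j) (((k : ℝ) + 1) / NN j) := by
  have h0 := NN_r j
  obtain ⟨h1, h2⟩ := hx
  constructor
  · gcongr
    linarith
  · gcongr
    linarith

/-- the parametrisation of an edge by `[-1,1]` -/
theorem AR1_edge_iff (j k : ℤ) (z : ℂ) :
    (∃ t ∈ Icc ((k : ℝ) / NN j) (((k : ℝ) + 1) / NN j), z = gam j t) ↔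
      ∃ x ∈ Icc (-1 : ℝ) 1, z = gq j k + x • gu j k := by
  have h0 := NN_r j
  constructor
  · rintro ⟨t, ⟨h1, h2⟩, rfl⟩
    rw [div_le_iff₀ h0] at h1
    rw [le_div_iff₀ h0] at h2
    have hx : 2 * (t * NN j - k) - 1 ∈ Icc (-1 : ℝ) 1 := ⟨by linarith, by linarith⟩
    refine ⟨2 * (t * NN j - k) - 1, hx, ?_⟩
    rw [← gam_edge j k hx]
    congr 1
    rw [eq_div_iff h0.ne']
    ring
  · rintro ⟨x, hx, rfl⟩
    exact ⟨_, AR1_mem j k hx, (gam_edge j k hx).symm⟩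

theorem on_edge (j : ℤ) (k : Fin (NN j)) (y : ℂ) : AF.On (Sum.inr ⟨j, k⟩) y ↔
    ∃ w, ∃ t ∈ Icc (((k : ℕ) : ℝ) / NN j) ((((k : ℕ) : ℝ) + 1) / NN j), y = gam j t + lat w := by
  rw [AF.On_iff]
  have hc : ((((k : ℕ) : ℤ)) : ℝ) = ((k : ℕ) : ℝ) := Int.cast_natCast _
  have key := AR1_edge_iff j ((k : ℕ) : ℤ)
  rw [hc] at key
  constructor
  · rintro ⟨w, x, hx, h⟩
    rw [AF_q_edge, AF_u_edge] at h
    obtain ⟨t, ht, h2⟩ := (key _).2 ⟨x, hx, rfl⟩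
    exact ⟨w, t, ht, by rw [h, ← h2]⟩
  · rintro ⟨w, t, ht, h⟩
    obtain ⟨x, hx, h2⟩ := (key _).1 ⟨t, ht, rfl⟩
    refine ⟨w, x, hx, ?_⟩
    rw [AF_q_edge, AF_u_edge, h, h2]

theorem on_AE (j k : ℤ) {t : ℝ} (ht : t ∈ Icc ((k : ℝ) / NN j) (((k : ℝ) + 1) / NN j)) (w : ℤ × ℤ) :
    AF.On (AE j k) (gam j t + lat w) := by
  rw [AF.On_iff]
  obtain ⟨x, hx, h⟩ := (AR1_edge_iff j k _).1 ⟨t, ht, rfl⟩
  refine ⟨(0, k / NN j) + w, x, hx, ?_⟩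
  rw [h, AF_u_AE, ← AF_q_AE j k, lat_add]
  ring

theorem AE_cases {i : AI} (h : AF.u i ≠ 0) : ∃ j k : ℤ, 0 ≤ k ∧ k < NN j ∧ i = AE j k := by
  rcases i with r | ⟨j, k⟩
  · exact absurd (AF_u_pt r) h
  · have hk : ((k : ℕ) : ℤ) < NN j := by exact_mod_cast k.2
    refine ⟨j, ((k : ℕ) : ℤ), Int.natCast_nonneg _, hk, ?_⟩
    unfold AE
    congr 2
    apply Fin.ext
    have h1 : ((k : ℕ) : ℤ) % NN j = ((k : ℕ) : ℤ) := Int.emod_eq_of_lt (Int.natCast_nonneg _) hk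
    show (k : ℕ) = ((((k : ℕ) : ℤ)) % NN j).toNat
    rw [h1, Int.toNat_natCast]

theorem AR1_on (j k : ℤ) (y : ℂ) : AF.On (AE j k) y ↔
    ∃ w, ∃ x ∈ Icc (-1 : ℝ) 1, y = gq j k + x • gu j k + lat w := by
  rw [AF.On_iff]
  constructor
  · rintro ⟨w, x, hx, h⟩
    refine ⟨w - (0, k / NN j), x, hx, ?_⟩
    rw [h, AF_u_AE, ← AF_q_AE j k, lat_sub]
    ring
  · rintro ⟨w, x, hx, h⟩
    refine ⟨(0, k / NN j) + w, x, hx, ?_⟩
    rw [h, AF_u_AE, ← AF_q_AE j k, lat_add]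
    ring

theorem on_AE_iff (j k : ℤ) (h0 : 0 ≤ k) (h1 : k < NN j) (y : ℂ) : AF.On (AE j k) y ↔
    ∃ w, ∃ t ∈ Icc ((k : ℝ) / NN j) (((k : ℝ) + 1) / NN j), y = gam j t + lat w := by
  rw [AR1_on]
  constructor
  · rintro ⟨w, x, hx, h⟩
    obtain ⟨t, ht, h2⟩ := (AR1_edge_iff j k _).2 ⟨x, hx, rfl⟩
    exact ⟨w, t, ht, by rw [h, ← h2]⟩
  · rintro ⟨w, t, ht, h⟩
    obtain ⟨x, hx, h2⟩ := (AR1_edge_iff j k _).1 ⟨t, ht, rfl⟩
    exact ⟨w, x, hx, by rw [h, h2]⟩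

/-- the germ of an edge -/
theorem on_germ {j k : ℤ} (h0 : 0 ≤ k) (h1 : k < NN j) {y : ℂ} {s : ℝ} (hs : s = 1 ∨ s = -1)
    (h : ∀ᶠ ε in 𝓝[>] (0 : ℝ), AF.On (AE j k) (y + (ε * s) • AF.u (AE j k))) :
    ∃ w, ∃ t ∈ Icc ((k : ℝ) / NN j) (((k : ℝ) + 1) / NN j), y = gam j t + lat w ∧
      ∀ᶠ ε in 𝓝[>] (0 : ℝ), t + ε * s / (2 * NN j) ∈ Icc ((k : ℝ) / NN j) (((k : ℝ) + 1) / NN j) := by
  have hN := NN_r j
  have hu := gu_ne j k
  have hu8 := gu_le j k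
  have hs1 : |s| = 1 := by
    rcases hs with rfl | rfl
    · exact abs_one
    · rw [abs_neg, abs_one]
  rw [AF_u_AE] at h
  have hlim : Tendsto (fun ε : ℝ => y + (ε * s) • gu j k) (𝓝[>] 0) (𝓝 y) := by
    have hc : Continuous (fun ε : ℝ => y + (ε * s) • gu j k) := by fun_prop
    have h2 := (hc.tendsto 0).mono_left (nhdsWithin_le_nhds (s := Ioi 0))
    simp only [zero_mul, zero_smul, add_zero] at h2
    exact h2
  have hony : AF.On (AE j k) y := (AF.On_closed (AE j k)).mem_of_tendsto hlim h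
  obtain ⟨w, τ, hτ, hy⟩ := (AR1_on j k y).1 hony
  have hsmall : ∀ᶠ ε in 𝓝[>] (0 : ℝ), ε ∈ Ioo (0 : ℝ) 1 := Ioo_mem_nhdsGT (by norm_num)
  have hev : ∀ᶠ ε in 𝓝[>] (0 : ℝ), τ + ε * s ∈ Icc (-1 : ℝ) 1 := by
    filter_upwards [h, hsmall] with ε hε1 hε2
    obtain ⟨w', τ', hτ', hy'⟩ := (AR1_on j k _).1 hε1
    have e1 : (τ + ε * s - τ') • gu j k = lat (w' - w) := by
      rw [lat_sub, sub_smul, add_smul]
      rw [hy] at hy'
      linear_combination hy'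
    have e2 : ‖(τ + ε * s - τ') • gu j k‖ < 1 := by
      rw [norm_smul, Real.norm_eq_abs]
      have a1 : |τ + ε * s - τ'| ≤ 3 := by
        have b1 : |τ| ≤ 1 := abs_le.2 hτ
        have b2 : |τ'| ≤ 1 := abs_le.2 hτ'
        have b3 : |ε * s| ≤ 1 := by
          rw [abs_mul, hs1, mul_one, abs_of_pos hε2.1]
          exact hε2.2.le
        have b4 := abs_sub (τ + ε * s) τ'
        have b5 := abs_add_le τ (ε * s)
        linarith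
      calc |τ + ε * s - τ'| * ‖gu j k‖ ≤ 3 * (1 / 8) :=
            mul_le_mul a1 hu8 (norm_nonneg _) (by norm_num)
        _ < 1 := by norm_num
    have e3 : w' - w = 0 := by
      by_contra hne
      have := lat_norm hne
      rw [← e1] at this
      linarith
    rw [e3, lat_zero] at e1
    have e4 : τ + ε * s - τ' = 0 := (smul_eq_zero.1 e1).resolve_right hu
    have e5 : τ + ε * s = τ' := by linarith
    rw [e5]
    exact hτ'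
  refine ⟨w, ((k : ℝ) + (1 + τ) / 2) / NN j, AR1_mem j k hτ, ?_, ?_⟩
  · rw [gam_edge j k hτ]
    exact hy
  · filter_upwards [hev] with ε hε
    have h2 := AR1_mem j k hε
    have h3 : ((k : ℝ) + (1 + τ) / 2) / NN j + ε * s / (2 * NN j) =
        ((k : ℝ) + (1 + (τ + ε * s)) / 2) / NN j := by
      field_simp
      ring
    rw [h3]
    exact h2

end TorD
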