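import Pool.Agent.H51.TD.AR1

/-! # AR2: the arrangement, incidence of the pieces

PROOF. ar_pts: `z = ⟨a, b⟩`: the index `Sum.inl (a, b)`, `rd 0 = 0` (rd_eq with w = 0, lat_zero). ar_rat: point pieces: `q ± 0` rational; edges: `gq - gu = gam j (k/N)`, `gq + gu = gam j ((k+1)/N)` (definitions), rational by gam_rat.
ar_one: `y` not rational, on the pieces `i`, `i'`. A point piece contains only rational points (on_pt, rat2_lat). So `i = (j,k)`, `i' = (j',k')`, `y = gam j t + lat w = gam j' t' + lat w'` (on_edge), `t` is not rational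
(gam_rat, rat2_lat). If `j ≠ j'`: `gam j t = gam j' t' + lat (w' - w)` contradicts gam_cross. So `j = j'` (subst), `t = t' + n` (gam_inj). Now `N t ∈ [k, k+1]`, `N t' ∈ [k', k'+1]`, and `N t` is not an integer (else `t` is rational), so
`k = ⌊N t⌋`, `k' = ⌊N t'⌋ = ⌊N t - N n⌋ = k - N n`, and `0 ≤ k, k' < N` give `n = 0`, `k = k'`.
ar_fin2: if one of the pieces is the point `r`: `F = {r}`. Otherwise edges `(j,k)`, `(j',k')`. If `j ≠ j'`: with `F₀` from gam_fin, `F = F₀.image (gam j)`: `z = gam j t + lat w`, `t ∈ [k/N,(k+1)/N] ⊆ [0,1]`, `z = gam j' t' + lat w'`, so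
`gam j t = gam j' t' + lat (w' - w)`. If `j = j'`, `k ≠ k'`: `F = {gam j (k/N), gam j ((k+1)/N)}`: `t = t' + n`; if `N t` were not an end point `k`, `k+1`, then `k < N t < k+1`, `k' ≤ N t - N n ≤ k' + 1`, so `k' = k - N n`
or ... (`k' < k + 1 - N n` and `k' + 1 > k - N n`, integers: `k' = k - N n`), contradiction as before. -/

set_option autoImplicit false

open Topology Filter Set Function

namespace TorD

theorem ar_pts (z : ℂ) (hz : z ∈ Rat2) : ∃ i, AF.u i = 0 ∧ rd (z - AF.q i) = 0 := by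
  obtain ⟨a, b, rfl⟩ := hz
  refine ⟨Sum.inl (a, b), AF_u_pt _, ?_⟩
  rw [AF_q_pt, sub_self]
  have h := rd_eq (x := 0) (w := 0) (by
    rw [lat_zero, sub_zero, norm_zero]
    norm_num)
  rw [h, lat_zero, sub_zero]

theorem AR2_sub (j k : ℤ) : gq j k - gu j k = gam j ((k : ℝ) / NN j) := by
  unfold gq gu
  module

theorem AR2_add (j k : ℤ) : gq j k + gu j k = gam j (((k : ℝ) + 1) / NN j) := by
  unfold gq gu
  module

theorem ar_rat (i : AI) : AF.q i - AF.u i ∈ Rat2 ∧ AF.q i + AF.u i ∈ Rat2 := by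
  rcases i with r | e
  · rw [AF_q_pt, AF_u_pt, sub_zero, add_zero]
    exact ⟨⟨r.1, r.2, rfl⟩, ⟨r.1, r.2, rfl⟩⟩
  · rw [AF_q_edge, AF_u_edge, AR2_sub, AR2_add]
    constructor
    · rw [gam_rat]
      refine ⟨(((e.2 : ℕ) : ℤ) : ℚ) / (NN e.1 : ℚ), ?_⟩
      push_cast
      rfl
    · rw [gam_rat]
      refine ⟨((((e.2 : ℕ) : ℤ) : ℚ) + 1) / (NN e.1 : ℚ), ?_⟩
      push_cast
      rfl

theorem AR2_mod {N : ℕ} {k k' : Fin N} {n : ℤ} (h : ((k : ℕ) : ℤ) = ((k' : ℕ) : ℤ) + N * n) :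
    k = k' := by
  have h1 : ((k : ℕ) : ℤ) < N := by exact_mod_cast k.2
  have h2 : ((k' : ℕ) : ℤ) < N := by exact_mod_cast k'.2
  have h3 : (0 : ℤ) ≤ ((k : ℕ) : ℤ) := Int.natCast_nonneg _
  have h4 : (0 : ℤ) ≤ ((k' : ℕ) : ℤ) := Int.natCast_nonneg _
  have hN : (0 : ℤ) < N := by linarith
  have hn : n = 0 := by
    rcases lt_trichotomy n 0 with h5 | h5 | h5
    · have h6 : (N : ℤ) * n ≤ -N := by nlinarith
      linarith
    · exact h5
    · have h6 : (N : ℤ) ≤ N * n := by nlinarith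
      linarith
  rw [hn, mul_zero, add_zero] at h
  exact Fin.ext (by exact_mod_cast h)

theorem AR2_edge {i : AI} {y : ℂ} (hy : y ∉ Rat2) (h : AF.On i y) :
    ∃ (j : ℤ) (k : Fin (NN j)), i = Sum.inr ⟨j, k⟩ ∧ ∃ w,
      ∃ t ∈ Icc (((k : ℕ) : ℝ) / NN j) ((((k : ℕ) : ℝ) + 1) / NN j), y = gam j t + lat w := by
  rcases i with r | ⟨j, k⟩
  · exfalso
    obtain ⟨w, hw⟩ := (on_pt r y).1 h
    apply hy
    rw [hw, rat2_lat]
    exact ⟨r.1, r.2, rfl⟩
  · exact ⟨j, k, rfl, (on_edge j k y).1 h⟩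

theorem AR2_key {j : ℤ} {k k' : Fin (NN j)} {t t' : ℝ}
    (ht : t ∈ Icc (((k : ℕ) : ℝ) / NN j) ((((k : ℕ) : ℝ) + 1) / NN j))
    (ht' : t' ∈ Icc (((k' : ℕ) : ℝ) / NN j) ((((k' : ℕ) : ℝ) + 1) / NN j))
    {n : ℤ} (hn : t = t' + n) (h1 : t ≠ ((k : ℕ) : ℝ) / NN j) (h2 : t ≠ (((k : ℕ) : ℝ) + 1) / NN j) :
    k = k' := by
  have hN : (0 : ℝ) < NN j := NN_r j
  have a1 : ((k : ℕ) : ℝ) < t * NN j := by
    have := lt_of_le_of_ne ht.1 (Ne.symm h1)
    rwa [div_lt_iff₀ hN] at this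
  have a2 : t * NN j < ((k : ℕ) : ℝ) + 1 := by
    have := lt_of_le_of_ne ht.2 h2
    rwa [lt_div_iff₀ hN] at this
  have a3 : ((k' : ℕ) : ℝ) ≤ t' * NN j := by
    have := ht'.1
    rwa [div_le_iff₀ hN] at this
  have a4 : t' * NN j ≤ ((k' : ℕ) : ℝ) + 1 := by
    have := ht'.2
    rwa [le_div_iff₀ hN] at this
  have a5 : t * NN j = t' * NN j + NN j * n := by
    rw [hn]
    ring
  have b1 : ((k' : ℕ) : ℝ) + NN j * n < ((k : ℕ) : ℝ) + 1 := by linarith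
  have b2 : ((k : ℕ) : ℝ) < ((k' : ℕ) : ℝ) + NN j * n + 1 := by linarith
  have c1 : ((k' : ℕ) : ℤ) + NN j * n < ((k : ℕ) : ℤ) + 1 := by exact_mod_cast b1
  have c2 : ((k : ℕ) : ℤ) < ((k' : ℕ) : ℤ) + NN j * n + 1 := by exact_mod_cast b2
  refine AR2_mod (n := n) ?_
  linarith [Int.lt_add_one_iff.1 c1, Int.lt_add_one_iff.1 c2]

theorem AR2_lat {j j' : ℤ} {t t' : ℝ} {w w' : ℤ × ℤ} {y : ℂ} (h : y = gam j t + lat w)
    (h' : y = gam j' t' + lat w') : gam j t = gam j' t' + lat (w' - w) := by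
  rw [lat_sub]
  have := h.symm.trans h'
  rw [← add_sub_assoc, ← this]
  ring

theorem ar_one (y : ℂ) (hy : y ∉ Rat2) (i i' : AI) (h : AF.On i y) (h' : AF.On i' y) : i = i' := by
  obtain ⟨j, k, rfl, w, t, ht, hyt⟩ := AR2_edge hy h
  obtain ⟨j', k', rfl, w', t', ht', hyt'⟩ := AR2_edge hy h'
  have hr : ¬ ∃ r : ℚ, t = r := by
    intro hc
    apply hy
    rw [hyt, rat2_lat, gam_rat]
    exact hc
  have h1 := AR2_lat hyt hyt'
  by_cases hj : j = j'
  · subst hj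
    obtain ⟨n, hn⟩ := gam_inj h1
    have hk : k = k' := by
      refine AR2_key ht ht' hn ?_ ?_
      · intro hc
        apply hr
        refine ⟨((k : ℕ) : ℚ) / (NN j : ℚ), ?_⟩
        rw [hc]
        push_cast
        rfl
      · intro hc
        apply hr
        refine ⟨(((k : ℕ) : ℚ) + 1) / (NN j : ℚ), ?_⟩
        rw [hc]
        push_cast
        rfl
    rw [hk]
  · exact absurd (gam_cross hj h1) hr

theorem ar_fin2 (i i' : AI) (hi : i ≠ i') : ∃ F : Finset ℂ, ∀ z, AF.On i z → AF.On i' z →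
    ∃ x ∈ F, ∃ w, z = x + lat w := by
  classical
  rcases i with r | ⟨j, k⟩
  · refine ⟨{⟨r.1, r.2⟩}, fun z hz _ => ?_⟩
    obtain ⟨w, hw⟩ := (on_pt r z).1 hz
    exact ⟨_, Finset.mem_singleton_self _, w, hw⟩
  rcases i' with r | ⟨j', k'⟩
  · refine ⟨{⟨r.1, r.2⟩}, fun z _ hz => ?_⟩
    obtain ⟨w, hw⟩ := (on_pt r z).1 hz
    exact ⟨_, Finset.mem_singleton_self _, w, hw⟩
  by_cases hj : j = j'
  · subst hj
    refine ⟨{gam j (((k : ℕ) : ℝ) / NN j), gam j ((((k : ℕ) : ℝ) + 1) / NN j)}, fun z hz hz' => ?_⟩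
    obtain ⟨w, t, ht, hzt⟩ := (on_edge j k z).1 hz
    obtain ⟨w', t', ht', hzt'⟩ := (on_edge j k' z).1 hz'
    obtain ⟨n, hn⟩ := gam_inj (AR2_lat hzt hzt')
    by_cases h1 : t = ((k : ℕ) : ℝ) / NN j
    · refine ⟨_, Finset.mem_insert_self _ _, w, ?_⟩
      rw [hzt, h1]
    · by_cases h2 : t = (((k : ℕ) : ℝ) + 1) / NN j
      · refine ⟨_, Finset.mem_insert_of_mem (Finset.mem_singleton_self _), w, ?_⟩
        rw [hzt, h2]
      · exfalso
        apply hi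
        rw [AR2_key ht ht' hn h1 h2]
  · obtain ⟨F, hF⟩ := gam_fin hj
    refine ⟨F.image (gam j), fun z hz hz' => ?_⟩
    obtain ⟨w, t, ht, hzt⟩ := (on_edge j k z).1 hz
    obtain ⟨w', t', ht', hzt'⟩ := (on_edge j' k' z).1 hz'
    have hN : (0 : ℝ) < NN j := NN_r j
    have h01 : t ∈ Icc (0 : ℝ) 1 := by
      constructor
      · exact le_trans (by positivity) ht.1
      · refine ht.2.trans ?_
        rw [div_le_one hN]
        have : (k : ℕ) + 1 ≤ NN j := k.2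
        exact_mod_cast this
    have h2 := hF t h01 t' (w' - w) (AR2_lat hzt hzt')
    exact ⟨_, Finset.mem_image_of_mem _ h2, w, hzt⟩

end TorD
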