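import Pool.Agent.H51.TD.AR1

/-! # AR3: edges are mapped to edges, one sided

PROOF. `i = AE j k`, `0 ≤ k < NN j` (AE_cases). on_germ: `y = gam j t + lat w`, and `t + ε s/(2N)` stays in the interval for small `ε > 0`. gam_lin: `y + (ε s) • gu j k = gam j (t + ε s/(2N)) + lat w` for small `ε`
(`2 N (ε s/(2N)) = ε s`, `AF_u_AE`). So `φ (y + (ε s) • u) = gam (j+δ) (t + ε s/(2N)) + lat w` and `φ y = gam (j+δ) t + lat w`. Put `N' = NN (j+δ)`. If `s = 1` choose `k'` with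
`t ∈ [k'/N',(k'+1)/N')` (exists_right), if `s = -1` with `t ∈ (k'/N',(k'+1)/N']` (exists_left): for small `η > 0` also `t + s η` is in `[k'/N',(k'+1)/N']`. gam_lin for `(j+δ,k')`:
`gam (j+δ) (t + ε s/(2N)) = gam (j+δ) t + (2N' ε s/(2N)) • gu (j+δ) k'`, so `r = N'/N`, index `AE (j+δ) k'` (`AF_u_AE`). The last claim: `φ y + (ε s) • gu (j+δ) k' = gam (j+δ) (t + ε s/(2N')) + lat w` (gam_lin), on_AE. -/

set_option autoImplicit false

open Topology Filter Set Function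

namespace TorD

theorem AR3_side (j : ℤ) (t : ℝ) {s : ℝ} (hs : s = 1 ∨ s = -1) : ∃ k : ℤ, ∃ e : ℝ, 0 < e ∧
    ∀ x : ℝ, 0 ≤ x → x < e → t + x * s ∈ Icc ((k : ℝ) / NN j) (((k : ℝ) + 1) / NN j) := by
  rcases hs with rfl | rfl
  · obtain ⟨k, hk⟩ := exists_right j t
    refine ⟨k, ((k : ℝ) + 1) / NN j - t, by linarith [hk.2], fun x h0 h1 => ⟨?_, ?_⟩⟩
    · linarith [hk.1]
    · linarith
  · obtain ⟨k, hk⟩ := exists_left j t
    refine ⟨k, t - (k : ℝ) / NN j, by linarith [hk.1], fun x h0 h1 => ⟨?_, ?_⟩⟩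
    · linarith
    · linarith [hk.2]

theorem ar_edg {φ : ℂ → ℂ} {δ : ℤ} (hφ : ∀ (j : ℤ) (t : ℝ), gam (j + δ) t = φ (gam j t))
    (hl : ∀ x w, φ (x + lat w) = φ x + lat w) (y : ℂ) (i : AI) (s : ℝ) (hs : s = 1 ∨ s = -1)
    (hu : AF.u i ≠ 0) (h : ∀ᶠ ε in 𝓝[>] (0 : ℝ), AF.On i (y + (ε * s) • AF.u i)) :
    ∃ j, AF.u j ≠ 0 ∧ ∃ r : ℝ, 0 < r ∧ ∀ᶠ ε in 𝓝[>] (0 : ℝ),
      φ (y + (ε * s) • AF.u i) = φ y + (ε * s * r) • AF.u j ∧ AF.On j (φ y + (ε * s) • AF.u j) := by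
  obtain ⟨j, k, h0, h1, rfl⟩ := AE_cases hu
  obtain ⟨w, t, ht, hy, hev⟩ := on_germ h0 h1 hs h
  obtain ⟨k', e, he, hk'⟩ := AR3_side (j + δ) t hs
  have hN := NN_r j
  have hN' := NN_r (j + δ)
  have ht' : t ∈ Icc ((k' : ℝ) / NN (j + δ)) (((k' : ℝ) + 1) / NN (j + δ)) := by
    have := hk' 0 le_rfl he
    rwa [zero_mul, add_zero] at this
  refine ⟨AE (j + δ) k', ?_, (NN (j + δ) : ℝ) / NN j, by positivity, ?_⟩
  · rw [AF_u_AE]
    exact gu_ne _ _
  have hb : 0 < min (e * (2 * NN j)) (e * (2 * NN (j + δ))) := lt_min (by positivity) (by positivity)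
  filter_upwards [hev, Ioo_mem_nhdsGT hb] with ε h2 h3
  have hε : 0 < ε := h3.1
  have h4 : ε / (2 * NN j) < e := by
    rw [div_lt_iff₀ (by positivity)]
    exact h3.2.trans_le (min_le_left _ _)
  have h5 : ε / (2 * NN (j + δ)) < e := by
    rw [div_lt_iff₀ (by positivity)]
    exact h3.2.trans_le (min_le_right _ _)
  have m1 := hk' (ε / (2 * NN j)) (by positivity) h4
  have m2 := hk' (ε / (2 * NN (j + δ))) (by positivity) h5
  rw [div_mul_eq_mul_div] at m1 m2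
  rw [AF_u_AE, AF_u_AE]
  have e1 : y + (ε * s) • gu j k = gam j (t + ε * s / (2 * NN j)) + lat w := by
    rw [gam_lin j k ht h2, hy]
    have a1 : 2 * (NN j : ℝ) * (t + ε * s / (2 * NN j) - t) = ε * s := by
      field_simp
      ring
    rw [a1]
    ring
  have e2 : φ y = gam (j + δ) t + lat w := by
    rw [hy, hl, hφ]
  constructor
  · rw [e1, hl, ← hφ, e2, gam_lin (j + δ) k' ht' m1]
    have a1 : 2 * (NN (j + δ) : ℝ) * (t + ε * s / (2 * NN j) - t) = ε * s * (NN (j + δ) / NN j) := by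
      field_simp
      ring
    rw [a1]
    ring
  · have e3 : φ y + (ε * s) • gu (j + δ) k' = gam (j + δ) (t + ε * s / (2 * NN (j + δ))) + lat w := by
      rw [gam_lin (j + δ) k' ht' m2, e2]
      have a1 : 2 * (NN (j + δ) : ℝ) * (t + ε * s / (2 * NN (j + δ)) - t) = ε * s := by
        field_simp
        ring
      rw [a1]
      ring
    rw [e3]
    exact on_AE (j + δ) k' m2 w

end TorD
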