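import Pool.Agent.H51.TD.AR1

/-! # AR4: edges are mapped to edges, two sided, up to finitely many points

PROOF. `i = AE j k`, `0 ≤ k < N = NN j` (AE_cases), `N' = NN (j+δ)`. `F` = image under `gam j` of the finite set `{k/N, (k+1)/N} ∪ {m/N' | 0 ≤ m ≤ N'}` (`Finset.image` over `Finset.range (N'+1)`), `T` = image of `Finset.range N'` under
`m ↦ AE (j+δ) m`. Let `z = gam j t + lat w`, `t ∈ [k/N,(k+1)/N] ⊆ [0,1]` (on_AE_iff). If `t = k/N` or `t = (k+1)/N` or `t = m/N'` for an integer `m` (`0 ≤ m ≤ N'`), then `z ∈ F + L`. Otherwise `t` is in the open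
interval `(k/N,(k+1)/N)` and in an open interval `(m/N',(m+1)/N')`, `m = ⌊t N'⌋`, `0 ≤ m < N'` (exists_right). For `|ε|` small, `t + ε/(2N)` and `t + ε/(2N')` are in both closed intervals. gam_lin: `z + ε • gu j k = gam j (t + ε/(2N)) + lat w`,
which is on `AE j k` (on_AE); `φ z = gam (j+δ) t + lat w`, `φ (z + ε • gu j k) = gam (j+δ) (t + ε/(2N)) + lat w = φ z + (ε N'/N) • gu (j+δ) m`, `r = N'/N`; `φ z + ε • gu (j+δ) m = gam (j+δ) (t + ε/(2N')) + lat w` is on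
`AE (j+δ) m`. (`AF_u_AE`.) -/

set_option autoImplicit false

open Topology Filter Set Function

namespace TorD

theorem ar_edf {φ : ℂ → ℂ} {δ : ℤ} (hφ : ∀ (j : ℤ) (t : ℝ), gam (j + δ) t = φ (gam j t))
    (hl : ∀ x w, φ (x + lat w) = φ x + lat w) (i : AI) (hu : AF.u i ≠ 0) :
    ∃ (F : Finset ℂ) (T : Finset AI), ∀ z, AF.On i z → (∃ x ∈ F, ∃ w, z = x + lat w) ∨
    ∃ j ∈ T, AF.u j ≠ 0 ∧ ∃ r : ℝ, 0 < r ∧ ∀ᶠ ε in 𝓝 (0 : ℝ), AF.On i (z + ε • AF.u i) ∧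
      AF.On j (φ z + ε • AF.u j) ∧ φ (z + ε • AF.u i) = φ z + (ε * r) • AF.u j := by
  classical
  obtain ⟨j, k, h0, h1, rfl⟩ := AE_cases hu
  have hN : (0 : ℝ) < NN j := NN_r j
  have hN' : (0 : ℝ) < NN (j + δ) := NN_r (j + δ)
  refine ⟨insert (gam j ((k : ℝ) / NN j)) (insert (gam j (((k : ℝ) + 1) / NN j))
    ((Finset.range (NN (j + δ) + 1)).image (fun m : ℕ => gam j ((m : ℝ) / NN (j + δ))))),
    (Finset.range (NN (j + δ) + 1)).image (fun m : ℕ => AE (j + δ) m), ?_⟩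
  intro z hz
  obtain ⟨w, t, ht, rfl⟩ := (on_AE_iff j k h0 h1 z).1 hz
  obtain ⟨m, hm⟩ := exists_right (j + δ) t
  have hk0 : (0 : ℝ) ≤ k := by exact_mod_cast h0
  have hk1 : (k : ℝ) + 1 ≤ NN j := by exact_mod_cast h1
  have ht0 : 0 ≤ t := le_trans (by positivity) ht.1
  have ht1 : t ≤ 1 := le_trans ht.2 (by rw [div_le_one hN]; exact hk1)
  have hm0 : 0 ≤ m := by
    have h2 : 0 < ((m : ℝ) + 1) / NN (j + δ) := lt_of_le_of_lt ht0 hm.2
    have h3 : 0 < (m : ℝ) + 1 := by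
      by_contra hneg
      push Not at hneg
      have := div_nonpos_of_nonpos_of_nonneg hneg hN'.le
      linarith
    have h4 : (0 : ℤ) < m + 1 := by exact_mod_cast h3
    omega
  obtain ⟨m', rfl⟩ := Int.eq_ofNat_of_zero_le hm0
  have hm1 : m' ≤ NN (j + δ) := by
    have h2 : ((m' : ℤ) : ℝ) / NN (j + δ) ≤ 1 := hm.1.trans ht1
    rw [div_le_one hN'] at h2
    exact_mod_cast h2
  have hmem : m' ∈ Finset.range (NN (j + δ) + 1) := Finset.mem_range.2 (by omega)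
  by_cases e1 : t = (k : ℝ) / NN j
  · left
    exact ⟨_, Finset.mem_insert_self _ _, w, by rw [e1]⟩
  by_cases e2 : t = ((k : ℝ) + 1) / NN j
  · left
    exact ⟨_, Finset.mem_insert_of_mem (Finset.mem_insert_self _ _), w, by rw [e2]⟩
  by_cases e3 : t = ((m' : ℤ) : ℝ) / NN (j + δ)
  · left
    refine ⟨_, Finset.mem_insert_of_mem (Finset.mem_insert_of_mem
      (Finset.mem_image_of_mem _ hmem)), w, ?_⟩
    rw [e3]
    simp
  right
  have htI : t ∈ Ioo ((k : ℝ) / NN j) (((k : ℝ) + 1) / NN j) :=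
    ⟨lt_of_le_of_ne ht.1 (Ne.symm e1), lt_of_le_of_ne ht.2 e2⟩
  have hmI : t ∈ Ioo (((m' : ℤ) : ℝ) / NN (j + δ)) ((((m' : ℤ) : ℝ) + 1) / NN (j + δ)) :=
    ⟨lt_of_le_of_ne hm.1 (Ne.symm e3), hm.2⟩
  refine ⟨AE (j + δ) m', Finset.mem_image_of_mem _ hmem, ?_, (NN (j + δ) : ℝ) / NN j,
    by positivity, ?_⟩
  · rw [AF_u_AE]
    exact gu_ne _ _
  have hT : ∀ c : ℝ, Tendsto (fun ε : ℝ => t + ε / c) (𝓝 0) (𝓝 t) := by
    intro c
    have : Tendsto (fun ε : ℝ => t + ε / c) (𝓝 0) (𝓝 (t + 0 / c)) := by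
      refine (Continuous.tendsto ?_ 0)
      fun_prop
    simpa using this
  have hA := (hT (2 * NN j)).eventually (isOpen_Ioo.mem_nhds htI)
  have hB := (hT (2 * NN j)).eventually (isOpen_Ioo.mem_nhds hmI)
  have hC := (hT (2 * NN (j + δ))).eventually (isOpen_Ioo.mem_nhds hmI)
  filter_upwards [hA, hB, hC] with ε a1 b1 c1
  have a2 := Ioo_subset_Icc_self a1
  have b2 := Ioo_subset_Icc_self b1
  have c2 := Ioo_subset_Icc_self c1
  have hmc := Ioo_subset_Icc_self hmI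
  have g1 := gam_lin j k ht a2
  have g2 := gam_lin (j + δ) m' hmc c2
  have g3 := gam_lin (j + δ) m' hmc b2
  have s1 : 2 * (NN j : ℝ) * (t + ε / (2 * NN j) - t) = ε := by
    field_simp
    ring
  have s2 : 2 * (NN (j + δ) : ℝ) * (t + ε / (2 * NN (j + δ)) - t) = ε := by
    field_simp
    ring
  have s3 : 2 * (NN (j + δ) : ℝ) * (t + ε / (2 * NN j) - t) = ε * (NN (j + δ) / NN j) := by
    field_simp
    ring
  rw [s1] at g1
  rw [s2] at g2
  rw [s3] at g3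
  rw [AF_u_AE, AF_u_AE]
  have z1 : gam j t + lat w + ε • gu j k = gam j (t + ε / (2 * NN j)) + lat w := by
    rw [g1]
    abel
  have z2 : φ (gam j t + lat w) = gam (j + δ) t + lat w := by
    rw [hl, ← hφ]
  have z3 : gam (j + δ) t + lat w + ε • gu (j + δ) m' =
      gam (j + δ) (t + ε / (2 * NN (j + δ))) + lat w := by
    rw [g2]
    abel
  refine ⟨?_, ?_, ?_⟩
  · rw [z1]
    exact on_AE j k a2 w
  · rw [z2, z3]
    exact on_AE (j + δ) m' c2 w
  · rw [z1, z2, hl, ← hφ, g3]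
    abel

end TorD
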