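import Pool.Agent.H51.TD.AR1

/-! # AR5: only finitely many cycles stay on finitely many pieces

PROOF. gam_shift: `pi^[m] (gam j t + lat w) = gam (j - m) t + lat w` (induction on `m`, gam_pred, pi_lat). If `ph^[m] z = x` then `z = pi^[m] x`.
ar_meet: `F = F₀.image (gam a)`, `F₀` from `gam_fin`, reduction of `t` to `[0,1]` by gam_per.
ar_small: `|j| ≤ J` for all edges `(j,k) ∈ S`; use the times `0` and `2J+1`: either a point piece, or `z = gam j₀ t + lat w = gam (j₁ - (2J+1)) t' + lat w'` with `j₁ - (2J+1) < -J ≤ j₀`, ar_meet. -/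

set_option autoImplicit false

open Topology Filter Set Function

namespace TorD

theorem gam_shift (j : ℤ) (m : ℕ) (t : ℝ) (w : ℤ × ℤ) :
    pi^[m] (gam j t + lat w) = gam (j - m) t + lat w := by
  induction m with
  | zero => simp
  | succ n ih =>
    rw [Function.iterate_succ_apply', ih, pi_lat, ← gam_pred]
    congr 2
    push_cast
    ring

theorem AR5_lat (m : ℕ) (x : ℂ) (w : ℤ × ℤ) : pi^[m] (x + lat w) = pi^[m] x + lat w := by
  induction m with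
  | zero => simp
  | succ n ih =>
    rw [Function.iterate_succ_apply', ih, pi_lat, Function.iterate_succ_apply']

theorem AR5_inv (m : ℕ) (z : ℂ) : pi^[m] (ph^[m] z) = z :=
  (Function.LeftInverse.iterate (f := ph) (g := pi) pi_ph m) z

theorem ar_meet {a b : ℤ} (hab : a ≠ b) : ∃ F : Finset ℂ, ∀ (t t' : ℝ) (w w' : ℤ × ℤ),
    gam a t + lat w = gam b t' + lat w' → ∃ x ∈ F, ∃ v, gam a t + lat w = x + lat v := by
  classical
  obtain ⟨F₀, h⟩ := gam_fin hab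
  refine ⟨F₀.image (gam a), fun t t' w w' he => ?_⟩
  have h1 : gam a t = gam a (Int.fract t) + lat (0, ⌊t⌋) := by
    rw [← gam_per, Int.fract_add_floor]
  refine ⟨gam a (Int.fract t), Finset.mem_image_of_mem _ ?_, (0, ⌊t⌋) + w, ?_⟩
  · refine h (Int.fract t) ⟨Int.fract_nonneg t, (Int.fract_lt_one t).le⟩ t' (w' - w - (0, ⌊t⌋)) ?_
    rw [h1] at he
    rw [lat_sub, lat_sub]
    linear_combination he
  · rw [h1, lat_add]
    ring

/-- absolute value of the curve index -/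
def AR5_j : AI → ℕ
  | Sum.inl _ => 0
  | Sum.inr e => e.1.natAbs

theorem ar_small (S : Finset AI) : ∃ F : Finset ℂ, ∀ z,
    (∀ n : ℕ, ∃ i ∈ S, AF.On i (ph^[n] z)) → ∃ x ∈ F, ∃ w, z = x + lat w := by
  classical
  obtain ⟨J, hJ⟩ : ∃ J : ℕ, J = S.sup AR5_j := ⟨_, rfl⟩
  obtain ⟨M, hM⟩ : ∃ M : ℕ, M = 2 * J + 1 := ⟨_, rfl⟩
  have hle : ∀ i ∈ S, AR5_j i ≤ J := fun i hi => by
    rw [hJ]
    exact Finset.le_sup (f := AR5_j) hi
  let G : ℤ × ℤ → Finset ℂ := fun p => if h : p.1 ≠ p.2 then Classical.choose (ar_meet h) else ∅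
  let R : Finset (ℤ × ℤ) := Finset.Icc (-(J : ℤ) - M) J ×ˢ Finset.Icc (-(J : ℤ) - M) J
  refine ⟨(S.image AQ ∪ S.image fun i => pi^[M] (AQ i)) ∪ R.biUnion G, fun z hz => ?_⟩
  obtain ⟨i0, hi0, h0⟩ := hz 0
  obtain ⟨i1, hi1, h1⟩ := hz M
  rw [Function.iterate_zero, id] at h0
  rcases i0 with r0 | ⟨j0, k0⟩
  · obtain ⟨w, hw⟩ := (on_pt r0 z).1 h0
    refine ⟨AQ (Sum.inl r0), ?_, w, hw⟩
    exact Finset.mem_union_left _ (Finset.mem_union_left _ (Finset.mem_image_of_mem _ hi0))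
  rcases i1 with r1 | ⟨j1, k1⟩
  · obtain ⟨w, hw⟩ := (on_pt r1 _).1 h1
    refine ⟨pi^[M] (AQ (Sum.inl r1)), ?_, w, ?_⟩
    · exact Finset.mem_union_left _ (Finset.mem_union_right _
        (Finset.mem_image_of_mem (fun i => pi^[M] (AQ i)) hi1))
    · rw [← AR5_lat, ← AR5_inv M z, hw]
      rfl
  obtain ⟨w, t, -, hw⟩ := (on_edge j0 k0 z).1 h0
  obtain ⟨w', t', -, hw'⟩ := (on_edge j1 k1 _).1 h1
  have hz2 : z = gam (j1 - M) t' + lat w' := by
    rw [← gam_shift, ← hw', AR5_inv]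
  have b0 : (j0.natAbs : ℕ) ≤ J := hle _ hi0
  have b1 : (j1.natAbs : ℕ) ≤ J := hle _ hi1
  have hne : j0 ≠ j1 - M := by omega
  have hsp := Classical.choose_spec (ar_meet hne) t t' w w' (by rw [← hw, hz2])
  obtain ⟨x, hx, v, hv⟩ := hsp
  refine ⟨x, ?_, v, by rw [hw, hv]⟩
  apply Finset.mem_union_right
  rw [Finset.mem_biUnion]
  refine ⟨(j0, j1 - M), ?_, ?_⟩
  · rw [Finset.mem_product, Finset.mem_Icc, Finset.mem_Icc]
    refine ⟨⟨?_, ?_⟩, ⟨?_, ?_⟩⟩
    · show -(J : ℤ) - M ≤ j0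
      omega
    · show j0 ≤ (J : ℤ)
      omega
    · show -(J : ℤ) - M ≤ j1 - M
      omega
    · show j1 - M ≤ (J : ℤ)
      omega
  · show x ∈ (if h : j0 ≠ j1 - M then Classical.choose (ar_meet h) else ∅)
    rw [dif_pos hne]
    exact hx

end TorD
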