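import Pool.Agent.H51.TD.BAS

/-! # LCL: the base map is locally positively homogeneous

PROOF. One sided derivatives of `aa`: for every `y` there are `κ₊, κ₋ ∈ {8, -8}` with `aa (y + s) = aa y + κ(s)`, `κ(s) = κ₊ s` for `s ≥ 0`, `κ₋ s` for `s ≤ 0`, for small `|s|` (aa_even, aa_odd: `y` in the
interior of a half interval, or `y = n` (κ₊ = 8, κ₋ = -8), or `y = n + 1/2` (κ₊ = -8, κ₋ = 8)). So for `Hh`: `L u = (u.re + κ(u.im), u.im)`: continuous, injective, positively homogeneous,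
`Hh (z + u) = Hh z + L u` for small `u`, and `dt (L t) (L u) = dt t u + κ(t.im) u.im - κ(u.im) t.im`, which is `dt t u` when `t.im`, `u.im` have the same sign (weakly) : for `u` near `t` with
`t.im ≠ 0`; and when `t.im = 0`: `κ(0) = 0` and the last term vanishes. The same for `Vv`, `Hi`, `Vi` (`-κ`). Composition: `L' ∘ L` for `Vv` at `Hh z` (det: `L u → L t` as `u → t`,
`L t ≠ 0`). One lemma for all: `shear` with a function `κ` and `Loc.comp`. -/

set_option autoImplicit false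

open Topology Filter Set Function

namespace TorD

theorem LCL_zero {f : ℂ → ℂ} {z : ℂ} {L : ℂ → ℂ} (h : Loc f z L) : L 0 = 0 := by
  have h1 := h.hom 2 (by norm_num) 0
  rw [smul_zero] at h1
  have h2 : (1 : ℝ) • L 0 = 0 := by
    have h3 : (2 : ℝ) • L 0 = (1 : ℝ) • L 0 + (1 : ℝ) • L 0 := by
      rw [← add_smul]; norm_num
    rw [h3, one_smul] at h1
    rw [one_smul]
    exact (add_eq_left.1 h1.symm)
  rwa [one_smul] at h2

theorem Loc.comp {f g : ℂ → ℂ} {z : ℂ} {L L' : ℂ → ℂ} (h : Loc f z L) (h' : Loc g (f z) L') :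
    Loc (fun x => g (f x)) z fun u => L' (L u) := by
  have hL0 := LCL_zero h
  refine ⟨h'.cont.comp h.cont, fun a b hab => h.inj (h'.inj hab), ?_, ?_, ?_⟩
  · intro r hr u
    rw [h.hom r hr, h'.hom r hr]
  · have h1 : Tendsto L (𝓝 0) (𝓝 0) := by
      have := h.cont.tendsto 0
      rwa [hL0] at this
    filter_upwards [h.eq, h1.eventually h'.eq] with u hu1 hu2
    change g (f (z + u)) = g (f z) + L' (L u)
    rw [hu1, hu2]
  · intro t ht
    have hLt : L t ≠ 0 := by
      intro h0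
      apply ht
      apply h.inj
      rw [h0, hL0]
    filter_upwards [h.det t ht, (h.cont.tendsto t).eventually (h'.det (L t) hLt)] with u hu1 hu2
    change dt (L' (L t)) (L' (L u)) = dt t u
    rw [hu2, hu1]

/-- one-sided linear functions -/
structure LCL_K (κ : ℝ → ℝ) : Prop where
  cont : Continuous κ
  hom : ∀ r : ℝ, 0 < r → ∀ s, κ (r * s) = r * κ s
  zero : κ 0 = 0
  det : ∀ s, s ≠ 0 → ∀ᶠ s' in 𝓝 s, κ s * s' = κ s' * s

theorem LCL_K_mk (α β : ℝ) : LCL_K (fun s => α * s + β * |s|) := by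
  refine ⟨by fun_prop, ?_, by simp, ?_⟩
  · intro r hr s
    rw [abs_mul, abs_of_pos hr]
    ring
  · intro s hs
    rcases lt_or_gt_of_ne hs with h | h
    · filter_upwards [Iio_mem_nhds h] with s' hs'
      rw [abs_of_neg h, abs_of_neg hs']
      ring
    · filter_upwards [Ioi_mem_nhds h] with s' hs'
      rw [abs_of_pos h, abs_of_pos hs']
      ring

theorem LCL_K.det' {κ : ℝ → ℝ} (h : LCL_K κ) (s : ℝ) : ∀ᶠ s' in 𝓝 s, κ s * s' = κ s' * s := by
  by_cases hs : s = 0
  · subst hs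
    filter_upwards with s'
    rw [h.zero, zero_mul, mul_zero]
  · exact h.det s hs

theorem LCL_H {κ : ℝ → ℝ} (hκ : LCL_K κ) (a : ℝ → ℝ) (z : ℂ)
    (hz : ∀ᶠ s in 𝓝 (0 : ℝ), a (z.im + s) = a z.im + κ s) :
    Loc (fun z => (⟨z.re + a z.im, z.im⟩ : ℂ)) z (fun u => (⟨u.re + κ u.im, u.im⟩ : ℂ)) := by
  refine ⟨?_, ?_, ?_, ?_, ?_⟩
  · have h1 : (fun u : ℂ => (⟨u.re + κ u.im, u.im⟩ : ℂ)) =
        fun u : ℂ => (((u.re + κ u.im : ℝ) : ℂ) + ((u.im : ℝ) : ℂ) * Complex.I) := by
      funext u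
      apply Complex.ext <;> simp
    rw [h1]
    have hκc := hκ.cont
    fun_prop
  · intro u v huv
    have h1 := congrArg Complex.im huv
    have h2 := congrArg Complex.re huv
    dsimp only at h1 h2
    rw [h1] at h2
    exact Complex.ext (by linarith) h1
  · intro r hr u
    apply Complex.ext
    · simp only [Complex.smul_re, Complex.smul_im, smul_eq_mul]
      rw [hκ.hom r hr]
      ring
    · simp only [Complex.smul_im, smul_eq_mul]
  · have h1 : Tendsto (fun u : ℂ => u.im) (𝓝 0) (𝓝 0) := by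
      have := Complex.continuous_im.tendsto 0
      rwa [Complex.zero_im] at this
    filter_upwards [h1.eventually hz] with u hu
    apply Complex.ext
    · simp only [Complex.add_re, Complex.add_im]
      rw [hu]
      ring
    · simp only [Complex.add_im]
  · intro t _
    filter_upwards [(Complex.continuous_im.tendsto t).eventually (hκ.det' t.im)] with u hu
    unfold dt
    dsimp only
    linear_combination hu

theorem LCL_V {κ : ℝ → ℝ} (hκ : LCL_K κ) (a : ℝ → ℝ) (z : ℂ)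
    (hz : ∀ᶠ s in 𝓝 (0 : ℝ), a (z.re + s) = a z.re + κ s) :
    Loc (fun z => (⟨z.re, z.im + a z.re⟩ : ℂ)) z (fun u => (⟨u.re, u.im + κ u.re⟩ : ℂ)) := by
  refine ⟨?_, ?_, ?_, ?_, ?_⟩
  · have h1 : (fun u : ℂ => (⟨u.re, u.im + κ u.re⟩ : ℂ)) =
        fun u : ℂ => (((u.re : ℝ) : ℂ) + ((u.im + κ u.re : ℝ) : ℂ) * Complex.I) := by
      funext u
      apply Complex.ext <;> simp
    rw [h1]
    have hκc := hκ.cont
    fun_prop
  · intro u v huv
    have h1 := congrArg Complex.im huv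
    have h2 := congrArg Complex.re huv
    dsimp only at h1 h2
    rw [h2] at h1
    exact Complex.ext h2 (by linarith)
  · intro r hr u
    apply Complex.ext
    · simp only [Complex.smul_re, smul_eq_mul]
    · simp only [Complex.smul_re, Complex.smul_im, smul_eq_mul]
      rw [hκ.hom r hr]
      ring
  · have h1 : Tendsto (fun u : ℂ => u.re) (𝓝 0) (𝓝 0) := by
      have := Complex.continuous_re.tendsto 0
      rwa [Complex.zero_re] at this
    filter_upwards [h1.eventually hz] with u hu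
    apply Complex.ext
    · simp only [Complex.add_re]
    · simp only [Complex.add_re, Complex.add_im]
      rw [hu]
      ring
  · intro t _
    filter_upwards [(Complex.continuous_re.tendsto t).eventually (hκ.det' t.re)] with u hu
    unfold dt
    dsimp only
    linear_combination -hu

theorem LCL_aa (y : ℝ) : ∃ α β : ℝ, ∀ᶠ s in 𝓝 (0 : ℝ), aa (y + s) = aa y + (α * s + β * |s|) := by
  obtain ⟨n, hn⟩ : ∃ n : ℤ, n = ⌊y⌋ := ⟨_, rfl⟩
  have h1 : (n : ℝ) ≤ y := by rw [hn]; exact Int.floor_le y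
  have h2 : y < (n : ℝ) + 1 := by rw [hn]; exact Int.lt_floor_add_one y
  have hsmall : ∀ δ : ℝ, 0 < δ → ∀ᶠ s in 𝓝 (0 : ℝ), -δ < s ∧ s < δ := by
    intro δ hδ
    exact Ioo_mem_nhds (by linarith) hδ
  rcases eq_or_lt_of_le h1 with h3 | h3
  · refine ⟨0, 8, ?_⟩
    filter_upwards [hsmall (1 / 2) (by norm_num)] with s hs
    rw [← h3]
    have e0 : aa (n : ℝ) = 0 := by
      rw [aa_even n ⟨le_refl _, by linarith⟩]
      ring
    rw [e0]
    rcases le_total 0 s with h4 | h4
    · rw [aa_even n ⟨by linarith, by linarith [hs.2]⟩, abs_of_nonneg h4]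
      ring
    · have h5 : ((n - 1 : ℤ) : ℝ) = (n : ℝ) - 1 := by push_cast; ring
      rw [aa_odd (n - 1) ⟨by rw [h5]; linarith [hs.1], by rw [h5]; linarith⟩, h5,
        abs_of_nonpos h4]
      ring
  · rcases lt_trichotomy y ((n : ℝ) + 1 / 2) with h4 | h4 | h4
    · refine ⟨8, 0, ?_⟩
      filter_upwards [hsmall (min (y - n) (n + 1 / 2 - y)) (lt_min (by linarith) (by linarith))]
        with s hs
      have h5 := min_le_left (y - n) (n + 1 / 2 - y)
      have h6 := min_le_right (y - n) (n + 1 / 2 - y)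
      rw [aa_even n ⟨by linarith [hs.1], by linarith [hs.2]⟩, aa_even n ⟨h1, h4.le⟩]
      ring
    · refine ⟨0, -8, ?_⟩
      filter_upwards [hsmall (1 / 2) (by norm_num)] with s hs
      rw [h4]
      have e0 : aa ((n : ℝ) + 1 / 2) = 4 := by
        rw [aa_even n ⟨by linarith, le_refl _⟩]
        ring
      rw [e0]
      rcases le_total 0 s with h5 | h5
      · rw [aa_odd n ⟨by linarith, by linarith [hs.2]⟩, abs_of_nonneg h5]
        ring
      · rw [aa_even n ⟨by linarith [hs.1], by linarith⟩, abs_of_nonpos h5]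
        ring
    · refine ⟨-8, 0, ?_⟩
      filter_upwards [hsmall (min (y - (n + 1 / 2)) (n + 1 - y)) (lt_min (by linarith)
        (by linarith))] with s hs
      have h5 := min_le_left (y - ((n : ℝ) + 1 / 2)) (n + 1 - y)
      have h6 := min_le_right (y - ((n : ℝ) + 1 / 2)) (n + 1 - y)
      rw [aa_odd n ⟨by linarith [hs.1], by linarith [hs.2]⟩, aa_odd n ⟨h4.le, h2.le⟩]
      ring

theorem LCL_naa (y : ℝ) : ∃ α β : ℝ, ∀ᶠ s in 𝓝 (0 : ℝ),
    -aa (y + s) = -aa y + (α * s + β * |s|) := by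
  obtain ⟨α, β, h⟩ := LCL_aa y
  refine ⟨-α, -β, ?_⟩
  filter_upwards [h] with s hs
  rw [hs]
  ring

theorem ph_loc (z : ℂ) : ∃ L, Loc ph z L := by
  obtain ⟨α, β, h1⟩ := LCL_aa z.im
  obtain ⟨α', β', h2⟩ := LCL_aa (Hh z).re
  have e1 := LCL_H (LCL_K_mk α β) aa z h1
  have e2 := LCL_V (LCL_K_mk α' β') aa (Hh z) h2
  exact ⟨_, e1.comp e2⟩

theorem pi_loc (z : ℂ) : ∃ L, Loc pi z L := by
  obtain ⟨α, β, h1⟩ := LCL_naa z.re
  obtain ⟨α', β', h2⟩ := LCL_naa (Vi z).im
  have e1 := LCL_V (LCL_K_mk α β) (fun y => -aa y) z h1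
  have e2 := LCL_H (LCL_K_mk α' β') (fun y => -aa y) (Vi z) h2
  have e3 : (fun z : ℂ => (⟨z.re, z.im + -aa z.re⟩ : ℂ)) = Vi := by
    funext x
    unfold Vi
    rw [← sub_eq_add_neg]
  have e4 : (fun z : ℂ => (⟨z.re + -aa z.im, z.im⟩ : ℂ)) = Hi := by
    funext x
    unfold Hi
    rw [← sub_eq_add_neg]
  rw [e3] at e1
  rw [e4] at e2
  exact ⟨_, e1.comp e2⟩

end TorD
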