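import Pool.Agent.H51.TD.AR2
import Pool.Agent.H51.TD.AR3
import Pool.Agent.H51.TD.AR4
import Pool.Agent.H51.TD.AR5
import Pool.Agent.H51.TD.LCL

/-! # AR6: the complete system over the base map -/

set_option autoImplicit false

open Topology Filter Set Function

namespace TorD

noncomputable section

/-- the arrangement -/
def AA : Arr AI where
  toFam := AF
  pts := ar_pts
  rat := ar_rat
  one := ar_one
  fin2 := ar_fin2

theorem AR6_inj : Injective ph := fun x y h => by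
  rw [← pi_ph x, ← pi_ph y, h]

theorem AR6_inj' : Injective pi := fun x y h => by
  rw [← ph_pi x, ← ph_pi y, h]

theorem dyn_ph : IsDyn AA ph where
  cont := ph_cont
  inj := AR6_inj
  eqv := ph_lat
  rat := ph_rat
  loc := ph_loc
  edg := fun y i s hs hu h => ar_edg (δ := 1) gam_succ ph_lat y i s hs hu h
  edf := fun i hu => ar_edf (δ := 1) gam_succ ph_lat i hu

theorem dyn_pi : IsDyn AA pi where
  cont := pi_cont
  inj := AR6_inj'
  eqv := pi_lat
  rat := pi_rat
  loc := pi_loc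
  edg := fun y i s hs hu h => ar_edg (δ := -1) (fun j t => gam_pred j t) pi_lat y i s hs hu h
  edf := fun i hu => ar_edf (δ := -1) (fun j t => gam_pred j t) pi_lat i hu

theorem ar_line (t : ℝ) : ∃ i, AF.u i ≠ 0 ∧ (AF.u i).re = 0 ∧ AF.On i (t * Complex.I) := by
  obtain ⟨k, hk⟩ := exists_right 0 t
  refine ⟨AE 0 k, ?_, ?_, ?_⟩
  · rw [AF_u_AE]
    exact gu_ne 0 k
  · rw [AF_u_AE]
    unfold gu
    rw [gam_zero, gam_zero]
    simp
  · have h := on_AE 0 k ⟨hk.1, hk.2.le⟩ 0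
    rwa [gam_zero, lat_zero, add_zero] at h

theorem ar_lrat (n : ℕ) (hn : 1 ≤ n) (t : ℝ) (k : ℤ) (h : (ph^[n] (t * Complex.I)).re = k) :
    (t * Complex.I : ℂ) ∈ Rat2 := by
  obtain ⟨N, M, hN, hP⟩ := crv_fwd hn
  obtain ⟨r, hr⟩ := crv_rat hP hN (fun a c hac => hac.1) h
  rw [← gam_zero, gam_rat]
  exact ⟨r, hr⟩

/-- the system -/
def SS : Sys AI where
  toArr := AA
  φ := ph
  ψ := pi
  φψ := ph_pi
  ψφ := pi_ph
  dφ := dyn_ph
  dψ := dyn_pi
  per := fun _ hz => ph_per hz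
  small := by
    intro S
    obtain ⟨F, hF⟩ := ar_small S
    exact ⟨F, fun z _ h => hF z h⟩
  line := ar_line
  lrat := ar_lrat

theorem sys_ph : ∃ (ι : Type) (_ : Countable ι) (S : Sys ι), S.φ = ph ∧ S.ψ = pi :=
  ⟨AI, inferInstance, SS, rfl, rfl⟩

end

end TorD
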