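import Pool.Agent.H51.TD.RDA

/-! # BAS: the base map

PROOF. `aa y = 8 |y - round y|` is 8 times the distance to the nearest integer: `round (y + n) = round y + n`; `round_le`: `|y - round y| ≤ |y - n|`, so `aa` is 8-Lipschitz
(`aa x ≤ 8 |x - round y| ≤ 8 |x - y| + aa y`) and even. On `[m/2, (m+1)/2]`: for `m = 2n`, `aa y = 8 (y - n)`; for `m = 2n+1`, `aa y = 8 (n + 1 - y)` (both by
`|y - round y| = min |y - n| |y - n - 1|` or directly). Inverses and equivariance are computations with `Complex.ext`. `Ss`: `Ss (Ss z) = z`,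
`pi z = Ss (ph (Ss z))` because `aa` is even. Lipschitz: `‖Hh x - Hh y‖ ≤ 9 ‖x - y‖` etc. -/

set_option autoImplicit false

open Topology Filter Set Function

namespace TorD

private theorem BAS_le (y : ℝ) (n : ℤ) : aa y ≤ 8 * |y - n| := by
  unfold aa
  have := round_le y n
  linarith

private theorem BAS_cont {f : ℂ → ℂ} {C : ℝ} (hC : 0 ≤ C) (h : ∀ x y, ‖f x - f y‖ ≤ C * ‖x - y‖) :
    Continuous f := by
  refine (LipschitzWith.of_dist_le_mul (K := ⟨C, hC⟩) (fun x y => ?_)).continuous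
  rw [dist_eq_norm, dist_eq_norm]
  exact h x y

private theorem BAS_H (x : ℂ) : Hh x = x + ((aa x.im : ℝ) : ℂ) := by
  unfold Hh
  apply Complex.ext <;> simp

private theorem BAS_V (x : ℂ) : Vv x = x + Complex.I * ((aa x.re : ℝ) : ℂ) := by
  unfold Vv
  apply Complex.ext <;> simp

private theorem BAS_Hi (x : ℂ) : Hi x = x - ((aa x.im : ℝ) : ℂ) := by
  unfold Hi
  apply Complex.ext <;> simp

private theorem BAS_Vi (x : ℂ) : Vi x = x - Complex.I * ((aa x.re : ℝ) : ℂ) := by
  unfold Vi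
  apply Complex.ext <;> simp

theorem aa_int (y : ℝ) (n : ℤ) : aa (y + n) = aa y := by
  unfold aa
  rw [round_add_intCast]
  push_cast
  congr 2
  ring

theorem aa_zero : aa 0 = 0 := by
  simp [aa]

theorem aa_neg (y : ℝ) : aa (-y) = aa y := by
  apply le_antisymm
  · have h := BAS_le (-y) (-(round y))
    have e : |-y - ((-(round y) : ℤ) : ℝ)| = |y - round y| := by
      push_cast
      rw [← abs_neg]
      congr 1
      ring
    rw [e] at h
    exact h
  · have h := BAS_le y (-(round (-y)))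
    have e : |y - ((-(round (-y)) : ℤ) : ℝ)| = |-y - round (-y)| := by
      push_cast
      rw [← abs_neg]
      congr 1
      ring
    rw [e] at h
    exact h

theorem aa_lip (x y : ℝ) : |aa x - aa y| ≤ 8 * |x - y| := by
  have key : ∀ x y : ℝ, aa x ≤ 8 * |x - y| + aa y := by
    intro x y
    have h1 := BAS_le x (round y)
    have h2 : |x - round y| ≤ |x - y| + |y - round y| := abs_sub_le _ _ _
    have h3 : aa y = 8 * |y - round y| := rfl
    linarith
  rw [abs_le]
  have h1 := key x y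
  have h2 := key y x
  rw [abs_sub_comm y x] at h2
  constructor <;> linarith

theorem aa_mem (y : ℝ) : 0 ≤ aa y ∧ aa y ≤ 4 := by
  unfold aa
  have h1 := abs_sub_round y
  have h2 := abs_nonneg (y - round y)
  constructor <;> linarith

theorem aa_even (n : ℤ) {y : ℝ} (h : y ∈ Icc (n : ℝ) (n + 1 / 2)) : aa y = 8 * (y - n) := by
  obtain ⟨h1, h2⟩ := h
  apply le_antisymm
  · have h3 := BAS_le y n
    rwa [abs_of_nonneg (by linarith)] at h3
  · have h3 : y - n ≤ |y - round y| := by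
      rcases le_or_gt (round y) n with h4 | h4
      · have h5 : ((round y : ℤ) : ℝ) ≤ n := by exact_mod_cast h4
        have h6 := le_abs_self (y - round y)
        linarith
      · have h5 : (n : ℝ) + 1 ≤ ((round y : ℤ) : ℝ) := by exact_mod_cast h4
        have h6 := neg_le_abs (y - round y)
        linarith
    unfold aa
    linarith

theorem aa_odd (n : ℤ) {y : ℝ} (h : y ∈ Icc ((n : ℝ) + 1 / 2) (n + 1)) :
    aa y = 8 * (n + 1 - y) := by
  obtain ⟨h1, h2⟩ := h
  have h3 := aa_even (-(n + 1)) (y := -y) ⟨by push_cast; linarith, by push_cast; linarith⟩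
  rw [aa_neg] at h3
  rw [h3]
  push_cast
  ring

theorem aa_piece (m : ℤ) : ∃ σ d : ℤ, (σ = 8 ∨ σ = -8) ∧
    ∀ y ∈ Icc ((m : ℝ) / 2) (((m : ℝ) + 1) / 2), aa y = σ * y + d := by
  rcases Int.even_or_odd' m with ⟨n, hn | hn⟩
  · refine ⟨8, -8 * n, Or.inl rfl, ?_⟩
    intro y hy
    have hm : (m : ℝ) = 2 * n := by exact_mod_cast hn
    rw [hm] at hy
    rw [aa_even n (y := y) ⟨by linarith [hy.1], by linarith [hy.2]⟩]
    push_cast
    ring
  · refine ⟨-8, 8 * (n + 1), Or.inr rfl, ?_⟩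
    intro y hy
    have hm : (m : ℝ) = 2 * n + 1 := by exact_mod_cast hn
    rw [hm] at hy
    rw [aa_odd n (y := y) ⟨by linarith [hy.1], by linarith [hy.2]⟩]
    push_cast
    ring

theorem ph_pi (z : ℂ) : ph (pi z) = z := by
  unfold ph pi
  have h1 : ∀ w : ℂ, Hh (Hi w) = w := by
    intro w
    unfold Hh Hi
    apply Complex.ext <;> simp
  have h2 : ∀ w : ℂ, Vv (Vi w) = w := by
    intro w
    unfold Vv Vi
    apply Complex.ext <;> simp
  rw [h1, h2]

theorem pi_ph (z : ℂ) : pi (ph z) = z := by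
  unfold ph pi
  have h1 : ∀ w : ℂ, Hi (Hh w) = w := by
    intro w
    unfold Hh Hi
    apply Complex.ext <;> simp
  have h2 : ∀ w : ℂ, Vi (Vv w) = w := by
    intro w
    unfold Vv Vi
    apply Complex.ext <;> simp
  rw [h2, h1]

theorem ph_lat (z : ℂ) (w : ℤ × ℤ) : ph (z + lat w) = ph z + lat w := by
  unfold ph
  have h1 : ∀ x : ℂ, Hh (x + lat w) = Hh x + lat w := by
    intro x
    have e : (x + lat w).im = x.im + (w.2 : ℝ) := rfl
    rw [BAS_H, BAS_H, e, aa_int]
    ring
  have h2 : ∀ x : ℂ, Vv (x + lat w) = Vv x + lat w := by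
    intro x
    have e : (x + lat w).re = x.re + (w.1 : ℝ) := rfl
    rw [BAS_V, BAS_V, e, aa_int]
    ring
  rw [h1, h2]

theorem pi_lat (z : ℂ) (w : ℤ × ℤ) : pi (z + lat w) = pi z + lat w := by
  unfold pi
  have h1 : ∀ x : ℂ, Hi (x + lat w) = Hi x + lat w := by
    intro x
    have e : (x + lat w).im = x.im + (w.2 : ℝ) := rfl
    rw [BAS_Hi, BAS_Hi, e, aa_int]
    ring
  have h2 : ∀ x : ℂ, Vi (x + lat w) = Vi x + lat w := by
    intro x
    have e : (x + lat w).re = x.re + (w.1 : ℝ) := rfl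
    rw [BAS_Vi, BAS_Vi, e, aa_int]
    ring
  rw [h2, h1]

theorem ph_lip (x y : ℂ) : ‖ph x - ph y‖ ≤ 100 * ‖x - y‖ := by
  have h1 : ∀ x y : ℂ, ‖Hh x - Hh y‖ ≤ 9 * ‖x - y‖ := by
    intro x y
    have e : Hh x - Hh y = (x - y) + ((aa x.im - aa y.im : ℝ) : ℂ) := by
      rw [BAS_H, BAS_H]
      push_cast
      ring
    rw [e]
    refine (norm_add_le _ _).trans ?_
    rw [Complex.norm_real, Real.norm_eq_abs]
    have h2 := aa_lip x.im y.im
    have h3 : |x.im - y.im| ≤ ‖x - y‖ := by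
      have := Complex.abs_im_le_norm (x - y)
      rwa [Complex.sub_im] at this
    linarith
  have h2 : ∀ x y : ℂ, ‖Vv x - Vv y‖ ≤ 9 * ‖x - y‖ := by
    intro x y
    have e : Vv x - Vv y = (x - y) + Complex.I * ((aa x.re - aa y.re : ℝ) : ℂ) := by
      rw [BAS_V, BAS_V]
      push_cast
      ring
    rw [e]
    refine (norm_add_le _ _).trans ?_
    rw [norm_mul, Complex.norm_I, one_mul, Complex.norm_real, Real.norm_eq_abs]
    have h2 := aa_lip x.re y.re
    have h3 : |x.re - y.re| ≤ ‖x - y‖ := by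
      have := Complex.abs_re_le_norm (x - y)
      rwa [Complex.sub_re] at this
    linarith
  have h3 := h2 (Hh x) (Hh y)
  have h4 := h1 x y
  have h5 : ‖Vv (Hh x) - Vv (Hh y)‖ ≤ 100 * ‖x - y‖ := by
    have := norm_nonneg (x - y)
    linarith
  exact h5

theorem ph_cont : Continuous ph := by
  exact BAS_cont (by norm_num) ph_lip

theorem pi_cont : Continuous pi := by
  have h1 : ∀ x y : ℂ, ‖Hi x - Hi y‖ ≤ 9 * ‖x - y‖ := by
    intro x y
    have e : Hi x - Hi y = (x - y) - ((aa x.im - aa y.im : ℝ) : ℂ) := by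
      rw [BAS_Hi, BAS_Hi]
      push_cast
      ring
    rw [e]
    refine (norm_sub_le _ _).trans ?_
    rw [Complex.norm_real, Real.norm_eq_abs]
    have h2 := aa_lip x.im y.im
    have h3 : |x.im - y.im| ≤ ‖x - y‖ := by
      have := Complex.abs_im_le_norm (x - y)
      rwa [Complex.sub_im] at this
    linarith
  have h2 : ∀ x y : ℂ, ‖Vi x - Vi y‖ ≤ 9 * ‖x - y‖ := by
    intro x y
    have e : Vi x - Vi y = (x - y) - Complex.I * ((aa x.re - aa y.re : ℝ) : ℂ) := by
      rw [BAS_Vi, BAS_Vi]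
      push_cast
      ring
    rw [e]
    refine (norm_sub_le _ _).trans ?_
    rw [norm_mul, Complex.norm_I, one_mul, Complex.norm_real, Real.norm_eq_abs]
    have h2 := aa_lip x.re y.re
    have h3 : |x.re - y.re| ≤ ‖x - y‖ := by
      have := Complex.abs_re_le_norm (x - y)
      rwa [Complex.sub_re] at this
    linarith
  have e : pi = Hi ∘ Vi := rfl
  rw [e]
  exact (BAS_cont (by norm_num) h1).comp (BAS_cont (by norm_num) h2)

theorem Ss_Ss (z : ℂ) : Ss (Ss z) = z := by
  unfold Ss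
  apply Complex.ext <;> simp

theorem pi_eq (z : ℂ) : pi z = Ss (ph (Ss z)) := by
  have e1 : aa (-z.im + aa z.re) = aa (z.im - aa z.re) := by
    rw [← aa_neg (z.im - aa z.re)]
    congr 1
    ring
  unfold pi ph Ss Hi Vi Vv Hh
  apply Complex.ext
  · simp only [neg_add_rev, neg_neg, aa_neg]
    rw [e1]
    ring
  · simp only [aa_neg]
    ring

theorem ph_near (z : ℂ) : ‖ph z - z‖ ≤ 8 := by
  have h1 : ‖Hh z - z‖ ≤ 4 := by
    rw [BAS_H, add_sub_cancel_left, Complex.norm_real, Real.norm_eq_abs,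
      abs_of_nonneg (aa_mem _).1]
    exact (aa_mem _).2
  have h2 : ‖Vv (Hh z) - Hh z‖ ≤ 4 := by
    rw [BAS_V, add_sub_cancel_left, norm_mul, Complex.norm_I, one_mul, Complex.norm_real,
      Real.norm_eq_abs, abs_of_nonneg (aa_mem _).1]
    exact (aa_mem _).2
  have h3 : ph z - z = (Vv (Hh z) - Hh z) + (Hh z - z) := by
    unfold ph
    ring
  rw [h3]
  refine (norm_add_le _ _).trans ?_
  linarith

end TorD
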