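import Pool.Agent.H51.TD.Int

/-!
# Internal definitions, part 2 (MP_19db4f_an): fibres, directions, boundary maps, cones
-/

set_option autoImplicit false

open Topology Filter Set Function

namespace TorD

noncomputable section

/-- fibre of the blow-down map -/
def Fam.K {ι : Type} (A : Fam ι) (y : ℂ) : Set ℂ := {p | A.h p = y}

/-- the points which are not in the interior of their fibre -/
def Fam.M {ι : Type} (A : Fam ι) : Set ℂ := {p | p ∉ interior (A.K (A.h p))}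

/-- `φ` and its inverse `ψ` respect the arrangement -/
structure Dyn2 {ι : Type} (A : Arr ι) (φ ψ : ℂ → ℂ) : Prop where
  φψ : ∀ x, φ (ψ x) = x
  ψφ : ∀ x, ψ (φ x) = x
  dφ : IsDyn A φ
  dψ : IsDyn A ψ

/-- `φ` maps the ray from `z` of direction `θ` to the ray from `φ z` of direction `θ'` -/
def Dr (φ : ℂ → ℂ) (z θ θ' : ℂ) : Prop :=
  ‖θ‖ = 1 ∧ ‖θ'‖ = 1 ∧ ∃ r : ℝ, 0 < r ∧ ∀ᶠ ε in 𝓝[>] (0 : ℝ), φ (z + ε • θ) = φ z + (ε * r) • θ'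

/-- `ys → z` in the direction `θ` -/
def DT (ys : ℕ → ℂ) (z θ : ℂ) : Prop :=
  Tendsto ys atTop (𝓝 z) ∧ (∀ n, ys n ≠ z) ∧
    Tendsto (fun n => (‖ys n - z‖⁻¹ : ℝ) • (ys n - z)) atTop (𝓝 θ)

/-- `z` is inside the edge `k`, `φ z` is inside the edge `j`, `φ` maps germ to germ, direction
preserved -/
def TS {ι : Type} (A : Fam ι) (φ : ℂ → ℂ) (z : ℂ) (k j : ι) : Prop :=
  A.u k ≠ 0 ∧ A.u j ≠ 0 ∧ ∃ r r' : ℝ, 0 < r ∧ 0 < r' ∧ ∀ᶠ ε in 𝓝[>] (0 : ℝ),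
    A.On k (z + ε • A.u k) ∧ A.On k (z - ε • A.u k) ∧
    A.On j (φ z + ε • A.u j) ∧ A.On j (φ z - ε • A.u j) ∧
    φ (z + ε • A.u k) = φ z + (ε * r) • A.u j ∧ φ (z - ε • A.u k) = φ z - (ε * r') • A.u j

/-- the lift of `φ`, `ψ` to the set `M` -/
structure Bd {ι : Type} (A : Arr ι) (φ ψ fb gb : ℂ → ℂ) : Prop where
  fc : ContinuousOn fb A.M
  gc : ContinuousOn gb A.M
  fM : MapsTo fb A.M A.M
  gM : MapsTo gb A.M A.M
  gf : ∀ p ∈ A.M, gb (fb p) = p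
  fg : ∀ p ∈ A.M, fb (gb p) = p
  hf : ∀ p ∈ A.M, A.h (fb p) = φ (A.h p)
  hg : ∀ p ∈ A.M, A.h (gb p) = ψ (A.h p)
  fl : ∀ p ∈ A.M, ∀ w, fb (p + lat w) = fb p + lat w
  gl : ∀ p ∈ A.M, ∀ w, gb (p + lat w) = gb p + lat w
  fP : ∀ z ∈ Rat2, ∀ (θ θ' : ℂ) (s : ℝ), Dr φ z θ θ' → |s| ≤ 1 →
    fb (A.P z θ s) = A.P (φ z) θ' s

open Classical in
/-- the total map: `fb` on `M`, `F z` on the interior of `K z` -/
def tot {ι : Type} (A : Arr ι) (fb : ℂ → ℂ) (F : ℂ → ℂ → ℂ) (p : ℂ) : ℂ :=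
  if p ∈ A.M then fb p else F (A.h p) p

/-- radial extension of `g : ∂K → ∂K'`, the centre `m` goes to `m'` -/
def cone (K : Set ℂ) (m m' : ℂ) (g : ℂ → ℂ) (p : ℂ) : ℂ :=
  m' + (gauge ((fun x => x - m) '' K) (p - m)) •
    (g (m + (gauge ((fun x => x - m) '' K) (p - m))⁻¹ • (p - m)) - m')

/-- the cone map of the fibre over `z` -/
def Arr.C {ι : Type} (A : Arr ι) (φ fb : ℂ → ℂ) (z p : ℂ) : ℂ :=
  cone (A.K z) (A.m z) (A.m (φ z)) fb p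

/-- level of a point at signed distance `x` from the line of an edge -/
def lv (x s : ℝ) : ℝ := if x = 0 then s else (1 - 8 * |x|) * (x / |x|)

/-- `q` is the value at `p` of the closure of `Pi y s ↦ Pi (φ y) s` -/
def Rl {ι : Type} (A : Arr ι) (φ : ℂ → ℂ) (p q : ℂ) : Prop :=
  ∀ ε : ℝ, 0 < ε → ∃ (y : ℂ) (s : ℝ), y ∉ Rat2 ∧ |s| ≤ 1 ∧ ‖A.Pi y s - p‖ < ε ∧
    ‖A.Pi (φ y) s - q‖ < ε

/-- the fibre maps `F z` are close to `fb` except for finitely many `z` modulo the lattice -/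
def Thin {ι : Type} (A : Arr ι) (fb : ℂ → ℂ) (F : ℂ → ℂ → ℂ) : Prop :=
  ∀ ε : ℝ, 0 < ε → ∃ X : Finset ℂ, ∀ z ∈ Rat2, (¬ ∃ x ∈ X, ∃ w, z = x + lat w) →
    ∀ p ∈ A.K z, ∃ b ∈ A.K z, b ∈ A.M ∧ ‖p - b‖ ≤ ε ∧ ‖F z p - fb b‖ ≤ ε

end

end TorD
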