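import Pool.Agent.H51.TD.AMA
import Pool.Agent.H51.TD.Int2

/-! # DRC: calculus of directions

PROOF. DT.norm: limit of unit vectors. DT.subseq: the unit circle is compact. Dr_exists: let `Loc φ z L` (H.loc); `L 0 = 0` (`L (2 • 0) = 2 • L 0`), `L θ ≠ 0` (injective), for small `ε > 0`
`φ (z + ε θ) = φ z + L (ε θ) = φ z + ε L θ`; put `r = ‖L θ‖`, `θ' = L θ/r`. Dr_unique: `(ε r) θ' = (ε r') θ''` for some `ε > 0`, take norms. Dr_inv: `φ (z + ε θ) = φ z + ε r θ'` gives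
`ψ (φ z + δ θ') = z + (δ/r) θ` for `δ = ε r` (`ψ (φ z) = z`). Dr_comp: substitute. Dr_lat: H.eqv. Dr_seq: write `ys n = z + u n`, `u n → 0`, `u n ≠ 0`; eventually `φ (ys n) = φ z + L (u n)`,
`L (u n) = ‖u n‖ • L (û n)` with `û n → θ`; `L û n → L θ ≠ 0`, so the directions converge to `L θ/‖L θ‖ = θ'` (by uniqueness); `φ (ys n) ≠ φ z` by injectivity.
Dr_det: `dt (L θ) (L û n) = dt θ û n` eventually (Loc.det at `t = θ`); so `dt θ' (φ (ys n) - φ z) = (‖u n‖/‖L θ‖) dt (L θ) (L û n) = (1/‖L θ‖) dt θ (u n)`; take `r = 1/‖L θ‖`.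
Dr_al: `θ = τ e k`, `τ = ±1` (al_dir). `(ε τ) • u k = (ε ‖u k‖) • θ`, so the hypothesis of H.edg holds (s = τ); it gives `j` with `φ (z + (ε τ) u k) = φ z + (ε τ r) u j` and `On j (φ z + (ε τ) u j)`; hence
`Dr φ z θ (τ e j)`, `θ' = τ e j` by Dr_unique, and `al j (φ z) θ'` by rescaling `ε`. Dr_nal: otherwise apply Dr_al to `ψ` (Dr_inv). -/

set_option autoImplicit false

open Topology Filter Set Function

namespace TorD

theorem DRC_zero {f : ℂ → ℂ} {z : ℂ} {L : ℂ → ℂ} (h : Loc f z L) : L 0 = 0 := by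
  have h1 := h.hom 2 (by norm_num) 0
  rw [smul_zero] at h1
  have h2 : (1 : ℝ) • L 0 = 0 := by
    have h3 : (2 : ℝ) • L 0 = (1 : ℝ) • L 0 + (1 : ℝ) • L 0 := by
      rw [← add_smul]; norm_num
    rw [h3, one_smul] at h1
    rw [one_smul]
    exact (add_eq_left.1 h1.symm)
  rwa [one_smul] at h2

theorem DRC_mul {r : ℝ} (hr : 0 < r) : Tendsto (fun ε : ℝ => ε * r) (𝓝[>] 0) (𝓝[>] 0) := by
  apply tendsto_nhdsWithin_of_tendsto_nhds_of_eventually_within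
  · have h1 : Tendsto (fun ε : ℝ => ε * r) (𝓝 0) (𝓝 0) :=
      (continuous_id.mul continuous_const).tendsto' 0 0 (by simp)
    exact h1.mono_left nhdsWithin_le_nhds
  · filter_upwards [self_mem_nhdsWithin] with ε hε
    exact mul_pos (mem_Ioi.1 hε) hr

theorem DRC_ray (θ : ℂ) : Tendsto (fun ε : ℝ => ε • θ) (𝓝[>] 0) (𝓝 0) := by
  have h1 : Tendsto (fun ε : ℝ => ε • θ) (𝓝 0) (𝓝 0) :=
    (continuous_id.smul continuous_const).tendsto' 0 0 (by simp)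
  exact h1.mono_left nhdsWithin_le_nhds

theorem DRC_loc {f : ℂ → ℂ} {z θ : ℂ} {L : ℂ → ℂ} (hL : Loc f z L) (hθ : ‖θ‖ = 1) :
    L θ ≠ 0 ∧ Dr f z θ ((‖L θ‖⁻¹ : ℝ) • L θ) := by
  have h0 : L θ ≠ 0 := by
    intro h
    have h1 : θ = 0 := by
      apply hL.inj
      rw [h, DRC_zero hL]
    rw [h1, norm_zero] at hθ
    exact zero_ne_one hθ
  have hn : ‖L θ‖ ≠ 0 := norm_ne_zero_iff.2 h0
  refine ⟨h0, hθ, ?_, ‖L θ‖, norm_pos_iff.2 h0, ?_⟩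
  · rw [norm_smul, norm_inv, norm_norm, inv_mul_cancel₀ hn]
  · filter_upwards [(DRC_ray θ).eventually hL.eq, self_mem_nhdsWithin] with ε h1 h2
    rw [h1, hL.hom ε (mem_Ioi.1 h2), smul_smul, mul_assoc, mul_inv_cancel₀ hn, mul_one]

theorem DT.norm {ys : ℕ → ℂ} {z θ : ℂ} (h : DT ys z θ) : ‖θ‖ = 1 := by
  have h1 := h.2.2.norm
  have h2 : ∀ n, ‖(‖ys n - z‖⁻¹ : ℝ) • (ys n - z)‖ = 1 := by
    intro n
    have h3 : ‖ys n - z‖ ≠ 0 := norm_ne_zero_iff.2 (sub_ne_zero.2 (h.2.1 n))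
    rw [norm_smul, norm_inv, norm_norm, inv_mul_cancel₀ h3]
  simp only [h2] at h1
  exact tendsto_nhds_unique h1 tendsto_const_nhds |>.symm ▸ rfl

theorem DT.comp {ys : ℕ → ℂ} {z θ : ℂ} (h : DT ys z θ) {k : ℕ → ℕ} (hk : StrictMono k) :
    DT (fun n => ys (k n)) z θ :=
  ⟨h.1.comp hk.tendsto_atTop, fun n => h.2.1 (k n), h.2.2.comp hk.tendsto_atTop⟩

theorem DT.subseq {ys : ℕ → ℂ} {z : ℂ} (h : Tendsto ys atTop (𝓝 z)) (hne : ∀ n, ys n ≠ z) :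
    ∃ (θ : ℂ) (k : ℕ → ℕ), StrictMono k ∧ DT (fun n => ys (k n)) z θ := by
  have h1 : ∀ n, (‖ys n - z‖⁻¹ : ℝ) • (ys n - z) ∈ Metric.sphere (0 : ℂ) 1 := by
    intro n
    have h3 : ‖ys n - z‖ ≠ 0 := norm_ne_zero_iff.2 (sub_ne_zero.2 (hne n))
    rw [mem_sphere_zero_iff_norm, norm_smul, norm_inv, norm_norm, inv_mul_cancel₀ h3]
  obtain ⟨θ, _, k, hk, h2⟩ := (isCompact_sphere (0 : ℂ) 1).tendsto_subseq h1
  exact ⟨θ, k, hk, h.comp hk.tendsto_atTop, fun n => hne (k n), h2⟩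

variable {ι : Type} {A : Arr ι} {φ ψ : ℂ → ℂ} {z θ θ' θ'' : ℂ}

theorem Dr_exists (H : IsDyn A φ) (z : ℂ) (hθ : ‖θ‖ = 1) : ∃ θ', Dr φ z θ θ' := by
  obtain ⟨L, hL⟩ := H.loc z
  exact ⟨_, (DRC_loc hL hθ).2⟩

theorem Dr_unique (h : Dr φ z θ θ') (h' : Dr φ z θ θ'') : θ' = θ'' := by
  obtain ⟨_, hn, r, hr, h1⟩ := h
  obtain ⟨_, hn', r', hr', h2⟩ := h'
  obtain ⟨ε, ⟨h3, h4⟩, h5⟩ := ((h1.and h2).and self_mem_nhdsWithin).exists
  have hε : 0 < ε := mem_Ioi.1 h5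
  have h6 : (ε * r) • θ' = (ε * r') • θ'' := by
    have h7 := h3.symm.trans h4
    exact add_left_cancel h7
  have h8 : ε * r = ε * r' := by
    have h9 := congrArg norm h6
    rw [norm_smul, norm_smul, hn, hn', mul_one, mul_one, Real.norm_eq_abs, Real.norm_eq_abs,
      abs_of_pos (mul_pos hε hr), abs_of_pos (mul_pos hε hr')] at h9
    exact h9
  rw [h8] at h6
  exact smul_right_injective ℂ (mul_pos hε hr').ne' h6

theorem Dr_inv (H : Dyn2 A φ ψ) (h : Dr φ z θ θ') : Dr ψ (φ z) θ' θ := by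
  obtain ⟨h1, h2, r, hr, h3⟩ := h
  refine ⟨h2, h1, r⁻¹, inv_pos.2 hr, ?_⟩
  filter_upwards [(DRC_mul (inv_pos.2 hr)).eventually h3] with δ h4
  rw [inv_mul_cancel_right₀ hr.ne'] at h4
  rw [← h4, H.ψφ, H.ψφ]

theorem Dr_comp {φ' : ℂ → ℂ} (h : Dr φ z θ θ') (h' : Dr φ' (φ z) θ' θ'') :
    Dr (fun x => φ' (φ x)) z θ θ'' := by
  obtain ⟨h1, h2, r, hr, h3⟩ := h
  obtain ⟨h4, h5, r', hr', h6⟩ := h'
  refine ⟨h1, h5, r * r', mul_pos hr hr', ?_⟩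
  filter_upwards [h3, (DRC_mul hr).eventually h6] with ε h7 h8
  change φ' (φ (z + ε • θ)) = φ' (φ z) + (ε * (r * r')) • θ''
  rw [h7, h8, mul_assoc]

theorem Dr_lat (H : IsDyn A φ) (h : Dr φ z θ θ') (w : ℤ × ℤ) : Dr φ (z + lat w) θ θ' := by
  obtain ⟨h1, h2, r, hr, h3⟩ := h
  refine ⟨h1, h2, r, hr, ?_⟩
  filter_upwards [h3] with ε h4
  rw [add_right_comm, H.eqv, H.eqv, h4, add_right_comm]

theorem DRC_hat {L : ℂ → ℂ} {f : ℂ → ℂ} {z : ℂ} (hL : Loc f z L) {v : ℂ} (hv : v ≠ 0) :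
    L v = ‖v‖ • L ((‖v‖⁻¹ : ℝ) • v) := by
  have h1 : ‖v‖ ≠ 0 := norm_ne_zero_iff.2 hv
  rw [← hL.hom _ (norm_pos_iff.2 hv), smul_smul, mul_inv_cancel₀ h1, one_smul]

theorem DRC_ev {L : ℂ → ℂ} (hL : Loc φ z L) {ys : ℕ → ℂ} (hd : Tendsto ys atTop (𝓝 z)) :
    ∀ᶠ n in atTop, φ (ys n) - φ z = L (ys n - z) := by
  have h1 : Tendsto (fun n => ys n - z) atTop (𝓝 0) := by
    have h2 := hd.sub_const z
    rwa [sub_self] at h2
  filter_upwards [h1.eventually hL.eq] with n hn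
  rw [add_sub_cancel] at hn
  rw [hn, add_sub_cancel_left]

theorem Dr_seq (H : IsDyn A φ) (h : Dr φ z θ θ') {ys : ℕ → ℂ} (hd : DT ys z θ) :
    DT (fun n => φ (ys n)) (φ z) θ' := by
  obtain ⟨L, hL⟩ := H.loc z
  obtain ⟨h0, h1⟩ := DRC_loc hL h.1
  have h2 : θ' = (‖L θ‖⁻¹ : ℝ) • L θ := Dr_unique h h1
  refine ⟨(H.cont.tendsto z).comp hd.1, fun n hn => hd.2.1 n (H.inj hn), ?_⟩
  have h3 : Tendsto (fun n => L ((‖ys n - z‖⁻¹ : ℝ) • (ys n - z))) atTop (𝓝 (L θ)) :=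
    (hL.cont.tendsto θ).comp hd.2.2
  have h4 : Tendsto (fun n => (‖L ((‖ys n - z‖⁻¹ : ℝ) • (ys n - z))‖⁻¹ : ℝ) •
      L ((‖ys n - z‖⁻¹ : ℝ) • (ys n - z))) atTop (𝓝 ((‖L θ‖⁻¹ : ℝ) • L θ)) :=
    (h3.norm.inv₀ (norm_ne_zero_iff.2 h0)).smul h3
  rw [h2]
  refine h4.congr' ?_
  filter_upwards [DRC_ev hL hd.1] with n hn
  have h5 : ys n - z ≠ 0 := sub_ne_zero.2 (hd.2.1 n)
  have h6 : ‖ys n - z‖ ≠ 0 := norm_ne_zero_iff.2 h5
  rw [hn, DRC_hat hL h5, norm_smul, norm_norm, mul_inv, smul_smul]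
  rw [mul_comm ‖ys n - z‖⁻¹, mul_assoc, inv_mul_cancel₀ h6, mul_one]

theorem DRC_dt_smul (a b : ℝ) (v w : ℂ) : dt (a • v) (b • w) = a * b * dt v w := by
  unfold dt
  simp only [Complex.smul_re, Complex.smul_im, smul_eq_mul]
  ring

theorem Dr_det (H : IsDyn A φ) (h : Dr φ z θ θ') : ∃ r : ℝ, 0 < r ∧ ∀ ys : ℕ → ℂ, DT ys z θ →
    ∀ᶠ n in atTop, dt θ' (φ (ys n) - φ z) = r * dt θ (ys n - z) := by
  obtain ⟨L, hL⟩ := H.loc z
  obtain ⟨h0, h1⟩ := DRC_loc hL h.1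
  have h2 : θ' = (‖L θ‖⁻¹ : ℝ) • L θ := Dr_unique h h1
  have hθ0 : θ ≠ 0 := by
    intro h3
    have h4 := h.1
    rw [h3, norm_zero] at h4
    exact zero_ne_one h4
  refine ⟨‖L θ‖⁻¹, inv_pos.2 (norm_pos_iff.2 h0), fun ys hd => ?_⟩
  filter_upwards [DRC_ev hL hd.1, hd.2.2.eventually (hL.det θ hθ0)] with n hn hn'
  have h5 : ys n - z ≠ 0 := sub_ne_zero.2 (hd.2.1 n)
  have h6 : ‖ys n - z‖ ≠ 0 := norm_ne_zero_iff.2 h5
  rw [h2, hn, DRC_hat hL h5, DRC_dt_smul, hn']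
  have h7 : dt θ ((‖ys n - z‖⁻¹ : ℝ) • (ys n - z)) = ‖ys n - z‖⁻¹ * dt θ (ys n - z) := by
    have h8 := DRC_dt_smul 1 ‖ys n - z‖⁻¹ θ (ys n - z)
    rwa [one_smul, one_mul] at h8
  rw [h7, mul_assoc, ← mul_assoc ‖ys n - z‖, mul_inv_cancel₀ h6, one_mul]

theorem DRC_al (H : IsDyn A φ) (h : Dr φ z θ θ') {k : ι} (hk : A.al k z θ) (hu : A.u k ≠ 0)
    {τ : ℝ} (hτ : τ = 1 ∨ τ = -1) (hθ : θ = τ • A.e k) :
    ∃ j, A.al j (φ z) θ' ∧ θ' = τ • A.e j := by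
  have hup : 0 < ‖A.u k‖ := norm_pos_iff.2 hu
  have hτ2 : |τ| = 1 := by
    rcases hτ with h1 | h1
    · rw [h1, abs_one]
    · rw [h1, abs_neg, abs_one]
  have h1 : ∀ᶠ ε in 𝓝[>] (0 : ℝ), A.On k (z + (ε * τ) • A.u k) := by
    filter_upwards [(DRC_mul hup).eventually hk] with ε h2
    have h3 : (ε * ‖A.u k‖) • θ = (ε * τ) • A.u k := by
      rw [hθ]
      unfold Fam.e
      rw [smul_smul, smul_smul]
      refine congrArg (fun t : ℝ => t • A.u k) ?_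
      field_simp
    rwa [h3] at h2
  obtain ⟨j, huj, r, hr, h2⟩ := H.edg z k τ hτ hu h1
  have hujp : 0 < ‖A.u j‖ := norm_pos_iff.2 huj
  have h3 : Dr φ z θ (τ • A.e j) := by
    refine ⟨h.1, ?_, ‖A.u k‖⁻¹ * r * ‖A.u j‖, by positivity, ?_⟩
    · rw [norm_smul, A.e_norm j huj, Real.norm_eq_abs, hτ2, mul_one]
    · filter_upwards [(DRC_mul (inv_pos.2 hup)).eventually h2] with ε h4
      have h5 : ε • θ = (ε * ‖A.u k‖⁻¹ * τ) • A.u k := by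
        rw [hθ]
        unfold Fam.e
        rw [smul_smul, smul_smul]
        refine congrArg (fun t : ℝ => t • A.u k) ?_
        ring
      have h6 : (ε * (‖A.u k‖⁻¹ * r * ‖A.u j‖)) • (τ • A.e j) =
          (ε * ‖A.u k‖⁻¹ * τ * r) • A.u j := by
        unfold Fam.e
        rw [smul_smul, smul_smul]
        refine congrArg (fun t : ℝ => t • A.u j) ?_
        field_simp
      rw [h5, h6, h4.1]
  have h4 : θ' = τ • A.e j := Dr_unique h h3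
  refine ⟨j, ?_, h4⟩
  filter_upwards [(DRC_mul (inv_pos.2 hujp)).eventually h2] with ε h5
  have h6 : ε • θ' = (ε * ‖A.u j‖⁻¹ * τ) • A.u j := by
    rw [h4]
    unfold Fam.e
    rw [smul_smul, smul_smul]
    refine congrArg (fun t : ℝ => t • A.u j) ?_
    ring
  rw [h6]
  exact h5.2

theorem Dr_al (H : IsDyn A φ) (h : Dr φ z θ θ') {k : ι} (hk : A.al k z θ) :
    ∃ j, A.al j (φ z) θ' ∧ ((θ = A.e k ∧ θ' = A.e j) ∨ (θ = -A.e k ∧ θ' = -A.e j)) := by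
  obtain ⟨hu, _, hor⟩ := A.al_dir k h.1 hk
  rcases hor with h1 | h1
  · obtain ⟨j, hj, hj'⟩ := DRC_al H h hk hu (Or.inl rfl) (by rw [one_smul]; exact h1)
    rw [one_smul] at hj'
    exact ⟨j, hj, Or.inl ⟨h1, hj'⟩⟩
  · obtain ⟨j, hj, hj'⟩ := DRC_al H h hk hu (Or.inr rfl) (by rw [neg_smul, one_smul]; exact h1)
    rw [neg_smul, one_smul] at hj'
    exact ⟨j, hj, Or.inr ⟨h1, hj'⟩⟩

theorem Dr_nal (H : Dyn2 A φ ψ) (h : Dr φ z θ θ') (hk : ∀ k, ¬ A.al k z θ) (j : ι) :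
    ¬ A.al j (φ z) θ' := by
  intro hj
  obtain ⟨k, hk', _⟩ := Dr_al H.dψ (Dr_inv H h) hj
  rw [H.ψφ] at hk'
  exact hk k hk'

end TorD
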