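import Pool.Agent.H51.TD.PCA

/-! # PCB: normals, the values `V`, point pieces

PROOF. `e = u/‖u‖`, `nn = i e`: for `u ≠ 0` unit vectors with `ip e nn = 0`. If `y` is on the piece `i`, `x = rd (y - q) = t u`, so for all `t'`:
`ip nn (t' u - x) = 0`, hence `s nn ∈ D0` for `|s| ≤ 1` (if `u = 0`, `nn = 0`). If `u = 0` and `rd (z - q) = 0`: `D0 0 0 = {‖v‖ ≤ 1}`. If `u ≠ 0`, `x = t u` with `|t| < 1`,
`v ∈ D0 u x`: the condition for `t' = t ± small` gives `ip v u = 0`, so `v = s nn`, `s = ip v nn`, `|s| ≤ 1`. -/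

set_option autoImplicit false

open Topology Filter Set Function

namespace TorD

namespace Fam

variable {ι : Type} (A : Fam ι) (i : ι)

theorem e_norm (h : A.u i ≠ 0) : ‖A.e i‖ = 1 := by
  unfold e
  rw [norm_smul, norm_inv, norm_norm, inv_mul_cancel₀ (norm_ne_zero_iff.2 h)]

theorem nn_norm (h : A.u i ≠ 0) : ‖A.nn i‖ = 1 := by
  unfold nn
  rw [norm_mul, Complex.norm_I, one_mul, A.e_norm i h]

theorem ip_e_nn : ip (A.e i) (A.nn i) = 0 := by
  unfold ip nn
  simp only [Complex.mul_re, Complex.mul_im, Complex.I_re, Complex.I_im]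
  ring

theorem ip_nn (x : ℂ) : ip x (A.nn i) = dt (A.e i) x := by
  unfold ip nn dt
  simp only [Complex.mul_re, Complex.mul_im, Complex.I_re, Complex.I_im]
  ring

theorem PCB_nn_u : ip (A.nn i) (A.u i) = 0 := by
  unfold ip nn e
  simp only [Complex.mul_re, Complex.mul_im, Complex.I_re, Complex.I_im, Complex.smul_re,
    Complex.smul_im, smul_eq_mul]
  ring

theorem PCB_nn_le : ‖A.nn i‖ ≤ 1 := by
  by_cases h : A.u i = 0
  · unfold nn e
    rw [h]
    simp
  · exact (A.nn_norm i h).le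

theorem V_on {y : ℂ} (h : A.On i y) (s : ℝ) : A.V i y s = s • A.nn i := by
  unfold V
  rw [if_pos h]

theorem V_off {y : ℂ} (h : ¬ A.On i y) (s : ℝ) : A.V i y s = A.sel i y := by
  unfold V
  rw [if_neg h]

theorem V_mem (y : ℂ) {s : ℝ} (hs : |s| ≤ 1) : A.V i y s ∈ A.D i y := by
  by_cases h : A.On i y
  · rw [A.V_on i h]
    refine Or.inr ⟨h, ?_, ?_⟩
    · rw [norm_smul, Real.norm_eq_abs]
      calc |s| * ‖A.nn i‖ ≤ 1 * 1 := mul_le_mul hs (A.PCB_nn_le i) (norm_nonneg _) zero_le_one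
        _ = 1 := one_mul 1
    · intro t _
      obtain ⟨t', _, h2⟩ := pj_mem (A.u i) (rd (y - A.q i))
      have h3 : rd (y - A.q i) = t' • A.u i := Eq.trans h h2
      rw [h3, ip_smul_left, ip_sub_right, ip_smul_right, ip_smul_right, A.PCB_nn_u i]
      simp
  · rw [A.V_off i h]
    exact A.D_sel i y

theorem V_lat (y : ℂ) (w : ℤ × ℤ) (s : ℝ) : A.V i (y + lat w) s = A.V i y s := by
  by_cases h : A.On i y
  · rw [A.V_on i h, A.V_on i ((A.On_lat i y w).2 h)]
  · rw [A.V_off i h, A.V_off i (fun h' => h ((A.On_lat i y w).1 h')), A.sel_lat]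

theorem D_point {z : ℂ} (hu : A.u i = 0) (hz : rd (z - A.q i) = 0) :
    A.D i z = Metric.closedBall 0 1 := by
  unfold D
  rw [hu, hz]
  ext v
  rw [mem_closedBall_zero_iff]
  constructor
  · rintro (⟨h, _⟩ | ⟨_, h, _⟩)
    · exact absurd (pj_zero 0).symm h
    · exact h
  · intro h
    refine Or.inr ⟨(pj_zero 0).symm, h, fun t _ => ?_⟩
    rw [smul_zero, sub_zero]
    unfold ip
    simp

/-- interior point of an edge: the values are the `s • nn` -/
theorem D_edge {y : ℂ} (hu : A.u i ≠ 0) (h : A.On i y)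
    (h1 : |ip (rd (y - A.q i)) (A.u i)| < ‖A.u i‖ ^ 2) {v : ℂ} (hv : v ∈ A.D i y) :
    ∃ s : ℝ, |s| ≤ 1 ∧ v = s • A.nn i := by
  obtain ⟨t', _, h2⟩ := pj_mem (A.u i) (rd (y - A.q i))
  have h3 : rd (y - A.q i) = t' • A.u i := Eq.trans h h2
  rcases hv with ⟨h4, _⟩ | ⟨_, hn, h5⟩
  · exact absurd h h4
  have hpos : 0 < ‖A.u i‖ ^ 2 := by
    have := norm_pos_iff.2 hu
    positivity
  have ht : |t'| < 1 := by
    rw [h3, ip_smul_left, ip_self, abs_mul, abs_of_pos hpos] at h1
    by_contra hc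
    push Not at hc
    nlinarith
  rw [abs_lt] at ht
  have h6 := h5 1 ⟨by norm_num, le_rfl⟩
  have h7 := h5 (-1) ⟨le_rfl, by norm_num⟩
  rw [h3, ip_sub_right, ip_smul_right, ip_smul_right] at h6 h7
  have h8 : ip v (A.u i) = 0 := by
    apply le_antisymm
    · by_contra hc
      push Not at hc
      nlinarith
    · by_contra hc
      push Not at hc
      nlinarith
  refine ⟨ip v (A.nn i), ?_, ?_⟩
  · rw [abs_le]
    have a1 := ip_le v (A.nn i)
    have a2 := ip_ge v (A.nn i)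
    have a3 : ‖v‖ * ‖A.nn i‖ ≤ 1 := by
      calc ‖v‖ * ‖A.nn i‖ ≤ 1 * 1 := mul_le_mul hn (A.PCB_nn_le i) (norm_nonneg _) zero_le_one
        _ = 1 := one_mul 1
    constructor <;> linarith
  · have hr : ‖A.u i‖ ≠ 0 := norm_ne_zero_iff.2 hu
    have hsq : ‖A.u i‖ ^ 2 = (A.u i).re ^ 2 + (A.u i).im ^ 2 := by
      rw [← ip_self]; unfold ip; ring
    have e8 : v.re * (A.u i).re + v.im * (A.u i).im = 0 := h8
    unfold nn e ip
    generalize A.u i = u at *
    generalize hr2 : ‖u‖ = r at *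
    apply Complex.ext
    · simp only [Complex.mul_re, Complex.mul_im, Complex.I_re, Complex.I_im, Complex.smul_re,
        Complex.smul_im, smul_eq_mul]
      field_simp
      rw [hsq]
      linear_combination (u.re) * e8
    · simp only [Complex.mul_re, Complex.mul_im, Complex.I_re, Complex.I_im, Complex.smul_re,
        Complex.smul_im, smul_eq_mul]
      field_simp
      rw [hsq]
      linear_combination (u.im) * e8

end Fam

end TorD
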