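import Pool.Agent.H51.TD.HMP
import Pool.Agent.H51.TD.PCB

/-! # FIB: fibres of `h`

PROOF. K_eq: h_code and h_pt. Convex: the sets `D i y` are convex and `pt y` is affine in the code (tsum_add, tsum_mul_left; use sum_code). Closed: `h` continuous; bounded by h_near. K_diam: two codes of
`y` agree off the pieces on `y` (D_single), `‖v i - v' i‖ ≤ 2`, norm_sum_le with `b i = if On then 1 else 0` (apply it to `(v i - v' i)/2`) or directly.
K_ball: `z ∈ Rat2`, the point piece `i₀` of `Arr.pts`, `D i₀ z` = unit ball: the codes `sel` with the entry `i₀` (where `sel i₀ z = 0`) replaced by any `‖v‖ ≤ 1` give `m z + c i₀ • v`.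
K_irr: for `y ∉ Rat2` with code `v`: if no piece is on `y` all `D i y = {sel i y}`; if `k` is on `y` it is the only one (Arr.one) and `u k ≠ 0`, `y` is not an end point (end points are
rational: Arr.rat, On_iff), so `v k = s nn` by D_edge; in both cases `p = Pi y s`. K_thin: `{Pi y s}` is contained in a line (`Pi y s = Pi y 0 + (s * c) • nn`), so has empty interior. -/

set_option autoImplicit false

open Topology Filter Set Function

namespace TorD

theorem Fam.K_eq {ι : Type} [Countable ι] (A : Fam ι) (y : ℂ) :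
    {p | A.h p = y} = {p | ∃ v, A.code y v ∧ p = A.pt y v} := by
  ext p
  constructor
  · intro h
    obtain ⟨v, hv, hp⟩ := A.h_code p
    have h' : A.h p = y := h
    rw [h'] at hv hp
    exact ⟨v, hv, hp⟩
  · rintro ⟨v, hv, hp⟩
    show A.h p = y
    rw [hp]
    exact A.h_pt hv

theorem FIB_norm {ι : Type} (A : Fam ι) {y : ℂ} {v : ι → ℂ} (hv : A.code y v) (i : ι) : ‖v i‖ ≤ 1 :=
  A.D_norm i (hv i)

theorem Fam.K_convex {ι : Type} [Countable ι] (A : Fam ι) (y : ℂ) : Convex ℝ {p | A.h p = y} := by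
  rw [A.K_eq]
  rintro p ⟨v, hv, rfl⟩ p' ⟨v', hv', rfl⟩ a b ha hb hab
  refine ⟨fun i => a • v i + b • v' i, fun i => A.D_conv i y (hv i) (hv' i) ha hb hab, ?_⟩
  unfold Fam.pt
  have s1 := A.sum_code (FIB_norm A hv)
  have s2 := A.sum_code (FIB_norm A hv')
  have e : ∀ i, A.c i • (a • v i + b • v' i) = a • (A.c i • v i) + b • (A.c i • v' i) := by
    intro i
    rw [smul_add, smul_comm (A.c i) a, smul_comm (A.c i) b]
  simp only [e]
  rw [(s1.const_smul a).tsum_add (s2.const_smul b), tsum_const_smul'', tsum_const_smul'']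
  have hy : y = a • y + b • y := by rw [← add_smul, hab, one_smul]
  conv_rhs => rw [hy]
  rw [smul_add, smul_add]
  abel

theorem Fam.K_compact {ι : Type} [Countable ι] (A : Fam ι) (y : ℂ) : IsCompact {p | A.h p = y} := by
  refine Metric.isCompact_of_isClosed_isBounded (isClosed_eq A.h_cont continuous_const) ?_
  refine (Metric.isBounded_closedBall (x := y) (r := 1 / 32)).subset ?_
  intro p hp
  rw [Metric.mem_closedBall, dist_comm, dist_eq_norm]
  have h : A.h p = y := hp
  rw [← h]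
  exact A.h_near p

open Classical in
theorem Fam.K_diam {ι : Type} [Countable ι] (A : Fam ι) {y p p' : ℂ} (h : A.h p = y)
    (h' : A.h p' = y) : ‖p - p'‖ ≤ 2 * ∑' i, (if A.On i y then A.c i else 0) := by
  obtain ⟨v, hv, hp⟩ := A.h_code p
  obtain ⟨v', hv', hp'⟩ := A.h_code p'
  rw [h] at hv hp
  rw [h'] at hv' hp'
  have n1 := FIB_norm A hv
  have n2 := FIB_norm A hv'
  have e1 : p - p' = ∑' i, A.c i • (v i - v' i) := by
    rw [hp, hp', A.pt_sub n1 n2, sub_self, zero_add]
  have e2 : ∑' i, A.c i • (v i - v' i) = (2 : ℝ) • ∑' i, A.c i • ((1 / 2 : ℝ) • (v i - v' i)) := by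
    rw [← tsum_const_smul'']
    refine tsum_congr fun i => ?_
    rw [smul_comm (A.c i) (1 / 2 : ℝ), smul_smul]
    norm_num
  have e3 : ‖∑' i, A.c i • ((1 / 2 : ℝ) • (v i - v' i))‖ ≤
      ∑' i, A.c i * (if A.On i y then 1 else 0) := by
    refine A.norm_sum_le (b := fun i => if A.On i y then 1 else 0) ?_ ?_
    · intro i
      by_cases hi : A.On i y
      · rw [if_pos hi, norm_smul]
        have h1 := norm_sub_le (v i) (v' i)
        have h2 := n1 i
        have h3 := n2 i
        rw [Real.norm_of_nonneg (by norm_num : (0 : ℝ) ≤ 1 / 2)]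
        linarith
      · rw [if_neg hi]
        have h1 := hv i
        have h2 := hv' i
        rw [A.D_single i hi] at h1 h2
        rw [Set.mem_singleton_iff.1 h1, Set.mem_singleton_iff.1 h2, sub_self, smul_zero, norm_zero]
    · intro i
      by_cases hi : A.On i y
      · rw [if_pos hi]
      · rw [if_neg hi]; norm_num
  rw [e1, e2, norm_smul, Real.norm_of_nonneg (by norm_num : (0 : ℝ) ≤ 2)]
  have e4 : ∑' i, A.c i * (if A.On i y then (1 : ℝ) else 0) = ∑' i, (if A.On i y then A.c i else 0) := by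
    refine tsum_congr fun i => ?_
    split_ifs <;> simp
  rw [← e4]
  linarith

theorem Arr.K_ball {ι : Type} [Countable ι] (A : Arr ι) {z : ℂ} (hz : z ∈ Rat2) :
    ∃ r : ℝ, 0 < r ∧ Metric.ball (A.m z) r ⊆ {p | A.h p = z} := by
  classical
  obtain ⟨i₀, hu, hr⟩ := A.pts z hz
  have hc := A.cpos i₀
  have hOn : A.On i₀ z := by
    unfold Fam.On
    rw [hu, hr, pj_zero]
  have hsel : A.sel i₀ z = 0 := A.sel_on i₀ hOn
  have hD := A.D_point i₀ hu hr
  refine ⟨A.c i₀, hc, ?_⟩
  intro p hp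
  rw [Metric.mem_ball, dist_eq_norm] at hp
  set v : ℂ := ((A.c i₀)⁻¹ : ℝ) • (p - A.m z) with hv
  have hvn : ‖v‖ ≤ 1 := by
    rw [hv, norm_smul, norm_inv, Real.norm_of_nonneg hc.le, inv_mul_le_iff₀ hc, mul_one]
    exact hp.le
  have hcode : A.code z (Function.update (fun i => A.sel i z) i₀ v) := by
    intro i
    by_cases hi : i = i₀
    · subst hi
      rw [Function.update_self, hD, Metric.mem_closedBall, dist_zero_right]
      exact hvn
    · rw [Function.update_of_ne hi]
      exact A.D_sel i z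
  have hcode0 : A.code z (fun i => A.sel i z) := fun i => A.D_sel i z
  have e := A.pt_sub (y := z) (y' := z) (FIB_norm A.toFam hcode) (FIB_norm A.toFam hcode0)
  have e1 : ∑' i, A.c i • (Function.update (fun i => A.sel i z) i₀ v i - A.sel i z) =
      A.c i₀ • v := by
    rw [tsum_eq_single i₀]
    · rw [Function.update_self, hsel, sub_zero]
    · intro i hi
      rw [Function.update_of_ne hi, sub_self, smul_zero]
  rw [e1, sub_self, zero_add] at e
  have e2 : A.c i₀ • v = p - A.m z := by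
    rw [hv, smul_smul, mul_inv_cancel₀ hc.ne', one_smul]
  rw [e2] at e
  have e3 : A.pt z (Function.update (fun i => A.sel i z) i₀ v) = p := by
    have e4 : A.pt z (fun i => A.sel i z) = A.m z := rfl
    rw [e4] at e
    exact sub_left_injective e
  show A.h p = z
  rw [← e3]
  exact A.h_pt hcode

/-- an irrational point of a piece is an interior point of an edge -/
theorem Arr.on_irr {ι : Type} (A : Arr ι) {y : ℂ} (hy : y ∉ Rat2) {i : ι} (hi : A.On i y) :
    A.u i ≠ 0 ∧ |ip (rd (y - A.q i)) (A.u i)| < ‖A.u i‖ ^ 2 := by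
  obtain ⟨t, ht, hx⟩ := (pj_fix (A.u i) (rd (y - A.q i))).1 hi
  obtain ⟨w, hw⟩ := rd_sub (y - A.q i)
  have hy' : y = A.q i + t • A.u i + lat w := by
    rw [hx] at hw
    rw [hw]; ring
  obtain ⟨hr1, hr2⟩ := A.rat i
  have hu : A.u i ≠ 0 := by
    intro h
    apply hy
    rw [hy', h, smul_zero, add_zero, rat2_lat]
    rw [h, add_zero] at hr2
    exact hr2
  refine ⟨hu, ?_⟩
  have hn : 0 < ‖A.u i‖ ^ 2 := by
    have := norm_pos_iff.2 hu
    positivity
  rw [hx, ip_smul_left, ip_self, abs_mul, abs_of_pos hn]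
  have h1 : t ≠ 1 := by
    intro h
    apply hy
    rw [hy', h, one_smul, rat2_lat]
    exact hr2
  have h2 : t ≠ -1 := by
    intro h
    apply hy
    rw [hy', h, rat2_lat]
    have : A.q i + (-1 : ℝ) • A.u i = A.q i - A.u i := by rw [neg_smul, one_smul]; ring
    rw [this]
    exact hr1
  have h3 : |t| < 1 := by
    rw [abs_lt]
    exact ⟨lt_of_le_of_ne ht.1 (Ne.symm h2), lt_of_le_of_ne ht.2 h1⟩
  nlinarith

theorem FIB_V_norm {ι : Type} (A : Fam ι) (y : ℂ) {s : ℝ} (hs : |s| ≤ 1) (i : ι) :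
    ‖A.V i y s‖ ≤ 1 := A.D_norm i (A.V_mem i y hs)

theorem FIB_Pi_sub {ι : Type} (A : Arr ι) {y : ℂ} (hy : y ∉ Rat2) {k : ι} (hk : A.On k y)
    {s s' : ℝ} (hs : |s| ≤ 1) (hs' : |s'| ≤ 1) :
    A.Pi y s - A.Pi y s' = (A.c k * (s - s')) • A.nn k := by
  have e := A.pt_sub (y := y) (y' := y) (FIB_V_norm A.toFam y hs) (FIB_V_norm A.toFam y hs')
  have e1 : ∑' i, A.c i • (A.V i y s - A.V i y s') = (A.c k * (s - s')) • A.nn k := by
    rw [tsum_eq_single k]
    · rw [A.V_on k hk, A.V_on k hk, ← sub_smul, smul_smul]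
    · intro i hi
      have hni : ¬ A.On i y := fun h => hi (A.one y hy i k h hk)
      rw [A.V_off i hni, A.V_off i hni, sub_self, smul_zero]
  rw [e1, sub_self, zero_add] at e
  exact e

theorem FIB_Pi_off {ι : Type} (A : Fam ι) {y : ℂ} (hk : ∀ k, ¬ A.On k y) (s s' : ℝ) :
    A.Pi y s = A.Pi y s' := by
  unfold Fam.Pi
  congr 1
  funext i
  rw [A.V_off i (hk i), A.V_off i (hk i)]

theorem Arr.K_irr {ι : Type} [Countable ι] (A : Arr ι) {p : ℂ} (hp : A.h p ∉ Rat2) :
    ∃ s : ℝ, |s| ≤ 1 ∧ p = A.Pi (A.h p) s := by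
  obtain ⟨v, hv, hpv⟩ := A.h_code p
  by_cases h : ∃ k, A.On k (A.h p)
  · obtain ⟨k, hk⟩ := h
    obtain ⟨hu, hlt⟩ := A.on_irr hp hk
    obtain ⟨s, hs, hvs⟩ := A.D_edge k hu hk hlt (hv k)
    refine ⟨s, hs, ?_⟩
    have e : v = fun i => A.V i (A.h p) s := by
      funext i
      by_cases hi : A.On i (A.h p)
      · have : i = k := A.one _ hp i k hi hk
        subst this
        rw [A.V_on i hi, hvs]
      · rw [A.V_off i hi]
        have h1 := hv i
        rw [A.D_single i hi] at h1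
        exact h1
    conv_lhs => rw [hpv, e]
    rfl
  · push Not at h
    refine ⟨0, by simp, ?_⟩
    have e : v = fun i => A.V i (A.h p) 0 := by
      funext i
      rw [A.V_off i (h i)]
      have h1 := hv i
      rw [A.D_single i (h i)] at h1
      exact h1
    conv_lhs => rw [hpv, e]
    rfl

theorem FIB_line (a N : ℂ) : interior {p : ℂ | ∃ s : ℝ, p = a + s • N} = ∅ := by
  rw [Set.eq_empty_iff_forall_notMem]
  intro p hp
  rw [mem_interior_iff_mem_nhds, Metric.mem_nhds_iff] at hp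
  obtain ⟨ε, hε, hsub⟩ := hp
  have h0 : p ∈ Metric.ball p ε := Metric.mem_ball_self hε
  have h1 : p + ((ε / 2 : ℝ) : ℂ) ∈ Metric.ball p ε := by
    rw [Metric.mem_ball, dist_eq_norm, add_sub_cancel_left, Complex.norm_real, Real.norm_eq_abs,
      abs_of_pos (by linarith)]
    linarith
  have h2 : p + ((ε / 2 : ℝ) : ℂ) * Complex.I ∈ Metric.ball p ε := by
    rw [Metric.mem_ball, dist_eq_norm, add_sub_cancel_left, norm_mul, Complex.norm_I, mul_one,
      Complex.norm_real, Real.norm_eq_abs, abs_of_pos (by linarith)]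
    linarith
  obtain ⟨s0, e0⟩ := hsub h0
  obtain ⟨s1, e1⟩ := hsub h1
  obtain ⟨s2, e2⟩ := hsub h2
  have f1 : ((ε / 2 : ℝ) : ℂ) = (s1 - s0) • N := by
    rw [sub_smul]
    linear_combination e1 - e0
  have f2 : ((ε / 2 : ℝ) : ℂ) * Complex.I = (s2 - s0) • N := by
    rw [sub_smul]
    linear_combination e2 - e0
  have r1 := congrArg Complex.re f1
  have i1 := congrArg Complex.im f1
  have r2 := congrArg Complex.re f2
  have i2 := congrArg Complex.im f2
  simp only [Complex.ofReal_re, Complex.ofReal_im, Complex.smul_re, Complex.smul_im, smul_eq_mul,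
    Complex.mul_re, Complex.mul_im, Complex.I_re, Complex.I_im, mul_zero, mul_one,
    sub_zero, add_zero] at r1 i1 r2 i2
  have hε2 : ε / 2 ≠ 0 := by positivity
  have hs1 : s1 - s0 ≠ 0 := by
    intro h
    rw [h, zero_mul] at r1
    exact hε2 r1
  have him : N.im = 0 := by
    rcases mul_eq_zero.1 i1.symm with h | h
    · exact absurd h hs1
    · exact h
  rw [him, mul_zero] at i2
  exact hε2 i2

theorem Arr.K_thin {ι : Type} [Countable ι] (A : Arr ι) {y : ℂ} (hy : y ∉ Rat2) :
    interior {p | A.h p = y} = ∅ := by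
  have key : ∃ a N : ℂ, {p | A.h p = y} ⊆ {p : ℂ | ∃ s : ℝ, p = a + s • N} := by
    by_cases h : ∃ k, A.On k y
    · obtain ⟨k, hk⟩ := h
      refine ⟨A.Pi y 0, A.c k • A.nn k, ?_⟩
      intro p hp
      have hp' : A.h p = y := hp
      obtain ⟨s, hs, e⟩ := A.K_irr (p := p) (by rw [hp']; exact hy)
      rw [hp'] at e
      refine ⟨s, ?_⟩
      have e1 := FIB_Pi_sub A hy hk hs (s' := 0) (by simp)
      rw [← e, sub_zero, mul_comm, ← smul_smul] at e1
      rw [← e1]; ring
    · push Not at h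
      refine ⟨A.Pi y 0, 0, ?_⟩
      intro p hp
      have hp' : A.h p = y := hp
      obtain ⟨s, hs, e⟩ := A.K_irr (p := p) (by rw [hp']; exact hy)
      rw [hp'] at e
      refine ⟨0, ?_⟩
      rw [smul_zero, add_zero, e]
      exact FIB_Pi_off A.toFam h s 0
  obtain ⟨a, N, h⟩ := key
  have := interior_mono h
  rw [FIB_line] at this
  exact Set.subset_empty_iff.1 this

/-- the level of a point of an irrational leaf is determined -/
theorem Arr.Pi_inj {ι : Type} [Countable ι] (A : Arr ι) {y y' : ℂ} {s s' : ℝ} (hs : |s| ≤ 1)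
    (hs' : |s'| ≤ 1) (hy : y ∉ Rat2) (h : A.Pi y s = A.Pi y' s') :
    y = y' ∧ ∀ i, A.On i y → s = s' := by
  have e : y = y' := by
    rw [← A.h_Pi y hs, h, A.h_Pi y' hs']
  refine ⟨e, ?_⟩
  intro i hi
  rw [← e] at h
  have e1 := FIB_Pi_sub A hy hi hs hs'
  rw [h, sub_self] at e1
  have hn : ‖A.nn i‖ = 1 := A.nn_norm i (A.on_irr hy hi).1
  have hn0 : A.nn i ≠ 0 := by
    intro h0
    rw [h0, norm_zero] at hn
    exact zero_ne_one hn
  rcases smul_eq_zero.1 e1.symm with h2 | h2
  · rcases mul_eq_zero.1 h2 with h3 | h3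
    · exact absurd h3 (A.cpos i).ne'
    · linarith
  · exact absurd h2 hn0

end TorD
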