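import Pool.Agent.H51.TD.AMA
import Pool.Agent.H51.TD.Int2

/-! # SLB: the values of an edge near a ray contained in it

PROOF. `u i ≠ 0`, `θ = τ e`, `τ = ±1`, and `z` is on the piece (al_dir). On_loc: near `z`, `rd (y - q) = y - q - lat w`; `x₀ = z - q - lat w = t₀ • u` with `|t₀| ≤ 1` (pj_fix), and because `z + ε θ` is
on the piece for small `ε > 0` (same `w`) `t₀ + τ ε/‖u‖ ∈ [-1,1]`, so `τ t₀ < 1`. For `y = z + v`, `v` small, put `x = x₀ + v`, `ip x u = t₀ ‖u‖² + ip v u`. In the sector `‖v - ‖v‖ θ‖ ≤ η ‖v‖` with `η ≤ 1/2`: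
`τ ip v u = ‖u‖ ip v θ ≥ 0` and `|ip v u| ≤ ‖u‖ ‖v‖`; so `|ip x u| ≤ ‖u‖²` for `‖v‖` small (if `τ = 1`: `t₀ ‖u‖² ≤ ip x u`, and `ip x u ≤ t₀ ‖u‖² + ‖u‖ ‖v‖ ≤ ‖u‖²` as `t₀ < 1`; `t₀ ≥ -1`).
By pj_slab `pj u x = (ip x u/‖u‖²) • u = (ip x e) • e`, so `x - pj u x = (ip x nn) • nn = (ip v nn) • nn = (dt e v) • nn` (ip_nn; `x₀` is parallel to `e`). Hence On iff `dt e v = 0`, and if `≠ 0`,
`sel = (max 0 (1 - 8 |dt e v|)/|dt e v|) • (dt e v) • nn`, with `|dt e v| ≤ ‖v‖ < 1/8`. V_on, V_off. slb_seq: DT gives the sector condition eventually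
(`‖v - ‖v‖ θ‖ = ‖v‖ ‖v/‖v‖ - θ‖`). -/

set_option autoImplicit false

open Topology Filter Set Function

namespace TorD

theorem SLB_loc {ι : Type} (A : Fam ι) (i : ι) {z : ℂ} (hon : A.On i z) :
    ∃ t ∈ Icc (-1 : ℝ) 1, ∀ᶠ y in 𝓝 z, rd (y - A.q i) = t • A.u i + (y - z) := by
  obtain ⟨w, hw⟩ := A.On_loc i hon
  obtain ⟨t, ht, hx⟩ := (pj_fix (A.u i) (rd (z - A.q i))).1 hon
  have hy1 : rd (z - A.q i) = z - A.q i - lat w := hw.self_of_nhds
  have hy2 : z - A.q i - lat w = t • A.u i := by rw [← hy1, hx]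
  refine ⟨t, ht, ?_⟩
  filter_upwards [hw] with y hy
  rw [hy, ← hy2]
  ring

theorem SLB_sign {ι : Type} (A : Fam ι) (i : ι) {z θ : ℂ} (hθ : ‖θ‖ = 1) (h : A.al i z θ) :
    ∃ t τ : ℝ, t ∈ Icc (-1 : ℝ) 1 ∧ (τ = 1 ∧ t < 1 ∨ τ = -1 ∧ -1 < t) ∧ θ = τ • A.e i ∧
      ∀ᶠ y in 𝓝 z, rd (y - A.q i) = t • A.u i + (y - z) := by
  obtain ⟨hu, hon, hθe⟩ := A.al_dir i hθ h
  obtain ⟨t, ht, hloc⟩ := SLB_loc A i hon
  have hup : 0 < ‖A.u i‖ := norm_pos_iff.2 hu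
  have h1 : ∀ᶠ ε in 𝓝[>] (0 : ℝ), 0 < ε := self_mem_nhdsWithin
  have h' : ∀ᶠ ε in 𝓝[>] (0 : ℝ), A.On i (z + ε • θ) := h
  obtain ⟨ε, h2, h3, h4⟩ := (h1.and (h'.and ((Fam.AMA_ray z θ).eventually hloc))).exists
  obtain ⟨t', ht', hx'⟩ := (pj_fix (A.u i) (rd (z + ε • θ - A.q i))).1 h3
  rw [h4] at hx'
  have h5 : ε • θ = (t' - t) • A.u i := by
    rw [sub_smul, ← hx']
    ring
  have h6 : ε * ip θ (A.e i) = (t' - t) * ‖A.u i‖ := by
    have h7 := congrArg (fun x => ip x (A.e i)) h5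
    simp only [ip_smul_left] at h7
    rw [h7]
    congr 1
    conv_lhs => rw [A.AMA_u i hu]
    rw [ip_smul_left, ip_self, A.e_norm i hu]
    ring
  rcases hθe with he | he
  · refine ⟨t, 1, ht, Or.inl ⟨rfl, ?_⟩, by rw [one_smul]; exact he, hloc⟩
    rw [he, ip_self, A.e_norm i hu] at h6
    have h7 : 0 < t' - t := by
      by_contra hcon
      nlinarith
    linarith [ht'.2]
  · refine ⟨t, -1, ht, Or.inr ⟨rfl, ?_⟩, by rw [neg_smul, one_smul]; exact he, hloc⟩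
    have h8 : ip (-A.e i) (A.e i) = -1 := by
      have h9 : ip (-A.e i) (A.e i) = -ip (A.e i) (A.e i) := by
        unfold ip
        simp only [Complex.neg_re, Complex.neg_im]
        ring
      rw [h9, ip_self, A.e_norm i hu]
      ring
    rw [he, h8] at h6
    have h7 : t' - t < 0 := by
      by_contra hcon
      nlinarith
    linarith [ht'.1]

theorem SLB_diff {ι : Type} (A : Fam ι) (i : ι) (hu : A.u i ≠ 0) {t : ℝ} {v : ℂ}
    (h : |ip (t • A.u i + v) (A.u i)| ≤ ‖A.u i‖ ^ 2) :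
    t • A.u i + v - pj (A.u i) (t • A.u i + v) = dt (A.e i) v • A.nn i := by
  have hup : 0 < ‖A.u i‖ := norm_pos_iff.2 hu
  rw [pj_slab hu h, ip_add_left, ip_smul_left, ip_self]
  have h1 : (t * ‖A.u i‖ ^ 2 + ip v (A.u i)) / ‖A.u i‖ ^ 2 = t + ip v (A.u i) / ‖A.u i‖ ^ 2 := by
    field_simp
  have h2 : (ip v (A.u i) / ‖A.u i‖ ^ 2) • A.u i = ip v (A.e i) • A.e i := by
    conv_lhs => rw [A.AMA_u i hu]
    rw [ip_smul_right, norm_smul, norm_norm, A.e_norm i hu, mul_one, smul_smul]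
    congr 1
    field_simp
  have h3 := A.AMA_dec i hu v
  rw [h1, add_smul, h2, ← A.ip_nn i]
  have h4 : t • A.u i + v - (t • A.u i + ip v (A.e i) • A.e i) = v - ip v (A.e i) • A.e i := by ring
  rw [h4, sub_eq_iff_eq_add, add_comm]
  exact h3

theorem Fam.slb {ι : Type} (A : Fam ι) (i : ι) {z θ : ℂ} (hθ : ‖θ‖ = 1) (h : A.al i z θ) :
    ∃ η : ℝ, 0 < η ∧ ∀ v : ℂ, ‖v‖ < η → ‖v - ‖v‖ • θ‖ ≤ η * ‖v‖ →
      (A.On i (z + v) ↔ dt (A.e i) v = 0) ∧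
      ∀ s : ℝ, A.V i (z + v) s = lv (dt (A.e i) v) s • A.nn i := by
  obtain ⟨hu, hon, -⟩ := A.al_dir i hθ h
  obtain ⟨t, τ, ht, hτ, hθe, hloc⟩ := SLB_sign A i hθ h
  have hup : 0 < ‖A.u i‖ := norm_pos_iff.2 hu
  obtain ⟨r, hr0, hr⟩ := Metric.eventually_nhds_iff.1 hloc
  obtain ⟨g, hg0, hg⟩ : ∃ g : ℝ, 0 < g ∧ ∀ v : ℂ, ‖v‖ ≤ g → 0 ≤ ip v θ →
      |ip (t • A.u i + v) (A.u i)| ≤ ‖A.u i‖ ^ 2 := by
    have hvu : ∀ v : ℂ, ip v (A.u i) = ‖A.u i‖ * ip v (A.e i) := by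
      intro v
      conv_lhs => rw [A.AMA_u i hu]
      rw [ip_smul_right]
    have hab : ∀ v : ℂ, |ip v (A.e i)| ≤ ‖v‖ := by
      intro v
      have h1 := ip_le v (A.e i)
      have h2 := ip_ge v (A.e i)
      rw [A.e_norm i hu, mul_one] at h1 h2
      exact abs_le.2 ⟨h2, h1⟩
    rcases hτ with ⟨h1, h2⟩ | ⟨h1, h2⟩
    · refine ⟨(1 - t) * ‖A.u i‖, mul_pos (by linarith) hup, fun v hv hip => ?_⟩
      rw [hθe, h1, one_smul] at hip
      have h3 := (abs_le.1 (hab v)).2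
      rw [ip_add_left, ip_smul_left, ip_self, hvu]
      have h4 : ‖A.u i‖ * ip v (A.e i) ≤ ‖A.u i‖ * ((1 - t) * ‖A.u i‖) :=
        mul_le_mul_of_nonneg_left (h3.trans hv) hup.le
      have h5 : 0 ≤ ‖A.u i‖ * ip v (A.e i) := mul_nonneg hup.le hip
      have h6 : -1 * ‖A.u i‖ ^ 2 ≤ t * ‖A.u i‖ ^ 2 :=
        mul_le_mul_of_nonneg_right ht.1 (by positivity)
      refine abs_le.2 ⟨by linarith, ?_⟩
      nlinarith
    · refine ⟨(1 + t) * ‖A.u i‖, mul_pos (by linarith) hup, fun v hv hip => ?_⟩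
      rw [hθe, h1, neg_smul, one_smul] at hip
      have hip' : ip v (A.e i) ≤ 0 := by
        have h9 : ip v (-A.e i) = -ip v (A.e i) := by
          unfold ip
          simp only [Complex.neg_re, Complex.neg_im]
          ring
        rw [h9] at hip
        linarith
      have h3 := (abs_le.1 (hab v)).1
      rw [ip_add_left, ip_smul_left, ip_self, hvu]
      have h4 : ‖A.u i‖ * (-((1 + t) * ‖A.u i‖)) ≤ ‖A.u i‖ * ip v (A.e i) :=
        mul_le_mul_of_nonneg_left (by linarith) hup.le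
      have h5 : ‖A.u i‖ * ip v (A.e i) ≤ 0 := mul_nonpos_of_nonneg_of_nonpos hup.le hip'
      have h6 : t * ‖A.u i‖ ^ 2 ≤ 1 * ‖A.u i‖ ^ 2 :=
        mul_le_mul_of_nonneg_right ht.2 (by positivity)
      refine abs_le.2 ⟨?_, by linarith⟩
      nlinarith
  obtain ⟨η, hη⟩ : ∃ η : ℝ, η = min (min r g) (1 / 8) := ⟨_, rfl⟩
  have hη1 : η ≤ r := by rw [hη]; exact (min_le_left _ _).trans (min_le_left _ _)
  have hη2 : η ≤ g := by rw [hη]; exact (min_le_left _ _).trans (min_le_right _ _)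
  have hη3 : η ≤ 1 / 8 := by rw [hη]; exact min_le_right _ _
  have hη0 : 0 < η := by rw [hη]; exact lt_min (lt_min hr0 hg0) (by norm_num)
  refine ⟨η, hη0, fun v hv hsec => ?_⟩
  have hrd : rd (z + v - A.q i) = t • A.u i + v := by
    have h1 := hr (y := z + v) (by rw [dist_eq_norm, add_sub_cancel_left]; exact hv.trans_le hη1)
    rw [h1, add_sub_cancel_left]
  have hip : 0 ≤ ip v θ := by
    have h1 : ip v θ = ‖v‖ * ip θ θ + ip (v - ‖v‖ • θ) θ := by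
      rw [ip_sub_left, ip_smul_left]
      ring
    rw [h1, ip_self, hθ]
    have h2 := ip_ge (v - ‖v‖ • θ) θ
    rw [hθ, mul_one] at h2
    have h3 : η * ‖v‖ ≤ 1 / 8 * ‖v‖ := mul_le_mul_of_nonneg_right hη3 (norm_nonneg v)
    have h4 := norm_nonneg v
    linarith
  have hdiff := SLB_diff A i hu (hg v (hv.le.trans hη2) hip)
  have hnn : ‖A.nn i‖ = 1 := A.nn_norm i hu
  have hnorm : ‖t • A.u i + v - pj (A.u i) (t • A.u i + v)‖ = |dt (A.e i) v| := by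
    rw [hdiff, norm_smul, hnn, mul_one, Real.norm_eq_abs]
  have hOn : A.On i (z + v) ↔ dt (A.e i) v = 0 := by
    unfold Fam.On
    rw [hrd, ← sub_eq_zero, ← norm_eq_zero, hnorm, abs_eq_zero]
  refine ⟨hOn, fun s => ?_⟩
  by_cases h0 : dt (A.e i) v = 0
  · rw [A.V_on i (hOn.2 h0)]
    unfold lv
    rw [if_pos h0]
  · rw [A.V_off i (fun h1 => h0 (hOn.1 h1))]
    unfold Fam.sel sel0 lv
    rw [if_neg h0, hrd, hnorm, hdiff]
    have h1 : |dt (A.e i) v| ≤ 1 / 8 := by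
      rw [← A.ip_nn i]
      have h2 := ip_le v (A.nn i)
      have h3 := ip_ge v (A.nn i)
      rw [hnn, mul_one] at h2 h3
      exact (abs_le.2 ⟨h3, h2⟩).trans (hv.le.trans hη3)
    rw [max_eq_right (by linarith), smul_smul]
    congr 1
    ring

theorem Fam.slb_seq {ι : Type} (A : Fam ι) (i : ι) {z θ : ℂ} (hθ : ‖θ‖ = 1) (h : A.al i z θ)
    {ys : ℕ → ℂ} (hd : DT ys z θ) : ∀ᶠ n in atTop, (A.On i (ys n) ↔ dt (A.e i) (ys n - z) = 0) ∧
      ∀ s : ℝ, A.V i (ys n) s = lv (dt (A.e i) (ys n - z)) s • A.nn i := by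
  obtain ⟨η, hη0, hη⟩ := A.slb i hθ h
  obtain ⟨h1, h2, h3⟩ := hd
  have e1 := Metric.tendsto_nhds.1 h1 η hη0
  have e2 := Metric.tendsto_nhds.1 h3 η hη0
  filter_upwards [e1, e2] with n a1 a2
  rw [dist_eq_norm] at a1 a2
  have hz : z + (ys n - z) = ys n := by ring
  have h4 : 0 < ‖ys n - z‖ := norm_pos_iff.2 (sub_ne_zero.2 (h2 n))
  have h5 : ys n - z - ‖ys n - z‖ • θ = ‖ys n - z‖ • ((‖ys n - z‖⁻¹ : ℝ) • (ys n - z) - θ) := by
    rw [smul_sub, smul_smul, mul_inv_cancel₀ h4.ne', one_smul]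
  have h6 := hη (ys n - z) a1 (by
    rw [h5, norm_smul, norm_norm, mul_comm]
    exact mul_le_mul_of_nonneg_right a2.le h4.le)
  rw [hz] at h6
  exact h6

/-- near a point of a piece but off the piece the values have norm close to 1 -/
theorem Fam.V_norm {ι : Type} (A : Fam ι) (i : ι) {z : ℂ} (h : A.On i z) {ys : ℕ → ℂ}
    (hy : Tendsto ys atTop (𝓝 z)) (hoff : ∀ n, ¬ A.On i (ys n)) :
    Tendsto (fun n => ‖A.sel i (ys n)‖) atTop (𝓝 1) := by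
  obtain ⟨t, ht, hloc⟩ := SLB_loc A i h
  have h0 : t • A.u i = pj (A.u i) (t • A.u i) := (pj_fix _ _).2 ⟨t, ht, rfl⟩
  have h1 : Tendsto (fun n => t • A.u i + (ys n - z)) atTop (𝓝 (t • A.u i)) := by
    have h2 : Continuous fun y : ℂ => t • A.u i + (y - z) :=
      continuous_const.add (continuous_id.sub continuous_const)
    have h3 := (h2.tendsto z).comp hy
    rw [sub_self, add_zero] at h3
    exact h3
  have h2 : Tendsto (fun n => max 0 (1 - 8 * ‖t • A.u i + (ys n - z) -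
      pj (A.u i) (t • A.u i + (ys n - z))‖)) atTop (𝓝 1) := by
    have h3 : Continuous fun x : ℂ => max 0 (1 - 8 * ‖x - pj (A.u i) x‖) :=
      continuous_const.max (continuous_const.sub (continuous_const.mul
        (continuous_id.sub (pj_cont _)).norm))
    have h4 := (h3.tendsto (t • A.u i)).comp h1
    have h5 : max 0 (1 - 8 * ‖t • A.u i - pj (A.u i) (t • A.u i)‖) = 1 := by
      rw [← h0, sub_self, norm_zero, mul_zero, sub_zero]
      exact max_eq_right zero_le_one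
    rw [h5] at h4
    exact h4
  refine h2.congr' ?_
  filter_upwards [hy.eventually hloc] with n hn
  have h3 : rd (ys n - A.q i) ≠ pj (A.u i) (rd (ys n - A.q i)) := hoff n
  show _ = ‖sel0 (A.u i) (rd (ys n - A.q i))‖
  rw [SGB_sel_norm h3, hn]

end TorD
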