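import Pool.Agent.H51.TD.CUA
import Pool.Agent.H51.TD.SLB
import Pool.Agent.H51.TD.DRC
import Pool.Agent.H51.TD.FIB

/-! # BDY: the points of `M`

PROOF. P_lim: lim_V and pt_tendsto (V_mem, D_norm). h_P: W_mem, h_pt. P_lat, K_lat, M_lat: D_lat/V_lat/On_lat, pt_lat, h_lat (translation by `lat w` is a homeomorphism mapping `K y` to `K (y + lat w)`).
P_M: every `q ∈ K z` is `pt z v` with a code `v` (K_eq), `ip (P z θ s - q) θ = ∑ c i * ip (W i - v i) θ ≥ 0` (W_max, ip_tsum); if `P z θ s` were interior to `K z`, `P z θ s + δ θ ∈ K z` for small `δ > 0`,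
contradiction. Pi_M: K_thin (`h (Pi y s) = y`, h_Pi). M_closed: the complement is the union of the open sets `interior (K y)` (if `q ∈ interior (K (h p))` then `h q = h p`).
M_dir: let `vs n` be codes of `h (qs n)` with `qs n = pt (h (qs n)) (vs n)` (h_code); h_limit gives a subsequence `vs → v`, `v` code of `h p`, `p = pt (h p) v`; `mx` along the subsequence (DT.comp): `v i` maximises `θ`;
max_or: `v = W(θ, s)`. M_P: `p ∉ interior (K (h p))`: there are `qs → p` with `h (qs n) ≠ h p`; `h (qs n) → h p` (h_cont); DT.subseq; M_dir. M_dense: if `h p ∉ Rat2` use K_irr. Otherwise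
M_P, P_lim and ray_irr (Frequently.and_eventually). -/

set_option autoImplicit false

open Topology Filter Set Function

namespace TorD

variable {ι : Type} [Countable ι] (A : Arr ι)

omit [Countable ι] in
theorem BDY_W_lat (i : ι) (z θ : ℂ) (s : ℝ) (w : ℤ × ℤ) :
    A.W i (z + lat w) θ s = A.W i z θ s := by
  unfold Fam.W
  congr 1
  funext ε
  have e : z + lat w + ε • θ = z + ε • θ + lat w := by ring
  rw [e, A.V_lat i]

theorem Arr.P_lim (z : ℂ) {θ : ℂ} (hθ : ‖θ‖ = 1) {s : ℝ} (hs : |s| ≤ 1) :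
    Tendsto (fun ε : ℝ => A.Pi (z + ε • θ) s) (𝓝[>] 0) (𝓝 (A.P z θ s)) := by
  have hy : Tendsto (fun ε : ℝ => z + ε • θ) (𝓝[>] 0) (𝓝 z) := by
    have h1 : Continuous (fun ε : ℝ => z + ε • θ) := by fun_prop
    have h2 : Tendsto (fun ε : ℝ => z + ε • θ) (𝓝 0) (𝓝 (z + (0 : ℝ) • θ)) := h1.tendsto 0
    rw [zero_smul, add_zero] at h2
    exact h2.mono_left nhdsWithin_le_nhds
  exact A.pt_tendsto hy (fun i => A.lim_V i z hθ hs)
    (Eventually.of_forall fun ε i => A.D_norm i (A.V_mem i _ hs))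

theorem Arr.h_P (z : ℂ) {θ : ℂ} (hθ : ‖θ‖ = 1) {s : ℝ} (hs : |s| ≤ 1) : A.h (A.P z θ s) = z := by
  exact A.h_pt (fun i => A.W_mem i z hθ hs)

theorem Arr.P_lat (z θ : ℂ) (s : ℝ) (w : ℤ × ℤ) : A.P (z + lat w) θ s = A.P z θ s + lat w := by
  unfold Fam.P
  rw [A.pt_lat]
  congr 2
  funext i
  exact BDY_W_lat A i z θ s w

theorem Arr.K_lat (z : ℂ) (w : ℤ × ℤ) : A.K (z + lat w) = (fun p => p + lat w) '' A.K z := by
  ext p
  constructor
  · intro hp
    have h : A.h p = z + lat w := hp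
    refine ⟨p + lat (-w), ?_, ?_⟩
    · show A.h (p + lat (-w)) = z
      rw [A.h_lat, h, lat_neg]
      ring
    · show p + lat (-w) + lat w = p
      rw [lat_neg]
      ring
  · rintro ⟨q, hq, rfl⟩
    have h : A.h q = z := hq
    show A.h (q + lat w) = z + lat w
    rw [A.h_lat, h]

theorem Arr.M_lat (p : ℂ) (w : ℤ × ℤ) : p + lat w ∈ A.M ↔ p ∈ A.M := by
  have h1 : (fun p : ℂ => p + lat w) '' A.K (A.h p) = A.K (A.h (p + lat w)) := by
    rw [A.h_lat, A.K_lat]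
  have h2 : interior (A.K (A.h (p + lat w))) = (fun p : ℂ => p + lat w) '' interior (A.K (A.h p)) := by
    rw [← h1]
    exact ((Homeomorph.addRight (lat w)).image_interior (A.K (A.h p))).symm
  show ¬ (p + lat w ∈ interior (A.K (A.h (p + lat w)))) ↔ ¬ (p ∈ interior (A.K (A.h p)))
  rw [h2]
  refine not_congr ⟨?_, fun h => ⟨p, h, rfl⟩⟩
  rintro ⟨q, hq, he⟩
  have : q = p := add_right_cancel he
  rwa [this] at hq

theorem Arr.m_lat (z : ℂ) (w : ℤ × ℤ) : A.m (z + lat w) = A.m z + lat w := by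
  unfold Fam.m
  rw [A.pt_lat]
  congr 2
  funext i
  exact A.sel_lat i z w

theorem Arr.P_M (z : ℂ) {θ : ℂ} (hθ : ‖θ‖ = 1) {s : ℝ} (hs : |s| ≤ 1) : A.P z θ s ∈ A.M := by
  show ¬ (A.P z θ s ∈ interior (A.K (A.h (A.P z θ s))))
  rw [A.h_P z hθ hs]
  intro hin
  rw [mem_interior_iff_mem_nhds, Metric.mem_nhds_iff] at hin
  obtain ⟨δ, hδ, hsub⟩ := hin
  have hq : A.P z θ s + (δ / 2) • θ ∈ A.K z := by
    apply hsub
    rw [Metric.mem_ball, dist_eq_norm, add_sub_cancel_left, norm_smul, hθ, mul_one,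
      Real.norm_of_nonneg (by linarith)]
    linarith
  have hq' : A.P z θ s + (δ / 2) • θ ∈ {p | ∃ v, A.code z v ∧ p = A.pt z v} := by
    rw [← A.K_eq]
    exact hq
  obtain ⟨v, hv, he⟩ := hq'
  have n1 : ∀ i, ‖A.W i z θ s‖ ≤ 1 := fun i => A.D_norm i (A.W_mem i z hθ hs)
  have n2 : ∀ i, ‖v i‖ ≤ 1 := fun i => A.D_norm i (hv i)
  have e1 : A.P z θ s - (A.P z θ s + (δ / 2) • θ) = ∑' i, A.c i • (A.W i z θ s - v i) := by
    rw [he]
    have := A.pt_sub (y := z) (y' := z) n1 n2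
    rw [sub_self, zero_add] at this
    exact this
  have e2 := (A.ip_tsum (v := fun i => A.W i z θ s - v i) (b := 2) (fun i => by
    have h1 := norm_sub_le (A.W i z θ s) (v i)
    have h2 := n1 i
    have h3 := n2 i
    show ‖A.W i z θ s - v i‖ ≤ 2
    linarith) θ).2
  rw [← e1] at e2
  have e3 : ip (A.P z θ s - (A.P z θ s + (δ / 2) • θ)) θ = -(δ / 2) := by
    have : A.P z θ s - (A.P z θ s + (δ / 2) • θ) = (-(δ / 2)) • θ := by
      rw [neg_smul]; ring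
    rw [this, ip_smul_left, ip_self, hθ]
    ring
  rw [e3] at e2
  have e4 : 0 ≤ ∑' i, A.c i * ip (A.W i z θ s - v i) θ := by
    refine tsum_nonneg fun i => mul_nonneg (A.cpos i).le ?_
    rw [ip_sub_left]
    have := A.W_max i z hθ hs (hv i)
    linarith
  rw [← e2] at e4
  linarith

theorem Arr.Pi_M {y : ℂ} (hy : y ∉ Rat2) {s : ℝ} (hs : |s| ≤ 1) : A.Pi y s ∈ A.M := by
  show ¬ (A.Pi y s ∈ interior (A.K (A.h (A.Pi y s))))
  rw [A.h_Pi y hs]
  have h : interior (A.K y) = ∅ := A.K_thin hy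
  rw [h]
  exact notMem_empty _

theorem Arr.M_closed : IsClosed A.M := by
  rw [← isOpen_compl_iff, isOpen_iff_mem_nhds]
  intro p hp
  have hp' : p ∈ interior (A.K (A.h p)) := not_not.1 hp
  refine Filter.mem_of_superset (isOpen_interior.mem_nhds hp') ?_
  intro q hq hqM
  have h0 : q ∈ A.K (A.h p) := interior_subset hq
  have h1 : A.h q = A.h p := h0
  refine hqM ?_
  rw [h1]
  exact hq

theorem Arr.M_dir {p θ : ℂ} {qs : ℕ → ℂ} (hq : Tendsto qs atTop (𝓝 p))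
    (hd : DT (fun n => A.h (qs n)) (A.h p) θ) : ∃ s : ℝ, |s| ≤ 1 ∧ p = A.P (A.h p) θ s := by
  choose vs hvs using fun n => A.h_code (qs n)
  obtain ⟨v, k, hk, hcode, hpt, hlim⟩ := A.h_limit (ys := fun n => A.h (qs n)) (ps := qs) (vs := vs)
    (fun n => (hvs n).1) (fun n => (hvs n).2) hq
  obtain ⟨d1, d2, d3⟩ := hd.comp hk
  have hmx : ∀ i, ∀ w ∈ A.D i (A.h p), ip w θ ≤ ip (v i) θ := fun i =>
    (A.mx i (y := A.h p) (v := v i) (θ := θ) (ys := fun n => A.h (qs (k n)))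
      (vs := fun n => vs (k n) i) d1 d2 d3 (hlim i) (fun n => (hvs (k n)).1 i)).2
  obtain ⟨s, hs, hvW⟩ := A.max_or hd.norm hcode hmx
  refine ⟨s, hs, ?_⟩
  have e : v = fun i => A.W i (A.h p) θ s := funext hvW
  conv_lhs => rw [hpt, e]
  rfl

theorem Arr.M_P {p : ℂ} (hp : p ∈ A.M) :
    ∃ (θ : ℂ) (s : ℝ), ‖θ‖ = 1 ∧ |s| ≤ 1 ∧ p = A.P (A.h p) θ s := by
  have h1 : p ∈ closure (A.K (A.h p))ᶜ := by
    rw [closure_compl]
    exact hp
  obtain ⟨qs, hqs, hlim⟩ := mem_closure_iff_seq_limit.1 h1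
  have h2 : Tendsto (fun n => A.h (qs n)) atTop (𝓝 (A.h p)) :=
    (A.h_cont.tendsto p).comp hlim
  obtain ⟨θ, k, hk, hd⟩ := DT.subseq h2 (fun n => hqs n)
  obtain ⟨s, hs, he⟩ := A.M_dir (qs := fun n => qs (k n)) (hlim.comp hk.tendsto_atTop) hd
  exact ⟨θ, s, hd.norm, hs, he⟩

theorem Arr.M_dense {p : ℂ} (hp : p ∈ A.M) {ε : ℝ} (hε : 0 < ε) :
    ∃ (y : ℂ) (s : ℝ), y ∉ Rat2 ∧ |s| ≤ 1 ∧ ‖A.Pi y s - p‖ < ε := by
  obtain ⟨θ, s, hθ, hs, he⟩ := A.M_P hp
  have h1 := A.P_lim (A.h p) hθ hs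
  rw [← he] at h1
  have h2 : ∀ᶠ δ in 𝓝[>] (0 : ℝ), ‖A.Pi (A.h p + δ • θ) s - p‖ < ε := by
    have h3 := h1 (Metric.ball_mem_nhds p hε)
    filter_upwards [h3] with δ hδ
    have h4 : A.Pi (A.h p + δ • θ) s ∈ Metric.ball p ε := hδ
    rwa [Metric.mem_ball, dist_eq_norm] at h4
  obtain ⟨δ, h5, h6⟩ := ((ray_irr (A.h p) (CUA_ne hθ)).and_eventually h2).exists
  exact ⟨_, s, h5, hs, h6⟩

end TorD
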