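import Pool.Agent.H51.TD.SLB
import Pool.Agent.H51.TD.FIB

/-! # BND: the band over the vertical line

PROOF. `y = √2 I`, `y ∉ Rat2` (`irrational_sqrt_two`). S.line: `k` with `u k ≠ 0`, `(u k).re = 0`, `k` on `y`. `p = Pi y 0`, `h p = y` (h_Pi). Suppose `p` is not in the interior of `{(h p).re = 0}`: there are `qs → p` with
`(h (qs n)).re ≠ 0`, `h (qs n) → y`. Near `y` (On_loc) `On k y'` implies `y' = q + lat w + t u` and `y = q + lat w + t₀ u`, so `y'.re = y.re = 0`: so eventually `h (qs n)` is not on `k`; pass to a tail.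
Codes `vs n` of `h (qs n)` (h_code): `vs n k = sel k (h (qs n))` (D_single), `‖vs n k‖ → 1` (V_norm). h_limit: a subsequence converges to a code `v` of `y` with `p = pt y v`; `‖v k‖ = 1`. By on_irr and D_edge
`v k = σ • nn k`, and the other pieces are off `y` (A.one), `v i = sel i y` (D_single), so `p = Pi y σ`; Pi_inj with `p = Pi y 0`: `σ = 0`, contradiction. -/

set_option autoImplicit false

open Topology Filter Set Function

namespace TorD

theorem BND_irr : ((Real.sqrt 2 : ℝ) : ℂ) * Complex.I ∉ Rat2 := by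
  rintro ⟨a, b, h⟩
  have h1 := congrArg Complex.im h
  simp only [Complex.mul_im, Complex.ofReal_re, Complex.ofReal_im, Complex.I_re, Complex.I_im,
    mul_one, mul_zero, add_zero] at h1
  exact irrational_sqrt_two ⟨b, h1.symm⟩

/-- near a point of a vertical edge the points of the edge have the same real part -/
theorem BND_off {ι : Type} (A : Fam ι) (k : ι) {y : ℂ} (hon : A.On k y) (hu : (A.u k).re = 0) :
    ∀ᶠ y' in 𝓝 y, A.On k y' → y'.re = y.re := by
  obtain ⟨t, _, hloc⟩ := SLB_loc A k hon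
  filter_upwards [hloc] with y' hy' h
  obtain ⟨t', _, hx⟩ := (pj_fix (A.u k) (rd (y' - A.q k))).1 h
  rw [hy'] at hx
  have h1 := congrArg Complex.re hx
  simp only [Complex.add_re, Complex.smul_re, Complex.sub_re, smul_eq_mul, hu, mul_zero] at h1
  linarith

theorem BND_contra {ι : Type} [Countable ι] (A : Arr ι) {y : ℂ} (hy : y ∉ Rat2) {k : ι}
    (hon : A.On k y) {qs : ℕ → ℂ} (hq : Tendsto qs atTop (𝓝 (A.Pi y 0)))
    (hoff : ∀ n, ¬ A.On k (A.h (qs n))) : False := by
  have h0 : |(0 : ℝ)| ≤ 1 := by simp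
  have hhy : A.h (A.Pi y 0) = y := A.h_Pi y h0
  have hlim : Tendsto (fun n => A.h (qs n)) atTop (𝓝 y) := by
    have h1 := (A.h_cont.tendsto (A.Pi y 0)).comp hq
    rw [hhy] at h1
    exact h1
  choose vs hvs hps using fun n => A.h_code (qs n)
  have hvk : ∀ n, vs n k = A.sel k (A.h (qs n)) := by
    intro n
    have h1 := hvs n k
    rw [A.D_single k (hoff n)] at h1
    exact h1
  have hnorm := A.V_norm k hon hlim hoff
  obtain ⟨v, κ, hκ, hcode, hpt, hv⟩ := A.h_limit hvs hps hq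
  rw [hhy] at hcode hpt
  have h1 : ‖v k‖ = 1 := by
    have h2 : Tendsto (fun n => ‖vs (κ n) k‖) atTop (𝓝 ‖v k‖) := (hv k).norm
    have h3 : Tendsto (fun n => ‖vs (κ n) k‖) atTop (𝓝 1) := by
      have h4 := hnorm.comp hκ.tendsto_atTop
      refine h4.congr fun n => ?_
      show ‖A.sel k (A.h (qs (κ n)))‖ = ‖vs (κ n) k‖
      rw [hvk]
    exact tendsto_nhds_unique h2 h3
  obtain ⟨hu, hlt⟩ := A.on_irr hy hon
  obtain ⟨σ, hσ, hvσ⟩ := A.D_edge k hu hon hlt (hcode k)
  have hall : v = fun i => A.V i y σ := by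
    funext i
    by_cases hi : A.On i y
    · have h5 : i = k := A.one y hy i k hi hon
      subst h5
      rw [A.V_on i hi, hvσ]
    · rw [A.V_off i hi]
      have h5 := hcode i
      rw [A.D_single i hi] at h5
      exact h5
  have hP : A.Pi y σ = A.Pi y 0 := by
    rw [hpt, hall]
    rfl
  have h6 := (A.Pi_inj hσ h0 hy hP).2 k hon
  rw [hvσ, h6, zero_smul, norm_zero] at h1
  exact zero_ne_one h1

theorem Sys.bnd {ι : Type} [Countable ι] (S : Sys ι) :
    ∃ p ∈ interior {p | (S.h p).re = 0}, S.h p ∉ Rat2 := by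
  obtain ⟨k, hu, hure, hon⟩ := S.line (Real.sqrt 2)
  have hy := BND_irr
  obtain ⟨y, hydef⟩ : ∃ y : ℂ, y = ((Real.sqrt 2 : ℝ) : ℂ) * Complex.I := ⟨_, rfl⟩
  rw [← hydef] at hon hy
  have hyre : y.re = 0 := by
    rw [hydef]
    simp
  have hhy : S.h (S.toArr.Pi y 0) = y := S.toArr.h_Pi y (by simp)
  refine ⟨S.toArr.Pi y 0, ?_, by rw [hhy]; exact hy⟩
  by_contra hcon
  have hcl : S.toArr.Pi y 0 ∈ closure {p | (S.h p).re = 0}ᶜ := by
    rw [closure_compl]
    exact hcon
  obtain ⟨qs, hqs, hlim⟩ := mem_closure_iff_seq_limit.1 hcl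
  have hlim2 : Tendsto (fun n => S.toArr.h (qs n)) atTop (𝓝 y) := by
    have h1 := (S.toArr.h_cont.tendsto (S.toArr.Pi y 0)).comp hlim
    rw [hhy] at h1
    exact h1
  have hev := hlim2.eventually (BND_off S.toFam k hon hure)
  obtain ⟨N, hN⟩ := eventually_atTop.1 hev
  refine BND_contra S.toArr hy hon (qs := fun n => qs (n + N))
    (hlim.comp (tendsto_add_atTop_nat N)) fun n hn => ?_
  have h2 := hN (n + N) (Nat.le_add_left N n) hn
  rw [hyre] at h2
  exact hqs (n + N) h2

end TorD
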