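import Pool.Agent.H51.TD.FIB
import Pool.Agent.H51.TD.Int2

/-! # DEN: the interiors of the rational fibres are dense

PROOF. First: there is `q ∈ U` with `h q ∈ Rat2`. Let `p ∈ U`, `y = h p ∉ Rat2`, `p = Pi y s` (K_irr).
(a) No piece is on `y`: take rational `z n → y` (rat2_dense); `sel i` is continuous at `y` for all `i` (sel_cont), so `m (z n) → pt y sel = Pi y s = p` (pt_tendsto, V_off), and `h (m (z n)) = z n` (h_m).
(b) `k` is on `y`: `u k ≠ 0` and `y = q k + t • u k + lat w`, `|t| < 1` (on_irr, On_loc or On_iff; if `|t| = 1` then `y` would be rational by A.rat). Take rational `t n → (1+t)/2` in `(0,1)` and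
`z n = (q k - u k) + t n • ((q k + u k) - (q k - u k)) + lat w`: rational (A.rat, rat2_lat), on `k` (On_iff), `z n → y`. `V k (z n) s = s • nn k = V k y s`; for `i ≠ k`, `y` is not on `i` (A.one), so eventually `z n` is not on
`i` (On_closed) and `V i (z n) s = sel i (z n) → sel i y = V i y s`. So `Pi (z n) s → Pi y s = p` and `h (Pi (z n) s) = z n` (h_Pi).
Second: `q ∈ U ∩ K z`, `z ∈ Rat2`; `K z` is convex with nonempty interior (K_ball), so `K z ⊆ closure (interior (K z))` (`Convex.closure_interior_eq_closure_of_nonempty_interior`), and `U` is an open neighbourhood of `q`. -/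

set_option autoImplicit false

open Topology Filter Set Function

namespace TorD

theorem DEN_seq {ι : Type} (A : Arr ι) {y : ℂ} (hy : y ∉ Rat2) :
    ∃ zs : ℕ → ℂ, (∀ n, zs n ∈ Rat2) ∧ Tendsto zs atTop (𝓝 y) ∧
      ∀ k, A.On k y → ∀ᶠ n in atTop, A.On k (zs n) := by
  by_cases h : ∃ k, A.On k y
  · obtain ⟨k, hk⟩ := h
    obtain ⟨w, t0, ht0, hy0⟩ := (A.On_iff k y).1 hk
    obtain ⟨hr1, hr2⟩ := A.rat k
    have h1 : t0 ≠ 1 := by
      intro h
      apply hy
      rw [hy0, h, one_smul, rat2_lat]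
      exact hr2
    have h2 : t0 ≠ -1 := by
      intro h
      apply hy
      rw [hy0, h, rat2_lat]
      have : A.q k + (-1 : ℝ) • A.u k = A.q k - A.u k := by rw [neg_smul, one_smul]; ring
      rw [this]
      exact hr1
    have h3 : -1 < t0 := lt_of_le_of_ne ht0.1 (Ne.symm h2)
    have h4 : t0 < 1 := lt_of_le_of_ne ht0.2 h1
    have hd : (1 + t0) / 2 ∈ closure (Set.range ((↑) : ℚ → ℝ)) := Rat.denseRange_cast _
    obtain ⟨rs, hrs, hlim⟩ := mem_closure_iff_seq_limit.1 hd
    have hlim2 : Tendsto (fun n => 2 * rs n - 1) atTop (𝓝 t0) := by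
      have e := (hlim.const_mul 2).sub_const 1
      have e2 : 2 * ((1 + t0) / 2) - 1 = t0 := by ring
      rw [e2] at e
      exact e
    have hz : Tendsto (fun n => A.q k + (2 * rs n - 1) • A.u k + lat w) atTop (𝓝 y) := by
      have e := ((hlim2.smul_const (A.u k)).const_add (A.q k)).add_const (lat w)
      rw [← hy0] at e
      exact e
    refine ⟨fun n => A.q k + (2 * rs n - 1) • A.u k + lat w, fun n => ?_, hz, fun i hi => ?_⟩
    · obtain ⟨r, hr⟩ := hrs n
      rw [rat2_lat]
      obtain ⟨a, b, hab⟩ := hr1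
      obtain ⟨a', b', hab'⟩ := hr2
      refine ⟨(1 - r) * a + r * a', (1 - r) * b + r * b', ?_⟩
      have e1 : A.q k + (2 * rs n - 1) • A.u k =
          (1 - rs n) • (A.q k - A.u k) + rs n • (A.q k + A.u k) := by
        rw [smul_sub, smul_add, sub_smul, sub_smul, sub_smul, two_mul, add_smul, one_smul,
          one_smul]
        ring
      rw [e1, hab, hab', ← hr]
      apply Complex.ext
      · simp only [Complex.add_re, Complex.smul_re, smul_eq_mul]
        push_cast
        ring
      · simp only [Complex.add_im, Complex.smul_im, smul_eq_mul]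
        push_cast
        ring
    · have hik : i = k := A.one y hy i k hi hk
      subst hik
      have ev : ∀ᶠ n in atTop, 2 * rs n - 1 ∈ Set.Ioo (-1 : ℝ) 1 :=
        hlim2.eventually (Ioo_mem_nhds h3 h4)
      filter_upwards [ev] with n hn
      rw [A.On_iff]
      exact ⟨w, _, ⟨hn.1.le, hn.2.le⟩, rfl⟩
  · have hcl : y ∈ closure Rat2 := rat2_dense y
    obtain ⟨zs, hzs, hlim⟩ := mem_closure_iff_seq_limit.1 hcl
    exact ⟨zs, hzs, hlim, fun k hk => absurd ⟨k, hk⟩ h⟩

theorem DEN_lim {ι : Type} [Countable ι] (A : Arr ι) {y : ℂ} {s : ℝ} (hs : |s| ≤ 1)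
    {zs : ℕ → ℂ} (hl : Tendsto zs atTop (𝓝 y))
    (hon : ∀ k, A.On k y → ∀ᶠ n in atTop, A.On k (zs n)) :
    Tendsto (fun n => A.Pi (zs n) s) atTop (𝓝 (A.Pi y s)) := by
  unfold Fam.Pi
  refine A.pt_tendsto hl (fun i => ?_) (Eventually.of_forall fun n i => ?_)
  · by_cases h : A.On i y
    · rw [A.V_on i h]
      refine tendsto_const_nhds.congr' ?_
      filter_upwards [hon i h] with n hn
      rw [A.V_on i hn]
    · rw [A.V_off i h]
      have h1 : Tendsto (fun n => A.sel i (zs n)) atTop (𝓝 (A.sel i y)) :=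
        (A.sel_cont i h).tendsto.comp hl
      refine h1.congr' ?_
      have ho : IsOpen {y | A.On i y}ᶜ := (A.On_closed i).isOpen_compl
      have hm : ∀ᶠ n in atTop, zs n ∈ {y | A.On i y}ᶜ := hl.eventually (ho.mem_nhds h)
      filter_upwards [hm] with n hn
      exact (A.V_off i hn s).symm
  · exact A.D_norm i (A.V_mem i _ hs)

theorem Arr.den {ι : Type} [Countable ι] (A : Arr ι) {U : Set ℂ} (hU : IsOpen U)
    (hne : U.Nonempty) : ∃ z ∈ Rat2, (U ∩ interior (A.K z)).Nonempty := by
  have key : ∃ q ∈ U, A.h q ∈ Rat2 := by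
    obtain ⟨p, hp⟩ := hne
    by_cases hy : A.h p ∈ Rat2
    · exact ⟨p, hp, hy⟩
    · obtain ⟨s, hs, hps⟩ := A.K_irr hy
      obtain ⟨zs, hzs, hl, hon⟩ := DEN_seq A hy
      have ht := DEN_lim A hs hl hon
      rw [← hps] at ht
      obtain ⟨n, hn⟩ := (ht.eventually (hU.mem_nhds hp)).exists
      refine ⟨A.Pi (zs n) s, hn, ?_⟩
      rw [A.h_Pi _ hs]
      exact hzs n
  obtain ⟨q, hqU, hq⟩ := key
  refine ⟨A.h q, hq, ?_⟩
  have hK : A.K (A.h q) = {p | A.h p = A.h q} := rfl
  obtain ⟨r, hr, hb⟩ := A.K_ball hq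
  have hconv : Convex ℝ (A.K (A.h q)) := by
    rw [hK]
    exact A.K_convex _
  have hint : (interior (A.K (A.h q))).Nonempty := by
    refine ⟨A.m (A.h q), ?_⟩
    rw [mem_interior_iff_mem_nhds]
    exact Filter.mem_of_superset (Metric.ball_mem_nhds _ hr) hb
  have hcl := hconv.closure_interior_eq_closure_of_nonempty_interior hint
  have hmem : q ∈ closure (interior (A.K (A.h q))) := by
    rw [hcl]
    apply subset_closure
    rw [hK]
    rfl
  exact mem_closure_iff.1 hmem U hU hqU

end TorD
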