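import Pool.Agent.H51.TD.BDY

/-! # NPR: periodic points in the band

PROOF. `y = h p`, `y.re = 0`, `y = t I`. `h (f^[n] p) = φ^[n] y`, so `φ^[n] y = y + lat w` (h_lat), its real part is the integer `w.1`; S.lrat: `y ∈ Rat2`. Suppose `p` is not in the interior of `K y`, i.e. `p ∈ M`. There are
`qs → p` with `h (qs n) ≠ y` and `qs n` in the open set `interior {(h p).re = 0}`, so `h (qs n) - y` is a nonzero multiple of `I`; pass to a subsequence with a direction (DT.subseq, `h (qs n) → y` by h_cont):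
`θ` with `θ.re = 0`, `‖θ‖ = 1`. M_dir: `p = P y θ s`. Let `θ_0 = θ`, `Dr φ (φ^[j] y) θ_j θ_(j+1)` (Dr_exists); induction with B.fP, B.fM, hM: `f^[j] p = P (φ^[j] y) θ_j s ∈ M` and `Dr (φ^[j]) y θ θ_j` (Dr_comp). So
`P (y + lat w) θ_n s = p + lat w = P (y + lat w) θ s` (P_lat); P_inj: `θ_n = θ`. So `φ^[n] (y + ε θ) = φ^[n] y + (ε r) θ` for small `ε > 0`, with real part `w.1` (`θ.re = 0`); and `y + ε θ = (t ± ε) I`, so by S.lrat
`y + ε θ ∈ Rat2` for all small `ε > 0`: contradiction to ray_irr. -/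

set_option autoImplicit false

open Topology Filter Set Function

namespace TorD

private theorem NPR_im {z : ℂ} (h : z.re = 0) : z = (z.im : ℂ) * Complex.I := by
  apply Complex.ext
  · simp [h]
  · simp

private theorem NPR_ind {ι : Type} [Countable ι] (S : Sys ι) {fb gb f : ℂ → ℂ}
    (B : Bd S.toArr S.φ S.ψ fb gb)
    (hM : ∀ p ∈ S.M, f p = fb p) {p y θ : ℂ} {s : ℝ} (hy : y ∈ Rat2) (hp : p ∈ S.M)
    (hθ : ‖θ‖ = 1) (hs : |s| ≤ 1) (he : p = S.P y θ s) (j : ℕ) :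
    S.φ^[j] y ∈ Rat2 ∧ f^[j] p ∈ S.M ∧
      ∃ θ', Dr (S.φ^[j]) y θ θ' ∧ f^[j] p = S.P (S.φ^[j] y) θ' s := by
  induction j with
  | zero =>
    refine ⟨hy, hp, θ, ⟨hθ, hθ, 1, one_pos, Eventually.of_forall fun ε => ?_⟩, he⟩
    simp
  | succ j ih =>
    obtain ⟨h1, h2, θj, h3, h4⟩ := ih
    obtain ⟨θ', h5⟩ := Dr_exists S.dφ (S.φ^[j] y) h3.2.1
    have h6 : f^[j + 1] p = S.P (S.φ^[j + 1] y) θ' s := by
      rw [iterate_succ_apply', iterate_succ_apply', hM _ h2, h4, B.fP _ h1 θj θ' s h5 hs]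
    refine ⟨?_, ?_, θ', ?_, h6⟩
    · rw [iterate_succ_apply']
      exact (S.dφ.rat _).2 h1
    · rw [iterate_succ_apply', hM _ h2]
      exact B.fM h2
    · have h7 := Dr_comp h3 h5
      have h8 : (fun x => S.φ (S.φ^[j] x)) = S.φ^[j + 1] := by
        funext x
        rw [iterate_succ_apply']
      rwa [h8] at h7

theorem Sys.npr {ι : Type} [Countable ι] (S : Sys ι) {fb gb f : ℂ → ℂ}
    (B : Bd S.toArr S.φ S.ψ fb gb) (hf : ∀ p, S.h (f p) = S.φ (S.h p))
    (hM : ∀ p ∈ S.M, f p = fb p) : ∀ p ∈ interior {p | (S.h p).re = 0}, ∀ n : ℕ, 1 ≤ n → ∀ w,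
      f^[n] p = p + lat w → S.h p ∈ Rat2 ∧ p ∈ interior {p' | S.h p' = S.h p} := by
  intro p hp n hn w hw
  have hre0 : ∀ p' ∈ interior {p | (S.h p).re = 0}, (S.h p').re = 0 := by
    intro p' hp'
    have h : p' ∈ {p | (S.h p).re = 0} := interior_subset hp'
    exact h
  have hre : (S.h p).re = 0 := hre0 p hp
  have hiter : ∀ j : ℕ, S.h (f^[j] p) = S.φ^[j] (S.h p) := by
    intro j
    induction j with
    | zero => rfl
    | succ j ih => rw [iterate_succ_apply', iterate_succ_apply', hf, ih]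
  have hφn : S.φ^[n] (S.h p) = S.h p + lat w := by
    rw [← hiter n, hw]
    exact S.toFam.h_lat p w
  have hlre : (lat w).re = w.1 := rfl
  have hkey : ∀ z : ℂ, z.re = 0 → (S.φ^[n] z).re = w.1 → z ∈ Rat2 := by
    intro z h1 h2
    rw [NPR_im h1] at h2 ⊢
    exact S.lrat n hn z.im w.1 h2
  have hy : S.h p ∈ Rat2 := by
    refine hkey _ hre ?_
    rw [hφn, Complex.add_re, hre, zero_add, hlre]
  refine ⟨hy, ?_⟩
  by_contra hcon
  have hpM : p ∈ S.M := hcon
  have h1 : p ∈ closure ({p' | S.h p' = S.h p} : Set ℂ)ᶜ := by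
    rw [closure_compl]
    exact hcon
  have h2 : p ∈ closure (interior {p | (S.h p).re = 0} ∩ ({p' | S.h p' = S.h p} : Set ℂ)ᶜ) :=
    isOpen_interior.inter_closure ⟨hp, h1⟩
  obtain ⟨qs, hqs, hlim⟩ := mem_closure_iff_seq_limit.1 h2
  have h3 : Tendsto (fun n => S.h (qs n)) atTop (𝓝 (S.h p)) :=
    (S.toFam.h_cont.tendsto p).comp hlim
  obtain ⟨θ, k, hk, hd⟩ := DT.subseq h3 (fun n => (hqs n).2)
  obtain ⟨s, hs, he⟩ := S.toArr.M_dir (qs := fun n => qs (k n)) (hlim.comp hk.tendsto_atTop) hd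
  have hθ := hd.norm
  have hθre : θ.re = 0 := by
    have h4 := (Complex.continuous_re.tendsto θ).comp hd.2.2
    have h5 : ∀ n, (Complex.re ∘ fun n => (‖S.h (qs (k n)) - S.h p‖⁻¹ : ℝ) •
        (S.h (qs (k n)) - S.h p)) n = 0 := by
      intro n
      have h6 : (S.h (qs (k n))).re = 0 := hre0 _ (hqs (k n)).1
      show ((‖S.h (qs (k n)) - S.h p‖⁻¹ : ℝ) • (S.h (qs (k n)) - S.h p)).re = 0
      rw [Complex.smul_re, Complex.sub_re, h6, hre, sub_zero, smul_zero]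
    have h7 : Tendsto (Complex.re ∘ fun n => (‖S.h (qs (k n)) - S.h p‖⁻¹ : ℝ) •
        (S.h (qs (k n)) - S.h p)) atTop (𝓝 0) := by
      refine tendsto_const_nhds.congr fun n => (h5 n).symm
    exact tendsto_nhds_unique h4 h7
  obtain ⟨-, -, θn, hDr, hPn⟩ := NPR_ind S B hM hy hpM hθ hs he n
  have h8 : S.P (S.h p) θn s = S.P (S.h p) θ s := by
    rw [hφn, hw] at hPn
    rw [S.toArr.P_lat] at hPn
    have h9 := add_right_cancel hPn
    rw [← h9]
    exact he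
  have h10 : θn = θ := (S.toArr.P_inj hy hDr.2.1 hθ hs hs h8).1
  rw [h10] at hDr
  obtain ⟨-, -, r, -, hev⟩ := hDr
  have hθ0 : θ ≠ 0 := by
    intro h
    rw [h, norm_zero] at hθ
    exact zero_ne_one hθ
  obtain ⟨ε, h11, h12⟩ := ((ray_irr (S.h p) hθ0).and_eventually hev).exists
  apply h11
  refine hkey _ ?_ ?_
  · rw [Complex.add_re, Complex.smul_re, hre, hθre, smul_zero, add_zero]
  · rw [h12, hφn, Complex.add_re, Complex.add_re, Complex.smul_re, hre, hθre, smul_zero, add_zero,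
      zero_add, hlre]

end TorD
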