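import Pool.Agent.H51.TD.FIB
import Pool.Agent.H51.TD.Int2

/-! # ORB: one special point in every cycle

PROOF. On `Rat2` (φ preserves it, S.dφ.rat) let `z ~ z'` iff `φ^[n] z = z' + lat w` for some `n`, `w`. Reflexive, transitive (`φ^[n] (x + lat w) = φ^[n] x + lat w`). Symmetric: `φ^[N] z = z + lat w₁` with `N ≥ 1` (S.per);
`φ^[k N] z = z + lat (k w₁)`; if `φ^[n] z = z' + lat w` choose `k N ≥ n`: `φ^[kN - n] z' + lat w = φ^[kN-n] (φ^[n] z) = z + lat (k w₁)`. Let `κ z = ∑' i, (if On i z then c i else 0)`; it is invariant under the lattice (On_lat). For every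
`z` there is `z₀ ~ z` with `κ z₀ ≤ κ z'` for all `z' ~ z`: every `z' ~ z` is congruent to some `φ^[n] z` with `n < N` (reduce `n` modulo `N`), choose the minimum over `n < N` (`Finset.exists_min_image`). Choose such a `z₀`
for each class (`Quotient` and `Classical.choose`, or: `rep z = Classical.epsilon` of a predicate depending only on the class), `Z` = set of the chosen points. Properties 1, 2, 3 are clear. Property 4: let `ε > 0`, `T : Finset ι` with
`∑' i, (if i ∈ T then 0 else c i) ≤ ε/2`, `F` from S.small for `T`. If `z ∈ Z` is not in `F + lattice` there is `n` with no `i ∈ T` on `φ^[n] z`, so `κ z ≤ κ (φ^[n] z) ≤ ε/2`, and K_diam: `‖p - p'‖ ≤ 2 κ z ≤ ε`.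
For each `x ∈ F` at most one `z ∈ Z` is in `x + lattice` (property 3 with `j = 0`). So the exceptional `z ∈ Z` form a finite set `X`. -/

set_option autoImplicit false

open Topology Filter Set Function

namespace TorD

open Classical in
/-- the total weight of the pieces on `y` -/
noncomputable def ORB_k {ι : Type} (A : Fam ι) (y : ℂ) : ℝ := ∑' i, (if A.On i y then A.c i else 0)

theorem ORB_k_lat {ι : Type} (A : Fam ι) (y : ℂ) (w : ℤ × ℤ) : ORB_k A (y + lat w) = ORB_k A y := by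
  unfold ORB_k
  refine tsum_congr fun i => ?_
  by_cases h : A.On i y
  · rw [if_pos h, if_pos ((A.On_lat i y w).2 h)]
  · rw [if_neg h, if_neg (fun h' => h ((A.On_lat i y w).1 h'))]

section

variable {ι : Type} (S : Sys ι)

/-- the orbit relation modulo the lattice -/
def ORB_R (z z' : ℂ) : Prop := ∃ (n : ℕ) (w : ℤ × ℤ), S.φ^[n] z = z' + lat w

theorem ORB_iter (n : ℕ) (x : ℂ) (w : ℤ × ℤ) : S.φ^[n] (x + lat w) = S.φ^[n] x + lat w := by
  induction n generalizing x with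
  | zero => rfl
  | succ n ih => rw [Function.iterate_succ_apply, S.dφ.eqv, ih, ← Function.iterate_succ_apply]

theorem ORB_rat (n : ℕ) (x : ℂ) : S.φ^[n] x ∈ Rat2 ↔ x ∈ Rat2 := by
  induction n generalizing x with
  | zero => exact Iff.rfl
  | succ n ih => rw [Function.iterate_succ_apply, ih, S.dφ.rat]

theorem ORB_refl (z : ℂ) : ORB_R S z z := ⟨0, 0, by rw [lat_zero, add_zero]; rfl⟩

theorem ORB_trans {a b c : ℂ} (h : ORB_R S a b) (h' : ORB_R S b c) : ORB_R S a c := by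
  obtain ⟨n, w, e⟩ := h
  obtain ⟨m, w', e'⟩ := h'
  refine ⟨m + n, w' + w, ?_⟩
  rw [Function.iterate_add_apply, e, ORB_iter, e', lat_add]
  ring

theorem ORB_mul {z : ℂ} {N : ℕ} {w1 : ℤ × ℤ} (h : S.φ^[N] z = z + lat w1) (k : ℕ) :
    ∃ w, S.φ^[N * k] z = z + lat w := by
  induction k with
  | zero => exact ⟨0, by rw [lat_zero, add_zero]; rfl⟩
  | succ k ih =>
    obtain ⟨w, hw⟩ := ih
    refine ⟨w1 + w, ?_⟩
    rw [Nat.mul_succ, Nat.add_comm, Function.iterate_add_apply, hw, ORB_iter, h, lat_add]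
    ring

theorem ORB_symm {z z' : ℂ} (hz : z ∈ Rat2) (h : ORB_R S z z') : ORB_R S z' z := by
  obtain ⟨n, w, e⟩ := h
  obtain ⟨N, hN, w1, e1⟩ := S.per z hz
  obtain ⟨w2, e2⟩ := ORB_mul S e1 n
  have hle : n ≤ N * n := Nat.le_mul_of_pos_left n hN
  refine ⟨N * n - n, w2 - w, ?_⟩
  have h3 : S.φ^[N * n - n] (z' + lat w) = z + lat w2 := by
    rw [← e, ← Function.iterate_add_apply, Nat.sub_add_cancel hle, e2]
  rw [ORB_iter] at h3
  rw [lat_sub]
  linear_combination h3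

theorem ORB_ratR {z z' : ℂ} (hz : z ∈ Rat2) (h : ORB_R S z z') : z' ∈ Rat2 := by
  obtain ⟨n, w, e⟩ := h
  rw [← rat2_lat z' w, ← e, ORB_rat]
  exact hz

/-- a point with minimal weight in the orbit -/
theorem ORB_min {z : ℂ} (hz : z ∈ Rat2) :
    ∃ z0, ORB_R S z z0 ∧ ∀ z', ORB_R S z z' → ORB_k S.toFam z0 ≤ ORB_k S.toFam z' := by
  obtain ⟨N, hN, w1, e1⟩ := S.per z hz
  obtain ⟨r, hr, hmin⟩ := Finset.exists_min_image (Finset.range N)
    (fun r => ORB_k S.toFam (S.φ^[r] z)) ⟨0, Finset.mem_range.2 hN⟩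
  refine ⟨S.φ^[r] z, ⟨r, 0, by rw [lat_zero, add_zero]⟩, ?_⟩
  rintro z' ⟨n, w, e⟩
  obtain ⟨w2, e2⟩ := ORB_mul S e1 (n / N)
  have h1 : S.φ^[n] z = S.φ^[n % N] z + lat w2 := by
    conv_lhs => rw [← Nat.mod_add_div n N]
    rw [Function.iterate_add_apply, e2, ORB_iter]
  have h2 : ORB_k S.toFam z' = ORB_k S.toFam (S.φ^[n % N] z) := by
    rw [← ORB_k_lat S.toFam z' w, ← e, h1, ORB_k_lat]
  rw [h2]
  exact hmin (n % N) (Finset.mem_range.2 (Nat.mod_lt n hN))

theorem ORB_class {z z' : ℂ} (hz : z ∈ Rat2) (h : ORB_R S z z') :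
    {x | ORB_R S z x} = {x | ORB_R S z' x} := by
  ext x
  exact ⟨fun hx => ORB_trans S (ORB_symm S hz h) hx, fun hx => ORB_trans S h hx⟩

/-- the chosen point of a class -/
noncomputable def ORB_rep (C : Set ℂ) : ℂ :=
  Classical.epsilon fun z => z ∈ C ∧ ∀ z' ∈ C, ORB_k S.toFam z ≤ ORB_k S.toFam z'

theorem ORB_rep_spec {z : ℂ} (hz : z ∈ Rat2) : ORB_R S z (ORB_rep S {x | ORB_R S z x}) ∧
    ∀ z', ORB_R S z z' → ORB_k S.toFam (ORB_rep S {x | ORB_R S z x}) ≤ ORB_k S.toFam z' := by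
  obtain ⟨z0, h1, h2⟩ := ORB_min S hz
  have h3 := Classical.epsilon_spec (p := fun y => y ∈ {x | ORB_R S z x} ∧
    ∀ z' ∈ {x | ORB_R S z x}, ORB_k S.toFam y ≤ ORB_k S.toFam z') ⟨z0, h1, h2⟩
  exact h3

end

/-- points off a large finite set of pieces have small weight -/
theorem ORB_small {ι : Type} (A : Fam ι) {ε : ℝ} (hε : 0 < ε) : ∃ T : Finset ι, ∀ y : ℂ,
    (∀ i ∈ T, ¬ A.On i y) → ORB_k A y ≤ ε := by
  classical
  have hs := A.csum.hasSum
  have h1 : ∀ᶠ T : Finset ι in atTop, ∑' i, A.c i - ε < ∑ i ∈ T, A.c i :=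
    hs.eventually_const_lt (by linarith)
  obtain ⟨T, hT⟩ := h1.exists
  refine ⟨T, fun y hy => ?_⟩
  have s1 : Summable fun i => (if i ∈ T then A.c i else 0) :=
    summable_of_hasFiniteSupport ((T.finite_toSet).subset fun i hi => by
      by_contra h
      exact hi (if_neg h))
  have s2 : Summable fun i => (if A.On i y then A.c i else 0) := by
    refine Summable.of_nonneg_of_le (fun i => ?_) (fun i => ?_) A.csum
    · split_ifs
      · exact (A.cpos i).le
      · exact le_refl 0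
    · split_ifs
      · exact le_refl _
      · exact (A.cpos i).le
  have e1 : ∑' i, (if i ∈ T then A.c i else 0) = ∑ i ∈ T, A.c i := by
    rw [tsum_eq_sum (s := T) fun i hi => if_neg hi]
    exact Finset.sum_congr rfl fun i hi => if_pos hi
  have h2 : ∑' i, ((if A.On i y then A.c i else 0) + (if i ∈ T then A.c i else 0)) ≤
      ∑' i, A.c i := by
    refine (s2.add s1).tsum_le_tsum (fun i => ?_) A.csum
    by_cases hi : i ∈ T
    · rw [if_neg (hy i hi), if_pos hi, zero_add]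
    · rw [if_neg hi, add_zero]
      split_ifs
      · exact le_refl _
      · exact (A.cpos i).le
  rw [s2.tsum_add s1, e1] at h2
  have h3 : ORB_k A y = ∑' i, (if A.On i y then A.c i else 0) := by
    unfold ORB_k
    refine tsum_congr fun i => ?_
    by_cases h : A.On i y
    · rw [if_pos h]
    · rw [if_neg h]
  rw [h3]
  linarith

theorem Sys.orb {ι : Type} [Countable ι] (S : Sys ι) : ∃ Z : Set ℂ, Z ⊆ Rat2 ∧
    (∀ z ∈ Rat2, ∃ z₀ ∈ Z, ∃ (j : ℕ) (w : ℤ × ℤ), S.φ^[j] z₀ = z + lat w) ∧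
    (∀ z ∈ Z, ∀ z' ∈ Z, ∀ (j : ℕ) (w : ℤ × ℤ), S.φ^[j] z = z' + lat w → z = z') ∧
    ∀ ε : ℝ, 0 < ε → ∃ X : Finset ℂ, ∀ z ∈ Z, z ∉ X → ∀ p ∈ S.K z, ∀ p' ∈ S.K z, ‖p - p'‖ ≤ ε := by
  classical
  set Z : Set ℂ := {z | ∃ y ∈ Rat2, z = ORB_rep S {x | ORB_R S y x}} with hZ
  have hZrat : Z ⊆ Rat2 := by
    rintro z ⟨y, hy, rfl⟩
    exact ORB_ratR S hy (ORB_rep_spec S hy).1
  have hZrep : ∀ z ∈ Z, z = ORB_rep S {x | ORB_R S z x} := by
    rintro z ⟨y, hy, e⟩
    have h1 : ORB_R S y z := by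
      rw [e]
      exact (ORB_rep_spec S hy).1
    rw [← ORB_class S hy h1]
    exact e
  have h3 : ∀ z ∈ Z, ∀ z' ∈ Z, ∀ (j : ℕ) (w : ℤ × ℤ), S.φ^[j] z = z' + lat w → z = z' := by
    intro z hz z' hz' j w e
    rw [hZrep z hz, hZrep z' hz', ORB_class S (hZrat hz) ⟨j, w, e⟩]
  refine ⟨Z, hZrat, fun z hz => ?_, h3, fun ε hε => ?_⟩
  · refine ⟨ORB_rep S {x | ORB_R S z x}, ⟨z, hz, rfl⟩, ?_⟩
    exact ORB_symm S hz (ORB_rep_spec S hz).1
  · obtain ⟨T, hT⟩ := ORB_small S.toFam (ε := ε / 2) (by linarith)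
    obtain ⟨F, hF⟩ := S.small T
    have hfin : {z | z ∈ Z ∧ ∃ x ∈ F, ∃ w, z = x + lat w}.Finite := by
      have h4 : {z | z ∈ Z ∧ ∃ x ∈ F, ∃ w, z = x + lat w} =
          ⋃ x ∈ F, {z | z ∈ Z ∧ ∃ w, z = x + lat w} := by
        ext z
        simp only [Set.mem_setOf_eq, Set.mem_iUnion]
        constructor
        · rintro ⟨h5, x, hx, w, e⟩
          exact ⟨x, hx, h5, w, e⟩
        · rintro ⟨x, hx, h5, w, e⟩
          exact ⟨h5, x, hx, w, e⟩
      rw [h4]
      refine Set.Finite.biUnion F.finite_toSet fun x _ => Set.Subsingleton.finite ?_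
      rintro z ⟨hz, w, e⟩ z' ⟨hz', w', e'⟩
      refine h3 z hz z' hz' 0 (w - w') ?_
      rw [lat_sub]
      change z = z' + (lat w - lat w')
      rw [e, e']
      ring
    refine ⟨hfin.toFinset, fun z hz hzX p hp p' hp' => ?_⟩
    have h5 : ∃ n : ℕ, ∀ i ∈ T, ¬ S.On i (S.φ^[n] z) := by
      by_contra hcon
      push Not at hcon
      apply hzX
      rw [Set.Finite.mem_toFinset]
      refine ⟨hz, hF z (hZrat hz) fun n => ?_⟩
      obtain ⟨i, hi, hon⟩ := hcon n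
      exact ⟨i, hi, hon⟩
    obtain ⟨n, hn⟩ := h5
    have h6 : ORB_k S.toFam z ≤ ORB_k S.toFam (S.φ^[n] z) := by
      have h7 := (ORB_rep_spec S (hZrat hz)).2 (S.φ^[n] z) ⟨n, 0, by rw [lat_zero, add_zero]⟩
      rwa [← hZrep z hz] at h7
    have h8 := hT _ hn
    have h9 := S.toFam.K_diam (y := z) (p := p) (p' := p') hp hp'
    have h10 : ‖p - p'‖ ≤ 2 * ORB_k S.toFam z := h9
    linarith

end TorD
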