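import Pool.Agent.H51.TD.FLH

/-! # FLI: filling of a convex disc

PROOF. `e : ℂ ≃ₜ ℂ` with `e '' interior K = ball 0 1`, `e '' closure K = closedBall 0 1`, `e '' frontier K = sphere 0 1`: `exists_homeomorph_image_interior_closure_frontier_eq_unitBall hx hi hc.isBounded`; `closure K = K` (`hc.isClosed`).
`β = e ∘ b ∘ e.symm`, `β' = e ∘ b' ∘ e.symm` satisfy the hypotheses of `disc_fill1` (`e.symm` maps the sphere to `frontier K`). `G = e.symm ∘ G₁ ∘ e`, `G' = e.symm ∘ G₁' ∘ e`. `G^[n] = e.symm ∘ G₁^[n] ∘ e` (`Function.Semiconj.iterate_right` or induction).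
For `U` open in `K`: `e '' U` is open, nonempty, contained in `closedBall 0 1`. -/

set_option autoImplicit false

open Topology Filter Set Function MeasureTheory

namespace TorD

theorem FLI_iter (e : ℂ ≃ₜ ℂ) (f : ℂ → ℂ) (n : ℕ) (x : ℂ) :
    (fun z => e.symm (f (e z)))^[n] x = e.symm (f^[n] (e x)) := by
  induction n with
  | zero => simp
  | succ n ih =>
    rw [Function.iterate_succ_apply', ih, Function.iterate_succ_apply', e.apply_symm_apply]

theorem disc_fill {K : Set ℂ} (hc : IsCompact K) (hx : Convex ℝ K) (hi : (interior K).Nonempty)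
    {b b' : ℂ → ℂ} (hb : ContinuousOn b (frontier K)) (hb' : ContinuousOn b' (frontier K))
    (hm : MapsTo b (frontier K) (frontier K)) (hm' : MapsTo b' (frontier K) (frontier K))
    (h1 : LeftInvOn b' b (frontier K)) (h2 : LeftInvOn b b' (frontier K)) :
    ∃ G G' : ℂ → ℂ, ContinuousOn G K ∧ ContinuousOn G' K ∧ MapsTo G K K ∧ MapsTo G' K K ∧
      LeftInvOn G' G K ∧ LeftInvOn G G' K ∧ EqOn G b (frontier K) ∧ EqOn G' b' (frontier K) ∧
      ∀ U : Set ℂ, IsOpen U → U.Nonempty → U ⊆ K → ∃ n : ℕ, 1 ≤ n ∧ ∃ p ∈ U, G^[n] p ∈ U := by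
  obtain ⟨e, _, he2, he3⟩ :=
    exists_homeomorph_image_interior_closure_frontier_eq_unitBall hx hi hc.isBounded
  rw [hc.isClosed.closure_eq] at he2
  have hK : ∀ z, z ∈ K → e z ∈ Metric.closedBall (0 : ℂ) 1 := fun z hz => by
    rw [← he2]
    exact mem_image_of_mem e hz
  have hK' : ∀ z, z ∈ Metric.closedBall (0 : ℂ) 1 → e.symm z ∈ K := by
    intro z hz
    rw [← he2] at hz
    obtain ⟨w, hw, rfl⟩ := hz
    rw [e.symm_apply_apply]
    exact hw
  have hF : ∀ z, z ∈ frontier K → e z ∈ Metric.sphere (0 : ℂ) 1 := fun z hz => by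
    rw [← he3]
    exact mem_image_of_mem e hz
  have hF' : ∀ z, z ∈ Metric.sphere (0 : ℂ) 1 → e.symm z ∈ frontier K := by
    intro z hz
    rw [← he3] at hz
    obtain ⟨w, hw, rfl⟩ := hz
    rw [e.symm_apply_apply]
    exact hw
  obtain ⟨G, G', g1, g2, g3, g4, g5, g6, g7, g8, g9⟩ := disc_fill1
    (β := fun z => e (b (e.symm z))) (β' := fun z => e (b' (e.symm z)))
    (e.continuous.comp_continuousOn (hb.comp e.symm.continuous.continuousOn hF'))
    (e.continuous.comp_continuousOn (hb'.comp e.symm.continuous.continuousOn hF'))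
    (fun z hz => hF _ (hm (hF' z hz))) (fun z hz => hF _ (hm' (hF' z hz)))
    (fun z hz => by
      show e (b' (e.symm (e (b (e.symm z))))) = z
      rw [e.symm_apply_apply, h1 (hF' z hz), e.apply_symm_apply])
    (fun z hz => by
      show e (b (e.symm (e (b' (e.symm z))))) = z
      rw [e.symm_apply_apply, h2 (hF' z hz), e.apply_symm_apply])
  refine ⟨fun z => e.symm (G (e z)), fun z => e.symm (G' (e z)), ?_, ?_, ?_, ?_, ?_, ?_, ?_, ?_, ?_⟩
  · exact e.symm.continuous.comp_continuousOn (g1.comp e.continuous.continuousOn hK)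
  · exact e.symm.continuous.comp_continuousOn (g2.comp e.continuous.continuousOn hK)
  · exact fun z hz => hK' _ (g3 (hK z hz))
  · exact fun z hz => hK' _ (g4 (hK z hz))
  · intro z hz
    show e.symm (G' (e (e.symm (G (e z))))) = z
    rw [e.apply_symm_apply, g5 (hK z hz), e.symm_apply_apply]
  · intro z hz
    show e.symm (G (e (e.symm (G' (e z))))) = z
    rw [e.apply_symm_apply, g6 (hK z hz), e.symm_apply_apply]
  · intro z hz
    show e.symm (G (e z)) = b z
    rw [g7 (hF z hz)]
    show e.symm (e (b (e.symm (e z)))) = b z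
    rw [e.symm_apply_apply, e.symm_apply_apply]
  · intro z hz
    show e.symm (G' (e z)) = b' z
    rw [g8 (hF z hz)]
    show e.symm (e (b' (e.symm (e z)))) = b' z
    rw [e.symm_apply_apply, e.symm_apply_apply]
  · intro U hU hne hs
    obtain ⟨n, hn, p, hp, hpn⟩ := g9 (e '' U) (e.isOpenMap U hU) (hne.image e) (by
      rintro _ ⟨z, hz, rfl⟩
      exact hK z (hs hz))
    obtain ⟨q, hq, rfl⟩ := hp
    refine ⟨n, hn, q, hq, ?_⟩
    rw [FLI_iter]
    obtain ⟨q', hq', he⟩ := hpn
    rw [← he, e.symm_apply_apply]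
    exact hq'

end TorD
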