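import Pool.Agent.H51.TD.CNE
import Pool.Agent.H51.TD.FLI

/-! # SPA: return data at a rational point

PROOF. `n` = the least `n ≥ 1` with `φ^[n] z ∈ z + lattice` (S.per, `Nat.find`). `c^[n]` and `c'^[n]` are continuous and inverse to each other (`Function.LeftInverse.iterate`), `h (c^[n] p) = φ^[n] (h p)`, and `φ^[n]`
is injective, so `c^[n]` maps `K z` onto `K (z + lat w) = K z + lat w` (K_lat) and is a homeomorphism of `ℂ`: it maps interior onto interior, frontier onto frontier. So `b p = c^[n] p - lat w`,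
`b' p = c'^[n] (p + lat w)` map `K z` to itself and `frontier (K z)` to itself, and are inverse to each other. `disc_fill` (FLI; K_compact, K_convex, m_int) gives `G`, `G'`. Put `r p = c'^[n] (G p + lat w)`,
`r' p = G' (c^[n] p - lat w)`: `r' (r p) = G' (G p) = p`, `r (r' p) = c'^[n] (c^[n] p) = p`; `c^[n] (r p) = G p + lat w`. For `p ∈ K z ∩ M = frontier (K z)` (K_frontier): `G p = b p`, so `r p = p`; `b p ∈ frontier`,
`r' p = G' (b p) = b' (b p) = p`. -/

set_option autoImplicit false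

open Topology Filter Set Function

namespace TorD

/-- return data at `z`: `r` is a homeomorphism of `K z`, the identity on `K z ∩ M`, such that the
return map `c^[n] ∘ r` is nonwandering -/
structure Ret {ι : Type} (S : Sys ι) (c : ℂ → ℂ) (z : ℂ) (n : ℕ) (w : ℤ × ℤ) (r r' G : ℂ → ℂ) :
    Prop where
  one : 1 ≤ n
  per : S.φ^[n] z = z + lat w
  min : ∀ j : ℕ, 1 ≤ j → j < n → ∀ w' : ℤ × ℤ, S.φ^[j] z ≠ z + lat w'
  cont : ContinuousOn r (S.K z)
  cont' : ContinuousOn r' (S.K z)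
  maps : MapsTo r (S.K z) (S.K z)
  maps' : MapsTo r' (S.K z) (S.K z)
  inv : ∀ p ∈ S.K z, r' (r p) = p
  inv' : ∀ p ∈ S.K z, r (r' p) = p
  fix : ∀ p ∈ S.K z, p ∈ S.M → r p = p ∧ r' p = p
  ret : ∀ p ∈ S.K z, c^[n] (r p) = G p + lat w
  mapG : MapsTo G (S.K z) (S.K z)
  nonw : ∀ U : Set ℂ, IsOpen U → U.Nonempty → U ⊆ S.K z → ∃ N : ℕ, 1 ≤ N ∧ ∃ p ∈ U, G^[N] p ∈ U

theorem Sys.ret {ι : Type} [Countable ι] (S : Sys ι) {c c' : ℂ → ℂ} (hc : Continuous c)
    (hc' : Continuous c') (h1 : ∀ p, c' (c p) = p) (h2 : ∀ p, c (c' p) = p)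
    (hh : ∀ p, S.h (c p) = S.φ (S.h p)) {z : ℂ} (hz : z ∈ Rat2) :
    ∃ (n : ℕ) (w : ℤ × ℤ) (r r' G : ℂ → ℂ), Ret S c z n w r r' G := by
  classical
  have hex : ∃ n : ℕ, 1 ≤ n ∧ ∃ w, S.φ^[n] z = z + lat w := S.per z hz
  obtain ⟨n, ⟨hn1, w, hw⟩, hmin⟩ : ∃ n : ℕ, (1 ≤ n ∧ ∃ w, S.φ^[n] z = z + lat w) ∧
      ∀ j : ℕ, 1 ≤ j → j < n → ∀ w' : ℤ × ℤ, S.φ^[j] z ≠ z + lat w' :=
    ⟨Nat.find hex, Nat.find_spec hex, fun j hj hjn w' he => Nat.find_min hex hjn ⟨hj, w', he⟩⟩
  have hC : Continuous c^[n] := hc.iterate n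
  have hC' : Continuous c'^[n] := hc'.iterate n
  have e1 : ∀ p, c'^[n] (c^[n] p) = p := Function.LeftInverse.iterate h1 n
  have e2 : ∀ p, c^[n] (c'^[n] p) = p := Function.LeftInverse.iterate h2 n
  have hsemi : Function.Semiconj S.h c S.φ := hh
  have e3 : ∀ p, S.h (c^[n] p) = S.φ^[n] (S.h p) := fun p => (hsemi.iterate_right n) p
  have hinj : Function.Injective S.φ^[n] :=
    Function.Injective.iterate (Function.LeftInverse.injective S.ψφ) n
  have hlat : ∀ p (w : ℤ × ℤ), S.h (p + lat w) = S.h p + lat w := fun p w => S.toFam.h_lat p w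
  have mb : ∀ p ∈ S.K z, c^[n] p - lat w ∈ S.K z := by
    intro p hp
    have hp' : S.h p = z := hp
    show S.h (c^[n] p - lat w) = z
    have h3 := hlat (c^[n] p - lat w) w
    rw [sub_add_cancel, e3, hp', hw] at h3
    exact (add_right_cancel h3).symm
  have mb' : ∀ p ∈ S.K z, c'^[n] (p + lat w) ∈ S.K z := by
    intro p hp
    have hp' : S.h p = z := hp
    show S.h (c'^[n] (p + lat w)) = z
    apply hinj
    rw [← e3, e2, hlat, hp', hw]
  let B : ℂ ≃ₜ ℂ :=
    { toFun := fun p => c^[n] p - lat w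
      invFun := fun p => c'^[n] (p + lat w)
      left_inv := fun p => by
        show c'^[n] (c^[n] p - lat w + lat w) = p
        rw [sub_add_cancel, e1]
      right_inv := fun p => by
        show c^[n] (c'^[n] (p + lat w)) - lat w = p
        rw [e2, add_sub_cancel_right]
      continuous_toFun := hC.sub continuous_const
      continuous_invFun := hC'.comp (continuous_id.add continuous_const) }
  have hBK : B '' S.K z = S.K z := by
    apply Set.Subset.antisymm
    · rintro _ ⟨p, hp, rfl⟩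
      exact mb p hp
    · intro p hp
      exact ⟨B.symm p, mb' p hp, B.apply_symm_apply p⟩
  have hBf : B '' frontier (S.K z) = frontier (S.K z) := by
    rw [B.image_frontier, hBK]
  have mf : MapsTo (fun p => c^[n] p - lat w) (frontier (S.K z)) (frontier (S.K z)) := by
    intro p hp
    rw [← hBf]
    exact ⟨p, hp, rfl⟩
  have mf' : MapsTo (fun p => c'^[n] (p + lat w)) (frontier (S.K z)) (frontier (S.K z)) := by
    intro p hp
    rw [← hBf] at hp
    obtain ⟨q, hq, rfl⟩ := hp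
    show B.symm (B q) ∈ _
    rw [B.symm_apply_apply]
    exact hq
  obtain ⟨G, G', g1, g2, g3, g4, g5, g6, g7, g8, g9⟩ := disc_fill (S.K_compact z) (S.K_convex z)
    ⟨_, S.toArr.m_int hz⟩ B.continuous.continuousOn B.symm.continuous.continuousOn mf mf'
    (fun p _ => B.symm_apply_apply p) (fun p _ => B.apply_symm_apply p)
  refine ⟨n, w, fun p => c'^[n] (G p + lat w), fun p => G' (c^[n] p - lat w), G, ?_⟩
  refine ⟨hn1, hw, hmin, ?_, ?_, ?_, ?_, ?_, ?_, ?_, ?_, g3, g9⟩
  · exact hC'.comp_continuousOn (g1.add continuousOn_const)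
  · exact g2.comp (hC.sub continuous_const).continuousOn mb
  · intro p hp
    exact mb' _ (g3 hp)
  · intro p hp
    exact g4 (mb p hp)
  · intro p hp
    show G' (c^[n] (c'^[n] (G p + lat w)) - lat w) = p
    rw [e2, add_sub_cancel_right]
    exact g5 hp
  · intro p hp
    show c'^[n] (G (G' (c^[n] p - lat w)) + lat w) = p
    have h3 : G (G' (c^[n] p - lat w)) = c^[n] p - lat w := g6 (mb p hp)
    rw [h3, sub_add_cancel, e1]
  · intro p hp hM
    have hf : p ∈ frontier (S.K z) := (S.toArr.K_frontier z p).2 ⟨hp, hM⟩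
    have h3 : G p = c^[n] p - lat w := g7 hf
    have h4 : G' (c^[n] p - lat w) = c'^[n] (c^[n] p - lat w + lat w) := g8 (mf hf)
    constructor
    · show c'^[n] (G p + lat w) = p
      rw [h3, sub_add_cancel, e1]
    · show G' (c^[n] p - lat w) = p
      rw [h4, sub_add_cancel, e1]
  · intro p _
    exact e2 _

end TorD
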