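import Pool.Agent.H51.TD.GLU

/-! # SPB: the correction map `R`

PROOF. Call `z` special if `z = z₀ + lat w` with `z₀ ∈ Z`; `z₀` and `w` are unique (h1, lat_inj). Let `F z p = r z₀ (p - lat w) + lat w` if `z` is special (choice of `z₀`, `w`), `F z p = p` otherwise, and
`R = tot A id F`; the same with `r'`: `F'`, `R'`. For `z` special `F z` maps `K z` to `K z` (K_lat), is continuous there, and is the identity on `K z ∩ M` (M_lat). Continuity of `R`: `glue` with `fb = id`.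
Thin: let `ε > 0`; `X₁` from `h2`, `X₂` from `ht`; for `z ∉ (X₁ ∪ X₂) + lattice`: if `z = z₀ + lat w` is special then `z₀ ∉ X₁` and the diameter of `K z` is `≤ ε`; take `b = P z 1 0` (h_P, P_M):
`‖p - b‖ ≤ ε`, `‖F z p - b‖ ≤ ε`. If `z` is not special, `F z p = p` and `ht` gives `b ∈ K z ∩ M` with `‖p - b‖ ≤ ε`. The remaining claims: `R p = F (h p) p` if `h p ∈ Rat2` (tot_eq), `R p = p` on `M`
(tot_M), and points outside `M` are in rational fibres (not_M). Equivariance: the data of `z + lat w'` are `z₀`, `w + w'`; M_lat, h_lat. -/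

set_option autoImplicit false

open Topology Filter Set Function

namespace TorD

open Classical in
/-- the fibre maps -/
noncomputable def SPB_F (Z : Set ℂ) (r : ℂ → ℂ → ℂ) (z p : ℂ) : ℂ :=
  if h : ∃ x : ℂ × (ℤ × ℤ), x.1 ∈ Z ∧ z = x.1 + lat x.2 then
    r h.choose.1 (p - lat h.choose.2) + lat h.choose.2
  else p

theorem SPB_on {Z : Set ℂ} (h1 : ∀ z ∈ Z, ∀ z' ∈ Z, ∀ w : ℤ × ℤ, z = z' + lat w → z = z')
    (r : ℂ → ℂ → ℂ) {z₀ : ℂ} (hz : z₀ ∈ Z) (w : ℤ × ℤ) (p : ℂ) :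
    SPB_F Z r (z₀ + lat w) p = r z₀ (p - lat w) + lat w := by
  have h : ∃ x : ℂ × (ℤ × ℤ), x.1 ∈ Z ∧ z₀ + lat w = x.1 + lat x.2 := ⟨(z₀, w), hz, rfl⟩
  obtain ⟨hx1, hx2⟩ := h.choose_spec
  have e1 : z₀ = h.choose.1 := by
    refine h1 z₀ hz _ hx1 (h.choose.2 - w) ?_
    rw [lat_sub]
    linear_combination hx2
  have e2 : w = h.choose.2 := by
    apply lat_inj
    rw [← e1] at hx2
    exact add_left_cancel hx2
  unfold SPB_F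
  rw [dif_pos h, ← e1, ← e2]

theorem SPB_off {Z : Set ℂ} (r : ℂ → ℂ → ℂ) {z : ℂ}
    (hz : ¬ ∃ z₀ ∈ Z, ∃ w : ℤ × ℤ, z = z₀ + lat w) (p : ℂ) : SPB_F Z r z p = p := by
  unfold SPB_F
  rw [dif_neg]
  rintro ⟨⟨z₀, w⟩, h1, h2⟩
  exact hz ⟨z₀, h1, w, h2⟩

section

variable {ι : Type} [Countable ι] (A : Arr ι) {Z : Set ℂ}
  (h1 : ∀ z ∈ Z, ∀ z' ∈ Z, ∀ w : ℤ × ℤ, z = z' + lat w → z = z') {r r' : ℂ → ℂ → ℂ}

theorem SPB_sub {z₀ p : ℂ} {w : ℤ × ℤ} (hp : p ∈ A.K (z₀ + lat w)) : p - lat w ∈ A.K z₀ := by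
  have h : A.h p = z₀ + lat w := hp
  show A.h (p - lat w) = z₀
  rw [sub_eq_add_neg, ← lat_neg, A.h_lat, h, lat_neg]
  ring

theorem SPB_add {z₀ p : ℂ} (w : ℤ × ℤ) (hp : p ∈ A.K z₀) : p + lat w ∈ A.K (z₀ + lat w) := by
  have h : A.h p = z₀ := hp
  show A.h (p + lat w) = z₀ + lat w
  rw [A.h_lat, h]

include h1 in
theorem SPB_maps (hr : ∀ z ∈ Z, MapsTo (r z) (A.K z) (A.K z)) (z : ℂ) :
    MapsTo (SPB_F Z r z) (A.K z) (A.K z) := by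
  intro p hp
  by_cases hz : ∃ z₀ ∈ Z, ∃ w : ℤ × ℤ, z = z₀ + lat w
  · obtain ⟨z₀, hz₀, w, rfl⟩ := hz
    rw [SPB_on h1 r hz₀]
    exact SPB_add A w (hr z₀ hz₀ (SPB_sub A hp))
  · rw [SPB_off r hz]
    exact hp

include h1 in
theorem SPB_cont (hr : ∀ z ∈ Z, ContinuousOn (r z) (A.K z)) (z : ℂ) :
    ContinuousOn (SPB_F Z r z) (A.K z) := by
  by_cases hz : ∃ z₀ ∈ Z, ∃ w : ℤ × ℤ, z = z₀ + lat w
  · obtain ⟨z₀, hz₀, w, rfl⟩ := hz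
    have h2 : ContinuousOn (fun p => r z₀ (p - lat w) + lat w) (A.K (z₀ + lat w)) := by
      refine ContinuousOn.add ?_ continuousOn_const
      exact (hr z₀ hz₀).comp ((continuous_id.sub continuous_const).continuousOn)
        (fun p hp => SPB_sub A hp)
    exact h2.congr fun p _ => SPB_on h1 r hz₀ w p
  · exact continuousOn_id.congr fun p _ => SPB_off r hz p

theorem SPB_M {p : ℂ} (hp : p ∈ A.M) (w : ℤ × ℤ) : p - lat w ∈ A.M := by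
  have h2 := (A.M_lat p (-w)).2 hp
  rwa [lat_neg, ← sub_eq_add_neg] at h2

include h1 in
theorem SPB_fix (hM : ∀ z ∈ Z, ∀ p ∈ A.K z, p ∈ A.M → r z p = p) (z : ℂ) {p : ℂ}
    (hp : p ∈ A.K z) (hpM : p ∈ A.M) : SPB_F Z r z p = p := by
  by_cases hz : ∃ z₀ ∈ Z, ∃ w : ℤ × ℤ, z = z₀ + lat w
  · obtain ⟨z₀, hz₀, w, rfl⟩ := hz
    rw [SPB_on h1 r hz₀, hM z₀ hz₀ _ (SPB_sub A hp) (SPB_M A hpM w)]
    ring
  · rw [SPB_off r hz]

include h1 in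
theorem SPB_inv (hi : ∀ z ∈ Z, ∀ p ∈ A.K z, r' z (r z p) = p) (z : ℂ) {p : ℂ}
    (hp : p ∈ A.K z) : SPB_F Z r' z (SPB_F Z r z p) = p := by
  by_cases hz : ∃ z₀ ∈ Z, ∃ w : ℤ × ℤ, z = z₀ + lat w
  · obtain ⟨z₀, hz₀, w, rfl⟩ := hz
    rw [SPB_on h1 r hz₀, SPB_on h1 r' hz₀, add_sub_cancel_right, hi z₀ hz₀ _ (SPB_sub A hp)]
    ring
  · rw [SPB_off r hz, SPB_off r' hz]

include h1 in
theorem SPB_eqv (z p : ℂ) (w : ℤ × ℤ) :
    SPB_F Z r (z + lat w) (p + lat w) = SPB_F Z r z p + lat w := by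
  by_cases hz : ∃ z₀ ∈ Z, ∃ w : ℤ × ℤ, z = z₀ + lat w
  · obtain ⟨z₀, hz₀, w₀, rfl⟩ := hz
    have e : z₀ + lat w₀ + lat w = z₀ + lat (w₀ + w) := by
      rw [lat_add]
      ring
    rw [e, SPB_on h1 r hz₀, SPB_on h1 r hz₀, lat_add]
    have e2 : p + lat w - (lat w₀ + lat w) = p - lat w₀ := by ring
    rw [e2]
    ring
  · have hz' : ¬ ∃ z₀ ∈ Z, ∃ w' : ℤ × ℤ, z + lat w = z₀ + lat w' := by
      rintro ⟨z₀, hz₀, w', h⟩
      apply hz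
      refine ⟨z₀, hz₀, w' - w, ?_⟩
      rw [lat_sub]
      linear_combination h
    rw [SPB_off r hz, SPB_off r hz']

include h1 in
theorem SPB_thin
    (h2 : ∀ ε : ℝ, 0 < ε → ∃ X : Finset ℂ, ∀ z ∈ Z, z ∉ X → ∀ p ∈ A.K z, ∀ p' ∈ A.K z, ‖p - p'‖ ≤ ε)
    {fb : ℂ → ℂ} {F₀ : ℂ → ℂ → ℂ} (ht : Thin A fb F₀)
    (hr : ∀ z ∈ Z, MapsTo (r z) (A.K z) (A.K z)) : Thin A id (SPB_F Z r) := by
  classical
  intro ε hε
  obtain ⟨X₁, hX₁⟩ := h2 ε hε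
  obtain ⟨X₂, hX₂⟩ := ht ε hε
  refine ⟨X₁ ∪ X₂, ?_⟩
  intro z hz hzX p hp
  by_cases hs : ∃ z₀ ∈ Z, ∃ w : ℤ × ℤ, z = z₀ + lat w
  · have hmaps := SPB_maps A h1 hr z
    obtain ⟨z₀, hz₀, w, hzw⟩ := hs
    have hz₀X : z₀ ∉ X₁ := fun h => hzX ⟨z₀, Finset.mem_union_left _ h, w, hzw⟩
    have hdiam : ∀ p ∈ A.K z, ∀ p' ∈ A.K z, ‖p - p'‖ ≤ ε := by
      intro p hp p' hp'
      rw [hzw] at hp hp'
      have h3 := hX₁ z₀ hz₀ hz₀X _ (SPB_sub A hp) _ (SPB_sub A hp')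
      rwa [sub_sub_sub_cancel_right] at h3
    have hb : A.P z 1 0 ∈ A.K z := A.h_P z (by simp) (by simp)
    refine ⟨A.P z 1 0, hb, A.P_M z (by simp) (by simp), hdiam p hp _ hb, ?_⟩
    exact hdiam _ (hmaps hp) _ hb
  · obtain ⟨b, hb1, hb2, hb3, -⟩ := hX₂ z hz (by
      rintro ⟨x, hx, w, hw⟩
      exact hzX ⟨x, Finset.mem_union_right _ hx, w, hw⟩) p hp
    refine ⟨b, hb1, hb2, hb3, ?_⟩
    rw [SPB_off r hs]
    exact hb3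

end

theorem spb {ι : Type} [Countable ι] (A : Arr ι) {Z : Set ℂ} (hZ : Z ⊆ Rat2)
    (h1 : ∀ z ∈ Z, ∀ z' ∈ Z, ∀ w : ℤ × ℤ, z = z' + lat w → z = z')
    (h2 : ∀ ε : ℝ, 0 < ε → ∃ X : Finset ℂ, ∀ z ∈ Z, z ∉ X → ∀ p ∈ A.K z, ∀ p' ∈ A.K z, ‖p - p'‖ ≤ ε)
    {fb : ℂ → ℂ} {F₀ : ℂ → ℂ → ℂ} (ht : Thin A fb F₀) {r r' : ℂ → ℂ → ℂ}
    (hr : ∀ z ∈ Z, ContinuousOn (r z) (A.K z) ∧ MapsTo (r z) (A.K z) (A.K z))
    (hr' : ∀ z ∈ Z, ContinuousOn (r' z) (A.K z) ∧ MapsTo (r' z) (A.K z) (A.K z))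
    (hi : ∀ z ∈ Z, ∀ p ∈ A.K z, r' z (r z p) = p ∧ r z (r' z p) = p)
    (hM : ∀ z ∈ Z, ∀ p ∈ A.K z, p ∈ A.M → r z p = p ∧ r' z p = p) :
    ∃ R R' : ℂ → ℂ, Continuous R ∧ Continuous R' ∧ (∀ p, R' (R p) = p) ∧ (∀ p, R (R' p) = p) ∧
      (∀ p, A.h (R p) = A.h p) ∧ (∀ p w, R (p + lat w) = R p + lat w) ∧ (∀ p ∈ A.M, R p = p) ∧
      (∀ z ∈ Z, ∀ p ∈ A.K z, R p = r z p) ∧
      ∀ p, (¬ ∃ z ∈ Z, ∃ w : ℤ × ℤ, A.h p = z + lat w) → R p = p := by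
  have heF : ∀ z ∈ Rat2, ∀ p ∈ A.K z, p ∈ A.M → SPB_F Z r z p = id p := fun z _ p hp hpM =>
    SPB_fix A h1 (fun z hz p hp hpM => (hM z hz p hp hpM).1) z hp hpM
  have heF' : ∀ z ∈ Rat2, ∀ p ∈ A.K z, p ∈ A.M → SPB_F Z r' z p = id p := fun z _ p hp hpM =>
    SPB_fix A h1 (fun z hz p hp hpM => (hM z hz p hp hpM).2) z hp hpM
  have hmaps := SPB_maps A h1 (r := r) (fun z hz => (hr z hz).2)
  have hmaps' := SPB_maps A h1 (r := r') (fun z hz => (hr' z hz).2)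
  have hval : ∀ p, p ∉ A.M → tot A id (SPB_F Z r) p = SPB_F Z r (A.h p) p := fun p hp =>
    tot_eq heF (not_M hp).1 rfl
  have hval' : ∀ p, A.h p ∈ Rat2 → tot A id (SPB_F Z r') p = SPB_F Z r' (A.h p) p := fun p hp =>
    tot_eq heF' hp rfl
  have hval2 : ∀ p, A.h p ∈ Rat2 → tot A id (SPB_F Z r) p = SPB_F Z r (A.h p) p := fun p hp =>
    tot_eq heF hp rfl
  have hval2' : ∀ p, p ∉ A.M → tot A id (SPB_F Z r') p = SPB_F Z r' (A.h p) p := fun p hp =>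
    tot_eq heF' (not_M hp).1 rfl
  have hvM : ∀ p ∈ A.M, tot A id (SPB_F Z r) p = p := fun p hp => tot_M hp
  have hvM' : ∀ p ∈ A.M, tot A id (SPB_F Z r') p = p := fun p hp => tot_M hp
  refine ⟨tot A id (SPB_F Z r), tot A id (SPB_F Z r'), ?_, ?_, ?_, ?_, ?_, ?_, hvM, ?_, ?_⟩
  · exact glue continuousOn_id
      (fun z _ => SPB_cont A h1 (fun z hz => (hr z hz).1) z) heF
      (SPB_thin A h1 h2 ht (fun z hz => (hr z hz).2))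
  · exact glue continuousOn_id
      (fun z _ => SPB_cont A h1 (fun z hz => (hr' z hz).1) z) heF'
      (SPB_thin A h1 h2 ht (fun z hz => (hr' z hz).2))
  · intro p
    by_cases hp : p ∈ A.M
    · rw [hvM p hp, hvM' p hp]
    · have h3 : A.h (SPB_F Z r (A.h p) p) = A.h p := hmaps (A.h p) rfl
      rw [hval p hp, hval' _ (by rw [h3]; exact (not_M hp).1), h3]
      exact SPB_inv A h1 (fun z hz p hp => (hi z hz p hp).1) (A.h p) rfl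
  · intro p
    by_cases hp : p ∈ A.M
    · rw [hvM' p hp, hvM p hp]
    · have h3 : A.h (SPB_F Z r' (A.h p) p) = A.h p := hmaps' (A.h p) rfl
      rw [hval2' p hp, hval2 _ (by rw [h3]; exact (not_M hp).1), h3]
      exact SPB_inv A h1 (fun z hz p hp => (hi z hz p hp).2) (A.h p) rfl
  · intro p
    by_cases hp : p ∈ A.M
    · rw [hvM p hp]
    · rw [hval p hp]
      exact hmaps (A.h p) rfl
  · intro p w
    by_cases hp : p ∈ A.M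
    · rw [hvM p hp, hvM _ ((A.M_lat p w).2 hp)]
    · rw [hval p hp, hval _ (fun h => hp ((A.M_lat p w).1 h)), A.h_lat]
      exact SPB_eqv h1 (A.h p) p w
  · intro z hz p hp
    have h3 : A.h p = z := hp
    rw [hval2 p (by rw [h3]; exact hZ hz), h3]
    have h4 := SPB_on h1 r hz 0 p
    rw [lat_zero, add_zero, sub_zero, add_zero] at h4
    exact h4
  · intro p hp
    by_cases hpM : p ∈ A.M
    · exact hvM p hpM
    · rw [hval p hpM, SPB_off r hp]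

end TorD
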