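import Pool.Agent.H51.TD.CTO
import Pool.Agent.H51.TD.ORB
import Pool.Agent.H51.TD.SPA
import Pool.Agent.H51.TD.SPB

/-! # SPN: the homeomorphism `f`, nonwandering in the special fibres

PROOF. `H : Dyn2 S.toArr S.φ S.ψ`. cone_total: `c`, `c'`. `Z` from S.orb. For `z ∈ Z` choose `Ret S c z (n z) (w z) (r z) (r' z) (G z)` (Sys.ret). spb with `thin_C H B` gives `R`, `R'` (h1: property 3 of orb with `j = 0`).
`f = c ∘ R`, `g = R' ∘ c'`. `h (f p) = φ (h (R p)) = φ (h p)`; on `M`: `R p = p`, `f p = c p = fb p`. Let `z ∈ Z`, `n = n z`, `p ∈ K z`. Claim `f^[j] p = c^[j] (R p)` for `1 ≤ j ≤ n`: for `1 ≤ j < n`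
`h (c^[j] (R p)) = φ^[j] z` is not special (if `φ^[j] z = z' + lat w'` with `z' ∈ Z` then `z' = z` by property 3, contradiction to Ret.min), so `R` fixes `c^[j] (R p)`. So `f^[n] p = c^[n] (r z p) = G z p + lat (w z)`,
and `f^[n N] p = (G z)^[N] p + lat (N • w z)` by induction on `N` (Ret.mapG, equivariance of `f`). The last claim: for `z' ∈ Rat2` property 2 of orb gives `z₀ ∈ Z`; Ret.nonw. -/

set_option autoImplicit false

open Topology Filter Set Function

namespace TorD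

theorem Sys.spn {ι : Type} [Countable ι] (S : Sys ι) {fb gb : ℂ → ℂ}
    (B : Bd S.toArr S.φ S.ψ fb gb) : ∃ f g : ℂ → ℂ, Continuous f ∧ Continuous g ∧
      (∀ p, g (f p) = p) ∧ (∀ p, f (g p) = p) ∧ (∀ p w, f (p + lat w) = f p + lat w) ∧
      (∀ p, S.h (f p) = S.φ (S.h p)) ∧ (∀ p ∈ S.M, f p = fb p) ∧
      ∀ z ∈ Rat2, ∃ z₀ ∈ Rat2, (∃ (j : ℕ) (w : ℤ × ℤ), S.φ^[j] z₀ = z + lat w) ∧
        ∀ U : Set ℂ, IsOpen U → U.Nonempty → U ⊆ S.K z₀ →
          ∃ N : ℕ, 1 ≤ N ∧ ∃ w : ℤ × ℤ, ∃ p ∈ U, f^[N] p + lat w ∈ U := by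
  have H : Dyn2 S.toArr S.φ S.ψ := ⟨S.φψ, S.ψφ, S.dφ, S.dψ⟩
  obtain ⟨c, c', hc, hc', h1, h2, hlat, -, hh, hM⟩ := cone_total H B
  obtain ⟨Z, hZ, hZ2, hZ3, hZ4⟩ := S.orb
  have hret : ∀ z : ℂ, ∃ (n : ℕ) (w : ℤ × ℤ) (r r' G : ℂ → ℂ),
      z ∈ Z → Ret S c z n w r r' G := by
    intro z
    by_cases hz : z ∈ Z
    · obtain ⟨n, w, r, r', G, h⟩ := S.ret hc hc' h1 h2 hh (hZ hz)
      exact ⟨n, w, r, r', G, fun _ => h⟩
    · exact ⟨0, 0, id, id, id, fun h => absurd h hz⟩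
  choose n w r r' G hR using hret
  obtain ⟨R, R', hRc, hRc', hRR, hRR', hRh, hRlat, hRM, hRz, hRid⟩ := spb S.toArr hZ
    (fun z hz z' hz' w h => hZ3 z hz z' hz' 0 w h) hZ4 (thin_C H B) (r := r) (r' := r')
    (fun z hz => ⟨(hR z hz).cont, (hR z hz).maps⟩) (fun z hz => ⟨(hR z hz).cont', (hR z hz).maps'⟩)
    (fun z hz p hp => ⟨(hR z hz).inv p hp, (hR z hz).inv' p hp⟩)
    (fun z hz p hp hpM => (hR z hz).fix p hp hpM)
  obtain ⟨f, hf⟩ : ∃ f : ℂ → ℂ, ∀ p, f p = c (R p) := ⟨fun p => c (R p), fun _ => rfl⟩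
  have hflat : ∀ p w, f (p + lat w) = f p + lat w := fun p w => by
    rw [hf, hf, hRlat, hlat]
  have hfit : ∀ (k : ℕ) (p : ℂ) (w : ℤ × ℤ), f^[k] (p + lat w) = f^[k] p + lat w := by
    intro k
    induction k with
    | zero => intro p w; rfl
    | succ k ih => intro p w; rw [iterate_succ_apply, hflat, ih, ← iterate_succ_apply]
  refine ⟨f, fun p => R' (c' p), ?_, hRc'.comp hc', ?_, ?_, hflat, ?_, ?_, ?_⟩
  · have h3 : f = fun p => c (R p) := funext hf
    rw [h3]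
    exact hc.comp hRc
  · intro p
    show R' (c' (f p)) = p
    rw [hf, h1, hRR]
  · intro p
    show f (R' (c' p)) = p
    rw [hf, hRR', h2]
  · intro p
    rw [hf, hh, hRh]
  · intro p hp
    rw [hf, hRM p hp, hM p hp]
  · intro z hz
    obtain ⟨z₀, hz₀, j, w', hj⟩ := hZ2 z hz
    refine ⟨z₀, hZ hz₀, ⟨j, w', hj⟩, fun U hU hUne hUK => ?_⟩
    have hRet := hR z₀ hz₀
    have hcit : ∀ (k : ℕ) (p : ℂ), S.h (c^[k] p) = S.φ^[k] (S.h p) := by
      intro k
      induction k with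
      | zero => intro p; rfl
      | succ k ih => intro p; rw [iterate_succ_apply', iterate_succ_apply', hh, ih]
    -- the iterates before the return
    have hA : ∀ p ∈ S.K z₀, ∀ k : ℕ, k + 1 ≤ n z₀ → f^[k + 1] p = c^[k + 1] (R p) := by
      intro p hp k
      induction k with
      | zero =>
        intro _
        show f p = c (R p)
        exact hf p
      | succ k ih =>
        intro hk
        have ih1 := ih (by omega)
        rw [iterate_succ_apply' f, ih1, hf, iterate_succ_apply' c (k + 1)]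
        congr 1
        apply hRid
        rintro ⟨z', hz', w'', hw⟩
        have h3 : S.h (c^[k + 1] (R p)) = S.φ^[k + 1] z₀ := by
          rw [hcit, hRh]
          have h4 : S.h p = z₀ := hp
          rw [h4]
        have h4 : S.φ^[k + 1] z₀ = z' + lat w'' := h3.symm.trans hw
        have h5 := hZ3 z₀ hz₀ z' hz' (k + 1) w'' h4
        rw [← h5] at h4
        exact hRet.min (k + 1) (by omega) (by omega) w'' h4
    have hn := hRet.one
    have hA' : ∀ p ∈ S.K z₀, f^[n z₀] p = G z₀ p + lat (w z₀) := by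
      intro p hp
      have h3 := hA p hp (n z₀ - 1) (by omega)
      rw [Nat.sub_add_cancel hn, hRz z₀ hz₀ p hp, hRet.ret p hp] at h3
      exact h3
    have hB : ∀ (N : ℕ), ∀ p ∈ S.K z₀, ∃ w'' : ℤ × ℤ,
        f^[n z₀ * N] p = (G z₀)^[N] p + lat w'' := by
      intro N
      induction N with
      | zero =>
        intro p _
        exact ⟨0, by rw [lat_zero, add_zero]; rfl⟩
      | succ N ih =>
        intro p hp
        obtain ⟨w'', hw⟩ := ih (G z₀ p) (hRet.mapG hp)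
        refine ⟨w'' + w z₀, ?_⟩
        rw [Nat.mul_succ, iterate_add_apply, hA' p hp, hfit, hw, lat_add, iterate_succ_apply]
        ring
    obtain ⟨N, hN, p, hp, hpN⟩ := hRet.nonw U hU hUne hUK
    obtain ⟨w'', hw⟩ := hB N p (hUK hp)
    refine ⟨n z₀ * N, Nat.mul_pos hn hN, -w'', p, hp, ?_⟩
    rw [hw, lat_neg, add_neg_cancel_right]
    exact hpN

end TorD
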