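import Pool.Agent.H51.TD.EXT
import Pool.Agent.H51.TD.SPN
import Pool.Agent.H51.TD.DEN
import Pool.Agent.H51.TD.BND
import Pool.Agent.H51.TD.NPR

/-! # BLW: the blow-up

PROOF. `H : Dyn2 S.toArr S.φ S.ψ`, `fb`, `gb` from Arr.ext, `f`, `g` from Sys.spn, `h = S.h`. The fields: hlip, hmono (h_mono), hnear (1/32 ≤ 1/16), hsurj, heqv; thin: K_thin; band: Sys.bnd; nper: Sys.npr.
nonw: let `U` be open, nonempty. Arr.den: `z ∈ Rat2`, `V = U ∩ interior (K z)` nonempty open. Sys.spn: `z₀`, `j`, `w₀` with `φ^[j] z₀ = z + lat w₀`. Put `U' = interior (K z₀) ∩ {p | f^[j] p - lat w₀ ∈ V}`: open; nonempty: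
let `q ∈ V`, `p = g^[j] (q + lat w₀)`: `f^[j] p = q + lat w₀`, `φ^[j] (h p) = h (f^[j] p) = z + lat w₀ = φ^[j] z₀`, `h p = z₀` (φ injective); `p ∈ interior (K z₀)`: the open set
`{p' | f^[j] p' - lat w₀ ∈ interior (K z)}` contains `p` and is contained in `K z₀` by the same computation. Then `N ≥ 1`, `w`, `p ∈ U'` with `f^[N] p + lat w ∈ U'`. Put `q = f^[j] p - lat w₀ ∈ U`; `f^[N] q = f^[j] (f^[N] p) - lat w₀`
(equivariance of the iterates, commuting iterates) and `f^[j] (f^[N] p + lat w) - lat w₀ = f^[N] q + lat w ∈ U`. -/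

set_option autoImplicit false

open Topology Filter Set Function

namespace TorD

private theorem BLW_lat {f : ℂ → ℂ} (h : ∀ p w, f (p + lat w) = f p + lat w) (n : ℕ) :
    ∀ p w, f^[n] (p + lat w) = f^[n] p + lat w := by
  induction n with
  | zero => intro p w; rfl
  | succ n ih => intro p w; rw [iterate_succ_apply, iterate_succ_apply, h, ih]

private theorem BLW_semi {f φ h : ℂ → ℂ} (hs : ∀ p, h (f p) = φ (h p)) (n : ℕ) :
    ∀ p, h (f^[n] p) = φ^[n] (h p) := by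
  induction n with
  | zero => intro p; rfl
  | succ n ih => intro p; rw [iterate_succ_apply, iterate_succ_apply, ih, hs]

private theorem BLW_inv {f g : ℂ → ℂ} (h : ∀ p, f (g p) = p) (n : ℕ) :
    ∀ p, f^[n] (g^[n] p) = p := by
  induction n with
  | zero => intro p; rfl
  | succ n ih => intro p; rw [iterate_succ_apply, iterate_succ_apply', h, ih]

private theorem BLW_nonw {ι : Type} [Countable ι] (S : Sys ι) {f g : ℂ → ℂ} (hfc : Continuous f)
    (hfg : ∀ p, f (g p) = p) (hfe : ∀ p w, f (p + lat w) = f p + lat w)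
    (hsemi : ∀ p, S.h (f p) = S.φ (S.h p))
    (hret : ∀ z ∈ Rat2, ∃ z₀ ∈ Rat2, (∃ (j : ℕ) (w : ℤ × ℤ), S.φ^[j] z₀ = z + lat w) ∧
        ∀ U : Set ℂ, IsOpen U → U.Nonempty → U ⊆ S.K z₀ →
          ∃ N : ℕ, 1 ≤ N ∧ ∃ w : ℤ × ℤ, ∃ p ∈ U, f^[N] p + lat w ∈ U)
    (U : Set ℂ) (hU : IsOpen U) (hne : U.Nonempty) :
    ∃ n : ℕ, 1 ≤ n ∧ ∃ w, ∃ p ∈ U, f^[n] p + lat w ∈ U := by
  obtain ⟨z, hz, q, hqU, hqz⟩ := S.toArr.den hU hne
  obtain ⟨z₀, -, ⟨j, w₀, hj⟩, hr⟩ := hret z hz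
  have hcj : Continuous fun p => f^[j] p - lat w₀ := (hfc.iterate j).sub continuous_const
  have hinj : Injective S.φ := fun a b hab => by
    rw [← S.ψφ a, hab, S.ψφ]
  have hK : ∀ p, f^[j] p - lat w₀ ∈ S.K z → p ∈ S.K z₀ := by
    intro p hp
    have h1 : S.h (f^[j] p - lat w₀) = z := hp
    have h2 : S.h (f^[j] p) = z + lat w₀ := by
      have h3 := S.h_lat (f^[j] p - lat w₀) w₀
      rw [sub_add_cancel, h1] at h3
      exact h3
    rw [BLW_semi hsemi, ← hj] at h2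
    exact hinj.iterate j h2
  set U' : Set ℂ := (fun p => f^[j] p - lat w₀) ⁻¹' (U ∩ interior (S.K z)) with hU'
  have hU'o : IsOpen U' := (hU.inter isOpen_interior).preimage hcj
  have hU'n : U'.Nonempty := by
    refine ⟨g^[j] (q + lat w₀), ?_⟩
    show f^[j] (g^[j] (q + lat w₀)) - lat w₀ ∈ U ∩ interior (S.K z)
    rw [BLW_inv hfg, add_sub_cancel_right]
    exact ⟨hqU, hqz⟩
  have hU'K : U' ⊆ S.K z₀ := fun p hp => hK p (interior_subset hp.2)
  obtain ⟨N, hN, w, p, hp, hp'⟩ := hr U' hU'o hU'n hU'K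
  refine ⟨N, hN, w, f^[j] p - lat w₀, hp.1, ?_⟩
  have h1 : f^[j] (f^[N] p + lat w) - lat w₀ ∈ U := hp'.1
  have h2 : f^[N] (f^[j] p - lat w₀) = f^[N] (f^[j] p) - lat w₀ := by
    have h3 := BLW_lat hfe N (f^[j] p - lat w₀) w₀
    rw [sub_add_cancel] at h3
    rw [h3, add_sub_cancel_right]
  have h4 : f^[j] (f^[N] p + lat w) - lat w₀ = f^[N] (f^[j] p - lat w₀) + lat w := by
    rw [BLW_lat hfe, h2, ← iterate_add_apply, ← iterate_add_apply, add_comm j N]
    ring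
  rw [← h4]
  exact h1

theorem Sys.blow {ι : Type} [Countable ι] (S : Sys ι) : ∃ f g : ℂ → ℂ, Blow S.φ f g S.h := by
  have H : Dyn2 S.toArr S.φ S.ψ := ⟨S.φψ, S.ψφ, S.dφ, S.dψ⟩
  obtain ⟨fb, gb, B⟩ := S.toArr.ext H
  obtain ⟨f, g, hfc, hgc, hgf, hfg, hfe, hsemi, hM, hret⟩ := S.spn B
  exact ⟨f, g,
    { fc := hfc
      gc := hgc
      fg := hfg
      gf := hgf
      feqv := hfe
      heqv := S.h_lat
      hlip := S.h_lip
      hmono := fun p p' => le_trans (by positivity) (S.h_mono p p')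
      hnear := fun p => (S.h_near p).trans (by norm_num)
      hsurj := S.h_surj
      semi := hsemi
      nonw := BLW_nonw S hfc hfg hfe hsemi hret
      thin := fun y hy => S.toArr.K_thin hy
      band := S.bnd
      nper := S.npr B hsemi hM }⟩

end TorD
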