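import Pool.Agent.H51.TD.RAD
import Pool.Agent.H51.TD.BDY

/-! # CNE: the cone maps of the fibres

PROOF. K_frontier: `K z` is closed (K_compact), so `frontier (K z) = K z \ interior (K z)`, and for `p ∈ K z`, `A.h p = z`, so `p ∈ M ↔ p ∉ interior (K z)`. m_int: K_ball. With `g = fb`: `fb` maps
`frontier (K z)` to `frontier (K (φ z))` (B.fM, B.hf; `h p = z`), continuous there (B.fc.mono), `gb` is its inverse. `φ z ∈ Rat2` (H.dφ.rat). Now RAD (K_convex, K_compact). C_inv: `A.C ψ gb (φ z)` is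
`cone (K (φ z)) (m (φ z)) (m (ψ (φ z))) gb` and `ψ (φ z) = z`. C_lat: K_lat, m_lat, `φ (z + lat w) = φ z + lat w`, B.fl, cone_tr. -/

set_option autoImplicit false

open Topology Filter Set Function

namespace TorD

variable {ι : Type} [Countable ι] {A : Arr ι} {φ ψ fb gb : ℂ → ℂ}

theorem Arr.K_frontier (A : Arr ι) (z p : ℂ) : p ∈ frontier (A.K z) ↔ p ∈ A.K z ∧ p ∈ A.M := by
  have hcl : IsClosed (A.K z) := (A.K_compact z).isClosed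
  rw [hcl.frontier_eq, Set.mem_sdiff]
  refine and_congr_right fun hp => ?_
  have h : A.h p = z := hp
  show _ ↔ p ∉ interior (A.K (A.h p))
  rw [h]

theorem Arr.m_int (A : Arr ι) {z : ℂ} (hz : z ∈ Rat2) : A.m z ∈ interior (A.K z) := by
  obtain ⟨r, hr, hsub⟩ := A.K_ball hz
  exact mem_interior_iff_mem_nhds.2 (Filter.mem_of_superset (Metric.ball_mem_nhds _ hr) hsub)

/-- the one sided data -/
structure CNE_S (A : Arr ι) (φ ψ fb gb : ℂ → ℂ) : Prop where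
  fc : ContinuousOn fb A.M
  fM : MapsTo fb A.M A.M
  gf : ∀ p ∈ A.M, gb (fb p) = p
  hf : ∀ p ∈ A.M, A.h (fb p) = φ (A.h p)
  fl : ∀ p ∈ A.M, ∀ w, fb (p + lat w) = fb p + lat w
  ψφ : ∀ z, ψ (φ z) = z
  rat : ∀ z, φ z ∈ Rat2 ↔ z ∈ Rat2
  eqv : ∀ x w, φ (x + lat w) = φ x + lat w

theorem CNE_S1 (H : Dyn2 A φ ψ) (B : Bd A φ ψ fb gb) : CNE_S A φ ψ fb gb where
  fc := B.fc
  fM := B.fM
  gf := B.gf
  hf := B.hf
  fl := B.fl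
  ψφ := H.ψφ
  rat := H.dφ.rat
  eqv := H.dφ.eqv

theorem CNE_S2 (H : Dyn2 A φ ψ) (B : Bd A φ ψ fb gb) : CNE_S A ψ φ gb fb where
  fc := B.gc
  fM := B.gM
  gf := B.fg
  hf := B.hg
  fl := B.gl
  ψφ := H.φψ
  rat := H.dψ.rat
  eqv := H.dψ.eqv

theorem CNE_sub (A : Arr ι) (z : ℂ) : frontier (A.K z) ⊆ A.M := fun p hp =>
  ((A.K_frontier z p).1 hp).2

theorem CNE_fr (S : CNE_S A φ ψ fb gb) (z : ℂ) :
    MapsTo fb (frontier (A.K z)) (frontier (A.K (φ z))) := by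
  intro p hp
  obtain ⟨h1, h2⟩ := (A.K_frontier z p).1 hp
  refine (A.K_frontier (φ z) (fb p)).2 ⟨?_, S.fM h2⟩
  show A.h (fb p) = φ z
  rw [S.hf p h2, show A.h p = z from h1]

theorem CNE_cont (S : CNE_S A φ ψ fb gb) {z : ℂ} (hz : z ∈ Rat2) :
    ContinuousOn (A.C φ fb z) (A.K z) :=
  cone_cont (A.K_compact z) (A.K_convex z) (A.m_int hz) (S.fc.mono (CNE_sub A z))

theorem CNE_maps (S : CNE_S A φ ψ fb gb) {z : ℂ} (hz : z ∈ Rat2) :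
    MapsTo (A.C φ fb z) (A.K z) (A.K (φ z)) :=
  cone_maps (A.K_compact z) (A.K_convex z) (A.m_int hz) (A.K_compact (φ z)) (A.K_convex (φ z))
    (A.m_int ((S.rat z).2 hz)) (CNE_fr S z)

theorem CNE_inv (S : CNE_S A φ ψ fb gb) {z : ℂ} (hz : z ∈ Rat2) {p : ℂ} (hp : p ∈ A.K z) :
    A.C ψ gb (φ z) (A.C φ fb z p) = p := by
  have h := cone_inv (g := fb) (g' := gb) (A.K_compact z) (A.K_convex z) (A.m_int hz)
    (A.K_compact (φ z)) (A.K_convex (φ z)) (A.m_int ((S.rat z).2 hz)) (CNE_fr S z)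
    (fun b hb => S.gf b (CNE_sub A z hb)) p hp
  unfold Arr.C
  rw [S.ψφ z]
  exact h

theorem CNE_ext (S : CNE_S A φ ψ fb gb) {z : ℂ} (hz : z ∈ Rat2) {p : ℂ}
    (hp : p ∈ A.K z) (hM : p ∈ A.M) : A.C φ fb z p = fb p :=
  cone_ext (A.K_compact z) (A.K_convex z) (A.m_int hz) fb ((A.K_frontier z p).2 ⟨hp, hM⟩)

theorem CNE_lat (S : CNE_S A φ ψ fb gb) {z : ℂ} (hz : z ∈ Rat2) {p : ℂ}
    (hp : p ∈ A.K z) (w : ℤ × ℤ) : A.C φ fb (z + lat w) (p + lat w) = A.C φ fb z p + lat w := by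
  unfold Arr.C
  rw [A.K_lat, A.m_lat, S.eqv, A.m_lat]
  exact cone_tr (A.K_compact z) (A.K_convex z) (A.m_int hz) (lat w)
    (fun b hb => S.fl b (CNE_sub A z hb) w) hp

theorem C_cont (H : Dyn2 A φ ψ) (B : Bd A φ ψ fb gb) {z : ℂ} (hz : z ∈ Rat2) :
    ContinuousOn (A.C φ fb z) (A.K z) := by
  exact CNE_cont (CNE_S1 H B) hz

theorem C_maps (H : Dyn2 A φ ψ) (B : Bd A φ ψ fb gb) {z : ℂ} (hz : z ∈ Rat2) :
    MapsTo (A.C φ fb z) (A.K z) (A.K (φ z)) := by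
  exact CNE_maps (CNE_S1 H B) hz

theorem C_inv (H : Dyn2 A φ ψ) (B : Bd A φ ψ fb gb) {z : ℂ} (hz : z ∈ Rat2) {p : ℂ}
    (hp : p ∈ A.K z) : A.C ψ gb (φ z) (A.C φ fb z p) = p := by
  exact CNE_inv (CNE_S1 H B) hz hp

theorem C_inv' (H : Dyn2 A φ ψ) (B : Bd A φ ψ fb gb) {z : ℂ} (hz : z ∈ Rat2) {p : ℂ}
    (hp : p ∈ A.K z) : A.C φ fb (ψ z) (A.C ψ gb z p) = p := by
  exact CNE_inv (CNE_S2 H B) hz hp

theorem C_maps' (H : Dyn2 A φ ψ) (B : Bd A φ ψ fb gb) {z : ℂ} (hz : z ∈ Rat2) :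
    MapsTo (A.C ψ gb z) (A.K z) (A.K (ψ z)) := by
  exact CNE_maps (CNE_S2 H B) hz

theorem C_cont' (H : Dyn2 A φ ψ) (B : Bd A φ ψ fb gb) {z : ℂ} (hz : z ∈ Rat2) :
    ContinuousOn (A.C ψ gb z) (A.K z) := by
  exact CNE_cont (CNE_S2 H B) hz

theorem C_ext (H : Dyn2 A φ ψ) (B : Bd A φ ψ fb gb) {z : ℂ} (hz : z ∈ Rat2) {p : ℂ}
    (hp : p ∈ A.K z) (hM : p ∈ A.M) : A.C φ fb z p = fb p ∧ A.C ψ gb z p = gb p := by
  exact ⟨CNE_ext (CNE_S1 H B) hz hp hM, CNE_ext (CNE_S2 H B) hz hp hM⟩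

theorem C_lat (H : Dyn2 A φ ψ) (B : Bd A φ ψ fb gb) {z : ℂ} (hz : z ∈ Rat2) {p : ℂ}
    (hp : p ∈ A.K z) (w : ℤ × ℤ) : A.C φ fb (z + lat w) (p + lat w) = A.C φ fb z p + lat w := by
  exact CNE_lat (CNE_S1 H B) hz hp w

theorem C_lat' (H : Dyn2 A φ ψ) (B : Bd A φ ψ fb gb) {z : ℂ} (hz : z ∈ Rat2) {p : ℂ}
    (hp : p ∈ A.K z) (w : ℤ × ℤ) : A.C ψ gb (z + lat w) (p + lat w) = A.C ψ gb z p + lat w := by
  exact CNE_lat (CNE_S2 H B) hz hp w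

theorem C_form (H : Dyn2 A φ ψ) (B : Bd A φ ψ fb gb) {z : ℂ} (hz : z ∈ Rat2) {p : ℂ}
    (hp : p ∈ A.K z) : ∃ b ∈ A.K z, b ∈ A.M ∧ ∃ r ∈ Icc (0 : ℝ) 1, p = A.m z + r • (b - A.m z) ∧
      A.C φ fb z p = A.m (φ z) + r • (fb b - A.m (φ z)) := by
  obtain ⟨b, hb, r, hr, h1, h2⟩ := cone_form (m' := A.m (φ z)) (A.K_compact z) (A.K_convex z)
    (A.m_int hz) fb hp
  obtain ⟨h3, h4⟩ := (A.K_frontier z b).1 hb
  exact ⟨b, h3, h4, r, hr, h1, h2⟩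

end TorD
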