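import Pool.Agent.H51.TD.PLA

/-! # CRV: the curves `ph^n(0,t)`, `pi^n(0,t)`

PROOF. The curve `t ↦ t i = (0, t)` is `PLC 1 1 (a = 0 ∧ c = 1)`. Cones: after `Hh`: `(±8, 1)`; after `Vv`: `(±8, 1 ± 64)`, so `a ≠ 0`, `7|a| ≤ |c|`. If `a ≠ 0` (or `c ≠ 0`) and
`7|a| ≤ |c|`: `a' = a + σ c` has `|a'| ≥ 8|c| - |a| ≥ 7 |c|`, `c ≠ 0`; then `c' = c + σ a'` has `|c'| ≥ 8|a'| - |c| ≥ 7|a'|`, `a' ≠ 0`. Induction with
plc_Hh, plc_Vv (`ph^[n+1] x = ph (ph^[n] x)`). Backwards: `Vi`: `(0,1)` to `(0,1)`; `Hi`: `(±8, 1)`: `a ≠ 0 ∧ 7|c| ≤ |a|`; then `Vi`: `c' = c + σ a`, `|c'| ≥ 7|a|`, `a ≠ 0` so `c' ≠ 0`; `Hi`: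
`a' = a + σ c'`, `|a'| ≥ 8|c'| - |a| ≥ 7|c'|`, `a' ≠ 0`. crv_rat: `t` lies in some `[k/N,(k+1)/N]`, `k = ⌊N t⌋`, `a t + b = m` with `a ≠ 0`: `t` rational. crv_fin: on each of the
`N` intervals of `[0,1]`, `a t + b = m ∈ ℤ` has finitely many solutions `t = (m - b)/a ∈ [0,1]` (`|m - b| ≤ |a| ≤ M`). -/

set_option autoImplicit false

open Topology Filter Set Function

namespace TorD

private theorem CRV_stepA (a c σ : ℤ) (h : a ≠ 0 ∧ 7 * |a| ≤ |c|) (hσ : σ = 8 ∨ σ = -8) :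
    c ≠ 0 ∧ 7 * |c| ≤ |a + σ * c| := by
  obtain ⟨h1, h2⟩ := h
  rcases hσ with rfl | rfl <;>
  rcases abs_cases a with h3 | h3 <;> rcases abs_cases c with h4 | h4
  all_goals
    constructor
    · omega
    · rw [le_abs]
      omega

private theorem CRV_stepB (a c σ : ℤ) (h : c ≠ 0 ∧ 7 * |c| ≤ |a|) (hσ : σ = 8 ∨ σ = -8) :
    a ≠ 0 ∧ 7 * |a| ≤ |c + σ * a| := CRV_stepA c a σ h hσ

private theorem CRV_stepC (a c σ : ℤ) (h : a ≠ 0 ∧ 7 * |c| ≤ |a|) (hσ : σ = 8 ∨ σ = -8) :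
    c + σ * a ≠ 0 ∧ 7 * |a| ≤ |c + σ * a| := by
  obtain ⟨h1, h2⟩ := h
  rcases hσ with rfl | rfl <;>
  rcases abs_cases a with h3 | h3 <;> rcases abs_cases c with h4 | h4
  all_goals
    constructor
    · omega
    · rw [le_abs]
      omega

private theorem CRV_I (t : ℝ) : (t * Complex.I : ℂ) = ⟨0, t⟩ := by
  apply Complex.ext <;> simp

theorem crv_zero : PLC 1 1 (fun a c => a = 0 ∧ c = 1) fun t => (t * Complex.I : ℂ) := by
  intro k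
  refine ⟨0, 0, 1, 0, ⟨rfl, rfl⟩, by norm_num, by norm_num, fun t _ => ?_⟩
  simp only
  rw [CRV_I]
  apply Complex.ext <;> simp

theorem crv_fwd {n : ℕ} (hn : 1 ≤ n) : ∃ (N : ℕ) (M : ℤ), 0 < N ∧
    PLC N M (fun a c => a ≠ 0 ∧ 7 * |a| ≤ |c|) fun t => ph^[n] (t * Complex.I) := by
  induction n, hn using Nat.le_induction with
  | base =>
    obtain ⟨N1, hN1, _, h1⟩ := plc_Hh (Q' := fun a c => (a = 8 ∨ a = -8) ∧ c = 1) crv_zero one_pos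
      (by
        rintro a c σ ⟨rfl, rfl⟩ hσ
        exact ⟨by omega, rfl⟩)
    obtain ⟨N2, hN2, _, h2⟩ := plc_Vv (Q' := fun a c => a ≠ 0 ∧ 7 * |a| ≤ |c|) h1 hN1
      (by
        rintro a c σ ⟨ha, rfl⟩ hσ
        rcases hσ with rfl | rfl <;> rcases ha with rfl | rfl <;> norm_num)
    exact ⟨N2, _, hN2, h2⟩
  | succ n hn ih =>
    obtain ⟨N, M, hN, h⟩ := ih
    obtain ⟨N1, hN1, _, h1⟩ := plc_Hh (Q' := fun a c => c ≠ 0 ∧ 7 * |c| ≤ |a|) h hN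
      (by
        rintro a c σ h hσ
        exact CRV_stepA a c σ h hσ)
    obtain ⟨N2, hN2, _, h2⟩ := plc_Vv (Q' := fun a c => a ≠ 0 ∧ 7 * |a| ≤ |c|) h1 hN1
      (by
        rintro a c σ h hσ
        exact CRV_stepB a c σ h hσ)
    refine ⟨N2, 9 * (9 * M), hN2, ?_⟩
    have h3 : (fun t : ℝ => ph^[n + 1] (t * Complex.I)) =
        fun t : ℝ => Vv (Hh (ph^[n] (t * Complex.I))) := by
      funext t
      rw [Function.iterate_succ_apply']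
      rfl
    rw [h3]
    exact h2

theorem crv_bwd {n : ℕ} (hn : 1 ≤ n) : ∃ (N : ℕ) (M : ℤ), 0 < N ∧
    PLC N M (fun a c => a ≠ 0 ∧ 7 * |c| ≤ |a|) fun t => pi^[n] (t * Complex.I) := by
  induction n, hn using Nat.le_induction with
  | base =>
    obtain ⟨N1, hN1, _, h1⟩ := plc_Vi (Q' := fun a c => a = 0 ∧ c = 1) crv_zero one_pos
      (by
        rintro a c σ ⟨rfl, rfl⟩ hσ
        exact ⟨rfl, by omega⟩)
    obtain ⟨N2, hN2, _, h2⟩ := plc_Hi (Q' := fun a c => a ≠ 0 ∧ 7 * |c| ≤ |a|) h1 hN1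
      (by
        rintro a c σ ⟨rfl, rfl⟩ hσ
        rcases hσ with rfl | rfl <;> norm_num)
    exact ⟨N2, _, hN2, h2⟩
  | succ n hn ih =>
    obtain ⟨N, M, hN, h⟩ := ih
    obtain ⟨N1, hN1, _, h1⟩ := plc_Vi (Q' := fun a c => c ≠ 0 ∧ 7 * |a| ≤ |c|) h hN
      (by
        rintro a c σ h hσ
        exact CRV_stepC a c σ h hσ)
    obtain ⟨N2, hN2, _, h2⟩ := plc_Hi (Q' := fun a c => a ≠ 0 ∧ 7 * |c| ≤ |a|) h1 hN1
      (by
        rintro a c σ h hσ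
        exact CRV_stepC c a σ h hσ)
    refine ⟨N2, 9 * (9 * M), hN2, ?_⟩
    have h3 : (fun t : ℝ => pi^[n + 1] (t * Complex.I)) =
        fun t : ℝ => Hi (Vi (pi^[n] (t * Complex.I))) := by
      funext t
      rw [Function.iterate_succ_apply']
      rfl
    rw [h3]
    exact h2

theorem crv_rat {N : ℕ} {M : ℤ} {Q : ℤ → ℤ → Prop} {γ : ℝ → ℂ} (h : PLC N M Q γ) (hN : 0 < N)
    (hQ : ∀ a c, Q a c → a ≠ 0) {t : ℝ} {k : ℤ} (ht : (γ t).re = k) : ∃ r : ℚ, t = r := by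
  have hN' : (0 : ℝ) < N := by exact_mod_cast hN
  obtain ⟨a, b, c, d, hac, _, _, hJ⟩ := h ⌊(N : ℝ) * t⌋
  have ha := hQ a c hac
  have h1 := hJ t ⟨by
    rw [div_le_iff₀ hN', mul_comm]
    exact Int.floor_le _, by
    rw [le_div_iff₀ hN', mul_comm]
    exact (Int.lt_floor_add_one _).le⟩
  rw [h1] at ht
  have ht : (a : ℝ) * t + b = k := ht
  refine ⟨((k : ℚ) - b) / a, ?_⟩
  have ha' : (a : ℝ) ≠ 0 := by exact_mod_cast ha
  push_cast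
  rw [eq_div_iff ha']
  linarith

theorem crv_fin {N : ℕ} {M : ℤ} {Q : ℤ → ℤ → Prop} {γ : ℝ → ℂ} (h : PLC N M Q γ) (hN : 0 < N)
    (hQ : ∀ a c, Q a c → a ≠ 0) :
    ∃ F : Finset ℝ, ∀ t ∈ Icc (0 : ℝ) 1, ∀ k : ℤ, (γ t).re = k → t ∈ F := by
  classical
  have hN' : (0 : ℝ) < N := by exact_mod_cast hN
  choose a b c d hac haM _ hJ using h
  refine ⟨(Finset.Icc (0 : ℤ) N).biUnion fun i => (Finset.Icc (-M) M).image fun m : ℤ =>
    (m : ℝ) / (a i : ℝ), fun t ht k hk => ?_⟩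
  have h0 : 0 ≤ ⌊(N : ℝ) * t⌋ := Int.floor_nonneg.2 (mul_nonneg hN'.le ht.1)
  have h1 : ⌊(N : ℝ) * t⌋ ≤ N := by
    have h2 : (N : ℝ) * t ≤ ((N : ℤ) : ℝ) := by
      push_cast
      nlinarith [ht.2]
    exact (Int.floor_le_floor h2).trans (by rw [Int.floor_intCast])
  obtain ⟨i, hi⟩ : ∃ i : ℤ, i = ⌊(N : ℝ) * t⌋ := ⟨_, rfl⟩
  rw [← hi] at h0 h1
  have ha := hQ _ _ (hac i)
  have ha' : (a i : ℝ) ≠ 0 := by exact_mod_cast ha
  have h3 := hJ i t ⟨by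
    rw [div_le_iff₀ hN', mul_comm, hi]
    exact Int.floor_le _, by
    rw [le_div_iff₀ hN', mul_comm, hi]
    exact (Int.lt_floor_add_one _).le⟩
  rw [h3] at hk
  have hk : (a i : ℝ) * t + b i = k := hk
  rw [Finset.mem_biUnion]
  refine ⟨i, Finset.mem_Icc.2 ⟨h0, h1⟩, ?_⟩
  rw [Finset.mem_image]
  refine ⟨k - b i, ?_, ?_⟩
  · have h4 : |((k - b i : ℤ) : ℝ)| ≤ M := by
      push_cast
      have h5 : (k : ℝ) - b i = a i * t := by linarith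
      rw [h5, abs_mul, abs_of_nonneg ht.1]
      have h6 : |(a i : ℝ)| ≤ M := by exact_mod_cast haM i
      calc |(a i : ℝ)| * t ≤ |(a i : ℝ)| * 1 := mul_le_mul_of_nonneg_left ht.2 (abs_nonneg _)
        _ ≤ M := by rw [mul_one]; exact h6
    have h7 : |k - b i| ≤ M := by exact_mod_cast h4
    exact Finset.mem_Icc.2 (abs_le.1 h7)
  · push_cast
    rw [div_eq_iff ha']
    linarith

end TorD
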