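import Pool.Agent.H51.TD.HPL

/-! # THA: finitely many exceptional rational points

PROOF. For `i` with `u i ≠ 0` let `(F i, T i)` be given by H.dφ.edf and `(F' i, T' i)` by H.dψ.edf. `X` is the union of: (a) for `i ∈ S`, `u i = 0`: `q i` and `ψ (q i)` [`On i z`, `u i = 0` gives `z = q i + lat w`
(On_iff); `On i (φ z)` gives `z = ψ (q i) + lat w`]; (b) `i ∈ S`, `u i ≠ 0`: `F i` and `ψ '' F' i`; (c) for `i ≠ i'` in `S`: the set of A.fin2 and its image under `ψ`;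
(d) for `j ∈ T i` (`i ∈ S`), `i' ∈ S`, `j ≠ i'`: the image under `ψ` of the set of fin2; for `k ∈ T' i` (`i ∈ S`), `i' ∈ S`, `k ≠ i'`: the set of fin2. (`Finset.biUnion`; or first show that a finite union of such
finite exceptional sets is exceptional: an induction lemma for predicates `E z` with `∃ X : Finset ℂ, ∀ z, E z → ∃ x ∈ X, ∃ w, z = x + lat w`, closed under finite unions and `E ∘ φ`.)
Let `z` be not exceptional. If some `k ∈ S` is on `z`: `u k ≠ 0`, edf gives `j ∈ T k`, `u j ≠ 0`, `r > 0` two sided; this is `TS` (with `r' = r`; replace `ε` by `-ε`), `On j (φ z)` (`ε = 0`,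
`Eventually.self_of_nhds`); uniqueness from (c), (d). If no `k ∈ S` is on `z` but some `j ∈ S` is on `φ z`: edf for `ψ` at `φ z`: `k ∈ T' j`, `r > 0`, `ψ (φ z + ε u j) = z + (ε r) u k`, so
`φ (z + (ε r) u k) = φ z + ε u j`, i.e. `φ (z + ε u k) = φ z + (ε/r) u j`: `TS z k j`. -/

set_option autoImplicit false

open Topology Filter Set Function

namespace TorD

/-- `E` holds only on finitely many points modulo the lattice -/
def THA_Fn (E : ℂ → Prop) : Prop := ∃ X : Finset ℂ, ∀ z, E z → ∃ x ∈ X, ∃ w, z = x + lat w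

theorem THA_mono {E E' : ℂ → Prop} (h : ∀ z, E z → E' z) (h' : THA_Fn E') : THA_Fn E := by
  obtain ⟨X, hX⟩ := h'
  exact ⟨X, fun z hz => hX z (h z hz)⟩

theorem THA_or {E E' : ℂ → Prop} (h : THA_Fn E) (h' : THA_Fn E') :
    THA_Fn (fun z => E z ∨ E' z) := by
  classical
  obtain ⟨X, hX⟩ := h
  obtain ⟨X', hX'⟩ := h'
  refine ⟨X ∪ X', fun z hz => ?_⟩
  rcases hz with hz | hz
  · obtain ⟨x, hx, w, hw⟩ := hX z hz
    exact ⟨x, Finset.mem_union_left _ hx, w, hw⟩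
  · obtain ⟨x, hx, w, hw⟩ := hX' z hz
    exact ⟨x, Finset.mem_union_right _ hx, w, hw⟩

theorem THA_ex {ι : Type} (S : Finset ι) {E : ι → ℂ → Prop} (h : ∀ i ∈ S, THA_Fn (E i)) :
    THA_Fn (fun z => ∃ i ∈ S, E i z) := by
  classical
  induction S using Finset.induction_on with
  | empty =>
    refine ⟨∅, fun z hz => ?_⟩
    obtain ⟨i, hi, -⟩ := hz
    exact absurd hi (Finset.notMem_empty i)
  | insert a s ha ih =>
    have h1 := THA_or (h a (Finset.mem_insert_self a s))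
      (ih fun i hi => h i (Finset.mem_insert_of_mem hi))
    refine THA_mono (fun z hz => ?_) h1
    obtain ⟨i, hi, hE⟩ := hz
    rcases Finset.mem_insert.1 hi with rfl | hi
    · exact Or.inl hE
    · exact Or.inr ⟨i, hi, hE⟩

theorem THA_comp {ι : Type} {A : Arr ι} {φ ψ : ℂ → ℂ} (H : Dyn2 A φ ψ) {E : ℂ → Prop}
    (h : THA_Fn E) : THA_Fn (fun z => E (φ z)) := by
  classical
  obtain ⟨X, hX⟩ := h
  refine ⟨X.image ψ, fun z hz => ?_⟩
  obtain ⟨x, hx, w, hw⟩ := hX _ hz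
  refine ⟨ψ x, Finset.mem_image_of_mem ψ hx, w, ?_⟩
  rw [← H.ψφ z, hw, H.dψ.eqv]

/-- the two sided germ condition -/
def THA_G {ι : Type} (A : Arr ι) (φ : ℂ → ℂ) (z : ℂ) (i j : ι) : Prop :=
  A.u j ≠ 0 ∧ ∃ r : ℝ, 0 < r ∧ ∀ᶠ ε in 𝓝 (0 : ℝ), A.On i (z + ε • A.u i) ∧
      A.On j (φ z + ε • A.u j) ∧ φ (z + ε • A.u i) = φ z + (ε * r) • A.u j

theorem THA_edf {ι : Type} (A : Arr ι) {φ : ℂ → ℂ} (H : IsDyn A φ) : ∃ T : ι → Finset ι,
    ∀ i, A.u i ≠ 0 → THA_Fn (fun z => A.On i z ∧ ¬ ∃ j ∈ T i, THA_G A φ z i j) := by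
  have h : ∀ i, ∃ T : Finset ι, A.u i ≠ 0 →
      THA_Fn (fun z => A.On i z ∧ ¬ ∃ j ∈ T, THA_G A φ z i j) := by
    intro i
    by_cases hi : A.u i ≠ 0
    · obtain ⟨F, T, h1⟩ := H.edf i hi
      refine ⟨T, fun _ => ⟨F, fun z hz => ?_⟩⟩
      rcases h1 z hz.1 with h2 | ⟨j, hj, h2, h3⟩
      · exact h2
      · exact absurd ⟨j, hj, h2, h3⟩ hz.2
    · exact ⟨∅, fun h => absurd h hi⟩
  choose T hT using h
  exact ⟨T, hT⟩

theorem THA_TS {ι : Type} (A : Arr ι) (φ : ℂ → ℂ) (z : ℂ) (k j : ι) (hk : A.u k ≠ 0)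
    (hj : A.u j ≠ 0) (r : ℝ) (hr : 0 < r)
    (h : ∀ᶠ ε in 𝓝 (0 : ℝ), A.On k (z + ε • A.u k) ∧
      A.On j (φ z + ε • A.u j) ∧ φ (z + ε • A.u k) = φ z + (ε * r) • A.u j) :
    TS A.toFam φ z k j := by
  refine ⟨hk, hj, r, r, hr, hr, ?_⟩
  have h1 : ∀ᶠ ε in 𝓝[>] (0 : ℝ), A.On k (z + ε • A.u k) ∧
      A.On j (φ z + ε • A.u j) ∧ φ (z + ε • A.u k) = φ z + (ε * r) • A.u j :=
    nhdsWithin_le_nhds h
  have h2 : Tendsto (fun ε : ℝ => -ε) (𝓝[>] 0) (𝓝 0) := by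
    have h3 : Tendsto (fun ε : ℝ => -ε) (𝓝 0) (𝓝 (-0)) := continuous_neg.tendsto 0
    rw [neg_zero] at h3
    exact h3.mono_left nhdsWithin_le_nhds
  filter_upwards [h1, h2.eventually h] with ε hε hε'
  have e : ∀ (x v : ℂ) (s : ℝ), x - s • v = x + (-s) • v := by
    intro x v s
    rw [neg_smul, sub_eq_add_neg]
  refine ⟨hε.1, ?_, hε.2.1, ?_, hε.2.2, ?_⟩
  · rw [e]
    exact hε'.1
  · rw [e]
    exact hε'.2.1
  · rw [e, e, hε'.2.2, neg_mul]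

theorem Arr.thin_comb {ι : Type} (A : Arr ι) {φ ψ : ℂ → ℂ} (H : Dyn2 A φ ψ) (S : Finset ι) :
    ∃ X : Finset ℂ, ∀ z ∈ Rat2, (¬ ∃ x ∈ X, ∃ w, z = x + lat w) →
      (∀ i ∈ S, ¬ A.On i z ∧ ¬ A.On i (φ z)) ∨
      ∃ k j, TS A.toFam φ z k j ∧ (∀ i ∈ S, A.On i z → i = k) ∧ ∀ i ∈ S, A.On i (φ z) → i = j := by
  classical
  obtain ⟨T, hT⟩ := THA_edf A H.dφ
  obtain ⟨T', hT'⟩ := THA_edf A H.dψ
  -- the exceptional sets
  have ha : THA_Fn (fun z => ∃ i ∈ S, A.u i = 0 ∧ A.On i z) := by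
    refine THA_ex S fun i _ => ⟨{A.q i}, fun z hz => ⟨A.q i, Finset.mem_singleton_self _, ?_⟩⟩
    obtain ⟨w, t, -, hw⟩ := (A.On_iff i z).1 hz.2
    refine ⟨w, ?_⟩
    rw [hw, hz.1, smul_zero, add_zero]
  have hb : THA_Fn (fun z => ∃ i ∈ S, A.u i ≠ 0 ∧ A.On i z ∧
      ¬ ∃ j ∈ T i, THA_G A φ z i j) := by
    refine THA_ex S fun i _ => ?_
    by_cases hi : A.u i ≠ 0
    · exact THA_mono (fun z hz => hz.2) (hT i hi)
    · exact ⟨∅, fun z hz => absurd hz.1 hi⟩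
  have hb' : THA_Fn (fun z => ∃ i ∈ S, A.u i ≠ 0 ∧ A.On i z ∧
      ¬ ∃ j ∈ T' i, THA_G A ψ z i j) := by
    refine THA_ex S fun i _ => ?_
    by_cases hi : A.u i ≠ 0
    · exact THA_mono (fun z hz => hz.2) (hT' i hi)
    · exact ⟨∅, fun z hz => absurd hz.1 hi⟩
  have hf2 : ∀ i j : ι, THA_Fn (fun z => i ≠ j ∧ A.On i z ∧ A.On j z) := by
    intro i j
    by_cases hij : i ≠ j
    · obtain ⟨F, hF⟩ := A.fin2 i j hij
      exact ⟨F, fun z hz => hF z hz.2.1 hz.2.2⟩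
    · exact ⟨∅, fun z hz => absurd hz.1 hij⟩
  have hc : THA_Fn (fun z => ∃ i ∈ S, ∃ j ∈ S, i ≠ j ∧ A.On i z ∧ A.On j z) :=
    THA_ex S fun i _ => THA_ex S fun j _ => hf2 i j
  have hd : THA_Fn (fun z => ∃ i ∈ S, ∃ j ∈ T i, ∃ i' ∈ S, i' ≠ j ∧ A.On i' z ∧ A.On j z) :=
    THA_ex S fun i _ => THA_ex (T i) fun j _ => THA_ex S fun i' _ => hf2 i' j
  obtain ⟨X, hX⟩ := THA_or (THA_or (THA_or ha (THA_comp H ha)) (THA_or hb (THA_comp H hb')))
    (THA_or (THA_or hc (THA_comp H hc)) (THA_comp H hd))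
  refine ⟨X, fun z _ hz => ?_⟩
  have hno := fun h => hz (hX z h)
  by_cases h1 : ∃ k ∈ S, A.On k z
  · obtain ⟨k, hk, hon⟩ := h1
    right
    have hu : A.u k ≠ 0 := fun h0 => hno (Or.inl (Or.inl (Or.inl ⟨k, hk, h0, hon⟩)))
    have hG : ∃ j ∈ T k, THA_G A φ z k j := by
      by_contra hcon
      exact hno (Or.inl (Or.inr (Or.inl ⟨k, hk, hu, hon, hcon⟩)))
    obtain ⟨j, hj, huj, r, hr, hev⟩ := hG
    refine ⟨k, j, THA_TS A φ z k j hu huj r hr hev, ?_, ?_⟩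
    · intro i hi hoi
      by_contra hne
      exact hno (Or.inr (Or.inl (Or.inl ⟨i, hi, k, hk, hne, hoi, hon⟩)))
    · intro i hi hoi
      by_contra hne
      have hself := hev.self_of_nhds.2.1
      rw [zero_smul, add_zero] at hself
      exact hno (Or.inr (Or.inr ⟨k, hk, j, hj, i, hi, hne, hoi, hself⟩))
  · by_cases h2 : ∃ j ∈ S, A.On j (φ z)
    · obtain ⟨j, hj, hon⟩ := h2
      right
      have hu : A.u j ≠ 0 := fun h0 => hno (Or.inl (Or.inl (Or.inr ⟨j, hj, h0, hon⟩)))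
      have hG : ∃ k ∈ T' j, THA_G A ψ (φ z) j k := by
        by_contra hcon
        exact hno (Or.inl (Or.inr (Or.inr ⟨j, hj, hu, hon, hcon⟩)))
      obtain ⟨k, hk, huk, r, hr, hev⟩ := hG
      refine ⟨k, j, THA_TS A φ z k j huk hu r⁻¹ (inv_pos.2 hr) ?_, ?_, ?_⟩
      · have h3 : Tendsto (fun ε : ℝ => ε * r⁻¹) (𝓝 0) (𝓝 0) := by
          have h4 : Tendsto (fun ε : ℝ => ε * r⁻¹) (𝓝 0) (𝓝 (0 * r⁻¹)) :=
            (continuous_id.mul continuous_const).tendsto 0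
          rwa [zero_mul] at h4
        filter_upwards [hev, h3.eventually hev] with ε hε hε'
        rw [H.ψφ] at hε hε'
        refine ⟨hε.2.1, hε.1, ?_⟩
        have h5 := congrArg φ hε'.2.2
        rw [H.φψ, inv_mul_cancel_right₀ hr.ne'] at h5
        exact h5.symm
      · intro i hi hoi
        exact absurd ⟨i, hi, hoi⟩ h1
      · intro i hi hoi
        by_contra hne
        exact hno (Or.inr (Or.inl (Or.inr ⟨i, hi, j, hj, hne, hoi, hon⟩)))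
    · left
      intro i hi
      exact ⟨fun h => h1 ⟨i, hi, h⟩, fun h => h2 ⟨i, hi, h⟩⟩

end TorD
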