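import Pool.Agent.H51.TD.LEV
import Pool.Agent.H51.TD.BDY

/-! # THB: the metric estimate

PROOF. Let `tail = ∑' i, (if i ∈ S then 0 else c i) ≤ η`. First alternative: `b = b₀`: `p - b₀ = (1 - r) (m z - b₀)`, and by K_diam `‖m z - b₀‖ ≤ 2 ∑' i, (if On i z then c i else 0) ≤ 2 η`; same over `φ z`
(`fb b₀ ∈ K (φ z)`, `m (φ z) ∈ K (φ z)`; h_m).
Second: `b₀ = P z θ s` (M_P), `Dr φ z θ θ'` (Dr_exists), `fb b₀ = P (φ z) θ' s` (B.fP). TS.lev: `W k z θ s = σ • nn k`, `W j (φ z) θ' s = σ • nn j`. Put `b = P z (e k) (r σ)`: in `K z` (h_P) and in `M` (P_M).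
`fb b = P (φ z) (e j) (r σ)` (TS.dir, B.fP). `p - b = ∑' i, c i • (sel i z + r • (W i z θ s - sel i z) - W i z (e k) (r σ))` (all sums absolutely convergent, TSL). The term `k` is `0`: `sel k z = 0` (sel_on, TS.int),
`r σ nn - r σ nn = 0` (W_al with TS.dir). For `i ∈ S`, `i ≠ k`: `i` is not on `z`, all three values are `sel i z` (D_single, W_mem): `0`. For `i ∉ S` the term has norm `≤ 2 c i` (values in the unit ball,
convex combination). So `‖p - b‖ ≤ 2 η`. The same over `φ z` with `j`, `e j`, `θ'`. -/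

set_option autoImplicit false

open Topology Filter Set Function

namespace TorD

open Classical in
theorem THB_sum {ι : Type} (A : Arr ι) (S : Finset ι) :
    Summable fun i => (if i ∈ S then 0 else A.c i) := by
  refine Summable.of_nonneg_of_le (fun i => ?_) (fun i => ?_) A.csum
  · split_ifs
    · exact le_rfl
    · exact (A.cpos i).le
  · split_ifs
    · exact (A.cpos i).le
    · exact le_rfl

open Classical in
theorem THB_diam {ι : Type} [Countable ι] (A : Arr ι) (S : Finset ι) {η : ℝ}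
    (hη : ∑' i, (if i ∈ S then 0 else A.c i) ≤ η) {y p p' : ℂ} (h : A.h p = y) (h' : A.h p' = y)
    (hS : ∀ i ∈ S, ¬ A.On i y) : ‖p - p'‖ ≤ 2 * η := by
  have h1 := A.K_diam h h'
  have h2 : Summable fun i => (if A.On i y then A.c i else 0) := by
    refine Summable.of_nonneg_of_le (fun i => ?_) (fun i => ?_) A.csum
    · split_ifs
      · exact (A.cpos i).le
      · exact le_rfl
    · split_ifs
      · exact le_rfl
      · exact (A.cpos i).le
  have h3 : ∑' i, (if A.On i y then A.c i else 0) ≤ ∑' i, (if i ∈ S then 0 else A.c i) := by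
    refine Summable.tsum_le_tsum (fun i => ?_) h2 (THB_sum A S)
    by_cases hi : i ∈ S
    · rw [if_neg (hS i hi), if_pos hi]
    · rw [if_neg hi]
      split_ifs
      · exact le_rfl
      · exact (A.cpos i).le
  linarith

theorem THB_half {p b : ℂ} {r : ℝ} (hr : r ∈ Icc (0 : ℝ) 1) :
    ‖(p + r • (b - p)) - b‖ ≤ ‖p - b‖ := by
  have e : (p + r • (b - p)) - b = (1 - r) • (p - b) := by
    rw [sub_smul, one_smul, smul_sub, smul_sub]
    abel
  rw [e, norm_smul, Real.norm_of_nonneg (by linarith [hr.2])]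
  have h1 : 1 - r ≤ 1 := by linarith [hr.1]
  exact mul_le_of_le_one_left (norm_nonneg _) h1

open Classical in
theorem THB_est {ι : Type} [Countable ι] (A : Arr ι) (S : Finset ι) {η : ℝ}
    (hη : ∑' i, (if i ∈ S then 0 else A.c i) ≤ η) {y θ : ℂ} {k : ι} (hk : A.On k y)
    (hu : A.u k ≠ 0) (hal : A.al k y (A.e k)) (hθ : ‖θ‖ = 1) {s σ r : ℝ} (hs : |s| ≤ 1)
    (hσ : |σ| ≤ 1) (hr : r ∈ Icc (0 : ℝ) 1) (hW : A.W k y θ s = σ • A.nn k)
    (hS : ∀ i ∈ S, A.On i y → i = k) :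
    ‖(A.m y + r • (A.P y θ s - A.m y)) - A.P y (A.e k) (r * σ)‖ ≤ 2 * η := by
  have hek := A.e_norm k hu
  have hrσ : |r * σ| ≤ 1 := by
    rw [abs_mul, abs_of_nonneg hr.1]
    exact mul_le_one₀ hr.2 (abs_nonneg _) hσ
  have mW : ∀ i, A.W i y θ s ∈ A.D i y := fun i => A.W_mem i y hθ hs
  have mW' : ∀ i, A.W i y (A.e k) (r * σ) ∈ A.D i y := fun i => A.W_mem i y hek hrσ
  have mS : ∀ i, A.sel i y ∈ A.D i y := fun i => A.D_sel i y
  have nW := fun i => A.D_norm i (mW i)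
  have nW' := fun i => A.D_norm i (mW' i)
  have nS := fun i => A.D_norm i (mS i)
  have sW := A.sum_code nW
  have sW' := A.sum_code nW'
  have sS := A.sum_code nS
  have e1 : (A.m y + r • (A.P y θ s - A.m y)) - A.P y (A.e k) (r * σ) =
      ∑' i, A.c i • (A.sel i y + r • (A.W i y θ s - A.sel i y) - A.W i y (A.e k) (r * σ)) := by
    have e2 : ∀ i, A.c i • (A.sel i y + r • (A.W i y θ s - A.sel i y) -
        A.W i y (A.e k) (r * σ)) = (A.c i • A.sel i y + r • (A.c i • A.W i y θ s -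
          A.c i • A.sel i y)) - A.c i • A.W i y (A.e k) (r * σ) := by
      intro i
      rw [smul_sub, smul_add, smul_comm (A.c i) r, smul_sub]
    simp only [e2]
    rw [(sS.add ((sW.sub sS).const_smul r)).tsum_sub sW', sS.tsum_add ((sW.sub sS).const_smul r),
      tsum_const_smul'', sW.tsum_sub sS]
    unfold Fam.m Fam.P Fam.pt
    rw [add_sub_add_left_eq_sub]
    abel
  rw [e1]
  have hb : ∀ i, ‖A.c i • (A.sel i y + r • (A.W i y θ s - A.sel i y) -
      A.W i y (A.e k) (r * σ))‖ ≤ 2 * (if i ∈ S then 0 else A.c i) := by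
    intro i
    by_cases hi : i ∈ S
    · rw [if_pos hi, mul_zero]
      have h0 : A.sel i y + r • (A.W i y θ s - A.sel i y) - A.W i y (A.e k) (r * σ) = 0 := by
        by_cases hon : A.On i y
        · have hik := hS i hi hon
          subst hik
          rw [A.sel_on i hon, hW, A.W_al i hal, sub_zero, zero_add, smul_smul, sub_self]
        · have h1 := mW i
          have h2 := mW' i
          rw [A.D_single i hon] at h1 h2
          rw [Set.mem_singleton_iff.1 h1, Set.mem_singleton_iff.1 h2, sub_self, smul_zero,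
            add_zero, sub_self]
      rw [h0, smul_zero, norm_zero]
    · rw [if_neg hi, A.TSL_nsm]
      have h1 : ‖A.sel i y + r • (A.W i y θ s - A.sel i y)‖ ≤ 1 := by
        have e3 : A.sel i y + r • (A.W i y θ s - A.sel i y) =
            (1 - r) • A.sel i y + r • A.W i y θ s := by
          rw [sub_smul, one_smul, smul_sub]
          abel
        rw [e3]
        refine (norm_add_le _ _).trans ?_
        rw [norm_smul, norm_smul, Real.norm_of_nonneg (by linarith [hr.2] : (0 : ℝ) ≤ 1 - r),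
          Real.norm_of_nonneg hr.1]
        have g1 : (1 - r) * ‖A.sel i y‖ ≤ (1 - r) * 1 :=
          mul_le_mul_of_nonneg_left (nS i) (by linarith [hr.2])
        have g2 : r * ‖A.W i y θ s‖ ≤ r * 1 := mul_le_mul_of_nonneg_left (nW i) hr.1
        linarith
      have h2 : ‖A.sel i y + r • (A.W i y θ s - A.sel i y) - A.W i y (A.e k) (r * σ)‖ ≤ 2 := by
        refine (norm_sub_le _ _).trans ?_
        have := nW' i
        linarith
      have h3 := mul_le_mul_of_nonneg_left h2 (A.cpos i).le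
      linarith
  have hsum := (THB_sum A S).hasSum.mul_left 2
  exact (tsum_of_norm_bounded hsum hb).trans (mul_le_mul_of_nonneg_left hη (by norm_num))

open Classical in
theorem Arr.thin_met {ι : Type} [Countable ι] (A : Arr ι) {φ ψ fb gb : ℂ → ℂ} (H : Dyn2 A φ ψ)
    (B : Bd A φ ψ fb gb) (S : Finset ι) {η : ℝ}
    (hη : ∑' i, (if i ∈ S then 0 else A.c i) ≤ η) {z : ℂ} (hz : z ∈ Rat2)
    (h : (∀ i ∈ S, ¬ A.On i z ∧ ¬ A.On i (φ z)) ∨
      ∃ k j, TS A.toFam φ z k j ∧ (∀ i ∈ S, A.On i z → i = k) ∧ ∀ i ∈ S, A.On i (φ z) → i = j)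
    {b₀ : ℂ} (hb : b₀ ∈ A.K z) (hb' : b₀ ∈ A.M) {r : ℝ} (hr : r ∈ Icc (0 : ℝ) 1) :
    ∃ b ∈ A.K z, b ∈ A.M ∧ ‖(A.m z + r • (b₀ - A.m z)) - b‖ ≤ 2 * η ∧
      ‖(A.m (φ z) + r • (fb b₀ - A.m (φ z))) - fb b‖ ≤ 2 * η := by
  have hhb : A.h b₀ = z := hb
  rcases h with h | ⟨k, j, hTS, hSk, hSj⟩
  · refine ⟨b₀, hb, hb', ?_, ?_⟩
    · exact (THB_half hr).trans (THB_diam A S hη (A.h_m z) hhb fun i hi => (h i hi).1)
    · have h1 : A.h (fb b₀) = φ z := by
        rw [B.hf b₀ hb', hhb]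
      exact (THB_half hr).trans (THB_diam A S hη (A.h_m (φ z)) h1 fun i hi => (h i hi).2)
  · obtain ⟨θ, s, hθ, hs, hP⟩ := A.M_P hb'
    rw [hhb] at hP
    obtain ⟨θ', hD⟩ := Dr_exists H.dφ z hθ
    obtain ⟨σ, hσ, hW, hW'⟩ := TS.lev H.dφ hTS hD hs
    obtain ⟨⟨hon, -⟩, hon', -⟩ := TS.int hTS
    obtain ⟨⟨hd, -⟩, ⟨hal, -⟩, hal', -⟩ := TS.dir hTS
    have hrσ : |r * σ| ≤ 1 := by
      rw [abs_mul, abs_of_nonneg hr.1]
      exact mul_le_one₀ hr.2 (abs_nonneg _) hσ
    have hek := A.e_norm k hTS.1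
    refine ⟨A.P z (A.e k) (r * σ), A.h_P z hek hrσ, A.P_M z hek hrσ, ?_, ?_⟩
    · rw [hP]
      exact THB_est A S hη hon hTS.1 hal hθ hs hσ hr hW hSk
    · rw [B.fP z hz _ _ _ hd hrσ, hP, B.fP z hz _ _ _ hD hs]
      exact THB_est A S hη hon' hTS.2.1 hal' hD.2.1 hs hσ hr hW' hSj

end TorD
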