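import Pool.Agent.H51.TD.GLU
import Pool.Agent.H51.TD.THA
import Pool.Agent.H51.TD.THB

/-! # CTO: the total cone map

PROOF. thin_C: given `ε`, choose `S` with `∑' i, (if i ∈ S then 0 else c i) ≤ ε/2` (`A.csum`: `tendsto_tsum_compl_atTop_zero` or the partial sums), `X` from thin_comb; for `p ∈ K z` use C_form and thin_met.
cone_total: `c = tot A fb (C φ fb)`, `c' = tot A gb (C ψ gb)`. Continuity: glue with C_cont, C_ext, thin_C; and C_cont', thin_inv. `c' (c p) = p`: if `p ∈ M`: `fb p ∈ M`, `gb (fb p) = p`. If `p ∉ M`: `z = h p ∈ Rat2`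
(not_M), `c p = C φ fb z p ∈ K (φ z)` (C_maps), `c' (c p) = C ψ gb (φ z) (c p) = p` (tot_eq, C_inv). The other order with C_inv'. Equivariance: B.fl, C_lat, M_lat, h_lat. `h (c p) = φ (h p)`: B.hf, C_maps. -/

set_option autoImplicit false

open Topology Filter Set Function

namespace TorD

variable {ι : Type} [Countable ι] {A : Arr ι} {φ ψ fb gb : ℂ → ℂ}

open Classical in
theorem CTO_tail {ι : Type} (A : Arr ι) {η : ℝ} (hη : 0 < η) :
    ∃ S : Finset ι, ∑' i, (if i ∈ S then 0 else A.c i) ≤ η := by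
  have h := A.csum.hasSum
  obtain ⟨S, hS⟩ := ((Metric.tendsto_nhds.1 h) η hη).exists
  refine ⟨S, ?_⟩
  have h1 : (fun i => if i ∈ S then (0 : ℝ) else A.c i) =
      fun i => A.c i - (if i ∈ S then A.c i else 0) := by
    funext i
    split_ifs <;> simp
  have h2 : Summable (fun i => if i ∈ S then A.c i else 0) := by
    apply summable_of_ne_finset_zero (s := S)
    intro i hi
    simp [hi]
  have h3 : ∑' i, (if i ∈ S then A.c i else 0) = ∑ i ∈ S, A.c i := by
    rw [tsum_eq_sum (s := S)]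
    · exact Finset.sum_congr rfl fun i hi => by simp [hi]
    · intro i hi
      simp [hi]
  rw [h1, Summable.tsum_sub A.csum h2, h3]
  rw [Real.dist_eq] at hS
  have := neg_abs_le (∑ i ∈ S, A.c i - ∑' i, A.c i)
  linarith

theorem thin_C (H : Dyn2 A φ ψ) (B : Bd A φ ψ fb gb) : Thin A fb (A.C φ fb) := by
  classical
  intro ε hε
  obtain ⟨S, hS⟩ := CTO_tail A (half_pos hε)
  obtain ⟨X, hX⟩ := A.thin_comb H S
  refine ⟨X, fun z hz hzX p hp => ?_⟩
  obtain ⟨b₀, hb, hb', r, hr, hpr, hCr⟩ := C_form H B hz hp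
  obtain ⟨b, hbK, hbM, h1, h2⟩ := A.thin_met H B S hS hz (hX z hz hzX) hb hb' hr
  refine ⟨b, hbK, hbM, ?_, ?_⟩
  · rw [hpr]
    linarith
  · rw [hCr]
    linarith

theorem cone_total (H : Dyn2 A φ ψ) (B : Bd A φ ψ fb gb) : ∃ c c' : ℂ → ℂ, Continuous c ∧
    Continuous c' ∧ (∀ p, c' (c p) = p) ∧ (∀ p, c (c' p) = p) ∧
    (∀ p w, c (p + lat w) = c p + lat w) ∧ (∀ p w, c' (p + lat w) = c' p + lat w) ∧
    (∀ p, A.h (c p) = φ (A.h p)) ∧ ∀ p ∈ A.M, c p = fb p := by
  have he : ∀ z ∈ Rat2, ∀ p ∈ A.K z, p ∈ A.M → A.C φ fb z p = fb p :=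
    fun z hz p hp hM => (C_ext H B hz hp hM).1
  have he' : ∀ z ∈ Rat2, ∀ p ∈ A.K z, p ∈ A.M → A.C ψ gb z p = gb p :=
    fun z hz p hp hM => (C_ext H B hz hp hM).2
  refine ⟨tot A fb (A.C φ fb), tot A gb (A.C ψ gb),
    glue B.fc (fun z hz => C_cont H B hz) he (thin_C H B),
    glue B.gc (fun z hz => C_cont' H B hz) he' (thin_inv H B (thin_C H B)), ?_, ?_, ?_, ?_, ?_, ?_⟩
  · intro p
    by_cases hM : p ∈ A.M
    · rw [tot_M hM, tot_M (B.fM hM), B.gf p hM]
    · have hz := (not_M hM).1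
      have hK : p ∈ A.K (A.h p) := rfl
      rw [tot_eq he hz hK, tot_eq he' ((H.dφ.rat _).2 hz) (C_maps H B hz hK), C_inv H B hz hK]
  · intro p
    by_cases hM : p ∈ A.M
    · rw [tot_M hM, tot_M (B.gM hM), B.fg p hM]
    · have hz := (not_M hM).1
      have hK : p ∈ A.K (A.h p) := rfl
      rw [tot_eq he' hz hK, tot_eq he ((H.dψ.rat _).2 hz) (C_maps' H B hz hK), C_inv' H B hz hK]
  · intro p w
    by_cases hM : p ∈ A.M
    · rw [tot_M hM, tot_M ((A.M_lat p w).2 hM), B.fl p hM]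
    · have hM' : p + lat w ∉ A.M := fun h => hM ((A.M_lat p w).1 h)
      have hz := (not_M hM).1
      have hz' := (not_M hM').1
      rw [A.h_lat] at hz'
      have hK : p ∈ A.K (A.h p) := rfl
      have hK' : p + lat w ∈ A.K (A.h p + lat w) := A.h_lat p w
      rw [tot_eq he hz hK, tot_eq he hz' hK', C_lat H B hz hK]
  · intro p w
    by_cases hM : p ∈ A.M
    · rw [tot_M hM, tot_M ((A.M_lat p w).2 hM), B.gl p hM]
    · have hM' : p + lat w ∉ A.M := fun h => hM ((A.M_lat p w).1 h)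
      have hz := (not_M hM).1
      have hz' := (not_M hM').1
      rw [A.h_lat] at hz'
      have hK : p ∈ A.K (A.h p) := rfl
      have hK' : p + lat w ∈ A.K (A.h p + lat w) := A.h_lat p w
      rw [tot_eq he' hz hK, tot_eq he' hz' hK', C_lat' H B hz hK]
  · intro p
    by_cases hM : p ∈ A.M
    · rw [tot_M hM, B.hf p hM]
    · have hz := (not_M hM).1
      have hK : p ∈ A.K (A.h p) := rfl
      rw [tot_eq he hz hK]
      exact C_maps H B hz hK
  · intro p hM
    exact tot_M hM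

end TorD
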