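import Pool.Agent.H51.TD.Int

/-! # TSL: weighted sums of codes

PROOF. `‖c i • v i‖ ≤ c i` and `c` is summable, so all sums are absolutely convergent (`Summable.of_norm_bounded`). pt_tendsto: `tendsto_tsum_of_dominated_convergence`
with the bound `c`. code_subseq: the set `{v | ∀ i, ‖v i‖ ≤ 1} = univ.pi (closedBall 0 1)` is compact in `ι → ℂ` (`isCompact_univ_pi`) and `ι → ℂ` is first countable for countable `ι`:
`IsCompact.tendsto_subseq`, then `tendsto_pi_nhds`. ip_tsum: `ip · x` is a continuous linear map (e.g. `(Complex.reCLM.smulRight ...)`, or take re and im of the sum: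
`Complex.re_tsum`, `Complex.im_tsum`, `tsum_mul_right`, `Summable.tsum_add`). -/

set_option autoImplicit false

open Topology Filter Set Function

namespace TorD

namespace Fam

variable {ι : Type} (A : Fam ι)

theorem TSL_nsm (i : ι) (x : ℂ) : ‖A.c i • x‖ = A.c i * ‖x‖ := by
  rw [norm_smul, Real.norm_eq_abs, abs_of_pos (A.cpos i)]

theorem TSL_sum {v : ι → ℂ} {b : ℝ} (hv : ∀ i, ‖v i‖ ≤ b) : Summable fun i => A.c i • v i := by
  refine Summable.of_norm_bounded (A.csum.mul_right b) (fun i => ?_)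
  rw [A.TSL_nsm]
  exact mul_le_mul_of_nonneg_left (hv i) (A.cpos i).le

theorem sum_code {v : ι → ℂ} (hv : ∀ i, ‖v i‖ ≤ 1) : Summable fun i => A.c i • v i :=
  A.TSL_sum hv

theorem norm_sum_le {v : ι → ℂ} {b : ι → ℝ} (hb : ∀ i, ‖v i‖ ≤ b i) (hb1 : ∀ i, b i ≤ 1) :
    ‖∑' i, A.c i • v i‖ ≤ ∑' i, A.c i * b i := by
  have hs : Summable fun i => A.c i * b i := by
    refine Summable.of_nonneg_of_le (fun i => ?_) (fun i => ?_) A.csum
    · exact mul_nonneg (A.cpos i).le ((norm_nonneg _).trans (hb i))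
    · exact mul_le_of_le_one_right (A.cpos i).le (hb1 i)
  refine tsum_of_norm_bounded hs.hasSum (fun i => ?_)
  rw [A.TSL_nsm]
  exact mul_le_mul_of_nonneg_left (hb i) (A.cpos i).le

theorem norm_sum_code {v : ι → ℂ} (hv : ∀ i, ‖v i‖ ≤ 1) : ‖∑' i, A.c i • v i‖ ≤ 1 / 32 := by
  have h := A.norm_sum_le (b := fun _ => 1) hv (fun _ => le_rfl)
  simp only [mul_one] at h
  exact h.trans A.cle

theorem ip_tsum {v : ι → ℂ} {b : ℝ} (hv : ∀ i, ‖v i‖ ≤ b) (x : ℂ) :
    (Summable fun i => A.c i * ip (v i) x) ∧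
      ip (∑' i, A.c i • v i) x = ∑' i, A.c i * ip (v i) x := by
  have hs := A.TSL_sum hv
  have hr : Summable fun i => (A.c i • v i).re := Complex.reCLM.summable hs
  have hi : Summable fun i => (A.c i • v i).im := Complex.imCLM.summable hs
  have e : ∀ i, A.c i * ip (v i) x = (A.c i • v i).re * x.re + (A.c i • v i).im * x.im := by
    intro i
    rw [← ip_smul_left]; rfl
  have hs1 := hr.mul_right x.re
  have hs2 := hi.mul_right x.im
  refine ⟨?_, ?_⟩
  · simp only [e]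
    exact hs1.add hs2
  · simp only [e]
    rw [hs1.tsum_add hs2, tsum_mul_right, tsum_mul_right, ← Complex.re_tsum hs,
      ← Complex.im_tsum hs]
    rfl

theorem pt_sub {y y' : ℂ} {v v' : ι → ℂ} (hv : ∀ i, ‖v i‖ ≤ 1) (hv' : ∀ i, ‖v' i‖ ≤ 1) :
    A.pt y v - A.pt y' v' = (y - y') + ∑' i, A.c i • (v i - v' i) := by
  unfold pt
  simp only [smul_sub]
  rw [(A.sum_code hv).tsum_sub (A.sum_code hv')]
  ring

theorem pt_lat (y : ℂ) (w : ℤ × ℤ) (v : ι → ℂ) : A.pt (y + lat w) v = A.pt y v + lat w := by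
  unfold pt; ring

theorem pt_tendsto {α : Type} {l : Filter α} {ys : α → ℂ} {vs : α → ι → ℂ} {y : ℂ} {v : ι → ℂ}
    (hy : Tendsto ys l (𝓝 y)) (hv : ∀ i, Tendsto (fun a => vs a i) l (𝓝 (v i)))
    (hb : ∀ᶠ a in l, ∀ i, ‖vs a i‖ ≤ 1) : Tendsto (fun a => A.pt (ys a) (vs a)) l (𝓝 (A.pt y v)) := by
  unfold pt
  refine hy.add ?_
  refine tendsto_tsum_of_dominated_convergence A.csum (fun i => (hv i).const_smul _) ?_
  refine hb.mono fun a ha i => ?_
  rw [A.TSL_nsm]
  exact mul_le_of_le_one_right (A.cpos i).le (ha i)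

end Fam

theorem code_subseq {ι : Type} [Countable ι] (vs : ℕ → ι → ℂ) (h : ∀ n i, ‖vs n i‖ ≤ 1) :
    ∃ (v : ι → ℂ) (k : ℕ → ℕ), StrictMono k ∧ (∀ i, ‖v i‖ ≤ 1) ∧
      ∀ i, Tendsto (fun n => vs (k n) i) atTop (𝓝 (v i)) := by
  have hc : IsCompact (univ.pi fun _ : ι => Metric.closedBall (0 : ℂ) 1) :=
    isCompact_univ_pi fun _ => isCompact_closedBall _ _
  obtain ⟨v, hv, k, hk, hl⟩ := hc.tendsto_subseq (x := vs) (fun n => by
    intro i _
    rw [mem_closedBall_zero_iff]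
    exact h n i)
  refine ⟨v, k, hk, fun i => ?_, fun i => ?_⟩
  · have := hv i (mem_univ i)
    rwa [mem_closedBall_zero_iff] at this
  · exact (tendsto_pi_nhds.1 hl) i

end TorD
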