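import Pool.Agent.H51.TD.AMA
import Pool.Agent.H51.TD.TSL
import Pool.Agent.H51.TD.Int2

/-! # CUA: uniqueness of codes at rational points

PROOF. ray_irr: `ε ↦ z + ε θ` is injective and `Rat2` is countable (rat2_countable), so the set of `ε` with `z + ε θ ∈ Rat2` is countable; every `(0,δ)` is uncountable.
al_unique: take `ε > 0` small with `z + ε θ ∉ Rat2` on both pieces (Frequently.and_eventually), `A.one`.
max_or: for `i` not along `(z,θ)`: by `am` for `v i` and `W i z θ s` (W_mem, W_max) `v i = W i z θ s`, for all `s`. If `k` is along: `am` for `v k` and `W k z θ 0 = 0 • nn` (W_al):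
in both alternatives `v k = σ • nn k` with `|σ| ≤ 1`, and `W k z θ σ = σ • nn k`. The piece `k` is unique (al_unique). If no piece is along take `s = 0`.
cu: by `pt_sub`-like computation (`sum_code`, linearity) `∑ c i • (v i - v' i) = 0`, so by ip_tsum (norm bound 2) `∑ c i * ip (v i - v' i) θ = 0`; all terms are `≥ 0` by `hm` (`v' i ∈ D i z`), so
all are zero (`c i > 0`; `hasSum_zero_iff_of_nonneg`/`Summable.tsum_eq_zero_iff`...). Take the point piece `i₀` at `z` (`A.pts`, D_point): `D` = unit ball, so `v i₀ = θ`: (`ip (v i₀) θ ≥ ip θ θ = 1`, `‖v i₀‖ ≤ 1`, so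
`‖v i₀ - θ‖² ≤ 0`), `v' i₀ = θ'`; `ip (θ - θ') θ = 0` gives `ip θ' θ = 1`, `θ' = θ`. Now `ip (v i) θ = ip (v' i) θ`, both `v i`, `v' i` are maximisers; by max_or `v = W(s)`, `v' = W(s')`; they agree
for all `i` not along; if `k` is along (unique) then `∑ c i • (v i - v' i) = c k • (v k - v' k) = 0`. -/

set_option autoImplicit false

open Topology Filter Set Function

namespace TorD

theorem ray_irr (z : ℂ) {θ : ℂ} (hθ : θ ≠ 0) : ∃ᶠ ε in 𝓝[>] (0 : ℝ), z + ε • θ ∉ Rat2 := by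
  rw [Filter.Frequently]
  intro h
  have h1 : {ε : ℝ | ¬ (z + ε • θ ∉ Rat2)} ∈ 𝓝[>] (0 : ℝ) := h
  rw [mem_nhdsGT_iff_exists_Ioo_subset] at h1
  obtain ⟨δ, hδ, hsub⟩ := h1
  have hinj : Function.Injective (fun ε : ℝ => z + ε • θ) := by
    intro a b hab
    have h2 : a • θ = b • θ := add_left_cancel hab
    exact smul_left_injective ℝ hθ h2
  have hc : ((fun ε : ℝ => z + ε • θ) ⁻¹' Rat2).Countable := rat2_countable.preimage hinj
  have hc2 : (Ioo (0 : ℝ) δ).Countable := hc.mono fun ε hε => not_not.1 (hsub hε)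
  have h3 := hc2.measure_zero MeasureTheory.volume
  rw [Real.volume_Ioo, ENNReal.ofReal_eq_zero] at h3
  have h4 : (0 : ℝ) < δ := hδ
  linarith

theorem CUA_ne {θ : ℂ} (hθ : ‖θ‖ = 1) : θ ≠ 0 := by
  rintro rfl
  rw [norm_zero] at hθ
  exact zero_ne_one hθ

theorem Arr.al_unique {ι : Type} (A : Arr ι) {z θ : ℂ} (hθ : ‖θ‖ = 1) {i j : ι}
    (hi : A.al i z θ) (hj : A.al j z θ) : i = j := by
  have hi' : ∀ᶠ ε in 𝓝[>] (0 : ℝ), A.On i (z + ε • θ) := hi
  have hj' : ∀ᶠ ε in 𝓝[>] (0 : ℝ), A.On j (z + ε • θ) := hj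
  obtain ⟨ε, h1, h2, h3⟩ := ((ray_irr z (CUA_ne hθ)).and_eventually (hi'.and hj')).exists
  exact A.one _ h1 i j h2 h3

/-- codes maximising `θ` are the codes `W(θ, s)` -/
theorem Arr.max_or {ι : Type} (A : Arr ι) {z θ : ℂ} {v : ι → ℂ} (hθ : ‖θ‖ = 1)
    (hv : A.code z v) (hm : ∀ i, ∀ w ∈ A.D i z, ip w θ ≤ ip (v i) θ) :
    ∃ s : ℝ, |s| ≤ 1 ∧ ∀ i, v i = A.W i z θ s := by
  have h00 : |(0 : ℝ)| ≤ 1 := by simp
  have key : ∀ (i : ι) (s : ℝ), |s| ≤ 1 → ¬ A.al i z θ → v i = A.W i z θ s := by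
    intro i s hs hn
    rcases A.am i hθ (hv i) (A.W_mem i z hθ hs) (hm i) (fun w hw => A.W_max i z hθ hs hw)
      with h | h
    · exact h
    · exact absurd h.2.1 hn
  by_cases hk : ∃ k, A.al k z θ
  · obtain ⟨k, hk⟩ := hk
    have hs : ∃ s : ℝ, |s| ≤ 1 ∧ v k = s • A.nn k := by
      rcases A.am k hθ (hv k) (A.W_mem k z hθ h00) (hm k) (fun w hw => A.W_max k z hθ h00 hw)
        with h | h
      · exact ⟨0, h00, by rw [h, A.W_al k hk]⟩
      · exact h.2.2.2.1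
    obtain ⟨s, hs, hvs⟩ := hs
    refine ⟨s, hs, fun i => ?_⟩
    by_cases hik : A.al i z θ
    · have h1 : i = k := A.al_unique hθ hik hk
      subst h1
      rw [hvs, A.W_al i hk]
    · exact key i s hs hik
  · push Not at hk
    exact ⟨0, h00, fun i => key i 0 h00 (hk i)⟩

theorem CUA_eq {v θ : ℂ} (hv : ‖v‖ ≤ 1) (hθ : ‖θ‖ = 1) (h : 1 ≤ ip v θ) : v = θ := by
  have h1 : ip (v - θ) (v - θ) = ip v v - 2 * ip v θ + ip θ θ := by
    unfold ip
    simp only [Complex.sub_re, Complex.sub_im]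
    ring
  rw [ip_self, ip_self, ip_self, hθ] at h1
  have h2 : ‖v‖ ^ 2 ≤ 1 := by nlinarith [norm_nonneg v]
  have h3 : ‖v - θ‖ ^ 2 ≤ 0 := by linarith
  have h4 : ‖v - θ‖ = 0 := by
    have h5 := norm_nonneg (v - θ)
    nlinarith
  exact sub_eq_zero.1 (norm_eq_zero.1 h4)

theorem Arr.cu {ι : Type} (A : Arr ι) {z θ θ' : ℂ} {v v' : ι → ℂ} (hz : z ∈ Rat2)
    (hθ : ‖θ‖ = 1) (hθ' : ‖θ'‖ = 1) (hv : A.code z v) (hv' : A.code z v')
    (hm : ∀ i, ∀ w ∈ A.D i z, ip w θ ≤ ip (v i) θ)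
    (hm' : ∀ i, ∀ w ∈ A.D i z, ip w θ' ≤ ip (v' i) θ') (h : A.pt z v = A.pt z v') :
    θ = θ' ∧ v = v' := by
  have hn : ∀ i, ‖v i‖ ≤ 1 := fun i => A.D_norm i (hv i)
  have hn' : ∀ i, ‖v' i‖ ≤ 1 := fun i => A.D_norm i (hv' i)
  have hsum : ∑' i, A.c i • (v i - v' i) = 0 := by
    have h1 := A.pt_sub (y := z) (y' := z) hn hn'
    rw [h, sub_self, sub_self, zero_add] at h1
    exact h1.symm
  have hn2 : ∀ i, ‖v i - v' i‖ ≤ 2 := fun i => by
    have := norm_sub_le (v i) (v' i)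
    linarith [hn i, hn' i]
  obtain ⟨hs, hip⟩ := A.ip_tsum (v := fun i => v i - v' i) hn2 θ
  have hnn : ∀ i, 0 ≤ A.c i * ip (v i - v' i) θ := by
    intro i
    rw [ip_sub_left]
    have := hm i (v' i) (hv' i)
    exact mul_nonneg (A.cpos i).le (by linarith)
  have hz0 : ∑' i, A.c i * ip (v i - v' i) θ = 0 := by
    rw [← hip, hsum]
    unfold ip
    simp
  have hall : ∀ i, ip (v i) θ = ip (v' i) θ := by
    have h2 : HasSum (fun i => A.c i * ip (v i - v' i) θ) 0 := by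
      have := hs.hasSum
      rwa [hz0] at this
    have h3 := (hasSum_zero_iff_of_nonneg hnn).1 h2
    intro i
    have h4 := congrFun h3 i
    simp only [Pi.zero_apply] at h4
    rcases mul_eq_zero.1 h4 with h5 | h5
    · exact absurd h5 (A.cpos i).ne'
    · rw [ip_sub_left] at h5
      linarith
  obtain ⟨i₀, hu, hr⟩ := A.pts z hz
  have hD := A.D_point i₀ hu hr
  have hi1 : ∀ x : ℂ, ‖x‖ = 1 → x ∈ A.D i₀ z := by
    intro x hx
    rw [hD, mem_closedBall_zero_iff]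
    exact hx.le
  have hself : ∀ x : ℂ, ‖x‖ = 1 → ip x x = 1 := by
    intro x hx
    rw [ip_self, hx]
    norm_num
  have e1 : v i₀ = θ := by
    refine CUA_eq (hn i₀) hθ ?_
    have := hm i₀ θ (hi1 θ hθ)
    rwa [hself θ hθ] at this
  have e2 : v' i₀ = θ' := by
    refine CUA_eq (hn' i₀) hθ' ?_
    have := hm' i₀ θ' (hi1 θ' hθ')
    rwa [hself θ' hθ'] at this
  have e3 : θ' = θ := by
    refine CUA_eq hθ'.le hθ ?_
    have := hall i₀
    rw [e1, e2, hself θ hθ] at this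
    exact this.le
  subst e3
  refine ⟨rfl, ?_⟩
  obtain ⟨s, hs1, hvs⟩ := A.max_or hθ hv hm
  obtain ⟨s', hs1', hvs'⟩ := A.max_or hθ hv' hm'
  have hnal : ∀ i, ¬ A.al i z θ' → v i = v' i := by
    intro i hi
    rw [hvs i, hvs' i, A.W_nal i hθ hi s s']
  funext i
  by_cases hi : A.al i z θ'
  · have h6 : ∀ j, j ≠ i → A.c j • (v j - v' j) = 0 := by
      intro j hj
      have h7 : ¬ A.al j z θ' := fun h8 => hj (A.al_unique hθ h8 hi)
      rw [hnal j h7, sub_self, smul_zero]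
    rw [tsum_eq_single i h6] at hsum
    rcases smul_eq_zero.1 hsum with h9 | h9
    · exact absurd h9 (A.cpos i).ne'
    · exact sub_eq_zero.1 h9
  · exact hnal i hi

theorem Arr.P_inj {ι : Type} (A : Arr ι) {z θ θ' : ℂ} {s s' : ℝ} (hz : z ∈ Rat2)
    (hθ : ‖θ‖ = 1) (hθ' : ‖θ'‖ = 1) (hs : |s| ≤ 1) (hs' : |s'| ≤ 1)
    (h : A.P z θ s = A.P z θ' s') : θ = θ' ∧ ∀ i, A.W i z θ s = A.W i z θ' s' := by
  have h1 := A.cu (v := fun i => A.W i z θ s) (v' := fun i => A.W i z θ' s') hz hθ hθ'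
    (fun i => A.W_mem i z hθ hs) (fun i => A.W_mem i z hθ' hs')
    (fun i w hw => A.W_max i z hθ hs hw) (fun i w hw => A.W_max i z hθ' hs' hw) h
  exact ⟨h1.1, fun i => congrFun h1.2 i⟩

end TorD
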