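import Mathlib

/-!
# Periodic points in the essential set of a torus homeomorphism: definitions

`T2 = ℝ²/ℤ²`, lifts, rotation set, isotopy to the identity, nonwandering, (in)essential open sets,
the inessential set `Ine f` and the essential set `Ess f`.
-/

set_option autoImplicit false

open Topology Filter Set

namespace TorD

/-- The torus `ℝ²/ℤ²`. -/
abbrev T2 : Type := AddCircle (1 : ℝ) × AddCircle (1 : ℝ)

/-- The universal covering `ℝ² → T2`. -/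
def prT (x : ℝ × ℝ) : T2 := ((x.1 : AddCircle (1 : ℝ)), (x.2 : AddCircle (1 : ℝ)))

/-- `F` is a lift of `f` to `ℝ²`. -/
def IsLift (F : ℝ × ℝ → ℝ × ℝ) (f : T2 → T2) : Prop :=
  Continuous F ∧ ∀ x, prT (F x) = f (prT x)

/-- `f` is isotopic to the identity. -/
def IsotopicId (f : T2 → T2) : Prop :=
  ∃ F : unitInterval × T2 → T2, Continuous F ∧ (∀ x, F (0, x) = x) ∧ (∀ x, F (1, x) = f x) ∧
    ∀ t, IsHomeomorph fun x => F (t, x)

/-- The rotation set of a lift: all limits of `(F^{n_k}(z_k) - z_k) / n_k`, `n_k → ∞`. -/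
def rotSet (F : ℝ × ℝ → ℝ × ℝ) : Set (ℝ × ℝ) :=
  {v | ∃ (z : ℕ → ℝ × ℝ) (n : ℕ → ℕ), Tendsto n atTop atTop ∧
    Tendsto (fun k => ((n k : ℝ))⁻¹ • (F^[n k] (z k) - z k)) atTop (𝓝 v)}

/-- `f` is nonwandering. -/
def Nonwandering (f : T2 → T2) : Prop :=
  ∀ U : Set T2, IsOpen U → U.Nonempty → ∃ n : ℕ, 1 ≤ n ∧ (f^[n] '' U ∩ U).Nonempty

/-- `V` is inessential: every closed loop in `V` is homotopically trivial in `T2`. -/
def Inessential (V : Set T2) : Prop :=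
  ∀ (x : T2) (γ : Path x x), (∀ t, γ t ∈ V) → γ.Homotopic (Path.refl x)

/-- The orbit `⋃_{n ∈ ℤ} f^n(U)` of `U`. -/
def orb (f : T2 ≃ₜ T2) (U : Set T2) : Set T2 := ⋃ n : ℤ, (f ^ n : T2 ≃ₜ T2) '' U

/-- The inessential set of `f`. -/
def Ine (f : T2 ≃ₜ T2) : Set T2 := {x | ∃ U : Set T2, IsOpen U ∧ x ∈ U ∧ Inessential (orb f U)}

/-- The essential set of `f`. -/
def Ess (f : T2 ≃ₜ T2) : Set T2 := (Ine f)ᶜ

end TorD
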