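import Pool.Agent.H51.TD.ECV

/-! # ECP: loops in the torus and paths in the plane

PROOF. pr_lift: the two coordinates `Prod.fst ∘ γ`, `Prod.snd ∘ γ` are paths in `AddCircle 1`; by `(AddCircle.isCoveringMap_coe (1 : ℝ)).exists_path_lifts` (Mathlib.Topology.Homotopy.Lifting) there are continuous lifts
`c₁, c₂ : C(I, ℝ)`; `c t = ⟨c₁ t, c₂ t⟩` (start points: any preimages). pr_null: `c` is a path in `ℂ` from `c 0` to `c 0`; `ℂ` is contractible, so simply connected, so this path is homotopic to
the constant path (`SimplyConnectedSpace.paths_homotopic` or the straight line homotopy); map by `pr` (`Path.Homotopic.map`, ContinuousMap `⟨pr, pr_cont⟩`), and the image is `γ` (use `Path.cast` or first prove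
`x = pr (c 0)` and `subst`). pr_closed: a homotopy of `γ` to the constant path gives by `fst` and `snd` homotopies rel `{0,1}` of the coordinate paths in `AddCircle 1` to constant maps;
`IsCoveringMap.liftPath_apply_one_eq_of_homotopicRel` with `IsCoveringMap.liftPath_const` and `eq_liftPath_iff` (the real coordinate `(c t).re` is THE lift) gives `(c 1).re = (c 0).re`, the same for `im`. -/

set_option autoImplicit false

open Topology Filter Set Function

namespace TorD

theorem ECP_lift1 (γ : C(unitInterval, AddCircle (1 : ℝ))) :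
    ∃ c : C(unitInterval, ℝ), ∀ t, ((c t : ℝ) : AddCircle (1 : ℝ)) = γ t := by
  obtain ⟨e, he⟩ := QuotientAddGroup.mk_surjective (γ 0)
  obtain ⟨c, h1, -⟩ := (AddCircle.isCoveringMap_coe (1 : ℝ)).exists_path_lifts γ e he.symm
  exact ⟨c, fun t => congrFun h1 t⟩

theorem pr_lift {x y : T2} (γ : Path x y) :
    ∃ c : unitInterval → ℂ, Continuous c ∧ ∀ t, pr (c t) = γ t := by
  obtain ⟨c1, h1⟩ := ECP_lift1 ⟨fun t => (γ t).1, by fun_prop⟩
  obtain ⟨c2, h2⟩ := ECP_lift1 ⟨fun t => (γ t).2, by fun_prop⟩
  refine ⟨fun t => Complex.equivRealProdCLM.symm (c1 t, c2 t), ?_, fun t => ?_⟩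
  · exact Complex.equivRealProdCLM.symm.continuous.comp
      (c1.continuous.prodMk c2.continuous)
  · have h3 := h1 t
    have h4 := h2 t
    simp only [ContinuousMap.coe_mk] at h3 h4
    unfold pr prT
    exact Prod.ext (by simpa using h3) (by simpa using h4)

theorem pr_null {x : T2} (γ : Path x x) (c : unitInterval → ℂ) (hc : Continuous c)
    (h : ∀ t, pr (c t) = γ t) (h01 : c 1 = c 0) : γ.Homotopic (Path.refl x) := by
  have hx : x = pr (c 0) := by rw [h 0, γ.source]
  subst hx
  let P : Path (c 0) (c 0) := ⟨⟨c, hc⟩, rfl, h01⟩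
  have h1 : P.Homotopic (Path.refl (c 0)) := SimplyConnectedSpace.paths_homotopic P _
  have h2 := h1.map (⟨pr, pr_cont⟩ : C(ℂ, T2))
  have h3 : P.map pr_cont = γ := Path.ext (funext fun t => h t)
  have h4 : (Path.refl (c 0)).map pr_cont = Path.refl (pr (c 0)) :=
    Path.ext (funext fun t => rfl)
  rw [← h3, ← h4]
  exact h2

theorem ECP_closed1 (γ : C(unitInterval, AddCircle (1 : ℝ))) (a : AddCircle (1 : ℝ))
    (c : C(unitInterval, ℝ))
    (h : ∀ t, ((c t : ℝ) : AddCircle (1 : ℝ)) = γ t) (ha : γ 0 = a)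
    (hn : γ.HomotopicRel (ContinuousMap.const _ a) {0, 1}) : c 1 = c 0 := by
  have hcov := AddCircle.isCoveringMap_coe (1 : ℝ)
  have h0 : γ 0 = ((c 0 : ℝ) : AddCircle (1 : ℝ)) := (h 0).symm
  have h1 : (ContinuousMap.const unitInterval a) 0 = ((c 0 : ℝ) : AddCircle (1 : ℝ)) := by
    rw [ContinuousMap.const_apply, ← ha, h0]
  have h2 := hcov.liftPath_apply_one_eq_of_homotopicRel hn (c 0) h0 h1
  have h3 : c = hcov.liftPath γ (c 0) h0 :=
    (hcov.eq_liftPath_iff' h0).mpr ⟨funext h, rfl⟩
  have h4 : hcov.liftPath (ContinuousMap.const unitInterval a) (c 0) h1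
      = ContinuousMap.const _ (c 0) := hcov.liftPath_const _
  rw [← h3, h4] at h2
  exact h2

theorem pr_closed {x : T2} (γ : Path x x) (c : unitInterval → ℂ) (hc : Continuous c)
    (h : ∀ t, pr (c t) = γ t) (hn : γ.Homotopic (Path.refl x)) : c 1 = c 0 := by
  have hre : (c 1).re = (c 0).re := by
    refine ECP_closed1 ((γ.map continuous_fst).toContinuousMap) x.1
      ⟨fun t => (c t).re, Complex.continuous_re.comp hc⟩ (fun t => ?_) ?_ ?_
    · exact congrArg Prod.fst (h t)
    · exact (γ.map continuous_fst).source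
    · exact hn.map (⟨Prod.fst, continuous_fst⟩ : C(T2, AddCircle (1 : ℝ)))
  have him : (c 1).im = (c 0).im := by
    refine ECP_closed1 ((γ.map continuous_snd).toContinuousMap) x.2
      ⟨fun t => (c t).im, Complex.continuous_im.comp hc⟩ (fun t => ?_) ?_ ?_
    · exact congrArg Prod.snd (h t)
    · exact (γ.map continuous_snd).source
    · exact hn.map (⟨Prod.snd, continuous_snd⟩ : C(T2, AddCircle (1 : ℝ)))
  exact Complex.ext hre him

end TorD
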