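import Pool.Agent.H51.TD.Int
import Pool.Agent.H77.ISO.Cross

/-! # ECR: crossing of a vertical and a horizontal path -/

set_option autoImplicit false

open Topology Filter Set Function

namespace TorD

theorem ECR_mk {X : Type} [TopologicalSpace X] {u v : X → ℝ} (hu : Continuous u)
    (hv : Continuous v) : Continuous fun x => (⟨u x, v x⟩ : ℂ) := by
  have : (fun x => (⟨u x, v x⟩ : ℂ)) = fun x => (u x : ℂ) + (v x : ℂ) * Complex.I := by
    funext x; exact Complex.ext (by simp) (by simp)
  rw [this]
  exact (Complex.continuous_ofReal.comp hu).add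
    ((Complex.continuous_ofReal.comp hv).mul continuous_const)

theorem cross_rect {S G : ℝ → ℂ} (hS : ContinuousOn S (Icc 0 1)) (hG : ContinuousOn G (Icc 0 1))
    {xl xr yb yt : ℝ} (h1 : ∀ t ∈ Icc (0 : ℝ) 1, xl < (S t).re ∧ (S t).re < xr)
    (h2 : (S 0).im ≤ yb) (h3 : yt ≤ (S 1).im)
    (h4 : ∀ t ∈ Icc (0 : ℝ) 1, yb < (G t).im ∧ (G t).im < yt)
    (h5 : (G 0).re ≤ xl) (h6 : xr ≤ (G 1).re) :
    ∃ s ∈ Icc (0 : ℝ) 1, ∃ t ∈ Icc (0 : ℝ) 1, S s = G t := by
  have m0 : (0 : ℝ) ∈ Icc (0 : ℝ) 1 := ⟨le_rfl, zero_le_one⟩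
  have m1 : (1 : ℝ) ∈ Icc (0 : ℝ) 1 := ⟨zero_le_one, le_rfl⟩
  have hx : xl < xr := (h1 0 m0).1.trans (h1 0 m0).2
  have hy : yb < yt := (h4 0 m0).1.trans (h4 0 m0).2
  have hSc : Continuous fun s : unitInterval => S s :=
    continuousOn_iff_continuous_domRestrict.1 hS
  have hGc : Continuous fun s : unitInterval => G s :=
    continuousOn_iff_continuous_domRestrict.1 hG
  let f : unitInterval → ℂ := fun s => ⟨(S s).re, max yb (min yt (S s).im)⟩
  let g : unitInterval → ℂ := fun s =>
    ⟨max xl (min xr (G (unitInterval.symm s)).re), (G (unitInterval.symm s)).im⟩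
  have hf : Continuous f := ECR_mk (Complex.continuous_re.comp hSc)
    (continuous_const.max (continuous_const.min (Complex.continuous_im.comp hSc)))
  have hGs : Continuous fun s : unitInterval => G (unitInterval.symm s) :=
    hGc.comp unitInterval.continuous_symm
  have hg : Continuous g := ECR_mk
    (continuous_const.max (continuous_const.min (Complex.continuous_re.comp hGs)))
    (Complex.continuous_im.comp hGs)
  let D : Set ℂ := {z | xl ≤ z.re ∧ z.re ≤ xr ∧ yb ≤ z.im ∧ z.im ≤ yt}
  have hfD : ∀ s, f s ∈ D := fun s =>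
    ⟨(h1 s s.2).1.le, (h1 s s.2).2.le, le_max_left _ _, max_le hy.le (min_le_left _ _)⟩
  have hgD : ∀ s, g s ∈ D := fun s =>
    ⟨le_max_left _ _, max_le hx.le (min_le_left _ _), (h4 _ (unitInterval.symm s).2).1.le,
      (h4 _ (unitInterval.symm s).2).2.le⟩
  have ea : f 0 = ⟨(S 0).re, yb⟩ := by
    refine Complex.ext rfl ?_
    change max yb (min yt (S 0).im) = yb
    exact max_eq_left ((min_le_right _ _).trans h2)
  have ec : f 1 = ⟨(S 1).re, yt⟩ := by
    refine Complex.ext rfl ?_
    change max yb (min yt (S 1).im) = yt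
    rw [min_eq_left h3]; exact max_eq_right hy.le
  have eb : g 0 = ⟨xr, (G 1).im⟩ := by
    refine Complex.ext ?_ ?_
    · change max xl (min xr (G (unitInterval.symm 0)).re) = xr
      rw [unitInterval.symm_zero]
      change max xl (min xr (G 1).re) = xr
      rw [min_eq_left h6]; exact max_eq_right hx.le
    · change (G (unitInterval.symm 0)).im = _
      rw [unitInterval.symm_zero]; rfl
  have ed : g 1 = ⟨xl, (G 0).im⟩ := by
    refine Complex.ext ?_ ?_
    · change max xl (min xr (G (unitInterval.symm 1)).re) = xl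
      rw [unitInterval.symm_one]
      exact max_eq_left ((min_le_right _ _).trans h5)
    · change (G (unitInterval.symm 1)).im = _
      rw [unitInterval.symm_one]; rfl
  have A0 := h1 0 m0
  have A1 := h1 1 m1
  have B0 := h4 0 m0
  have B1 := h4 1 m1
  obtain ⟨s, t, hst⟩ := Pool.Agent.H77.ISO.cross (D := D) hf hg hfD hgD ea ec eb ed
    (na := -Complex.I) (nb := -1) (nc := Complex.I) (nd := 1)
    (neg_ne_zero.2 Complex.I_ne_zero) (neg_ne_zero.2 one_ne_zero) Complex.I_ne_zero one_ne_zero
    (by
      rintro y ⟨-, -, h, -⟩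
      have : ((⟨(S 0).re, yb⟩ - y) / -Complex.I) = (⟨(S 0).re, yb⟩ - y) * Complex.I := by
        rw [div_eq_iff (neg_ne_zero.2 Complex.I_ne_zero), mul_assoc, mul_neg, Complex.I_mul_I]
        ring
      rw [this, Complex.mul_I_re]
      simp only [Complex.sub_im]
      linarith)
    (by
      rintro y ⟨-, h, -, -⟩
      rw [div_neg, div_one, Complex.neg_re, Complex.sub_re]
      change 0 ≤ -(y.re - xr)
      linarith)
    (by
      rintro y ⟨-, -, -, h⟩
      have : ((⟨(S 1).re, yt⟩ - y) / Complex.I) = -((⟨(S 1).re, yt⟩ - y) * Complex.I) := by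
        rw [div_eq_iff Complex.I_ne_zero, neg_mul, mul_assoc, Complex.I_mul_I]
        ring
      rw [this, Complex.neg_re, Complex.mul_I_re]
      simp only [Complex.sub_im]
      linarith)
    (by
      rintro y ⟨h, -, -, -⟩
      rw [div_one, Complex.sub_re]
      change 0 ≤ y.re - xl
      linarith)
    (by
      simp only [Complex.mul_im, Complex.conj_re, Complex.conj_im, Complex.sub_re, Complex.sub_im]
      nlinarith [mul_pos (sub_pos.2 A0.1) (sub_pos.2 B1.1), mul_pos (sub_pos.2 A0.2) (sub_pos.2 B0.1)])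
    (by
      simp only [Complex.mul_im, Complex.conj_re, Complex.conj_im, Complex.sub_re, Complex.sub_im]
      nlinarith [mul_pos (sub_pos.2 A0.1) (sub_pos.2 B0.2), mul_pos (sub_pos.2 A1.1) (sub_pos.2 B0.1)])
    (by
      simp only [Complex.mul_im, Complex.conj_re, Complex.conj_im, Complex.sub_re, Complex.sub_im]
      nlinarith [mul_pos (sub_pos.2 A1.1) (sub_pos.2 B1.2), mul_pos (sub_pos.2 A1.2) (sub_pos.2 B0.2)])
    (by
      simp only [Complex.mul_im, Complex.conj_re, Complex.conj_im, Complex.sub_re, Complex.sub_im]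
      nlinarith [mul_pos (sub_pos.2 A1.2) (sub_pos.2 B1.1), mul_pos (sub_pos.2 A0.2) (sub_pos.2 B1.2)])
  refine ⟨s, s.2, (unitInterval.symm t : unitInterval), (unitInterval.symm t).2, ?_⟩
  have e1 : (S s).re = max xl (min xr (G (unitInterval.symm t)).re) := congrArg Complex.re hst
  have e2 : max yb (min yt (S s).im) = (G (unitInterval.symm t)).im := congrArg Complex.im hst
  have C1 := h1 s s.2
  have C2 := h4 _ (unitInterval.symm t).2
  refine Complex.ext ?_ ?_
  · rcases le_total xl (min xr (G (unitInterval.symm t)).re) with h | h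
    · rw [max_eq_right h] at e1
      rcases le_total xr (G (unitInterval.symm t)).re with h' | h'
      · rw [min_eq_left h'] at e1; linarith
      · rw [min_eq_right h'] at e1; exact e1
    · rw [max_eq_left h] at e1; linarith
  · rcases le_total yb (min yt (S s).im) with h | h
    · rw [max_eq_right h] at e2
      rcases le_total yt (S s).im with h' | h'
      · rw [min_eq_left h'] at e2; linarith
      · rw [min_eq_right h'] at e2; exact e2
    · rw [max_eq_left h] at e2; linarith

end TorD
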