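import Pool.Agent.H51.TD.EDef

/-! # ECV: the covering `pr : ℂ → T2` -/

set_option autoImplicit false

open Topology Filter Set Function

namespace TorD

theorem pr_cont : Continuous pr := by
  unfold pr prT
  exact ((AddCircle.continuous_mk' (1 : ℝ)).comp Complex.continuous_re).prodMk
    ((AddCircle.continuous_mk' (1 : ℝ)).comp Complex.continuous_im)

theorem pr_surj : Surjective pr := by
  rintro ⟨a, b⟩
  obtain ⟨x, rfl⟩ := QuotientAddGroup.mk_surjective a
  obtain ⟨y, rfl⟩ := QuotientAddGroup.mk_surjective b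
  exact ⟨⟨x, y⟩, rfl⟩

theorem ECV_iff (x y : ℝ) : (x : AddCircle (1 : ℝ)) = y ↔ ∃ n : ℤ, x = y + n := by
  rw [QuotientAddGroup.eq_iff_sub_mem, AddSubgroup.mem_zmultiples_iff]
  constructor
  · rintro ⟨n, hn⟩
    refine ⟨n, ?_⟩
    rw [zsmul_eq_mul, mul_one] at hn
    linarith
  · rintro ⟨n, hn⟩
    refine ⟨n, ?_⟩
    rw [zsmul_eq_mul, mul_one]
    linarith

theorem pr_iff (x y : ℂ) : pr x = pr y ↔ ∃ w, x = y + lat w := by
  unfold pr prT
  rw [Prod.mk.injEq, ECV_iff, ECV_iff]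
  constructor
  · rintro ⟨⟨n, hn⟩, m, hm⟩
    exact ⟨(n, m), Complex.ext (by simpa [lat] using hn) (by simpa [lat] using hm)⟩
  · rintro ⟨w, rfl⟩
    exact ⟨⟨w.1, by simp [lat]⟩, ⟨w.2, by simp [lat]⟩⟩

theorem pr_open : IsOpenMap pr := by
  have h1 : IsOpenMap (fun x : ℝ => (x : AddCircle (1 : ℝ))) := QuotientAddGroup.isOpenMap_coe
  have h2 : IsOpenMap (Prod.map (fun x : ℝ => (x : AddCircle (1 : ℝ)))
      (fun x : ℝ => (x : AddCircle (1 : ℝ)))) := h1.prodMap h1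
  exact h2.comp Complex.equivRealProdCLM.toHomeomorph.isOpenMap

end TorD
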