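import Pool.Agent.H51.TD.RDA

/-!
# Block E: descent to the torus, definitions
-/

set_option autoImplicit false

open Topology Filter Set Function

namespace TorD

/-- an equivariant isotopy of the plane from `f0` to `f1` -/
structure EIso (f0 f1 : ℂ → ℂ) (Φ : ℝ × ℂ → ℂ) : Prop where
  cont : ContinuousOn Φ (Icc (0 : ℝ) 1 ×ˢ univ)
  eqv : ∀ s ∈ Icc (0 : ℝ) 1, ∀ x w, Φ (s, x + lat w) = Φ (s, x) + lat w
  bij : ∀ s ∈ Icc (0 : ℝ) 1, Bijective fun x => Φ (s, x)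
  at0 : ∀ x, Φ (0, x) = f0 x
  at1 : ∀ x, Φ (1, x) = f1 x

/-- `F` is the homeomorphism of the torus induced by `f`, with inverse induced by `g` -/
structure Desc (f g : ℂ → ℂ) (F : T2 ≃ₜ T2) : Prop where
  fwd : ∀ (n : ℕ) (x : ℂ), (F ^ (n : ℤ) : T2 ≃ₜ T2) (pr x) = pr (f^[n] x)
  bwd : ∀ (n : ℕ) (x : ℂ), (F ^ (-(n : ℤ)) : T2 ≃ₜ T2) (pr x) = pr (g^[n] x)
  one : ∀ x : ℂ, F (pr x) = pr (f x)
  itr : ∀ (n : ℕ) (x : ℂ), F^[n] (pr x) = pr (f^[n] x)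

end TorD
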