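import Pool.Agent.H51.TD.EDef

/-! # EFO: following a straight segment -/

set_option autoImplicit false

open Topology Filter Set Function

namespace TorD

theorem follow {h k K : ℂ → ℂ} (hk : Continuous k) (hn : ∀ q, ‖h q - q‖ ≤ 1 / 16)
    (hkK : ∀ q, h (k q) = K (h q)) {σ : ℝ → ℂ} {τ : ℝ → ℝ} (hσ : Continuous σ)
    (hτ : Continuous τ) (hm : MonotoneOn τ (Icc 0 1))
    (hst : ∀ t ∈ Icc (0 : ℝ) 1, h (σ t) = τ t * Complex.I) {a b l : ℝ} {P Q : ℂ}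
    (ha : τ 0 ≤ a) (hab : a < b) (hb : b ≤ τ 1) (hl : 0 < l) (hl1 : l ≤ 1)
    (hK : ∀ t ∈ Icc a b, K (t * Complex.I) = P + ((t - a) / (b - a) : ℝ) • (Q - P)) :
    ∃ (S : ℝ → ℂ) (ρ : ℝ → ℝ), Continuous S ∧ ρ 0 = 0 ∧ ρ 1 = 1 ∧ ∀ t ∈ Icc (0 : ℝ) 1,
      ρ t ∈ Icc (0 : ℝ) 1 ∧ (∃ u ∈ Icc (0 : ℝ) 1, S t = k (σ u)) ∧
        ‖S t - (P + ρ t • (l • (Q - P)))‖ ≤ 1 / 16 := by
  have hba : 0 < b - a := sub_pos.2 hab
  have hlb : 0 < l * (b - a) := mul_pos hl hba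
  have hle : l * (b - a) ≤ b - a := by nlinarith
  set b' := a + l * (b - a) with hb'
  have hab' : a < b' := by linarith
  have hbb' : b' ≤ b := by linarith
  obtain ⟨u1, hu1, e1⟩ := intermediate_value_Icc (zero_le_one (α := ℝ)) hτ.continuousOn
    (show a ∈ Icc (τ 0) (τ 1) from ⟨ha, by linarith⟩)
  obtain ⟨u2, hu2, e2⟩ := intermediate_value_Icc (zero_le_one (α := ℝ)) hτ.continuousOn
    (show b' ∈ Icc (τ 0) (τ 1) from ⟨by linarith, by linarith⟩)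
  have hu : u1 < u2 := by
    by_contra hc
    push Not at hc
    have := hm hu2 hu1 hc
    rw [e1, e2] at this
    linarith
  have hw : ∀ t ∈ Icc (0 : ℝ) 1, u1 + t * (u2 - u1) ∈ Icc u1 u2 := by
    rintro t ⟨h0, h1⟩
    have := sub_pos.2 hu
    exact ⟨by nlinarith, by nlinarith⟩
  have hw' : ∀ t ∈ Icc (0 : ℝ) 1, u1 + t * (u2 - u1) ∈ Icc (0 : ℝ) 1 := fun t ht =>
    ⟨hu1.1.trans (hw t ht).1, (hw t ht).2.trans hu2.2⟩
  have hτw : ∀ t ∈ Icc (0 : ℝ) 1, τ (u1 + t * (u2 - u1)) ∈ Icc a b' := by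
    intro t ht
    constructor
    · rw [← e1]; exact hm hu1 (hw' t ht) (hw t ht).1
    · rw [← e2]; exact hm (hw' t ht) hu2 (hw t ht).2
  refine ⟨fun t => k (σ (u1 + t * (u2 - u1))), fun t => (τ (u1 + t * (u2 - u1)) - a) / (b' - a),
    hk.comp (hσ.comp (by fun_prop)), ?_, ?_, ?_⟩
  · simp [e1]
  · have : u1 + 1 * (u2 - u1) = u2 := by ring
    simp only [this, e2]
    exact div_self (sub_pos.2 hab').ne'
  · intro t ht
    refine ⟨⟨div_nonneg (by linarith [(hτw t ht).1]) (by linarith), ?_⟩, ⟨_, hw' t ht, rfl⟩, ?_⟩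
    · rw [div_le_one (sub_pos.2 hab')]
      linarith [(hτw t ht).2]
    · have h1 : h (k (σ (u1 + t * (u2 - u1)))) =
          P + ((τ (u1 + t * (u2 - u1)) - a) / (b' - a) : ℝ) • (l • (Q - P)) := by
        rw [hkK, hst _ (hw' t ht), hK _ ⟨(hτw t ht).1, (hτw t ht).2.trans hbb'⟩, smul_smul]
        congr 2
        rw [hb']
        field_simp
        ring
      beta_reduce
      rw [← h1, norm_sub_rev]
      exact hn _

end TorD
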