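import Pool.Agent.H51.TD.ECP
import Pool.Agent.H51.TD.ECR

/-! # ELP: a long vertical path and a long horizontal path produce an essential loop

PROOF. Integers `a = ⌈x0 - x1⌉ - 2` (so `x0 - x1 - 2 ≤ a < x0 - x1 - 1`) and `b = ⌊y0 - y1⌋ + 1` (so `y0 - y1 < b ≤ y0 - y1 + 1`). For `b' = b` and `b' = b + 1` apply cross_rect to `S` and `G + lat (a, b')` with
`xl = x1 + a`, `xr = x1 + a + 27/8`, `yb = y0`, `yt = y0 + 27/8`: `xl < x0 ≤ (S t).re ≤ x0 + 5/8 < xr`; `(G t).im + b' ∈ [y1 + b', y1 + b' + 5/8] ⊂ (y0, y0 + 27/8)`. So `S s = G t + lat (a, b)` and `S s' = G t' + lat (a, b + 1)` with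
`s, t, s', t' ∈ [0,1]`. The path `c` in `ℂ`: from `G t` along `u ↦ G (t + u (t' - t))` to `G t'`, then along `u ↦ S (s' + u (s - s')) - lat (a, b + 1)` from `G t'` to `S s - lat (a, b + 1) = G t - lat (0, 1)`. (Concatenate
`Path`s by `Path.trans`, and compose with `pr` by `Path.map`; or define `c : unitInterval → ℂ` by cases `u ≤ 1/2`.) All values of `pr ∘ c` are in `V` (pr_iff for the second half). It is a loop in `T2` (pr_iff: `c 1 = c 0 - lat (0,1)`)
but `c 1 ≠ c 0` (lat_inj or lat_norm), so by pr_closed it is not null homotopic. -/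

set_option autoImplicit false

open Topology Filter Set Function

namespace TorD

theorem ELP_mem {t t' : ℝ} (ht : t ∈ Icc (0 : ℝ) 1) (ht' : t' ∈ Icc (0 : ℝ) 1)
    (u : unitInterval) : t + (u : ℝ) * (t' - t) ∈ Icc (0 : ℝ) 1 := by
  have h0 := u.2.1
  have h1 := u.2.2
  obtain ⟨a, b⟩ := ht
  obtain ⟨a', b'⟩ := ht'
  constructor
  · nlinarith
  · nlinarith

theorem ELP_path {F : ℝ → ℂ} (hF : ContinuousOn F (Icc 0 1)) {t t' : ℝ} (ht : t ∈ Icc (0 : ℝ) 1)
    (ht' : t' ∈ Icc (0 : ℝ) 1) (z x y : ℂ) (hx : F t + z = x) (hy : F t' + z = y) :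
    ∃ P : Path x y, ∀ u, ∃ r ∈ Icc (0 : ℝ) 1, P u = F r + z := by
  have hc : Continuous fun u : unitInterval => t + (u : ℝ) * (t' - t) := by fun_prop
  have hF' : Continuous fun u : unitInterval => F (t + (u : ℝ) * (t' - t)) :=
    hF.comp_continuous hc fun u => ELP_mem ht ht' u
  refine ⟨{ toFun := fun u => F (t + (u : ℝ) * (t' - t)) + z
            continuous_toFun := hF'.add continuous_const
            source' := ?_
            target' := ?_ }, fun u => ⟨_, ELP_mem ht ht' u, rfl⟩⟩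
  · simp [hx]
  · simp [hy]

theorem ELP_trans {x y z : ℂ} (P : Path x y) (Q : Path y z) (p : ℂ → Prop) (hP : ∀ u, p (P u))
    (hQ : ∀ u, p (Q u)) (u : unitInterval) : p ((P.trans Q) u) := by
  rw [Path.trans_apply]
  split_ifs with h
  · exact hP _
  · exact hQ _

theorem loop_ess {V : Set T2} {S G : ℝ → ℂ} (hS : ContinuousOn S (Icc 0 1))
    (hG : ContinuousOn G (Icc 0 1)) (hSV : ∀ t ∈ Icc (0 : ℝ) 1, pr (S t) ∈ V)
    (hGV : ∀ t ∈ Icc (0 : ℝ) 1, pr (G t) ∈ V) {x0 y0 x1 y1 : ℝ}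
    (h1 : ∀ t ∈ Icc (0 : ℝ) 1, x0 ≤ (S t).re ∧ (S t).re ≤ x0 + 5 / 8)
    (h2 : (S 0).im ≤ y0) (h3 : y0 + 27 / 8 ≤ (S 1).im)
    (h4 : ∀ t ∈ Icc (0 : ℝ) 1, y1 ≤ (G t).im ∧ (G t).im ≤ y1 + 5 / 8)
    (h5 : (G 0).re ≤ x1) (h6 : x1 + 27 / 8 ≤ (G 1).re) : ¬ Inessential V := by
  intro hV
  obtain ⟨a, ha1, ha2⟩ : ∃ a : ℤ, x0 - x1 - 2 ≤ a ∧ (a : ℝ) < x0 - x1 - 1 := by
    refine ⟨⌈x0 - x1⌉ - 2, ?_, ?_⟩
    · push_cast
      have := Int.le_ceil (x0 - x1)
      linarith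
    · push_cast
      have := Int.ceil_lt_add_one (x0 - x1)
      linarith
  obtain ⟨b, hb1, hb2⟩ : ∃ b : ℤ, y0 - y1 < b ∧ (b : ℝ) ≤ y0 - y1 + 1 := by
    refine ⟨⌊y0 - y1⌋ + 1, ?_, ?_⟩
    · push_cast
      exact Int.lt_floor_add_one (y0 - y1)
    · push_cast
      have := Int.floor_le (y0 - y1)
      linarith
  have key : ∀ b' : ℤ, y0 - y1 < b' → (b' : ℝ) ≤ y0 - y1 + 2 →
      ∃ s ∈ Icc (0 : ℝ) 1, ∃ t ∈ Icc (0 : ℝ) 1, S s = G t + lat (a, b') := by
    intro b' hb1' hb2'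
    refine cross_rect (G := fun t => G t + lat (a, b')) (xl := x1 + a) (xr := x1 + a + 27 / 8)
      (yb := y0) (yt := y0 + 27 / 8) hS (hG.add continuousOn_const) (fun t ht => ?_) h2 h3
      (fun t ht => ?_) ?_ ?_
    · obtain ⟨g1, g2⟩ := h1 t ht
      constructor <;> linarith
    · obtain ⟨g1, g2⟩ := h4 t ht
      show y0 < (G t).im + (b' : ℝ) ∧ (G t).im + (b' : ℝ) < y0 + 27 / 8
      constructor <;> linarith
    · show (G 0).re + (a : ℝ) ≤ x1 + a
      linarith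
    · show x1 + a + 27 / 8 ≤ (G 1).re + (a : ℝ)
      linarith
  obtain ⟨s, hs, t, ht, hst⟩ := key b hb1 (by linarith)
  obtain ⟨s', hs', t', ht', hst'⟩ := key (b + 1) (by push_cast; linarith) (by push_cast; linarith)
  obtain ⟨P, hP⟩ := ELP_path hG ht ht' 0 (G t) (G t') (add_zero _) (add_zero _)
  have hlat : lat (a, b) - lat (a, b + 1) = -lat (0, 1) := by
    unfold lat
    apply Complex.ext <;> simp
  have hy : S s + (-lat (a, b + 1)) = G t - lat (0, 1) := by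
    rw [hst]
    linear_combination hlat
  have hx : S s' + (-lat (a, b + 1)) = G t' := by
    rw [hst']
    ring
  obtain ⟨Q, hQ⟩ := ELP_path hS hs' hs (-lat (a, b + 1)) (G t') (G t - lat (0, 1)) hx hy
  have hprlat : ∀ (z : ℂ) (w : ℤ × ℤ), pr (z + lat w) = pr z := fun z w =>
    (pr_iff _ _).mpr ⟨w, rfl⟩
  have hc : ∀ u, pr ((P.trans Q) u) ∈ V := by
    apply ELP_trans P Q (fun z => pr z ∈ V)
    · intro u
      obtain ⟨r, hr, h⟩ := hP u
      rw [h, add_zero]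
      exact hGV r hr
    · intro u
      obtain ⟨r, hr, h⟩ := hQ u
      have h' := hprlat (S r + -lat (a, b + 1)) (a, b + 1)
      rw [neg_add_cancel_right] at h'
      rw [h, ← h']
      exact hSV r hr
  have hend : pr (G t) = pr (G t - lat (0, 1)) := by
    have h' := hprlat (G t - lat (0, 1)) (0, 1)
    rw [sub_add_cancel] at h'
    exact h'
  have h7 := hV (pr (G t)) (((P.trans Q).map pr_cont).cast rfl hend) fun u => hc u
  have h8 := pr_closed _ (P.trans Q) (P.trans Q).continuous (fun u => rfl) h7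
  rw [(P.trans Q).target, (P.trans Q).source] at h8
  have h9 := congrArg Complex.im h8
  unfold lat at h9
  simp at h9

end TorD
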