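import Pool.Agent.H51.TD.GRW
import Pool.Agent.H51.TD.EFO

/-! # EST: steep paths in the forward orbit of a small set -/

set_option autoImplicit false

open Topology Filter Set Function

namespace TorD

theorem EST_re {S P v : ℂ} {r : ℝ} (h : ‖S - (P + r • v)‖ ≤ 1 / 16) :
    |S.re - (P.re + r * v.re)| ≤ 1 / 16 := by
  have := (Complex.abs_re_le_norm _).trans h
  simpa [Complex.sub_re, Complex.add_re, Complex.real_smul] using this

theorem EST_im {S P v : ℂ} {r : ℝ} (h : ‖S - (P + r • v)‖ ≤ 1 / 16) :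
    |S.im - (P.im + r * v.im)| ≤ 1 / 16 := by
  have := (Complex.abs_im_le_norm _).trans h
  simpa [Complex.sub_im, Complex.add_im, Complex.real_smul] using this

theorem steep {f g h : ℂ → ℂ} (B : Blow ph f g h) {σ : ℝ → ℂ} {τ : ℝ → ℝ} (hσ : Continuous σ)
    (hτ : Continuous τ) (hlt : τ 0 < τ 1) (hm : MonotoneOn τ (Icc 0 1))
    (hst : ∀ t ∈ Icc (0 : ℝ) 1, h (σ t) = τ t * Complex.I) :
    ∃ (n : ℕ) (S : ℝ → ℂ) (x0 y0 : ℝ), Continuous S ∧
      (∀ t ∈ Icc (0 : ℝ) 1, ∃ u ∈ Icc (0 : ℝ) 1, S t = f^[n] (σ u)) ∧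
      (∀ t ∈ Icc (0 : ℝ) 1, x0 ≤ (S t).re ∧ (S t).re ≤ x0 + 5 / 8) ∧
      (S 0).im ≤ y0 ∧ y0 + 27 / 8 ≤ (S 1).im := by
  obtain ⟨n, a, b, P, Q, ha, hab, hb, hK, hY, hX⟩ := grow_fwd hlt
  set Y := |(Q - P).im| with hYdef
  have hYpos : 0 < Y := by linarith
  have hl : 0 < (7 / 2) / Y := by positivity
  have hl1 : (7 / 2) / Y ≤ 1 := by rw [div_le_one hYpos]; exact hY
  have semi : ∀ q, h (f^[n] q) = ph^[n] (h q) := by
    intro q
    have : Semiconj h f ph := B.semi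
    exact this.iterate_right n q
  obtain ⟨S, ρ, hS, r0, r1, hall⟩ := follow (B.fc.iterate n) B.hnear semi hσ hτ hm hst ha hab hb
    hl hl1 hK
  set v : ℂ := ((7 / 2) / Y) • (Q - P) with hv
  have hvre : v.re = (7 / 2) / Y * (Q - P).re := by rw [hv]; simp [Complex.real_smul]
  have hvim : v.im = (7 / 2) / Y * (Q - P).im := by rw [hv]; simp [Complex.real_smul]
  have hvr : |v.re| ≤ 1 / 2 := by
    rw [hvre, abs_mul, abs_of_pos hl, div_mul_eq_mul_div, div_le_iff₀ hYpos]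
    linarith
  have m0 : (0 : ℝ) ∈ Icc (0 : ℝ) 1 := ⟨le_rfl, zero_le_one⟩
  have m1 : (1 : ℝ) ∈ Icc (0 : ℝ) 1 := ⟨zero_le_one, le_rfl⟩
  have hxr : ∀ t ∈ Icc (0 : ℝ) 1, min P.re (P.re + v.re) - 1 / 16 ≤ (S t).re ∧
      (S t).re ≤ min P.re (P.re + v.re) - 1 / 16 + 5 / 8 := by
    intro t ht
    obtain ⟨⟨hr0, hr1⟩, -, hb⟩ := hall t ht
    have h1 := abs_le.1 (EST_re hb)
    have h2 := abs_le.1 hvr
    rcases le_total 0 v.re with hc | hc
    · rw [min_eq_left (by linarith)]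
      have h3 : 0 ≤ ρ t * v.re := mul_nonneg hr0 hc
      have h4 : ρ t * v.re ≤ v.re := by nlinarith
      constructor <;> linarith
    · rw [min_eq_right (by linarith)]
      have h3 : ρ t * v.re ≤ 0 := mul_nonpos_of_nonneg_of_nonpos hr0 hc
      have h4 : v.re ≤ ρ t * v.re := by nlinarith
      constructor <;> linarith
  have i0 := abs_le.1 (EST_im (hall 0 m0).2.2)
  have i1 := abs_le.1 (EST_im (hall 1 m1).2.2)
  rw [r0, zero_mul] at i0
  rw [r1, one_mul] at i1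
  rcases le_total 0 (Q - P).im with hc | hc
  · have hvi : v.im = 7 / 2 := by
      rw [hvim, hYdef, abs_of_nonneg hc]
      have : (Q - P).im ≠ 0 := by
        intro h0; rw [hYdef, h0, abs_zero] at hYpos; exact lt_irrefl _ hYpos
      field_simp
    rw [hvi] at i1
    exact ⟨n, S, _, P.im + 1 / 16, hS, fun t ht => (hall t ht).2.1, hxr, by linarith, by linarith⟩
  · have hvi : v.im = -(7 / 2) := by
      rw [hvim, hYdef, abs_of_nonpos hc]
      have : (Q - P).im ≠ 0 := by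
        intro h0; rw [hYdef, h0, abs_zero] at hYpos; exact lt_irrefl _ hYpos
      field_simp
    rw [hvi] at i1
    have mm : ∀ t ∈ Icc (0 : ℝ) 1, 1 - t ∈ Icc (0 : ℝ) 1 := fun t ht =>
      ⟨by linarith [ht.2], by linarith [ht.1]⟩
    refine ⟨n, fun t => S (1 - t), _, P.im - 7 / 2 + 1 / 16,
      hS.comp (continuous_const.sub continuous_id), fun t ht => (hall _ (mm t ht)).2.1,
      fun t ht => hxr _ (mm t ht), ?_, ?_⟩
    · simp only [sub_zero]; linarith
    · simp only [sub_self]; linarith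

end TorD
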