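import Pool.Agent.H51.TD.ESG
import Pool.Agent.H51.TD.EST
import Pool.Agent.H51.TD.EFL
import Pool.Agent.H51.TD.ELP

/-! # EES: points of the band over irrational points are in the essential set -/

set_option autoImplicit false

open Topology Filter Set Function

namespace TorD

theorem ess_point {f g h : ℂ → ℂ} (B : Blow ph f g h) {F : T2 ≃ₜ T2} (D : Desc f g F) {p : ℂ}
    (hi : p ∈ interior {p | (h p).re = 0}) (hp : h p ∉ Rat2) : pr p ∈ Ess F := by
  rintro ⟨U, hU, hpU, hin⟩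
  have ho : IsOpen (pr ⁻¹' U ∩ interior {p | (h p).re = 0}) :=
    (hU.preimage pr_cont).inter isOpen_interior
  obtain ⟨r, hr, hb⟩ := Metric.isOpen_iff.1 ho p ⟨hpU, hi⟩
  obtain ⟨σ, τ, hσ, hτ, hlt, hm, hst⟩ := seg_exists B hr
    (fun q hq => (interior_subset (hb hq).2 : q ∈ {p | (h p).re = 0})) hp
  obtain ⟨n, S, x0, y0, hS, hSf, h1, h2, h3⟩ := steep B hσ hτ hlt hm fun t ht => (hst t ht).2
  obtain ⟨m, G, x1, y1, hG, hGf, h4, h5, h6⟩ := flat B hσ hτ hlt hm fun t ht => (hst t ht).2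
  refine loop_ess (V := orb F U) hS.continuousOn hG.continuousOn ?_ ?_ h1 h2 h3 h4 h5 h6 hin
  · intro t ht
    obtain ⟨u, hu, e⟩ := hSf t ht
    rw [e, ← D.fwd]
    exact mem_iUnion.2 ⟨(n : ℤ), mem_image_of_mem _ (hb (hst u hu).1).1⟩
  · intro t ht
    obtain ⟨u, hu, e⟩ := hGf t ht
    rw [e, ← D.bwd]
    exact mem_iUnion.2 ⟨-(m : ℤ), mem_image_of_mem _ (hb (hst u hu).1).1⟩

end TorD
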