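import Pool.Agent.H51.TD.ECV

/-! # EHM: an equivariant homeomorphism of the plane induces a homeomorphism of the torus -/

set_option autoImplicit false

open Topology Filter Set Function

namespace TorD

theorem g_lat {f g : ℂ → ℂ} (fg : ∀ x, f (g x) = x) (gf : ∀ x, g (f x) = x)
    (feqv : ∀ x w, f (x + lat w) = f x + lat w) (x : ℂ) (w : ℤ × ℤ) :
    g (x + lat w) = g x + lat w := by
  have h := feqv (g x) w
  rw [fg] at h
  rw [← h, gf]

theorem iter_lat {f : ℂ → ℂ} (feqv : ∀ x w, f (x + lat w) = f x + lat w) (n : ℕ) (x : ℂ)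
    (w : ℤ × ℤ) : f^[n] (x + lat w) = f^[n] x + lat w := by
  induction n with
  | zero => rfl
  | succ n ih => rw [iterate_succ_apply', ih, feqv, iterate_succ_apply']

theorem EHM_quot : IsQuotientMap pr := pr_open.isQuotientMap pr_cont pr_surj

/-- the induced map -/
noncomputable def EHM_dn (f : ℂ → ℂ) (x : T2) : T2 := pr (f (surjInv pr_surj x))

theorem EHM_dn_pr {f : ℂ → ℂ} (feqv : ∀ x w, f (x + lat w) = f x + lat w) (x : ℂ) :
    EHM_dn f (pr x) = pr (f x) := by
  obtain ⟨w, hw⟩ := (pr_iff _ _).1 (surjInv_eq pr_surj (pr x))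
  unfold EHM_dn
  rw [hw, feqv]
  exact (pr_iff _ _).2 ⟨w, rfl⟩

theorem EHM_dn_cont {f : ℂ → ℂ} (hf : Continuous f)
    (feqv : ∀ x w, f (x + lat w) = f x + lat w) : Continuous (EHM_dn f) := by
  rw [EHM_quot.continuous_iff]
  have : EHM_dn f ∘ pr = pr ∘ f := funext fun x => EHM_dn_pr feqv x
  rw [this]
  exact pr_cont.comp hf

theorem desc_exists {f g : ℂ → ℂ} (hf : Continuous f) (hg : Continuous g)
    (fg : ∀ x, f (g x) = x) (gf : ∀ x, g (f x) = x)
    (feqv : ∀ x w, f (x + lat w) = f x + lat w) : ∃ F : T2 ≃ₜ T2, Desc f g F := by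
  have geqv := g_lat fg gf feqv
  let F : T2 ≃ₜ T2 :=
    { toFun := EHM_dn f
      invFun := EHM_dn g
      left_inv := by
        intro x
        obtain ⟨z, rfl⟩ := pr_surj x
        rw [EHM_dn_pr feqv, EHM_dn_pr geqv, gf]
      right_inv := by
        intro x
        obtain ⟨z, rfl⟩ := pr_surj x
        rw [EHM_dn_pr geqv, EHM_dn_pr feqv, fg]
      continuous_toFun := EHM_dn_cont hf feqv
      continuous_invFun := EHM_dn_cont hg geqv }
  have hF : ∀ x, F (pr x) = pr (f x) := fun x => EHM_dn_pr feqv x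
  have hG : ∀ x, (F⁻¹ : T2 ≃ₜ T2) (pr x) = pr (g x) := fun x => EHM_dn_pr geqv x
  have hi : ∀ (n : ℕ) (x : ℂ), F^[n] (pr x) = pr (f^[n] x) := by
    intro n
    induction n with
    | zero => intro x; rfl
    | succ n ih => intro x; rw [iterate_succ_apply, hF, ih, iterate_succ_apply]
  have hp : ∀ (n : ℕ) (x : ℂ), (F ^ n : T2 ≃ₜ T2) (pr x) = pr (f^[n] x) := by
    intro n
    induction n with
    | zero => intro x; rfl
    | succ n ih =>
      intro x
      rw [pow_succ, Homeomorph.mul_apply, hF, ih, iterate_succ_apply]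
  have hq : ∀ (n : ℕ) (x : ℂ), ((F⁻¹) ^ n : T2 ≃ₜ T2) (pr x) = pr (g^[n] x) := by
    intro n
    induction n with
    | zero => intro x; rfl
    | succ n ih =>
      intro x
      rw [pow_succ, Homeomorph.mul_apply, hG, ih, iterate_succ_apply]
  refine ⟨F, ⟨fun n x => ?_, fun n x => ?_, hF, hi⟩⟩
  · rw [zpow_natCast]; exact hp n x
  · rw [zpow_neg, zpow_natCast, ← inv_pow]; exact hq n x

end TorD
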