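import Pool.Agent.H51.TD.ECV

/-! # EIA: an equivariant isotopy of the plane induces an isotopy of the torus -/

set_option autoImplicit false

open Topology Filter Set Function

namespace TorD

theorem eiso_desc {f : ℂ → ℂ} {Φ : ℝ × ℂ → ℂ} (E : EIso id f Φ) {F : T2 → T2}
    (hF : ∀ x, F (pr x) = pr (f x)) : IsotopicId F := by
  let J : unitInterval × T2 → T2 := fun p => pr (Φ ((p.1 : ℝ), surjInv pr_surj p.2))
  have hJ : ∀ (t : unitInterval) (x : ℂ), J (t, pr x) = pr (Φ (t, x)) := by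
    intro t x
    obtain ⟨w, hw⟩ := (pr_iff _ _).1 (surjInv_eq pr_surj (pr x))
    change pr (Φ ((t : ℝ), surjInv pr_surj (pr x))) = _
    rw [hw, E.eqv _ t.2]
    exact (pr_iff _ _).2 ⟨w, rfl⟩
  have hq : IsQuotientMap (Prod.map id pr : unitInterval × ℂ → unitInterval × T2) :=
    (IsOpenMap.id.prodMap pr_open).isQuotientMap (continuous_id.prodMap pr_cont)
      (surjective_id.prodMap pr_surj)
  have hc : Continuous J := by
    rw [hq.continuous_iff]
    have : J ∘ Prod.map id pr = fun p : unitInterval × ℂ => pr (Φ ((p.1 : ℝ), p.2)) :=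
      funext fun p => hJ p.1 p.2
    rw [this]
    refine pr_cont.comp ?_
    exact E.cont.comp_continuous (by fun_prop) (fun p => ⟨p.1.2, mem_univ _⟩)
  refine ⟨J, hc, ?_, ?_, ?_⟩
  · intro x
    obtain ⟨z, rfl⟩ := pr_surj x
    rw [hJ]
    change pr (Φ (0, z)) = _
    rw [E.at0]; rfl
  · intro x
    obtain ⟨z, rfl⟩ := pr_surj x
    rw [hJ, hF]
    change pr (Φ (1, z)) = _
    rw [E.at1]
  · intro t
    have : Fact ((0 : ℝ) < 1) := ⟨one_pos⟩
    rw [isHomeomorph_iff_continuous_bijective]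
    refine ⟨hc.comp (continuous_const.prodMk continuous_id), ?_, ?_⟩
    · intro x y hxy
      obtain ⟨z, rfl⟩ := pr_surj x
      obtain ⟨z', rfl⟩ := pr_surj y
      beta_reduce at hxy
      rw [hJ, hJ] at hxy
      obtain ⟨w, hw⟩ := (pr_iff _ _).1 hxy
      rw [← E.eqv _ t.2] at hw
      have := (E.bij _ t.2).1 hw
      exact (pr_iff _ _).2 ⟨w, this⟩
    · intro y
      obtain ⟨z', rfl⟩ := pr_surj y
      obtain ⟨z, hz⟩ := (E.bij _ t.2).2 z'
      refine ⟨pr z, ?_⟩
      beta_reduce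
      rw [hJ]
      exact congrArg pr hz

end TorD
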