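import Pool.Agent.H51.TD.EDef

/-! # EIB: composition of equivariant isotopies -/

set_option autoImplicit false

open Topology Filter Set Function

namespace TorD

open Classical in
theorem eiso_trans {f0 f1 f2 : ℂ → ℂ} {Φ Ψ : ℝ × ℂ → ℂ} (E : EIso f0 f1 Φ) (E' : EIso f1 f2 Ψ) :
    ∃ X, EIso f0 f2 X := by
  let X : ℝ × ℂ → ℂ := fun p => if p.1 ≤ 1 / 2 then Φ (2 * p.1, p.2) else Ψ (2 * p.1 - 1, p.2)
  have hX1 : ∀ s x, s ≤ (1 : ℝ) / 2 → X (s, x) = Φ (2 * s, x) := fun s x h => if_pos h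
  have hX2 : ∀ s x, (1 : ℝ) / 2 ≤ s → X (s, x) = Ψ (2 * s - 1, x) := by
    intro s x h
    rcases h.eq_or_lt with rfl | h
    · rw [hX1 _ _ le_rfl]
      have e1 : (2 : ℝ) * (1 / 2) = 1 := by norm_num
      have e2 : (2 : ℝ) * (1 / 2) - 1 = 0 := by norm_num
      rw [e2, e1, E.at1, E'.at0]
    · exact if_neg (not_le.2 h)
  have c1 : ContinuousOn X (Icc (0 : ℝ) (1 / 2) ×ˢ univ) := by
    have : ContinuousOn (fun p : ℝ × ℂ => Φ (2 * p.1, p.2)) (Icc (0 : ℝ) (1 / 2) ×ˢ univ) := by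
      refine E.cont.comp (by fun_prop) ?_
      rintro ⟨s, x⟩ ⟨⟨h0, h1⟩, -⟩
      exact ⟨⟨by simp only; linarith, by simp only; linarith⟩, mem_univ _⟩
    exact this.congr fun p hp => hX1 p.1 p.2 hp.1.2
  have c2 : ContinuousOn X (Icc ((1 : ℝ) / 2) 1 ×ˢ univ) := by
    have : ContinuousOn (fun p : ℝ × ℂ => Ψ (2 * p.1 - 1, p.2)) (Icc ((1 : ℝ) / 2) 1 ×ˢ univ) := by
      refine E'.cont.comp (by fun_prop) ?_
      rintro ⟨s, x⟩ ⟨⟨h0, h1⟩, -⟩
      exact ⟨⟨by simp only; linarith, by simp only; linarith⟩, mem_univ _⟩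
    exact this.congr fun p hp => hX2 p.1 p.2 hp.1.1
  refine ⟨X, ⟨?_, ?_, ?_, ?_, ?_⟩⟩
  · have := c1.union_of_isClosed c2 (isClosed_Icc.prod isClosed_univ)
      (isClosed_Icc.prod isClosed_univ)
    rw [← union_prod, Icc_union_Icc_eq_Icc (by norm_num) (by norm_num)] at this
    exact this
  · intro s hs x w
    rcases le_total s (1 / 2) with h | h
    · rw [hX1 _ _ h, hX1 _ _ h, E.eqv _ ⟨by linarith [hs.1], by linarith⟩]
    · rw [hX2 _ _ h, hX2 _ _ h, E'.eqv _ ⟨by linarith, by linarith [hs.2]⟩]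
  · intro s hs
    rcases le_total s (1 / 2) with h | h
    · have : (fun x => X (s, x)) = fun x => Φ (2 * s, x) := funext fun x => hX1 _ _ h
      rw [this]
      exact E.bij _ ⟨by linarith [hs.1], by linarith⟩
    · have : (fun x => X (s, x)) = fun x => Ψ (2 * s - 1, x) := funext fun x => hX2 _ _ h
      rw [this]
      exact E'.bij _ ⟨by linarith, by linarith [hs.2]⟩
  · intro x
    rw [hX1 _ _ (by norm_num), mul_zero, E.at0]
  · intro x
    rw [hX2 _ _ (by norm_num)]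
    have : (2 : ℝ) * 1 - 1 = 1 := by norm_num
    rw [this, E'.at1]

end TorD
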