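import Pool.Agent.H51.TD.EDef
import Pool.Agent.H51.TD.BAS

/-! # EIC: the base map is equivariantly isotopic to the identity -/

set_option autoImplicit false

open Topology Filter Set Function

namespace TorD

theorem EIC_aa : Continuous aa :=
  (LipschitzWith.of_dist_le_mul (K := 8) fun x y => by
    rw [Real.dist_eq, Real.dist_eq]; exact aa_lip x y).continuous

theorem eiso_base : ∃ Φ, EIso id ph Φ := by
  let x' : ℝ × ℂ → ℝ := fun p => p.2.re + p.1 * aa p.2.im
  let y' : ℝ × ℂ → ℝ := fun p => p.2.im + p.1 * aa (x' p)
  have hx' : Continuous x' := (Complex.continuous_re.comp continuous_snd).add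
    (continuous_fst.mul (EIC_aa.comp (Complex.continuous_im.comp continuous_snd)))
  have hy' : Continuous y' := (Complex.continuous_im.comp continuous_snd).add
    (continuous_fst.mul (EIC_aa.comp hx'))
  refine ⟨fun p => (x' p : ℂ) + (y' p : ℂ) * Complex.I, ⟨?_, ?_, ?_, ?_, ?_⟩⟩
  · exact ((Complex.continuous_ofReal.comp hx').add
      ((Complex.continuous_ofReal.comp hy').mul continuous_const)).continuousOn
  · intro s _ x w
    have e1 : x' (s, x + lat w) = x' (s, x) + w.1 := by
      change (x + lat w).re + s * aa (x + lat w).im = x.re + s * aa x.im + w.1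
      have : (x + lat w).im = x.im + (w.2 : ℤ) := rfl
      rw [this, aa_int]
      have : (x + lat w).re = x.re + (w.1 : ℤ) := rfl
      rw [this]; ring
    have e2 : y' (s, x + lat w) = y' (s, x) + w.2 := by
      change (x + lat w).im + s * aa (x' (s, x + lat w)) = x.im + s * aa (x' (s, x)) + w.2
      rw [e1, aa_int]
      have : (x + lat w).im = x.im + (w.2 : ℤ) := rfl
      rw [this]; ring
    rw [e1, e2]
    refine Complex.ext ?_ ?_ <;> simp [lat]
  · intro s _
    rw [Function.bijective_iff_has_inverse]
    refine ⟨fun w => ⟨w.re - s * aa (w.im - s * aa w.re), w.im - s * aa w.re⟩, ?_, ?_⟩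
    · intro z
      have e1 : ((x' (s, z) : ℂ) + (y' (s, z) : ℂ) * Complex.I).re = x' (s, z) := by simp
      have e2 : ((x' (s, z) : ℂ) + (y' (s, z) : ℂ) * Complex.I).im = y' (s, z) := by simp
      beta_reduce
      rw [e1, e2]
      have e3 : y' (s, z) - s * aa (x' (s, z)) = z.im := by
        change z.im + s * aa (x' (s, z)) - s * aa (x' (s, z)) = z.im
        ring
      rw [e3]
      refine Complex.ext ?_ rfl
      change z.re + s * aa z.im - s * aa z.im = z.re
      ring
    · intro w
      beta_reduce
      have e1 : x' (s, (⟨w.re - s * aa (w.im - s * aa w.re), w.im - s * aa w.re⟩ : ℂ)) = w.re := by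
        change w.re - s * aa (w.im - s * aa w.re) + s * aa (w.im - s * aa w.re) = w.re
        ring
      have e2 : y' (s, (⟨w.re - s * aa (w.im - s * aa w.re), w.im - s * aa w.re⟩ : ℂ)) = w.im := by
        change w.im - s * aa w.re + s * aa (x' _) = w.im
        rw [e1]; ring
      rw [e1, e2]
      exact Complex.re_add_im w
  · intro x
    refine Complex.ext ?_ ?_ <;> simp [x', y']
  · intro x
    refine Complex.ext ?_ ?_ <;> simp [x', y', ph, Vv, Hh]

end TorD
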