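import Pool.Agent.H51.TD.Int

/-! # ZAR: strongly monotone Lipschitz maps of the plane are bijective

PROOF. `m ‖x - y‖² ≤ ip (F x - F y) (x - y) ≤ ‖F x - F y‖ ‖x - y‖` (ip_le) gives the last claim and injectivity; `m ≤ K`. Surjective: for `p` and `τ = m / K²`, the map
`T x = x - τ • (F x - p)` satisfies `‖T x - T y‖² = ‖x-y‖² - 2 τ ip (F x - F y) (x - y) + τ² ‖F x - F y‖² ≤ (1 - 2 τ m + τ² K²) ‖x - y‖² = (1 - m²/K²) ‖x - y‖²`,
a contraction (if `K ≤ 0` the plane would be a point; one may replace `K` by `max K m`); Banach fixed point theorem (`ContractingWith.exists_fixedPoint`, `edist` finite). -/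

set_option autoImplicit false

open Topology Filter Set Function

namespace TorD

theorem ZAR_sq {F : ℂ → ℂ} {K m : ℝ} (hK : ∀ x y, ‖F x - F y‖ ≤ K * ‖x - y‖)
    (hF : ∀ x y, m * ‖x - y‖ ^ 2 ≤ ip (F x - F y) (x - y)) {τ : ℝ} (hτ : 0 ≤ τ) (x y : ℂ) :
    ‖(x - y) - τ • (F x - F y)‖ ^ 2 ≤ (1 - 2 * τ * m + τ ^ 2 * K ^ 2) * ‖x - y‖ ^ 2 := by
  have e : ‖(x - y) - τ • (F x - F y)‖ ^ 2 =
      ‖x - y‖ ^ 2 - 2 * τ * ip (F x - F y) (x - y) + τ ^ 2 * ‖F x - F y‖ ^ 2 := by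
    rw [← ip_self, ← ip_self, ← ip_self]
    simp only [ip_sub_left, ip_sub_right, ip_smul_left, ip_smul_right]
    rw [ip_comm x (F x), ip_comm y (F x), ip_comm x (F y), ip_comm y (F y)]
    ring
  rw [e]
  have h1 := hF x y
  have h2 : ‖F x - F y‖ ^ 2 ≤ K ^ 2 * ‖x - y‖ ^ 2 := by
    rw [← mul_pow]
    exact pow_le_pow_left₀ (norm_nonneg _) (hK x y) 2
  have h3 : 2 * τ * (m * ‖x - y‖ ^ 2) ≤ 2 * τ * ip (F x - F y) (x - y) :=
    mul_le_mul_of_nonneg_left h1 (by positivity)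
  have h4 : τ ^ 2 * ‖F x - F y‖ ^ 2 ≤ τ ^ 2 * (K ^ 2 * ‖x - y‖ ^ 2) :=
    mul_le_mul_of_nonneg_left h2 (by positivity)
  nlinarith

theorem zar {F : ℂ → ℂ} {K m : ℝ} (hm : 0 < m) (hK : ∀ x y, ‖F x - F y‖ ≤ K * ‖x - y‖)
    (hF : ∀ x y, m * ‖x - y‖ ^ 2 ≤ ip (F x - F y) (x - y)) :
    Bijective F ∧ ∀ x y, m * ‖x - y‖ ≤ ‖F x - F y‖ := by
  have hlow : ∀ x y, m * ‖x - y‖ ≤ ‖F x - F y‖ := by
    intro x y
    rcases (norm_nonneg (x - y)).eq_or_lt with h | h
    · rw [← h, mul_zero]; exact norm_nonneg _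
    · have h1 := (hF x y).trans (ip_le _ _)
      have h2 : (m * ‖x - y‖) * ‖x - y‖ ≤ ‖F x - F y‖ * ‖x - y‖ := by
        rw [mul_assoc, ← pow_two]; exact h1
      exact le_of_mul_le_mul_right h2 h
  have hKm : m ≤ K := by
    have h1 := hlow 1 0
    have h2 := hK 1 0
    simp only [sub_zero, norm_one, mul_one] at h1 h2
    exact h1.trans h2
  have hK0 : 0 < K := hm.trans_le hKm
  refine ⟨⟨?_, ?_⟩, hlow⟩
  · intro x y hxy
    have h1 := hlow x y
    rw [hxy, sub_self, norm_zero] at h1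
    have h2 : ‖x - y‖ ≤ 0 := by
      by_contra h
      push Not at h
      have := mul_pos hm h
      linarith
    have h3 : ‖x - y‖ = 0 := le_antisymm h2 (norm_nonneg _)
    exact sub_eq_zero.1 (norm_eq_zero.1 h3)
  · intro p
    set τ : ℝ := m / K ^ 2 with hτ
    have hτ0 : 0 < τ := by positivity
    set q : ℝ := 1 - m ^ 2 / K ^ 2 with hq
    have hq0 : 0 ≤ q := by
      have : m ^ 2 / K ^ 2 ≤ 1 := by
        rw [div_le_one (by positivity)]
        exact pow_le_pow_left₀ hm.le hKm 2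
      linarith
    have hq1 : q < 1 := by
      have : 0 < m ^ 2 / K ^ 2 := by positivity
      linarith
    have hqe : 1 - 2 * τ * m + τ ^ 2 * K ^ 2 = q := by
      rw [hτ, hq]
      field_simp
      ring
    set T : ℂ → ℂ := fun x => x - τ • (F x - p) with hT
    have hTl : ∀ x y, ‖T x - T y‖ ≤ Real.sqrt q * ‖x - y‖ := by
      intro x y
      have e : T x - T y = (x - y) - τ • (F x - F y) := by
        rw [hT]; simp only [smul_sub]; ring
      have h1 := ZAR_sq hK hF hτ0.le x y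
      rw [hqe, ← e] at h1
      have h2 : (Real.sqrt q * ‖x - y‖) ^ 2 = q * ‖x - y‖ ^ 2 := by
        rw [mul_pow, Real.sq_sqrt hq0]
      rw [← h2] at h1
      exact le_of_sq_le_sq h1 (by positivity)
    have hs1 : Real.sqrt q < 1 := by
      rw [Real.sqrt_lt' one_pos]; simpa using hq1
    have hc : ContractingWith (Real.toNNReal (Real.sqrt q)) T := by
      refine ⟨?_, LipschitzWith.of_dist_le_mul fun x y => ?_⟩
      · rw [← NNReal.coe_lt_coe, Real.coe_toNNReal _ (Real.sqrt_nonneg _)]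
        simpa using hs1
      · rw [Real.coe_toNNReal _ (Real.sqrt_nonneg _), dist_eq_norm, dist_eq_norm]
        exact hTl x y
    obtain ⟨x, hx, _⟩ := hc.exists_fixedPoint 0 (edist_ne_top _ _)
    refine ⟨x, ?_⟩
    have h1 : T x = x := hx
    have h2 : τ • (F x - p) = 0 := by
      have : x - τ • (F x - p) = x := h1
      simpa [sub_eq_self] using this
    rcases smul_eq_zero.1 h2 with h | h
    · exact absurd h hτ0.ne'
    · exact sub_eq_zero.1 h

end TorD
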