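import Pool.Agent.H51.TD.EDef
import Pool.Agent.H51.TD.ZAR

/-! # EID: `f` is equivariantly isotopic to `φ`

PROOF. `X s p = (1 - s) • h p + s • p` for `s ∈ [0,1]`. `ip (X s p - X s p') (p - p') = (1-s) ip (h p - h p') (p - p') + s ‖p-p'‖² ≥ s ‖p - p'‖²` (B.hmono, ip_add_left, ip_smul_left, ip_self) and `X s` is
`3`-Lipschitz (B.hlip), so by zar for `s > 0` it is bijective with `s ‖p - p'‖ ≤ ‖X s p - X s p'‖`. Let `Y s` be the inverse for `0 < s ≤ 1` (`Function.surjInv` or `Equiv.ofBijective`) and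
`Φ (s, y) = if s = 0 then φ y else X s (f (Y s y))`. `X s` is equivariant (B.heqv), so `Y s` is. Bijective: `s = 0`: hypothesis `hbij`; `s > 0`: composition of bijections (`f` is a bijection by B.fg, B.gf). At `s = 1`: `X 1 = id`.
CONTINUITY on `Icc 0 1 ×ˢ univ`. Fact 1: for `s, s' ∈ (0,1]`, `x = Y s y`, `x' = Y s' y'`: `s ‖x - x'‖ ≤ ‖X s x - X s x'‖ ≤ ‖y - y'‖ + ‖X s' x' - X s x'‖ ≤ ‖y - y'‖ + |s - s'| / 16` because
`X s p = h p + s • (p - h p)` and `‖h p - p‖ ≤ 1/16` (B.hnear). So at a point `(s, y)` with `s > 0`: `Y s' y' → Y s y` when `(s', y') → (s, y)`, and `X s' (f (Y s' y')) → X s (f (Y s y))`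
(the map `(s, p) ↦ X s p` is continuous). Fact 2, at `(0, y)`: for `(s', y')` with `s' > 0` and `x' = Y s' y'`: `‖h x' - y'‖ = ‖h x' - X s' x'‖ ≤ s'/16`, and `‖X s' (f x') - φ (h x')‖ = ‖X s' (f x') - h (f x')‖ ≤ s'/16`
(B.semi); so `‖Φ (s', y') - φ y‖ ≤ s'/16 + ‖φ (h x') - φ y‖` with `h x' → y`, and `φ` is continuous at `y`; for `s' = 0` the same holds trivially (`‖φ y' - φ y‖`). -/

set_option autoImplicit false

open Topology Filter Set Function

namespace TorD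

theorem eiso_blow {φ f g h : ℂ → ℂ} (B : Blow φ f g h) (hφ : Continuous φ)
    (heqv : ∀ x w, φ (x + lat w) = φ x + lat w) (hbij : Bijective φ) : ∃ Φ, EIso φ f Φ := by
  classical
  obtain ⟨X, hX⟩ : ∃ X : ℝ → ℂ → ℂ, ∀ s p, X s p = (1 - s) • h p + s • p := ⟨_, fun _ _ => rfl⟩
  have hsub : ∀ s p p', X s p - X s p' = (1 - s) • (h p - h p') + s • (p - p') := by
    intro s p p'
    rw [hX, hX, smul_sub, smul_sub]
    ring
  have hXm : ∀ s : ℝ, 0 < s → s ≤ 1 → ∀ p p', s * ‖p - p'‖ ^ 2 ≤ ip (X s p - X s p') (p - p') := by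
    intro s hs hs1 p p'
    rw [hsub, ip_add_left, ip_smul_left, ip_smul_left, ip_self]
    have := mul_nonneg (sub_nonneg.2 hs1) (B.hmono p p')
    linarith
  have hXl : ∀ s : ℝ, 0 < s → s ≤ 1 → ∀ p p', ‖X s p - X s p'‖ ≤ 3 * ‖p - p'‖ := by
    intro s hs hs1 p p'
    rw [hsub]
    refine (norm_add_le _ _).trans ?_
    rw [norm_smul, norm_smul, Real.norm_eq_abs, Real.norm_eq_abs, abs_of_nonneg (sub_nonneg.2 hs1),
      abs_of_pos hs]
    have h1 := B.hlip p p'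
    have h2 : 0 ≤ ‖p - p'‖ := norm_nonneg _
    have h3 : (1 - s) * ‖h p - h p'‖ ≤ (1 - s) * (2 * ‖p - p'‖) :=
      mul_le_mul_of_nonneg_left h1 (sub_nonneg.2 hs1)
    nlinarith [mul_nonneg hs.le h2]
  have hz : ∀ s : ℝ, 0 < s → s ≤ 1 → Bijective (X s) ∧ ∀ x y, s * ‖x - y‖ ≤ ‖X s x - X s y‖ :=
    fun s hs hs1 => zar hs (hXl s hs hs1) (hXm s hs hs1)
  have hXe : ∀ s p w, X s (p + lat w) = X s p + lat w := by
    intro s p w
    rw [hX, hX, B.heqv, smul_add, smul_add]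
    have h1 : (1 - s) • lat w + s • lat w = lat w := by
      rw [← add_smul, sub_add_cancel, one_smul]
    calc (1 - s) • h p + (1 - s) • lat w + (s • p + s • lat w) =
        (1 - s) • h p + s • p + ((1 - s) • lat w + s • lat w) := by ring
      _ = _ := by rw [h1]
  have hYex : ∀ s : ℝ, ∃ Y : ℂ → ℂ, 0 < s → s ≤ 1 → ∀ y, X s (Y y) = y := by
    intro s
    by_cases hs : 0 < s ∧ s ≤ 1
    · exact ⟨surjInv (hz s hs.1 hs.2).1.2, fun _ _ y => surjInv_eq _ y⟩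
    · exact ⟨fun y => y, fun h1 h2 => absurd ⟨h1, h2⟩ hs⟩
  choose Y hY using hYex
  have hYX : ∀ s : ℝ, 0 < s → s ≤ 1 → ∀ p, Y s (X s p) = p := fun s hs hs1 p =>
    (hz s hs hs1).1.1 (hY s hs hs1 (X s p))
  have hhc : Continuous h := by
    refine LipschitzWith.continuous (K := 2) (LipschitzWith.of_dist_le_mul fun x y => ?_)
    rw [dist_eq_norm, dist_eq_norm]
    exact B.hlip x y
  have hXc : Continuous fun q : ℝ × ℂ => X q.1 q.2 := by
    have h1 : (fun q : ℝ × ℂ => X q.1 q.2) = fun q : ℝ × ℂ => (1 - q.1) • h q.2 + q.1 • q.2 := by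
      funext q
      exact hX _ _
    rw [h1]
    fun_prop
  obtain ⟨Φ, hΦ⟩ : ∃ Φ : ℝ × ℂ → ℂ, ∀ q, Φ q =
      if q.1 = 0 then φ q.2 else X q.1 (f (Y q.1 q.2)) := ⟨_, fun _ => rfl⟩
  have hΦ0 : ∀ y, Φ (0, y) = φ y := fun y => by rw [hΦ, if_pos rfl]
  have hΦs : ∀ s y, 0 < s → Φ (s, y) = X s (f (Y s y)) := fun s y hs => by
    rw [hΦ, if_neg hs.ne']
  have hX0 : ∀ s p, X s p - h p = s • (p - h p) := by
    intro s p
    rw [hX, smul_sub, sub_smul, one_smul]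
    ring
  have hXd : ∀ s s' p, X s' p - X s p = (s' - s) • (p - h p) := by
    intro s s' p
    rw [hX, hX, smul_sub, sub_smul, sub_smul, sub_smul, sub_smul]
    ring
  have hnear : ∀ p, ‖p - h p‖ ≤ 1 / 16 := fun p => by
    rw [norm_sub_rev]
    exact B.hnear p
  -- continuity for positive parameters
  have hYc : ∀ s y, 0 < s → s ≤ 1 →
      ContinuousWithinAt (fun q : ℝ × ℂ => Y q.1 q.2) {q | 0 < q.1 ∧ q.1 ≤ 1} (s, y) := by
    intro s y hs hs1
    have h1 : ∀ᶠ q : ℝ × ℂ in 𝓝[{q | 0 < q.1 ∧ q.1 ≤ 1}] (s, y),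
        ‖Y q.1 q.2 - Y s y‖ ≤ (‖q.2 - y‖ + |q.1 - s| * (1 / 16)) / s := by
      filter_upwards [self_mem_nhdsWithin] with q hq
      obtain ⟨s', y'⟩ := q
      obtain ⟨hs', hs1'⟩ : 0 < s' ∧ s' ≤ 1 := hq
      show ‖Y s' y' - Y s y‖ ≤ (‖y' - y‖ + |s' - s| * (1 / 16)) / s
      rw [le_div_iff₀ hs, mul_comm]
      refine ((hz s hs hs1).2 _ _).trans ?_
      have h2 : X s (Y s' y') - X s (Y s y) = (y' - y) - (X s' (Y s' y') - X s (Y s' y')) := by
        rw [hY s hs hs1, hY s' hs' hs1']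
        ring
      rw [h2]
      refine (norm_sub_le _ _).trans ?_
      have h3 : ‖X s' (Y s' y') - X s (Y s' y')‖ ≤ |s' - s| * (1 / 16) := by
        rw [hXd, norm_smul, Real.norm_eq_abs]
        exact mul_le_mul_of_nonneg_left (hnear _) (abs_nonneg _)
      linarith
    have h4 : Tendsto (fun q : ℝ × ℂ => (‖q.2 - y‖ + |q.1 - s| * (1 / 16)) / s)
        (𝓝[{q | 0 < q.1 ∧ q.1 ≤ 1}] (s, y)) (𝓝 0) := by
      have h5 : Continuous (fun q : ℝ × ℂ => (‖q.2 - y‖ + |q.1 - s| * (1 / 16)) / s) := by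
        fun_prop
      have h6 := h5.tendsto (s, y)
      simp only [sub_self, norm_zero, abs_zero, zero_mul, add_zero, zero_div] at h6
      exact h6.mono_left nhdsWithin_le_nhds
    rw [ContinuousWithinAt, tendsto_iff_norm_sub_tendsto_zero]
    exact squeeze_zero' (Eventually.of_forall fun q => norm_nonneg _) h1 h4
  have hpos : ∀ s y, 0 < s → s ≤ 1 → ContinuousWithinAt Φ (Icc (0 : ℝ) 1 ×ˢ univ) (s, y) := by
    intro s y hs hs1
    have h1 : ContinuousWithinAt (fun q : ℝ × ℂ => X q.1 (f (Y q.1 q.2)))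
        {q | 0 < q.1 ∧ q.1 ≤ 1} (s, y) := by
      have h2 : ContinuousWithinAt (fun q : ℝ × ℂ => (q.1, f (Y q.1 q.2)))
          {q | 0 < q.1 ∧ q.1 ≤ 1} (s, y) :=
        continuous_fst.continuousWithinAt.prodMk
          (B.fc.continuousAt.comp_continuousWithinAt (hYc s y hs hs1))
      exact hXc.continuousAt.comp_continuousWithinAt h2
    have h3 : ContinuousWithinAt Φ {q : ℝ × ℂ | 0 < q.1 ∧ q.1 ≤ 1} (s, y) := by
      refine h1.congr (fun q hq => ?_) (hΦs s y hs)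
      exact hΦs q.1 q.2 hq.1
    refine h3.mono_of_mem_nhdsWithin ?_
    have h4 : {q : ℝ × ℂ | 0 < q.1} ∈ 𝓝 (s, y) :=
      (isOpen_lt continuous_const continuous_fst).mem_nhds hs
    filter_upwards [self_mem_nhdsWithin, mem_nhdsWithin_of_mem_nhds h4] with q hq hq'
    exact ⟨hq', hq.1.2⟩
  -- continuity at parameter zero
  have hzero : ∀ y, ContinuousWithinAt Φ (Icc (0 : ℝ) 1 ×ˢ univ) (0, y) := by
    intro y
    obtain ⟨G, hG⟩ : ∃ G : ℝ × ℂ → ℂ, ∀ q, G q =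
        if q.1 = 0 then q.2 else h (Y q.1 q.2) := ⟨_, fun _ => rfl⟩
    have h1 : ∀ q ∈ (Icc (0 : ℝ) 1 ×ˢ univ : Set (ℝ × ℂ)), ‖G q - q.2‖ ≤ q.1 * (1 / 16) ∧
        ‖Φ q - φ (G q)‖ ≤ q.1 * (1 / 16) := by
      rintro ⟨s, z⟩ ⟨⟨hs0, hs1⟩, -⟩
      have hs0 : 0 ≤ s := hs0
      have hs1 : s ≤ 1 := hs1
      rcases hs0.eq_or_lt with h2 | h2
      · rw [← h2, hG, hΦ0, if_pos rfl]
        simp
      · have h3 : G (s, z) = h (Y s z) := by rw [hG, if_neg h2.ne']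
        rw [h3, hΦs s z h2, ← B.semi]
        refine ⟨?_, ?_⟩
        · have h4 : h (Y s z) - z = -(s • (Y s z - h (Y s z))) := by
            rw [← hX0, hY s h2 hs1]
            ring
          show ‖h (Y s z) - z‖ ≤ s * (1 / 16)
          rw [h4, norm_neg, norm_smul, Real.norm_eq_abs, abs_of_pos h2]
          exact mul_le_mul_of_nonneg_left (hnear _) h2.le
        · show _ ≤ s * (1 / 16)
          rw [hX0, norm_smul, Real.norm_eq_abs, abs_of_pos h2]
          exact mul_le_mul_of_nonneg_left (hnear _) h2.le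
    have h5 : Tendsto (fun q : ℝ × ℂ => q.1 * (1 / 16)) (𝓝[Icc (0 : ℝ) 1 ×ˢ univ] (0, y))
        (𝓝 0) := by
      have h6 : Continuous (fun q : ℝ × ℂ => q.1 * (1 / 16)) := by fun_prop
      have h7 := h6.tendsto ((0 : ℝ), y)
      simp only [zero_mul] at h7
      exact h7.mono_left nhdsWithin_le_nhds
    have h8 : Tendsto (fun q : ℝ × ℂ => G q - q.2) (𝓝[Icc (0 : ℝ) 1 ×ˢ univ] (0, y)) (𝓝 0) := by
      refine squeeze_zero_norm' ?_ h5
      filter_upwards [self_mem_nhdsWithin] with q hq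
      exact (h1 q hq).1
    have h9 : Tendsto G (𝓝[Icc (0 : ℝ) 1 ×ˢ univ] (0, y)) (𝓝 y) := by
      have h10 : Tendsto (fun q : ℝ × ℂ => q.2) (𝓝[Icc (0 : ℝ) 1 ×ˢ univ] (0, y)) (𝓝 y) :=
        (continuous_snd.tendsto ((0 : ℝ), y)).mono_left nhdsWithin_le_nhds
      have h11 := h8.add h10
      simp only [sub_add_cancel, zero_add] at h11
      exact h11
    have h12 : Tendsto (fun q => φ (G q)) (𝓝[Icc (0 : ℝ) 1 ×ˢ univ] (0, y)) (𝓝 (φ y)) :=
      (hφ.tendsto y).comp h9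
    have h13 : Tendsto (fun q => Φ q - φ (G q)) (𝓝[Icc (0 : ℝ) 1 ×ˢ univ] (0, y)) (𝓝 0) := by
      refine squeeze_zero_norm' ?_ h5
      filter_upwards [self_mem_nhdsWithin] with q hq
      exact (h1 q hq).2
    have h14 := h13.add h12
    simp only [sub_add_cancel, zero_add] at h14
    rw [ContinuousWithinAt, hΦ0]
    exact h14
  refine ⟨Φ, ?_, ?_, ?_, hΦ0, ?_⟩
  · rintro ⟨s, y⟩ ⟨⟨hs0, hs1⟩, -⟩
    have hs0 : 0 ≤ s := hs0
    rcases hs0.eq_or_lt with h2 | h2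
    · rw [← h2]
      exact hzero y
    · exact hpos s y h2 hs1
  · rintro s ⟨hs0, hs1⟩ x w
    rcases hs0.eq_or_lt with h2 | h2
    · rw [← h2, hΦ0, hΦ0, heqv]
    · have h3 : Y s (x + lat w) = Y s x + lat w := by
        apply (hz s h2 hs1).1.1
        rw [hY s h2 hs1, hXe, hY s h2 hs1]
      rw [hΦs _ _ h2, hΦs _ _ h2, h3, B.feqv, hXe]
  · rintro s ⟨hs0, hs1⟩
    rcases hs0.eq_or_lt with h2 | h2
    · have h3 : (fun x => Φ (s, x)) = φ := by
        funext x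
        rw [← h2, hΦ0]
      rw [h3]
      exact hbij
    · constructor
      · intro y y' hyy
        have hyy : Φ (s, y) = Φ (s, y') := hyy
        rw [hΦs _ _ h2, hΦs _ _ h2] at hyy
        have h3 := (hz s h2 hs1).1.1 hyy
        have h4 : Y s y = Y s y' := by
          rw [← B.gf (Y s y), h3, B.gf]
        rw [← hY s h2 hs1 y, h4, hY s h2 hs1]
      · intro z
        obtain ⟨p, hp⟩ := (hz s h2 hs1).1.2 z
        refine ⟨X s (g p), ?_⟩
        show Φ (s, X s (g p)) = z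
        rw [hΦs _ _ h2, hYX s h2 hs1, B.fg, hp]
  · intro x
    have hX1 : ∀ p, X 1 p = p := fun p => by
      rw [hX, sub_self, zero_smul, zero_add, one_smul]
    have h1 : Y 1 x = x := by
      rw [← hX1 (Y 1 x), hY 1 one_pos le_rfl]
    rw [hΦs _ _ one_pos, hX1, h1]

end TorD
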