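import Pool.Agent.H51.TD.ECP

/-! # EIN: the interior of a rational fibre is inessential

PROOF. `U = pr '' interior {p' | h p' = h p}`, open (pr_open), contains `pr p`. FACT: if `pr c ∈ orb F U` then `h c ∈ Rat2`: `pr c = (F ^ n) (pr q)`, `n : ℤ`, `q ∈ {p' | h p' = h p}`; for `n = m ≥ 0` (`D.fwd`) `pr c = pr (f^[m] q)`, so
`c = f^[m] q + lat w` and `h c = h (f^[m] q) + lat w = φ^[m] (h q) + lat w ∈ Rat2` (hypothesis `hrat` iterated, rat2_lat, B.heqv); for `n = -m` (`D.bwd`): `c = g^[m] q + lat w` and `φ^[m] (h (g^[m] q)) = h (f^[m] (g^[m] q)) = h q`,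
so `h (g^[m] q) ∈ Rat2` by `hrat` iterated backwards (`φ x ∈ Rat2 ↔ x ∈ Rat2`). Now let `γ` be a loop in `orb F U`; pr_lift gives `c` continuous with `pr (c t) = γ t`; `h ∘ c` is continuous (B.hlip) on the connected space
`unitInterval` with values in the countable set `Rat2` (rat2_countable), so it is constant (`Set.Countable` + `IsPreconnected` in a metric space: `IsPreconnected.subsingleton`..., e.g. `IsPreconnected.image`,
then `Set.Countable.isTotallyDisconnected` or: the real part has a countable connected image in `ℝ`, so a point, the same for the imaginary part; connected subsets of `ℝ` with two points contain an interval `Icc a b`, which is uncountable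
`Cardinal.not_countable_real` / `Set.Icc` uncountable via `Cardinal.mk_Icc_real`). `pr (c 1) = pr (c 0)` so `c 1 = c 0 + lat w` and `h (c 1) = h (c 0) + lat w`, so `lat w = 0`, `c 1 = c 0`, and pr_null. -/

set_option autoImplicit false

open Topology Filter Set Function

namespace TorD

theorem EIN_iter {φ f g h : ℂ → ℂ} (B : Blow φ f g h) (m : ℕ) (x : ℂ) :
    h (f^[m] x) = φ^[m] (h x) := by
  induction m with
  | zero => rfl
  | succ m ih => rw [Function.iterate_succ_apply', Function.iterate_succ_apply', B.semi, ih]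

theorem EIN_rat {φ : ℂ → ℂ} (hrat : ∀ x, φ x ∈ Rat2 ↔ x ∈ Rat2) (m : ℕ) (x : ℂ) :
    φ^[m] x ∈ Rat2 ↔ x ∈ Rat2 := by
  induction m with
  | zero => exact Iff.rfl
  | succ m ih => rw [Function.iterate_succ_apply', hrat, ih]

theorem EIN_cont {φ f g h : ℂ → ℂ} (B : Blow φ f g h) : Continuous h := by
  have h1 : LipschitzWith 2 h := by
    refine LipschitzWith.of_dist_le_mul ?_
    intro x y
    rw [dist_eq_norm, dist_eq_norm]
    exact_mod_cast B.hlip x y
  exact h1.continuous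

theorem EIN_fact {φ f g h : ℂ → ℂ} (B : Blow φ f g h) (hrat : ∀ x, φ x ∈ Rat2 ↔ x ∈ Rat2)
    {F : T2 ≃ₜ T2} (D : Desc f g F) {p : ℂ} (hp : h p ∈ Rat2) (c : ℂ)
    (hc : pr c ∈ orb F (pr '' interior {p' | h p' = h p})) : h c ∈ Rat2 := by
  unfold orb at hc
  obtain ⟨n, hn⟩ := Set.mem_iUnion.1 hc
  obtain ⟨_, ⟨q, hq, rfl⟩, hqc⟩ := hn
  have hq0 : q ∈ {p' | h p' = h p} := interior_subset hq
  have hq' : h q = h p := hq0
  obtain ⟨m, hm | hm⟩ := n.eq_nat_or_neg
  · rw [hm, D.fwd m q] at hqc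
    obtain ⟨w, hw⟩ := (pr_iff _ _).1 hqc.symm
    rw [hw, B.heqv, rat2_lat, EIN_iter B, EIN_rat hrat, hq']
    exact hp
  · rw [hm, D.bwd m q] at hqc
    obtain ⟨w, hw⟩ := (pr_iff _ _).1 hqc.symm
    rw [hw, B.heqv, rat2_lat, ← EIN_rat hrat m, ← EIN_iter B]
    have h1 : f^[m] (g^[m] q) = q := (Function.LeftInverse.iterate (f := g) (g := f) B.fg m) q
    rw [h1, hq']
    exact hp

theorem ine_fibre {φ f g h : ℂ → ℂ} (B : Blow φ f g h) (hrat : ∀ x, φ x ∈ Rat2 ↔ x ∈ Rat2)
    {F : T2 ≃ₜ T2} (D : Desc f g F) {p : ℂ} (hp : h p ∈ Rat2)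
    (hi : p ∈ interior {p' | h p' = h p}) : pr p ∈ Ine F := by
  refine ⟨pr '' interior {p' | h p' = h p}, pr_open _ isOpen_interior, ⟨p, hi, rfl⟩, ?_⟩
  intro x γ hγ
  obtain ⟨c, hc, hcγ⟩ := pr_lift γ
  refine pr_null γ c hc hcγ ?_
  have hcont : Continuous (fun t => h (c t)) := (EIN_cont B).comp hc
  have hsub : range (fun t => h (c t)) ⊆ Rat2 := by
    rintro _ ⟨t, rfl⟩
    apply EIN_fact B hrat D hp
    rw [hcγ]
    exact hγ t
  have hpre : IsPreconnected (range (fun t => h (c t))) := isPreconnected_range hcont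
  have hss := rat2_countable.isTotallyDisconnected _ hsub hpre
  have h1 : h (c 1) = h (c 0) := hss ⟨1, rfl⟩ ⟨0, rfl⟩
  have h2 : pr (c 1) = pr (c 0) := by
    rw [hcγ, hcγ, γ.source, γ.target]
  obtain ⟨w, hw⟩ := (pr_iff _ _).1 h2
  rw [hw, B.heqv] at h1
  have h3 : lat w = 0 := add_eq_left.1 h1
  rw [hw, h3, add_zero]

end TorD
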