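import Pool.Agent.H51.TD.ECV

/-! # ENW: nonwandering -/

set_option autoImplicit false

open Topology Filter Set Function

namespace TorD

theorem nonw_desc {φ f g h : ℂ → ℂ} (B : Blow φ f g h) {F : T2 ≃ₜ T2} (D : Desc f g F) :
    Nonwandering F := by
  intro U hU hne
  obtain ⟨x, hx⟩ := hne
  obtain ⟨z, rfl⟩ := pr_surj x
  obtain ⟨n, hn, w, p, hp, hq⟩ := B.nonw (pr ⁻¹' U) (hU.preimage pr_cont) ⟨z, hx⟩
  refine ⟨n, hn, pr (f^[n] p), ⟨pr p, hp, D.itr n p⟩, ?_⟩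
  have : pr (f^[n] p + lat w) = pr (f^[n] p) := (pr_iff _ _).2 ⟨w, rfl⟩
  rw [← this]
  exact hq

end TorD
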