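import Pool.Agent.H51.TD.BAS

/-! # ROT: orbits with prescribed rotation vector in [1,3]²

PROOF. Let `X k = ⌊k v.re⌋`, `Y k = ⌊k v.im⌋` (integers), `a k = X (k+1) - X k`, `b k = Y (k+1) - Y k`, all in `{0,..,4}`; in fact in `[1,3]`: `⌊(k+1)α⌋ - ⌊kα⌋ ∈ {1,2,3}` for
`α ∈ [1,3]` (`⌊x + α⌋ - ⌊x⌋ ∈ {⌊α⌋, ⌊α⌋+1}` and if `α = 3` it is 3). We look for `ξ, η : ℕ → [0,1/2]` with `η k = (a k + ξ (k+1) - ξ k)/8`, `ξ (k+1) = (b k + η (k+1) - η k)/8`, `ξ 0 = 0`. The map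
`(ξ,η) ↦` (right hand sides) on pairs of sequences in `[0,1/2]` maps into itself (`(1 - 1/2)/8 ≥ 0`, `(3 + 1/2)/8 < 1/2`) and is a contraction with factor `1/4` in the sup norm
(e.g. Banach on the closed subset of bounded continuous functions `ℕ → ℝ × ℝ`, or: iterate from 0, the k-th iterates converge pointwise geometrically, pass to the limit in the
equations). Then `z k = (X k + ξ k, Y k + η k)` satisfies `ph (z k) = z (k+1)`: `aa (Y k + η k) = 8 η k` (aa_even), so `Hh (z k) = (X k + ξ k + 8 η k, ..) = (X (k+1) + ξ (k+1), ..)`;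
`aa (X (k+1) + ξ (k+1)) = 8 ξ (k+1)`, second coordinate `Y k + η k + 8 ξ (k+1) = Y (k+1) + η (k+1)`. `‖z k - k v‖ ≤ 3`. -/

set_option autoImplicit false

open Topology Filter Set Function

namespace TorD

/-- one step of the iteration -/
noncomputable def ROT_T (a b : ℕ → ℝ) (p : (ℕ → ℝ) × (ℕ → ℝ)) : (ℕ → ℝ) × (ℕ → ℝ) :=
  (fun k => if k = 0 then 0 else (b (k - 1) + p.2 k - p.2 (k - 1)) / 8,
    fun k => (a k + p.1 (k + 1) - p.1 k) / 8)

/-- the iterates -/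
noncomputable def ROT_u (a b : ℕ → ℝ) (n : ℕ) : (ℕ → ℝ) × (ℕ → ℝ) :=
  (ROT_T a b)^[n] (fun _ => 0, fun _ => 0)

theorem ROT_u_succ (a b : ℕ → ℝ) (n : ℕ) : ROT_u a b (n + 1) = ROT_T a b (ROT_u a b n) := by
  unfold ROT_u
  rw [Function.iterate_succ_apply']

theorem ROT_u_zero (a b : ℕ → ℝ) (n : ℕ) : (ROT_u a b n).1 0 = 0 := by
  cases n with
  | zero => rfl
  | succ n =>
    rw [ROT_u_succ]
    rfl

theorem ROT_u_fst (a b : ℕ → ℝ) (n k : ℕ) : (ROT_u a b (n + 1)).1 (k + 1) =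
    (b k + (ROT_u a b n).2 (k + 1) - (ROT_u a b n).2 k) / 8 := by
  rw [ROT_u_succ]
  rfl

theorem ROT_u_snd (a b : ℕ → ℝ) (n k : ℕ) : (ROT_u a b (n + 1)).2 k =
    (a k + (ROT_u a b n).1 (k + 1) - (ROT_u a b n).1 k) / 8 := by
  rw [ROT_u_succ]
  rfl

theorem ROT_bd {a b : ℕ → ℝ} (ha : ∀ k, 1 ≤ a k ∧ a k ≤ 3) (hb : ∀ k, 1 ≤ b k ∧ b k ≤ 3) (n : ℕ) :
    ∀ k, (0 ≤ (ROT_u a b n).1 k ∧ (ROT_u a b n).1 k ≤ 1 / 2) ∧
      (0 ≤ (ROT_u a b n).2 k ∧ (ROT_u a b n).2 k ≤ 1 / 2) := by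
  induction n with
  | zero =>
    intro k
    have h1 : (ROT_u a b 0).1 k = 0 := rfl
    have h2 : (ROT_u a b 0).2 k = 0 := rfl
    rw [h1, h2]
    norm_num
  | succ n ih =>
    intro k
    constructor
    · cases k with
      | zero =>
        rw [ROT_u_zero]
        norm_num
      | succ k =>
        rw [ROT_u_fst]
        have h1 := ih k
        have h2 := ih (k + 1)
        have h3 := hb k
        constructor <;> linarith [h1.2.1, h1.2.2, h2.2.1, h2.2.2, h3.1, h3.2]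
    · rw [ROT_u_snd]
      have h1 := ih k
      have h2 := ih (k + 1)
      have h3 := ha k
      constructor <;> linarith [h1.1.1, h1.1.2, h2.1.1, h2.1.2, h3.1, h3.2]

theorem ROT_diff {a b : ℕ → ℝ} (ha : ∀ k, 1 ≤ a k ∧ a k ≤ 3) (hb : ∀ k, 1 ≤ b k ∧ b k ≤ 3) (n : ℕ) :
    ∀ k, |(ROT_u a b n).1 k - (ROT_u a b (n + 1)).1 k| ≤ 1 / 2 * (1 / 4) ^ n ∧
      |(ROT_u a b n).2 k - (ROT_u a b (n + 1)).2 k| ≤ 1 / 2 * (1 / 4) ^ n := by
  induction n with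
  | zero =>
    intro k
    have h1 := ROT_bd ha hb 0 k
    have h2 := ROT_bd ha hb (0 + 1) k
    rw [pow_zero, mul_one, abs_le, abs_le]
    exact ⟨⟨by linarith [h1.1.1, h2.1.2], by linarith [h1.1.2, h2.1.1]⟩,
      ⟨by linarith [h1.2.1, h2.2.2], by linarith [h1.2.2, h2.2.1]⟩⟩
  | succ n ih =>
    intro k
    constructor
    · cases k with
      | zero =>
        rw [ROT_u_zero, ROT_u_zero, sub_self, abs_zero]
        positivity
      | succ k =>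
        rw [ROT_u_fst, ROT_u_fst]
        have h1 := (ih k).2
        have h2 := (ih (k + 1)).2
        rw [abs_le] at h1 h2 ⊢
        rw [pow_succ]
        constructor <;> linarith [h1.1, h1.2, h2.1, h2.2]
    · rw [ROT_u_snd, ROT_u_snd]
      have h1 := (ih k).1
      have h2 := (ih (k + 1)).1
      rw [abs_le] at h1 h2 ⊢
      rw [pow_succ]
      constructor <;> linarith [h1.1, h1.2, h2.1, h2.2]

theorem ROT_sol {a b : ℕ → ℝ} (ha : ∀ k, 1 ≤ a k ∧ a k ≤ 3) (hb : ∀ k, 1 ≤ b k ∧ b k ≤ 3) :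
    ∃ ξ η : ℕ → ℝ, (∀ k, 0 ≤ ξ k ∧ ξ k ≤ 1 / 2) ∧ (∀ k, 0 ≤ η k ∧ η k ≤ 1 / 2) ∧
      (∀ k, 8 * η k = a k + ξ (k + 1) - ξ k) ∧ ∀ k, 8 * ξ (k + 1) = b k + η (k + 1) - η k := by
  have h1 : ∀ k, CauchySeq fun n => (ROT_u a b n).1 k := fun k =>
    cauchySeq_of_le_geometric (1 / 4) (1 / 2) (by norm_num) fun n => by
      rw [Real.dist_eq]
      exact (ROT_diff ha hb n k).1
  have h2 : ∀ k, CauchySeq fun n => (ROT_u a b n).2 k := fun k =>
    cauchySeq_of_le_geometric (1 / 4) (1 / 2) (by norm_num) fun n => by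
      rw [Real.dist_eq]
      exact (ROT_diff ha hb n k).2
  choose ξ hξ using fun k => cauchySeq_tendsto_of_complete (h1 k)
  choose η hη using fun k => cauchySeq_tendsto_of_complete (h2 k)
  refine ⟨ξ, η, fun k => ⟨?_, ?_⟩, fun k => ⟨?_, ?_⟩, fun k => ?_, fun k => ?_⟩
  · exact ge_of_tendsto' (hξ k) fun n => (ROT_bd ha hb n k).1.1
  · exact le_of_tendsto' (hξ k) fun n => (ROT_bd ha hb n k).1.2
  · exact ge_of_tendsto' (hη k) fun n => (ROT_bd ha hb n k).2.1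
  · exact le_of_tendsto' (hη k) fun n => (ROT_bd ha hb n k).2.2
  · have h3 : Tendsto (fun n => 8 * (ROT_u a b (n + 1)).2 k) atTop (𝓝 (8 * η k)) :=
      ((hη k).comp (tendsto_add_atTop_nat 1)).const_mul 8
    have h4 : Tendsto (fun n => a k + (ROT_u a b n).1 (k + 1) - (ROT_u a b n).1 k) atTop
        (𝓝 (a k + ξ (k + 1) - ξ k)) := ((hξ (k + 1)).const_add (a k)).sub (hξ k)
    refine tendsto_nhds_unique h3 (h4.congr fun n => ?_)
    rw [ROT_u_snd]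
    ring
  · have h3 : Tendsto (fun n => 8 * (ROT_u a b (n + 1)).1 (k + 1)) atTop (𝓝 (8 * ξ (k + 1))) :=
      ((hξ (k + 1)).comp (tendsto_add_atTop_nat 1)).const_mul 8
    have h4 : Tendsto (fun n => b k + (ROT_u a b n).2 (k + 1) - (ROT_u a b n).2 k) atTop
        (𝓝 (b k + η (k + 1) - η k)) := ((hη (k + 1)).const_add (b k)).sub (hη k)
    refine tendsto_nhds_unique h3 (h4.congr fun n => ?_)
    rw [ROT_u_fst]
    ring

/-- the increments of `⌊k α⌋` -/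
theorem ROT_floor {α : ℝ} (h : α ∈ Icc (1 : ℝ) 3) (k : ℕ) :
    1 ≤ ((⌊((k + 1 : ℕ) : ℝ) * α⌋ : ℝ) - (⌊(k : ℝ) * α⌋ : ℝ)) ∧
      ((⌊((k + 1 : ℕ) : ℝ) * α⌋ : ℝ) - (⌊(k : ℝ) * α⌋ : ℝ)) ≤ 3 := by
  have e : ((k + 1 : ℕ) : ℝ) * α = (k : ℝ) * α + α := by
    push_cast
    ring
  rw [e]
  constructor
  · have h1 : ⌊(k : ℝ) * α⌋ + 1 ≤ ⌊(k : ℝ) * α + α⌋ := by
      rw [Int.le_floor]
      push_cast
      have := Int.floor_le ((k : ℝ) * α)
      linarith [h.1]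
    have h2 : ((⌊(k : ℝ) * α⌋ + 1 : ℤ) : ℝ) ≤ (⌊(k : ℝ) * α + α⌋ : ℝ) := by exact_mod_cast h1
    push_cast at h2
    linarith
  · have h1 : ⌊(k : ℝ) * α + α⌋ < ⌊(k : ℝ) * α⌋ + 4 := by
      rw [Int.floor_lt]
      push_cast
      have := Int.lt_floor_add_one ((k : ℝ) * α)
      linarith [h.2]
    have h2 : ⌊(k : ℝ) * α + α⌋ ≤ ⌊(k : ℝ) * α⌋ + 3 := by omega
    have h3 : (⌊(k : ℝ) * α + α⌋ : ℝ) ≤ ((⌊(k : ℝ) * α⌋ + 3 : ℤ) : ℝ) := by exact_mod_cast h2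
    push_cast at h3
    linarith

theorem rot_orbit {v : ℂ} (h1 : v.re ∈ Icc (1 : ℝ) 3) (h2 : v.im ∈ Icc (1 : ℝ) 3) :
    ∃ z : ℂ, ∀ n : ℕ, ‖ph^[n] z - (n : ℝ) • v‖ ≤ 10 := by
  set X : ℕ → ℤ := fun k => ⌊(k : ℝ) * v.re⌋ with hX
  set Y : ℕ → ℤ := fun k => ⌊(k : ℝ) * v.im⌋ with hY
  obtain ⟨ξ, η, hξ, hη, e1, e2⟩ := ROT_sol (a := fun k => (X (k + 1) : ℝ) - (X k : ℝ))
    (b := fun k => (Y (k + 1) : ℝ) - (Y k : ℝ)) (ROT_floor h1) (ROT_floor h2)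
  set z : ℕ → ℂ := fun k => ⟨X k + ξ k, Y k + η k⟩ with hz
  have hstep : ∀ k, ph (z k) = z (k + 1) := by
    intro k
    have a1 : aa ((Y k : ℝ) + η k) = 8 * η k := by
      rw [aa_even (Y k) ⟨by linarith [(hη k).1], by linarith [(hη k).2]⟩]
      ring
    have a2 : aa ((X (k + 1) : ℝ) + ξ (k + 1)) = 8 * ξ (k + 1) := by
      rw [aa_even (X (k + 1)) ⟨by linarith [(hξ (k + 1)).1], by linarith [(hξ (k + 1)).2]⟩]
      ring
    have b1 : Hh (z k) = ⟨X (k + 1) + ξ (k + 1), Y k + η k⟩ := by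
      unfold Hh
      rw [hz]
      simp only
      rw [a1, e1 k]
      apply Complex.ext
      · simp only
        ring
      · rfl
    unfold ph
    rw [b1]
    unfold Vv
    simp only
    rw [a2, e2 k, hz]
    apply Complex.ext
    · rfl
    · simp only
      ring
  have hit : ∀ n, ph^[n] (z 0) = z n := by
    intro n
    induction n with
    | zero => rfl
    | succ n ih => rw [Function.iterate_succ_apply', ih, hstep]
  refine ⟨z 0, fun n => ?_⟩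
  rw [hit]
  refine (Complex.norm_le_abs_re_add_abs_im _).trans ?_
  have c1 : (z n - (n : ℝ) • v).re = (X n : ℝ) + ξ n - n * v.re := by
    simp [hz]
  have c2 : (z n - (n : ℝ) • v).im = (Y n : ℝ) + η n - n * v.im := by
    simp [hz]
  have f1 := Int.floor_le ((n : ℝ) * v.re)
  have f2 := Int.lt_floor_add_one ((n : ℝ) * v.re)
  have f3 := Int.floor_le ((n : ℝ) * v.im)
  have f4 := Int.lt_floor_add_one ((n : ℝ) * v.im)
  have d1 : |(z n - (n : ℝ) • v).re| ≤ 2 := by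
    rw [c1, abs_le]
    constructor <;> linarith [(hξ n).1, (hξ n).2]
  have d2 : |(z n - (n : ℝ) • v).im| ≤ 2 := by
    rw [c2, abs_le]
    constructor <;> linarith [(hη n).1, (hη n).2]
  linarith

end TorD
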