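import Pool.Agent.H51.TD.ERL
import Pool.Agent.H51.TD.EHM
import Pool.Agent.H51.TD.ROT

/-! # ERT: the rotation set

PROOF. lift_eq gives `w` with `G x = (f z + lat w)` in coordinates, `z = ⟨x.1, x.2⟩`. By induction with iter_lat, `G^[n] x = f^[n] z + n • lat w` in coordinates (`lat (n • w) = n • lat w`; simplest: for all `n` there is the formula
`G^[n] x = ((f^[n] z).re + n * w.1, (f^[n] z).im + n * w.2)`, using `iter_lat` for the vector `(n * w.1, n * w.2)`). CLAIM: every `v` with `(v.1 - w.1, v.2 - w.2) ∈ Ioo 1 3 ×ˢ Ioo 1 3` is in `rotSet G`; this set is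
open and nonempty, so `interior (rotSet G)` is nonempty (`interior_maximal`). Proof of the claim: rot_orbit for `u = ⟨v.1 - w.1, v.2 - w.2⟩` gives `y` with `‖ph^[n] y - n • u‖ ≤ 10`; B.hsurj: `h p = y`; `h (f^[n] p) = ph^[n] y`
(B.semi, induction, `Function.Semiconj.iterate_right`), so `‖f^[n] p - p - n • u‖ ≤ 10 + 1/16 + ‖p‖` (B.hnear). Take `z k = (p.re, p.im)`, `n k = k`: `(k)⁻¹ • (G^[k] (z k) - z k) → v` because the difference to `v` is
`O(1/k)` in both coordinates (`Complex.abs_re_le_norm`; `Prod` convergence coordinatewise, `Filter.Tendsto.prodMk_nhds`, squeeze). -/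

set_option autoImplicit false

open Topology Filter Set Function

namespace TorD

theorem ERT_iter {f : ℂ → ℂ} (feqv : ∀ x w, f (x + lat w) = f x + lat w) {G : ℝ × ℝ → ℝ × ℝ}
    {w : ℤ × ℤ}
    (hG : ∀ x : ℝ × ℝ, G x = ((f ⟨x.1, x.2⟩ + lat w).re, (f ⟨x.1, x.2⟩ + lat w).im)) (p : ℂ) (n : ℕ) :
    G^[n] (p.re, p.im) = ((f^[n] p).re + n * w.1, (f^[n] p).im + n * w.2) := by
  induction n with
  | zero => simp
  | succ n ih =>
    rw [Function.iterate_succ_apply', ih, hG]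
    have e : (⟨(f^[n] p).re + n * w.1, (f^[n] p).im + n * w.2⟩ : ℂ) =
        f^[n] p + lat ((n : ℤ) * w.1, (n : ℤ) * w.2) := by
      apply Complex.ext
      · show (f^[n] p).re + n * w.1 = (f^[n] p).re + (((n : ℤ) * w.1 : ℤ) : ℝ)
        push_cast
        rfl
      · show (f^[n] p).im + n * w.2 = (f^[n] p).im + (((n : ℤ) * w.2 : ℤ) : ℝ)
        push_cast
        rfl
    show ((f ⟨(f^[n] p).re + n * w.1, (f^[n] p).im + n * w.2⟩ + lat w).re,
      (f ⟨(f^[n] p).re + n * w.1, (f^[n] p).im + n * w.2⟩ + lat w).im) = _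
    rw [e, feqv, Function.iterate_succ_apply']
    refine Prod.ext ?_ ?_
    · show (f (f^[n] p)).re + (((n : ℤ) * w.1 : ℤ) : ℝ) + (w.1 : ℝ) = (f (f^[n] p)).re + ((n + 1 : ℕ) : ℝ) * w.1
      push_cast
      ring
    · show (f (f^[n] p)).im + (((n : ℤ) * w.2 : ℤ) : ℝ) + (w.2 : ℝ) = (f (f^[n] p)).im + ((n + 1 : ℕ) : ℝ) * w.2
      push_cast
      ring

theorem ERT_lim {a : ℕ → ℝ} {L C : ℝ} (h : ∀ k : ℕ, 1 ≤ k → |a k - L| ≤ C / k) :
    Tendsto a atTop (𝓝 L) := by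
  have h1 : Tendsto (fun k => a k - L) atTop (𝓝 0) := by
    refine squeeze_zero_norm' ?_ (tendsto_const_div_atTop_nhds_zero_nat C)
    filter_upwards [eventually_ge_atTop 1] with k hk
    rw [Real.norm_eq_abs]
    exact h k hk
  have h2 := h1.add_const L
  simpa using h2

theorem rot_desc {f g h : ℂ → ℂ} (B : Blow ph f g h) {F : T2 ≃ₜ T2} (D : Desc f g F)
    {G : ℝ × ℝ → ℝ × ℝ} (hG : IsLift G F) : (interior (rotSet G)).Nonempty := by
  obtain ⟨w, hw⟩ := lift_eq B.fc D.one hG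
  have hsub : Ioo (1 + (w.1 : ℝ)) (3 + w.1) ×ˢ Ioo (1 + (w.2 : ℝ)) (3 + w.2) ⊆ rotSet G := by
    rintro ⟨v1, v2⟩ ⟨hv1, hv2⟩
    obtain ⟨y, hy⟩ := rot_orbit (v := ⟨v1 - w.1, v2 - w.2⟩)
      ⟨by have := hv1.1; show (1 : ℝ) ≤ v1 - w.1; linarith,
        by have := hv1.2; show v1 - w.1 ≤ (3 : ℝ); linarith⟩
      ⟨by have := hv2.1; show (1 : ℝ) ≤ v2 - w.2; linarith,
        by have := hv2.2; show v2 - w.2 ≤ (3 : ℝ); linarith⟩
    obtain ⟨p, hp⟩ := B.hsurj y
    have hsemi : ∀ n : ℕ, h (f^[n] p) = ph^[n] y := by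
      intro n
      rw [← hp]
      exact (Function.Semiconj.iterate_right (f := h) (ga := f) (gb := ph) (fun x => B.semi x) n) p
    have hbd : ∀ n : ℕ, ‖f^[n] p - p - (n : ℝ) • (⟨v1 - w.1, v2 - w.2⟩ : ℂ)‖ ≤ 1 / 16 + 10 + ‖p‖ := by
      intro n
      have h1 := B.hnear (f^[n] p)
      rw [hsemi] at h1
      have h2 := hy n
      have e : f^[n] p - p - (n : ℝ) • (⟨v1 - w.1, v2 - w.2⟩ : ℂ) =
          -(ph^[n] y - f^[n] p) + (ph^[n] y - (n : ℝ) • (⟨v1 - w.1, v2 - w.2⟩ : ℂ)) - p := by ring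
      rw [e]
      refine (norm_sub_le _ _).trans ?_
      have h3 := norm_add_le (-(ph^[n] y - f^[n] p)) (ph^[n] y - (n : ℝ) • (⟨v1 - w.1, v2 - w.2⟩ : ℂ))
      rw [norm_neg] at h3
      linarith
    refine ⟨fun _ => (p.re, p.im), fun k => k, tendsto_id, ?_⟩
    have e1 : ∀ k : ℕ, ((k : ℝ))⁻¹ • (G^[k] (p.re, p.im) - (p.re, p.im)) =
        ((k : ℝ)⁻¹ * ((f^[k] p).re + k * w.1 - p.re), (k : ℝ)⁻¹ * ((f^[k] p).im + k * w.2 - p.im)) := by
      intro k
      rw [ERT_iter B.feqv hw p k]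
      rfl
    simp only [e1]
    refine Filter.Tendsto.prodMk_nhds ?_ ?_
    · apply ERT_lim (C := 1 / 16 + 10 + ‖p‖)
      intro k hk
      have hk0 : (0 : ℝ) < k := by exact_mod_cast hk
      have h1 := (Complex.abs_re_le_norm _).trans (hbd k)
      have e2 : (f^[k] p - p - (k : ℝ) • (⟨v1 - w.1, v2 - w.2⟩ : ℂ)).re =
          (f^[k] p).re - p.re - k * (v1 - w.1) := by
        simp
      rw [e2] at h1
      have e3 : (k : ℝ)⁻¹ * ((f^[k] p).re + k * w.1 - p.re) - v1 =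
          ((f^[k] p).re - p.re - k * (v1 - w.1)) / k := by
        field_simp
        ring
      rw [e3, abs_div, abs_of_pos hk0]
      gcongr
    · apply ERT_lim (C := 1 / 16 + 10 + ‖p‖)
      intro k hk
      have hk0 : (0 : ℝ) < k := by exact_mod_cast hk
      have h1 := (Complex.abs_im_le_norm _).trans (hbd k)
      have e2 : (f^[k] p - p - (k : ℝ) • (⟨v1 - w.1, v2 - w.2⟩ : ℂ)).im =
          (f^[k] p).im - p.im - k * (v2 - w.2) := by
        simp
      rw [e2] at h1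
      have e3 : (k : ℝ)⁻¹ * ((f^[k] p).im + k * w.2 - p.im) - v2 =
          ((f^[k] p).im - p.im - k * (v2 - w.2)) / k := by
        field_simp
        ring
      rw [e3, abs_div, abs_of_pos hk0]
      gcongr
  refine ⟨(2 + w.1, 2 + w.2), mem_interior.2 ⟨_, hsub, isOpen_Ioo.prod isOpen_Ioo, ?_⟩⟩
  constructor
  · show (2 + (w.1 : ℝ)) ∈ Ioo (1 + (w.1 : ℝ)) (3 + w.1)
    constructor <;> linarith
  · show (2 + (w.2 : ℝ)) ∈ Ioo (1 + (w.2 : ℝ)) (3 + w.2)
    constructor <;> linarith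

end TorD
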