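import Pool.Agent.H51.TD.EHM
import Pool.Agent.H51.TD.EIA
import Pool.Agent.H51.TD.EIB
import Pool.Agent.H51.TD.EIC
import Pool.Agent.H51.TD.EID
import Pool.Agent.H51.TD.ENW
import Pool.Agent.H51.TD.ERT
import Pool.Agent.H51.TD.EIN
import Pool.Agent.H51.TD.EES

/-! # EMN: the conclusion on the torus -/

set_option autoImplicit false

open Topology Filter Set Function

namespace TorD

theorem ess_main {f g h : ℂ → ℂ} (B : Blow ph f g h) (hrat : ∀ x, ph x ∈ Rat2 ↔ x ∈ Rat2) :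
    ∃ F : T2 ≃ₜ T2, IsotopicId F ∧ Nonwandering F ∧ (∃ G, IsLift G F) ∧
      (∀ G, IsLift G F → (interior (rotSet G)).Nonempty) ∧
      ∃ W : Set T2, IsOpen W ∧ (W ∩ Ess F).Nonempty ∧
        ∀ x ∈ W ∩ Ess F, x ∉ Function.periodicPts F := by
  obtain ⟨F, D⟩ := desc_exists B.fc B.gc B.fg B.gf B.feqv
  obtain ⟨Φ, hΦ⟩ := eiso_base
  obtain ⟨Ψ, hΨ⟩ := eiso_blow B ph_cont ph_lat
    (Function.bijective_iff_has_inverse.2 ⟨pi, pi_ph, ph_pi⟩)
  obtain ⟨X, hX⟩ := eiso_trans hΦ hΨ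
  refine ⟨F, eiso_desc hX D.one, nonw_desc B D, lift_exists B.fc D.one,
    fun G hG => rot_desc B D hG, pr '' interior {p | (h p).re = 0},
    pr_open _ isOpen_interior, ?_, ?_⟩
  · obtain ⟨p, hp, hr⟩ := B.band
    exact ⟨pr p, mem_image_of_mem _ hp, ess_point B D hp hr⟩
  · rintro x ⟨⟨p, hp, rfl⟩, hE⟩ ⟨n, hn, hx⟩
    have h1 : F^[n] (pr p) = pr p := hx
    rw [D.itr] at h1
    obtain ⟨w, hw⟩ := (pr_iff _ _).1 h1
    obtain ⟨h2, h3⟩ := B.nper p hp n hn w hw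
    exact hE (ine_fibre B hrat D h2 h3)

end TorD
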