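import Pool.Agent.H51.TD.ECV

/-! # ERL: lifts -/

set_option autoImplicit false

open Topology Filter Set Function

namespace TorD

theorem ERL_mk {X : Type} [TopologicalSpace X] {u v : X → ℝ} (hu : Continuous u)
    (hv : Continuous v) : Continuous fun x => (⟨u x, v x⟩ : ℂ) := by
  have : (fun x => (⟨u x, v x⟩ : ℂ)) = fun x => (u x : ℂ) + (v x : ℂ) * Complex.I := by
    funext x; exact Complex.ext (by simp) (by simp)
  rw [this]
  exact (Complex.continuous_ofReal.comp hu).add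
    ((Complex.continuous_ofReal.comp hv).mul continuous_const)

theorem lift_exists {f : ℂ → ℂ} (hf : Continuous f) {F : T2 → T2}
    (hF : ∀ x, F (pr x) = pr (f x)) : ∃ G, IsLift G F := by
  have hc : Continuous fun x : ℝ × ℝ => f ⟨x.1, x.2⟩ :=
    hf.comp (ERL_mk continuous_fst continuous_snd)
  refine ⟨fun x => ((f ⟨x.1, x.2⟩).re, (f ⟨x.1, x.2⟩).im),
    (Complex.continuous_re.comp hc).prodMk (Complex.continuous_im.comp hc), ?_⟩
  intro x
  exact (hF ⟨x.1, x.2⟩).symm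

theorem lift_eq {f : ℂ → ℂ} (hf : Continuous f) {F : T2 → T2}
    (hF : ∀ x, F (pr x) = pr (f x)) {G : ℝ × ℝ → ℝ × ℝ} (hG : IsLift G F) :
    ∃ w : ℤ × ℤ, ∀ x : ℝ × ℝ, G x = ((f ⟨x.1, x.2⟩ + lat w).re, (f ⟨x.1, x.2⟩ + lat w).im) := by
  let d : ℂ → ℂ := fun z => (⟨(G (z.re, z.im)).1, (G (z.re, z.im)).2⟩ : ℂ) - f z
  have hGc : Continuous fun z : ℂ => G (z.re, z.im) :=
    hG.1.comp (Complex.continuous_re.prodMk Complex.continuous_im)
  have hd : Continuous d :=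
    (ERL_mk (continuous_fst.comp hGc) (continuous_snd.comp hGc)).sub hf
  have hl : ∀ z, ∃ w, d z = lat w := by
    intro z
    have h1 : pr (⟨(G (z.re, z.im)).1, (G (z.re, z.im)).2⟩ : ℂ) = pr (f z) := by
      rw [← hF z]
      exact hG.2 (z.re, z.im)
    obtain ⟨w, hw⟩ := (pr_iff _ _).1 h1
    refine ⟨w, ?_⟩
    change _ - f z = _
    rw [hw]; ring
  have hloc : IsLocallyConstant d := by
    rw [IsLocallyConstant.iff_eventually_eq]
    intro z
    have h1 : ∀ᶠ z' in 𝓝 z, dist (d z') (d z) < 1 := Metric.continuous_iff'.1 hd z 1 one_pos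
    filter_upwards [h1] with z' hz'
    obtain ⟨w, hw⟩ := hl z
    obtain ⟨w', hw'⟩ := hl z'
    rw [hw, hw'] at hz' ⊢
    by_contra hne
    have h2 : w' - w ≠ 0 := fun h => hne (by rw [sub_eq_zero.1 h])
    have h3 := lat_norm h2
    rw [lat_sub, ← dist_eq_norm] at h3
    linarith
  obtain ⟨w, hw⟩ := hl 0
  refine ⟨w, fun x => ?_⟩
  have h1 : d ⟨x.1, x.2⟩ = lat w := by
    rw [← hw]
    exact hloc.apply_eq_of_preconnectedSpace _ _
  have h2 : (⟨(G x).1, (G x).2⟩ : ℂ) = f ⟨x.1, x.2⟩ + lat w := by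
    rw [← h1]
    change _ = f ⟨x.1, x.2⟩ + ((⟨(G (x.1, x.2)).1, (G (x.1, x.2)).2⟩ : ℂ) - f ⟨x.1, x.2⟩)
    ring
  rw [← h2]

end TorD
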