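import Pool.Agent.H51.TD.RDA

/-! # ESG: a segment over the vertical line -/

set_option autoImplicit false

open Topology Filter Set Function

namespace TorD

theorem seg_exists {φ f g h : ℂ → ℂ} (B : Blow φ f g h) {p : ℂ} {r : ℝ} (hr : 0 < r)
    (hU : ∀ q ∈ Metric.ball p r, (h q).re = 0) (hp : h p ∉ Rat2) :
    ∃ (σ : ℝ → ℂ) (τ : ℝ → ℝ), Continuous σ ∧ Continuous τ ∧ τ 0 < τ 1 ∧
      MonotoneOn τ (Icc 0 1) ∧ ∀ t ∈ Icc (0 : ℝ) 1, σ t ∈ Metric.ball p r ∧
        h (σ t) = τ t * Complex.I := by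
  have hc : Continuous h :=
    (LipschitzWith.of_dist_le_mul (K := 2) fun x y => by
      rw [dist_eq_norm, dist_eq_norm]; exact B.hlip x y).continuous
  obtain ⟨q, hq, hne⟩ : ∃ q ∈ Metric.ball p r, h q ≠ h p := by
    by_contra hcon
    push Not at hcon
    have : Metric.ball p r ⊆ interior {p' | h p' = h p} :=
      interior_maximal hcon Metric.isOpen_ball
    rw [B.thin _ hp] at this
    exact this (Metric.mem_ball_self hr)
  obtain ⟨q, hq, hne, him⟩ : ∃ q ∈ Metric.ball p r, h q ≠ h p ∧ (q - p).im ≠ 0 := by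
    by_cases h0 : (q - p).im = 0
    · have hopen : IsOpen (Metric.ball p r ∩ {q | h q ≠ h p}) :=
        Metric.isOpen_ball.inter (isOpen_ne_fun hc continuous_const)
      obtain ⟨ε, hε, hb⟩ := Metric.isOpen_iff.1 hopen q ⟨hq, hne⟩
      have hm : q + ((ε / 2 : ℝ) : ℂ) * Complex.I ∈ Metric.ball q ε := by
        rw [Metric.mem_ball, dist_eq_norm, add_sub_cancel_left, norm_mul, Complex.norm_I, mul_one,
          Complex.norm_real, Real.norm_of_nonneg (by positivity)]
        linarith
      refine ⟨_, (hb hm).1, (hb hm).2, ?_⟩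
      have e : (q + ((ε / 2 : ℝ) : ℂ) * Complex.I - p).im = (q - p).im + ε / 2 := by
        simp only [Complex.sub_im, Complex.add_im, Complex.im_ofReal_mul, Complex.I_im]
        ring
      rw [e, h0]
      linarith
    · exact ⟨q, hq, hne, h0⟩
  let σ : ℝ → ℂ := fun t => p + t • (q - p)
  have hσ : Continuous σ := by fun_prop
  have hσb : ∀ t ∈ Icc (0 : ℝ) 1, σ t ∈ Metric.ball p r := by
    rintro t ⟨h0, h1⟩
    rw [Metric.mem_ball, dist_eq_norm] at hq ⊢
    have : σ t - p = t • (q - p) := add_sub_cancel_left _ _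
    rw [this, norm_smul, Real.norm_of_nonneg h0]
    nlinarith [norm_nonneg (q - p)]
  have hh : ∀ t ∈ Icc (0 : ℝ) 1, h (σ t) = ((h (σ t)).im : ℂ) * Complex.I := fun t ht =>
    Complex.ext (by simp [hU _ (hσb t ht)]) (by simp)
  have hτ : Continuous fun t => (h (σ t)).im := Complex.continuous_im.comp (hc.comp hσ)
  have hmono : ∀ s ∈ Icc (0 : ℝ) 1, ∀ t ∈ Icc (0 : ℝ) 1,
      0 ≤ ((h (σ s)).im - (h (σ t)).im) * ((s - t) * (q - p).im) := by
    intro s hs t ht
    have h1 := B.hmono (σ s) (σ t)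
    unfold ip at h1
    rw [Complex.sub_re, Complex.sub_im, hU _ (hσb s hs), hU _ (hσb t ht)] at h1
    have h2 : (σ s - σ t).im = (s - t) * (q - p).im := by
      change (p + s • (q - p) - (p + t • (q - p))).im = _
      simp only [Complex.sub_im, Complex.add_im, Complex.smul_im, smul_eq_mul]
      ring
    rw [h2] at h1
    linarith
  have m0 : (0 : ℝ) ∈ Icc (0 : ℝ) 1 := ⟨le_rfl, zero_le_one⟩
  have m1 : (1 : ℝ) ∈ Icc (0 : ℝ) 1 := ⟨zero_le_one, le_rfl⟩
  have e0 : σ 0 = p := by simp [σ]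
  have e1 : σ 1 = q := by simp [σ]
  have hne' : (h (σ 0)).im ≠ (h (σ 1)).im := by
    intro he
    apply hne
    rw [← e0, ← e1, hh 0 m0, hh 1 m1, he]
  have h10 := hmono 1 m1 0 m0
  rcases lt_or_gt_of_ne him with hlt | hgt
  · have mm : ∀ t ∈ Icc (0 : ℝ) 1, 1 - t ∈ Icc (0 : ℝ) 1 := fun t ht =>
      ⟨by linarith [ht.2], by linarith [ht.1]⟩
    refine ⟨fun t => σ (1 - t), fun t => (h (σ (1 - t))).im,
      hσ.comp (continuous_const.sub continuous_id), hτ.comp (continuous_const.sub continuous_id),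
      ?_, ?_, fun t ht => ⟨hσb _ (mm t ht), hh _ (mm t ht)⟩⟩
    · simp only [sub_zero, sub_self]
      refine lt_of_le_of_ne ?_ hne'.symm
      nlinarith
    · intro s hs t ht hst
      have := hmono (1 - s) (mm s hs) (1 - t) (mm t ht)
      beta_reduce
      rcases hst.eq_or_lt with rfl | hst
      · exact le_rfl
      · have h3 : (1 - s - (1 - t)) * (q - p).im < 0 :=
          mul_neg_of_pos_of_neg (by linarith) hlt
        by_contra hc
        push Not at hc
        have := mul_neg_of_pos_of_neg (sub_pos.2 hc) h3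
        linarith
  · refine ⟨σ, fun t => (h (σ t)).im, hσ, hτ, ?_, ?_, fun t ht => ⟨hσb _ ht, hh _ ht⟩⟩
    · refine lt_of_le_of_ne ?_ hne'
      nlinarith
    · intro s hs t ht hst
      have := hmono t ht s hs
      beta_reduce
      rcases hst.eq_or_lt with rfl | hst
      · exact le_rfl
      · have h3 : 0 < (t - s) * (q - p).im := mul_pos (by linarith) hgt
        by_contra hc
        push Not at hc
        have := mul_neg_of_neg_of_pos (sub_neg.2 hc) h3
        linarith

end TorD
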