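import Pool.Agent.H51.TD.RLA

/-! # EXT: the lifts `fb`, `gb` of `φ`, `ψ` to `M`

PROOF. Define `fb p` for `p ∈ M` by Rl_ex (`Classical.choose`, arbitrary outside `M`), `gb` by Rl_ex for `ψ` (note `Dyn2 A ψ φ`). Rl_uc gives uniqueness (`Rl p q`, `Rl p q'` imply `q = q'`) and uniform
continuity of `fb` on `M`. Rl_M: `fb p ∈ M`, `h (fb p) = φ (h p)`. Rl_symm: `Rl ψ (fb p) p`, so `gb (fb p) = p` by uniqueness; and conversely. Rl_lat and uniqueness: equivariance (M_lat). Rl_P and uniqueness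
(P_M): fP. -/

set_option autoImplicit false

open Topology Filter Set Function

namespace TorD

private theorem EXT_uniq {ι : Type} [Countable ι] {A : Arr ι} {φ ψ : ℂ → ℂ} (H : Dyn2 A φ ψ)
    {p q q' : ℂ} (h : Rl A φ p q) (h' : Rl A φ p q') : q = q' := by
  by_contra hne
  have hpos : 0 < ‖q - q'‖ := norm_pos_iff.2 (sub_ne_zero.2 hne)
  obtain ⟨δ, hδ, huc⟩ := Rl_uc H hpos
  exact lt_irrefl _ (huc p q p q' h h' (by rw [sub_self, norm_zero]; exact hδ))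

private theorem EXT_ex {ι : Type} [Countable ι] {A : Arr ι} {φ ψ : ℂ → ℂ} (H : Dyn2 A φ ψ) :
    ∃ fb : ℂ → ℂ, ∀ p ∈ A.M, Rl A φ p (fb p) := by
  classical
  have h : ∀ p : ℂ, ∃ q : ℂ, p ∈ A.M → Rl A φ p q := by
    intro p
    by_cases hp : p ∈ A.M
    · obtain ⟨q, hq⟩ := Rl_ex H hp
      exact ⟨q, fun _ => hq⟩
    · exact ⟨0, fun h => absurd h hp⟩
  choose fb hfb using h
  exact ⟨fb, hfb⟩

private theorem EXT_cont {ι : Type} [Countable ι] {A : Arr ι} {φ ψ : ℂ → ℂ} (H : Dyn2 A φ ψ)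
    {fb : ℂ → ℂ} (hf : ∀ p ∈ A.M, Rl A φ p (fb p)) : ContinuousOn fb A.M := by
  rw [Metric.continuousOn_iff]
  intro b hb ε hε
  obtain ⟨δ, hδ, huc⟩ := Rl_uc H hε
  refine ⟨δ, hδ, fun a ha hab => ?_⟩
  rw [dist_eq_norm] at hab ⊢
  exact huc a _ b _ (hf a ha) (hf b hb) hab

theorem Arr.ext {ι : Type} [Countable ι] (A : Arr ι) {φ ψ : ℂ → ℂ} (H : Dyn2 A φ ψ) :
    ∃ fb gb : ℂ → ℂ, Bd A φ ψ fb gb := by
  have H' : Dyn2 A ψ φ := ⟨H.ψφ, H.φψ, H.dψ, H.dφ⟩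
  obtain ⟨fb, hf⟩ := EXT_ex H
  obtain ⟨gb, hg⟩ := EXT_ex H'
  refine ⟨fb, gb, ?_⟩
  exact
    { fc := EXT_cont H hf
      gc := EXT_cont H' hg
      fM := fun p hp => (Rl_M H (hf p hp)).2.1
      gM := fun p hp => (Rl_M H' (hg p hp)).2.1
      gf := fun p hp => EXT_uniq H' (hg _ (Rl_M H (hf p hp)).2.1) (Rl_symm H (hf p hp))
      fg := fun p hp => EXT_uniq H (hf _ (Rl_M H' (hg p hp)).2.1) (Rl_symm H' (hg p hp))
      hf := fun p hp => (Rl_M H (hf p hp)).2.2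
      hg := fun p hp => (Rl_M H' (hg p hp)).2.2
      fl := fun p hp w => EXT_uniq H (hf _ ((A.M_lat p w).2 hp)) (Rl_lat H (hf p hp) w)
      gl := fun p hp w => EXT_uniq H' (hg _ ((A.M_lat p w).2 hp)) (Rl_lat H' (hg p hp) w)
      fP := fun z _ θ θ' s hD hs => EXT_uniq H (hf _ (A.P_M z hD.1 hs)) (Rl_P H hD hs) }

end TorD
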