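import Pool.Agent.H51.TD.FLDefs

/-! # FLA: the chord map `gg b`

PROOF. `MM b δ` is strictly increasing and continuous in `x` (sum of two such functions), `MM b δ (x + 1) = MM b δ x + 1`, so
`MM b δ (x + n) = MM b δ x + n` for integers and by the intermediate value theorem it is onto. `th_spec`: `Function.invFun_eq` (a solution exists);
`th_MM`: injectivity (`Function.leftInverse_invFun`).
`th_cont` (joint continuity of `p ↦ th b p.2 p.1`): at `p₀ = (θ₀, δ₀)` let `x₀ = th b δ₀ θ₀`, `ε > 0`: `MM b δ₀ (x₀ - ε) < θ₀ < MM b δ₀ (x₀ + ε)`; `δ ↦ MM b δ (x₀ ± ε)` is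
continuous, so the same inequalities hold for `(θ, δ)` near `p₀`, and give `x₀ - ε < th b δ θ < x₀ + ε` by monotonicity.
`gg_iff`: `→`: add and subtract `MM b δ θ' = θ` and `DD b θ' δ = δ'`. `←`: adding gives `MM b δ θ' = θ`, so `θ' = th b δ θ` (`th_MM`); subtracting gives `DD`.
`gg_inv`: with `(θ', δ') = gg b (θ, δ)`: `b (θ' + δ) = θ + δ'`, so `c (θ + δ') = θ' + δ`, `c (θ - δ') = θ' - δ`: this is `gg_iff` for `c` at `(θ', δ') ↦ (θ, δ)`.
`gg_one`: `gg_iff` with `θ' + 1` (`b ((θ' + 1) ± δ) = b (θ' ± δ) + 1`). `gg_zero`: `gg_iff` with `θ' = c θ`, `δ' = 0`.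
`gg_lev`: `δ ↦ DD b x δ` is increasing and `DD b x (k / 2) = k / 2` since `b (x + k/2) = b (x - k/2) + k` (`b (t + n) = b t + n` by induction). -/

set_option autoImplicit false

open Topology Filter Set Function MeasureTheory

namespace TorD

theorem FLA_MM_cont {b c : ℝ → ℝ} (h : CL b c) : Continuous fun p : ℝ × ℝ => MM b p.2 p.1 := by
  unfold MM
  have := h.bc
  fun_prop

theorem FLA_MM_cont' {b c : ℝ → ℝ} (h : CL b c) (δ : ℝ) : Continuous (MM b δ) := by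
  unfold MM
  have := h.bc
  fun_prop

theorem FLA_DD_cont {b c : ℝ → ℝ} (h : CL b c) : Continuous fun p : ℝ × ℝ => DD b p.1 p.2 := by
  unfold DD
  have := h.bc
  fun_prop

theorem FLA_bn {b c : ℝ → ℝ} (h : CL b c) (t : ℝ) (n : ℕ) : b (t + n) = b t + n := by
  induction n with
  | zero => simp
  | succ n ih =>
    push_cast
    rw [← add_assoc, h.b1, ih, add_assoc]

theorem MM_mono {b c : ℝ → ℝ} (h : CL b c) (δ : ℝ) : StrictMono (MM b δ) := by
  intro x y hxy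
  unfold MM
  have h1 := h.bm (show x + δ < y + δ by linarith)
  have h2 := h.bm (show x - δ < y - δ by linarith)
  linarith

theorem FLA_MMn {b c : ℝ → ℝ} (h : CL b c) (δ x : ℝ) (n : ℕ) : MM b δ (x + n) = MM b δ x + n := by
  unfold MM
  rw [show x + (n : ℝ) + δ = x + δ + n by ring, show x + (n : ℝ) - δ = x - δ + n by ring, FLA_bn h,
    FLA_bn h]
  ring

theorem FLA_surj {b c : ℝ → ℝ} (h : CL b c) (δ θ : ℝ) : ∃ x, MM b δ x = θ := by
  have hr : θ ∈ range (MM b δ) := by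
    refine mem_range_of_exists_le_of_exists_ge (FLA_MM_cont' h δ) ?_ ?_
    · obtain ⟨n, hn⟩ := exists_nat_ge (MM b δ 0 - θ)
      refine ⟨-(n : ℝ), ?_⟩
      have := FLA_MMn h δ (-(n : ℝ)) n
      rw [neg_add_cancel] at this
      linarith
    · obtain ⟨n, hn⟩ := exists_nat_ge (θ - MM b δ 0)
      refine ⟨(0 : ℝ) + n, ?_⟩
      rw [FLA_MMn h]
      linarith
  exact hr

theorem th_spec {b c : ℝ → ℝ} (h : CL b c) (δ θ : ℝ) : MM b δ (th b δ θ) = θ :=
  Function.invFun_eq (FLA_surj h δ θ)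

theorem th_MM {b c : ℝ → ℝ} (h : CL b c) (δ x : ℝ) : th b δ (MM b δ x) = x :=
  Function.leftInverse_invFun (MM_mono h δ).injective x

theorem th_cont {b c : ℝ → ℝ} (h : CL b c) : Continuous fun p : ℝ × ℝ => th b p.2 p.1 := by
  rw [continuous_iff_continuousAt]
  intro p₀
  refine tendsto_order.2 ⟨fun a ha => ?_, fun a ha => ?_⟩
  · have h1 : MM b p₀.2 a < p₀.1 := by
      have := MM_mono h p₀.2 ha
      rwa [th_spec h] at this
    have hc : Continuous fun p : ℝ × ℝ => MM b p.2 a := by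
      unfold MM
      have := h.bc
      fun_prop
    filter_upwards [hc.continuousAt.eventually_lt continuous_fst.continuousAt h1] with p hp
    rw [← (MM_mono h p.2).lt_iff_lt, th_spec h]
    exact hp
  · have h1 : p₀.1 < MM b p₀.2 a := by
      have := MM_mono h p₀.2 ha
      rwa [th_spec h] at this
    have hc : Continuous fun p : ℝ × ℝ => MM b p.2 a := by
      unfold MM
      have := h.bc
      fun_prop
    filter_upwards [continuous_fst.continuousAt.eventually_lt hc.continuousAt h1] with p hp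
    rw [← (MM_mono h p.2).lt_iff_lt, th_spec h]
    exact hp

theorem DD_mono {b c : ℝ → ℝ} (h : CL b c) (x : ℝ) : StrictMono (DD b x) := by
  intro s t hst
  unfold DD
  have h1 := h.bm (show x + s < x + t by linarith)
  have h2 := h.bm (show x - t < x - s by linarith)
  linarith

theorem gg_cont {b c : ℝ → ℝ} (h : CL b c) : Continuous (gg b) := by
  unfold gg
  have h1 := th_cont h
  have h2 : Continuous fun p : ℝ × ℝ => ((th b p.2 p.1, p.2) : ℝ × ℝ) := h1.prodMk continuous_snd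
  exact h1.prodMk ((FLA_DD_cont h).comp h2)

theorem gg_iff {b c : ℝ → ℝ} (h : CL b c) (θ δ θ' δ' : ℝ) :
    gg b (θ, δ) = (θ', δ') ↔ b (θ' + δ) = θ + δ' ∧ b (θ' - δ) = θ - δ' := by
  unfold gg
  simp only [Prod.mk.injEq]
  constructor
  · rintro ⟨h1, h2⟩
    have h3 := th_spec h δ θ
    rw [h1] at h2 h3
    unfold MM at h3
    unfold DD at h2
    constructor <;> linarith
  · rintro ⟨h1, h2⟩
    have h3 : MM b δ θ' = θ := by
      unfold MM
      linarith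
    have h4 : th b δ θ = θ' := by
      rw [← h3, th_MM h]
    refine ⟨h4, ?_⟩
    rw [h4]
    unfold DD
    linarith

theorem gg_inv {b c : ℝ → ℝ} (h : CL b c) (x : ℝ × ℝ) : gg c (gg b x) = x := by
  obtain ⟨θ, δ⟩ := x
  obtain ⟨⟨θ', δ'⟩, he⟩ : ∃ y, gg b (θ, δ) = y := ⟨_, rfl⟩
  rw [he]
  obtain ⟨h1, h2⟩ := (gg_iff h θ δ θ' δ').1 he
  refine (gg_iff h.symm θ' δ' θ δ).2 ⟨?_, ?_⟩
  · rw [← h1, h.cb]
  · rw [← h2, h.cb]

theorem gg_one {b c : ℝ → ℝ} (h : CL b c) (x : ℝ × ℝ) : gg b (x + (1, 0)) = gg b x + (1, 0) := by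
  obtain ⟨θ, δ⟩ := x
  obtain ⟨⟨θ', δ'⟩, he⟩ : ∃ y, gg b (θ, δ) = y := ⟨_, rfl⟩
  rw [he]
  obtain ⟨h1, h2⟩ := (gg_iff h θ δ θ' δ').1 he
  simp only [Prod.mk_add_mk, add_zero]
  refine (gg_iff h (θ + 1) δ (θ' + 1) δ').2 ⟨?_, ?_⟩
  · rw [show θ' + 1 + δ = θ' + δ + 1 by ring, h.b1, h1]
    ring
  · rw [show θ' + 1 - δ = θ' - δ + 1 by ring, h.b1, h2]
    ring

theorem gg_zero {b c : ℝ → ℝ} (h : CL b c) (θ : ℝ) : gg b (θ, 0) = (c θ, 0) := by
  refine (gg_iff h θ 0 (c θ) 0).2 ⟨?_, ?_⟩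
  · rw [add_zero, add_zero, h.bcb]
  · rw [sub_zero, sub_zero, h.bcb]

theorem FLA_DDk {b c : ℝ → ℝ} (h : CL b c) (x : ℝ) (k : ℕ) : DD b x ((k : ℝ) / 2) = (k : ℝ) / 2 := by
  unfold DD
  have h1 := FLA_bn h (x - (k : ℝ) / 2) k
  rw [show x - (k : ℝ) / 2 + k = x + (k : ℝ) / 2 by ring] at h1
  rw [h1]
  ring

theorem gg_lev {b c : ℝ → ℝ} (h : CL b c) (k : ℕ) (x : ℝ × ℝ) (hx : x.2 ∈ Ik k) :
    (gg b x).2 ∈ Ik k := by
  rw [Ik_iff] at hx ⊢
  obtain ⟨h1, h2⟩ := hx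
  have h3 := (DD_mono h (th b x.2 x.1)).monotone h1
  have h4 := (DD_mono h (th b x.2 x.1)).monotone h2
  have h5 := FLA_DDk h (th b x.2 x.1) k
  have h6 := FLA_DDk h (th b x.2 x.1) (k + 1)
  push_cast at h6
  rw [h5] at h3
  rw [h6] at h4
  exact ⟨h3, h4⟩

end TorD
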