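import Pool.Agent.H51.TD.FLDefs

/-! # FLP: the exactness identity

PROOF. Let `B t = ∫ s in 0..t, b s`. For every `a`: `∫ δ in d₁..d₂, b (a + δ) = B (a + d₂) - B (a + d₁)` (`intervalIntegral.integral_comp_add_left`, `integral_interval_sub_left`), `∫ δ in d₁..d₂, b (a - δ) = B (a - d₁) - B (a - d₂)`
(`integral_comp_sub_left`), similarly `∫ x in a₁..a₂, b (x ± d) = B (a₂ ± d) - B (a₁ ± d)`. Both sides are
`(1/2) (B (a₂+d₂) - B (a₂+d₁) - B (a₂-d₂) + B (a₂-d₁) - B (a₁+d₂) + B (a₁+d₁) + B (a₁-d₂) - B (a₁-d₁))`. Everything is continuous, hence interval integrable. -/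

set_option autoImplicit false

open Topology Filter Set Function MeasureTheory

namespace TorD

theorem FLP_add {b : ℝ → ℝ} (a u v : ℝ) :
    ∫ δ in u..v, b (a + δ) = ∫ s in (a + u)..(a + v), b s :=
  intervalIntegral.integral_comp_add_left b a

theorem FLP_sub {b : ℝ → ℝ} (a u v : ℝ) :
    ∫ δ in u..v, b (a - δ) = ∫ s in (a - v)..(a - u), b s :=
  intervalIntegral.integral_comp_sub_left b a

theorem FLP_B {b : ℝ → ℝ} (hb : Continuous b) (u v : ℝ) :
    ∫ s in u..v, b s = (∫ s in (0 : ℝ)..v, b s) - ∫ s in (0 : ℝ)..u, b s :=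
  (intervalIntegral.integral_interval_sub_left (hb.intervalIntegrable _ _)
    (hb.intervalIntegrable _ _)).symm

theorem exact_id {b : ℝ → ℝ} (hb : Continuous b) (a₁ a₂ d₁ d₂ : ℝ) :
    ∫ δ in d₁..d₂, (MM b δ a₂ - MM b δ a₁) = ∫ x in a₁..a₂, (DD b x d₂ - DD b x d₁) := by
  have hc1 : ∀ a, Continuous fun δ => b (a + δ) := fun a => hb.comp (continuous_const.add continuous_id)
  have hc2 : ∀ a, Continuous fun δ => b (a - δ) := fun a => hb.comp (continuous_const.sub continuous_id)
  have hM : ∀ a, ∫ δ in d₁..d₂, MM b δ a =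
      ((∫ s in (0 : ℝ)..(a + d₂), b s) - (∫ s in (0 : ℝ)..(a + d₁), b s) +
        ((∫ s in (0 : ℝ)..(a - d₁), b s) - ∫ s in (0 : ℝ)..(a - d₂), b s)) / 2 := by
    intro a
    have h1 : ∫ δ in d₁..d₂, MM b δ a = (∫ δ in d₁..d₂, (b (a + δ) + b (a - δ))) / 2 := by
      rw [← intervalIntegral.integral_div]
      rfl
    rw [h1, intervalIntegral.integral_add ((hc1 a).intervalIntegrable _ _)
      ((hc2 a).intervalIntegrable _ _), FLP_add, FLP_sub, FLP_B hb (a + d₁), FLP_B hb (a - d₂)]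
  have hc3 : ∀ a, Continuous fun x => b (x + a) := fun a => hb.comp (continuous_id.add continuous_const)
  have hc4 : ∀ a, Continuous fun x => b (x - a) := fun a => hb.comp (continuous_id.sub continuous_const)
  have hD : ∀ d, ∫ x in a₁..a₂, DD b x d =
      ((∫ s in (0 : ℝ)..(a₂ + d), b s) - (∫ s in (0 : ℝ)..(a₁ + d), b s) -
        ((∫ s in (0 : ℝ)..(a₂ - d), b s) - ∫ s in (0 : ℝ)..(a₁ - d), b s)) / 2 := by
    intro d
    have h1 : ∫ x in a₁..a₂, DD b x d = (∫ x in a₁..a₂, (b (x + d) - b (x - d))) / 2 := by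
      rw [← intervalIntegral.integral_div]
      rfl
    rw [h1, intervalIntegral.integral_sub ((hc3 d).intervalIntegrable _ _)
      ((hc4 d).intervalIntegrable _ _), intervalIntegral.integral_comp_add_right,
      intervalIntegral.integral_comp_sub_right, FLP_B hb (a₁ + d), FLP_B hb (a₁ - d)]
  have hcM : ∀ a, Continuous fun δ => MM b δ a := fun a => ((hc1 a).add (hc2 a)).div_const 2
  have hcD : ∀ d, Continuous fun x => DD b x d := fun d => ((hc3 d).sub (hc4 d)).div_const 2
  rw [intervalIntegral.integral_sub ((hcM a₂).intervalIntegrable _ _)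
      ((hcM a₁).intervalIntegrable _ _), intervalIntegral.integral_sub
      ((hcD d₂).intervalIntegrable _ _) ((hcD d₁).intervalIntegrable _ _), hM, hM, hD, hD]
  ring

end TorD
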