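import Mathlib

/-! # FLX: measures on the plane that agree on rectangles

PROOF. `Measure.ext_of_generateFrom_of_iUnion` (or `ext_of_generateFrom_of_cover_subset`) with `C = image2 (· ×ˢ ·) {S | ∃ l u, l < u ∧ Ioc l u = S} {S | ∃ l u, l < u ∧ Ioc l u = S}`:
it generates the sigma algebra of `ℝ × ℝ` (`generateFrom_prod_eq`, `borel_eq_generateFrom_Ioc`, `isCountablySpanning`: the sets `Ioc (-n) n`, `n ≥ 1`), it is a pi-system (`IsPiSystem.prod`, `isPiSystem_Ioc` or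
by hand: the intersection of two such intervals, if nonempty, is one), and the squares `Ioc (-(n+1)) (n+1) ×ˢ Ioc (-(n+1)) (n+1)` cover. -/

set_option autoImplicit false

open Topology Filter Set Function MeasureTheory

namespace TorD

/-- the half open intervals -/
def FLX_C : Set (Set ℝ) := {S | ∃ l u : ℝ, l < u ∧ Ioc l u = S}

theorem FLX_pi : IsPiSystem FLX_C := by
  rintro _ ⟨a, b, _, rfl⟩ _ ⟨c, d, _, rfl⟩ hne
  rw [Ioc_inter_Ioc] at hne ⊢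
  obtain ⟨x, hx1, hx2⟩ := hne
  exact ⟨_, _, lt_of_lt_of_le hx1 hx2, rfl⟩

theorem FLX_span : IsCountablySpanning FLX_C := by
  refine ⟨fun n : ℕ => Ioc (-((n : ℝ) + 1)) ((n : ℝ) + 1), fun n => ⟨_, _, ?_, rfl⟩, ?_⟩
  · have : (0 : ℝ) ≤ n := Nat.cast_nonneg n
    linarith
  · rw [eq_univ_iff_forall]
    intro x
    obtain ⟨n, hn⟩ := exists_nat_gt |x|
    rw [mem_iUnion]
    refine ⟨n, ?_⟩
    rw [abs_lt] at hn
    exact ⟨by linarith [hn.1], by linarith [hn.2]⟩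

theorem FLX_gen : (borel ℝ : MeasurableSpace ℝ) = MeasurableSpace.generateFrom FLX_C :=
  borel_eq_generateFrom_Ioc ℝ

theorem rect_ext {μ ν : Measure (ℝ × ℝ)}
    (hf : ∀ a b c d : ℝ, a < b → c < d → μ (Ioc a b ×ˢ Ioc c d) ≠ ⊤)
    (h : ∀ a b c d : ℝ, a < b → c < d → μ (Ioc a b ×ˢ Ioc c d) = ν (Ioc a b ×ˢ Ioc c d)) :
    μ = ν := by
  have hgen : (inferInstance : MeasurableSpace (ℝ × ℝ)) =
      MeasurableSpace.generateFrom (image2 (· ×ˢ ·) FLX_C FLX_C) := by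
    rw [← generateFrom_prod_eq FLX_span FLX_span, ← FLX_gen, ← BorelSpace.measurable_eq]
  refine Measure.ext_of_generateFrom_of_iUnion (image2 (· ×ˢ ·) FLX_C FLX_C)
    (fun n : ℕ => Ioc (-((n : ℝ) + 1)) ((n : ℝ) + 1) ×ˢ Ioc (-((n : ℝ) + 1)) ((n : ℝ) + 1)) hgen
    (FLX_pi.prod FLX_pi) ?_ ?_ ?_ ?_
  · rw [eq_univ_iff_forall]
    rintro ⟨x, y⟩
    obtain ⟨n, hn⟩ := exists_nat_gt (max |x| |y|)
    rw [mem_iUnion]
    refine ⟨n, ?_⟩
    rw [max_lt_iff, abs_lt, abs_lt] at hn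
    exact ⟨⟨by linarith [hn.1.1], by linarith [hn.1.2]⟩, ⟨by linarith [hn.2.1], by linarith [hn.2.2]⟩⟩
  · intro n
    have hn : (0 : ℝ) ≤ n := Nat.cast_nonneg n
    exact ⟨_, ⟨_, _, by linarith, rfl⟩, _, ⟨_, _, by linarith, rfl⟩, rfl⟩
  · intro n
    have hn : (0 : ℝ) ≤ n := Nat.cast_nonneg n
    exact hf _ _ _ _ (by linarith) (by linarith)
  · rintro _ ⟨_, ⟨a, b, hab, rfl⟩, _, ⟨c, d, hcd, rfl⟩, rfl⟩
    exact h a b c d hab hcd

end TorD
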