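import Pool.Agent.H51.TD.FLA
import Pool.Agent.H51.TD.FLX
import Pool.Agent.H51.TD.FLP

/-! # FLB: the chord map preserves the area

PROOF. `P (x, δ) = (MM b δ x, δ)`, `P' (θ, δ) = (th b δ θ, δ)`: continuous, mutually inverse (`th_spec`, `th_MM`). `gg b (P (x, δ)) = (x, DD b x δ)` (`th_MM`). Let `R = P' ∘ gg c`, continuous. By `gg_inv` (both ways)
`R (x, δ') = (x₁, δ₁)` iff `gg c (x, δ') = P (x₁, δ₁)` iff `(x, δ') = gg b (P (x₁, δ₁)) = (x₁, DD b x₁ δ₁)`. Let `μ = map P' volume`, `ν = map R volume`. We show `μ = ν` by `rect_ext`. Let `Q = Ioc a₁ a₂ ×ˢ Ioc d₁ d₂`.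
`μ Q = volume {(θ, δ) | th b δ θ ∈ Ioc a₁ a₂ ∧ δ ∈ Ioc d₁ d₂} = ∫⁻ δ in Ioc d₁ d₂, volume (Ioc (MM b δ a₁) (MM b δ a₂))` (`Measure.prod_apply_symm`, volume on `ℝ × ℝ` is `volume.prod volume`; `th b δ θ ∈ Ioc a₁ a₂ ↔ θ ∈ Ioc (MM b δ a₁) (MM b δ a₂)` by
`MM_mono`, `th_spec`) `= ∫⁻ δ in Ioc d₁ d₂, ENNReal.ofReal (MM b δ a₂ - MM b δ a₁) = ENNReal.ofReal (∫ δ in d₁..d₂, ...)` (`ofReal_integral_eq_lintegral_ofReal`, `intervalIntegral.integral_of_le`; the integrand is continuous and nonnegative).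
`ν Q = volume {(x, δ') | x ∈ Ioc a₁ a₂ ∧ δ' ∈ Ioc (DD b x d₁) (DD b x d₂)}` (`DD_mono`; every `(x, δ')` is `(x, DD b x δ₁)` for some `δ₁`) `= ∫⁻ x in Ioc a₁ a₂, ENNReal.ofReal (DD b x d₂ - DD b x d₁)`
`= ENNReal.ofReal (∫ x in a₁..a₂, ...)`; equal by `exact_id`, and finite.
Conclusion: `map P μ = map (P ∘ P') volume = volume`, `map P ν = map (P ∘ P' ∘ gg c) volume = map (gg c) volume`. So `gg c` preserves the volume; apply this to `h.symm` for `gg b`. -/

set_option autoImplicit false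

open Topology Filter Set Function MeasureTheory

namespace TorD

theorem FLB_sec {s : Set (ℝ × ℝ)} (hs : MeasurableSet s) {f g : ℝ → ℝ} (hf : Continuous f)
    (hg : Continuous g) {a₁ a₂ : ℝ} (ha : a₁ ≤ a₂) (hfg : ∀ x, f x ≤ g x)
    (h : ∀ x y, (x, y) ∈ s ↔ x ∈ Ioc a₁ a₂ ∧ y ∈ Ioc (f x) (g x)) :
    volume s = ENNReal.ofReal (∫ x in a₁..a₂, (g x - f x)) := by
  rw [Measure.volume_eq_prod, Measure.prod_apply hs]
  have h1 : ∀ x, volume (Prod.mk x ⁻¹' s) =
      (Ioc a₁ a₂).indicator (fun x => ENNReal.ofReal (g x - f x)) x := by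
    intro x
    by_cases hx : x ∈ Ioc a₁ a₂
    · have : Prod.mk x ⁻¹' s = Ioc (f x) (g x) := by
        ext y
        rw [mem_preimage, h]
        exact ⟨fun hh => hh.2, fun hh => ⟨hx, hh⟩⟩
      rw [this, Real.volume_Ioc, indicator_of_mem hx]
    · have : Prod.mk x ⁻¹' s = ∅ := by
        ext y
        rw [mem_preimage, h]
        exact ⟨fun hh => absurd hh.1 hx, fun hh => absurd hh (notMem_empty _)⟩
      rw [this, measure_empty, indicator_of_notMem hx]
  simp_rw [h1]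
  rw [lintegral_indicator measurableSet_Ioc, intervalIntegral.integral_of_le ha]
  rw [ofReal_integral_eq_lintegral_ofReal]
  · exact (hg.sub hf).integrableOn_Ioc
  · exact ae_of_all _ (fun x => sub_nonneg.mpr (hfg x))

theorem FLB_sec' {s : Set (ℝ × ℝ)} (hs : MeasurableSet s) {f g : ℝ → ℝ} (hf : Continuous f)
    (hg : Continuous g) {a₁ a₂ : ℝ} (ha : a₁ ≤ a₂) (hfg : ∀ x, f x ≤ g x)
    (h : ∀ x y, (x, y) ∈ s ↔ y ∈ Ioc a₁ a₂ ∧ x ∈ Ioc (f y) (g y)) :
    volume s = ENNReal.ofReal (∫ y in a₁..a₂, (g y - f y)) := by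
  rw [Measure.volume_eq_prod, Measure.prod_apply_symm hs]
  have h1 : ∀ y, volume ((fun x => (x, y)) ⁻¹' s) =
      (Ioc a₁ a₂).indicator (fun y => ENNReal.ofReal (g y - f y)) y := by
    intro y
    by_cases hy : y ∈ Ioc a₁ a₂
    · have : (fun x => (x, y)) ⁻¹' s = Ioc (f y) (g y) := by
        ext x
        rw [mem_preimage, h]
        exact ⟨fun hh => hh.2, fun hh => ⟨hy, hh⟩⟩
      rw [this, Real.volume_Ioc, indicator_of_mem hy]
    · have : (fun x => (x, y)) ⁻¹' s = ∅ := by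
        ext x
        rw [mem_preimage, h]
        exact ⟨fun hh => absurd hh.1 hy, fun hh => absurd hh (notMem_empty _)⟩
      rw [this, measure_empty, indicator_of_notMem hy]
  simp_rw [h1]
  rw [lintegral_indicator measurableSet_Ioc, intervalIntegral.integral_of_le ha]
  rw [ofReal_integral_eq_lintegral_ofReal]
  · exact (hg.sub hf).integrableOn_Ioc
  · exact ae_of_all _ (fun x => sub_nonneg.mpr (hfg x))

theorem FLB_c {b c : ℝ → ℝ} (h : CL b c) : MeasurePreserving (gg c) volume volume := by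
  set P : ℝ × ℝ → ℝ × ℝ := fun p => (MM b p.2 p.1, p.2) with hP
  set P' : ℝ × ℝ → ℝ × ℝ := fun p => (th b p.2 p.1, p.2) with hP'
  have hbc : Continuous b := h.bc
  have hPc : Continuous P := by
    simp only [hP, MM]
    fun_prop
  have hP'c : Continuous P' := (th_cont h).prodMk continuous_snd
  have hcc : Continuous (gg c) := gg_cont h.symm
  set R : ℝ × ℝ → ℝ × ℝ := P' ∘ gg c with hR
  have hRc : Continuous R := hP'c.comp hcc
  have hRp : ∀ p : ℝ × ℝ, p = ((R p).1, DD b (R p).1 (R p).2) := by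
    intro p
    have := gg_inv h.symm p
    conv_lhs => rw [← this]
    rfl
  have hPP' : ∀ p, P (P' p) = p := by
    intro p
    simp only [hP, hP']
    rw [th_spec h]
  have hmu : ∀ a₁ a₂ d₁ d₂ : ℝ, a₁ < a₂ → d₁ < d₂ →
      Measure.map P' volume (Ioc a₁ a₂ ×ˢ Ioc d₁ d₂) =
        ENNReal.ofReal (∫ δ in d₁..d₂, (MM b δ a₂ - MM b δ a₁)) := by
    intro a₁ a₂ d₁ d₂ ha hd
    rw [Measure.map_apply hP'c.measurable (measurableSet_Ioc.prod measurableSet_Ioc)]
    refine FLB_sec' (f := fun δ => MM b δ a₁) (g := fun δ => MM b δ a₂)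
      (hP'c.measurable (measurableSet_Ioc.prod measurableSet_Ioc)) ?_ ?_ hd.le ?_ ?_
    · simp only [MM]; fun_prop
    · simp only [MM]; fun_prop
    · intro δ
      exact (MM_mono h δ).monotone ha.le
    · intro θ δ
      rw [mem_preimage, mem_prod]
      simp only [hP']
      have hth := th_spec h δ θ
      have hm := MM_mono h δ
      constructor
      · rintro ⟨⟨h1, h2⟩, h3⟩
        refine ⟨h3, ?_, ?_⟩
        · have := hm h1; rw [hth] at this; exact this
        · have := hm.monotone h2; rw [hth] at this; exact this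
      · rintro ⟨h3, h1, h2⟩
        refine ⟨⟨?_, ?_⟩, h3⟩
        · rw [← hth] at h1; exact hm.lt_iff_lt.mp h1
        · rw [← hth] at h2; exact hm.le_iff_le.mp h2
  have hnu : ∀ a₁ a₂ d₁ d₂ : ℝ, a₁ < a₂ → d₁ < d₂ →
      Measure.map R volume (Ioc a₁ a₂ ×ˢ Ioc d₁ d₂) =
        ENNReal.ofReal (∫ x in a₁..a₂, (DD b x d₂ - DD b x d₁)) := by
    intro a₁ a₂ d₁ d₂ ha hd
    rw [Measure.map_apply hRc.measurable (measurableSet_Ioc.prod measurableSet_Ioc)]
    refine FLB_sec (f := fun x => DD b x d₁) (g := fun x => DD b x d₂)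
      (hRc.measurable (measurableSet_Ioc.prod measurableSet_Ioc)) ?_ ?_ ha.le ?_ ?_
    · simp only [DD]; fun_prop
    · simp only [DD]; fun_prop
    · intro x
      exact (DD_mono h x).monotone hd.le
    · intro x y
      rw [mem_preimage, mem_prod]
      have hp := hRp (x, y)
      have hx : x = (R (x, y)).1 := congrArg Prod.fst hp
      have hy : y = DD b (R (x, y)).1 (R (x, y)).2 := congrArg Prod.snd hp
      have hm := DD_mono h x
      rw [← hx] at hy ⊢
      constructor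
      · rintro ⟨h1, h2, h3⟩
        refine ⟨h1, ?_, ?_⟩
        · rw [hy]; exact hm h2
        · rw [hy]; exact hm.monotone h3
      · rintro ⟨h1, h2, h3⟩
        rw [hy] at h2 h3
        exact ⟨h1, hm.lt_iff_lt.mp h2, hm.le_iff_le.mp h3⟩
  have hmn : Measure.map P' volume = Measure.map R volume := by
    apply rect_ext
    · intro a₁ a₂ d₁ d₂ ha hd
      rw [hmu a₁ a₂ d₁ d₂ ha hd]
      exact ENNReal.ofReal_ne_top
    · intro a₁ a₂ d₁ d₂ ha hd
      rw [hmu a₁ a₂ d₁ d₂ ha hd, hnu a₁ a₂ d₁ d₂ ha hd, exact_id h.bc]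
  refine ⟨hcc.measurable, ?_⟩
  have e1 : Measure.map P (Measure.map P' volume) = volume := by
    rw [Measure.map_map hPc.measurable hP'c.measurable]
    have : P ∘ P' = id := funext hPP'
    rw [this, Measure.map_id]
  have e2 : Measure.map P (Measure.map R volume) = Measure.map (gg c) volume := by
    rw [Measure.map_map hPc.measurable hRc.measurable]
    have : P ∘ R = gg c := funext (fun p => hPP' (gg c p))
    rw [this]
  rw [← e2, ← hmn, e1]

theorem gg_mp {b c : ℝ → ℝ} (h : CL b c) : MeasurePreserving (gg b) volume volume :=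
  FLB_c h.symm

end TorD
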