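import Pool.Agent.H51.TD.FLDefs

/-! # FLC: periodic sets

PROOF. Let `A = {x | x.2 ∈ Ik k}`, `T = S ∩ A` (periodic, measurable), `F = Ioc 0 1 ×ˢ univ`, so `Fk k = F ∩ A`. By `lev`, `lev'`, `l`, `r`: `g ⁻¹' A = A` (if `g x ∈ A` then `x = g' (g x) ∈ A`). So
`g ⁻¹' S ∩ Fk k = g ⁻¹' T ∩ F = g ⁻¹' (T ∩ g' ⁻¹' F)` (`g' (g x) = x`), of volume `volume (T ∩ g' ⁻¹' F)` (`mp.measure_preimage`). Let `G = AddSubgroup.zmultiples ((1, 0) : ℝ × ℝ)`, acting by translations. `F` and `g' ⁻¹' F` are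
fundamental domains (`IsAddFundamentalDomain.mk'`: for every `x` there is exactly one `n : ℤ` with `x.1 + n ∈ Ioc 0 1` (`existsUnique_add_zsmul_mem_Ioc`), and `g' (x + n • (1, 0)) = g' x + (n * σ, 0)`, `σ = ± 1`, by induction from `per'`). `T` is invariant
under `G`. `IsAddFundamentalDomain.measure_set_eq` gives `volume (T ∩ g' ⁻¹' F) = volume (T ∩ F) = volume (S ∩ Fk k)`. -/

set_option autoImplicit false

open Topology Filter Set Function MeasureTheory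

namespace TorD

theorem FLC_smul (n : ℤ) : n • ((1 : ℝ), (0 : ℝ)) = ((n : ℝ), 0) := by
  rw [Prod.smul_mk, zsmul_eq_mul, mul_one, smul_zero]

theorem FLC_fd {F : Set (ℝ × ℝ)} (hF : MeasurableSet F)
    (h : ∀ x : ℝ × ℝ, ∃! n : ℤ, x + ((n : ℝ), 0) ∈ F) :
    IsAddFundamentalDomain (AddSubgroup.zmultiples ((1 : ℝ), (0 : ℝ))) F volume := by
  refine IsAddFundamentalDomain.mk' hF.nullMeasurableSet fun x => ?_
  obtain ⟨n, hn, hu⟩ := h x
  refine ⟨⟨n • ((1 : ℝ), (0 : ℝ)), n, rfl⟩, ?_, ?_⟩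
  · show n • ((1 : ℝ), (0 : ℝ)) + x ∈ F
    rw [FLC_smul, add_comm]
    exact hn
  · rintro ⟨v, m, hm⟩ hv
    have hm' : m • ((1 : ℝ), (0 : ℝ)) = v := hm
    have hv' : v + x ∈ F := hv
    rw [← hm', FLC_smul, add_comm] at hv'
    have h1 : m = n := hu m hv'
    apply Subtype.ext
    show v = n • ((1 : ℝ), (0 : ℝ))
    rw [← hm', h1]

theorem FLC_per {g' : ℝ × ℝ → ℝ × ℝ} {σ : ℝ} (h : ∀ x, g' (x + (1, 0)) = g' x + (σ, 0))
    (x : ℝ × ℝ) (n : ℤ) : g' (x + ((n : ℝ), 0)) = g' x + ((n : ℝ) * σ, 0) := by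
  have h0 : ((0 : ℝ), (0 : ℝ)) = 0 := rfl
  induction n using Int.induction_on with
  | zero => rw [Int.cast_zero, zero_mul, h0, add_zero, add_zero]
  | succ i ih =>
    have e1 : x + ((((i : ℤ) + 1 : ℤ) : ℝ), (0 : ℝ)) = (x + (((i : ℤ) : ℝ), 0)) + (1, 0) := by
      ext
      · simp only [Prod.fst_add]
        push_cast
        ring
      · simp only [Prod.snd_add]
        ring
    rw [e1, h, ih]
    ext
    · simp only [Prod.fst_add]
      push_cast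
      ring
    · simp only [Prod.snd_add]
      ring
  | pred i ih =>
    have e1 : x + ((-(i : ℤ) : ℤ) : ℝ) • ((1 : ℝ), (0 : ℝ)) =
        (x + (((-(i : ℤ) - 1 : ℤ) : ℝ), 0)) + (1, 0) := by
      ext
      · simp only [Prod.fst_add, Prod.smul_fst, smul_eq_mul]
        push_cast
        ring
      · simp only [Prod.snd_add, Prod.smul_snd, smul_eq_mul]
        ring
    have e2 : ((-(i : ℤ) : ℤ) : ℝ) • ((1 : ℝ), (0 : ℝ)) = (((-(i : ℤ) : ℤ) : ℝ), 0) := by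
      ext
      · simp only [Prod.smul_fst, smul_eq_mul, mul_one]
      · simp only [Prod.smul_snd, smul_eq_mul, mul_zero]
    rw [e2] at e1
    rw [e1, h] at ih
    have e3 : g' (x + (((-(i : ℤ) - 1 : ℤ) : ℝ), 0)) =
        g' x + (((-(i : ℤ) : ℤ) : ℝ) * σ, 0) - (σ, 0) := by
      rw [← ih]
      abel
    rw [e3]
    ext
    · simp only [Prod.fst_add, Prod.fst_sub]
      push_cast
      ring
    · simp only [Prod.snd_add, Prod.snd_sub]
      ring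

theorem FLC_unique (t : ℝ) : ∃! n : ℤ, t + (n : ℝ) ∈ Ioc (0 : ℝ) 1 := by
  obtain ⟨n, hn, hu⟩ := existsUnique_add_zsmul_mem_Ioc (one_pos : (0 : ℝ) < 1) t 0
  refine ⟨n, ?_, fun m hm => hu m ?_⟩
  · have h1 : t + n • (1 : ℝ) ∈ Ioc (0 : ℝ) (0 + 1) := hn
    rw [zsmul_eq_mul, mul_one, zero_add] at h1
    exact h1
  · show t + m • (1 : ℝ) ∈ Ioc (0 : ℝ) (0 + 1)
    rw [zsmul_eq_mul, mul_one, zero_add]
    exact hm

theorem FLC_unique' {σ : ℝ} (hσ : σ = 1 ∨ σ = -1) (t : ℝ) :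
    ∃! n : ℤ, t + (n : ℝ) * σ ∈ Ioc (0 : ℝ) 1 := by
  obtain ⟨n, hn, hu⟩ := FLC_unique t
  rcases hσ with rfl | rfl
  · refine ⟨n, ?_, fun m hm => hu m ?_⟩
    · show t + (n : ℝ) * 1 ∈ Ioc (0 : ℝ) 1
      rw [mul_one]
      exact hn
    · have hm' : t + (m : ℝ) * 1 ∈ Ioc (0 : ℝ) 1 := hm
      rw [mul_one] at hm'
      exact hm'
  · refine ⟨-n, ?_, fun m hm => ?_⟩
    · show t + ((-n : ℤ) : ℝ) * (-1) ∈ Ioc (0 : ℝ) 1
      have e : t + ((-n : ℤ) : ℝ) * (-1) = t + n := by push_cast; ring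
      rw [e]
      exact hn
    · have hm' : t + (m : ℝ) * (-1) ∈ Ioc (0 : ℝ) 1 := hm
      have e : t + (m : ℝ) * (-1) = t + ((-m : ℤ) : ℝ) := by push_cast; ring
      rw [e] at hm'
      have := hu (-m) hm'
      omega

theorem FLC_inv {T : Set (ℝ × ℝ)} (hp : ∀ x, x + (1, 0) ∈ T ↔ x ∈ T) (n : ℤ) (x : ℝ × ℝ) :
    x + ((n : ℝ), 0) ∈ T ↔ x ∈ T := by
  have h0 : ((0 : ℝ), (0 : ℝ)) = 0 := rfl
  induction n using Int.induction_on with
  | zero => rw [Int.cast_zero, h0, add_zero]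
  | succ i ih =>
    have e1 : x + ((((i : ℤ) + 1 : ℤ) : ℝ), (0 : ℝ)) = (x + (((i : ℤ) : ℝ), 0)) + (1, 0) := by
      ext
      · simp only [Prod.fst_add]
        push_cast
        ring
      · simp only [Prod.snd_add]
        ring
    rw [e1, hp]
    exact ih
  | pred i ih =>
    have e1 : x + (((-(i : ℤ) : ℤ) : ℝ), (0 : ℝ)) =
        (x + (((-(i : ℤ) - 1 : ℤ) : ℝ), 0)) + (1, 0) := by
      ext
      · simp only [Prod.fst_add]
        push_cast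
        ring
      · simp only [Prod.snd_add]
        ring
    rw [e1, hp] at ih
    exact ih

theorem per_meas {σ : ℝ} {g g' : ℝ × ℝ → ℝ × ℝ} (h : AH σ g g') {S : Set (ℝ × ℝ)}
    (hS : MeasurableSet S) (hp : ∀ x, x + (1, 0) ∈ S ↔ x ∈ S) (k : ℕ) :
    volume (g ⁻¹' S ∩ Fk k) = volume (S ∩ Fk k) := by
  set F : Set (ℝ × ℝ) := Ioc (0 : ℝ) 1 ×ˢ univ with hFdef
  set T : Set (ℝ × ℝ) := S ∩ {x | x.2 ∈ Ik k} with hTdef
  have hF : MeasurableSet F := measurableSet_Ioc.prod MeasurableSet.univ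
  have hA : MeasurableSet {x : ℝ × ℝ | x.2 ∈ Ik k} := measurable_snd measurableSet_Icc
  have hT : MeasurableSet T := hS.inter hA
  have hpT : ∀ x, x + (1, 0) ∈ T ↔ x ∈ T := by
    intro x
    have h1 : (x + ((1 : ℝ), (0 : ℝ))).2 = x.2 := by simp
    constructor
    · rintro ⟨h2, h3⟩
      have h4 : (x + ((1 : ℝ), (0 : ℝ))).2 ∈ Ik k := h3
      rw [h1] at h4
      exact ⟨(hp x).1 h2, h4⟩
    · rintro ⟨h2, h3⟩
      refine ⟨(hp x).2 h2, ?_⟩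
      show (x + ((1 : ℝ), (0 : ℝ))).2 ∈ Ik k
      rw [h1]
      exact h3
  have hF1 : IsAddFundamentalDomain (AddSubgroup.zmultiples ((1 : ℝ), (0 : ℝ))) F volume := by
    refine FLC_fd hF fun x => ?_
    obtain ⟨n, hn, hu⟩ := FLC_unique x.1
    refine ⟨n, ⟨hn, mem_univ _⟩, fun m hm => hu m hm.1⟩
  have hF2 : IsAddFundamentalDomain (AddSubgroup.zmultiples ((1 : ℝ), (0 : ℝ))) (g' ⁻¹' F)
      volume := by
    refine FLC_fd (h.gc'.measurable hF) fun x => ?_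
    obtain ⟨n, hn, hu⟩ := FLC_unique' h.sg (g' x).1
    refine ⟨n, ?_, fun m hm => hu m ?_⟩
    · show g' (x + ((n : ℝ), 0)) ∈ F
      rw [FLC_per h.per']
      exact ⟨hn, mem_univ _⟩
    · have hm' : g' (x + ((m : ℝ), 0)) ∈ F := hm
      rw [FLC_per h.per'] at hm'
      exact hm'.1
  have hinv : ∀ v : AddSubgroup.zmultiples ((1 : ℝ), (0 : ℝ)), (fun x => v +ᵥ x) ⁻¹' T = T := by
    rintro ⟨v, m, hm⟩
    have hm' : m • ((1 : ℝ), (0 : ℝ)) = v := hm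
    ext x
    show v + x ∈ T ↔ x ∈ T
    rw [← hm', FLC_smul, add_comm]
    exact FLC_inv hpT m x
  have h1 : g ⁻¹' S ∩ Fk k = g ⁻¹' (T ∩ g' ⁻¹' F) := by
    ext x
    constructor
    · rintro ⟨hx1, hx2, hx3⟩
      refine ⟨⟨hx1, h.lev k x hx3⟩, ?_⟩
      show g' (g x) ∈ F
      rw [h.l]
      exact ⟨hx2, mem_univ _⟩
    · rintro ⟨⟨hx1, hx2⟩, hx3⟩
      have hx3' : g' (g x) ∈ F := hx3
      have hx4 := h.lev' k (g x) hx2
      rw [h.l] at hx3' hx4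
      exact ⟨hx1, hx3'.1, hx4⟩
  have h2 : S ∩ Fk k = T ∩ F := by
    ext x
    constructor
    · rintro ⟨hx1, hx2, hx3⟩
      exact ⟨⟨hx1, hx3⟩, hx2, mem_univ _⟩
    · rintro ⟨⟨hx1, hx2⟩, hx3, _⟩
      exact ⟨hx1, hx3, hx2⟩
  rw [h1, h2, h.mp.measure_preimage (hT.inter (h.gc'.measurable hF)).nullMeasurableSet]
  exact hF2.measure_set_eq hF1 hT hinv

end TorD
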