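import Pool.Agent.H51.TD.FLDefs

/-! # FLD: the polar map and the map of the disc

PROOF. `EE_norm`: `‖exp (i t)‖ = 1` for real `t` (`Complex.norm_exp_ofReal_mul_I`), `1 + x.2 > 0`. `EE_one`: periodicity of `exp`. `EE_eq_iff`: equal norms give equal second coordinates, then `exp` (`Complex.exp_eq_exp_iff_exists_int`).
`EE_pol`: for `z ≠ 0`: `z = ‖z‖ exp (i arg z)` (`Complex.norm_mul_exp_arg_mul_I`), and `1 + (‖z‖⁻¹ - 1) = ‖z‖⁻¹`.
`FF_EE`: `x.2 ≥ 0`, `z = EE x ≠ 0`; `y = (arg z / (2π), ‖z‖⁻¹ - 1)` satisfies `EE y = z` (`EE_pol`), so by `EE_eq_iff` `y = x + (n, 0)`, `n` an integer, and `g y = g x + (n σ, 0)` (induction from `per`), so `EE (g y) = EE (g x)`.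
`FF_inv`: `z = 0` trivial; `z = EE x` with `x.2 ≥ 0` (`EE_pol`, `‖z‖ ≤ 1`), `(g x).2 ≥ 0` (`exists_Ik`, `lev`), apply `FF_EE` twice. `FF_maps`: the same and `EE_norm`.
`FF_cont`, at `z₀ ≠ 0` in the disc: for `z` near `z₀` (with `z / z₀` in the slit plane) let `Y z = ((arg z₀ + arg (z / z₀)) / (2π), ‖z‖⁻¹ - 1)`, continuous at `z₀` (`Complex.continuousAt_arg`, `z₀ / z₀ = 1`), `EE (Y z) = z` (as `EE_pol`, multiply the
polar forms of `z₀` and `z / z₀`), so `FF g z = EE (g (Y z))` for `z` in the disc (`FF_EE`; second coordinate `≥ 0`), and `EE` is continuous where `1 + x.2 ≠ 0`; note `(g (Y z₀)).2 ≥ 0`.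
At `0`: for `0 < ‖z‖ ≤ 1`: `x.2 = ‖z‖⁻¹ - 1 ∈ Ik k`, `(g x).2 ∈ Ik k`, so `(g x).2 ≥ x.2 - 1/2` and `‖FF g z‖ = (1 + (g x).2)⁻¹ ≤ (1/2 + x.2)⁻¹ = (‖z‖⁻¹ - 1/2)⁻¹ ≤ 2 ‖z‖`. -/

set_option autoImplicit false

open Topology Filter Set Function MeasureTheory

namespace TorD

theorem FLD_exp (t : ℝ) : ‖Complex.exp (2 * Real.pi * t * Complex.I)‖ = 1 := by
  have h : (2 * Real.pi * t * Complex.I : ℂ) = ((2 * Real.pi * t : ℝ) : ℂ) * Complex.I := by
    push_cast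
    ring
  rw [h, Complex.norm_exp_ofReal_mul_I]

theorem EE_norm {x : ℝ × ℝ} (h : 0 ≤ x.2) : ‖EE x‖ = (1 + x.2)⁻¹ := by
  unfold EE
  have h1 : ((1 : ℂ) + x.2) = ((1 + x.2 : ℝ) : ℂ) := by push_cast; ring
  rw [norm_div, FLD_exp, h1, Complex.norm_real, Real.norm_of_nonneg (by linarith), one_div]

theorem EE_ne {x : ℝ × ℝ} (h : 0 ≤ x.2) : EE x ≠ 0 := by
  rw [← norm_ne_zero_iff, EE_norm h]
  positivity

theorem FLD_per (t : ℝ) (n : ℤ) : Complex.exp (2 * Real.pi * ((t + n : ℝ) : ℂ) * Complex.I) =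
    Complex.exp (2 * Real.pi * t * Complex.I) := by
  rw [Complex.exp_eq_exp_iff_exists_int]
  exact ⟨n, by push_cast; ring⟩

theorem EE_one (x : ℝ × ℝ) (n : ℤ) : EE (x + ((n : ℝ), 0)) = EE x := by
  unfold EE
  rw [Prod.fst_add, Prod.snd_add, FLD_per, add_zero]

theorem EE_eq_iff {x y : ℝ × ℝ} (hx : 0 ≤ x.2) (hy : 0 ≤ y.2) :
    EE x = EE y ↔ ∃ n : ℤ, y = x + ((n : ℝ), 0) := by
  constructor
  · intro h
    have h1 : (1 + x.2)⁻¹ = (1 + y.2)⁻¹ := by rw [← EE_norm hx, ← EE_norm hy, h]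
    have h2 : x.2 = y.2 := by
      have := inv_inj.1 h1
      linarith
    have h3 : Complex.exp (2 * Real.pi * x.1 * Complex.I) =
        Complex.exp (2 * Real.pi * y.1 * Complex.I) := by
      unfold EE at h
      rw [← h2] at h
      have h4 : ((1 : ℂ) + x.2) ≠ 0 := by
        have : (1 + x.2 : ℝ) ≠ 0 := by positivity
        exact_mod_cast this
      exact (div_left_inj' h4).1 h
    obtain ⟨n, hn⟩ := Complex.exp_eq_exp_iff_exists_int.1 h3
    refine ⟨-n, Prod.ext ?_ (by simp [h2])⟩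
    have hpi : (2 * Real.pi * Complex.I : ℂ) ≠ 0 := Complex.two_pi_I_ne_zero
    have h5 : (x.1 : ℂ) * (2 * Real.pi * Complex.I) = ((y.1 : ℂ) + n) * (2 * Real.pi * Complex.I) := by
      linear_combination hn
    have h6 := mul_right_cancel₀ hpi h5
    have h7 : x.1 = y.1 + n := by exact_mod_cast h6
    rw [Prod.fst_add]
    push_cast
    linarith
  · rintro ⟨n, rfl⟩
    exact (EE_one x n).symm

theorem EE_pol {z : ℂ} (hz : z ≠ 0) : EE (Complex.arg z / (2 * Real.pi), ‖z‖⁻¹ - 1) = z := by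
  unfold EE
  have h1 : (2 * Real.pi * ((Complex.arg z / (2 * Real.pi) : ℝ) : ℂ) * Complex.I) =
      Complex.arg z * Complex.I := by
    have : (Real.pi : ℂ) ≠ 0 := by exact_mod_cast Real.pi_ne_zero
    push_cast
    field_simp
  have h2 : ((1 : ℂ) + ((‖z‖⁻¹ - 1 : ℝ) : ℂ)) = (‖z‖ : ℂ)⁻¹ := by
    push_cast
    ring
  rw [h1, h2, div_inv_eq_mul, mul_comm, Complex.norm_mul_exp_arg_mul_I]

theorem EE_cont {x : ℝ × ℝ} (h : 0 ≤ x.2) : ContinuousAt EE x := by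
  unfold EE
  have h4 : ((1 : ℂ) + x.2) ≠ 0 := by
    have : (1 + x.2 : ℝ) ≠ 0 := by positivity
    exact_mod_cast this
  refine ContinuousAt.div ?_ ?_ h4
  · exact Continuous.continuousAt (by fun_prop)
  · exact Continuous.continuousAt (by fun_prop)

theorem AH.int {σ : ℝ} {g g' : ℝ × ℝ → ℝ × ℝ} (h : AH σ g g') (x : ℝ × ℝ) (n : ℤ) :
    g (x + ((n : ℝ), 0)) = g x + ((n : ℝ) * σ, 0) := by
  induction n using Int.induction_on with
  | zero =>
    have e : ((0:ℝ),(0:ℝ)) = (0 : ℝ × ℝ) := rfl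
    simp [e]
  | succ i ih =>
    have h1 : x + (((i + 1 : ℤ) : ℝ), (0 : ℝ)) = x + (((i : ℤ) : ℝ), 0) + (1, 0) := by
      apply Prod.ext
      · simp only [Prod.fst_add]
        push_cast
        ring
      · simp
    rw [h1, h.per, ih]
    apply Prod.ext
    · simp only [Prod.fst_add]
      push_cast
      ring
    · simp
  | pred i ih =>
    have h1 : x + (((-i : ℤ) : ℝ), (0 : ℝ)) = x + (((-i - 1 : ℤ) : ℝ), 0) + (1, 0) := by
      apply Prod.ext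
      · simp only [Prod.fst_add]
        push_cast
        ring
      · simp
    rw [h1, h.per] at ih
    have h2 : g (x + (((-i - 1 : ℤ) : ℝ), 0)) = g x + (((-i : ℤ) : ℝ) * σ, 0) - (σ, 0) :=
      eq_sub_of_add_eq ih
    rw [h2]
    apply Prod.ext
    · simp only [Prod.fst_add, Prod.fst_sub]
      push_cast
      ring
    · simp

theorem AH.pos {σ : ℝ} {g g' : ℝ × ℝ → ℝ × ℝ} (h : AH σ g g') {x : ℝ × ℝ} (hx : 0 ≤ x.2) :
    0 ≤ (g x).2 ∧ x.2 - 1 / 2 ≤ (g x).2 := by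
  obtain ⟨k, hk⟩ := exists_Ik hx
  have h1 := Ik_iff.1 (h.lev k x hk)
  have h2 := Ik_iff.1 hk
  have h3 : (0 : ℝ) ≤ k := Nat.cast_nonneg k
  constructor <;> linarith [h1.1, h2.2]

theorem FLD_nn {z : ℂ} (hz : z ≠ 0) (h1 : ‖z‖ ≤ 1) : 0 ≤ ‖z‖⁻¹ - 1 := by
  have h2 : 0 < ‖z‖ := norm_pos_iff.2 hz
  have := (one_le_inv₀ h2).2 h1
  linarith

theorem FLD_le {x : ℝ × ℝ} (hx : 0 ≤ x.2) : ‖EE x‖ ≤ 1 := by
  rw [EE_norm hx]
  exact inv_le_one_of_one_le₀ (by linarith)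

theorem FF_EE {σ : ℝ} {g g' : ℝ × ℝ → ℝ × ℝ} (h : AH σ g g') {x : ℝ × ℝ} (hx : 0 ≤ x.2) :
    FF g (EE x) = EE (g x) := by
  have hne := EE_ne hx
  unfold FF
  rw [if_neg hne]
  set y : ℝ × ℝ := (Complex.arg (EE x) / (2 * Real.pi), ‖EE x‖⁻¹ - 1) with hy
  have hy2 : 0 ≤ y.2 := FLD_nn hne (FLD_le hx)
  have h1 : EE y = EE x := EE_pol hne
  obtain ⟨n, hn⟩ := (EE_eq_iff hx hy2).1 h1.symm
  rw [hn, h.int]
  rcases h.sg with rfl | rfl
  · rw [mul_one, EE_one]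
  · have h2 : (((n : ℝ) * -1, (0 : ℝ)) : ℝ × ℝ) = (((-n : ℤ) : ℝ), 0) := by
      push_cast
      rw [mul_neg, mul_one]
    rw [h2, EE_one]

theorem FF_maps {σ : ℝ} {g g' : ℝ × ℝ → ℝ × ℝ} (h : AH σ g g') :
    MapsTo (FF g) (Metric.closedBall 0 1) (Metric.closedBall 0 1) := by
  intro z hz
  rw [mem_closedBall_zero_iff] at hz ⊢
  by_cases hz0 : z = 0
  · subst hz0
    simp [FF]
  · unfold FF
    rw [if_neg hz0]
    exact FLD_le (h.pos (x := (Complex.arg z / (2 * Real.pi), ‖z‖⁻¹ - 1)) (FLD_nn hz0 hz)).1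

/-- local branch of the polar coordinates -/
noncomputable def FLD_Y (z₀ z : ℂ) : ℝ × ℝ :=
  ((Complex.arg z₀ + Complex.arg (z / z₀)) / (2 * Real.pi), ‖z‖⁻¹ - 1)

theorem FLD_EY {z₀ z : ℂ} (h0 : z₀ ≠ 0) (hz : z ≠ 0) : EE (FLD_Y z₀ z) = z := by
  unfold EE FLD_Y
  have h1 : (2 * Real.pi * (((Complex.arg z₀ + Complex.arg (z / z₀)) / (2 * Real.pi) : ℝ) : ℂ) *
      Complex.I) = Complex.arg z₀ * Complex.I + Complex.arg (z / z₀) * Complex.I := by
    have : (Real.pi : ℂ) ≠ 0 := by exact_mod_cast Real.pi_ne_zero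
    push_cast
    field_simp
  have h2 : ((1 : ℂ) + ((‖z‖⁻¹ - 1 : ℝ) : ℂ)) = (‖z‖ : ℂ)⁻¹ := by
    push_cast
    ring
  have h3 : (‖z‖ : ℂ) = (‖z₀‖ : ℂ) * (‖z / z₀‖ : ℂ) := by
    rw [← Complex.ofReal_mul, ← norm_mul, mul_div_cancel₀ _ h0]
  simp only
  rw [h1, h2, div_inv_eq_mul, Complex.exp_add, h3]
  calc Complex.exp (Complex.arg z₀ * Complex.I) * Complex.exp (Complex.arg (z / z₀) * Complex.I) *
        ((‖z₀‖ : ℂ) * (‖z / z₀‖ : ℂ))
      = ((‖z₀‖ : ℂ) * Complex.exp (Complex.arg z₀ * Complex.I)) *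
        ((‖z / z₀‖ : ℂ) * Complex.exp (Complex.arg (z / z₀) * Complex.I)) := by ring
    _ = z₀ * (z / z₀) := by
        rw [Complex.norm_mul_exp_arg_mul_I, Complex.norm_mul_exp_arg_mul_I]
    _ = z := mul_div_cancel₀ _ h0

theorem FLD_Yc {z₀ : ℂ} (h0 : z₀ ≠ 0) : ContinuousAt (FLD_Y z₀) z₀ := by
  unfold FLD_Y
  have h1 : ContinuousAt (fun z : ℂ => Complex.arg (z / z₀)) z₀ := by
    have h2 : z₀ / z₀ ∈ Complex.slitPlane := by
      rw [div_self h0]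
      exact Complex.one_mem_slitPlane
    have h3 : ContinuousAt (fun z : ℂ => z / z₀) z₀ := by fun_prop
    exact ContinuousAt.comp (f := fun z : ℂ => z / z₀) (g := Complex.arg)
      (Complex.continuousAt_arg h2) h3
  refine ContinuousAt.prodMk ?_ ?_
  · exact (continuousAt_const.add h1).div_const _
  · exact (continuous_norm.continuousAt.inv₀ (norm_ne_zero_iff.2 h0)).sub continuousAt_const

theorem FF_cont {σ : ℝ} {g g' : ℝ × ℝ → ℝ × ℝ} (h : AH σ g g') :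
    ContinuousOn (FF g) (Metric.closedBall 0 1) := by
  intro z₀ hz₀
  have hz₀' := mem_closedBall_zero_iff.1 hz₀
  by_cases h0 : z₀ = 0
  · subst h0
    have hval : FF g 0 = 0 := by simp [FF]
    rw [ContinuousWithinAt, hval]
    rw [tendsto_zero_iff_norm_tendsto_zero]
    refine squeeze_zero_norm' (a := fun z : ℂ => 2 * ‖z‖) ?_ ?_
    · filter_upwards [self_mem_nhdsWithin] with z hz
      rw [norm_norm]
      have hz1 := mem_closedBall_zero_iff.1 hz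
      by_cases hz0 : z = 0
      · subst hz0
        simp [FF]
      · unfold FF
        rw [if_neg hz0]
        have hnn := FLD_nn hz0 hz1
        have h1 := h.pos (x := (Complex.arg z / (2 * Real.pi), ‖z‖⁻¹ - 1)) hnn
        rw [EE_norm h1.1]
        have hzp : 0 < ‖z‖ := norm_pos_iff.2 hz0
        have h2 : ‖z‖⁻¹ - 1 / 2 ≤ 1 + (g (Complex.arg z / (2 * Real.pi), ‖z‖⁻¹ - 1)).2 := by
          have h3 := h1.2
          simp only at h3
          linarith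
        have h4 : (2 * ‖z‖)⁻¹ ≤ 1 + (g (Complex.arg z / (2 * Real.pi), ‖z‖⁻¹ - 1)).2 := by
          rw [mul_inv]
          linarith
        calc (1 + (g (Complex.arg z / (2 * Real.pi), ‖z‖⁻¹ - 1)).2)⁻¹ ≤ ((2 * ‖z‖)⁻¹)⁻¹ :=
              inv_anti₀ (by positivity) h4
          _ = 2 * ‖z‖ := inv_inv _
    · have h1 : Tendsto (fun z : ℂ => 2 * ‖z‖) (𝓝 0) (𝓝 0) := by
        have h2 : Continuous fun z : ℂ => 2 * ‖z‖ := by fun_prop
        have h3 := h2.tendsto 0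
        simpa using h3
      exact h1.mono_left nhdsWithin_le_nhds
  · have hY : FLD_Y z₀ z₀ = (Complex.arg z₀ / (2 * Real.pi), ‖z₀‖⁻¹ - 1) := by
      unfold FLD_Y
      rw [div_self h0, Complex.arg_one, add_zero]
    have hYnn : 0 ≤ (FLD_Y z₀ z₀).2 := FLD_nn h0 hz₀'
    have hc : ContinuousAt (fun z => EE (g (FLD_Y z₀ z))) z₀ := by
      have h1 : ContinuousAt EE (g (FLD_Y z₀ z₀)) := EE_cont (h.pos hYnn).1
      have h2 : ContinuousAt (fun z => g (FLD_Y z₀ z)) z₀ :=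
        ContinuousAt.comp (f := FLD_Y z₀) (g := g) h.gc.continuousAt (FLD_Yc h0)
      exact ContinuousAt.comp (f := fun z => g (FLD_Y z₀ z)) (g := EE) h1 h2
    have heq : ∀ z ∈ Metric.closedBall (0 : ℂ) 1, z ≠ 0 → FF g z = EE (g (FLD_Y z₀ z)) := by
      intro z hz hz0
      have hz1 := mem_closedBall_zero_iff.1 hz
      have h1 : 0 ≤ (FLD_Y z₀ z).2 := FLD_nn hz0 hz1
      have h2 := FF_EE h h1
      rwa [FLD_EY h0 hz0] at h2
    have hev : (fun z => EE (g (FLD_Y z₀ z))) =ᶠ[𝓝[Metric.closedBall 0 1] z₀] FF g := by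
      have h1 : ∀ᶠ z in 𝓝[Metric.closedBall 0 1] z₀, z ≠ 0 :=
        mem_nhdsWithin_of_mem_nhds (isOpen_ne.mem_nhds h0)
      filter_upwards [h1, self_mem_nhdsWithin] with z hz1 hz2
      exact (heq z hz2 hz1).symm
    exact hc.continuousWithinAt.congr_of_eventuallyEq hev.symm (heq z₀ hz₀ h0)

end TorD
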