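import Mathlib

/-!
# Filling of the disc: definitions (block FIL of MP_19db4f_an, helper71)

`CL b c`: `b`, `c` are mutually inverse increasing homeomorphisms of the line commuting with the translation by one.
`gg b (θ, δ) = (θ', δ')` where `θ = (b (θ' + δ) + b (θ' - δ)) / 2`, `δ' = (b (θ' + δ) - b (θ' - δ)) / 2`.
`EE (θ, δ) = exp (2 π i θ) / (1 + δ)`: the half plane `δ ≥ 0` covers the closed unit disc minus the origin.
-/

set_option autoImplicit false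

open Topology Filter Set Function MeasureTheory

namespace TorD

noncomputable section

structure CL (b c : ℝ → ℝ) : Prop where
  bc : Continuous b
  cc : Continuous c
  cb : ∀ t, c (b t) = t
  bcb : ∀ t, b (c t) = t
  bm : StrictMono b
  cm : StrictMono c
  b1 : ∀ t, b (t + 1) = b t + 1
  c1 : ∀ t, c (t + 1) = c t + 1

theorem CL.symm {b c : ℝ → ℝ} (h : CL b c) : CL c b :=
  ⟨h.cc, h.bc, h.bcb, h.cb, h.cm, h.bm, h.c1, h.b1⟩

def MM (b : ℝ → ℝ) (δ x : ℝ) : ℝ := (b (x + δ) + b (x - δ)) / 2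

def DD (b : ℝ → ℝ) (x δ : ℝ) : ℝ := (b (x + δ) - b (x - δ)) / 2

/-- the solution `x` of `MM b δ x = θ` -/
def th (b : ℝ → ℝ) (δ θ : ℝ) : ℝ := Function.invFun (MM b δ) θ

def gg (b : ℝ → ℝ) (p : ℝ × ℝ) : ℝ × ℝ := (th b p.2 p.1, DD b (th b p.2 p.1) p.2)

/-- the strip number `k` -/
def Ik (k : ℕ) : Set ℝ := Icc ((k : ℝ) / 2) (((k : ℝ) + 1) / 2)

/-- fundamental domain of the strip number `k` -/
def Fk (k : ℕ) : Set (ℝ × ℝ) := Ioc (0 : ℝ) 1 ×ˢ Ik k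

/-- homeomorphisms of the plane commuting (`σ = 1`) or anticommuting (`σ = -1`) with the translation,
preserving the strips and the area -/
structure AH (σ : ℝ) (g g' : ℝ × ℝ → ℝ × ℝ) : Prop where
  sg : σ = 1 ∨ σ = -1
  gc : Continuous g
  gc' : Continuous g'
  l : ∀ x, g' (g x) = x
  r : ∀ x, g (g' x) = x
  per : ∀ x, g (x + (1, 0)) = g x + (σ, 0)
  per' : ∀ x, g' (x + (1, 0)) = g' x + (σ, 0)
  lev : ∀ (k : ℕ) x, x.2 ∈ Ik k → (g x).2 ∈ Ik k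
  lev' : ∀ (k : ℕ) x, x.2 ∈ Ik k → (g' x).2 ∈ Ik k
  zero : ∀ θ, (g (θ, 0)).2 = 0
  zero' : ∀ θ, (g' (θ, 0)).2 = 0
  mp : MeasurePreserving g volume volume

def EE (x : ℝ × ℝ) : ℂ := Complex.exp (2 * Real.pi * x.1 * Complex.I) / (1 + x.2)

open Classical in
/-- the map of the disc induced by `g` -/
def FF (g : ℝ × ℝ → ℝ × ℝ) (z : ℂ) : ℂ :=
  if z = 0 then 0 else EE (g (Complex.arg z / (2 * Real.pi), ‖z‖⁻¹ - 1))

theorem Ik_iff {k : ℕ} {t : ℝ} : t ∈ Ik k ↔ (k : ℝ) / 2 ≤ t ∧ t ≤ ((k : ℝ) + 1) / 2 := Iff.rfl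

theorem exists_Ik {t : ℝ} (h : 0 ≤ t) : ∃ k : ℕ, t ∈ Ik k := by
  refine ⟨⌊2 * t⌋₊, ?_⟩
  have h1 := Nat.floor_le (show 0 ≤ 2 * t by linarith)
  have h2 := Nat.lt_floor_add_one (2 * t)
  rw [Ik_iff]
  constructor <;> linarith

end

end TorD
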