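import Pool.Agent.H51.TD.FLC
import Pool.Agent.H51.TD.FLD

/-! # FLE: the map of the disc is nonwandering

PROOF. `FF g` is measurable (`Measurable.ite`, `Complex.measurable_arg`, norm, inverse, `g` continuous, `EE` measurable: quotient of measurable functions). For `k` let `ν = (volume.restrict (Fk k)).map EE`, a finite measure on `ℂ`.
It is preserved by `FF g`: for measurable `A ⊆ ℂ`: `ν (FF g ⁻¹' A) = volume (EE ⁻¹' (FF g ⁻¹' A) ∩ Fk k) = volume (g ⁻¹' (EE ⁻¹' A) ∩ Fk k)` (on `Fk k` the second coordinate is `≥ 0`: `FF_EE`) `= volume (EE ⁻¹' A ∩ Fk k) = ν A` by `per_meas`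
(`EE ⁻¹' A` is periodic by `EE_one` with `n = 1`). Let `U` be as in the statement. `U` has a point `z ≠ 0` with `‖z‖ < 1`: `U` is open, so `U ⊆ interior (closedBall 0 1) = ball 0 1`, and `{0}` is not open. The set `V = {x | 0 < x.2 ∧ EE x ∈ U}` is open (`EE_cont` on the open set `0 < x.2`), periodic,
nonempty (`EE_pol`). So `V ∩ (Ioo 0 1 ×ˢ univ)` is open and nonempty: translate a point of `V` so that `x.1 ∈ Ioc 0 1`, if `x.1 = 1` move it a little to the left. Hence it has positive volume (`IsOpen.measure_pos`), and it is covered by the `Fk k ∩ EE ⁻¹' U` (`exists_Ik`),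
so for some `k`: `volume (EE ⁻¹' U ∩ Fk k) ≠ 0`, i.e. `ν U ≠ 0` (`measure_iUnion_null` by contradiction). Poincare recurrence (`MeasurePreserving.conservative`, `Conservative.exists_mem_iterate_mem`, or `MeasurePreserving.exists_mem_iterate_mem`) gives `p ∈ U`, `n ≠ 0` with `(FF g)^[n] p ∈ U`. -/

set_option autoImplicit false

open Topology Filter Set Function MeasureTheory

namespace TorD

theorem FLE_EE_meas : Measurable EE := by
  unfold EE
  fun_prop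

theorem FLE_FF_meas {g : ℝ × ℝ → ℝ × ℝ} (hg : Continuous g) : Measurable (FF g) := by
  classical
  have h1 : Measurable fun z : ℂ => ((Complex.arg z / (2 * Real.pi), ‖z‖⁻¹ - 1) : ℝ × ℝ) :=
    (Complex.measurable_arg.div_const _).prodMk (measurable_norm.inv.sub_const _)
  have h2 : Measurable fun z : ℂ => EE (g (Complex.arg z / (2 * Real.pi), ‖z‖⁻¹ - 1)) :=
    FLE_EE_meas.comp (hg.measurable.comp h1)
  have h3 : MeasurableSet {z : ℂ | z = 0} := measurableSet_singleton 0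
  have h4 : FF g = fun z : ℂ => if z = 0 then 0 else
      EE (g (Complex.arg z / (2 * Real.pi), ‖z‖⁻¹ - 1)) := by
    funext z
    unfold FF
    split_ifs <;> rfl
  rw [h4]
  exact Measurable.ite h3 measurable_const h2

theorem FLE_Fk_meas (k : ℕ) : MeasurableSet (Fk k) := measurableSet_Ioc.prod measurableSet_Icc

theorem FLE_fin (k : ℕ) : IsFiniteMeasure (volume.restrict (Fk k)) := by
  refine ⟨?_⟩
  rw [Measure.restrict_apply_univ]
  unfold Fk Ik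
  rw [Measure.volume_eq_prod, Measure.prod_prod, Real.volume_Ioc, Real.volume_Icc]
  exact ENNReal.mul_lt_top ENNReal.ofReal_lt_top ENNReal.ofReal_lt_top

theorem FLE_nu {A : Set ℂ} (hA : MeasurableSet A) (k : ℕ) :
    ((volume.restrict (Fk k)).map EE) A = volume (EE ⁻¹' A ∩ Fk k) := by
  rw [Measure.map_apply FLE_EE_meas hA, Measure.restrict_apply (FLE_EE_meas hA)]

theorem FF_mp {σ : ℝ} {g g' : ℝ × ℝ → ℝ × ℝ} (h : AH σ g g') (k : ℕ) :
    MeasurePreserving (FF g) ((volume.restrict (Fk k)).map EE) ((volume.restrict (Fk k)).map EE) := by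
  refine ⟨FLE_FF_meas h.gc, ?_⟩
  refine Measure.ext fun A hA => ?_
  rw [Measure.map_apply (FLE_FF_meas h.gc) hA, FLE_nu (FLE_FF_meas h.gc hA), FLE_nu hA]
  have h1 : EE ⁻¹' (FF g ⁻¹' A) ∩ Fk k = g ⁻¹' (EE ⁻¹' A) ∩ Fk k := by
    ext x
    constructor
    · rintro ⟨hx, hxk⟩
      refine ⟨?_, hxk⟩
      have h2 : 0 ≤ x.2 := le_trans (by positivity) (Ik_iff.1 hxk.2).1
      have hx' : FF g (EE x) ∈ A := hx
      rw [FF_EE h h2] at hx'
      exact hx'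
    · rintro ⟨hx, hxk⟩
      refine ⟨?_, hxk⟩
      have h2 : 0 ≤ x.2 := le_trans (by positivity) (Ik_iff.1 hxk.2).1
      show FF g (EE x) ∈ A
      rw [FF_EE h h2]
      exact hx
  rw [h1]
  refine per_meas h (FLE_EE_meas hA) (fun x => ?_) k
  have h3 := EE_one x 1
  rw [Int.cast_one] at h3
  rw [mem_preimage, mem_preimage, h3]

theorem FF_nonw {σ : ℝ} {g g' : ℝ × ℝ → ℝ × ℝ} (h : AH σ g g') {U : Set ℂ} (hU : IsOpen U)
    (hn : U.Nonempty) (hs : U ⊆ Metric.closedBall 0 1) :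
    ∃ n : ℕ, 1 ≤ n ∧ ∃ p ∈ U, (FF g)^[n] p ∈ U := by
  have hUm : MeasurableSet U := hU.measurableSet
  -- the set upstairs
  have hVo : IsOpen ({x : ℝ × ℝ | 0 < x.2} ∩ EE ⁻¹' U) := by
    have h1 : IsOpen {x : ℝ × ℝ | 0 < x.2} := isOpen_lt continuous_const continuous_snd
    have h2 : ContinuousOn EE {x : ℝ × ℝ | 0 < x.2} := fun x hx =>
      (EE_cont (le_of_lt hx)).continuousWithinAt
    exact h2.isOpen_inter_preimage h1 hU
  obtain ⟨z, hzU, hz0⟩ := (dense_compl_singleton (0 : ℂ)).inter_open_nonempty U hU hn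
  have hz0' : z ≠ 0 := hz0
  have hz1 : ‖z‖ < 1 := by
    have h1 : U ⊆ interior (Metric.closedBall (0 : ℂ) 1) := interior_maximal hs hU
    rw [interior_closedBall (0 : ℂ) one_ne_zero] at h1
    exact mem_ball_zero_iff.1 (h1 hzU)
  have hzn : 0 < ‖z‖ := norm_pos_iff.2 hz0'
  have hinv : 1 < ‖z‖⁻¹ := (one_lt_inv₀ hzn).2 hz1
  -- a point of the set in the fundamental domain
  obtain ⟨y, hy1, hy2, hyV⟩ : ∃ y : ℝ × ℝ, 0 ≤ y.1 ∧ y.1 < 1 ∧
      y ∈ {x : ℝ × ℝ | 0 < x.2} ∩ EE ⁻¹' U := by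
    refine ⟨(Complex.arg z / (2 * Real.pi), ‖z‖⁻¹ - 1) +
      (((-⌊Complex.arg z / (2 * Real.pi)⌋ : ℤ) : ℝ), 0), ?_, ?_, ?_, ?_⟩
    · have h1 := Int.floor_le (Complex.arg z / (2 * Real.pi))
      show 0 ≤ Complex.arg z / (2 * Real.pi) + ((-⌊Complex.arg z / (2 * Real.pi)⌋ : ℤ) : ℝ)
      push_cast
      linarith
    · have h1 := Int.lt_floor_add_one (Complex.arg z / (2 * Real.pi))
      show Complex.arg z / (2 * Real.pi) + ((-⌊Complex.arg z / (2 * Real.pi)⌋ : ℤ) : ℝ) < 1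
      push_cast
      linarith
    · show 0 < ‖z‖⁻¹ - 1 + 0
      linarith
    · rw [mem_preimage, EE_one, EE_pol hz0']
      exact hzU
  have hVne : (({x : ℝ × ℝ | 0 < x.2} ∩ EE ⁻¹' U) ∩ (Ioo (0 : ℝ) 1 ×ˢ univ)).Nonempty := by
    have h1 : Tendsto (fun ε : ℝ => ((y.1 + ε, y.2) : ℝ × ℝ)) (𝓝[>] 0) (𝓝 y) := by
      have h2 : Continuous fun ε : ℝ => ((y.1 + ε, y.2) : ℝ × ℝ) := by fun_prop
      have h3 := h2.tendsto 0
      rw [add_zero] at h3
      exact h3.mono_left nhdsWithin_le_nhds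
    have h4 := h1.eventually (hVo.mem_nhds hyV)
    have h5 : ∀ᶠ ε in 𝓝[>] (0 : ℝ), ε ∈ Ioo 0 (1 - y.1) := Ioo_mem_nhdsGT (by linarith)
    obtain ⟨ε, h6, h7⟩ := (h4.and h5).exists
    refine ⟨(y.1 + ε, y.2), h6, ⟨?_, ?_⟩, mem_univ _⟩
    · show 0 < y.1 + ε
      linarith [h7.1]
    · show y.1 + ε < 1
      linarith [h7.2]
  have hVo2 : IsOpen (({x : ℝ × ℝ | 0 < x.2} ∩ EE ⁻¹' U) ∩ (Ioo (0 : ℝ) 1 ×ˢ univ)) :=
    hVo.inter (isOpen_Ioo.prod isOpen_univ)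
  have hpos : 0 < volume (({x : ℝ × ℝ | 0 < x.2} ∩ EE ⁻¹' U) ∩ (Ioo (0 : ℝ) 1 ×ˢ univ)) :=
    hVo2.measure_pos volume hVne
  have hk : ∃ k : ℕ, ((volume.restrict (Fk k)).map EE) U ≠ 0 := by
    by_contra hcon
    push Not at hcon
    have h1 : volume (⋃ k : ℕ, EE ⁻¹' U ∩ Fk k) = 0 := by
      refine measure_iUnion_null fun k => ?_
      rw [← FLE_nu hUm k]
      exact hcon k
    have h2 : (({x : ℝ × ℝ | 0 < x.2} ∩ EE ⁻¹' U) ∩ (Ioo (0 : ℝ) 1 ×ˢ univ)) ⊆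
        ⋃ k : ℕ, EE ⁻¹' U ∩ Fk k := by
      rintro x ⟨⟨hx1, hx2⟩, hx3, -⟩
      obtain ⟨k, hk⟩ := exists_Ik (le_of_lt hx1)
      exact mem_iUnion.2 ⟨k, hx2, Ioo_subset_Ioc_self hx3, hk⟩
    have h3 := measure_mono_null h2 h1
    rw [h3] at hpos
    exact lt_irrefl _ hpos
  obtain ⟨k, hk⟩ := hk
  have := FLE_fin k
  obtain ⟨p, hp, m, hm, hpm⟩ := (FF_mp h k).exists_mem_iterate_mem hUm.nullMeasurableSet hk
  exact ⟨m, Nat.one_le_iff_ne_zero.2 hm, p, hp, hpm⟩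

end TorD
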