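import Pool.Agent.H51.TD.FLD

/-! # FLG: lifts of homeomorphisms of the circle

PROOF. `lift1`: `θ ↦ β (EE (θ, 0))` is a continuous map from `ℝ` to `Circle` (`EE_norm`; `hm`); lift it through the covering `Circle.exp` (`Circle.isCoveringMap_exp`, `IsCoveringMap.existsUnique_continuousMap_lifts`; `ℝ` is simply connected; `Circle.exp` is onto: take `arg`),
and divide by `2π`: `C` continuous with `β (EE (θ, 0)) = EE (C θ, 0)` (`EE (t, 0) = exp (2π t i)`).
`int_const`: a continuous function `ℝ → ℝ` with integer values is constant (intermediate value theorem, or `IsPreconnected.constant`).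
`lift_circle`: `C`, `C'` from `lift1` for `β`, `β'`. By `EE_eq_iff` and `int_const` there are integers `d, d', k, k'` with `C (θ + 1) = C θ + d`, `C' (θ + 1) = C' θ + d'` (`EE_one`), `C' (C θ) = θ + k`, `C (C' θ) = θ + k'` for all `θ` (`β' (β s) = s`). So `C (θ + n) = C θ + n d`, and `C'` similarly; `θ + 1 + k = C' (C (θ + 1)) = C' (C θ + d) = θ + k + d d'`,
so `d d' = 1`, `d = d' = ± 1`. `C` is continuous and injective, so strictly monotone or antitone (`Continuous.strictMono_of_inj`), and surjective.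
Monotone case: `C (θ + 1) > C θ`, so `d = 1`. `c = C`, `b t = C' t - k`; `b (c θ) = θ`; `c (b t) = t`: write `t = c s`. `b` is strictly increasing and `b (t + 1) = b t + 1`, because `c` is and `c (s + 1) = c s + 1` (write `t = c s`).
Antitone case: `d = -1`. `c θ = C (-θ)` is strictly increasing, `c (θ + 1) = C (-θ - 1) = C (-θ) + 1`, `b t = -(C' t - k)`: `b (c θ) = θ`; the rest as before. `β (EE (θ, 0)) = EE (C θ, 0) = EE (c (-θ), 0)`. -/

set_option autoImplicit false

open Topology Filter Set Function MeasureTheory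

namespace TorD

theorem FLG_sphere (θ : ℝ) : EE (θ, 0) ∈ Metric.sphere (0 : ℂ) 1 := by
  rw [mem_sphere_zero_iff_norm, EE_norm (le_refl _)]
  norm_num

theorem FLG_EE_cont : Continuous fun θ : ℝ => EE (θ, 0) := by
  rw [continuous_iff_continuousAt]
  intro θ
  have h1 : ContinuousAt EE (θ, (0 : ℝ)) := EE_cont (le_refl _)
  have h2 : ContinuousAt (fun t : ℝ => (t, (0 : ℝ))) θ := by fun_prop
  exact ContinuousAt.comp (f := fun t : ℝ => (t, (0 : ℝ))) h1 h2

theorem FLG_EE (t : ℝ) : EE (t / (2 * Real.pi), 0) = Complex.exp (t * Complex.I) := by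
  unfold EE
  have hpi : (Real.pi : ℂ) ≠ 0 := by exact_mod_cast Real.pi_ne_zero
  have h1 : (2 * Real.pi * ((t / (2 * Real.pi) : ℝ) : ℂ) * Complex.I : ℂ) = t * Complex.I := by
    push_cast
    field_simp
  show Complex.exp (2 * Real.pi * ((t / (2 * Real.pi) : ℝ) : ℂ) * Complex.I) / (1 + ((0 : ℝ) : ℂ)) = _
  rw [h1]
  simp

theorem lift1 {β : ℂ → ℂ} (hb : ContinuousOn β (Metric.sphere 0 1))
    (hm : MapsTo β (Metric.sphere 0 1) (Metric.sphere 0 1)) :
    ∃ C : ℝ → ℝ, Continuous C ∧ ∀ θ, β (EE (θ, 0)) = EE (C θ, 0) := by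
  have hmem : ∀ θ : ℝ, β (EE (θ, 0)) ∈ Submonoid.unitSphere ℂ := fun θ => hm (FLG_sphere θ)
  have hcont : Continuous fun θ : ℝ => (⟨β (EE (θ, 0)), hmem θ⟩ : Circle) :=
    Continuous.subtype_mk (hb.comp_continuous FLG_EE_cont FLG_sphere) _
  let f : C(ℝ, Circle) := ⟨fun θ => ⟨β (EE (θ, 0)), hmem θ⟩, hcont⟩
  have he : Circle.exp (Complex.arg (f 0 : ℂ)) = f 0 := Circle.exp_arg _
  obtain ⟨F, ⟨_, hF⟩, _⟩ := Circle.isCoveringMap_exp.existsUnique_continuousMap_lifts f 0 _ he
  refine ⟨fun θ => F θ / (2 * Real.pi), F.continuous.div_const _, fun θ => ?_⟩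
  rw [FLG_EE]
  have h1 := congrFun hF θ
  have h2 : ((Circle.exp (F θ) : Circle) : ℂ) = β (EE (θ, 0)) := congrArg Subtype.val h1
  rw [← h2]
  exact Circle.coe_exp _

theorem FLG_const {f : ℝ → ℝ} (hf : Continuous f) (h : ∀ x, ∃ n : ℤ, f x = n) :
    ∃ n : ℤ, ∀ x, f x = n := by
  obtain ⟨n, hn⟩ := h 0
  refine ⟨n, fun x => ?_⟩
  by_contra hne
  have hord : (range f).OrdConnected := (isPreconnected_range hf).ordConnected
  obtain ⟨m, hm⟩ := h x
  have hmn : m ≠ n := by
    rintro rfl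
    exact hne hm
  have key : ∀ k : ℤ, ∀ l : ℤ, (k : ℝ) ∈ range f → (l : ℝ) ∈ range f → k < l → False := by
    intro k l hk hl hkl
    have h1 : (k : ℝ) + 1 ≤ l := by exact_mod_cast hkl
    have h2 : (k : ℝ) + 1 / 2 ∈ range f := hord.out hk hl ⟨by linarith, by linarith⟩
    obtain ⟨y, hy⟩ := h2
    obtain ⟨j, hj⟩ := h y
    have h3 : (2 * j : ℝ) = 2 * k + 1 := by linarith
    have h4 : (2 * j : ℤ) = 2 * k + 1 := by exact_mod_cast h3
    omega
  rcases lt_or_gt_of_ne hmn with hlt | hlt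
  · exact key m n ⟨x, hm⟩ ⟨0, hn⟩ hlt
  · exact key n m ⟨0, hn⟩ ⟨x, hm⟩ hlt

theorem FLG_int {f : ℝ → ℝ} {e : ℤ} (h : ∀ t, f (t + 1) = f t + e) (t : ℝ) (n : ℤ) :
    f (t + n) = f t + n * e := by
  induction n using Int.induction_on with
  | zero => simp
  | succ i ih =>
    have e1 : t + (((i : ℤ) + 1 : ℤ) : ℝ) = (t + (i : ℤ)) + 1 := by push_cast; ring
    rw [e1, h, ih]
    push_cast
    ring
  | pred i ih =>
    have e1 : t + ((-(i : ℤ) : ℤ) : ℝ) = (t + ((-(i : ℤ) - 1 : ℤ) : ℝ)) + 1 := by push_cast; ring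
    rw [e1, h] at ih
    have e2 : f (t + ((-(i : ℤ) - 1 : ℤ) : ℝ)) = f t + ((-(i : ℤ) : ℤ) : ℝ) * e - e := by linarith
    rw [e2]
    push_cast
    ring

theorem FLG_core {C C' : ℝ → ℝ} (hC : Continuous C) (hC' : Continuous C') {d d' k k' : ℤ}
    (h1 : ∀ θ, C (θ + 1) = C θ + d) (h2 : ∀ θ, C' (θ + 1) = C' θ + d')
    (h3 : ∀ θ, C' (C θ) = θ + k) (h4 : ∀ θ, C (C' θ) = θ + k') :
    ∃ b c : ℝ → ℝ, CL b c ∧ ((∀ θ, C θ = c θ) ∨ (∀ θ, C θ = c (-θ))) := by
  have hinj : Injective C := by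
    intro x y hxy
    have h5 := h3 x
    rw [hxy, h3 y] at h5
    linarith
  have hdd : (d : ℝ) * d' = 1 := by
    have h5 := h3 (0 + 1)
    rw [h1, FLG_int h2, h3] at h5
    linarith
  have hddz : d * d' = 1 := by exact_mod_cast hdd
  have hkk : (k : ℝ) = k' * d' := by
    have h5 := h3 (C' 0)
    rw [h4, FLG_int h2] at h5
    linarith
  rcases hC.strictMono_of_inj hinj with hmono | hanti
  · have hd : d = 1 := by
      rcases Int.eq_one_or_neg_one_of_mul_eq_one hddz with h5 | h5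
      · exact h5
      · exfalso
        have h6 := hmono (show (0 : ℝ) < 0 + 1 by norm_num)
        rw [h1, h5] at h6
        push_cast at h6
        linarith
    have hd' : d' = 1 := by
      rw [hd, one_mul] at hddz
      exact hddz
    rw [hd'] at hkk h2
    rw [hd] at h1
    push_cast at hkk h1 h2
    have hcb : ∀ t, C (C' t - k) = t := by
      intro t
      have h5 := FLG_int (f := C) (e := 1) (by intro s; rw [h1]; norm_num) (C' t) (-k)
      push_cast at h5
      rw [h4] at h5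
      rw [sub_eq_add_neg, h5]
      linarith
    refine ⟨fun t => C' t - k, C, ⟨hC'.sub continuous_const, hC, hcb, fun t => ?_, ?_, hmono, fun t => ?_,
      h1⟩, Or.inl fun _ => rfl⟩
    · show C' (C t) - k = t
      rw [h3]
      ring
    · intro x y hxy
      by_contra hcon
      push Not at hcon
      have h5 := hmono.monotone hcon
      rw [hcb, hcb] at h5
      linarith
    · show C' (t + 1) - k = C' t - k + 1
      rw [h2]
      ring
  · have hd : d = -1 := by
      rcases Int.eq_one_or_neg_one_of_mul_eq_one hddz with h5 | h5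
      · exfalso
        have h6 := hanti (show (0 : ℝ) < 0 + 1 by norm_num)
        rw [h1, h5] at h6
        push_cast at h6
        linarith
      · exact h5
    have hd' : d' = -1 := by
      rw [hd] at hddz
      omega
    rw [hd'] at hkk h2
    rw [hd] at h1
    push_cast at hkk h1 h2
    have hcb : ∀ t, C (-(k - C' t)) = t := by
      intro t
      have h5 := FLG_int (f := C) (e := -1) (by intro s; rw [h1]; norm_num) (C' t) (-k)
      push_cast at h5
      rw [h4] at h5
      rw [neg_sub, sub_eq_add_neg, h5]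
      linarith
    have hcm : StrictMono fun θ => C (-θ) := fun x y hxy => hanti (neg_lt_neg hxy)
    refine ⟨fun t => k - C' t, fun θ => C (-θ), ⟨continuous_const.sub hC', hC.comp continuous_neg, hcb,
      fun t => ?_, ?_, hcm, fun t => ?_, fun t => ?_⟩, Or.inr fun θ => ?_⟩
    · show k - C' (C (-t)) = t
      rw [h3]
      ring
    · intro x y hxy
      by_contra hcon
      push Not at hcon
      have h5 := hcm.monotone hcon
      have h6 : C (-(k - C' y)) ≤ C (-(k - C' x)) := h5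
      rw [hcb, hcb] at h6
      linarith
    · show k - C' (t + 1) = k - C' t + 1
      rw [h2]
      ring
    · show C (-(t + 1)) = C (-t) + 1
      have h5 := h1 (-(t + 1))
      have e1 : -(t + 1) + 1 = -t := by ring
      rw [e1] at h5
      linarith
    · show C θ = C (- -θ)
      rw [neg_neg]

theorem FLG_int_diff {f f' : ℝ → ℝ} (hf : Continuous f) (hf' : Continuous f')
    (h : ∀ x, EE (f x, 0) = EE (f' x, 0)) : ∃ n : ℤ, ∀ x, f' x = f x + n := by
  obtain ⟨n, hn⟩ := FLG_const (f := fun x => f' x - f x) (hf'.sub hf) (by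
    intro x
    obtain ⟨m, hm⟩ := (EE_eq_iff (x := (f x, 0)) (y := (f' x, 0)) (le_refl _) (le_refl _)).1 (h x)
    refine ⟨m, ?_⟩
    have h1 : f' x = f x + m := congrArg Prod.fst hm
    show f' x - f x = m
    linarith)
  refine ⟨n, fun x => ?_⟩
  have := hn x
  linarith

theorem lift_circle {β β' : ℂ → ℂ} (hb : ContinuousOn β (Metric.sphere 0 1))
    (hb' : ContinuousOn β' (Metric.sphere 0 1))
    (hm : MapsTo β (Metric.sphere 0 1) (Metric.sphere 0 1))
    (hm' : MapsTo β' (Metric.sphere 0 1) (Metric.sphere 0 1))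
    (h1 : LeftInvOn β' β (Metric.sphere 0 1)) (h2 : LeftInvOn β β' (Metric.sphere 0 1)) :
    ∃ b c : ℝ → ℝ, CL b c ∧ ((∀ θ, β (EE (θ, 0)) = EE (c θ, 0)) ∨
      (∀ θ, β (EE (θ, 0)) = EE (c (-θ), 0))) := by
  obtain ⟨C, hC, hCβ⟩ := lift1 hb hm
  obtain ⟨C', hC', hCβ'⟩ := lift1 hb' hm'
  have hone : ∀ θ : ℝ, EE (θ + 1, 0) = EE (θ, 0) := by
    intro θ
    have h := EE_one (θ, 0) 1
    rw [Prod.mk_add_mk, add_zero, Int.cast_one] at h
    exact h
  obtain ⟨d, hd⟩ := FLG_int_diff (f := C) (f' := fun θ => C (θ + 1)) hC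
    (hC.comp (continuous_id.add continuous_const)) (fun x => by
      show EE (C x, 0) = EE (C (x + 1), 0)
      rw [← hCβ, ← hCβ, hone])
  obtain ⟨d', hd'⟩ := FLG_int_diff (f := C') (f' := fun θ => C' (θ + 1)) hC'
    (hC'.comp (continuous_id.add continuous_const)) (fun x => by
      show EE (C' x, 0) = EE (C' (x + 1), 0)
      rw [← hCβ', ← hCβ', hone])
  obtain ⟨k, hk⟩ := FLG_int_diff (f := fun θ => θ) (f' := fun θ => C' (C θ)) continuous_id
    (hC'.comp hC) (fun x => by
      show EE (x, 0) = EE (C' (C x), 0)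
      rw [← hCβ', ← hCβ, h1 (FLG_sphere x)])
  obtain ⟨k', hk'⟩ := FLG_int_diff (f := fun θ => θ) (f' := fun θ => C (C' θ)) continuous_id
    (hC.comp hC') (fun x => by
      show EE (x, 0) = EE (C (C' x), 0)
      rw [← hCβ, ← hCβ', h2 (FLG_sphere x)])
  obtain ⟨b, c, hbc, hor⟩ := FLG_core hC hC' hd hd' hk hk'
  refine ⟨b, c, hbc, ?_⟩
  rcases hor with h | h
  · left
    intro θ
    rw [hCβ, h]
  · right
    intro θ
    rw [hCβ, h]

end TorD
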