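import Pool.Agent.H51.TD.FLA
import Pool.Agent.H51.TD.FLB
import Pool.Agent.H51.TD.FLE
import Pool.Agent.H51.TD.FLG

/-! # FLH: filling of the unit disc

PROOF. `AH_gg`: `gg_cont`, `gg_inv` (for `h` and `h.symm`), `gg_one`, `gg_lev`, `gg_zero`, `gg_mp`. `AH_rf`: `rf (θ, δ) = (-θ, δ)` is an area preserving involution (`MeasurePreserving.prod` of `Measure.measurePreserving_neg` and the identity);
`g = gg b ∘ rf`, `g' = rf ∘ gg c`: `g (x + (1, 0)) = gg b (rf x - (1, 0)) = g x - (1, 0)`, `g' (x + (1, 0)) = rf (gg c x + (1, 0)) = g' x - (1, 0)`, so `σ = -1`.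
`AH.symm`: the inverse also preserves the area (`MeasurePreserving` of an inverse homeomorphism: `map g' volume = map g' (map g volume) = volume`).
`disc_fill1`: by `lift_circle` there is `AH σ g g'` with `g (θ, 0) = (c θ, 0)` resp. `(c (-θ), 0)` (`gg_zero`), so `β (EE (θ, 0)) = EE (g (θ, 0))`. `G = FF g`, `G' = FF g'`. Continuity and `MapsTo`: `FF_cont`, `FF_maps` for `h` and `h.symm`. `G' (G z) = z` on the disc: `z = 0` trivial (`FF g 0 = 0`);
`z = EE x`, `x.2 ≥ 0` (`EE_pol`, `‖z‖ ≤ 1`): `FF_EE` twice, `AH.pos`. A point of the sphere is `EE (θ, 0)` (`EE_pol`): `G (EE (θ, 0)) = EE (g (θ, 0)) = β (EE (θ, 0))`. For `s` on the sphere, `t = β' s` is on the sphere, `s = β t = G t`, so `G' s = t = β' s`. `FF_nonw`. -/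

set_option autoImplicit false

open Topology Filter Set Function MeasureTheory

namespace TorD

theorem AH.symm {σ : ℝ} {g g' : ℝ × ℝ → ℝ × ℝ} (h : AH σ g g') : AH σ g' g := by
  refine ⟨h.sg, h.gc', h.gc, h.r, h.l, h.per', h.per, h.lev', h.lev, h.zero', h.zero, ?_⟩
  refine ⟨h.gc'.measurable, ?_⟩
  have h1 := h.mp.map_eq
  have h2 : Measure.map g' (Measure.map g volume) = volume := by
    rw [Measure.map_map h.gc'.measurable h.gc.measurable]
    have : g' ∘ g = id := funext h.l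
    rw [this, Measure.map_id]
  rw [h1] at h2
  exact h2

theorem AH_gg {b c : ℝ → ℝ} (h : CL b c) : AH 1 (gg b) (gg c) := by
  refine ⟨Or.inl rfl, gg_cont h, gg_cont h.symm, gg_inv h, gg_inv h.symm, gg_one h, gg_one h.symm,
    gg_lev h, gg_lev h.symm, fun θ => ?_, fun θ => ?_, gg_mp h⟩
  · rw [gg_zero h]
  · rw [gg_zero h.symm]

theorem AH_rf {b c : ℝ → ℝ} (h : CL b c) :
    AH (-1) (fun x => gg b (-x.1, x.2)) (fun x => (-(gg c x).1, (gg c x).2)) := by
  have h1 := gg_cont h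
  have h2 := gg_cont h.symm
  refine ⟨Or.inr rfl, by fun_prop, (continuous_fst.comp h2).neg.prodMk (continuous_snd.comp h2), fun x => ?_, fun x => ?_, fun x => ?_, fun x => ?_,
    fun k x hx => gg_lev h k (-x.1, x.2) hx, fun k x hx => gg_lev h.symm k x hx, fun θ => ?_,
    fun θ => ?_, ?_⟩
  · show (-(gg c (gg b (-x.1, x.2))).1, (gg c (gg b (-x.1, x.2))).2) = x
    rw [gg_inv h, neg_neg]
  · show gg b (-(-(gg c x).1), (gg c x).2) = x
    rw [neg_neg, Prod.mk.eta, gg_inv h.symm]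
  · show gg b (-(x.1 + 1), x.2 + 0) = gg b (-x.1, x.2) + (-1, 0)
    have e := gg_one h (-(x.1 + 1), x.2 + 0)
    have e1 : ((-(x.1 + 1), x.2 + 0) : ℝ × ℝ) + (1, 0) = (-x.1, x.2) := by
      rw [Prod.mk_add_mk]
      congr 1 <;> ring
    rw [e1] at e
    rw [e, add_assoc, Prod.mk_add_mk]
    norm_num
  · show (-(gg c (x + (1, 0))).1, (gg c (x + (1, 0))).2) = (-(gg c x).1, (gg c x).2) + (-1, 0)
    rw [gg_one h.symm]
    show (-((gg c x).1 + 1), (gg c x).2 + 0) = (-(gg c x).1 + -1, (gg c x).2 + 0)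
    congr 1
    ring
  · show (gg b (-θ, 0)).2 = 0
    rw [gg_zero h]
  · show (gg c (θ, 0)).2 = 0
    rw [gg_zero h.symm]
  · have h3 : MeasurePreserving (fun x : ℝ × ℝ => (-x.1, x.2)) volume volume := by
      have := (Measure.measurePreserving_neg (volume : Measure ℝ)).prod
        (MeasurePreserving.id (volume : Measure ℝ))
      exact this
    exact (gg_mp h).comp h3

theorem FLH_inv {σ : ℝ} {g g' : ℝ × ℝ → ℝ × ℝ} (h : AH σ g g') :
    LeftInvOn (FF g') (FF g) (Metric.closedBall 0 1) := by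
  intro z hz
  by_cases h0 : z = 0
  · rw [h0]
    have e1 : FF g 0 = 0 := by unfold FF; rw [if_pos rfl]
    have e2 : FF g' 0 = 0 := by unfold FF; rw [if_pos rfl]
    rw [e1, e2]
  · have hn : ‖z‖ ≤ 1 := mem_closedBall_zero_iff.1 hz
    have hp : 0 < ‖z‖ := norm_pos_iff.2 h0
    have hx : (0 : ℝ) ≤ (Complex.arg z / (2 * Real.pi), ‖z‖⁻¹ - 1).2 := by
      show 0 ≤ ‖z‖⁻¹ - 1
      have := (one_le_inv₀ hp).2 hn
      linarith
    have e := EE_pol h0
    have e1 := FF_EE h hx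
    have e2 := FF_EE h.symm (AH.pos h hx).1
    rw [e] at e1
    rw [e1, e2, h.l, e]

theorem FLH_sph {σ : ℝ} {g g' : ℝ × ℝ → ℝ × ℝ} (h : AH σ g g') {β : ℂ → ℂ}
    (hβ : ∀ θ, β (EE (θ, 0)) = EE (g (θ, 0))) : EqOn (FF g) β (Metric.sphere 0 1) := by
  intro z hz
  have hn : ‖z‖ = 1 := mem_sphere_zero_iff_norm.1 hz
  have h0 : z ≠ 0 := by
    rintro rfl
    rw [norm_zero] at hn
    exact zero_ne_one hn
  have e := EE_pol h0
  rw [hn, inv_one, sub_self] at e
  have e1 := FF_EE h (x := (Complex.arg z / (2 * Real.pi), 0)) (le_refl _)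
  rw [e] at e1
  rw [e1, ← hβ, e]

theorem disc_fill1 {β β' : ℂ → ℂ} (hb : ContinuousOn β (Metric.sphere 0 1))
    (hb' : ContinuousOn β' (Metric.sphere 0 1))
    (hm : MapsTo β (Metric.sphere 0 1) (Metric.sphere 0 1))
    (hm' : MapsTo β' (Metric.sphere 0 1) (Metric.sphere 0 1))
    (h1 : LeftInvOn β' β (Metric.sphere 0 1)) (h2 : LeftInvOn β β' (Metric.sphere 0 1)) :
    ∃ G G' : ℂ → ℂ, ContinuousOn G (Metric.closedBall 0 1) ∧ ContinuousOn G' (Metric.closedBall 0 1) ∧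
      MapsTo G (Metric.closedBall 0 1) (Metric.closedBall 0 1) ∧
      MapsTo G' (Metric.closedBall 0 1) (Metric.closedBall 0 1) ∧
      LeftInvOn G' G (Metric.closedBall 0 1) ∧ LeftInvOn G G' (Metric.closedBall 0 1) ∧
      EqOn G β (Metric.sphere 0 1) ∧ EqOn G' β' (Metric.sphere 0 1) ∧
      ∀ U : Set ℂ, IsOpen U → U.Nonempty → U ⊆ Metric.closedBall 0 1 →
        ∃ n : ℕ, 1 ≤ n ∧ ∃ p ∈ U, G^[n] p ∈ U := by
  obtain ⟨b, c, hbc, hor⟩ := lift_circle hb hb' hm hm' h1 h2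
  obtain ⟨σ, g, g', h, hβ⟩ : ∃ (σ : ℝ) (g g' : ℝ × ℝ → ℝ × ℝ), AH σ g g' ∧
      ∀ θ, β (EE (θ, 0)) = EE (g (θ, 0)) := by
    rcases hor with h | h
    · refine ⟨1, gg b, gg c, AH_gg hbc, fun θ => ?_⟩
      rw [h, gg_zero hbc]
    · refine ⟨-1, _, _, AH_rf hbc, fun θ => ?_⟩
      rw [h]
      show EE (c (-θ), 0) = EE (gg b (-θ, 0))
      rw [gg_zero hbc]
  have hE := FLH_sph h hβ
  refine ⟨FF g, FF g', FF_cont h, FF_cont h.symm, FF_maps h, FF_maps h.symm, FLH_inv h,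
    FLH_inv h.symm, hE, ?_, fun U hU hn hs => FF_nonw h hU hn hs⟩
  intro s hs
  have ht := hm' hs
  have e1 := hE ht
  rw [h2 hs] at e1
  have e2 := FLH_inv h (Metric.sphere_subset_closedBall ht)
  rw [e1] at e2
  exact e2

end TorD
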