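import Pool.Agent.H51.TD.BAS

/-! # RPT: rational points are periodic

PROOF. `aa r` is rational for rational `r`, and if `N r ∈ ℤ` then `N aa r ∈ ℤ` (`aa r = 8 |r - round r|`). So `ph`, `pi` map `Rat2` into itself (with `ph_pi`, `pi_ph`: iff) and
preserve `G = {z | N z.re ∈ ℤ, N z.im ∈ ℤ}`. `G` modulo the lattice is finite: map `z ∈ G` to `(N z.re mod N, N z.im mod N)`. For `z ∈ G` the points `ph^[n] z` are in `G`; two of them are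
congruent mod the lattice, `ph^[k+n] z = ph^[k] z + lat w`, `n ≥ 1`; apply `pi^[k]` (pi_lat, pi_ph): `ph^[n] z = z + lat w`. -/

set_option autoImplicit false

open Topology Filter Set Function

namespace TorD

/-- points with coordinates in `(1/N) ℤ` -/
def RPT_G (N : ℕ) (z : ℂ) : Prop := (∃ a : ℤ, (N : ℝ) * z.re = a) ∧ ∃ b : ℤ, (N : ℝ) * z.im = b

theorem RPT_aa {N : ℕ} {r : ℝ} (h : ∃ a : ℤ, (N : ℝ) * r = a) : ∃ a : ℤ, (N : ℝ) * aa r = a := by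
  obtain ⟨a, ha⟩ := h
  refine ⟨8 * |a - N * round r|, ?_⟩
  have h0 : (0 : ℝ) ≤ N := Nat.cast_nonneg N
  unfold aa
  push_cast
  rw [← ha, ← mul_sub, abs_mul, abs_of_nonneg h0]
  ring

theorem RPT_ph {N : ℕ} {z : ℂ} (h : RPT_G N z) : RPT_G N (ph z) := by
  obtain ⟨⟨a, ha⟩, b, hb⟩ := h
  obtain ⟨c, hc⟩ := RPT_aa ⟨b, hb⟩
  have h1 : ∃ a : ℤ, (N : ℝ) * (z.re + aa z.im) = a := ⟨a + c, by push_cast; rw [← ha, ← hc]; ring⟩
  obtain ⟨d, hd⟩ := RPT_aa h1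
  refine ⟨h1, ⟨b + d, ?_⟩⟩
  show (N : ℝ) * (z.im + aa (z.re + aa z.im)) = _
  push_cast
  rw [← hb, ← hd]
  ring

theorem RPT_pi {N : ℕ} {z : ℂ} (h : RPT_G N z) : RPT_G N (pi z) := by
  obtain ⟨⟨a, ha⟩, b, hb⟩ := h
  obtain ⟨c, hc⟩ := RPT_aa ⟨a, ha⟩
  have h1 : ∃ a : ℤ, (N : ℝ) * (z.im - aa z.re) = a := ⟨b - c, by push_cast; rw [← hb, ← hc]; ring⟩
  obtain ⟨d, hd⟩ := RPT_aa h1
  refine ⟨⟨a - d, ?_⟩, h1⟩
  show (N : ℝ) * (z.re - aa (z.im - aa z.re)) = _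
  push_cast
  rw [← ha, ← hd]
  ring

theorem RPT_rat {z : ℂ} (h : z ∈ Rat2) : ∃ N : ℕ, 1 ≤ N ∧ RPT_G N z := by
  obtain ⟨a, b, rfl⟩ := h
  have ha : (a.den : ℝ) ≠ 0 := by exact_mod_cast a.den_ne_zero
  have hb : (b.den : ℝ) ≠ 0 := by exact_mod_cast b.den_ne_zero
  have ea : (a : ℝ) * a.den = a.num := by exact_mod_cast a.mul_den_eq_num
  have eb : (b : ℝ) * b.den = b.num := by exact_mod_cast b.mul_den_eq_num
  refine ⟨a.den * b.den, Nat.mul_pos a.den_pos b.den_pos, ⟨a.num * b.den, ?_⟩,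
    ⟨b.num * a.den, ?_⟩⟩
  · push_cast
    rw [← ea]
    ring
  · push_cast
    rw [← eb]
    ring

theorem RPT_of {N : ℕ} (hN : 1 ≤ N) {z : ℂ} (h : RPT_G N z) : z ∈ Rat2 := by
  obtain ⟨⟨a, ha⟩, b, hb⟩ := h
  have h0 : (N : ℝ) ≠ 0 := by
    have : N ≠ 0 := by omega
    exact_mod_cast this
  refine ⟨a / N, b / N, Complex.ext ?_ ?_⟩
  · show z.re = (((a : ℚ) / (N : ℚ) : ℚ) : ℝ)
    push_cast
    rw [← ha]
    field_simp
  · show z.im = (((b : ℚ) / (N : ℚ) : ℚ) : ℝ)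
    push_cast
    rw [← hb]
    field_simp

theorem RPT_ph1 {x : ℂ} (h : x ∈ Rat2) : ph x ∈ Rat2 := by
  obtain ⟨N, hN, hG⟩ := RPT_rat h
  exact RPT_of hN (RPT_ph hG)

theorem RPT_pi1 {x : ℂ} (h : x ∈ Rat2) : pi x ∈ Rat2 := by
  obtain ⟨N, hN, hG⟩ := RPT_rat h
  exact RPT_of hN (RPT_pi hG)

theorem ph_rat (x : ℂ) : ph x ∈ Rat2 ↔ x ∈ Rat2 := by
  refine ⟨fun h => ?_, RPT_ph1⟩
  have := RPT_pi1 h
  rwa [pi_ph] at this

theorem pi_rat (x : ℂ) : pi x ∈ Rat2 ↔ x ∈ Rat2 := by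
  refine ⟨fun h => ?_, RPT_pi1⟩
  have := RPT_ph1 h
  rwa [ph_pi] at this

theorem RPT_iter {N : ℕ} {z : ℂ} (h : RPT_G N z) (n : ℕ) : RPT_G N (ph^[n] z) := by
  induction n with
  | zero => exact h
  | succ n ih =>
    rw [Function.iterate_succ_apply']
    exact RPT_ph ih

theorem RPT_pilat (n : ℕ) (x : ℂ) (w : ℤ × ℤ) : pi^[n] (x + lat w) = pi^[n] x + lat w := by
  induction n with
  | zero => rfl
  | succ n ih =>
    rw [Function.iterate_succ_apply', ih, pi_lat, Function.iterate_succ_apply']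

theorem RPT_lt {N : ℕ} (hN : 1 ≤ N) {z : ℂ} {A B : ℕ → ℤ}
    (hA : ∀ n, (N : ℝ) * (ph^[n] z).re = A n) (hB : ∀ n, (N : ℝ) * (ph^[n] z).im = B n)
    {m n : ℕ} (hmn : m < n) (h1 : ((A m : ℤ) : ZMod N) = (A n : ℤ))
    (h2 : ((B m : ℤ) : ZMod N) = (B n : ℤ)) : ∃ n : ℕ, 1 ≤ n ∧ ∃ w, ph^[n] z = z + lat w := by
  have h0 : (N : ℝ) ≠ 0 := by
    have : N ≠ 0 := by omega
    exact_mod_cast this
  rw [ZMod.intCast_eq_intCast_iff_dvd_sub] at h1 h2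
  obtain ⟨w1, hw1⟩ := h1
  obtain ⟨w2, hw2⟩ := h2
  have e1 : ((A n : ℤ) : ℝ) - A m = N * w1 := by exact_mod_cast hw1
  have e2 : ((B n : ℤ) : ℝ) - B m = N * w2 := by exact_mod_cast hw2
  rw [← hA, ← hA, ← mul_sub] at e1
  rw [← hB, ← hB, ← mul_sub] at e2
  have f1 := mul_left_cancel₀ h0 e1
  have f2 := mul_left_cancel₀ h0 e2
  have h3 : ph^[n] z = ph^[m] z + lat (w1, w2) := by
    apply Complex.ext
    · show _ = (ph^[m] z).re + (w1 : ℝ)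
      linarith
    · show _ = (ph^[m] z).im + (w2 : ℝ)
      linarith
  obtain ⟨k, rfl⟩ := Nat.exists_eq_add_of_lt hmn
  refine ⟨k + 1, by omega, (w1, w2), ?_⟩
  have hinv : Function.LeftInverse pi ph := pi_ph
  have hit := hinv.iterate m
  have h4 := congrArg (pi^[m]) h3
  rw [RPT_pilat, hit, show m + k + 1 = m + (k + 1) by ring, Function.iterate_add_apply, hit] at h4
  exact h4

theorem ph_per {z : ℂ} (hz : z ∈ Rat2) : ∃ n : ℕ, 1 ≤ n ∧ ∃ w, ph^[n] z = z + lat w := by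
  obtain ⟨N, hN, hG⟩ := RPT_rat hz
  have hA : ∀ n, ∃ a : ℤ, (N : ℝ) * (ph^[n] z).re = a := fun n => (RPT_iter hG n).1
  have hB : ∀ n, ∃ a : ℤ, (N : ℝ) * (ph^[n] z).im = a := fun n => (RPT_iter hG n).2
  choose A hA using hA
  choose B hB using hB
  have : NeZero N := ⟨by omega⟩
  obtain ⟨m, n, hmn, hf⟩ := Finite.exists_ne_map_eq_of_infinite
    (fun n : ℕ => (((A n : ℤ) : ZMod N), ((B n : ℤ) : ZMod N)))
  have h1 := congrArg Prod.fst hf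
  have h2 := congrArg Prod.snd hf
  simp only at h1 h2
  rcases lt_or_gt_of_ne hmn with h | h
  · exact RPT_lt hN hA hB h h1 h2
  · exact RPT_lt hN hA hB h h1.symm h2.symm

end TorD
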