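import Pool.Agent.H51.TD.CRV
import Pool.Agent.H51.TD.RPT

/-! # GAM: the curves `gam j`, `j ∈ ℤ`

PROOF. `gam (j+1) t = ph (gam j t)` (for `j = -1`: `ph (pi x) = x`; iterate laws `Function.iterate_succ_apply'`). gam_per: `(t + n) i = t i + lat (0,n)` and `ph_lat`, `pi_lat`. More generally
`gam (j + k) t = ph^[k] (gam j t)` for `k : ℕ` and the backward version. gam_inj: apply `ph^[k]` or `pi^[k]` to get `t i = t' i + lat w`. gam_cross: let `j < j'` (or symmetric), `n = j' - j ≥ 1`: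
apply `pi^[..]`/`ph^[..]` to `gam j t = gam j' t' + lat w`: `t i = ph^[n] (t' i) + lat w`, so `(ph^[n] (t' i)).re` is an integer, `t'` rational (crv_fwd, crv_rat) and
`t i` is rational because `ph` preserves `Rat2` (`t i ∈ Rat2` iff `t` rational). Finite: symmetric statement with `pi^[n] (t i) = t' i + lat w`: `(pi^[n] (t i)).re ∈ ℤ`, crv_fin for
crv_bwd (and crv_fwd for the other order). gam_pl: crv_zero, crv_fwd, crv_bwd, and plc_ref with a multiple `N'` of `N` with `N' ≥ 8 M`: the increment over `[k/N',(k+1)/N']`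
is `(a, c)/N'`, norm `≤ 2M/N' ≤ 1/4`, nonzero because `a ≠ 0` or `c = 1`. -/

set_option autoImplicit false

open Topology Filter Set Function

namespace TorD

theorem GAM_nat (n : ℕ) (t : ℝ) : gam (n : ℤ) t = ph^[n] (t * Complex.I) := by
  unfold gam
  rw [if_pos (Int.natCast_nonneg n), Int.toNat_natCast]

theorem GAM_neg (n : ℕ) (t : ℝ) : gam (-(n : ℤ)) t = pi^[n] (t * Complex.I) := by
  rcases Nat.eq_zero_or_pos n with h | h
  · subst h
    unfold gam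
    simp
  · unfold gam
    rw [if_neg (by omega), neg_neg, Int.toNat_natCast]

theorem gam_zero (t : ℝ) : gam 0 t = t * Complex.I := by
  have h := GAM_nat 0 t
  simpa using h

theorem gam_succ (j : ℤ) (t : ℝ) : gam (j + 1) t = ph (gam j t) := by
  obtain ⟨n, hn | hn⟩ := j.eq_nat_or_neg
  · subst hn
    have h1 : ((n : ℤ) + 1) = ((n + 1 : ℕ) : ℤ) := by push_cast; ring
    rw [h1, GAM_nat, GAM_nat, Function.iterate_succ_apply']
  · subst hn
    rcases n with _ | m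
    · have h1 : (-((0 : ℕ) : ℤ) + 1) = ((1 : ℕ) : ℤ) := by simp
      rw [h1, GAM_nat, GAM_neg]
      simp
    · have h1 : (-((m + 1 : ℕ) : ℤ) + 1) = -(m : ℤ) := by push_cast; ring
      rw [h1, GAM_neg, GAM_neg, Function.iterate_succ_apply', ph_pi]

theorem gam_pred (j : ℤ) (t : ℝ) : gam (j - 1) t = pi (gam j t) := by
  have h := gam_succ (j - 1) t
  rw [sub_add_cancel] at h
  rw [h, pi_ph]

theorem gam_per (j : ℤ) (t : ℝ) (n : ℤ) : gam j (t + n) = gam j t + lat (0, n) := by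
  induction j using Int.induction_on with
  | zero =>
    rw [gam_zero, gam_zero]
    unfold lat
    apply Complex.ext <;> simp
  | succ i ih => rw [gam_succ, gam_succ, ih, ph_lat]
  | pred i ih => rw [gam_pred, gam_pred, ih, pi_lat]

theorem GAM_ph_inj {x y : ℂ} (h : ph x = ph y) : x = y := by
  rw [← pi_ph x, h, pi_ph]

theorem GAM_pi_inj {x y : ℂ} (h : pi x = pi y) : x = y := by
  rw [← ph_pi x, h, ph_pi]

theorem gam_inj {j : ℤ} {t t' : ℝ} {w : ℤ × ℤ} (h : gam j t = gam j t' + lat w) :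
    ∃ n : ℤ, t = t' + n := by
  induction j using Int.induction_on with
  | zero =>
    rw [gam_zero, gam_zero] at h
    refine ⟨w.2, ?_⟩
    have h1 := congrArg Complex.im h
    unfold lat at h1
    simpa using h1
  | succ i ih =>
    rw [gam_succ, gam_succ, ← ph_lat] at h
    exact ih (GAM_ph_inj h)
  | pred i ih =>
    rw [gam_pred, gam_pred, ← pi_lat] at h
    exact ih (GAM_pi_inj h)

theorem gam_rat (j : ℤ) (t : ℝ) : gam j t ∈ Rat2 ↔ ∃ r : ℚ, t = r := by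
  induction j using Int.induction_on with
  | zero =>
    rw [gam_zero]
    constructor
    · rintro ⟨a, b, h⟩
      refine ⟨b, ?_⟩
      have h1 := congrArg Complex.im h
      simpa using h1
    · rintro ⟨r, h⟩
      refine ⟨0, r, ?_⟩
      rw [h]
      apply Complex.ext <;> simp
  | succ i ih => rw [gam_succ, ph_rat, ih]
  | pred i ih => rw [gam_pred, pi_rat, ih]

theorem GAM_shift {j j' : ℤ} {t t' : ℝ} {w : ℤ × ℤ} (h : gam j t = gam j' t' + lat w) (k : ℤ) :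
    gam (j + k) t = gam (j' + k) t' + lat w := by
  induction k using Int.induction_on with
  | zero => rw [add_zero, add_zero, h]
  | succ i ih => rw [← add_assoc, ← add_assoc, gam_succ, gam_succ, ih, ph_lat]
  | pred i ih => rw [← add_sub_assoc, ← add_sub_assoc, gam_pred, gam_pred, ih, pi_lat]

/-- The curve for a nonzero index. -/
theorem GAM_plc {m : ℤ} (hm : m ≠ 0) : ∃ (N : ℕ) (M : ℤ), 0 < N ∧
    PLC N M (fun a _ => a ≠ 0) (gam m) := by
  obtain ⟨n, hn | hn⟩ := m.eq_nat_or_neg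
  · have h1 : 1 ≤ n := by omega
    obtain ⟨N, M, hN, h⟩ := crv_fwd h1
    refine ⟨N, M, hN, fun k => ?_⟩
    obtain ⟨a, b, c, d, hQ, ha, hc, hh⟩ := h k
    refine ⟨a, b, c, d, hQ.1, ha, hc, fun t ht => ?_⟩
    rw [hn, GAM_nat]
    exact hh t ht
  · have h1 : 1 ≤ n := by omega
    obtain ⟨N, M, hN, h⟩ := crv_bwd h1
    refine ⟨N, M, hN, fun k => ?_⟩
    obtain ⟨a, b, c, d, hQ, ha, hc, hh⟩ := h k
    refine ⟨a, b, c, d, hQ.1, ha, hc, fun t ht => ?_⟩
    rw [hn, GAM_neg]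
    exact hh t ht

theorem gam_cross {j j' : ℤ} (hj : j ≠ j') {t t' : ℝ} {w : ℤ × ℤ}
    (h : gam j t = gam j' t' + lat w) : ∃ r : ℚ, t = r := by
  have h1 := GAM_shift h (-j)
  rw [add_neg_cancel] at h1
  have hm : j' + -j ≠ 0 := by omega
  obtain ⟨N, M, hN, hP⟩ := GAM_plc hm
  have h2 : (gam (j' + -j) t').re = ((-w.1 : ℤ) : ℝ) := by
    have h3 := congrArg Complex.re h1
    rw [gam_zero] at h3
    unfold lat at h3
    simp only [Complex.add_re, Complex.mul_re, Complex.ofReal_re, Complex.I_re, mul_zero,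
      Complex.ofReal_im, Complex.I_im, mul_one, sub_self] at h3
    push_cast
    linarith
  have h4 := crv_rat hP hN (fun a c ha => ha) h2
  have h5 : gam (j' + -j) t' ∈ Rat2 := (gam_rat _ _).mpr h4
  have h6 : gam 0 t ∈ Rat2 := by
    rw [h1, rat2_lat]
    exact h5
  exact (gam_rat _ _).mp h6

theorem gam_fin {j j' : ℤ} (hj : j ≠ j') : ∃ F : Finset ℝ, ∀ t ∈ Icc (0 : ℝ) 1, ∀ (t' : ℝ) (w : ℤ × ℤ),
    gam j t = gam j' t' + lat w → t ∈ F := by
  have hm : j + -j' ≠ 0 := by omega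
  obtain ⟨N, M, hN, hP⟩ := GAM_plc hm
  obtain ⟨F, hF⟩ := crv_fin hP hN (fun a c ha => ha)
  refine ⟨F, fun t ht t' w h => hF t ht w.1 ?_⟩
  have h1 := GAM_shift h (-j')
  rw [add_neg_cancel j'] at h1
  have h3 := congrArg Complex.re h1
  rw [gam_zero] at h3
  unfold lat at h3
  simpa using h3

theorem GAM_pl_aux {N : ℕ} {M : ℤ} {Q : ℤ → ℤ → Prop} {γ : ℝ → ℂ} (h : PLC N M Q γ) (hN : 0 < N)
    (hQ : ∀ a c, Q a c → a ≠ 0 ∨ c ≠ 0) :
    ∃ N : ℕ, 0 < N ∧ ∀ k : ℤ, ∃ a b c d : ℤ, (a ≠ 0 ∨ c ≠ 0) ∧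
    ‖(⟨a, c⟩ : ℂ)‖ / N ≤ 1 / 4 ∧
    ∀ t ∈ Icc ((k : ℝ) / N) (((k : ℝ) + 1) / N), γ t = ⟨a * t + b, c * t + d⟩ := by
  have hM : 0 ≤ M := by
    obtain ⟨a, b, c, d, _, ha, _⟩ := h 0
    exact (abs_nonneg a).trans ha
  obtain ⟨m, rfl⟩ := Int.eq_ofNat_of_zero_le hM
  have hN' : 0 < N * (8 * (m + 1)) := by positivity
  have h2 := plc_ref h hN (Dvd.intro _ rfl) hN'
  refine ⟨N * (8 * (m + 1)), hN', fun k => ?_⟩
  obtain ⟨a, b, c, d, hac, ha, hc, hh⟩ := h2 k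
  refine ⟨a, b, c, d, hQ a c hac, ?_, hh⟩
  have ha' : |(a : ℝ)| ≤ m := by exact_mod_cast ha
  have hc' : |(c : ℝ)| ≤ m := by exact_mod_cast hc
  have h3 : ‖(⟨a, c⟩ : ℂ)‖ ≤ 2 * m := by
    refine (Complex.norm_le_abs_re_add_abs_im _).trans ?_
    simp only
    linarith
  have h4 : (0 : ℝ) < ((N * (8 * (m + 1)) : ℕ) : ℝ) := by exact_mod_cast hN'
  have h5 : (8 * (m + 1) : ℝ) ≤ ((N * (8 * (m + 1)) : ℕ) : ℝ) := by
    have h6 : 8 * (m + 1) ≤ N * (8 * (m + 1)) := Nat.le_mul_of_pos_left _ hN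
    exact_mod_cast h6
  rw [div_le_iff₀ h4]
  linarith

theorem gam_pl (j : ℤ) : ∃ N : ℕ, 0 < N ∧ ∀ k : ℤ, ∃ a b c d : ℤ, (a ≠ 0 ∨ c ≠ 0) ∧
    ‖(⟨a, c⟩ : ℂ)‖ / N ≤ 1 / 4 ∧
    ∀ t ∈ Icc ((k : ℝ) / N) (((k : ℝ) + 1) / N), gam j t = ⟨a * t + b, c * t + d⟩ := by
  by_cases hj : j = 0
  · subst hj
    have h : PLC 1 1 (fun a c => a = 0 ∧ c = 1) (gam 0) := by
      intro k
      obtain ⟨a, b, c, d, hQ, ha, hc, hh⟩ := crv_zero k
      refine ⟨a, b, c, d, hQ, ha, hc, fun t ht => ?_⟩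
      rw [gam_zero]
      exact hh t ht
    refine GAM_pl_aux h one_pos fun a c hac => Or.inr ?_
    rw [hac.2]
    exact one_ne_zero
  · obtain ⟨N, M, hN, hP⟩ := GAM_plc hj
    exact GAM_pl_aux hP hN fun a c ha => Or.inl ha

end TorD
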