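import Pool.Agent.H51.TD.CNE

/-! # GLU: continuity of the total map

PROOF. Let `f = tot A fb F`; on `K z`, `z ∈ Rat2`: `f = F z` (on `M` by he). Let `p ∈ ℂ` and `ε > 0`. If `p ∉ M`: `p ∈ interior (K z)`, `z = h p`, and `z ∈ Rat2` (else K_thin), `f = F z` near `p`. If `p ∈ M`: there is
`δ > 0` with `‖fb b - fb p‖ < ε/2` for `b ∈ M`, `‖b - p‖ < δ`. Let `η = min (δ/2) (ε/2)` halved, `X` from Thin for `η`. The set `Z` of the `z = x + lat w`, `x ∈ X`, with `‖z - h p‖ ≤ 2` is finite (lat_fin);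
for `z ∈ Z ∩ Rat2`: if `p ∉ K z` the complement of the closed set `K z` is a neighbourhood of `p`; if `p ∈ K z`, `F z` is continuous on `K z` at `p` and `F z p = fb p = f p`: `‖F z q - f p‖ < ε` for `q ∈ K z` near `p`.
Let `q` be in the intersection of these finitely many neighbourhoods, `‖q - p‖ < min (δ/2) 1`. If `q ∈ M`: fine. If `q ∉ M`, `q ∈ interior (K z)`, `z = h q ∈ Rat2`, `‖z - h p‖ ≤ 2` (h_lip). If `z ∈ Z`: fine.
Otherwise Thin gives `b ∈ M` with `‖q - b‖ ≤ η`, `‖F z q - fb b‖ ≤ η`: `‖b - p‖ < δ`, `‖f q - f p‖ ≤ η + ε/2 < ε`. thin_inv: exceptional set `φ '' X` (if `z = φ z'`, `z' = ψ z`, is not in it mod the lattice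
then `z'` is not in `X` mod the lattice; H.eqv); for `q ∈ K z`, `q = C φ fb (ψ z) p` with `p = C ψ gb z q ∈ K (ψ z)` (C_inv', C_maps'); thin for `p` gives `b`, take `fb b ∈ K z`, `gb (fb b) = b`. -/

set_option autoImplicit false

open Topology Filter Set Function

namespace TorD

variable {ι : Type} [Countable ι] {A : Arr ι}

theorem tot_eq {fb : ℂ → ℂ} {F : ℂ → ℂ → ℂ} (he : ∀ z ∈ Rat2, ∀ p ∈ A.K z, p ∈ A.M → F z p = fb p)
    {z : ℂ} (hz : z ∈ Rat2) {p : ℂ} (hp : p ∈ A.K z) : tot A fb F p = F z p := by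
  unfold tot
  by_cases h : p ∈ A.M
  · rw [if_pos h, he z hz p hp h]
  · rw [if_neg h]
    have e : A.h p = z := hp
    rw [e]

theorem tot_M {fb : ℂ → ℂ} {F : ℂ → ℂ → ℂ} {p : ℂ} (hp : p ∈ A.M) : tot A fb F p = fb p := by
  unfold tot
  rw [if_pos hp]

/-- a point outside `M` is in the interior of a rational fibre -/
theorem not_M {p : ℂ} (hp : p ∉ A.M) : A.h p ∈ Rat2 ∧ p ∈ interior (A.K (A.h p)) := by
  have h1 : p ∈ interior (A.K (A.h p)) := by
    by_contra h
    exact hp h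
  refine ⟨?_, h1⟩
  by_contra h
  have h2 : interior (A.K (A.h p)) = ∅ := A.K_thin h
  rw [h2] at h1
  exact h1

theorem GLU_fin (X : Finset ℂ) (a : ℂ) (R : ℝ) :
    {z : ℂ | (∃ x ∈ X, ∃ w, z = x + lat w) ∧ ‖z - a‖ ≤ R}.Finite := by
  have h1 : (⋃ x ∈ (X : Set ℂ), (fun w => x + lat w) '' {w : ℤ × ℤ | ‖lat w‖ ≤ R + ‖x - a‖}).Finite :=
    X.finite_toSet.biUnion fun x _ => (lat_fin _).image _
  refine h1.subset ?_
  rintro z ⟨⟨x, hx, w, hw⟩, hz⟩
  refine mem_biUnion (Finset.mem_coe.2 hx) ⟨w, ?_, hw.symm⟩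
  show ‖lat w‖ ≤ R + ‖x - a‖
  have e : lat w = (z - a) - (x - a) := by rw [hw]; ring
  rw [e]
  exact (norm_sub_le _ _).trans (by linarith)

theorem glue {fb : ℂ → ℂ} {F : ℂ → ℂ → ℂ} (hb : ContinuousOn fb A.M)
    (hF : ∀ z ∈ Rat2, ContinuousOn (F z) (A.K z))
    (he : ∀ z ∈ Rat2, ∀ p ∈ A.K z, p ∈ A.M → F z p = fb p) (ht : Thin A fb F) :
    Continuous (tot A fb F) := by
  rw [continuous_iff_continuousAt]
  intro p
  by_cases hp : p ∈ A.M
  swap
  · obtain ⟨hz, hint⟩ := not_M hp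
    have h1 : A.K (A.h p) ∈ 𝓝 p := mem_interior_iff_mem_nhds.1 hint
    refine ((hF _ hz).continuousAt h1).congr ?_
    filter_upwards [h1] with q hq
    exact (tot_eq he hz hq).symm
  · rw [Metric.continuousAt_iff']
    intro ε hε
    obtain ⟨δ, hδ, hδb⟩ := Metric.continuousWithinAt_iff.1 (hb p hp) (ε / 2) (by linarith)
    obtain ⟨η, hη⟩ : ∃ η : ℝ, η = min (δ / 2) (ε / 2) / 2 := ⟨_, rfl⟩
    have hm : 0 < min (δ / 2) (ε / 2) := lt_min (by linarith) (by linarith)
    have hη0 : 0 < η := by rw [hη]; linarith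
    have hηδ : η < δ / 2 := by
      have := min_le_left (δ / 2) (ε / 2)
      rw [hη]; linarith
    have hηε : η < ε / 2 := by
      have := min_le_right (δ / 2) (ε / 2)
      rw [hη]; linarith
    obtain ⟨X, hX⟩ := ht η hη0
    have hfin := GLU_fin X (A.h p) 2
    have hev : ∀ z ∈ {z : ℂ | (∃ x ∈ X, ∃ w, z = x + lat w) ∧ ‖z - A.h p‖ ≤ 2},
        ∀ᶠ q in 𝓝 p, z ∈ Rat2 → q ∈ A.K z → dist (F z q) (tot A fb F p) < ε := by
      intro z _
      by_cases hz : z ∈ Rat2
      swap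
      · exact Eventually.of_forall fun q h => absurd h hz
      have hcl : IsClosed (A.K z) := (A.K_compact z).isClosed
      by_cases hpz : p ∈ A.K z
      · have e : tot A fb F p = F z p := tot_eq he hz hpz
        have h1 := (hF z hz) p hpz
        have h2 : ∀ᶠ q in 𝓝[A.K z] p, dist (F z q) (F z p) < ε :=
          h1.eventually (Metric.ball_mem_nhds _ hε)
        rw [eventually_nhdsWithin_iff] at h2
        filter_upwards [h2] with q hq _ hqz
        rw [e]
        exact hq hqz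
      · filter_upwards [hcl.isOpen_compl.mem_nhds hpz] with q hq _ hqz
        exact absurd hqz hq
    have hev' := (eventually_all_finite hfin).2 hev
    have hnear : ∀ᶠ q in 𝓝 p, dist q p < min (δ / 2) 1 :=
      Metric.ball_mem_nhds p (lt_min (by linarith) one_pos)
    filter_upwards [hev', hnear] with q hq hqp
    have hqδ : dist q p < δ / 2 := lt_of_lt_of_le hqp (min_le_left _ _)
    have hq1 : dist q p < 1 := lt_of_lt_of_le hqp (min_le_right _ _)
    have etp : tot A fb F p = fb p := tot_M hp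
    by_cases hqM : q ∈ A.M
    · rw [tot_M hqM, etp]
      have := hδb hqM (by linarith)
      linarith
    · obtain ⟨hz, hint⟩ := not_M hqM
      have hqz : q ∈ A.K (A.h q) := rfl
      have etq : tot A fb F q = F (A.h q) q := tot_eq he hz hqz
      have hlip : ‖A.h q - A.h p‖ ≤ 2 := by
        have h1 := A.h_lip q p
        rw [dist_eq_norm] at hq1
        linarith
      by_cases hzX : ∃ x ∈ X, ∃ w, A.h q = x + lat w
      · rw [etq]
        exact hq (A.h q) ⟨hzX, hlip⟩ hz hqz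
      · obtain ⟨b, hbK, hbM, hqb, hFb⟩ := hX (A.h q) hz hzX q hqz
        have h1 : dist b p < δ := by
          have h2 := dist_triangle b q p
          rw [dist_comm b q, dist_eq_norm q b] at h2
          linarith
        have h3 := hδb hbM h1
        rw [etq, etp]
        have h4 := dist_triangle (F (A.h q) q) (fb b) (fb p)
        rw [dist_eq_norm (F (A.h q) q) (fb b)] at h4
        linarith

theorem thin_inv {φ ψ fb gb : ℂ → ℂ} (H : Dyn2 A φ ψ) (B : Bd A φ ψ fb gb)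
    (ht : Thin A fb (A.C φ fb)) : Thin A gb (A.C ψ gb) := by
  classical
  intro ε hε
  obtain ⟨X, hX⟩ := ht ε hε
  refine ⟨X.image φ, ?_⟩
  intro z hz hzX p hp
  have hz' : ψ z ∈ Rat2 := (H.dψ.rat z).2 hz
  have hzX' : ¬ ∃ x ∈ X, ∃ w, ψ z = x + lat w := by
    rintro ⟨x, hx, w, hw⟩
    apply hzX
    refine ⟨φ x, Finset.mem_image_of_mem φ hx, w, ?_⟩
    rw [← H.dφ.eqv, ← hw, H.φψ]
  have hp' : A.C ψ gb z p ∈ A.K (ψ z) := C_maps' H B hz hp
  obtain ⟨b, hbK, hbM, h1, h2⟩ := hX (ψ z) hz' hzX' _ hp'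
  rw [C_inv' H B hz hp] at h2
  refine ⟨fb b, ?_, B.fM hbM, h2, ?_⟩
  · show A.h (fb b) = z
    have e : A.h b = ψ z := hbK
    rw [B.hf b hbM, e, H.φψ]
  · rw [B.gf b hbM]
    exact h1

end TorD
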