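import Pool.Agent.H51.TD.BAS

/-! # GRW: growth of vertical segments

PROOF. A parametrised straight segment: `γ t = P + ((t - a)/(b - a)) • (Q - P)` on `[a,b]`, `a < b`; `X = |(Q-P).re|`, `Y = |(Q-P).im|`.
Step V: if `Y ≤ X / 7` and `X > 0`: there are `a ≤ a' < b' ≤ b` such that `Vv ∘ γ` is straight on `[a',b']` with `X' ≥ min (X/2) (1/2)`, `Y' ≥ 7 X'`: the lines `re ∈ (1/2)ℤ` cut `[a,b]`; if `X ≤ 1/2`
there is at most one cut, take the longer half; if `X > 1/2` there is a full strip `[m/2,(m+1)/2]` or a piece of length `≥ 1/4`... (precisely: an interval of length `X > 1/2` either contains a full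
`[m/2,(m+1)/2]` or, cut once, has a part of length `≥ X/2`; in all cases some part inside one strip has length `≥ min (X/2) (1/2)`, and we may shorten a part). On the strip `aa` is affine with slope `±8`:
`Y' ≥ 8 X' - Y' _old ≥ 8 X' - X'/7 ≥ 7 X'`. Step H: the same with the coordinates exchanged: if `X ≤ Y/7` or (`X = 0`), `Y > 0`: `Hh ∘ γ` straight on a subsegment with `Y' ≥ min (Y/2) (1/2)`, `X' ≥ 7 Y'`.
One step of `ph = Vv ∘ Hh` from a steep segment (`X ≤ Y/7`): steep again with `Y'' ≥ 7 min (X'/2) (1/2) ≥ min (12 Y) (7/2)`, where `X' ≥ 7 min (Y/2) (1/2)`. So after finitely many steps the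
height is `≥ 7/2`. Start: vertical segment `t i`, `t ∈ [t₁,t₂]`, `X = 0`. For `grow_bwd`: `pi^[n] (t i) = Ss (ph^[n] (Ss (t i)))` (pi_eq, Ss_Ss), `Ss (t i) = (-t, 0)`: horizontal segment; first step:
`Hh` on a horizontal segment `im = 0` is the identity, then step V; continue as before. `Ss` exchanges the two coordinates up to signs. -/

set_option autoImplicit false

open Topology Filter Set Function

namespace TorD

/-- `γ` is affine on `[a,b]` -/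
def GRW_A (γ : ℝ → ℂ) (a b x r y s : ℝ) : Prop :=
  ∀ t ∈ Icc a b, (γ t).re = x + t * r ∧ (γ t).im = y + t * s

theorem GRW_strip1 (p q : ℝ) (hpq : p < q) : ∃ (p' q' : ℝ) (m : ℤ), p ≤ p' ∧ p' < q' ∧ q' ≤ q ∧
    (m : ℝ) / 2 ≤ p' ∧ q' ≤ ((m : ℝ) + 1) / 2 ∧ min ((q - p) / 2) (1 / 2) ≤ q' - p' := by
  have h1 : ((⌊2 * p⌋ : ℤ) : ℝ) ≤ 2 * p := Int.floor_le _
  have h2 : 2 * p < (⌊2 * p⌋ : ℤ) + 1 := Int.lt_floor_add_one _
  obtain ⟨m, hm⟩ : ∃ m : ℤ, m = ⌊2 * p⌋ := ⟨_, rfl⟩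
  rw [← hm] at h1 h2
  by_cases hA : q ≤ ((m : ℝ) + 1) / 2
  · exact ⟨p, q, m, le_rfl, hpq, le_rfl, by linarith, hA, (min_le_left _ _).trans (by linarith)⟩
  · push Not at hA
    by_cases hB : (q - p) / 2 ≤ ((m : ℝ) + 1) / 2 - p
    · exact ⟨p, ((m : ℝ) + 1) / 2, m, le_rfl, by linarith, hA.le, by linarith, le_rfl,
        (min_le_left _ _).trans hB⟩
    · push Not at hB
      refine ⟨((m : ℝ) + 1) / 2, min q (((m : ℝ) + 1) / 2 + 1 / 2), m + 1, by linarith,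
        lt_min hA (by linarith), min_le_left _ _, by push_cast; linarith,
        (min_le_right _ _).trans (by push_cast; linarith), ?_⟩
      rcases min_choice q (((m : ℝ) + 1) / 2 + 1 / 2) with h | h <;> rw [h]
      · exact (min_le_left _ _).trans (by linarith)
      · exact (min_le_right _ _).trans (by linarith)

theorem GRW_strip_pos (x r a b : ℝ) (hr : 0 < r) (hab : a < b) :
    ∃ (a' b' : ℝ) (m : ℤ), a ≤ a' ∧ a' < b' ∧ b' ≤ b ∧
    (∀ t ∈ Icc a' b', (m : ℝ) / 2 ≤ x + t * r ∧ x + t * r ≤ ((m : ℝ) + 1) / 2) ∧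
    min (r * (b - a) / 2) (1 / 2) ≤ r * (b' - a') := by
  obtain ⟨p', q', m, h1, h2, h3, h4, h5, h6⟩ := GRW_strip1 (x + a * r) (x + b * r)
    (by nlinarith)
  refine ⟨(p' - x) / r, (q' - x) / r, m, ?_, ?_, ?_, ?_, ?_⟩
  · rw [le_div_iff₀ hr]; linarith
  · exact (div_lt_div_iff_of_pos_right hr).2 (by linarith)
  · rw [div_le_iff₀ hr]; linarith
  · intro t ht
    have e1 := (div_le_iff₀ hr).1 ht.1
    have e2 := (le_div_iff₀ hr).1 ht.2
    constructor <;> linarith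
  · have e : r * ((q' - x) / r - (p' - x) / r) = q' - p' := by
      field_simp
      ring
    rw [e]
    have e2 : (x + b * r - (x + a * r)) / 2 = r * (b - a) / 2 := by ring
    rw [e2] at h6
    exact h6

theorem GRW_strip (x r a b : ℝ) (hr : r ≠ 0) (hab : a < b) :
    ∃ (a' b' : ℝ) (m : ℤ), a ≤ a' ∧ a' < b' ∧ b' ≤ b ∧
    (∀ t ∈ Icc a' b', x + t * r ∈ Icc ((m : ℝ) / 2) (((m : ℝ) + 1) / 2)) ∧
    min (|r| * (b - a) / 2) (1 / 2) ≤ |r| * (b' - a') := by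
  rcases lt_or_gt_of_ne hr with h | h
  · obtain ⟨a', b', m, h1, h2, h3, h4, h5⟩ := GRW_strip_pos (-x) (-r) a b (by linarith) hab
    refine ⟨a', b', -m - 1, h1, h2, h3, ?_, ?_⟩
    · intro t ht
      have := h4 t ht
      constructor
      · push_cast
        linarith [this.2]
      · push_cast
        linarith [this.1]
    · rw [abs_of_neg h]
      exact h5
  · obtain ⟨a', b', m, h1, h2, h3, h4, h5⟩ := GRW_strip_pos x r a b h hab
    refine ⟨a', b', m, h1, h2, h3, fun t ht => h4 t ht, ?_⟩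
    rw [abs_of_pos h]
    exact h5

theorem GRW_slope {r s : ℝ} {σ : ℤ} (hσ : σ = 8 ∨ σ = -8) (hs : 7 * |s| ≤ |r|) :
    7 * |r| ≤ |s + σ * r| := by
  have h1 : |(σ : ℝ) * r| = 8 * |r| := by
    rw [abs_mul]
    rcases hσ with h | h <;> rw [h] <;> norm_num
  have h2 : |(σ : ℝ) * r| ≤ |s + σ * r| + |s| := by
    have := abs_sub (s + σ * r) s
    rwa [add_sub_cancel_left] at this
  have h3 := abs_nonneg s
  linarith

theorem GRW_V {γ : ℝ → ℂ} {a b x r y s : ℝ} (h : GRW_A γ a b x r y s) (hr : r ≠ 0) (hab : a < b)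
    (hs : 7 * |s| ≤ |r|) : ∃ a' b' y' s' : ℝ, a ≤ a' ∧ a' < b' ∧ b' ≤ b ∧
    GRW_A (fun t => Vv (γ t)) a' b' x r y' s' ∧ 7 * |r| ≤ |s'| ∧
    min (|r| * (b - a) / 2) (1 / 2) ≤ |r| * (b' - a') := by
  obtain ⟨a', b', m, h1, h2, h3, h4, h5⟩ := GRW_strip x r a b hr hab
  obtain ⟨σ, d, hσ, hd⟩ := aa_piece m
  refine ⟨a', b', y + σ * x + d, s + σ * r, h1, h2, h3, ?_, GRW_slope hσ hs, h5⟩
  intro t ht
  have ht' : t ∈ Icc a b := ⟨h1.trans ht.1, ht.2.trans h3⟩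
  obtain ⟨e1, e2⟩ := h t ht'
  refine ⟨e1, ?_⟩
  show (γ t).im + aa (γ t).re = _
  rw [e1, e2, hd _ (h4 t ht)]
  ring

theorem GRW_H {γ : ℝ → ℂ} {a b x r y s : ℝ} (h : GRW_A γ a b x r y s) (hs : s ≠ 0) (hab : a < b)
    (hr : 7 * |r| ≤ |s|) : ∃ a' b' x' r' : ℝ, a ≤ a' ∧ a' < b' ∧ b' ≤ b ∧
    GRW_A (fun t => Hh (γ t)) a' b' x' r' y s ∧ 7 * |s| ≤ |r'| ∧
    min (|s| * (b - a) / 2) (1 / 2) ≤ |s| * (b' - a') := by
  obtain ⟨a', b', m, h1, h2, h3, h4, h5⟩ := GRW_strip y s a b hs hab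
  obtain ⟨σ, d, hσ, hd⟩ := aa_piece m
  refine ⟨a', b', x + σ * y + d, r + σ * s, h1, h2, h3, ?_, GRW_slope hσ hr, h5⟩
  intro t ht
  have ht' : t ∈ Icc a b := ⟨h1.trans ht.1, ht.2.trans h3⟩
  obtain ⟨e1, e2⟩ := h t ht'
  refine ⟨?_, e2⟩
  show (γ t).re + aa (γ t).im = _
  rw [e1, e2, hd _ (h4 t ht)]
  ring

theorem GRW_step {γ : ℝ → ℂ} {a b x r y s : ℝ} (h : GRW_A γ a b x r y s) (hs : s ≠ 0)
    (hab : a < b) (hr : 7 * |r| ≤ |s|) : ∃ a' b' x' r' y' s' : ℝ, a ≤ a' ∧ a' < b' ∧ b' ≤ b ∧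
    GRW_A (fun t => ph (γ t)) a' b' x' r' y' s' ∧ s' ≠ 0 ∧ 7 * |r'| ≤ |s'| ∧
    min (12 * (|s| * (b - a))) (7 / 2) ≤ |s'| * (b' - a') := by
  obtain ⟨a₁, b₁, x₁, r₁, h1, h2, h3, h4, h5, h6⟩ := GRW_H h hs hab hr
  have hs0 : 0 < |s| := abs_pos.2 hs
  have hr₁ : r₁ ≠ 0 := by
    intro h0
    rw [h0, abs_zero] at h5
    linarith
  have hr0 : 0 < |r₁| := abs_pos.2 hr₁
  obtain ⟨a₂, b₂, y₂, s₂, g1, g2, g3, g4, g5, g6⟩ := GRW_V h4 hr₁ h2 (by linarith)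
  have hs₂ : s₂ ≠ 0 := by
    intro h0
    rw [h0, abs_zero] at g5
    linarith
  refine ⟨a₂, b₂, x₁, r₁, y₂, s₂, h1.trans g1, g2, g3.trans h3, g4, hs₂, g5, ?_⟩
  have hb1 : 0 < b₁ - a₁ := by linarith
  have hb2 : 0 < b₂ - a₂ := by linarith
  have k1 : 7 * min (|s| * (b - a) / 2) (1 / 2) ≤ |r₁| * (b₁ - a₁) := by
    calc 7 * min (|s| * (b - a) / 2) (1 / 2) ≤ 7 * (|s| * (b₁ - a₁)) := by linarith
      _ = (7 * |s|) * (b₁ - a₁) := by ring
      _ ≤ |r₁| * (b₁ - a₁) := mul_le_mul_of_nonneg_right h5 hb1.le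
  have k2 : 7 * min (|r₁| * (b₁ - a₁) / 2) (1 / 2) ≤ |s₂| * (b₂ - a₂) := by
    calc 7 * min (|r₁| * (b₁ - a₁) / 2) (1 / 2) ≤ 7 * (|r₁| * (b₂ - a₂)) := by linarith
      _ = (7 * |r₁|) * (b₂ - a₂) := by ring
      _ ≤ |s₂| * (b₂ - a₂) := mul_le_mul_of_nonneg_right g5 hb2.le
  refine le_trans ?_ k2
  have hpos : 0 < |s| * (b - a) := mul_pos hs0 (by linarith)
  rcases min_choice (|r₁| * (b₁ - a₁) / 2) (1 / 2) with e | e <;> rw [e]
  · rcases min_choice (|s| * (b - a) / 2) (1 / 2) with e' | e' <;> rw [e'] at k1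
    · exact (min_le_left _ _).trans (by linarith)
    · exact (min_le_right _ _).trans (by linarith)
  · exact (min_le_right _ _).trans (by linarith)

theorem GRW_iter {γ : ℝ → ℂ} {a b x r y s : ℝ} (h : GRW_A γ a b x r y s) (hs : s ≠ 0)
    (hab : a < b) (hr : 7 * |r| ≤ |s|) (n : ℕ) : ∃ a' b' x' r' y' s' : ℝ,
    a ≤ a' ∧ a' < b' ∧ b' ≤ b ∧
    GRW_A (fun t => ph^[n] (γ t)) a' b' x' r' y' s' ∧ s' ≠ 0 ∧ 7 * |r'| ≤ |s'| ∧
    min (12 ^ n * (|s| * (b - a))) (7 / 2) ≤ |s'| * (b' - a') := by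
  induction n with
  | zero =>
    refine ⟨a, b, x, r, y, s, le_rfl, hab, le_rfl, h, hs, hr, ?_⟩
    exact (min_le_left _ _).trans (by rw [pow_zero, one_mul])
  | succ n ih =>
    obtain ⟨a₁, b₁, x₁, r₁, y₁, s₁, h1, h2, h3, h4, h5, h6, h7⟩ := ih
    obtain ⟨a₂, b₂, x₂, r₂, y₂, s₂, g1, g2, g3, g4, g5, g6, g7⟩ := GRW_step h4 h5 h2 h6
    refine ⟨a₂, b₂, x₂, r₂, y₂, s₂, h1.trans g1, g2, g3.trans h3, ?_, g5, g6, ?_⟩
    · intro t ht
      have := g4 t ht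
      simp only [Function.iterate_succ_apply']
      exact this
    · refine le_trans ?_ g7
      refine le_min ?_ (min_le_right _ _)
      rcases min_choice (12 ^ n * (|s| * (b - a))) (7 / 2 : ℝ) with e | e <;> rw [e] at h7
      · calc min (12 ^ (n + 1) * (|s| * (b - a))) (7 / 2) ≤ 12 ^ (n + 1) * (|s| * (b - a)) :=
            min_le_left _ _
          _ = 12 * (12 ^ n * (|s| * (b - a))) := by ring
          _ ≤ _ := by linarith
      · exact (min_le_right _ _).trans (by linarith)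

theorem GRW_big {Y : ℝ} (hY : 0 < Y) : ∃ n : ℕ, 7 / 2 ≤ 12 ^ n * Y := by
  obtain ⟨n, hn⟩ := pow_unbounded_of_one_lt (7 / 2 / Y) (by norm_num : (1 : ℝ) < 12)
  refine ⟨n, ?_⟩
  rw [div_lt_iff₀ hY] at hn
  exact hn.le

/-- from components to the final form -/
theorem GRW_final {γ : ℝ → ℂ} {a b x r y s : ℝ} (h : GRW_A γ a b x r y s) (hab : a < b) :
    ∃ p q : ℂ, (∀ t ∈ Icc a b, γ t = p + ((t - a) / (b - a) : ℝ) • (q - p)) ∧
      (q - p).re = (b - a) * r ∧ (q - p).im = (b - a) * s := by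
  have hb : b - a ≠ 0 := by linarith
  refine ⟨⟨x + a * r, y + a * s⟩, ⟨x + b * r, y + b * s⟩, ?_, ?_, ?_⟩
  · intro t ht
    obtain ⟨e1, e2⟩ := h t ht
    apply Complex.ext
    · simp only [Complex.add_re, Complex.smul_re, Complex.sub_re, smul_eq_mul]
      rw [e1]
      field_simp
      ring
    · simp only [Complex.add_im, Complex.smul_im, Complex.sub_im, smul_eq_mul]
      rw [e2]
      field_simp
      ring
  · simp only [Complex.sub_re]; ring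
  · simp only [Complex.sub_im]; ring

theorem grow_fwd {t₁ t₂ : ℝ} (h : t₁ < t₂) : ∃ (n : ℕ) (a b : ℝ) (p q : ℂ), t₁ ≤ a ∧ a < b ∧ b ≤ t₂ ∧
    (∀ t ∈ Icc a b, ph^[n] (t * Complex.I) = p + ((t - a) / (b - a) : ℝ) • (q - p)) ∧
    7 / 2 ≤ |(q - p).im| ∧ 7 * |(q - p).re| ≤ |(q - p).im| := by
  have h0 : GRW_A (fun t => (t : ℂ) * Complex.I) t₁ t₂ 0 0 0 1 := by
    intro t _
    simp
  obtain ⟨n, hn⟩ := GRW_big (Y := |(1 : ℝ)| * (t₂ - t₁)) (by rw [abs_one]; linarith)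
  obtain ⟨a, b, x, r, y, s, h1, h2, h3, h4, h5, h6, h7⟩ :=
    GRW_iter h0 one_ne_zero h (by simp) n
  rw [min_eq_right hn] at h7
  obtain ⟨p, q, e1, e2, e3⟩ := GRW_final h4 h2
  refine ⟨n, a, b, p, q, h1, h2, h3, e1, ?_, ?_⟩
  · rw [e3, abs_mul, abs_of_pos (by linarith : 0 < b - a)]
    linarith
  · rw [e2, e3, abs_mul, abs_mul, abs_of_pos (by linarith : 0 < b - a)]
    have : 0 < b - a := by linarith
    nlinarith

theorem GRW_pi_iter (n : ℕ) (z : ℂ) : pi^[n] z = Ss (ph^[n] (Ss z)) := by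
  induction n with
  | zero => simp [Ss_Ss]
  | succ n ih => rw [Function.iterate_succ_apply', ih, pi_eq, Ss_Ss, Function.iterate_succ_apply']

theorem grow_bwd {t₁ t₂ : ℝ} (h : t₁ < t₂) : ∃ (n : ℕ) (a b : ℝ) (p q : ℂ), t₁ ≤ a ∧ a < b ∧ b ≤ t₂ ∧
    (∀ t ∈ Icc a b, pi^[n] (t * Complex.I) = p + ((t - a) / (b - a) : ℝ) • (q - p)) ∧
    7 / 2 ≤ |(q - p).re| ∧ 7 * |(q - p).im| ≤ |(q - p).re| := by
  have h0 : GRW_A (fun t => Hh (Ss ((t : ℂ) * Complex.I))) t₁ t₂ 0 (-1) 0 0 := by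
    intro t _
    simp [Hh, Ss, aa_zero]
  obtain ⟨a₀, b₀, y₀, s₀, g1, g2, g3, g4, g5, g6⟩ := GRW_V h0 (by norm_num) h (by simp)
  have hs₀ : s₀ ≠ 0 := by
    intro h0
    rw [h0] at g5
    norm_num at g5
  have g4' : GRW_A (fun t => ph (Ss ((t : ℂ) * Complex.I))) a₀ b₀ 0 (-1) y₀ s₀ := g4
  obtain ⟨n, hn⟩ := GRW_big (Y := |s₀| * (b₀ - a₀)) (mul_pos (abs_pos.2 hs₀) (by linarith))
  obtain ⟨a, b, x, r, y, s, h1, h2, h3, h4, h5, h6, h7⟩ :=
    GRW_iter g4' hs₀ g2 g5 n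
  rw [min_eq_right hn] at h7
  have h8 : GRW_A (fun t => pi^[n + 1] ((t : ℂ) * Complex.I)) a b (-y) (-s) (-x) (-r) := by
    intro t ht
    obtain ⟨e1, e2⟩ := h4 t ht
    have e0 : pi^[n + 1] ((t : ℂ) * Complex.I) = Ss (ph^[n] (ph (Ss ((t : ℂ) * Complex.I)))) := by
      rw [GRW_pi_iter, Function.iterate_succ_apply]
    simp only [e0]
    constructor
    · show -(ph^[n] (ph (Ss ((t : ℂ) * Complex.I)))).im = _
      rw [e2]; ring
    · show -(ph^[n] (ph (Ss ((t : ℂ) * Complex.I)))).re = _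
      rw [e1]; ring
  obtain ⟨p, q, e1, e2, e3⟩ := GRW_final h8 h2
  refine ⟨n + 1, a, b, p, q, g1.trans h1, h2, h3.trans g3, e1, ?_, ?_⟩
  · rw [e2, abs_mul, abs_of_pos (by linarith : 0 < b - a), abs_neg]
    linarith
  · rw [e2, e3, abs_mul, abs_mul, abs_of_pos (by linarith : 0 < b - a), abs_neg, abs_neg]
    have : 0 < b - a := by linarith
    nlinarith

end TorD
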