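import Pool.Agent.H51.TD.SUR
import Pool.Agent.H51.TD.PCB

/-! # HMP: the blow-down map `h`

PROOF. `h` is defined by `Classical.epsilon`; by `sur` (`Classical.epsilon_spec`) there is a code `v` of `h p` with `p = pt (h p) v`. If `p = pt y v` with a code `v` of `y` then
`uni` with both codes gives `‖y - h p‖ = 0`. h_mono and h_lip: `uni` and `ip_le`. h_lat: codes of `y + lat w` are the codes of `y` (D_lat), pt_lat. h_near: norm_sum_code. h_surj: `p = pt y sel`.
h_limit: the codes `vs n` of `h (ps n)`; pass to the limit in every subsequence. -/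

set_option autoImplicit false

open Topology Filter Set Function

namespace TorD

namespace Fam

variable {ι : Type} [Countable ι] (A : Fam ι)

theorem h_code (p : ℂ) : ∃ v, A.code (A.h p) v ∧ p = A.pt (A.h p) v :=
  Classical.epsilon_spec (p := fun y => ∃ v, A.code y v ∧ p = A.pt y v) (A.sur p)

theorem h_pt {y : ℂ} {v : ι → ℂ} (hv : A.code y v) : A.h (A.pt y v) = y := by
  obtain ⟨v', hv', he⟩ := A.h_code (A.pt y v)
  have h1 := A.uni hv hv'
  rw [← he, sub_self] at h1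
  have h2 : ip 0 (y - A.h (A.pt y v)) = 0 := by unfold ip; simp
  rw [h2] at h1
  have h3 : ‖y - A.h (A.pt y v)‖ ^ 2 = 0 := le_antisymm (by linarith) (by positivity)
  have h4 : ‖y - A.h (A.pt y v)‖ = 0 := by
    rcases pow_eq_zero_iff (two_ne_zero) |>.mp h3 with h
    exact h
  exact (sub_eq_zero.mp (norm_eq_zero.mp h4)).symm

theorem h_mono (p p' : ℂ) : 1 / 2 * ‖A.h p - A.h p'‖ ^ 2 ≤ ip (A.h p - A.h p') (p - p') := by
  obtain ⟨v, hv, he⟩ := A.h_code p
  obtain ⟨v', hv', he'⟩ := A.h_code p'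
  have h1 := A.uni hv hv'
  rw [← he, ← he', ip_comm] at h1
  exact h1

theorem h_lip (p p' : ℂ) : ‖A.h p - A.h p'‖ ≤ 2 * ‖p - p'‖ := by
  have h1 := (A.h_mono p p').trans (ip_le _ _)
  by_contra hn
  have hn' := not_le.mp hn
  have h2 : 0 < ‖A.h p - A.h p'‖ := lt_of_le_of_lt (by positivity) hn'
  nlinarith

theorem h_cont : Continuous A.h := by
  have h1 : LipschitzWith 2 A.h := by
    apply LipschitzWith.of_dist_le_mul
    intro p p'
    rw [dist_eq_norm, dist_eq_norm]
    exact A.h_lip p p'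
  exact h1.continuous

theorem h_lat (p : ℂ) (w : ℤ × ℤ) : A.h (p + lat w) = A.h p + lat w := by
  obtain ⟨v, hv, he⟩ := A.h_code p
  have hc : A.code (A.h p + lat w) v := fun i => by
    rw [D_lat]
    exact hv i
  have h1 := A.h_pt hc
  rw [pt_lat, ← he] at h1
  exact h1

theorem h_near (p : ℂ) : ‖A.h p - p‖ ≤ 1 / 32 := by
  obtain ⟨v, hv, he⟩ := A.h_code p
  have h1 : p - A.h p = ∑' i, A.c i • v i := by
    have h2 : A.pt (A.h p) v = A.h p + ∑' i, A.c i • v i := rfl
    rw [← he] at h2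
    linear_combination h2
  rw [norm_sub_rev, h1]
  exact A.norm_sum_code fun i => A.D_norm i (hv i)

theorem h_m (y : ℂ) : A.h (A.m y) = y := A.h_pt fun i => A.D_sel i y

theorem h_surj : Surjective A.h := fun y => ⟨A.m y, A.h_m y⟩

theorem h_Pi (y : ℂ) {s : ℝ} (hs : |s| ≤ 1) : A.h (A.Pi y s) = y :=
  A.h_pt fun i => A.V_mem i y hs

/-- limits of codes -/
theorem h_limit {ys ps : ℕ → ℂ} {vs : ℕ → ι → ℂ} {p : ℂ} (hc : ∀ n, A.code (ys n) (vs n))
    (hp : ∀ n, ps n = A.pt (ys n) (vs n)) (hlim : Tendsto ps atTop (𝓝 p)) :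
    ∃ (v : ι → ℂ) (k : ℕ → ℕ), StrictMono k ∧ A.code (A.h p) v ∧ p = A.pt (A.h p) v ∧
      ∀ i, Tendsto (fun n => vs (k n) i) atTop (𝓝 (v i)) := by
  have hb : ∀ n i, ‖vs n i‖ ≤ 1 := fun n i => A.D_norm i (hc n i)
  obtain ⟨v, k, hk, _, hv⟩ := code_subseq vs hb
  have hy : ∀ n, ys n = A.h (ps n) := fun n => by rw [hp n, A.h_pt (hc n)]
  have hyl : Tendsto ys atTop (𝓝 (A.h p)) := by
    have h1 : ys = fun n => A.h (ps n) := funext hy
    rw [h1]
    exact (A.h_cont.tendsto p).comp hlim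
  have hyk : Tendsto (fun n => ys (k n)) atTop (𝓝 (A.h p)) := hyl.comp hk.tendsto_atTop
  have hcode : A.code (A.h p) v := fun i =>
    A.D_closed i hyk (hv i) fun n => hc (k n) i
  refine ⟨v, k, hk, hcode, ?_, hv⟩
  have h1 : Tendsto (fun n => A.pt (ys (k n)) (vs (k n))) atTop (𝓝 (A.pt (A.h p) v)) :=
    A.pt_tendsto hyk hv (Eventually.of_forall fun n i => hb (k n) i)
  have h2 : Tendsto (fun n => A.pt (ys (k n)) (vs (k n))) atTop (𝓝 p) := by
    have h3 : (fun n => A.pt (ys (k n)) (vs (k n))) = fun n => ps (k n) :=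
      funext fun n => (hp (k n)).symm
    rw [h3]
    exact hlim.comp hk.tendsto_atTop
  exact tendsto_nhds_unique h2 h1

end Fam

end TorD
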