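import Pool.Agent.H51.TD.DRC
import Pool.Agent.H51.TD.PCB

/-! # HPL: the half plane lemma

PROOF. Loc.half: `L 0 = 0`. Claim: `dt t u ≠ 0` implies `dt t' (L u) ≠ 0`. If `dt t' (L u) = 0` then `L u = c • t'` for a real `c`; if `c > 0`, `L u = L ((c/r) t)`, `u = (c/r) t`, `dt t u = 0`; if `c < 0`,
`L u = L ((-c/r') (-t))`; if `c = 0`, `L u = L 0`: all impossible. The half plane `{u | 0 < dt t u}` is convex, so preconnected, `u ↦ dt t' (L u)` is continuous without zero on it, so of constant sign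
(`IsPreconnected.image`, or intermediate value along segments). At `u = t + η (I t)`, `η > 0` small: `dt t u = η ‖t‖² > 0` and by Loc.det at `t`: `r dt t' (L u) = dt (L t) (L u) = dt t u > 0`. So the sign is
positive. The other half plane: `{dt t u < 0}`, `u = t - η (I t)`.
TS.int: `On k (z ± ε u k)` for small `ε > 0`, closedness (On_closed) gives `On k z`; On_loc: `rd (z - q) = t₀ u`, and `t₀ ± ε ∈ [-1,1]`, so `|t₀| < 1`, `|ip (t₀ u) u| = |t₀| ‖u‖² < ‖u‖²`. The same for `j`.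
TS.dir: rescale `ε` (`ε • u k = (ε ‖u k‖) • e k`): `Dr φ z (e k) (e j)`, `Dr φ z (-e k) (-e j)`, and all the `al`. TS.sign: let `Loc φ z L`; `L (e k) = (positive) e j`,
`L (-e k) = -(positive) e j` (compare with TS for small `ε`, homogeneity), `L θ = (positive) θ'`; Loc.half. -/

set_option autoImplicit false

open Topology Filter Set Function

namespace TorD

theorem HPL_dt_smul_left (c : ℝ) (v w : ℂ) : dt (c • v) w = c * dt v w := by
  unfold dt; simp only [Complex.smul_re, Complex.smul_im, smul_eq_mul]; ring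

theorem HPL_dt_smul_right (c : ℝ) (v w : ℂ) : dt v (c • w) = c * dt v w := by
  unfold dt; simp only [Complex.smul_re, Complex.smul_im, smul_eq_mul]; ring

theorem HPL_dt_neg_left (v w : ℂ) : dt (-v) w = -dt v w := by
  unfold dt; simp only [Complex.neg_re, Complex.neg_im]; ring

theorem HPL_dt_self (v : ℂ) : dt v v = 0 := by unfold dt; ring

theorem HPL_dt_add_right (v w w' : ℂ) : dt v (w + w') = dt v w + dt v w' := by
  unfold dt; simp only [Complex.add_re, Complex.add_im]; ring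

theorem HPL_dt_I (v : ℂ) : dt v (Complex.I * v) = ‖v‖ ^ 2 := by
  rw [← ip_self]
  unfold dt ip
  simp only [Complex.mul_re, Complex.mul_im, Complex.I_re, Complex.I_im]; ring

theorem HPL_dt_cont (v : ℂ) : Continuous (fun w : ℂ => dt v w) := by
  unfold dt
  exact (continuous_const.mul Complex.continuous_im).sub
    (continuous_const.mul Complex.continuous_re)

theorem HPL_par {v w : ℂ} (hv : v ≠ 0) (h : dt v w = 0) : ∃ c : ℝ, w = c • v := by
  have hpos : 0 < ‖v‖ ^ 2 := by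
    have := norm_pos_iff.2 hv
    positivity
  have hsq : ‖v‖ ^ 2 = v.re ^ 2 + v.im ^ 2 := by
    rw [← ip_self]; unfold ip; ring
  refine ⟨ip w v / ‖v‖ ^ 2, ?_⟩
  have hd : v.re * w.im - v.im * w.re = 0 := h
  have hne : v.re ^ 2 + v.im ^ 2 ≠ 0 := by rw [← hsq]; exact hpos.ne'
  rw [hsq]
  unfold ip
  apply Complex.ext
  · simp only [Complex.smul_re, smul_eq_mul]
    field_simp
    linear_combination (-v.im) * hd
  · simp only [Complex.smul_im, smul_eq_mul]
    field_simp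
    linear_combination (v.re) * hd

theorem HPL_half1 {φ : ℂ → ℂ} {z : ℂ} {L : ℂ → ℂ} (h : Loc φ z L) {t t' : ℂ} (ht : t ≠ 0)
    (ht' : t' ≠ 0) {r r' : ℝ} (hr : 0 < r) (hr' : 0 < r') (h1 : L t = r • t')
    (h2 : L (-t) = -(r' • t')) (u : ℂ) (hu : 0 < dt t u) : 0 < dt t' (L u) := by
  have hL0 : L 0 = 0 := by
    have h3 := h.hom 2 (by norm_num) 0
    rw [smul_zero] at h3
    have h4 : L 0 = L 0 + L 0 := by
      conv_lhs => rw [h3]
      rw [two_smul]
    exact (left_eq_add.mp h4)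
  have hne : ∀ u, dt t u ≠ 0 → dt t' (L u) ≠ 0 := by
    intro u hu0 h3
    obtain ⟨c, hc⟩ := HPL_par ht' h3
    rcases lt_trichotomy c 0 with hc0 | hc0 | hc0
    · have h4 : L ((-c / r') • (-t)) = L u := by
        rw [h.hom _ (div_pos (by linarith) hr'), h2, hc, smul_neg, smul_smul,
          div_mul_cancel₀ _ hr'.ne', neg_smul, neg_neg]
      have h5 := h.inj h4
      apply hu0
      rw [← h5, HPL_dt_smul_right]
      have : dt t (-t) = 0 := by unfold dt; simp only [Complex.neg_re, Complex.neg_im]; ring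
      rw [this, mul_zero]
    · rw [hc0, zero_smul, ← hL0] at hc
      have h5 := h.inj hc
      apply hu0
      rw [h5]
      unfold dt; simp
    · have h4 : L ((c / r) • t) = L u := by
        rw [h.hom _ (div_pos hc0 hr), h1, hc, smul_smul, div_mul_cancel₀ _ hr.ne']
      have h5 := h.inj h4
      apply hu0
      rw [← h5, HPL_dt_smul_right, HPL_dt_self, mul_zero]
  -- a point of the half plane with positive value
  have hex : ∃ u0, 0 < dt t u0 ∧ 0 < dt t' (L u0) := by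
    have hT : Tendsto (fun η : ℝ => t + η • (Complex.I * t)) (𝓝[>] 0) (𝓝 t) := by
      have h3 : Continuous (fun η : ℝ => t + η • (Complex.I * t)) :=
        continuous_const.add (continuous_id.smul continuous_const)
      have h4 := h3.tendsto 0
      rw [zero_smul, add_zero] at h4
      exact h4.mono_left nhdsWithin_le_nhds
    have h5 := hT.eventually (h.det t ht)
    have h6 : ∀ᶠ η in 𝓝[>] (0 : ℝ), 0 < η := self_mem_nhdsWithin
    obtain ⟨η, h7, h8⟩ := (h5.and h6).exists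
    have h9 : 0 < dt t (t + η • (Complex.I * t)) := by
      rw [HPL_dt_add_right, HPL_dt_self, HPL_dt_smul_right, HPL_dt_I, zero_add]
      have := norm_pos_iff.2 ht
      positivity
    refine ⟨_, h9, ?_⟩
    rw [← h7, h1, HPL_dt_smul_left] at h9
    exact (mul_pos_iff_of_pos_left hr).1 h9
  obtain ⟨u0, hu0, hu0'⟩ := hex
  have hconv : Convex ℝ {v : ℂ | 0 < dt t v} := by
    intro x hx y hy a b ha hb hab
    have hx' : 0 < dt t x := hx
    have hy' : 0 < dt t y := hy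
    show 0 < dt t (a • x + b • y)
    rw [HPL_dt_add_right, HPL_dt_smul_right, HPL_dt_smul_right]
    rcases ha.eq_or_lt with h3 | h3
    · rw [← h3] at hab ⊢
      have : b = 1 := by linarith
      rw [this]; linarith
    · have := mul_pos h3 hx'
      have := mul_nonneg hb hy'.le
      linarith
  have hcont : ContinuousOn (fun v : ℂ => dt t' (L v)) {v : ℂ | 0 < dt t v} :=
    ((HPL_dt_cont t').comp h.cont).continuousOn
  by_contra hcon
  have hcon' : dt t' (L u) ≤ 0 := not_lt.mp hcon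
  have hiv := hconv.isPreconnected.intermediate_value (show u ∈ {v : ℂ | 0 < dt t v} from hu)
    (show u0 ∈ {v : ℂ | 0 < dt t v} from hu0) hcont
  obtain ⟨x, hx, hx0⟩ := hiv ⟨hcon', hu0'.le⟩
  have hx' : 0 < dt t x := hx
  exact hne x hx'.ne' hx0

theorem Loc.half {φ : ℂ → ℂ} {z : ℂ} {L : ℂ → ℂ} (h : Loc φ z L) {t t' : ℂ} (ht : t ≠ 0)
    (ht' : t' ≠ 0) {r r' : ℝ} (hr : 0 < r) (hr' : 0 < r') (h1 : L t = r • t')
    (h2 : L (-t) = -(r' • t')) (u : ℂ) :
    (0 < dt t u → 0 < dt t' (L u)) ∧ (dt t u < 0 → dt t' (L u) < 0) := by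
  refine ⟨HPL_half1 h ht ht' hr hr' h1 h2 u, fun hu => ?_⟩
  have h3 := HPL_half1 h (t := -t) (t' := -t') (neg_ne_zero.2 ht) (neg_ne_zero.2 ht') hr' hr
    (by rw [h2, smul_neg]) (by rw [neg_neg, h1, smul_neg, neg_neg]) u
    (by rw [HPL_dt_neg_left]; linarith)
  rw [HPL_dt_neg_left] at h3
  linarith

theorem HPL_smul_inj {a b : ℝ} {v : ℂ} (hv : v ≠ 0) (h : a • v = b • v) : a = b := by
  have h1 : (a - b) • v = 0 := by rw [sub_smul, h, sub_self]
  rcases smul_eq_zero.1 h1 with h2 | h2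
  · linarith
  · exact absurd h2 hv

theorem HPL_int {ι : Type} (A : Fam ι) (i : ι) {y : ℂ} (hu : A.u i ≠ 0)
    (h : ∀ᶠ ε in 𝓝[>] (0 : ℝ), A.On i (y + ε • A.u i) ∧ A.On i (y - ε • A.u i)) :
    A.On i y ∧ |ip (rd (y - A.q i)) (A.u i)| < ‖A.u i‖ ^ 2 := by
  have hon : A.On i y := A.AMA_on i (h.mono (fun ε hε => hε.1)).frequently
  refine ⟨hon, ?_⟩
  have hpos : 0 < ‖A.u i‖ ^ 2 := by
    have := norm_pos_iff.2 hu
    positivity
  have hp : ∀ᶠ ε in 𝓝[>] (0 : ℝ), 0 < ε := self_mem_nhdsWithin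
  obtain ⟨w, t, ht, hx, hy, hev⟩ := A.AMA_eq i (A.u i) hon
  obtain ⟨w2, t2, ht2, hx2, hy2, hev2⟩ := A.AMA_eq i (-A.u i) hon
  have htt : t = t2 := HPL_smul_inj hu (by rw [← hx, ← hx2])
  have h1 : t < 1 := by
    obtain ⟨ε, ⟨h3, h4⟩, h5, h6⟩ := ((h.and hp).and (hev.and hp)).exists
    obtain ⟨t', ht', h7⟩ := h5 h3.1
    have h8 := HPL_smul_inj hu h7
    linarith [ht'.2]
  have h2 : -1 < t := by
    obtain ⟨ε, ⟨h3, h4⟩, h5, h6⟩ := ((h.and hp).and (hev2.and hp)).exists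
    have h3' : A.On i (y + ε • -A.u i) := by
      have := h3.2
      rw [smul_neg, ← sub_eq_add_neg]
      exact this
    obtain ⟨t', ht', h7⟩ := h5 h3'
    have h8 : (-ε) = t' - t2 := HPL_smul_inj hu (by rw [← h7, neg_smul, smul_neg])
    linarith [ht'.1]
  rw [hx, ip_smul_left, ip_self, abs_mul, abs_of_pos hpos]
  have h3 : |t| < 1 := abs_lt.2 ⟨h2, h1⟩
  nlinarith

theorem HPL_scale {P : ℝ → Prop} (h : ∀ᶠ ε in 𝓝[>] (0 : ℝ), P ε) {c : ℝ} (hc : 0 < c) :
    ∀ᶠ ε in 𝓝[>] (0 : ℝ), P (ε * c) := by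
  have hT : Tendsto (fun ε : ℝ => ε * c) (𝓝[>] 0) (𝓝[>] 0) := by
    rw [tendsto_nhdsWithin_iff]
    constructor
    · have h1 : Continuous (fun ε : ℝ => ε * c) := continuous_id.mul continuous_const
      have h2 := h1.tendsto 0
      rw [zero_mul] at h2
      exact h2.mono_left nhdsWithin_le_nhds
    · filter_upwards [self_mem_nhdsWithin] with ε hε
      exact mul_pos hε hc
  exact hT.eventually h

theorem HPL_L {φ : ℂ → ℂ} {z θ θ' : ℂ} {L : ℂ → ℂ} (h : Loc φ z L) (hD : Dr φ z θ θ') :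
    ∃ ρ : ℝ, 0 < ρ ∧ L θ = ρ • θ' := by
  obtain ⟨-, -, ρ, hρ, hev⟩ := hD
  refine ⟨ρ, hρ, ?_⟩
  have hT : Tendsto (fun ε : ℝ => ε • θ) (𝓝[>] 0) (𝓝 (0 : ℂ)) := by
    have h1 : Continuous (fun ε : ℝ => ε • θ) := continuous_id.smul continuous_const
    have h2 := h1.tendsto 0
    rw [zero_smul] at h2
    exact h2.mono_left nhdsWithin_le_nhds
  have hp : ∀ᶠ ε in 𝓝[>] (0 : ℝ), 0 < ε := self_mem_nhdsWithin
  obtain ⟨ε, ⟨h3, h4⟩, h5⟩ := ((hev.and hp).and (hT.eventually h.eq)).exists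
  rw [h3, h.hom ε h4] at h5
  have h6 : ε • (L θ) = ε • (ρ • θ') := by
    rw [smul_smul]
    exact (add_left_cancel h5).symm
  exact smul_right_injective ℂ h4.ne' h6

variable {ι : Type} {A : Arr ι} {φ ψ : ℂ → ℂ} {z θ θ' : ℂ} {k j : ι}

theorem TS.int (h : TS A.toFam φ z k j) :
    (A.On k z ∧ |ip (rd (z - A.q k)) (A.u k)| < ‖A.u k‖ ^ 2) ∧
      A.On j (φ z) ∧ |ip (rd (φ z - A.q j)) (A.u j)| < ‖A.u j‖ ^ 2 := by
  obtain ⟨hk, hj, r, r', hr, hr', hev⟩ := h
  exact ⟨HPL_int A.toFam k hk (hev.mono fun ε hε => ⟨hε.1, hε.2.1⟩),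
    HPL_int A.toFam j hj (hev.mono fun ε hε => ⟨hε.2.2.1, hε.2.2.2.1⟩)⟩

theorem TS.dir (h : TS A.toFam φ z k j) :
    (Dr φ z (A.e k) (A.e j) ∧ Dr φ z (-A.e k) (-A.e j)) ∧
      (A.al k z (A.e k) ∧ A.al k z (-A.e k)) ∧ A.al j (φ z) (A.e j) ∧ A.al j (φ z) (-A.e j) := by
  obtain ⟨hk, hj, r, r', hr, hr', hev⟩ := h
  have hnk : 0 < ‖A.u k‖ := norm_pos_iff.2 hk
  have hnj : 0 < ‖A.u j‖ := norm_pos_iff.2 hj
  have hek : ∀ ε : ℝ, ε • A.e k = (ε * ‖A.u k‖⁻¹) • A.u k := by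
    intro ε
    unfold Fam.e
    rw [smul_smul]
  have hej : ∀ ε : ℝ, ε • A.e j = (ε * ‖A.u j‖⁻¹) • A.u j := by
    intro ε
    unfold Fam.e
    rw [smul_smul]
  have huj : A.u j = ‖A.u j‖ • A.e j := A.toFam.AMA_u j hj
  have e1 := HPL_scale hev (inv_pos.2 hnk)
  have e2 := HPL_scale hev (inv_pos.2 hnj)
  refine ⟨⟨⟨A.toFam.e_norm k hk, A.toFam.e_norm j hj, ‖A.u k‖⁻¹ * r * ‖A.u j‖, by positivity, ?_⟩,
    ⟨by rw [norm_neg]; exact A.toFam.e_norm k hk, by rw [norm_neg]; exact A.toFam.e_norm j hj,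
      ‖A.u k‖⁻¹ * r' * ‖A.u j‖, by positivity, ?_⟩⟩, ⟨?_, ?_⟩, ?_, ?_⟩
  · filter_upwards [e1] with ε hε
    have h5 := hε.2.2.2.2.1
    rw [hek, h5]
    conv_lhs => rw [huj, smul_smul]
    congr 2
    ring
  · filter_upwards [e1] with ε hε
    have h5 := hε.2.2.2.2.2
    rw [smul_neg, ← sub_eq_add_neg, hek, h5]
    conv_lhs => rw [huj, smul_smul]
    rw [smul_neg, ← sub_eq_add_neg]
    congr 2
    ring
  · filter_upwards [e1] with ε hε
    rw [hek]
    exact hε.1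
  · filter_upwards [e1] with ε hε
    rw [smul_neg, ← sub_eq_add_neg, hek]
    exact hε.2.1
  · filter_upwards [e2] with ε hε
    rw [hej]
    exact hε.2.2.1
  · filter_upwards [e2] with ε hε
    rw [smul_neg, ← sub_eq_add_neg, hej]
    exact hε.2.2.2.1

theorem TS.sign (H : IsDyn A φ) (h : TS A.toFam φ z k j) (hD : Dr φ z θ θ') :
    (0 < dt (A.e k) θ → 0 < dt (A.e j) θ') ∧ (dt (A.e k) θ < 0 → dt (A.e j) θ' < 0) := by
  obtain ⟨L, hL⟩ := H.loc z
  have hdir := h.dir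
  have hk : A.e k ≠ 0 := by
    intro h0
    have := A.toFam.e_norm k h.1
    rw [h0, norm_zero] at this
    exact zero_ne_one this
  have hj : A.e j ≠ 0 := by
    intro h0
    have := A.toFam.e_norm j h.2.1
    rw [h0, norm_zero] at this
    exact zero_ne_one this
  obtain ⟨ρ, hρ, h1⟩ := HPL_L hL hdir.1.1
  obtain ⟨ρ', hρ', h2⟩ := HPL_L hL hdir.1.2
  obtain ⟨ρ'', hρ'', h3⟩ := HPL_L hL hD
  have hh := hL.half hk hj hρ hρ' h1 (by rw [h2, smul_neg]) θ
  rw [h3, HPL_dt_smul_right] at hh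
  refine ⟨fun h4 => (mul_pos_iff_of_pos_left hρ'').1 (hh.1 h4), fun h4 => ?_⟩
  have h5 := hh.2 h4
  by_contra h6
  have := mul_nonneg hρ''.le (not_lt.mp h6)
  linarith

end TorD
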