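import Pool.Agent.H51.TD.Defs

/-!
# Internal definitions (MP_19db4f_an)

The plane is `ℂ`, the lattice is `{lat w}`.
-/

set_option autoImplicit false

open Topology Filter Set Function

namespace TorD

noncomputable section

/-! ### the plane -/

/-- lattice vectors -/
def lat (w : ℤ × ℤ) : ℂ := ⟨w.1, w.2⟩

/-- the covering `ℂ → T2` -/
def pr (z : ℂ) : T2 := prT (z.re, z.im)

/-- rational points -/
def Rat2 : Set ℂ := {z | ∃ a b : ℚ, z = ⟨a, b⟩}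

/-- representative of `x` modulo the lattice in `[-1/2,1/2)²` -/
def rd (x : ℂ) : ℂ := ⟨x.re - round x.re, x.im - round x.im⟩

/-- real inner product -/
def ip (v w : ℂ) : ℝ := v.re * w.re + v.im * w.im

/-- determinant -/
def dt (v w : ℂ) : ℝ := v.re * w.im - v.im * w.re

theorem ip_self (v : ℂ) : ip v v = ‖v‖ ^ 2 := by
  rw [Complex.sq_norm, Complex.normSq_apply]; rfl

theorem ip_comm (v w : ℂ) : ip v w = ip w v := by unfold ip; ring

theorem ip_add_left (v v' w : ℂ) : ip (v + v') w = ip v w + ip v' w := by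
  unfold ip; simp only [Complex.add_re, Complex.add_im]; ring

theorem ip_add_right (v w w' : ℂ) : ip v (w + w') = ip v w + ip v w' := by
  unfold ip; simp only [Complex.add_re, Complex.add_im]; ring

theorem ip_sub_left (v v' w : ℂ) : ip (v - v') w = ip v w - ip v' w := by
  unfold ip; simp only [Complex.sub_re, Complex.sub_im]; ring

theorem ip_sub_right (v w w' : ℂ) : ip v (w - w') = ip v w - ip v w' := by
  unfold ip; simp only [Complex.sub_re, Complex.sub_im]; ring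

theorem ip_smul_left (r : ℝ) (v w : ℂ) : ip (r • v) w = r * ip v w := by
  unfold ip; simp only [Complex.smul_re, Complex.smul_im, smul_eq_mul]; ring

theorem ip_smul_right (r : ℝ) (v w : ℂ) : ip v (r • w) = r * ip v w := by
  unfold ip; simp only [Complex.smul_re, Complex.smul_im, smul_eq_mul]; ring

theorem ip_le (v w : ℂ) : ip v w ≤ ‖v‖ * ‖w‖ := by
  have h : ip v w ^ 2 ≤ (‖v‖ * ‖w‖) ^ 2 := by
    rw [mul_pow, ← ip_self, ← ip_self]; unfold ip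
    nlinarith [sq_nonneg (v.re * w.im - v.im * w.re)]
  exact le_of_sq_le_sq h (by positivity) |>.trans le_rfl

theorem ip_ge (v w : ℂ) : -(‖v‖ * ‖w‖) ≤ ip v w := by
  have h := ip_le (-v) w
  rw [norm_neg] at h
  have e : ip (-v) w = -ip v w := by unfold ip; simp only [Complex.neg_re, Complex.neg_im]; ring
  rw [e] at h; linarith

/-! ### pieces -/

/-- the point of the segment `[-u,u]` nearest to `x` -/
def pj (u x : ℂ) : ℂ := (max (-1) (min 1 (ip x u / ‖u‖ ^ 2)) : ℝ) • u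

/-- the push `(1-8d)_+ (x-π)/d`, and `0` on the segment -/
def sel0 (u x : ℂ) : ℂ := (max 0 (1 - 8 * ‖x - pj u x‖) / ‖x - pj u x‖ : ℝ) • (x - pj u x)

/-- the values allowed at `x` for the segment `[-u,u]` -/
def D0 (u x : ℂ) : Set ℂ :=
  {v | (x ≠ pj u x ∧ v = sel0 u x) ∨
    (x = pj u x ∧ ‖v‖ ≤ 1 ∧ ∀ t ∈ Icc (-1 : ℝ) 1, ip v (t • u - x) ≤ 0)}

/-- regularised push -/
def selE (ε : ℝ) (u x : ℂ) : ℂ :=
  (max 0 (1 - 8 * ‖x - pj u x‖) / max ‖x - pj u x‖ ε : ℝ) • (x - pj u x)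

/-- a family of weighted pieces: segments `q i + [-u i, u i]` modulo the lattice -/
structure Fam (ι : Type) where
  c : ι → ℝ
  q : ι → ℂ
  u : ι → ℂ
  cpos : ∀ i, 0 < c i
  csum : Summable c
  cle : ∑' i, c i ≤ 1 / 32
  ule : ∀ i, ‖u i‖ ≤ 1 / 8

namespace Fam

variable {ι : Type} (A : Fam ι)

/-- values of the piece `i` at `y` -/
def D (i : ι) (y : ℂ) : Set ℂ := D0 (A.u i) (rd (y - A.q i))

/-- `y` is on the piece `i` (modulo the lattice) -/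
def On (i : ι) (y : ℂ) : Prop := rd (y - A.q i) = pj (A.u i) (rd (y - A.q i))

/-- `v` is a code of `y` -/
def code (y : ℂ) (v : ι → ℂ) : Prop := ∀ i, v i ∈ A.D i y

/-- the point with code `v` over `y` -/
def pt (y : ℂ) (v : ι → ℂ) : ℂ := y + ∑' i, A.c i • v i

/-- the blow-down map: `h p` is the `y` such that `p = pt y v` for a code `v` of `y` -/
def h (p : ℂ) : ℂ := Classical.epsilon fun y => ∃ v, A.code y v ∧ p = A.pt y v

/-- the zero selection -/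
def sel (i : ι) (y : ℂ) : ℂ := sel0 (A.u i) (rd (y - A.q i))

/-- the centre of the fibre over `y` -/
def m (y : ℂ) : ℂ := A.pt y fun i => A.sel i y

/-- unit vector of an edge -/
def e (i : ι) : ℂ := (‖A.u i‖⁻¹ : ℝ) • A.u i

/-- unit normal of an edge -/
def nn (i : ι) : ℂ := Complex.I * A.e i

open Classical in
/-- the value at `y`, with level `s` if `y` is on the piece -/
def V (i : ι) (y : ℂ) (s : ℝ) : ℂ := if A.On i y then s • A.nn i else A.sel i y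

/-- the point of level `s` over `y` -/
def Pi (y : ℂ) (s : ℝ) : ℂ := A.pt y fun i => A.V i y s

/-- the piece `i` is along the direction `θ` at `y` -/
def al (i : ι) (y θ : ℂ) : Prop := ∀ᶠ ε in 𝓝[>] (0 : ℝ), A.On i (y + ε • θ)

/-- limit of the values along the ray of direction `θ` -/
def W (i : ι) (z θ : ℂ) (s : ℝ) : ℂ := limUnder (𝓝[>] (0 : ℝ)) fun ε => A.V i (z + ε • θ) s

/-- boundary point of the fibre over `z` with outer normal `θ` and level `s` -/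
def P (z θ : ℂ) (s : ℝ) : ℂ := A.pt z fun i => A.W i z θ s

end Fam

/-- an arrangement: all rational points are pieces, irrational points are on at most one piece -/
structure Arr (ι : Type) extends Fam ι where
  pts : ∀ z ∈ Rat2, ∃ i, u i = 0 ∧ rd (z - q i) = 0
  rat : ∀ i, q i - u i ∈ Rat2 ∧ q i + u i ∈ Rat2
  one : ∀ y, y ∉ Rat2 → ∀ i j, toFam.On i y → toFam.On j y → i = j
  fin2 : ∀ i j, i ≠ j → ∃ F : Finset ℂ, ∀ z, toFam.On i z → toFam.On j z →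
    ∃ x ∈ F, ∃ w, z = x + lat w

/-! ### dynamics -/

/-- `L` describes `φ` near `z` -/
structure Loc (φ : ℂ → ℂ) (z : ℂ) (L : ℂ → ℂ) : Prop where
  cont : Continuous L
  inj : Injective L
  hom : ∀ r : ℝ, 0 < r → ∀ u, L (r • u) = r • L u
  eq : ∀ᶠ u in 𝓝 (0 : ℂ), φ (z + u) = φ z + L u
  det : ∀ t, t ≠ 0 → ∀ᶠ u in 𝓝 t, dt (L t) (L u) = dt t u

/-- `φ` respects the arrangement -/
structure IsDyn {ι : Type} (A : Arr ι) (φ : ℂ → ℂ) : Prop where
  cont : Continuous φ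
  inj : Injective φ
  eqv : ∀ x w, φ (x + lat w) = φ x + lat w
  rat : ∀ x, φ x ∈ Rat2 ↔ x ∈ Rat2
  loc : ∀ z, ∃ L, Loc φ z L
  /-- edges are mapped to edges, direction preserved (one sided) -/
  edg : ∀ (y : ℂ) (i : ι) (s : ℝ), s = 1 ∨ s = -1 → A.u i ≠ 0 →
    (∀ᶠ ε in 𝓝[>] (0 : ℝ), A.On i (y + (ε * s) • A.u i)) →
    ∃ j, A.u j ≠ 0 ∧ ∃ r : ℝ, 0 < r ∧ ∀ᶠ ε in 𝓝[>] (0 : ℝ),
      φ (y + (ε * s) • A.u i) = φ y + (ε * s * r) • A.u j ∧ A.On j (φ y + (ε * s) • A.u j)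
  /-- edges are mapped to edges, two sided, up to finitely many points -/
  edf : ∀ i, A.u i ≠ 0 → ∃ (F : Finset ℂ) (T : Finset ι), ∀ z, A.On i z →
    (∃ x ∈ F, ∃ w, z = x + lat w) ∨
    ∃ j ∈ T, A.u j ≠ 0 ∧ ∃ r : ℝ, 0 < r ∧ ∀ᶠ ε in 𝓝 (0 : ℝ), A.On i (z + ε • A.u i) ∧
      A.On j (φ z + ε • A.u j) ∧ φ (z + ε • A.u i) = φ z + (ε * r) • A.u j

/-- the complete system -/
structure Sys (ι : Type) extends Arr ι where
  φ : ℂ → ℂ
  ψ : ℂ → ℂ
  φψ : ∀ x, φ (ψ x) = x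
  ψφ : ∀ x, ψ (φ x) = x
  dφ : IsDyn toArr φ
  dψ : IsDyn toArr ψ
  per : ∀ z ∈ Rat2, ∃ n : ℕ, 1 ≤ n ∧ ∃ w, φ^[n] z = z + lat w
  small : ∀ S : Finset ι, ∃ F : Finset ℂ, ∀ z ∈ Rat2,
    (∀ n : ℕ, ∃ i ∈ S, toFam.On i (φ^[n] z)) → ∃ x ∈ F, ∃ w, z = x + lat w
  /-- the vertical line is made of edges -/
  line : ∀ t : ℝ, ∃ i, u i ≠ 0 ∧ (u i).re = 0 ∧ toFam.On i (t * Complex.I)
  lrat : ∀ n : ℕ, 1 ≤ n → ∀ (t : ℝ) (k : ℤ), (φ^[n] (t * Complex.I)).re = k →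
    (t * Complex.I : ℂ) ∈ Rat2

/-- the result of the blow-up -/
structure Blow (φ f g h : ℂ → ℂ) : Prop where
  fc : Continuous f
  gc : Continuous g
  fg : ∀ x, f (g x) = x
  gf : ∀ x, g (f x) = x
  feqv : ∀ x w, f (x + lat w) = f x + lat w
  heqv : ∀ x w, h (x + lat w) = h x + lat w
  hlip : ∀ p p', ‖h p - h p'‖ ≤ 2 * ‖p - p'‖
  hmono : ∀ p p', 0 ≤ ip (h p - h p') (p - p')
  hnear : ∀ p, ‖h p - p‖ ≤ 1 / 16
  hsurj : Surjective h
  semi : ∀ p, h (f p) = φ (h p)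
  nonw : ∀ U : Set ℂ, IsOpen U → U.Nonempty → ∃ n : ℕ, 1 ≤ n ∧ ∃ w, ∃ p ∈ U, f^[n] p + lat w ∈ U
  thin : ∀ y, y ∉ Rat2 → interior {p | h p = y} = ∅
  band : ∃ p ∈ interior {p | (h p).re = 0}, h p ∉ Rat2
  nper : ∀ p ∈ interior {p | (h p).re = 0}, ∀ n : ℕ, 1 ≤ n → ∀ w, f^[n] p = p + lat w →
    h p ∈ Rat2 ∧ p ∈ interior {p' | h p' = h p}

/-! ### the base map -/

/-- `8` times the distance to the integers -/
def aa (y : ℝ) : ℝ := 8 * |y - round y|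

def Hh (z : ℂ) : ℂ := ⟨z.re + aa z.im, z.im⟩
def Vv (z : ℂ) : ℂ := ⟨z.re, z.im + aa z.re⟩
def Hi (z : ℂ) : ℂ := ⟨z.re - aa z.im, z.im⟩
def Vi (z : ℂ) : ℂ := ⟨z.re, z.im - aa z.re⟩
/-- the base map -/
def ph (z : ℂ) : ℂ := Vv (Hh z)
/-- its inverse -/
def pi (z : ℂ) : ℂ := Hi (Vi z)
/-- the symmetry -/
def Ss (z : ℂ) : ℂ := ⟨-z.im, -z.re⟩
/-- the curves `φ^j(0,t)` -/
def gam (j : ℤ) (t : ℝ) : ℂ :=
  if 0 ≤ j then ph^[j.toNat] (t * Complex.I) else pi^[(-j).toNat] (t * Complex.I)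
/-- piecewise linear curves with integer coefficients on the intervals `[k/N,(k+1)/N]` -/
def PLC (N : ℕ) (M : ℤ) (Q : ℤ → ℤ → Prop) (γ : ℝ → ℂ) : Prop :=
  ∀ k : ℤ, ∃ a b c d : ℤ, Q a c ∧ |a| ≤ M ∧ |c| ≤ M ∧
    ∀ t ∈ Icc ((k : ℝ) / N) (((k : ℝ) + 1) / N), γ t = ⟨a * t + b, c * t + d⟩

end

end TorD
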