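import Pool.Agent.H51.TD.HPL
import Pool.Agent.H51.TD.FIB
import Pool.Agent.H51.TD.CUA

/-! # LEV: levels at interior points of edges

PROOF. TS_irr: `y` irrational on `k` is an interior point of the edge (on_irr), `y = q + t₀ u + lat w`, `|t₀| < 1`, so `y + (ε s) u k` is on `k` for `s = ±1` and small `ε > 0` (On_iff). H.dφ.edg for `s = 1` and
`s = -1` gives `j`, `r` and `j'`, `r'`; `On j (φ y)` and `On j' (φ y)` by closedness (On_closed, `ε → 0`), and `φ y` is irrational (H.dφ.rat), so `j = j'` (A.one); this is TS. TS_on: if no piece is on the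
irrational `y` then none is on `φ y`: otherwise TS_irr for `ψ` at `φ y` gives a piece on `ψ (φ y) = y`.
TS.lev: write `θ` as a unit vector, `x = dt (e k) θ = ip (nn k) θ` (ip_nn, ip_comm). If `x ≠ 0`: `W k z θ s ∈ D k z` (W_mem), so `= τ • nn k` with `|τ| ≤ 1` (D_edge with TS.int), and it maximises `ip · θ` over
`D k z`, which contains `±nn k` (V_mem, V_on): `τ x = |x|`, `τ = x/|x|`. By TS.sign `x' = dt (e j) θ'` has the same sign, and in the same way `W j (φ z) θ' s = (x'/|x'|) • nn j`. If `x = 0`: `θ = ±e k`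
(unit vectors, dt = 0), by TS.dir and Dr_unique `θ' = ±e j` (same sign) and `al k z θ`, `al j (φ z) θ'`: W_al gives level `s` for both. -/

set_option autoImplicit false

open Topology Filter Set Function

namespace TorD

variable {ι : Type} {A : Arr ι} {φ ψ : ℂ → ℂ} {z θ θ' : ℂ} {k j : ι}

/-- an irrational point of a piece is inside an edge -/
theorem LEV_nb {y : ℂ} (hy : y ∉ Rat2) (hk : A.On k y) :
    A.u k ≠ 0 ∧ ∃ δ : ℝ, 0 < δ ∧ ∀ t : ℝ, |t| < δ → A.On k (y + t • A.u k) := by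
  obtain ⟨w, t0, ht0, hy0⟩ := (A.On_iff k y).1 hk
  obtain ⟨hr1, hr2⟩ := A.rat k
  have h1 : t0 ≠ 1 := by
    intro h
    apply hy
    rw [hy0, h, one_smul, rat2_lat]
    exact hr2
  have h2 : t0 ≠ -1 := by
    intro h
    apply hy
    rw [hy0, h, rat2_lat]
    have : A.q k + (-1 : ℝ) • A.u k = A.q k - A.u k := by rw [neg_smul, one_smul]; ring
    rw [this]
    exact hr1
  have h3 : |t0| < 1 := by
    rw [abs_lt]
    exact ⟨lt_of_le_of_ne ht0.1 (Ne.symm h2), lt_of_le_of_ne ht0.2 h1⟩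
  refine ⟨(A.on_irr hy hk).1, 1 - |t0|, by linarith, fun t ht => ?_⟩
  rw [A.On_iff]
  refine ⟨w, t0 + t, ?_, ?_⟩
  · have h4 : |t0 + t| ≤ |t0| + |t| := abs_add_le _ _
    have h5 : |t0 + t| ≤ 1 := by linarith
    exact abs_le.1 h5
  · conv_lhs => rw [hy0]
    rw [add_smul]
    ring

theorem TS_irr (H : Dyn2 A φ ψ) {y : ℂ} (hy : y ∉ Rat2) (hk : A.On k y) :
    ∃ j, TS A.toFam φ y k j ∧ A.On j (φ y) := by
  obtain ⟨hu, δ, hδ, hnb⟩ := LEV_nb hy hk
  have hpos : ∀ᶠ ε in 𝓝[>] (0 : ℝ), 0 < ε ∧ ε < δ :=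
    Ioo_mem_nhdsGT hδ
  have n1 : ∀ᶠ ε in 𝓝[>] (0 : ℝ), A.On k (y + (ε * 1) • A.u k) := by
    filter_upwards [hpos] with ε hε
    refine hnb _ ?_
    rw [mul_one, abs_of_pos hε.1]
    exact hε.2
  have n2 : ∀ᶠ ε in 𝓝[>] (0 : ℝ), A.On k (y + (ε * (-1)) • A.u k) := by
    filter_upwards [hpos] with ε hε
    refine hnb _ ?_
    rw [mul_neg, mul_one, abs_neg, abs_of_pos hε.1]
    exact hε.2
  obtain ⟨j, hj, r, hr, e1⟩ := H.dφ.edg y k 1 (Or.inl rfl) hu n1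
  obtain ⟨j', hj', r', hr', e2⟩ := H.dφ.edg y k (-1) (Or.inr rfl) hu n2
  have o1 : A.On j (φ y) := by
    apply A.AMA_on j (θ := A.u j)
    apply Filter.Eventually.frequently
    filter_upwards [e1] with ε hε
    have := hε.2
    rwa [mul_one] at this
  have o2 : A.On j' (φ y) := by
    apply A.AMA_on j' (θ := -A.u j')
    apply Filter.Eventually.frequently
    filter_upwards [e2] with ε hε
    have h1 := hε.2
    rwa [mul_neg, mul_one, neg_smul, ← smul_neg] at h1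
  have hφy : φ y ∉ Rat2 := fun h => hy ((H.dφ.rat y).1 h)
  have hjj : j = j' := A.one _ hφy j j' o1 o2
  subst hjj
  refine ⟨j, ⟨hu, hj, r, r', hr, hr', ?_⟩, o1⟩
  filter_upwards [n1, n2, e1, e2] with ε m1 m2 f1 f2
  rw [mul_one] at m1 f1
  rw [mul_neg, mul_one, neg_smul, ← sub_eq_add_neg] at m2
  rw [mul_neg, mul_one, neg_smul, neg_smul, ← sub_eq_add_neg, ← sub_eq_add_neg, neg_mul,
    neg_smul, ← sub_eq_add_neg] at f2
  exact ⟨m1, m2, f1.2, f2.2, f1.1, f2.1⟩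

theorem TS_on (H : Dyn2 A φ ψ) {y : ℂ} (hy : y ∉ Rat2) (hk : ∀ k, ¬ A.On k y) (j : ι) :
    ¬ A.On j (φ y) := by
  intro h
  have hφy : φ y ∉ Rat2 := fun h => hy ((H.dφ.rat y).1 h)
  have H' : Dyn2 A ψ φ := ⟨H.ψφ, H.φψ, H.dψ, H.dφ⟩
  obtain ⟨j', -, h1⟩ := TS_irr H' hφy h
  rw [H.ψφ] at h1
  exact hk j' h1

/-- the level is determined by the side -/
theorem LEV_W {y : ℂ} (hu : A.u k ≠ 0) (hon : A.On k y)
    (h1 : |ip (rd (y - A.q k)) (A.u k)| < ‖A.u k‖ ^ 2) (hθ : ‖θ‖ = 1) {s : ℝ} (hs : |s| ≤ 1) :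
    (0 < dt (A.e k) θ → A.W k y θ s = (1 : ℝ) • A.nn k) ∧
      (dt (A.e k) θ < 0 → A.W k y θ s = (-1 : ℝ) • A.nn k) := by
  obtain ⟨τ, hτ, hW⟩ := A.D_edge k hu hon h1 (A.W_mem k y hθ hs)
  have hx : ip (A.nn k) θ = dt (A.e k) θ := by rw [ip_comm, A.ip_nn]
  have m1 := A.W_max k y hθ hs (A.V_mem k y (s := 1) (by norm_num))
  have m2 := A.W_max k y hθ hs (A.V_mem k y (s := -1) (by norm_num))
  rw [A.V_on k hon, hW, ip_smul_left, ip_smul_left, hx] at m1 m2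
  rw [abs_le] at hτ
  constructor
  · intro hp
    have h2 : τ = 1 := by
      refine le_antisymm hτ.2 ?_
      by_contra h3
      push Not at h3
      nlinarith
    rw [hW, h2]
  · intro hp
    have h2 : τ = -1 := by
      refine le_antisymm ?_ hτ.1
      by_contra h3
      push Not at h3
      nlinarith
    rw [hW, h2]

theorem TS.lev (H : IsDyn A φ) (h : TS A.toFam φ z k j) (hD : Dr φ z θ θ') {s : ℝ}
    (hs : |s| ≤ 1) : ∃ σ : ℝ, |σ| ≤ 1 ∧ A.W k z θ s = σ • A.nn k ∧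
      A.W j (φ z) θ' s = σ • A.nn j := by
  have hθ : ‖θ‖ = 1 := hD.1
  have hθ' : ‖θ'‖ = 1 := hD.2.1
  obtain ⟨⟨i1, i2⟩, i3, i4⟩ := TS.int h
  have w1 := LEV_W h.1 i1 i2 hθ hs
  have w2 := LEV_W h.2.1 i3 i4 hθ' hs
  have sg := TS.sign H h hD
  rcases lt_trichotomy (dt (A.e k) θ) 0 with hx | hx | hx
  · exact ⟨-1, by norm_num, w1.2 hx, w2.2 (sg.2 hx)⟩
  · obtain ⟨⟨d1, d2⟩, ⟨a1, a2⟩, b1, b2⟩ := TS.dir h
    rw [← A.ip_nn] at hx
    rcases A.AMA_pm k h.1 hθ hx with h1 | h1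
    · rw [h1] at hD
      have h2 := Dr_unique hD d1
      refine ⟨s, hs, ?_, ?_⟩
      · rw [h1]
        exact A.W_al k a1 s
      · rw [h2]
        exact A.W_al j b1 s
    · rw [h1] at hD
      have h2 := Dr_unique hD d2
      refine ⟨s, hs, ?_, ?_⟩
      · rw [h1]
        exact A.W_al k a2 s
      · rw [h2]
        exact A.W_al j b2 s
  · exact ⟨1, by norm_num, w1.1 hx, w2.1 (sg.1 hx)⟩

end TorD
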