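import Pool.Agent.H51.TD.LTR

/-! # LIM: limits of levels in a direction

PROOF. `V i (ys n) (ss n) ∈ D i (ys n)` (V_mem), so by `mx` (DT) `v i ∈ D i z` and maximises `θ`; by max_or there is `σ`, `|σ| ≤ 1`, with `v i = W i z θ σ` for all `i`. By Dr_seq the same for `w`:
`w i = W i (φ z) θ' σ'`. If a piece `k` is along `(z,θ)`: by Dr_al a piece `j` is along `(φ z,θ')`; `v k = σ • nn k`, `w j = σ' • nn j` (W_al), by Arr.lt `σ = σ'`. If none is along `(z,θ)` then none is along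
`(φ z, θ')` (Dr_nal) and `W i (φ z) θ' σ' = W i (φ z) θ' σ` (W_nal). -/

set_option autoImplicit false

open Topology Filter Set Function

namespace TorD

theorem Arr.lim {ι : Type} (A : Arr ι) {φ ψ : ℂ → ℂ} (H : Dyn2 A φ ψ) {z θ θ' : ℂ}
    {ys : ℕ → ℂ} {ss : ℕ → ℝ} (hD : Dr φ z θ θ') (hd : DT ys z θ) (hs : ∀ n, |ss n| ≤ 1)
    {v w : ι → ℂ} (hv : ∀ i, Tendsto (fun n => A.V i (ys n) (ss n)) atTop (𝓝 (v i)))
    (hw : ∀ i, Tendsto (fun n => A.V i (φ (ys n)) (ss n)) atTop (𝓝 (w i))) :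
    ∃ σ : ℝ, |σ| ≤ 1 ∧ (∀ i, v i = A.W i z θ σ) ∧ ∀ i, w i = A.W i (φ z) θ' σ := by
  have hθ : ‖θ‖ = 1 := hd.norm
  have hθ' : ‖θ'‖ = 1 := hD.2.1
  have hd' : DT (fun n => φ (ys n)) (φ z) θ' := Dr_seq H.dφ hD hd
  have h1 : ∀ i, v i ∈ A.D i z ∧ ∀ w' ∈ A.D i z, ip w' θ ≤ ip (v i) θ := fun i =>
    A.mx i hd.1 hd.2.1 hd.2.2 (hv i) (fun n => A.V_mem i _ (hs n))
  have h2 : ∀ i, w i ∈ A.D i (φ z) ∧ ∀ w' ∈ A.D i (φ z), ip w' θ' ≤ ip (w i) θ' := fun i =>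
    A.mx i hd'.1 hd'.2.1 hd'.2.2 (hw i) (fun n => A.V_mem i _ (hs n))
  obtain ⟨σ, hσ, hvσ⟩ := A.max_or hθ (fun i => (h1 i).1) (fun i => (h1 i).2)
  obtain ⟨σ', hσ', hwσ⟩ := A.max_or hθ' (fun i => (h2 i).1) (fun i => (h2 i).2)
  by_cases hk : ∃ k, A.al k z θ
  · obtain ⟨k, hk⟩ := hk
    obtain ⟨j, hj, -⟩ := Dr_al H.dφ hD hk
    have e1 : v k = σ • A.nn k := by rw [hvσ k, A.W_al k hk]
    have e2 : w j = σ' • A.nn j := by rw [hwσ j, A.W_al j hj]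
    have e3 : σ = σ' := A.lt H.dφ hD hk hj hd (by rw [← e1]; exact hv k) (by rw [← e2]; exact hw j)
    subst e3
    exact ⟨σ, hσ, hvσ, hwσ⟩
  · push Not at hk
    refine ⟨σ, hσ, hvσ, fun i => ?_⟩
    rw [hwσ i]
    exact A.W_nal i hθ' (Dr_nal H hD hk i) σ' σ

end TorD
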