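import Pool.Agent.H51.TD.LIM
import Pool.Agent.H51.TD.LEV

/-! # LMI: limits of levels at irrational points

PROOF. Either `ys n = y` for infinitely many `n` or `ys n ≠ y` for all large `n`. Pass to a subsequence (`Filter.extraction_of_frequently_atTop`), the hypotheses are kept.
(a) `ys n = y` for all `n`: pass to a subsequence with `ss n → τ`; `V i y (ss n) → V i y τ` (V_on, V_off), and `V i (φ y) (ss n) → V i (φ y) τ`; uniqueness of limits.
(b) `ys n ≠ y`: pass to a subsequence with a direction `θ` (DT.subseq), `Dr φ y θ θ'` (Dr_exists), Arr.lim: `v i = W i y θ σ`, `w i = W i (φ y) θ' σ`. If no piece is on `y` then none is on `φ y` (TS_on), and the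
sets `D i y`, `D i (φ y)` are the singletons `{sel}` (D_single, W_mem): take `τ = 0` (V_off). If `k` is on `y`: TS_irr gives `j`; the other pieces are off `y` resp. `φ y` (A.one; `φ y` is irrational), and TS.lev gives
`τ` with `W k y θ σ = τ • nn k = V k y τ` and `W j (φ y) θ' σ = τ • nn j = V j (φ y) τ`. -/

set_option autoImplicit false

open Topology Filter Set Function

namespace TorD

private theorem LMI_off {ι : Type} (A : Arr ι) (i : ι) {y θ : ℂ} {s τ : ℝ} (hθ : ‖θ‖ = 1)
    (hs : |s| ≤ 1) (hi : ¬ A.On i y) : A.W i y θ s = A.V i y τ := by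
  have h1 := A.W_mem i y hθ hs
  rw [A.D_single i hi] at h1
  rw [A.V_off i hi]
  exact h1

theorem Arr.lim_irr {ι : Type} (A : Arr ι) {φ ψ : ℂ → ℂ} (H : Dyn2 A φ ψ) {y : ℂ}
    (hy : y ∉ Rat2) {ys : ℕ → ℂ} {ss : ℕ → ℝ} (hys : Tendsto ys atTop (𝓝 y))
    (hs : ∀ n, |ss n| ≤ 1) {v w : ι → ℂ}
    (hv : ∀ i, Tendsto (fun n => A.V i (ys n) (ss n)) atTop (𝓝 (v i)))
    (hw : ∀ i, Tendsto (fun n => A.V i (φ (ys n)) (ss n)) atTop (𝓝 (w i))) :
    ∃ τ : ℝ, |τ| ≤ 1 ∧ (∀ i, v i = A.V i y τ) ∧ ∀ i, w i = A.V i (φ y) τ := by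
  by_cases hf : ∃ᶠ n in atTop, ys n = y
  · obtain ⟨k, hk, hky⟩ := Filter.extraction_of_frequently_atTop hf
    obtain ⟨τ, hτ, m, hm, hlim⟩ := (isCompact_Icc (a := (-1 : ℝ)) (b := 1)).tendsto_subseq
      (x := fun n => ss (k n)) (fun n => abs_le.1 (hs (k n)))
    have hkm : Tendsto (fun n => k (m n)) atTop atTop := (hk.comp hm).tendsto_atTop
    have hV : ∀ (i : ι) (x : ℂ), Tendsto (fun n => A.V i x (ss (k (m n)))) atTop (𝓝 (A.V i x τ)) := by
      intro i x
      by_cases hon : A.On i x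
      · simp only [A.V_on i hon]
        exact Filter.Tendsto.smul_const hlim _
      · simp only [A.V_off i hon]
        exact tendsto_const_nhds
    refine ⟨τ, abs_le.2 hτ, fun i => ?_, fun i => ?_⟩
    · refine tendsto_nhds_unique ((hv i).comp hkm) ((hV i y).congr fun n => ?_)
      simp only [Function.comp, hky]
    · refine tendsto_nhds_unique ((hw i).comp hkm) ((hV i (φ y)).congr fun n => ?_)
      simp only [Function.comp, hky]
  · rw [Filter.not_frequently] at hf
    obtain ⟨N, hN⟩ := Filter.eventually_atTop.1 hf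
    have hys' : Tendsto (fun n => ys (n + N)) atTop (𝓝 y) := (tendsto_add_atTop_iff_nat N).2 hys
    obtain ⟨θ, k, hk, hd⟩ := DT.subseq hys' fun n => hN (n + N) (Nat.le_add_left N n)
    have hθ : ‖θ‖ = 1 := hd.norm
    obtain ⟨θ', hD⟩ := Dr_exists H.dφ y hθ
    have hθ' : ‖θ'‖ = 1 := hD.2.1
    have hkN : Tendsto (fun n => k n + N) atTop atTop :=
      (tendsto_add_atTop_nat N).comp hk.tendsto_atTop
    obtain ⟨σ, hσ, hv', hw'⟩ := A.lim H hD hd (ss := fun n => ss (k n + N)) (fun n => hs _)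
      (fun i => (hv i).comp hkN) (fun i => (hw i).comp hkN)
    by_cases hk0 : ∃ k, A.On k y
    · obtain ⟨k0, hk0⟩ := hk0
      obtain ⟨j, hTS, hj⟩ := TS_irr H hy hk0
      obtain ⟨τ, hτ, h1, h2⟩ := TS.lev H.dφ hTS hD hσ
      have hφy : φ y ∉ Rat2 := fun h => hy ((H.dφ.rat y).1 h)
      refine ⟨τ, hτ, fun i => ?_, fun i => ?_⟩
      · rw [hv']
        by_cases hon : A.On i y
        · have : i = k0 := A.one y hy i k0 hon hk0
          subst this
          rw [h1, A.V_on i hon]
        · exact LMI_off A i hθ hσ hon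
      · rw [hw']
        by_cases hon : A.On i (φ y)
        · have : i = j := A.one (φ y) hφy i j hon hj
          subst this
          rw [h2, A.V_on i hon]
        · exact LMI_off A i hθ' hσ hon
    · rw [not_exists] at hk0
      have hk1 := TS_on H hy hk0
      refine ⟨0, by simp, fun i => ?_, fun i => ?_⟩
      · rw [hv']
        exact LMI_off A i hθ hσ (hk0 i)
      · rw [hw']
        exact LMI_off A i hθ' hσ (hk1 i)

end TorD
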