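import Pool.Agent.H51.TD.CUA
import Pool.Agent.H51.TD.SLB
import Pool.Agent.H51.TD.DRC

/-! # LTR: level transfer along an edge

PROOF. By Dr_al there is `j'` along `(φ z, θ')` with (`θ = e k`, `θ' = e j'`) or (`θ = -e k`, `θ' = -e j'`); by al_unique `j' = j`. By slb_seq for `k` at `z` along `ys` and for `j` at `φ z` along
`φ (ys n)` (Dr_seq): eventually `V k (ys n) (ss n) = lv x_n (ss n) • nn k`, `x_n = dt (e k) (ys n - z)`, and `V j (φ (ys n)) (ss n) = lv x'_n (ss n) • nn j`, `x'_n = dt (e j) (φ (ys n) - φ z) = r x_n`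
(Dr_det; the sign `±` is the same on both sides). `x_n → 0`. lv_close: `lv (r x) s - lv x s = 0` if `x = 0` and `= (8|x| - 8 r|x|) x/|x|` otherwise, of absolute value `≤ 8 (1 + r) |x|`. As `nn k` is a unit
vector (nn_norm, `u k ≠ 0` by al_dir) `lv x_n (ss n) = ip (V k ..) (nn k) → σ`, similarly `lv x'_n (ss n) → σ'`; so `σ = σ'`. -/

set_option autoImplicit false

open Topology Filter Set Function

namespace TorD

theorem lv_close {r : ℝ} (hr : 0 < r) (x s : ℝ) : |lv (r * x) s - lv x s| ≤ 8 * (1 + r) * |x| := by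
  by_cases hx : x = 0
  · subst hx
    simp
  · have hrx : r * x ≠ 0 := mul_ne_zero hr.ne' hx
    have hx0 : 0 < |x| := abs_pos.2 hx
    unfold lv
    rw [if_neg hrx, if_neg hx, abs_mul, abs_of_pos hr]
    have e1 : r * x / (r * |x|) = x / |x| := mul_div_mul_left _ _ hr.ne'
    rw [e1, ← sub_mul, abs_mul]
    have e2 : |(x / |x| : ℝ)| = 1 := by
      rw [abs_div, abs_abs, div_self hx0.ne']
    rw [e2, mul_one]
    have e3 : 1 - 8 * (r * |x|) - (1 - 8 * |x|) = 8 * (1 - r) * |x| := by ring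
    rw [e3, abs_mul, abs_abs, abs_mul]
    have e4 : |(1 - r)| ≤ 1 + r := by
      rw [abs_le]
      constructor <;> linarith
    have e5 : |(8 : ℝ)| = 8 := abs_of_pos (by norm_num)
    rw [e5]
    gcongr

theorem LTR_ip {N : ℂ} (hN : ‖N‖ = 1) {as : ℕ → ℝ} {σ : ℝ}
    (h : Tendsto (fun n => as n • N) atTop (𝓝 (σ • N))) : Tendsto as atTop (𝓝 σ) := by
  have hc : Continuous fun v : ℂ => ip v N := by
    unfold ip
    exact (Complex.continuous_re.mul continuous_const).add (Complex.continuous_im.mul continuous_const)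
  have h1 := (hc.tendsto (σ • N)).comp h
  have e : ∀ a : ℝ, ip (a • N) N = a := by
    intro a
    rw [ip_smul_left, ip_self, hN]
    ring
  rw [e] at h1
  exact h1.congr fun n => e (as n)

theorem LTR_dt_neg (a b : ℂ) : dt (-a) b = -dt a b := by
  unfold dt
  simp only [Complex.neg_re, Complex.neg_im]
  ring

theorem Arr.lt {ι : Type} (A : Arr ι) {φ : ℂ → ℂ} (H : IsDyn A φ) {z θ θ' : ℂ} {k j : ι}
    (h : Dr φ z θ θ') (hk : A.al k z θ) (hj : A.al j (φ z) θ') {ys : ℕ → ℂ} {ss : ℕ → ℝ}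
    (hd : DT ys z θ) {σ σ' : ℝ}
    (h1 : Tendsto (fun n => A.V k (ys n) (ss n)) atTop (𝓝 (σ • A.nn k)))
    (h2 : Tendsto (fun n => A.V j (φ (ys n)) (ss n)) atTop (𝓝 (σ' • A.nn j))) : σ = σ' := by
  have hθ : ‖θ‖ = 1 := h.1
  have hθ' : ‖θ'‖ = 1 := h.2.1
  obtain ⟨j', hj', hor⟩ := Dr_al H h hk
  have hjj : j' = j := A.al_unique hθ' hj' hj
  subst hjj
  obtain ⟨r, hr, hdet⟩ := Dr_det H h
  have ev1 := A.slb_seq k hθ hk hd
  have ev2 := A.slb_seq j' hθ' hj' (Dr_seq H h hd)
  have ev3 := hdet ys hd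
  have nk := A.nn_norm k (A.al_dir k hθ hk).1
  have nj := A.nn_norm j' (A.al_dir j' hθ' hj').1
  have t1 : Tendsto (fun n => lv (dt (A.e k) (ys n - z)) (ss n)) atTop (𝓝 σ) := by
    apply LTR_ip nk
    refine h1.congr' ?_
    filter_upwards [ev1] with n hn
    exact hn.2 (ss n)
  have t2 : Tendsto (fun n => lv (r * dt (A.e k) (ys n - z)) (ss n)) atTop (𝓝 σ') := by
    apply LTR_ip nj
    refine h2.congr' ?_
    filter_upwards [ev2, ev3] with n hn hn3
    rw [hn.2 (ss n)]
    have e1 : dt (A.e j') (φ (ys n) - φ z) = r * dt (A.e k) (ys n - z) := by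
      rcases hor with ⟨ha, hb⟩ | ⟨ha, hb⟩
      · rw [← ha, ← hb]
        exact hn3
      · rw [ha, hb, LTR_dt_neg, LTR_dt_neg] at hn3
        linarith
    rw [e1]
  have hx : Tendsto (fun n => dt (A.e k) (ys n - z)) atTop (𝓝 0) := by
    have hc : Continuous fun v : ℂ => dt (A.e k) (v - z) := by
      unfold dt
      exact (continuous_const.mul (Complex.continuous_im.comp (continuous_id.sub continuous_const))).sub
        (continuous_const.mul (Complex.continuous_re.comp (continuous_id.sub continuous_const)))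
    have h3 := (hc.tendsto z).comp hd.1
    have e : dt (A.e k) (z - z) = 0 := by
      unfold dt
      simp
    rwa [e] at h3
  have h4 : Tendsto (fun n => lv (r * dt (A.e k) (ys n - z)) (ss n) -
      lv (dt (A.e k) (ys n - z)) (ss n)) atTop (𝓝 0) := by
    refine squeeze_zero_norm (fun n => lv_close hr _ _) ?_
    have h5 := (hx.abs).const_mul (8 * (1 + r))
    rwa [abs_zero, mul_zero] at h5
  have h6 := tendsto_nhds_unique h4 (t2.sub t1)
  linarith

end TorD
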