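import Pool.Agent.H51.TD.BAS

/-! # PLA: piecewise linear curves under the four shears

PROOF. plc_ref: an interval `[k/N', (k+1)/N']` is contained in one `[k'/N, (k'+1)/N]` (`N' = N l`, `k' = ⌊k/l⌋`). plc_Hh: let `N' = 2 N M!` (`M ≥ 0` as `|a| ≤ M`; use
`M.toNat.factorial`). On `J = [k/N', (k+1)/N']`, contained in a piece of `γ`, `γ t = (a t + b, c t + d)`, `|c| ≤ M`. If `c = 0`, `im = d` is an integer, `aa d = 0 = σ d + d'` with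
`σ = 8`, `d' = -8 d`: `a + σ c = a`. If `c ≠ 0`: the function `c t + d` does not take a value in `(1/2)ℤ` in the interior of `J` because `c t + d = m/2` gives
`t = (m - 2d)/(2c)`, a multiple of `1/N'` (`2c | 2 M! | N'`). So `c t + d` stays in one `[m/2,(m+1)/2]` for `t ∈ J` (intermediate value/monotone: take `m = ⌊2 (c t₀ + d)⌋`
at the midpoint `t₀`), aa_piece: `aa (c t + d) = σ (c t + d) + d'`, so the new coefficients are `a + σ c`, `b + σ d + d'`, `c`, `d`. `|a + σ c| ≤ 9 M`. The other three are the same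
(for `Hi`: `a - σ c = a + (-σ) c`). -/

set_option autoImplicit false

open Topology Filter Set Function

namespace TorD

theorem plc_ref {N N' : ℕ} {M : ℤ} {Q : ℤ → ℤ → Prop} {γ : ℝ → ℂ} (h : PLC N M Q γ) (hN : 0 < N)
    (hd : N ∣ N') (hN' : 0 < N') : PLC N' M Q γ := by
  obtain ⟨l, rfl⟩ := hd
  have hl : 0 < l := Nat.pos_of_mul_pos_left hN'
  intro k
  obtain ⟨a, b, c, d, h1, h2, h3, h4⟩ := h (k / (l : ℤ))
  refine ⟨a, b, c, d, h1, h2, h3, fun t ht => h4 t ?_⟩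
  have hlZ : (0 : ℤ) < l := by exact_mod_cast hl
  have e1 : (k / (l : ℤ)) * l ≤ k := Int.ediv_mul_le k hlZ.ne'
  have e2 : k + 1 ≤ (k / (l : ℤ) + 1) * l := Int.lt_ediv_add_one_mul_self k hlZ
  have e1' : ((k / (l : ℤ) : ℤ) : ℝ) * l ≤ k := by exact_mod_cast e1
  have e2' : (k : ℝ) + 1 ≤ (((k / (l : ℤ) : ℤ) : ℝ) + 1) * l := by exact_mod_cast e2
  have hNR : (0 : ℝ) < N := by exact_mod_cast hN
  have hlR : (0 : ℝ) < l := by exact_mod_cast hl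
  obtain ⟨t1, t2⟩ := ht
  push_cast at t1 t2
  constructor
  · refine le_trans ?_ t1
    rw [div_le_div_iff₀ hNR (by positivity)]
    nlinarith
  · refine le_trans t2 ?_
    rw [div_le_div_iff₀ (by positivity) hNR]
    nlinarith

theorem PLA_half {e u : ℤ} (he : 0 < e) : ∃ m : ℤ, ∀ y : ℝ, (u : ℝ) ≤ 2 * e * y → 2 * e * y ≤ u + 1 →
    y ∈ Icc ((m : ℝ) / 2) (((m : ℝ) + 1) / 2) := by
  refine ⟨u / e, fun y h1 h2 => ?_⟩
  have e1 : (u / e) * e ≤ u := Int.ediv_mul_le u he.ne'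
  have e2 : u + 1 ≤ (u / e + 1) * e := Int.lt_ediv_add_one_mul_self u he
  have e1' : ((u / e : ℤ) : ℝ) * e ≤ u := by exact_mod_cast e1
  have e2' : (u : ℝ) + 1 ≤ (((u / e : ℤ) : ℝ) + 1) * e := by exact_mod_cast e2
  have heR : (0 : ℝ) < e := by exact_mod_cast he
  constructor
  · have h3 : ((u / e : ℤ) : ℝ) * e ≤ (2 * y) * e := by linarith
    have h4 := le_of_mul_le_mul_right h3 heR
    linarith
  · have h3 : (2 * y) * e ≤ (((u / e : ℤ) : ℝ) + 1) * e := by linarith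
    have h4 := le_of_mul_le_mul_right h3 heR
    linarith

theorem PLA_key {N' : ℕ} (hN' : 0 < N') (c d : ℤ) (hc : c ≠ 0 → 2 * c ∣ (N' : ℤ)) (k : ℤ) :
    ∃ σ d' : ℤ, (σ = 8 ∨ σ = -8) ∧ ∀ t ∈ Icc ((k : ℝ) / N') (((k : ℝ) + 1) / N'),
      aa (c * t + d) = σ * (c * t + d) + d' := by
  by_cases hc0 : c = 0
  · refine ⟨8, -8 * d, Or.inl rfl, fun t _ => ?_⟩
    have h1 := aa_int 0 d
    rw [zero_add, aa_zero] at h1
    rw [hc0]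
    push_cast
    rw [zero_mul, zero_add, h1]
    ring
  · obtain ⟨e, he⟩ := hc hc0
    have hNR : (0 : ℝ) < N' := by exact_mod_cast hN'
    have heR : (N' : ℝ) = 2 * c * e := by exact_mod_cast he
    have he0 : e ≠ 0 := by
      rintro rfl
      rw [mul_zero] at he
      have : N' = 0 := by exact_mod_cast he
      omega
    have hmain : ∀ t ∈ Icc ((k : ℝ) / N') (((k : ℝ) + 1) / N'),
        ((k + 2 * e * d : ℤ) : ℝ) ≤ 2 * e * (c * t + d) ∧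
        2 * e * (c * t + d) ≤ ((k + 2 * e * d : ℤ) : ℝ) + 1 := by
      rintro t ⟨t1, t2⟩
      rw [div_le_iff₀ hNR, heR] at t1
      rw [le_div_iff₀ hNR, heR] at t2
      push_cast
      constructor <;> linarith
    have hm : ∃ m : ℤ, ∀ t ∈ Icc ((k : ℝ) / N') (((k : ℝ) + 1) / N'),
        (c * t + d : ℝ) ∈ Icc ((m : ℝ) / 2) (((m : ℝ) + 1) / 2) := by
      rcases lt_or_gt_of_ne he0 with h | h
      · obtain ⟨m, hm⟩ := PLA_half (e := -e) (u := -(k + 2 * e * d) - 1) (by omega)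
        refine ⟨m, fun t ht => hm _ ?_ ?_⟩
        · have := (hmain t ht).2
          push_cast at this ⊢
          linarith
        · have := (hmain t ht).1
          push_cast at this ⊢
          linarith
      · obtain ⟨m, hm⟩ := PLA_half (e := e) (u := k + 2 * e * d) h
        exact ⟨m, fun t ht => hm _ (hmain t ht).1 (hmain t ht).2⟩
    obtain ⟨m, hm⟩ := hm
    obtain ⟨σ, d', h1, h2⟩ := aa_piece m
    exact ⟨σ, d', h1, fun t ht => h2 _ (hm t ht)⟩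

theorem PLA_dvd {M c : ℤ} (hc : |c| ≤ M) (N : ℕ) (h0 : c ≠ 0) :
    2 * c ∣ ((2 * N * M.toNat.factorial : ℕ) : ℤ) := by
  have h1 : c.natAbs ∣ M.toNat.factorial := by
    refine Nat.dvd_factorial (Int.natAbs_pos.2 h0) ?_
    have h2 : (c.natAbs : ℤ) ≤ M := by rw [Int.natCast_natAbs]; exact hc
    omega
  have h2 : c ∣ (M.toNat.factorial : ℤ) := Int.natAbs_dvd.1 (Int.natCast_dvd_natCast.2 h1)
  obtain ⟨r, hr⟩ := h2
  refine ⟨N * r, ?_⟩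
  push_cast
  rw [hr]
  ring

theorem PLA_gen {N : ℕ} {M : ℤ} {Q : ℤ → ℤ → Prop} {γ : ℝ → ℂ} (h : PLC N M Q γ) (hN : 0 < N) :
    0 ≤ M ∧ ∃ N' : ℕ, 0 < N' ∧ N ∣ N' ∧ ∀ k : ℤ, ∃ a b c d σ e σ' e' : ℤ, Q a c ∧ |a| ≤ M ∧ |c| ≤ M ∧
      (σ = 8 ∨ σ = -8) ∧ (σ' = 8 ∨ σ' = -8) ∧ ∀ t ∈ Icc ((k : ℝ) / N') (((k : ℝ) + 1) / N'),
        γ t = ⟨a * t + b, c * t + d⟩ ∧ aa (c * t + d) = σ * (c * t + d) + e ∧
        aa (a * t + b) = σ' * (a * t + b) + e' := by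
  have hM : 0 ≤ M := by
    obtain ⟨a, b, c, d, _, h2, _⟩ := h 0
    exact (abs_nonneg a).trans h2
  have hpos : 0 < 2 * N * M.toNat.factorial :=
    Nat.mul_pos (Nat.mul_pos (by norm_num) hN) (Nat.factorial_pos _)
  have hdvd : N ∣ 2 * N * M.toNat.factorial := ⟨2 * M.toNat.factorial, by ring⟩
  refine ⟨hM, 2 * N * M.toNat.factorial, hpos, hdvd, fun k => ?_⟩
  obtain ⟨a, b, c, d, h1, h2, h3, h4⟩ := plc_ref h hN hdvd hpos k
  obtain ⟨σ, e, hσ, he⟩ := PLA_key hpos c d (PLA_dvd h3 N) k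
  obtain ⟨σ', e', hσ', he'⟩ := PLA_key hpos a b (PLA_dvd h2 N) k
  exact ⟨a, b, c, d, σ, e, σ', e', h1, h2, h3, hσ, hσ', fun t ht => ⟨h4 t ht, he t ht, he' t ht⟩⟩

theorem PLA_abs {M a c σ : ℤ} (ha : |a| ≤ M) (hc : |c| ≤ M) (hσ : σ = 8 ∨ σ = -8) :
    |a + σ * c| ≤ 9 * M := by
  rw [abs_le] at ha hc ⊢
  rcases hσ with rfl | rfl <;> constructor <;> linarith [ha.1, ha.2, hc.1, hc.2]

theorem PLA_neg {σ : ℤ} (hσ : σ = 8 ∨ σ = -8) : -σ = 8 ∨ -σ = -8 := by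
  rcases hσ with rfl | rfl
  · right; rfl
  · left; rfl

theorem plc_Hh {N : ℕ} {M : ℤ} {Q Q' : ℤ → ℤ → Prop} {γ : ℝ → ℂ} (h : PLC N M Q γ) (hN : 0 < N)
    (hQ : ∀ a c σ : ℤ, Q a c → σ = 8 ∨ σ = -8 → Q' (a + σ * c) c) :
    ∃ N' : ℕ, 0 < N' ∧ N ∣ N' ∧ PLC N' (9 * M) Q' fun t => Hh (γ t) := by
  obtain ⟨hM, N', hN', hd, hk⟩ := PLA_gen h hN
  refine ⟨N', hN', hd, fun k => ?_⟩
  obtain ⟨a, b, c, d, σ, e, σ', e', h1, h2, h3, hσ, hσ', h4⟩ := hk k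
  refine ⟨a + σ * c, b + σ * d + e, c, d, hQ a c σ h1 hσ, PLA_abs h2 h3 hσ, by linarith,
    fun t ht => ?_⟩
  obtain ⟨e1, e2, _⟩ := h4 t ht
  simp only [Hh, e1, e2]
  push_cast
  congr 1
  ring

theorem plc_Hi {N : ℕ} {M : ℤ} {Q Q' : ℤ → ℤ → Prop} {γ : ℝ → ℂ} (h : PLC N M Q γ) (hN : 0 < N)
    (hQ : ∀ a c σ : ℤ, Q a c → σ = 8 ∨ σ = -8 → Q' (a + σ * c) c) :
    ∃ N' : ℕ, 0 < N' ∧ N ∣ N' ∧ PLC N' (9 * M) Q' fun t => Hi (γ t) := by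
  obtain ⟨hM, N', hN', hd, hk⟩ := PLA_gen h hN
  refine ⟨N', hN', hd, fun k => ?_⟩
  obtain ⟨a, b, c, d, σ, e, σ', e', h1, h2, h3, hσ, hσ', h4⟩ := hk k
  refine ⟨a + (-σ) * c, b - σ * d - e, c, d, hQ a c _ h1 (PLA_neg hσ), PLA_abs h2 h3 (PLA_neg hσ),
    by linarith, fun t ht => ?_⟩
  obtain ⟨e1, e2, _⟩ := h4 t ht
  simp only [Hi, e1, e2]
  push_cast
  congr 1
  ring

theorem plc_Vv {N : ℕ} {M : ℤ} {Q Q' : ℤ → ℤ → Prop} {γ : ℝ → ℂ} (h : PLC N M Q γ) (hN : 0 < N)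
    (hQ : ∀ a c σ : ℤ, Q a c → σ = 8 ∨ σ = -8 → Q' a (c + σ * a)) :
    ∃ N' : ℕ, 0 < N' ∧ N ∣ N' ∧ PLC N' (9 * M) Q' fun t => Vv (γ t) := by
  obtain ⟨hM, N', hN', hd, hk⟩ := PLA_gen h hN
  refine ⟨N', hN', hd, fun k => ?_⟩
  obtain ⟨a, b, c, d, σ, e, σ', e', h1, h2, h3, hσ, hσ', h4⟩ := hk k
  refine ⟨a, b, c + σ' * a, d + σ' * b + e', hQ a c σ' h1 hσ', by linarith, PLA_abs h3 h2 hσ',
    fun t ht => ?_⟩
  obtain ⟨e1, _, e3⟩ := h4 t ht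
  simp only [Vv, e1, e3]
  push_cast
  congr 1
  ring

theorem plc_Vi {N : ℕ} {M : ℤ} {Q Q' : ℤ → ℤ → Prop} {γ : ℝ → ℂ} (h : PLC N M Q γ) (hN : 0 < N)
    (hQ : ∀ a c σ : ℤ, Q a c → σ = 8 ∨ σ = -8 → Q' a (c + σ * a)) :
    ∃ N' : ℕ, 0 < N' ∧ N ∣ N' ∧ PLC N' (9 * M) Q' fun t => Vi (γ t) := by
  obtain ⟨hM, N', hN', hd, hk⟩ := PLA_gen h hN
  refine ⟨N', hN', hd, fun k => ?_⟩
  obtain ⟨a, b, c, d, σ, e, σ', e', h1, h2, h3, hσ, hσ', h4⟩ := hk k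
  refine ⟨a, b, c + (-σ') * a, d - σ' * b - e', hQ a c _ h1 (PLA_neg hσ'), by linarith,
    PLA_abs h3 h2 (PLA_neg hσ'), fun t ht => ?_⟩
  obtain ⟨e1, _, e3⟩ := h4 t ht
  simp only [Vi, e1, e3]
  push_cast
  congr 1
  ring

end TorD
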