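import Pool.Agent.H51.TD.Int2

/-! # RAD: radial extension of a boundary map

PROOF. Let `T = (fun x => x - m) '' K`: compact, convex, `0 ∈ interior T` (translation is a homeomorphism; `T ∈ 𝓝 0`). `G = gauge T` is continuous (`continuous_gauge`), `G (r v) = r G v` for `r ≥ 0`
(`gauge_smul_of_nonneg`), `G v > 0` for `v ≠ 0` (`T` bounded: `gauge_pos`), `v ∈ T ↔ G v ≤ 1` (`gauge_le_one_iff_mem_closure`, `T` closed), `v ∈ frontier T ↔ G v = 1` (`gauge_eq_one_iff_mem_frontier`),
and `frontier T = (· - m) '' frontier K`. So for `p ≠ m`, `b = m + (G (p-m))⁻¹ • (p - m) ∈ frontier K` and `p = m + r • (b - m)` with `r = G (p - m)`. cone_fr: for `b ∈ frontier K`, `G (r (b-m)) = r`;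
if `r > 0` the formula gives `m' + r (g b - m')`; if `r = 0` both sides are `m'`. cone_form: for `p = m`, `r = 0` and any `b ∈ frontier K` (`frontier K` is nonempty: `m + (G 1)⁻¹ • 1`). cone_ext: `r = 1`.
cone_maps: `K'` is convex and contains `m'` and `g b` (`K'` closed). cone_cont: away from `m` it is a composition of continuous maps (`g` continuous on `frontier K`); at `m`:
`‖cone p - m'‖ ≤ G (p - m) * C` where `C` bounds `‖g b - m'‖` on the compact `frontier K`. cone_inv: `p = m + r (b - m)`, `cone p = m' + r (g b - m')`, `g b ∈ frontier K'`, so by cone_fr for `K'`,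
`cone K' m' m g' (cone p) = m + r (g' (g b) - m) = p`. cone_tr: the set `T` for `K + c` and `m + c` is the same. -/

set_option autoImplicit false

open Topology Filter Set Function

namespace TorD

variable {K K' : Set ℂ} {m m' : ℂ} {g g' : ℂ → ℂ}

theorem RAD_convex (hc : Convex ℝ K) (m : ℂ) : Convex ℝ ((fun x => x - m) '' K) := by
  have h := hc.translate (-m)
  have h2 : (fun x => x - m) = fun z => -m + z := by
    funext x
    ring
  rw [h2]
  exact h

theorem RAD_image_frontier (K : Set ℂ) (m : ℂ) :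
    (fun x => x - m) '' frontier K = frontier ((fun x => x - m) '' K) :=
  Homeomorph.image_frontier (Homeomorph.subRight m) K

theorem RAD_image_interior (K : Set ℂ) (m : ℂ) :
    (fun x => x - m) '' interior K = interior ((fun x => x - m) '' K) :=
  Homeomorph.image_interior (Homeomorph.subRight m) K

theorem RAD_nhds (hm : m ∈ interior K) : (fun x => x - m) '' K ∈ 𝓝 (0 : ℂ) := by
  rw [← mem_interior_iff_mem_nhds, ← RAD_image_interior]
  exact ⟨m, hm, sub_self m⟩

theorem RAD_compact (hK : IsCompact K) (m : ℂ) : IsCompact ((fun x => x - m) '' K) :=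
  hK.image (by fun_prop)

theorem RAD_pos (hK : IsCompact K) (hm : m ∈ interior K) {v : ℂ} (hv : v ≠ 0) :
    0 < gauge ((fun x => x - m) '' K) v := by
  have h1 : Bornology.IsVonNBounded ℝ ((fun x => x - m) '' K) := by
    rw [NormedSpace.isVonNBounded_iff]
    exact (RAD_compact hK m).isBounded
  exact (gauge_pos (absorbent_nhds_zero (RAD_nhds hm)) h1).2 hv

theorem RAD_one (hc : Convex ℝ K) (hm : m ∈ interior K) {b : ℂ} (hb : b ∈ frontier K) :
    gauge ((fun x => x - m) '' K) (b - m) = 1 := by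
  rw [gauge_eq_one_iff_mem_frontier (RAD_convex hc m) (RAD_nhds hm), ← RAD_image_frontier]
  exact ⟨b, hb, rfl⟩

theorem RAD_front (hc : Convex ℝ K) (hm : m ∈ interior K) {v : ℂ}
    (hv : gauge ((fun x => x - m) '' K) v = 1) : m + v ∈ frontier K := by
  rw [gauge_eq_one_iff_mem_frontier (RAD_convex hc m) (RAD_nhds hm), ← RAD_image_frontier] at hv
  obtain ⟨b, hb, hbv⟩ := hv
  have h1 : m + v = b := by
    rw [← hbv]
    ring
  rw [h1]
  exact hb

theorem RAD_smul (K : Set ℂ) (m : ℂ) {r : ℝ} (hr : 0 ≤ r) (v : ℂ) :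
    gauge ((fun x => x - m) '' K) (r • v) = r * gauge ((fun x => x - m) '' K) v := by
  rw [gauge_smul_of_nonneg hr, smul_eq_mul]

theorem RAD_beta (hK : IsCompact K) (hc : Convex ℝ K) (hm : m ∈ interior K) {v : ℂ} (hv : v ≠ 0) :
    m + (gauge ((fun x => x - m) '' K) v)⁻¹ • v ∈ frontier K := by
  have h1 := RAD_pos hK hm hv
  apply RAD_front hc hm
  rw [RAD_smul K m (inv_nonneg.2 h1.le), inv_mul_cancel₀ h1.ne']

theorem RAD_le (hK : IsCompact K) (hc : Convex ℝ K) (hm : m ∈ interior K) {p : ℂ} (hp : p ∈ K) :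
    gauge ((fun x => x - m) '' K) (p - m) ≤ 1 := by
  rw [gauge_le_one_iff_mem_closure (RAD_convex hc m) (RAD_nhds hm),
    (RAD_compact hK m).isClosed.closure_eq]
  exact ⟨p, hp, rfl⟩

theorem RAD_ne (hK : IsCompact K) (hc : Convex ℝ K) (hm : m ∈ interior K) :
    (frontier K).Nonempty :=
  ⟨_, RAD_beta hK hc hm (one_ne_zero : (1 : ℂ) ≠ 0)⟩

theorem cone_fr (hK : IsCompact K) (hc : Convex ℝ K) (hm : m ∈ interior K) (g : ℂ → ℂ) {b : ℂ}
    (hb : b ∈ frontier K) {r : ℝ} (hr : 0 ≤ r) :
    cone K m m' g (m + r • (b - m)) = m' + r • (g b - m') := by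
  unfold cone
  have h1 : m + r • (b - m) - m = r • (b - m) := by ring
  rw [h1, RAD_smul K m hr, RAD_one hc hm hb, mul_one]
  rcases hr.eq_or_lt with h0 | h0
  · rw [← h0, zero_smul, zero_smul]
  · rw [smul_smul, inv_mul_cancel₀ h0.ne', one_smul, add_sub_cancel]

theorem cone_form (hK : IsCompact K) (hc : Convex ℝ K) (hm : m ∈ interior K) (g : ℂ → ℂ) {p : ℂ}
    (hp : p ∈ K) : ∃ b ∈ frontier K, ∃ r ∈ Icc (0 : ℝ) 1, p = m + r • (b - m) ∧
      cone K m m' g p = m' + r • (g b - m') := by
  by_cases hpm : p = m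
  · obtain ⟨b, hb⟩ := RAD_ne hK hc hm
    have h1 : p = m + (0 : ℝ) • (b - m) := by rw [zero_smul, add_zero, hpm]
    refine ⟨b, hb, 0, ⟨le_refl _, zero_le_one⟩, h1, ?_⟩
    have h2 := cone_fr (m' := m') hK hc hm g hb (le_refl (0 : ℝ))
    rw [← h1] at h2
    exact h2
  · have hv : p - m ≠ 0 := sub_ne_zero.2 hpm
    have hpos := RAD_pos hK hm hv
    have hb := RAD_beta hK hc hm hv
    have h1 : p = m + (gauge ((fun x => x - m) '' K) (p - m)) •
        (m + (gauge ((fun x => x - m) '' K) (p - m))⁻¹ • (p - m) - m) := by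
      rw [add_sub_cancel_left, smul_smul, mul_inv_cancel₀ hpos.ne', one_smul, add_sub_cancel]
    refine ⟨_, hb, _, ⟨hpos.le, RAD_le hK hc hm hp⟩, h1, ?_⟩
    rfl

theorem cone_ext (hK : IsCompact K) (hc : Convex ℝ K) (hm : m ∈ interior K) (g : ℂ → ℂ) {b : ℂ}
    (hb : b ∈ frontier K) : cone K m m' g b = g b := by
  have h2 := cone_fr (m' := m') hK hc hm g hb (zero_le_one : (0 : ℝ) ≤ 1)
  rw [one_smul, one_smul, add_sub_cancel, add_sub_cancel] at h2
  exact h2

theorem cone_maps (hK : IsCompact K) (hc : Convex ℝ K) (hm : m ∈ interior K)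
    (hK' : IsCompact K') (hc' : Convex ℝ K') (hm' : m' ∈ interior K')
    (hg : MapsTo g (frontier K) (frontier K')) : MapsTo (cone K m m' g) K K' := by
  intro p hp
  obtain ⟨b, hb, r, hr, _, h2⟩ := cone_form (m' := m') hK hc hm g hp
  rw [h2]
  exact hc'.add_smul_sub_mem (interior_subset hm') (hK'.isClosed.frontier_subset (hg hb)) hr

theorem cone_cont (hK : IsCompact K) (hc : Convex ℝ K) (hm : m ∈ interior K)
    (hg : ContinuousOn g (frontier K)) : ContinuousOn (cone K m m' g) K := by
  have hG : Continuous (gauge ((fun x => x - m) '' K)) :=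
    continuous_gauge (RAD_convex hc m) (RAD_nhds hm)
  have hGm : Continuous fun p : ℂ => gauge ((fun x => x - m) '' K) (p - m) :=
    hG.comp (by fun_prop)
  intro p hp
  apply ContinuousAt.continuousWithinAt
  by_cases hpm : p = m
  · subst hpm
    have hfr : IsCompact (frontier K) := hK.of_isClosed_subset isClosed_frontier
      hK.isClosed.frontier_subset
    obtain ⟨C, hC⟩ := hfr.exists_bound_of_continuousOn
      (f := fun b => g b - m') (hg.sub continuousOn_const)
    have h0 : cone K p m' g p = m' := by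
      unfold cone
      rw [sub_self, gauge_zero, zero_smul, add_zero]
    rw [ContinuousAt, h0, tendsto_iff_norm_sub_tendsto_zero]
    have hlim : Tendsto (fun q : ℂ => gauge ((fun x => x - p) '' K) (q - p) * C) (𝓝 p) (𝓝 0) := by
      have h1 : Tendsto (fun q : ℂ => gauge ((fun x => x - p) '' K) (q - p) * C) (𝓝 p)
          (𝓝 (gauge ((fun x => x - p) '' K) (p - p) * C)) :=
        (hGm.mul continuous_const).tendsto p
      rw [sub_self, gauge_zero, zero_mul] at h1
      exact h1
    refine squeeze_zero (fun q => norm_nonneg _) (fun q => ?_) hlim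
    unfold cone
    rw [add_sub_cancel_left, norm_smul, Real.norm_eq_abs, abs_of_nonneg (gauge_nonneg _)]
    by_cases hq : q = p
    · rw [hq, sub_self, gauge_zero, zero_mul, zero_mul]
    · exact mul_le_mul_of_nonneg_left (hC _ (RAD_beta hK hc hm (sub_ne_zero.2 hq)))
        (gauge_nonneg _)
  · have hopen : ({m}ᶜ : Set ℂ) ∈ 𝓝 p := isOpen_compl_singleton.mem_nhds hpm
    have hβ : ContinuousOn (fun q : ℂ => m + (gauge ((fun x => x - m) '' K) (q - m))⁻¹ • (q - m))
        {m}ᶜ := by
      apply continuousOn_const.add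
      have hi : ContinuousOn (fun q : ℂ => (gauge ((fun x => x - m) '' K) (q - m))⁻¹) {m}ᶜ :=
        hGm.continuousOn.inv₀ fun q hq => (RAD_pos hK hm (sub_ne_zero.2 hq)).ne'
      have hj : ContinuousOn (fun q : ℂ => q - m) {m}ᶜ := by fun_prop
      exact hi.smul hj
    have hβm : MapsTo (fun q : ℂ => m + (gauge ((fun x => x - m) '' K) (q - m))⁻¹ • (q - m))
        {m}ᶜ (frontier K) := fun q hq => RAD_beta hK hc hm (sub_ne_zero.2 hq)
    have hcomp := hg.comp hβ hβm
    have hall : ContinuousOn (cone K m m' g) {m}ᶜ := by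
      unfold cone
      exact continuousOn_const.add (hGm.continuousOn.smul (hcomp.sub continuousOn_const))
    exact hall.continuousAt hopen

theorem cone_inv (hK : IsCompact K) (hc : Convex ℝ K) (hm : m ∈ interior K)
    (hK' : IsCompact K') (hc' : Convex ℝ K') (hm' : m' ∈ interior K')
    (hg : MapsTo g (frontier K) (frontier K')) (h : ∀ b ∈ frontier K, g' (g b) = b) :
    ∀ p ∈ K, cone K' m' m g' (cone K m m' g p) = p := by
  intro p hp
  obtain ⟨b, hb, r, hr, h1, h2⟩ := cone_form (m' := m') hK hc hm g hp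
  rw [h2, cone_fr hK' hc' hm' g' (hg hb) hr.1, h b hb]
  exact h1.symm

theorem cone_tr (hK : IsCompact K) (hc : Convex ℝ K) (hm : m ∈ interior K) (c : ℂ)
    (hg : ∀ b ∈ frontier K, g (b + c) = g b + c) {p : ℂ} (hp : p ∈ K) :
    cone ((fun x => x + c) '' K) (m + c) (m' + c) g (p + c) = cone K m m' g p + c := by
  obtain ⟨b, hb, r, hr, h1, h2⟩ := cone_form (m' := m') hK hc hm g hp
  have hKc : IsCompact ((fun x => x + c) '' K) := hK.image (by fun_prop)
  have hcc : Convex ℝ ((fun x => x + c) '' K) := by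
    have h := hc.translate c
    have h2 : (fun x => x + c) = fun z => c + z := by
      funext x
      ring
    rw [h2]
    exact h
  have hmc : m + c ∈ interior ((fun x => x + c) '' K) := by
    have h3 : (fun x => x + c) '' interior K = interior ((fun x => x + c) '' K) :=
      Homeomorph.image_interior (Homeomorph.addRight c) K
    rw [← h3]
    exact ⟨m, hm, rfl⟩
  have hbc : b + c ∈ frontier ((fun x => x + c) '' K) := by
    have h3 : (fun x => x + c) '' frontier K = frontier ((fun x => x + c) '' K) :=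
      Homeomorph.image_frontier (Homeomorph.addRight c) K
    rw [← h3]
    exact ⟨b, hb, rfl⟩
  have h4 := cone_fr (m' := m' + c) hKc hcc hmc g hbc hr.1
  rw [add_sub_add_right_eq_sub, hg b hb, add_sub_add_right_eq_sub] at h4
  have h5 : p + c = m + c + r • (b - m) := by
    rw [h1]
    ring
  rw [h5, h4, h2]
  ring

end TorD
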