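import Pool.Agent.H51.TD.PCA

/-! # RGA: regularised pieces, norm, Lipschitz constant, limits

PROOF. `selE ε u x = k(d) • (x - pj u x)`, `d = ‖x - pj u x‖`, `k(d) = max 0 (1-8d) / max d ε`; norm `≤ d / max d ε ≤ 1`, and `selE = 0` if `d ≥ 1/8`,
`‖selE‖ ≤ 8 (1/8 - d)` if `d ≤ 1/8`. `k` is bounded by `1/ε` and Lipschitz on `[0,∞)` with a constant `K₁(ε)` (e.g. `8/ε + 1/ε²`), `x - pj u x` is 1-Lipschitz (pj_lip)
and has norm `≤ 1/8` where `k ≠ 0`, so `selE ε u` is Lipschitz with constant `K₂(ε) = 1/ε + K₁(ε)` (for two points with `d, d' ≤ 1/8` directly; if `d' > 1/8 ≥ d`,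
`‖selE(x)‖ ≤ 8 (1/8 - d) ≤ 8 ‖x - x'‖`). Periodic version: with `x = y - q - lat w`, `x' = y' - q - lat w'`: if `w = w'` done; if `w ≠ w'`, both values have norm
`≤ 8 ‖y - y'‖` exactly as in the proof of D_mono (module PCA): constant `max K₂ 16`.
selE_lim: if `x = rd (y - q)` has `‖x‖ ≥ 1/2` then near `y` everything is 0 (see PCA header; `D0 u x = {0}` there). Otherwise `x n := rd (y n - q) → x` eventually
(translation). If `x ≠ pj u x`, `d > 0`, eventually `ε n < d n`, `selE = sel0`, continuous. If `x = pj u x`: norm `≤ 1`, and `ip (selE ..) (t u - pj u (x n)) ≤ 0` by pj_proj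
(nonnegative multiple of `x n - pj u (x n)`), pass to the limit using `pj u (x n) → pj u x = x`. -/

set_option autoImplicit false

open Topology Filter Set Function

namespace TorD

theorem RGA_norm {ε : ℝ} (hε : 0 < ε) (u x : ℂ) :
    ‖selE ε u x‖ ≤ max 0 (1 - 8 * ‖x - pj u x‖) := by
  unfold selE
  obtain ⟨d, hd⟩ : ∃ d, d = ‖x - pj u x‖ := ⟨_, rfl⟩
  have hd0 : 0 ≤ d := by
    rw [hd]
    exact norm_nonneg _
  rw [norm_smul, ← hd, Real.norm_eq_abs]
  have h1 : 0 < max d ε := lt_max_of_lt_right hε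
  have h2 : 0 ≤ max 0 (1 - 8 * d) := le_max_left _ _
  rw [abs_of_nonneg (div_nonneg h2 h1.le), div_mul_eq_mul_div, div_le_iff₀ h1]
  exact mul_le_mul_of_nonneg_left (le_max_left _ _) h2

theorem RGA_zero {ε : ℝ} (hε : 0 < ε) {u x : ℂ} (h : 1 / 8 ≤ ‖x - pj u x‖) : selE ε u x = 0 := by
  have h1 := RGA_norm hε u x
  rw [max_eq_left (by linarith)] at h1
  exact norm_le_zero_iff.1 h1

theorem selE_norm {ε : ℝ} (hε : 0 < ε) (u x : ℂ) : ‖selE ε u x‖ ≤ 1 := by
  refine (RGA_norm hε u x).trans (max_le zero_le_one ?_)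
  have := norm_nonneg (x - pj u x)
  linarith

theorem RGA_absd (u x y : ℂ) : |‖x - pj u x‖ - ‖y - pj u y‖| ≤ ‖x - y‖ :=
  (abs_norm_sub_norm_le _ _).trans (pj_lip u x y)

theorem RGA_plane {ε : ℝ} (hε : 0 < ε) (u x x' : ℂ) :
    ‖selE ε u x - selE ε u x'‖ ≤ (3 / ε + 8) * ‖x - x'‖ := by
  have hδ : 0 ≤ ‖x - x'‖ := norm_nonneg _
  have habs := RGA_absd u x x'
  rw [abs_le] at habs
  rcases le_or_gt (‖x' - pj u x'‖) (1 / 8) with h1 | h1
  · obtain ⟨U, hU⟩ : ∃ U, U = x - pj u x := ⟨_, rfl⟩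
    obtain ⟨U', hU'⟩ : ∃ U', U' = x' - pj u x' := ⟨_, rfl⟩
    have hUU : ‖U - U'‖ ≤ ‖x - x'‖ := by
      rw [hU, hU']
      exact pj_lip u x x'
    have hsx : selE ε u x = (max 0 (1 - 8 * ‖U‖) / max ‖U‖ ε : ℝ) • U := by
      rw [hU]
      rfl
    have hsx' : selE ε u x' = (max 0 (1 - 8 * ‖U'‖) / max ‖U'‖ ε : ℝ) • U' := by
      rw [hU']
      rfl
    rw [← hU, ← hU'] at habs
    rw [← hU'] at h1
    rw [hsx, hsx']
    obtain ⟨d, hd⟩ : ∃ d, d = ‖U‖ := ⟨_, rfl⟩
    obtain ⟨d', hd'⟩ : ∃ d', d' = ‖U'‖ := ⟨_, rfl⟩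
    have hd0 : 0 ≤ d := by
      rw [hd]
      exact norm_nonneg _
    have hd0' : 0 ≤ d' := by
      rw [hd']
      exact norm_nonneg _
    rw [← hd, ← hd'] at habs
    rw [← hd'] at h1
    rw [← hd, ← hd']
    obtain ⟨g, hg⟩ : ∃ g, g = max 0 (1 - 8 * d) := ⟨_, rfl⟩
    obtain ⟨g', hg'⟩ : ∃ g', g' = max 0 (1 - 8 * d') := ⟨_, rfl⟩
    have hg0 : 0 ≤ g := by
      rw [hg]
      exact le_max_left _ _
    have hg1 : g ≤ 1 := by
      rw [hg]
      exact max_le zero_le_one (by linarith)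
    have hg0' : 0 ≤ g' := by
      rw [hg']
      exact le_max_left _ _
    have hg1' : g' ≤ 1 := by
      rw [hg']
      exact max_le zero_le_one (by linarith)
    have hgg : |g - g'| ≤ 8 * ‖x - x'‖ := by
      rw [hg, hg']
      refine (abs_max_sub_max_le_max _ _ _ _).trans ?_
      rw [sub_self, abs_zero]
      refine max_le (by positivity) ?_
      rw [abs_le]
      constructor <;> linarith
    obtain ⟨m, hm⟩ : ∃ m, m = max d ε := ⟨_, rfl⟩
    obtain ⟨m', hm'⟩ : ∃ m', m' = max d' ε := ⟨_, rfl⟩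
    have hmm : |m' - m| ≤ ‖x - x'‖ := by
      rw [hm, hm']
      refine (abs_max_sub_max_le_max _ _ _ _).trans ?_
      rw [sub_self, abs_zero]
      refine max_le ?_ hδ
      rw [abs_le]
      constructor <;> linarith
    have hmε : ε ≤ m := by
      rw [hm]
      exact le_max_right _ _
    have hmε' : ε ≤ m' := by
      rw [hm']
      exact le_max_right _ _
    have hmd' : d' ≤ m' := by
      rw [hm']
      exact le_max_left _ _
    rw [← hg, ← hg', ← hm, ← hm']
    have hm0 : 0 < m := lt_of_lt_of_le hε hmε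
    have hm0' : 0 < m' := lt_of_lt_of_le hε hmε'
    have h2 : (g / m) • U - (g' / m') • U' = (g / m) • (U - U') + (g / m - g' / m') • U' := by
      rw [smul_sub, sub_smul]
      abel
    rw [h2]
    refine (norm_add_le _ _).trans ?_
    rw [norm_smul, norm_smul, ← hd', Real.norm_eq_abs, Real.norm_eq_abs, abs_of_nonneg (by positivity)]
    have h3 : g / m * ‖U - U'‖ ≤ 1 / ε * ‖x - x'‖ := by
      refine mul_le_mul ?_ hUU (norm_nonneg _) (by positivity)
      exact div_le_div₀ zero_le_one hg1 hε hmε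
    have h4 : |g / m - g' / m'| * d' ≤ 2 / ε * ‖x - x'‖ := by
      have h5 : g / m - g' / m' = (g - g') / m + g' * (m' - m) / (m * m') := by
        field_simp
        ring
      rw [h5]
      have h6 : |(g - g') / m| * d' ≤ 1 / ε * ‖x - x'‖ := by
        rw [abs_div, abs_of_pos hm0]
        calc |g - g'| / m * d' ≤ (8 * ‖x - x'‖) / ε * (1 / 8) := by
              refine mul_le_mul (div_le_div₀ (by positivity) hgg hε hmε) h1 hd0' (by positivity)
          _ = _ := by ring
      have h7 : |g' * (m' - m) / (m * m')| * d' ≤ 1 / ε * ‖x - x'‖ := by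
        rw [abs_div, abs_mul, abs_of_nonneg hg0', abs_of_pos (by positivity : (0 : ℝ) < m * m')]
        calc g' * |m' - m| / (m * m') * d' = g' * |m' - m| * (d' / m') / m := by
              field_simp
          _ ≤ 1 * ‖x - x'‖ * 1 / ε := by
              refine div_le_div₀ (by positivity) ?_ hε hmε
              refine mul_le_mul (mul_le_mul hg1' hmm (abs_nonneg _) zero_le_one) ?_ (by positivity)
                (by positivity)
              rw [div_le_one hm0']
              exact hmd'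
          _ = _ := by ring
      calc |(g - g') / m + g' * (m' - m) / (m * m')| * d'
          ≤ (|(g - g') / m| + |g' * (m' - m) / (m * m')|) * d' :=
            mul_le_mul_of_nonneg_right (abs_add_le _ _) hd0'
        _ = |(g - g') / m| * d' + |g' * (m' - m) / (m * m')| * d' := by ring
        _ ≤ 1 / ε * ‖x - x'‖ + 1 / ε * ‖x - x'‖ := add_le_add h6 h7
        _ = _ := by ring
    have h8 : 0 ≤ 8 * ‖x - x'‖ := by positivity
    calc g / m * ‖U - U'‖ + |g / m - g' / m'| * d'
        ≤ 1 / ε * ‖x - x'‖ + 2 / ε * ‖x - x'‖ := add_le_add h3 h4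
      _ = 3 / ε * ‖x - x'‖ := by ring
      _ ≤ _ := by nlinarith
  · rw [RGA_zero hε h1.le, sub_zero]
    refine (RGA_norm hε u x).trans ?_
    have h2 : 0 ≤ 3 / ε * ‖x - x'‖ := by positivity
    refine max_le (by positivity) ?_
    nlinarith

theorem RGA_half {ε : ℝ} (hε : 0 < ε) {u q y y' : ℂ} (hu : ‖u‖ ≤ 1 / 8) {w w' : ℤ × ℤ}
    (hw : rd (y - q) = y - q - lat w) (hw' : rd (y' - q) = y' - q - lat w') (hne : w ≠ w') :
    ‖selE ε u (rd (y - q))‖ ≤ 8 * ‖y - y'‖ := by
  have h1 : 1 / 8 ≤ ‖(y' - q - lat w) - pj u (y' - q - lat w)‖ := by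
    by_contra hcon
    push Not at hcon
    have h2 : ‖y' - q - lat w‖ < 1 / 2 := by
      have h3 := norm_add_le ((y' - q - lat w) - pj u (y' - q - lat w)) (pj u (y' - q - lat w))
      rw [sub_add_cancel] at h3
      have h4 := pj_norm u (y' - q - lat w)
      linarith
    have h3 := rd_eq h2
    rw [hw'] at h3
    have h4 : lat w' = lat w := sub_right_injective h3
    exact hne (lat_inj h4).symm
  have h2 := RGA_absd u (rd (y - q)) (y' - q - lat w)
  have h3 : rd (y - q) - (y' - q - lat w) = y - y' := by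
    rw [hw]
    ring
  rw [h3, abs_le] at h2
  refine (RGA_norm hε u _).trans (max_le (by positivity) ?_)
  linarith [h2.1]

theorem selE_lip {ε : ℝ} (hε : 0 < ε) : ∃ K : ℝ, 0 < K ∧ ∀ u q : ℂ, ‖u‖ ≤ 1 / 8 → ∀ y y' : ℂ,
    ‖selE ε u (rd (y - q)) - selE ε u (rd (y' - q))‖ ≤ K * ‖y - y'‖ := by
  refine ⟨3 / ε + 16, by positivity, fun u q hu y y' => ?_⟩
  obtain ⟨w, hw⟩ := rd_sub (y - q)
  obtain ⟨w', hw'⟩ := rd_sub (y' - q)
  have h0 : 0 ≤ 3 / ε * ‖y - y'‖ := by positivity
  have h00 := norm_nonneg (y - y')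
  by_cases hne : w = w'
  · subst hne
    refine (RGA_plane hε u _ _).trans ?_
    have h1 : rd (y - q) - rd (y' - q) = y - y' := by
      rw [hw, hw']
      ring
    rw [h1]
    nlinarith
  · have h1 := RGA_half hε hu hw hw' hne
    have h2 := RGA_half hε hu hw' hw (Ne.symm hne)
    rw [norm_sub_rev y' y] at h2
    refine (norm_sub_le _ _).trans ?_
    nlinarith

theorem RGA_ip_cont : Continuous fun p : ℂ × ℂ => ip p.1 p.2 := by
  unfold ip
  fun_prop

theorem selE_lim {u q y v : ℂ} (hu : ‖u‖ ≤ 1 / 8) {ε : ℕ → ℝ} {ys : ℕ → ℂ} (hε : ∀ n, 0 < ε n)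
    (hε0 : Tendsto ε atTop (𝓝 0)) (hy : Tendsto ys atTop (𝓝 y))
    (hv : Tendsto (fun n => selE (ε n) u (rd (ys n - q))) atTop (𝓝 v)) :
    v ∈ D0 u (rd (y - q)) := by
  rcases le_or_gt (1 / 2) (‖rd (y - q)‖) with hA | hB
  · have hd : 1 / 8 ≤ ‖rd (y - q) - pj u (rd (y - q))‖ := by
      have h3 := norm_add_le (rd (y - q) - pj u (rd (y - q))) (pj u (rd (y - q)))
      rw [sub_add_cancel] at h3
      have h4 := pj_norm u (rd (y - q))
      linarith
    have hne : rd (y - q) ≠ pj u (rd (y - q)) := by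
      intro h
      rw [← sub_eq_zero] at h
      rw [h, norm_zero] at hd
      linarith
    rw [d0_single hne, sel0_zero hd]
    have h1 : ∀ᶠ n in atTop, selE (ε n) u (rd (ys n - q)) = 0 := by
      have h2 : ∀ᶠ n in atTop, ‖ys n - y‖ < 1 / 4 := by
        have h3 : Tendsto (fun n => ‖ys n - y‖) atTop (𝓝 0) := by
          have := (hy.sub_const y).norm
          simpa using this
        exact h3.eventually (gt_mem_nhds (by norm_num))
      filter_upwards [h2] with n hn
      apply RGA_zero (hε n)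
      obtain ⟨w', hw'⟩ := rd_sub (ys n - q)
      have h3 := rd_min (y - q) w'
      have h4 : y - q - lat w' = rd (ys n - q) - (ys n - y) := by
        rw [hw']
        ring
      rw [h4] at h3
      have h5 := norm_sub_le (rd (ys n - q)) (ys n - y)
      have h6 := norm_add_le (rd (ys n - q) - pj u (rd (ys n - q))) (pj u (rd (ys n - q)))
      rw [sub_add_cancel] at h6
      have h7 := pj_norm u (rd (ys n - q))
      linarith
    have h2 : Tendsto (fun _ : ℕ => (0 : ℂ)) atTop (𝓝 v) :=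
      hv.congr' h1
    have h3 : v = 0 := tendsto_nhds_unique h2 tendsto_const_nhds
    exact h3
  · obtain ⟨w, hw⟩ := rd_loc hB
    have hx : rd (y - q) = y - q - lat w := hw.self_of_nhds
    obtain ⟨x, hxd⟩ : ∃ x, x = rd (y - q) := ⟨_, rfl⟩
    have hxs : Tendsto (fun n => rd (ys n - q)) atTop (𝓝 x) := by
      have h1 : Tendsto (fun n => ys n - q) atTop (𝓝 (y - q)) := hy.sub_const q
      have h2 : Tendsto (fun n => ys n - q - lat w) atTop (𝓝 (y - q - lat w)) := h1.sub_const _
      rw [hxd, hx]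
      refine h2.congr' ?_
      filter_upwards [h1.eventually hw] with n hn
      exact hn.symm
    rw [← hxd]
    by_cases hne : x = pj u x
    · refine Or.inr ⟨hne, ?_, ?_⟩
      · exact le_of_tendsto hv.norm (Eventually.of_forall fun n => selE_norm (hε n) u _)
      · intro t ht
        have h1 : Tendsto (fun n => ip (selE (ε n) u (rd (ys n - q)))
            (t • u - pj u (rd (ys n - q)))) atTop (𝓝 (ip v (t • u - pj u x))) := by
          have h2 : Tendsto (fun n => t • u - pj u (rd (ys n - q))) atTop (𝓝 (t • u - pj u x)) :=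
            ((pj_cont u).continuousAt.tendsto.comp hxs).const_sub _
          exact (RGA_ip_cont.tendsto (v, t • u - pj u x)).comp (hv.prodMk_nhds h2)
        rw [← hne] at h1
        refine le_of_tendsto h1 (Eventually.of_forall fun n => ?_)
        unfold selE
        rw [ip_smul_left]
        refine mul_nonpos_of_nonneg_of_nonpos ?_ (pj_proj u _ ht)
        exact div_nonneg (le_max_left _ _) (le_max_of_le_right (hε n).le)
    · rw [d0_single hne]
      have hd : 0 < ‖x - pj u x‖ := norm_pos_iff.2 (sub_ne_zero.2 hne)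
      have h1 : Tendsto (fun n => ‖rd (ys n - q) - pj u (rd (ys n - q))‖) atTop (𝓝 ‖x - pj u x‖) :=
        (hxs.sub ((pj_cont u).continuousAt.tendsto.comp hxs)).norm
      have h2 : ∀ᶠ n in atTop, selE (ε n) u (rd (ys n - q)) = sel0 u (rd (ys n - q)) := by
        have h3 : ∀ᶠ n in atTop, ‖x - pj u x‖ / 2 < ‖rd (ys n - q) - pj u (rd (ys n - q))‖ :=
          h1.eventually (lt_mem_nhds (by linarith))
        have h4 : ∀ᶠ n in atTop, ε n < ‖x - pj u x‖ / 2 :=
          hε0.eventually (gt_mem_nhds (by linarith))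
        filter_upwards [h3, h4] with n h5 h6
        unfold selE sel0
        rw [max_eq_left (a := ‖rd (ys n - q) - pj u (rd (ys n - q))‖) (by linarith)]
      have h3 : Tendsto (fun n => sel0 u (rd (ys n - q))) atTop (𝓝 (sel0 u x)) :=
        (sel0_cont hne).tendsto.comp hxs
      exact tendsto_nhds_unique (hv.congr' h2) h3

end TorD
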