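import Pool.Agent.H51.TD.PCA

/-! # RGB: regularised pieces, monotonicity

PROOF. As in SGB.d0_mono and PCA.D_mono. Same translate: `v = selE ε u x = k • U`, `U = x - pj u x`, `k ≥ 0`: (i) `ip (v - v') (π - π') ≥ 0` by pj_proj;
(ii) `ip (v - v') (U - U') ≥ (g d - g d') (d - d')`, `g d = max 0 (1 - 8 d) * (d / max d ε) = ‖v‖` (as `ip v U = g d * d`, `ip v U' ≤ g d * d'`), and
`(g d - g d') (d - d') ≥ -8 (d - d')²`: `μ d = d / max d ε` is nondecreasing with values in `[0,1]`, so for `d < d'`: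
`g d' ≥ μ d * max 0 (1 - 8 d') ≥ μ d * (max 0 (1 - 8 d) - 8 (d' - d)) ≥ g d - 8 (d' - d)`. `(d - d')² ≤ ‖x - x'‖²` (pj_lip). Different translates: both values
have norm `≤ 8 ‖y - y'‖` exactly as in the proof of D_mono (`‖selE‖ ≤ max 0 (1 - 8 d)`). -/

set_option autoImplicit false

open Topology Filter Set Function

namespace TorD

theorem RGB_mu {ε : ℝ} (hε : 0 < ε) {d : ℝ} (hd : 0 ≤ d) : 0 ≤ d / max d ε ∧ d / max d ε ≤ 1 := by
  have h1 : 0 < max d ε := lt_max_of_lt_right hε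
  refine ⟨div_nonneg hd h1.le, ?_⟩
  rw [div_le_one h1]
  exact le_max_left _ _

theorem RGB_mu_mono {ε : ℝ} (hε : 0 < ε) {d d' : ℝ} (hd : 0 ≤ d) (h : d ≤ d') :
    d / max d ε ≤ d' / max d' ε := by
  have h1 : 0 < max d ε := lt_max_of_lt_right hε
  have h2 : 0 < max d' ε := lt_max_of_lt_right hε
  rw [div_le_div_iff₀ h1 h2]
  rcases le_total d' ε with h3 | h3
  · rw [max_eq_right h3, max_eq_right (h.trans h3)]
    exact mul_le_mul_of_nonneg_right h hε.le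
  · rw [max_eq_left h3]
    rcases le_total d ε with h4 | h4
    · rw [max_eq_right h4]
      nlinarith
    · rw [max_eq_left h4]
      nlinarith

theorem RGB_g1 {ε : ℝ} (hε : 0 < ε) {d d' : ℝ} (hd : 0 ≤ d) (h : d ≤ d') :
    max 0 (1 - 8 * d) * (d / max d ε) - 8 * (d' - d) ≤
      max 0 (1 - 8 * d') * (d' / max d' ε) := by
  obtain ⟨a0, a1⟩ := RGB_mu hε hd
  have a2 := RGB_mu_mono hε hd h
  have b1 : max 0 (1 - 8 * d) - 8 * (d' - d) ≤ max 0 (1 - 8 * d') := by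
    rcases le_total 0 (1 - 8 * d) with h3 | h3
    · rw [max_eq_right h3]
      refine le_trans ?_ (le_max_right _ _)
      linarith
    · rw [max_eq_left h3]
      refine le_trans ?_ (le_max_left _ _)
      linarith
  have b2 : 0 ≤ max 0 (1 - 8 * d') := le_max_left _ _
  calc max 0 (1 - 8 * d) * (d / max d ε) - 8 * (d' - d)
      ≤ (max 0 (1 - 8 * d) - 8 * (d' - d)) * (d / max d ε) := by
        have : (1 - d / max d ε) * (8 * (d' - d)) ≥ 0 := by
          apply mul_nonneg <;> linarith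
        nlinarith
    _ ≤ max 0 (1 - 8 * d') * (d / max d ε) := mul_le_mul_of_nonneg_right b1 a0
    _ ≤ max 0 (1 - 8 * d') * (d' / max d' ε) := mul_le_mul_of_nonneg_left a2 b2

theorem RGB_g2 {ε : ℝ} (hε : 0 < ε) {d d' : ℝ} (hd : 0 ≤ d) (hd' : 0 ≤ d') :
    -8 * (d - d') ^ 2 ≤ (max 0 (1 - 8 * d) * (d / max d ε) -
      max 0 (1 - 8 * d') * (d' / max d' ε)) * (d - d') := by
  rcases le_total d d' with h | h
  · have h1 := RGB_g1 hε hd h
    have h2 : 0 ≤ d' - d := by linarith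
    nlinarith [mul_le_mul_of_nonneg_left h1 h2]
  · have h1 := RGB_g1 hε hd' h
    have h2 : 0 ≤ d - d' := by linarith
    nlinarith [mul_le_mul_of_nonneg_left h1 h2]

theorem RGB_norm {ε : ℝ} (hε : 0 < ε) (u x : ℂ) :
    ‖selE ε u x‖ ≤ max 0 (1 - 8 * ‖x - pj u x‖) := by
  unfold selE
  obtain ⟨a0, a1⟩ := RGB_mu hε (norm_nonneg (x - pj u x))
  have h1 : 0 < max ‖x - pj u x‖ ε := lt_max_of_lt_right hε
  have b2 : 0 ≤ max 0 (1 - 8 * ‖x - pj u x‖) := le_max_left _ _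
  rw [norm_smul, Real.norm_of_nonneg (div_nonneg b2 h1.le)]
  calc max 0 (1 - 8 * ‖x - pj u x‖) / max ‖x - pj u x‖ ε * ‖x - pj u x‖
      = max 0 (1 - 8 * ‖x - pj u x‖) * (‖x - pj u x‖ / max ‖x - pj u x‖ ε) := by ring
    _ ≤ max 0 (1 - 8 * ‖x - pj u x‖) * 1 := mul_le_mul_of_nonneg_left a1 b2
    _ = _ := mul_one _

theorem RGB_same {ε : ℝ} (hε : 0 < ε) (u x x' : ℂ) :
    -8 * ‖x - x'‖ ^ 2 ≤ ip (selE ε u x - selE ε u x') (x - x') := by
  obtain ⟨t, ht, hp⟩ := pj_mem u x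
  obtain ⟨t', ht', hp'⟩ := pj_mem u x'
  have h1 := pj_proj u x ht'
  have h2 := pj_proj u x' ht
  rw [← hp'] at h1
  rw [← hp] at h2
  have h3 := pj_lip u x x'
  set U := x - pj u x with hU
  set U' := x' - pj u x' with hU'
  have hmax : 0 < max ‖U‖ ε := lt_max_of_lt_right hε
  have hmax' : 0 < max ‖U'‖ ε := lt_max_of_lt_right hε
  have b2 : 0 ≤ max 0 (1 - 8 * ‖U‖) := le_max_left _ _
  have b2' : 0 ≤ max 0 (1 - 8 * ‖U'‖) := le_max_left _ _
  set k := max 0 (1 - 8 * ‖U‖) / max ‖U‖ ε with hk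
  set k' := max 0 (1 - 8 * ‖U'‖) / max ‖U'‖ ε with hk'
  have hk0 : 0 ≤ k := div_nonneg b2 hmax.le
  have hk0' : 0 ≤ k' := div_nonneg b2' hmax'.le
  have hv : selE ε u x = k • U := rfl
  have hv' : selE ε u x' = k' • U' := rfl
  have hx : x - x' = (U - U') + (pj u x - pj u x') := by rw [hU, hU']; ring
  have e1 : k * ‖U‖ = max 0 (1 - 8 * ‖U‖) * (‖U‖ / max ‖U‖ ε) := by rw [hk]; ring
  have e1' : k' * ‖U'‖ = max 0 (1 - 8 * ‖U'‖) * (‖U'‖ / max ‖U'‖ ε) := by rw [hk']; ring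
  have g := RGB_g2 hε (norm_nonneg U) (norm_nonneg U')
  rw [← e1, ← e1'] at g
  have hle := ip_le U U'
  have hle' := ip_le U' U
  have hA : 0 ≤ ip U (pj u x - pj u x') := by
    have : ip U (pj u x' - pj u x) = -ip U (pj u x - pj u x') := by
      rw [ip_sub_right, ip_sub_right]; ring
    linarith
  have hB : 0 ≤ -ip U' (pj u x - pj u x') := by linarith
  have hd : (‖U‖ - ‖U'‖) ^ 2 ≤ ‖x - x'‖ ^ 2 := by
    have h4 : |‖U‖ - ‖U'‖| ≤ ‖U - U'‖ := abs_norm_sub_norm_le U U'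
    have h5 : |‖U‖ - ‖U'‖| ≤ ‖x - x'‖ := h4.trans h3
    rw [← sq_abs]
    exact pow_le_pow_left₀ (abs_nonneg _) h5 2
  rw [hv, hv']
  have e3 : ip (k • U - k' • U') (x - x') = k * ‖U‖ ^ 2 - k * ip U U' - k' * ip U' U +
      k' * ‖U'‖ ^ 2 + k * ip U (pj u x - pj u x') + k' * (-ip U' (pj u x - pj u x')) := by
    rw [hx, ip_sub_left, ip_smul_left, ip_smul_left, ip_add_right, ip_add_right,
      ip_sub_right U U U', ip_sub_right U' U U', ip_self, ip_self]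
    ring
  rw [e3]
  have m1 := mul_le_mul_of_nonneg_left hle hk0
  have m2 := mul_le_mul_of_nonneg_left hle' hk0'
  have m3 := mul_nonneg hk0 hA
  have m4 := mul_nonneg hk0' hB
  nlinarith

theorem RGB_diff {ε : ℝ} (hε : 0 < ε) {u : ℂ} (hu : ‖u‖ ≤ 1 / 8) {q y y' : ℂ} {w : ℤ × ℤ}
    (h : rd (y' - q) ≠ y' - q - lat w) :
    ‖selE ε u (y - q - lat w)‖ ≤ 8 * ‖y - y'‖ := by
  set x := y - q - lat w with hx
  set z := y' - q - lat w with hz
  have hn := RGB_norm hε u x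
  have h8 : 1 / 8 ≤ ‖z - pj u z‖ := by
    by_contra hc
    push Not at hc
    have h1 : ‖z‖ < 1 / 2 := by
      calc ‖z‖ = ‖(z - pj u z) + pj u z‖ := by ring_nf
        _ ≤ ‖z - pj u z‖ + ‖pj u z‖ := norm_add_le _ _
        _ < 1 / 8 + 1 / 8 := add_lt_add_of_lt_of_le hc ((pj_norm u z).trans hu)
        _ < 1 / 2 := by norm_num
    exact h (rd_eq h1)
  have h3 := pj_lip u z x
  have h4 : ‖z - pj u z‖ - ‖x - pj u x‖ ≤ ‖(z - pj u z) - (x - pj u x)‖ := norm_sub_norm_le _ _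
  have h5 : ‖z - x‖ = ‖y - y'‖ := by
    rw [norm_sub_rev, hx, hz]
    ring_nf
  have h6 : max 0 (1 - 8 * ‖x - pj u x‖) ≤ 8 * ‖y - y'‖ := by
    apply max_le
    · positivity
    · linarith
  exact hn.trans h6

theorem selE_mono {ε : ℝ} (hε : 0 < ε) {u : ℂ} (hu : ‖u‖ ≤ 1 / 8) (q y y' : ℂ) :
    -16 * ‖y - y'‖ ^ 2 ≤ ip (selE ε u (rd (y - q)) - selE ε u (rd (y' - q))) (y - y') := by
  obtain ⟨w, hw⟩ := rd_sub (y - q)
  obtain ⟨w', hw'⟩ := rd_sub (y' - q)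
  by_cases hc : w = w'
  · subst hc
    rw [hw, hw']
    have h1 := RGB_same hε u (y - q - lat w) (y' - q - lat w)
    have h2 : y - q - lat w - (y' - q - lat w) = y - y' := by ring
    rw [h2] at h1
    have h3 : 0 ≤ ‖y - y'‖ ^ 2 := by positivity
    linarith
  · have hl : lat w ≠ lat w' := fun h => hc (lat_inj h)
    have hv : ‖selE ε u (rd (y - q))‖ ≤ 8 * ‖y - y'‖ := by
      rw [hw]
      apply RGB_diff hε hu
      rw [hw']
      intro h
      exact hl (sub_right_injective h).symm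
    have hv' : ‖selE ε u (rd (y' - q))‖ ≤ 8 * ‖y - y'‖ := by
      rw [hw', norm_sub_rev y y']
      apply RGB_diff hε hu
      rw [hw]
      intro h
      exact hl (sub_right_injective h)
    have h1 := ip_ge (selE ε u (rd (y - q)) - selE ε u (rd (y' - q))) (y - y')
    have h2 := norm_sub_le (selE ε u (rd (y - q))) (selE ε u (rd (y' - q)))
    have h3 : 0 ≤ ‖y - y'‖ := norm_nonneg _
    nlinarith [mul_le_mul_of_nonneg_right (h2.trans (add_le_add hv hv')) h3]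

end TorD
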