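import Pool.Agent.H51.TD.UCA
import Pool.Agent.H51.TD.BDY

/-! # RLA: the relation `Rl`

PROOF. Rl_uc: choose `δ₀` by Arr.uc for `ε/3`; if `‖p - p'‖ < δ = δ₀/3`, take witnesses `(y,s)`, `(y',s')` with precision `min (ε/3) (δ₀/3)` (strict): `‖Pi y s - Pi y' s'‖ < δ₀`, so
`‖q - q'‖ < ε/3 + ε/3 + ε/3`. Rl_M: `p` is a limit of points `Pi y s ∈ M` (Pi_M), M_closed; the same for `q` (`φ y ∉ Rat2`); `h (Pi (φ y) s) = φ (h (Pi y s))` (h_Pi) passes to the limit (h_cont, φ continuous).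
Rl_ex: for `n` take `(y n, s n)` with `‖Pi (y n) (s n) - p‖ < 1/(n+1)` (M_dense); by Arr.uc the sequence `Pi (φ (y n)) (s n)` is Cauchy; let `q` be its limit. Rl_symm: `(φ y, s)` is a witness (`ψ (φ y) = y`).
Rl_lat: Pi_lat, rat2_lat. Rl_P: for small `ε > 0`, `φ (z + ε θ) = φ z + (ε r) θ'`; `Pi (z + ε θ) s → P z θ s`, `Pi (φ z + (ε r) θ') s → P (φ z) θ' s` (P_lim, composition with `ε ↦ ε r`), and `z + ε θ ∉ Rat2`
frequently (ray_irr). -/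

set_option autoImplicit false

open Topology Filter Set Function

namespace TorD

variable {ι : Type} [Countable ι] {A : Arr ι} {φ ψ : ℂ → ℂ}

omit [Countable ι] in
private theorem RLA_seq {p q : ℂ} (h : Rl A φ p q) :
    ∃ (y : ℕ → ℂ) (s : ℕ → ℝ), (∀ n, y n ∉ Rat2) ∧ (∀ n, |s n| ≤ 1) ∧
      Tendsto (fun n => A.Pi (y n) (s n)) atTop (𝓝 p) ∧
      Tendsto (fun n => A.Pi (φ (y n)) (s n)) atTop (𝓝 q) := by
  have h1 : ∀ n : ℕ, ∃ (y : ℂ) (s : ℝ), y ∉ Rat2 ∧ |s| ≤ 1 ∧ ‖A.Pi y s - p‖ < 1 / ((n : ℝ) + 1) ∧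
      ‖A.Pi (φ y) s - q‖ < 1 / ((n : ℝ) + 1) := fun n => h _ (by positivity)
  choose y s hy hs hp hq using h1
  refine ⟨y, s, hy, hs, ?_, ?_⟩
  · rw [tendsto_iff_norm_sub_tendsto_zero]
    exact squeeze_zero (fun n => norm_nonneg _) (fun n => (hp n).le)
      tendsto_one_div_add_atTop_nhds_zero_nat
  · rw [tendsto_iff_norm_sub_tendsto_zero]
    exact squeeze_zero (fun n => norm_nonneg _) (fun n => (hq n).le)
      tendsto_one_div_add_atTop_nhds_zero_nat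

theorem Rl_uc (H : Dyn2 A φ ψ) {ε : ℝ} (hε : 0 < ε) : ∃ δ : ℝ, 0 < δ ∧ ∀ p q p' q', Rl A φ p q →
    Rl A φ p' q' → ‖p - p'‖ < δ → ‖q - q'‖ < ε := by
  obtain ⟨δ₀, hδ₀, huc⟩ := A.uc H (ε := ε / 3) (by positivity)
  refine ⟨δ₀ / 3, by positivity, ?_⟩
  intro p q p' q' h h' hpp
  have hm : 0 < min (ε / 3) (δ₀ / 3) := lt_min (by positivity) (by positivity)
  obtain ⟨y, s, hy, hs, h1, h2⟩ := h _ hm
  obtain ⟨y', s', hy', hs', h1', h2'⟩ := h' _ hm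
  have a1 := h1.trans_le (min_le_right _ _)
  have a2 := h2.trans_le (min_le_left _ _)
  have a1' := h1'.trans_le (min_le_right _ _)
  have a2' := h2'.trans_le (min_le_left _ _)
  have b1 : ‖A.Pi y s - A.Pi y' s'‖ < δ₀ := by
    have e : A.Pi y s - A.Pi y' s' = (A.Pi y s - p) + (p - p') - (A.Pi y' s' - p') := by ring
    rw [e]
    have c1 := norm_sub_le ((A.Pi y s - p) + (p - p')) (A.Pi y' s' - p')
    have c2 := norm_add_le (A.Pi y s - p) (p - p')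
    linarith
  have b2 := huc y y' s s' hy hy' hs hs' b1
  have e : q - q' = (A.Pi (φ y) s - A.Pi (φ y') s') - (A.Pi (φ y) s - q) +
      (A.Pi (φ y') s' - q') := by ring
  rw [e]
  have c1 := norm_add_le ((A.Pi (φ y) s - A.Pi (φ y') s') - (A.Pi (φ y) s - q))
    (A.Pi (φ y') s' - q')
  have c2 := norm_sub_le (A.Pi (φ y) s - A.Pi (φ y') s') (A.Pi (φ y) s - q)
  linarith

theorem Rl_M (H : Dyn2 A φ ψ) {p q : ℂ} (h : Rl A φ p q) :
    p ∈ A.M ∧ q ∈ A.M ∧ A.h q = φ (A.h p) := by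
  obtain ⟨y, s, hy, hs, hp, hq⟩ := RLA_seq h
  have hφy : ∀ n, φ (y n) ∉ Rat2 := fun n hn => hy n ((H.dφ.rat _).1 hn)
  refine ⟨?_, ?_, ?_⟩
  · exact A.M_closed.mem_of_tendsto hp (Eventually.of_forall fun n => A.Pi_M (hy n) (hs n))
  · exact A.M_closed.mem_of_tendsto hq (Eventually.of_forall fun n => A.Pi_M (hφy n) (hs n))
  · have t1 := (A.h_cont.tendsto q).comp hq
    have t2 := ((H.dφ.cont.comp A.h_cont).tendsto p).comp hp
    refine tendsto_nhds_unique t1 (t2.congr fun n => ?_)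
    show φ (A.h (A.Pi (y n) (s n))) = A.h (A.Pi (φ (y n)) (s n))
    rw [A.h_Pi _ (hs n), A.h_Pi _ (hs n)]

theorem Rl_ex (H : Dyn2 A φ ψ) {p : ℂ} (hp : p ∈ A.M) : ∃ q, Rl A φ p q := by
  have h1 : ∀ n : ℕ, ∃ (y : ℂ) (s : ℝ), y ∉ Rat2 ∧ |s| ≤ 1 ∧
      ‖A.Pi y s - p‖ < 1 / ((n : ℝ) + 1) := fun n => A.M_dense hp (by positivity)
  choose y s hy hs hpn using h1
  have t1 : Tendsto (fun n => A.Pi (y n) (s n)) atTop (𝓝 p) := by
    rw [tendsto_iff_norm_sub_tendsto_zero]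
    exact squeeze_zero (fun n => norm_nonneg _) (fun n => (hpn n).le)
      tendsto_one_div_add_atTop_nhds_zero_nat
  have hC : CauchySeq (fun n => A.Pi (φ (y n)) (s n)) := by
    rw [Metric.cauchySeq_iff]
    intro ε hε
    obtain ⟨δ, hδ, huc⟩ := A.uc H hε
    obtain ⟨N, hN⟩ := Metric.cauchySeq_iff.1 t1.cauchySeq δ hδ
    refine ⟨N, fun m hm n hn => ?_⟩
    rw [dist_eq_norm]
    refine huc _ _ _ _ (hy m) (hy n) (hs m) (hs n) ?_
    rw [← dist_eq_norm]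
    exact hN m hm n hn
  obtain ⟨q, hq⟩ := cauchySeq_tendsto_of_complete hC
  refine ⟨q, fun ε hε => ?_⟩
  have e1 := (Metric.tendsto_nhds.1 t1) ε hε
  have e2 := (Metric.tendsto_nhds.1 hq) ε hε
  obtain ⟨n, h1, h2⟩ := (e1.and e2).exists
  refine ⟨y n, s n, hy n, hs n, ?_, ?_⟩
  · rw [← dist_eq_norm]; exact h1
  · rw [← dist_eq_norm]; exact h2

theorem Rl_symm (H : Dyn2 A φ ψ) {p q : ℂ} (h : Rl A φ p q) : Rl A ψ q p := by
  intro ε hε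
  obtain ⟨y, s, hy, hs, h1, h2⟩ := h ε hε
  refine ⟨φ y, s, fun hn => hy ((H.dφ.rat _).1 hn), hs, h2, ?_⟩
  rw [H.ψφ]
  exact h1

theorem Rl_lat (H : Dyn2 A φ ψ) {p q : ℂ} (h : Rl A φ p q) (w : ℤ × ℤ) :
    Rl A φ (p + lat w) (q + lat w) := by
  intro ε hε
  obtain ⟨y, s, hy, hs, h1, h2⟩ := h ε hε
  refine ⟨y + lat w, s, fun hn => hy ((rat2_lat y w).1 hn), hs, ?_, ?_⟩
  · rw [A.Pi_lat, add_sub_add_right_eq_sub]
    exact h1
  · rw [H.dφ.eqv, A.Pi_lat, add_sub_add_right_eq_sub]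
    exact h2

theorem Rl_P (H : Dyn2 A φ ψ) {z θ θ' : ℂ} (hD : Dr φ z θ θ') {s : ℝ} (hs : |s| ≤ 1) :
    Rl A φ (A.P z θ s) (A.P (φ z) θ' s) := by
  obtain ⟨hθ, hθ', r, hr, hev⟩ := hD
  intro ε hε
  have t1 := A.P_lim z hθ hs
  have t2 := A.P_lim (φ z) hθ' hs
  have hmul : Tendsto (fun ε : ℝ => ε * r) (𝓝[>] 0) (𝓝[>] 0) := by
    refine tendsto_nhdsWithin_iff.2 ⟨?_, ?_⟩
    · have h1 : Tendsto (fun ε : ℝ => ε * r) (𝓝 0) (𝓝 (0 * r)) :=
        (continuous_id.mul continuous_const).tendsto 0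
      rw [zero_mul] at h1
      exact h1.mono_left nhdsWithin_le_nhds
    · filter_upwards [self_mem_nhdsWithin] with x hx
      exact mul_pos hx hr
  have t3 := t2.comp hmul
  have e1 := (Metric.tendsto_nhds.1 t1) ε hε
  have e2 := (Metric.tendsto_nhds.1 t3) ε hε
  have hθ0 : θ ≠ 0 := by
    intro h0
    rw [h0, norm_zero] at hθ
    exact zero_ne_one hθ
  have hf := (ray_irr z hθ0).and_eventually (hev.and (e1.and e2))
  obtain ⟨x, hx1, hx2, hx3, hx4⟩ := hf.exists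
  refine ⟨z + x • θ, s, hx1, hs, ?_, ?_⟩
  · rw [← dist_eq_norm]; exact hx3
  · rw [hx2, ← dist_eq_norm]; exact hx4

end TorD
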