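import Pool.Agent.H51.TD.Int

/-! # SGA: nearest point of the segment `[-u,u]`

PROOF. `pj u x = τ • u`, `τ = max (-1) (min 1 (ip x u / ‖u‖²)) ∈ [-1,1]` (if `u = 0` everything is `0`). For `u ≠ 0` and `t ∈ [-1,1]`:
`ip (x - τ u) ((t - τ) u) = (t - τ) (ip x u - τ ‖u‖²)`; if `-1 < τ < 1` the last factor is `0`; if `τ = 1` then `ip x u ≥ ‖u‖²` and `t - τ ≤ 0`; if
`τ = -1` then `ip x u ≤ -‖u‖²` and `t - τ ≥ 0`. So it is `≤ 0` (pj_proj). pj_min: `‖x - t u‖² = ‖x - pj‖² + ‖pj - t u‖² - 2 ip (x - pj) (t u - pj)`.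
pj_lip: with `a = x - pj u x`, `b = y - pj u y`, `p = pj u x`, `q = pj u y`: `ip (a - b) (p - q) ≥ 0` by pj_proj twice, so `‖x - y‖² = ‖a-b‖² + ‖p-q‖² +
2 ip (a-b) (p-q) ≥ ‖a - b‖²`. Continuity of `pj u`: composition of continuous functions. pj_fix: `x = t u`: by pj_min the distance is 0. -/

set_option autoImplicit false

open Topology Filter Set Function

namespace TorD

private theorem SGA_tau (u x : ℂ) :
    (max (-1) (min 1 (ip x u / ‖u‖ ^ 2)) : ℝ) ∈ Icc (-1 : ℝ) 1 :=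
  ⟨le_max_left _ _, max_le (by norm_num) (min_le_left _ _)⟩

theorem pj_mem (u x : ℂ) : ∃ t ∈ Icc (-1 : ℝ) 1, pj u x = t • u :=
  ⟨_, SGA_tau u x, rfl⟩

theorem pj_zero (x : ℂ) : pj 0 x = 0 := by
  unfold pj
  rw [smul_zero]

theorem pj_proj (u x : ℂ) {t : ℝ} (ht : t ∈ Icc (-1 : ℝ) 1) :
    ip (x - pj u x) (t • u - pj u x) ≤ 0 := by
  by_cases hu : u = 0
  · subst hu
    rw [pj_zero, smul_zero, sub_self]
    unfold ip
    simp
  have hn : 0 < ‖u‖ ^ 2 := by positivity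
  unfold pj
  set τ : ℝ := max (-1) (min 1 (ip x u / ‖u‖ ^ 2)) with hτ
  have e : ip (x - τ • u) (t • u - τ • u) = (t - τ) * (ip x u - τ * ‖u‖ ^ 2) := by
    rw [← sub_smul, ip_smul_right, ip_sub_left, ip_smul_left, ip_self]
  rw [e]
  obtain ⟨ht1, ht2⟩ := ht
  by_cases h1 : 1 ≤ ip x u / ‖u‖ ^ 2
  · have : τ = 1 := by
      rw [hτ, min_eq_left h1]
      norm_num
    rw [this]
    rw [le_div_iff₀ hn, one_mul] at h1
    exact mul_nonpos_of_nonpos_of_nonneg (by linarith) (by linarith)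
  · rw [not_le] at h1
    by_cases h2 : ip x u / ‖u‖ ^ 2 ≤ -1
    · have : τ = -1 := by
        rw [hτ, min_eq_right h1.le, max_eq_left h2]
      rw [this]
      rw [div_le_iff₀ hn] at h2
      exact mul_nonpos_of_nonneg_of_nonpos (by linarith) (by linarith)
    · rw [not_le] at h2
      have : τ = ip x u / ‖u‖ ^ 2 := by
        rw [hτ, min_eq_right h1.le, max_eq_right h2.le]
      rw [this, div_mul_cancel₀ _ hn.ne', sub_self, mul_zero]

private theorem SGA_expand (a b : ℂ) : ‖a - b‖ ^ 2 = ‖a‖ ^ 2 + ‖b‖ ^ 2 - 2 * ip a b := by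
  rw [← ip_self, ← ip_self, ← ip_self, ip_sub_left, ip_sub_right, ip_sub_right, ip_comm b a]
  ring

theorem pj_min (u x : ℂ) {t : ℝ} (ht : t ∈ Icc (-1 : ℝ) 1) : ‖x - pj u x‖ ≤ ‖x - t • u‖ := by
  have h := pj_proj u x ht
  have e := SGA_expand (x - pj u x) (t • u - pj u x)
  rw [show x - pj u x - (t • u - pj u x) = x - t • u by ring] at e
  have h2 : ‖x - pj u x‖ ^ 2 ≤ ‖x - t • u‖ ^ 2 := by
    have := sq_nonneg ‖t • u - pj u x‖
    linarith
  exact le_of_sq_le_sq h2 (norm_nonneg _)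

theorem pj_cont (u : ℂ) : Continuous (pj u) := by
  unfold pj
  have h1 : Continuous fun x : ℂ => ip x u / ‖u‖ ^ 2 := by
    unfold ip
    have h2 : Continuous fun x : ℂ => x.re * u.re + x.im * u.im :=
      (Complex.continuous_re.mul continuous_const).add (Complex.continuous_im.mul continuous_const)
    exact h2.div_const _
  exact (continuous_const.max (continuous_const.min h1)).smul continuous_const

theorem pj_lip (u x y : ℂ) : ‖(x - pj u x) - (y - pj u y)‖ ≤ ‖x - y‖ := by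
  obtain ⟨s, hs, hsx⟩ := pj_mem u x
  obtain ⟨t, ht, hty⟩ := pj_mem u y
  have h1 := pj_proj u x ht
  have h2 := pj_proj u y hs
  rw [← hty] at h1
  rw [← hsx] at h2
  generalize pj u x = p at *
  generalize pj u y = q at *
  have e := SGA_expand ((x - p) - (y - q)) (q - p)
  rw [show (x - p) - (y - q) - (q - p) = x - y by ring] at e
  have h3 : ip ((x - p) - (y - q)) (q - p) ≤ 0 := by
    rw [ip_sub_left]
    have e2 : ip (y - q) (q - p) = - ip (y - q) (p - q) := by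
      unfold ip
      simp only [Complex.sub_re, Complex.sub_im]
      ring
    linarith
  have h4 : ‖(x - p) - (y - q)‖ ^ 2 ≤ ‖x - y‖ ^ 2 := by
    have := sq_nonneg ‖q - p‖
    linarith
  exact le_of_sq_le_sq h4 (norm_nonneg _)

theorem pj_fix (u x : ℂ) : x = pj u x ↔ ∃ t ∈ Icc (-1 : ℝ) 1, x = t • u := by
  constructor
  · intro h
    obtain ⟨t, ht, he⟩ := pj_mem u x
    exact ⟨t, ht, h.trans he⟩
  · rintro ⟨t, ht, hx⟩
    have h := pj_min u x ht
    rw [← hx, sub_self, norm_zero] at h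
    exact sub_eq_zero.1 (norm_le_zero_iff.1 h)

theorem pj_norm (u x : ℂ) : ‖pj u x‖ ≤ ‖u‖ := by
  obtain ⟨t, ⟨h1, h2⟩, he⟩ := pj_mem u x
  rw [he, norm_smul, Real.norm_eq_abs]
  have : |t| ≤ 1 := abs_le.2 ⟨h1, h2⟩
  nlinarith [norm_nonneg u]

/-- away from the end points: `x = a e + b i e`, `|a| < ‖u‖`, has nearest point `a e` -/
theorem pj_slab {u x : ℂ} (hu : u ≠ 0) (h : |ip x u| ≤ ‖u‖ ^ 2) :
    pj u x = (ip x u / ‖u‖ ^ 2 : ℝ) • u := by
  have hn : 0 < ‖u‖ ^ 2 := by positivity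
  obtain ⟨h1, h2⟩ := abs_le.1 h
  unfold pj
  rw [min_eq_right ((div_le_one hn).2 h2), max_eq_right]
  rw [le_div_iff₀ hn]
  linarith

end TorD
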