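import Pool.Agent.H51.TD.SGA

/-! # SGB: the values `D0 u x`

PROOF. Let `π = pj u x`, `d = ‖x - π‖`, `g d = max 0 (1 - 8 d)`. If `d > 0`, `D0 u x = {sel0 u x}`, `‖sel0‖ = g d`. If `d = 0`, `sel0 u x = 0`, which is in `D0`,
and `D0` is the intersection of the unit ball with half planes. d0_mono: write `π' = pj u x'`, `U = x - π`, `U' = x' - π'`, `x - x' = (U - U') + (π - π')`.
(i) `ip v (π - π') ≥ 0` for `v ∈ D0 u x`: if `d > 0` `v` is a nonnegative multiple of `U` and pj_proj; if `d = 0` it is the normal cone condition at `x = π`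
(`π'` is some `t • u`). Symmetrically `ip v' (π' - π) ≥ 0`. So `ip (v - v') (π - π') ≥ 0`.
(ii) `ip (v - v') (U - U') ≥ (g d - g d') (d - d') ≥ -8 (d - d')²`: `ip v U = g d * d` and `ip v U' ≤ ‖v‖ d' = g d * d'` if `d > 0`; if `d = 0` then
`U = 0`, `ip v U = 0` and `ip v U' ≤ d' = g 0 * d'` as `‖v‖ ≤ 1 = g 0`; the same for `v'`. `|g d - g d'| ≤ 8 |d - d'|`, and `(d - d')² ≤ ‖x - x'‖²` by pj_lip.
d0_closed: if `x ≠ pj u x` then eventually `x n ≠ pj u (x n)` and `sel0` is continuous at `x`. If `x = pj u x` (so `x = π`): `‖v‖ ≤ 1` in the limit, and for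
`t ∈ [-1,1]`: `ip (v n) (t u - pj u (x n)) ≤ 0` in both cases, pass to the limit. -/

set_option autoImplicit false

open Topology Filter Set Function

namespace TorD

theorem d0_sel (u x : ℂ) : sel0 u x ∈ D0 u x := by
  by_cases h : x = pj u x
  · right
    have h0 : sel0 u x = 0 := by
      unfold sel0
      rw [← h, sub_self, smul_zero]
    rw [h0]
    refine ⟨h, by simp, fun t _ => ?_⟩
    unfold ip
    simp
  · left
    exact ⟨h, rfl⟩

theorem SGB_sel_norm {u x : ℂ} (h : x ≠ pj u x) :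
    ‖sel0 u x‖ = max 0 (1 - 8 * ‖x - pj u x‖) := by
  have hd : 0 < ‖x - pj u x‖ := norm_pos_iff.mpr (sub_ne_zero.mpr h)
  unfold sel0
  rw [norm_smul, Real.norm_of_nonneg (by positivity), div_mul_cancel₀ _ hd.ne']

theorem d0_norm {u x v : ℂ} (h : v ∈ D0 u x) : ‖v‖ ≤ max 0 (1 - 8 * ‖x - pj u x‖) := by
  rcases h with ⟨h1, h2⟩ | ⟨h1, h2, _⟩
  · rw [h2, SGB_sel_norm h1]
  · rw [← h1, sub_self, norm_zero]
    simpa using h2

theorem d0_single {u x : ℂ} (h : x ≠ pj u x) : D0 u x = {sel0 u x} := by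
  ext v
  constructor
  · rintro (⟨_, h2⟩ | ⟨h1, _⟩)
    · exact h2
    · exact absurd h1 h
  · intro hv
    exact Or.inl ⟨h, hv⟩

theorem d0_conv (u x : ℂ) : Convex ℝ (D0 u x) := by
  by_cases h : x = pj u x
  · intro v hv w hw a b ha hb hab
    rcases hv with ⟨h1, _⟩ | ⟨_, hv1, hv2⟩
    · exact absurd h h1
    rcases hw with ⟨h1, _⟩ | ⟨_, hw1, hw2⟩
    · exact absurd h h1
    right
    refine ⟨h, ?_, fun t ht => ?_⟩
    · calc ‖a • v + b • w‖ ≤ ‖a • v‖ + ‖b • w‖ := norm_add_le _ _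
        _ = a * ‖v‖ + b * ‖w‖ := by
          rw [norm_smul, norm_smul, Real.norm_of_nonneg ha, Real.norm_of_nonneg hb]
        _ ≤ a * 1 + b * 1 := by
          have := mul_le_mul_of_nonneg_left hv1 ha
          have := mul_le_mul_of_nonneg_left hw1 hb
          linarith
        _ = 1 := by linarith
    · rw [ip_add_left, ip_smul_left, ip_smul_left]
      have h1 := mul_nonneg ha (neg_nonneg.mpr (hv2 t ht))
      have h2 := mul_nonneg hb (neg_nonneg.mpr (hw2 t ht))
      linarith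
  · rw [d0_single h]
    exact convex_singleton _

theorem SGB_cone {u x v : ℂ} (h : v ∈ D0 u x) {t : ℝ} (ht : t ∈ Icc (-1 : ℝ) 1) :
    ip v (t • u - pj u x) ≤ 0 := by
  rcases h with ⟨h1, h2⟩ | ⟨h1, _, h3⟩
  · rw [h2]
    unfold sel0
    rw [ip_smul_left]
    have h4 := pj_proj u x ht
    have h5 : 0 ≤ max 0 (1 - 8 * ‖x - pj u x‖) / ‖x - pj u x‖ := by positivity
    exact mul_nonpos_of_nonneg_of_nonpos h5 h4
  · have := h3 t ht
    rwa [← h1]

theorem SGB_ip_self {u x v : ℂ} (h : v ∈ D0 u x) :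
    ip v (x - pj u x) = max 0 (1 - 8 * ‖x - pj u x‖) * ‖x - pj u x‖ := by
  rcases h with ⟨h1, h2⟩ | ⟨h1, _, _⟩
  · have hd : 0 < ‖x - pj u x‖ := norm_pos_iff.mpr (sub_ne_zero.mpr h1)
    rw [h2]
    unfold sel0
    rw [ip_smul_left, ip_self]
    field_simp
  · rw [← h1, sub_self]
    unfold ip
    simp

theorem SGB_ip_le {u x v w : ℂ} (h : v ∈ D0 u x) :
    ip v w ≤ max 0 (1 - 8 * ‖x - pj u x‖) * ‖w‖ :=
  (ip_le v w).trans (mul_le_mul_of_nonneg_right (d0_norm h) (norm_nonneg _))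

theorem SGB_real {d d' : ℝ} :
    -8 * (d - d') ^ 2 ≤ (max 0 (1 - 8 * d) - max 0 (1 - 8 * d')) * (d - d') := by
  rcases le_total 0 (1 - 8 * d) with h1 | h1 <;> rcases le_total 0 (1 - 8 * d') with h2 | h2
  · rw [max_eq_right h1, max_eq_right h2]; nlinarith
  · rw [max_eq_right h1, max_eq_left h2]; nlinarith
  · rw [max_eq_left h1, max_eq_right h2]; nlinarith
  · rw [max_eq_left h1, max_eq_left h2]; nlinarith [sq_nonneg (d - d')]

theorem d0_mono {u x x' v v' : ℂ} (h : v ∈ D0 u x) (h' : v' ∈ D0 u x') :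
    -8 * ‖x - x'‖ ^ 2 ≤ ip (v - v') (x - x') := by
  obtain ⟨t, ht, hpt⟩ := pj_mem u x
  obtain ⟨t', ht', hpt'⟩ := pj_mem u x'
  have a1 := SGB_cone h ht'
  have a2 := SGB_cone h' ht
  rw [← hpt'] at a1
  rw [← hpt] at a2
  have b1 := SGB_ip_self h
  have b2 := SGB_ip_self h'
  have c1 := SGB_ip_le (w := x' - pj u x') h
  have c2 := SGB_ip_le (w := x - pj u x) h'
  have hl := pj_lip u x x'
  have hn := abs_norm_sub_norm_le (x - pj u x) (x' - pj u x')
  set d := ‖x - pj u x‖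
  set d' := ‖x' - pj u x'‖
  have e : ip (v - v') (x - x') =
      ip v (x - pj u x) - ip v (x' - pj u x') - ip v' (x - pj u x) + ip v' (x' - pj u x')
        - ip v (pj u x' - pj u x) - ip v' (pj u x - pj u x') := by
    unfold ip
    simp only [Complex.sub_re, Complex.sub_im]
    ring
  have hreal := @SGB_real d d'
  have hsq : (d - d') ^ 2 ≤ ‖x - x'‖ ^ 2 := by
    rw [← sq_abs (d - d')]
    exact pow_le_pow_left₀ (abs_nonneg _) (hn.trans hl) 2
  rw [e]
  nlinarith

theorem sel0_cont {u x : ℂ} (h : x ≠ pj u x) : ContinuousAt (sel0 u) x := by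
  have hd : ‖x - pj u x‖ ≠ 0 := norm_ne_zero_iff.mpr (sub_ne_zero.mpr h)
  have hc : Continuous (pj u) := pj_cont u
  unfold sel0
  have h1 : ContinuousAt (fun x => max 0 (1 - 8 * ‖x - pj u x‖) / ‖x - pj u x‖) x := by
    have h2 : ContinuousAt (fun x => max 0 (1 - 8 * ‖x - pj u x‖)) x := by fun_prop
    have h3 : ContinuousAt (fun x => ‖x - pj u x‖) x := by fun_prop
    exact h2.div h3 hd
  have h4 : ContinuousAt (fun x => x - pj u x) x := by fun_prop
  exact h1.smul h4

theorem SGB_ip_tendsto {a b : ℕ → ℂ} {x y : ℂ} (ha : Tendsto a atTop (𝓝 x))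
    (hb : Tendsto b atTop (𝓝 y)) : Tendsto (fun n => ip (a n) (b n)) atTop (𝓝 (ip x y)) := by
  unfold ip
  have r1 := (Complex.continuous_re.tendsto x).comp ha
  have r2 := (Complex.continuous_re.tendsto y).comp hb
  have i1 := (Complex.continuous_im.tendsto x).comp ha
  have i2 := (Complex.continuous_im.tendsto y).comp hb
  exact (r1.mul r2).add (i1.mul i2)

theorem d0_closed {u x v : ℂ} {xs vs : ℕ → ℂ} (hx : Tendsto xs atTop (𝓝 x))
    (hv : Tendsto vs atTop (𝓝 v)) (h : ∀ n, vs n ∈ D0 u (xs n)) : v ∈ D0 u x := by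
  have hp : Tendsto (fun n => pj u (xs n)) atTop (𝓝 (pj u x)) :=
    ((pj_cont u).tendsto x).comp hx
  by_cases hxx : x = pj u x
  · right
    refine ⟨hxx, ?_, fun t ht => ?_⟩
    · refine le_of_tendsto hv.norm (Eventually.of_forall fun n => (d0_norm (h n)).trans ?_)
      apply max_le (by norm_num)
      have := norm_nonneg (xs n - pj u (xs n))
      linarith
    · have h1 : Tendsto (fun n => ip (vs n) (t • u - pj u (xs n))) atTop
          (𝓝 (ip v (t • u - pj u x))) := SGB_ip_tendsto hv (tendsto_const_nhds.sub hp)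
      rw [← hxx] at h1
      exact le_of_tendsto h1 (Eventually.of_forall fun n => SGB_cone (h n) ht)
  · left
    refine ⟨hxx, ?_⟩
    have hne : ∀ᶠ n in atTop, xs n ≠ pj u (xs n) := by
      have h1 : Tendsto (fun n => xs n - pj u (xs n)) atTop (𝓝 (x - pj u x)) := hx.sub hp
      have h2 := h1.eventually_ne (sub_ne_zero.mpr hxx)
      filter_upwards [h2] with n hn
      exact sub_ne_zero.mp hn
    have h1 : Tendsto (fun n => sel0 u (xs n)) atTop (𝓝 (sel0 u x)) :=
      (sel0_cont hxx).tendsto.comp hx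
    have h2 : Tendsto vs atTop (𝓝 (sel0 u x)) := by
      refine h1.congr' ?_
      filter_upwards [hne] with n hn
      have h3 := h n
      rw [d0_single hn] at h3
      exact h3.symm
    exact tendsto_nhds_unique hv h2

theorem sel0_zero {u x : ℂ} (h : 1 / 8 ≤ ‖x - pj u x‖) : sel0 u x = 0 := by
  unfold sel0
  rw [max_eq_left (by linarith), zero_div, zero_smul]

end TorD
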