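import Pool.Agent.H51.TD.RGA
import Pool.Agent.H51.TD.RGB
import Pool.Agent.H51.TD.ZAR
import Pool.Agent.H51.TD.TSL

/-! # SUR: every point has a code; uniqueness

PROOF. uni: by pt_sub and ip_tsum `ip (pt y v - pt y' v') (y - y') = ‖y-y'‖² + ∑ c i * ip (v i - v' i) (y - y') ≥ (1 - 16 ∑ c i) ‖y-y'‖² ≥ ‖y-y'‖²/2` (D_mono).
sur: for `n` let `ε n = 1/(n+1)`, `F n y = y + ∑ c i • selE (ε n) (u i) (rd (y - q i))`; by RGA (Lipschitz constant `K` uniform in `i`) it is Lipschitz, by RGB and ip_tsum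
strongly monotone with constant `1/2`; by ZAR there is `y n` with `F n (y n) = p`. `‖y n - p‖ ≤ 1/32`, so (compactness of a closed ball and code_subseq) along a subsequence `y n → y`,
`selE .. → v i` for all `i`; `v i ∈ D i y` by selE_lim, and `p = pt y v` by pt_tendsto. -/

set_option autoImplicit false

open Topology Filter Set Function

namespace TorD

namespace Fam

variable {ι : Type} (A : Fam ι)

/-- monotonicity of a perturbed identity -/
theorem SUR_mono {v v' : ι → ℂ} {y y' : ℂ} (hv : ∀ i, ‖v i‖ ≤ 1) (hv' : ∀ i, ‖v' i‖ ≤ 1)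
    (h : ∀ i, -16 * ‖y - y'‖ ^ 2 ≤ ip (v i - v' i) (y - y')) :
    1 / 2 * ‖y - y'‖ ^ 2 ≤ ip (A.pt y v - A.pt y' v') (y - y') := by
  rw [A.pt_sub hv hv', ip_add_left, ip_self]
  have hb : ∀ i, ‖v i - v' i‖ ≤ 2 := fun i =>
    (norm_sub_le _ _).trans (by linarith [hv i, hv' i])
  obtain ⟨h1, h2⟩ := A.ip_tsum hb (y - y')
  rw [h2]
  have h3 : ∑' i, A.c i * (-16 * ‖y - y'‖ ^ 2) ≤ ∑' i, A.c i * ip (v i - v' i) (y - y') := by
    refine Summable.tsum_le_tsum (fun i => ?_) (A.csum.mul_right _) h1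
    exact mul_le_mul_of_nonneg_left (h i) (A.cpos i).le
  rw [tsum_mul_right] at h3
  have h4 : -(1 / 2) * ‖y - y'‖ ^ 2 ≤ (∑' i, A.c i) * (-16 * ‖y - y'‖ ^ 2) := by
    have := A.cle
    nlinarith [sq_nonneg ‖y - y'‖]
  linarith

theorem uni {y y' : ℂ} {v v' : ι → ℂ} (hv : A.code y v) (hv' : A.code y' v') :
    1 / 2 * ‖y - y'‖ ^ 2 ≤ ip (A.pt y v - A.pt y' v') (y - y') :=
  A.SUR_mono (fun i => A.D_norm i (hv i)) (fun i => A.D_norm i (hv' i))
    (fun i => A.D_mono i (hv i) (hv' i))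

theorem SUR_lip {ε : ℝ} (hε : 0 < ε) : ∃ K : ℝ, ∀ y y' : ℂ,
    ‖A.pt y (fun i => selE ε (A.u i) (rd (y - A.q i))) -
      A.pt y' (fun i => selE ε (A.u i) (rd (y' - A.q i)))‖ ≤ K * ‖y - y'‖ := by
  obtain ⟨K, hK, h⟩ := selE_lip hε
  refine ⟨1 + K, fun y y' => ?_⟩
  rw [A.pt_sub (fun i => selE_norm hε _ _) (fun i => selE_norm hε _ _)]
  have h1 : ‖∑' i, A.c i • (selE ε (A.u i) (rd (y - A.q i)) - selE ε (A.u i) (rd (y' - A.q i)))‖ ≤
      ∑' i, A.c i * (K * ‖y - y'‖) := by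
    refine tsum_of_norm_bounded (A.csum.mul_right _).hasSum (fun i => ?_)
    rw [norm_smul, Real.norm_eq_abs, abs_of_pos (A.cpos i)]
    exact mul_le_mul_of_nonneg_left (h _ _ (A.ule i) y y') (A.cpos i).le
  rw [tsum_mul_right] at h1
  have h2 : (∑' i, A.c i) * (K * ‖y - y'‖) ≤ 1 * (K * ‖y - y'‖) := by
    refine mul_le_mul_of_nonneg_right ?_ (by positivity)
    linarith [A.cle]
  calc _ ≤ ‖y - y'‖ + _ := norm_add_le _ _
    _ ≤ ‖y - y'‖ + 1 * (K * ‖y - y'‖) := by linarith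
    _ = (1 + K) * ‖y - y'‖ := by ring

theorem SUR_reg {ε : ℝ} (hε : 0 < ε) (p : ℂ) :
    ∃ y : ℂ, A.pt y (fun i => selE ε (A.u i) (rd (y - A.q i))) = p := by
  obtain ⟨K, hK⟩ := A.SUR_lip hε
  obtain ⟨⟨_, hs⟩, _⟩ := zar (F := fun y => A.pt y (fun i => selE ε (A.u i) (rd (y - A.q i))))
    (K := K) (m := 1 / 2) (by norm_num) hK (fun y y' =>
      A.SUR_mono (fun i => selE_norm hε _ _) (fun i => selE_norm hε _ _)
        (fun i => selE_mono hε (A.ule i) _ _ _))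
  exact hs p

theorem sur [Countable ι] (p : ℂ) : ∃ (y : ℂ) (v : ι → ℂ), A.code y v ∧ p = A.pt y v := by
  have hε : ∀ n : ℕ, (0 : ℝ) < 1 / ((n : ℝ) + 1) := fun n => by positivity
  have hε0 : Tendsto (fun n : ℕ => 1 / ((n : ℝ) + 1)) atTop (𝓝 0) :=
    tendsto_one_div_add_atTop_nhds_zero_nat
  choose ys hys using fun n : ℕ => A.SUR_reg (hε n) p
  have hn : ∀ (n : ℕ) (i : ι), ‖selE (1 / ((n : ℝ) + 1)) (A.u i) (rd (ys n - A.q i))‖ ≤ 1 :=
    fun n i => selE_norm (hε n) _ _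
  have hball : ∀ n, ys n ∈ Metric.closedBall p (1 / 32) := by
    intro n
    rw [mem_closedBall_iff_norm]
    have e : ys n - p = -∑' i, A.c i • selE (1 / ((n : ℝ) + 1)) (A.u i) (rd (ys n - A.q i)) := by
      have e0 := hys n
      unfold pt at e0
      rw [← e0]; ring
    rw [e, norm_neg]
    exact A.norm_sum_code (hn n)
  obtain ⟨y, _, k, hk, hy⟩ := (isCompact_closedBall p (1 / 32)).tendsto_subseq hball
  obtain ⟨v, k', hk', hv1, hv⟩ := code_subseq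
    (fun n i => selE (1 / ((k n : ℝ) + 1)) (A.u i) (rd (ys (k n) - A.q i))) (fun n i => hn (k n) i)
  have hy' : Tendsto (fun n => ys (k (k' n))) atTop (𝓝 y) := hy.comp hk'.tendsto_atTop
  have he' : Tendsto (fun n => 1 / ((k (k' n) : ℝ) + 1)) atTop (𝓝 0) :=
    hε0.comp (hk.comp hk').tendsto_atTop
  refine ⟨y, v, fun i => ?_, ?_⟩
  · exact selE_lim (A.ule i) (fun n => hε (k (k' n))) he' hy' (hv i)
  · have h1 := A.pt_tendsto hy' hv (Eventually.of_forall fun n i => hn (k (k' n)) i)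
    have h2 : Tendsto (fun n => A.pt (ys (k (k' n)))
        (fun i => selE (1 / ((k (k' n) : ℝ) + 1)) (A.u i) (rd (ys (k (k' n)) - A.q i))))
        atTop (𝓝 p) := by
      simp only [hys]
      exact tendsto_const_nhds
    exact tendsto_nhds_unique h2 h1

end Fam

end TorD
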