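import Pool.Agent.H51.TD.LMI
import Pool.Agent.H51.TD.HMP

/-! # UCA: uniform continuity of `Pi y s ↦ Pi (φ y) s`

PROOF. Otherwise there are `ε` and `y n`, `y' n` irrational, `s n`, `s' n` with `‖Pi (y n) (s n) - Pi (y' n) (s' n)‖ < 1/(n+1)` and `‖Pi (φ (y n)) (s n) - Pi (φ (y' n)) (s' n)‖ ≥ ε`. Translating both by the
same lattice vector (`Pi (y + lat w) s = Pi y s + lat w` by V_lat, pt_lat; `φ` equivariant; rat2_lat) we may assume `‖y n‖ ≤ 3/4` (rd_sub, rd_norm). `‖y n - y' n‖ ≤ 2/(n+1)` (h_Pi, h_lip). Pass to a subsequence: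
`y n → y`, `y' n → y`, and (code_subseq four times) `V i (y n) (s n) → v i`, `V i (y' n) (s' n) → v' i`, `V i (φ (y n)) (s n) → w i`, `V i (φ (y' n)) (s' n) → w' i`. By pt_tendsto `pt y v = pt y v'` and
`‖pt (φ y) w - pt (φ y) w'‖ ≥ ε`. We show `w = w'`.
`y ∉ Rat2`: lim_irr twice: `v = V · y τ`, `w = V · (φ y) τ`, `v' = V · y τ'`, `w' = V · (φ y) τ'`. `Pi y τ = Pi y τ'`. If a piece is on `y`, `τ = τ'` (Pi_inj). If none, none is on `φ y` (TS_on), V_off.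
`y ∈ Rat2`: `y n ≠ y`, `y' n ≠ y`. Pass to subsequences with directions `θ`, `θ₁` (DT.subseq), `Dr φ y θ θ'`, `Dr φ y θ₁ θ₁'`. Arr.lim twice: `v = W · y θ σ`, `w = W · (φ y) θ' σ`, `v' = W · y θ₁ σ₁`,
`w' = W · (φ y) θ₁' σ₁`, `P y θ σ = P y θ₁ σ₁`; P_inj: `θ = θ₁` (so `θ' = θ₁'`), `W i y θ σ = W i y θ σ₁`. If `k` is along `(y,θ)` then `σ = σ₁` (W_al, nn_norm). If none is along, none is along `(φ y,θ')` (Dr_nal) and
W_nal. -/

set_option autoImplicit false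

open Topology Filter Set Function

namespace TorD

theorem Arr.Pi_lat {ι : Type} (A : Arr ι) (y : ℂ) (w : ℤ × ℤ) (s : ℝ) :
    A.Pi (y + lat w) s = A.Pi y s + lat w := by
  have h1 : (fun i => A.V i (y + lat w) s) = fun i => A.V i y s := by
    funext i
    exact A.V_lat i y w s
  show A.pt (y + lat w) (fun i => A.V i (y + lat w) s) = A.pt y (fun i => A.V i y s) + lat w
  rw [h1]
  exact A.pt_lat y w _

theorem UCA_lim {ι : Type} (A : Arr ι) {ys : ℕ → ℂ} {ss : ℕ → ℝ} {y : ℂ} {v : ι → ℂ}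
    (hy : Tendsto ys atTop (𝓝 y)) (hs : ∀ n, |ss n| ≤ 1)
    (hv : ∀ i, Tendsto (fun n => A.V i (ys n) (ss n)) atTop (𝓝 (v i))) :
    Tendsto (fun n => A.Pi (ys n) (ss n)) atTop (𝓝 (A.pt y v)) :=
  A.pt_tendsto hy hv (Eventually.of_forall fun n i => FIB_V_norm A.toFam (ys n) (hs n) i)

theorem UCA_core {ι : Type} [Countable ι] (A : Arr ι) {φ ψ : ℂ → ℂ} (H : Dyn2 A φ ψ)
    {ys ys' : ℕ → ℂ} {ss ss' : ℕ → ℝ} {y : ℂ} (hi : ∀ n, ys n ∉ Rat2) (hi' : ∀ n, ys' n ∉ Rat2)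
    (hs : ∀ n, |ss n| ≤ 1) (hs' : ∀ n, |ss' n| ≤ 1) (hy : Tendsto ys atTop (𝓝 y))
    (hy' : Tendsto ys' atTop (𝓝 y)) {v v' w w' : ι → ℂ}
    (hv : ∀ i, Tendsto (fun n => A.V i (ys n) (ss n)) atTop (𝓝 (v i)))
    (hv' : ∀ i, Tendsto (fun n => A.V i (ys' n) (ss' n)) atTop (𝓝 (v' i)))
    (hw : ∀ i, Tendsto (fun n => A.V i (φ (ys n)) (ss n)) atTop (𝓝 (w i)))
    (hw' : ∀ i, Tendsto (fun n => A.V i (φ (ys' n)) (ss' n)) atTop (𝓝 (w' i)))
    (heq : A.pt y v = A.pt y v') : w = w' := by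
  by_cases hyr : y ∈ Rat2
  · have hne : ∀ n, ys n ≠ y := fun n h => hi n (h ▸ hyr)
    have hne' : ∀ n, ys' n ≠ y := fun n h => hi' n (h ▸ hyr)
    obtain ⟨θ, k, hk, hd⟩ := DT.subseq hy hne
    obtain ⟨θ₁, k', hk', hd'⟩ := DT.subseq (hy'.comp hk.tendsto_atTop) (fun n => hne' (k n))
    have hd2 : DT (fun n => ys (k (k' n))) y θ := DT.comp hd hk'
    have hd3 : DT (fun n => ys' (k (k' n))) y θ₁ := hd'
    have hθ := DT.norm hd
    have hθ₁ := DT.norm hd'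
    obtain ⟨θ', hD⟩ := Dr_exists H.dφ y hθ
    obtain ⟨θ₁', hD₁⟩ := Dr_exists H.dφ y hθ₁
    have hkk : Tendsto (fun n => k (k' n)) atTop atTop := hk.tendsto_atTop.comp hk'.tendsto_atTop
    obtain ⟨σ, hσ, h1, h2⟩ := A.lim H hD hd2 (fun n => hs (k (k' n)))
      (fun i => (hv i).comp hkk) (fun i => (hw i).comp hkk)
    obtain ⟨σ₁, hσ₁, h1', h2'⟩ := A.lim H hD₁ hd3 (fun n => hs' (k (k' n)))
      (fun i => (hv' i).comp hkk) (fun i => (hw' i).comp hkk)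
    have hP : A.P y θ σ = A.P y θ₁ σ₁ := by
      show A.pt y (fun i => A.W i y θ σ) = A.pt y (fun i => A.W i y θ₁ σ₁)
      have e1 : (fun i => A.W i y θ σ) = v := by
        funext i
        exact (h1 i).symm
      have e2 : (fun i => A.W i y θ₁ σ₁) = v' := by
        funext i
        exact (h1' i).symm
      rw [e1, e2, heq]
    obtain ⟨hθθ, hW⟩ := A.P_inj hyr hθ hθ₁ hσ hσ₁ hP
    subst hθθ
    have hθ' : θ' = θ₁' := Dr_unique hD hD₁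
    subst hθ'
    funext i
    rw [h2 i, h2' i]
    by_cases hal : ∃ j, A.al j y θ
    · obtain ⟨j, hj⟩ := hal
      have e1 := hW j
      rw [A.W_al j hj, A.W_al j hj] at e1
      have hu := (A.al_dir j hθ hj).1
      have hn : A.nn j ≠ 0 := by
        intro h0
        have h3 := A.nn_norm j hu
        rw [h0, norm_zero] at h3
        exact zero_ne_one h3
      have e2 : σ = σ₁ := smul_left_injective ℝ hn e1
      rw [e2]
    · have hal2 : ∀ j, ¬ A.al j y θ := fun j hj => hal ⟨j, hj⟩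
      exact A.W_nal i hD.2.1 (Dr_nal H hD hal2 i) σ σ₁
  · obtain ⟨τ, hτ, h1, h2⟩ := A.lim_irr H hyr hy hs hv hw
    obtain ⟨τ', hτ', h1', h2'⟩ := A.lim_irr H hyr hy' hs' hv' hw'
    have hP : A.Pi y τ = A.Pi y τ' := by
      show A.pt y (fun i => A.V i y τ) = A.pt y (fun i => A.V i y τ')
      have e1 : (fun i => A.V i y τ) = v := by
        funext i
        exact (h1 i).symm
      have e2 : (fun i => A.V i y τ') = v' := by
        funext i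
        exact (h1' i).symm
      rw [e1, e2, heq]
    funext i
    rw [h2 i, h2' i]
    by_cases hon : ∃ j, A.On j y
    · obtain ⟨j, hj⟩ := hon
      have e1 : τ = τ' := (A.Pi_inj hτ hτ' hyr hP).2 j hj
      rw [e1]
    · have hon2 : ∀ j, ¬ A.On j y := fun j hj => hon ⟨j, hj⟩
      have h3 := TS_on H hyr hon2 i
      rw [A.V_off i h3, A.V_off i h3]

theorem Arr.uc {ι : Type} [Countable ι] (A : Arr ι) {φ ψ : ℂ → ℂ} (H : Dyn2 A φ ψ) {ε : ℝ}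
    (hε : 0 < ε) : ∃ δ : ℝ, 0 < δ ∧ ∀ (y y' : ℂ) (s s' : ℝ), y ∉ Rat2 → y' ∉ Rat2 → |s| ≤ 1 →
      |s'| ≤ 1 → ‖A.Pi y s - A.Pi y' s'‖ < δ → ‖A.Pi (φ y) s - A.Pi (φ y') s'‖ < ε := by
  by_contra hcon
  push Not at hcon
  have hstep : ∀ n : ℕ, ∃ (y y' : ℂ) (s s' : ℝ), y ∉ Rat2 ∧ y' ∉ Rat2 ∧ |s| ≤ 1 ∧ |s'| ≤ 1 ∧
      ‖y‖ ≤ 3 / 4 ∧ ‖A.Pi y s - A.Pi y' s'‖ < 1 / ((n : ℝ) + 1) ∧
      ε ≤ ‖A.Pi (φ y) s - A.Pi (φ y') s'‖ := by
    intro n
    obtain ⟨y, y', s, s', h1, h2, h3, h4, h5, h6⟩ := hcon (1 / ((n : ℝ) + 1)) Nat.one_div_pos_of_nat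
    obtain ⟨w, hw⟩ := rd_sub y
    refine ⟨y + lat (-w), y' + lat (-w), s, s', ?_, ?_, h3, h4, ?_, ?_, ?_⟩
    · rw [rat2_lat]
      exact h1
    · rw [rat2_lat]
      exact h2
    · rw [lat_neg, ← sub_eq_add_neg, ← hw]
      exact rd_norm y
    · rw [A.Pi_lat, A.Pi_lat, add_sub_add_right_eq_sub]
      exact h5
    · rw [H.dφ.eqv, H.dφ.eqv, A.Pi_lat, A.Pi_lat, add_sub_add_right_eq_sub]
      exact h6
  choose ys ys' ss ss' hi hi' hs hs' hb hclose hfar using hstep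
  have hd : ∀ n : ℕ, ‖ys' n - ys n‖ ≤ 2 * (1 / ((n : ℝ) + 1)) := by
    intro n
    have h1 := A.h_lip (A.Pi (ys n) (ss n)) (A.Pi (ys' n) (ss' n))
    rw [A.h_Pi (ys n) (hs n), A.h_Pi (ys' n) (hs' n)] at h1
    rw [norm_sub_rev]
    have h2 := hclose n
    linarith
  obtain ⟨y, -, k0, hk0, hy0⟩ := (isCompact_closedBall (0 : ℂ) (3 / 4)).tendsto_subseq
    (fun n => by rw [mem_closedBall_zero_iff]; exact hb n)
  have hd0 : Tendsto (fun n => ys' n - ys n) atTop (𝓝 0) := by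
    refine squeeze_zero_norm hd ?_
    have := (tendsto_one_div_add_atTop_nhds_zero_nat (𝕜 := ℝ)).const_mul 2
    rwa [mul_zero] at this
  let vs : ℕ → (ι ⊕ ι) ⊕ (ι ⊕ ι) → ℂ := fun n => Sum.elim
    (Sum.elim (fun i => A.V i (ys (k0 n)) (ss (k0 n))) (fun i => A.V i (ys' (k0 n)) (ss' (k0 n))))
    (Sum.elim (fun i => A.V i (φ (ys (k0 n))) (ss (k0 n)))
      (fun i => A.V i (φ (ys' (k0 n))) (ss' (k0 n))))
  have hvs : ∀ n i, ‖vs n i‖ ≤ 1 := by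
    rintro n ((i | i) | (i | i))
    · exact FIB_V_norm A.toFam _ (hs _) i
    · exact FIB_V_norm A.toFam _ (hs' _) i
    · exact FIB_V_norm A.toFam _ (hs _) i
    · exact FIB_V_norm A.toFam _ (hs' _) i
  obtain ⟨V0, k1, hk1, -, hV0⟩ := code_subseq vs hvs
  have hK : Tendsto (fun n => k0 (k1 n)) atTop atTop := hk0.tendsto_atTop.comp hk1.tendsto_atTop
  have hy : Tendsto (fun n => ys (k0 (k1 n))) atTop (𝓝 y) := hy0.comp hk1.tendsto_atTop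
  have hy' : Tendsto (fun n => ys' (k0 (k1 n))) atTop (𝓝 y) := by
    have h1 := (hd0.comp hK).add hy
    rw [zero_add] at h1
    refine h1.congr fun n => ?_
    show ys' (k0 (k1 n)) - ys (k0 (k1 n)) + ys (k0 (k1 n)) = ys' (k0 (k1 n))
    ring
  have v1 : ∀ i, Tendsto (fun n => A.V i (ys (k0 (k1 n))) (ss (k0 (k1 n)))) atTop
      (𝓝 (V0 (Sum.inl (Sum.inl i)))) := fun i => hV0 (Sum.inl (Sum.inl i))
  have v2 : ∀ i, Tendsto (fun n => A.V i (ys' (k0 (k1 n))) (ss' (k0 (k1 n)))) atTop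
      (𝓝 (V0 (Sum.inl (Sum.inr i)))) := fun i => hV0 (Sum.inl (Sum.inr i))
  have v3 : ∀ i, Tendsto (fun n => A.V i (φ (ys (k0 (k1 n)))) (ss (k0 (k1 n)))) atTop
      (𝓝 (V0 (Sum.inr (Sum.inl i)))) := fun i => hV0 (Sum.inr (Sum.inl i))
  have v4 : ∀ i, Tendsto (fun n => A.V i (φ (ys' (k0 (k1 n)))) (ss' (k0 (k1 n)))) atTop
      (𝓝 (V0 (Sum.inr (Sum.inr i)))) := fun i => hV0 (Sum.inr (Sum.inr i))
  have p1 := UCA_lim A hy (fun n => hs (k0 (k1 n))) v1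
  have p2 := UCA_lim A hy' (fun n => hs' (k0 (k1 n))) v2
  have p3 := UCA_lim A ((H.dφ.cont.tendsto y).comp hy) (fun n => hs (k0 (k1 n))) v3
  have p4 := UCA_lim A ((H.dφ.cont.tendsto y).comp hy') (fun n => hs' (k0 (k1 n))) v4
  have heq : A.pt y (fun i => V0 (Sum.inl (Sum.inl i))) = A.pt y (fun i => V0 (Sum.inl (Sum.inr i))) := by
    have h1 := (p1.sub p2).norm
    have h2 : Tendsto (fun n => ‖A.Pi (ys (k0 (k1 n))) (ss (k0 (k1 n))) -
        A.Pi (ys' (k0 (k1 n))) (ss' (k0 (k1 n)))‖) atTop (𝓝 0) := by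
      refine squeeze_zero (fun n => norm_nonneg _) (fun n => (hclose (k0 (k1 n))).le) ?_
      exact (tendsto_one_div_add_atTop_nhds_zero_nat (𝕜 := ℝ)).comp hK
    have h3 := tendsto_nhds_unique h1 h2
    exact sub_eq_zero.1 (norm_eq_zero.1 h3)
  have hww := UCA_core A H (fun n => hi (k0 (k1 n))) (fun n => hi' (k0 (k1 n)))
    (fun n => hs (k0 (k1 n))) (fun n => hs' (k0 (k1 n))) hy hy' v1 v2 v3 v4 heq
  have h5 : ε ≤ ‖A.pt (φ y) (fun i => V0 (Sum.inr (Sum.inl i))) -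
      A.pt (φ y) (fun i => V0 (Sum.inr (Sum.inr i)))‖ :=
    ge_of_tendsto (p3.sub p4).norm (Eventually.of_forall fun n => hfar (k0 (k1 n)))
  rw [hww, sub_self, norm_zero] at h5
  linarith

end TorD
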